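import Pool.Agent.H60.NT.Def

/-!
# [H60 NT RGGEO] Geometry of the rings

All from the definitions and `p2 (j+1) = 2 p2 j`. `fr x₀ j = rg x₀ (j-1) ∪ rg x₀ j ∪ rg x₀ (j+1)` for `j ≥ 1`. Two rings
`rg x₀ j`, `rg x₀ j'` with `j < j'` meet only in a sphere about `x₀` (`Measure.addHaar_sphere`), measure zero. Volume of
`fr x₀ j`: contained in `closedBall x₀ (4/p2 j)`.
-/

set_option autoImplicit false

namespace H60NT

open H60NH MeasureTheory Metric Set Filter Topology
open scoped ENNReal NNReal ContDiff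

theorem p2_succ (j : ℕ) : p2 (j + 1) = 2 * p2 j ∧ 0 < p2 j ∧ 1 ≤ p2 j := by
  unfold p2
  refine ⟨by ring, by positivity, one_le_pow₀ (by norm_num)⟩

lemma rgGeo_shell_closed {n : ℕ} (x₀ : E n) (a b : ℝ) :
    IsClosed {x : E n | a ≤ ‖x - x₀‖ ∧ ‖x - x₀‖ ≤ b} := by
  have h1 : IsClosed {x : E n | a ≤ ‖x - x₀‖} := isClosed_le continuous_const (by fun_prop)
  have h2 : IsClosed {x : E n | ‖x - x₀‖ ≤ b} := isClosed_le (by fun_prop) continuous_const
  exact h1.inter h2

theorem rg_meas {n : ℕ} (x₀ : E n) (j : ℕ) :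
    MeasurableSet (rg x₀ j) ∧ MeasurableSet (fr x₀ j) ∧ MeasurableSet (br x₀ j) :=
  ⟨(rgGeo_shell_closed x₀ _ _).measurableSet, (rgGeo_shell_closed x₀ _ _).measurableSet,
    (rgGeo_shell_closed x₀ _ _).measurableSet⟩

theorem fr_eq {n : ℕ} (x₀ : E n) (j : ℕ) (hj : 1 ≤ j) :
    fr x₀ j = rg x₀ (j - 1) ∪ rg x₀ j ∪ rg x₀ (j + 1) ∧ rg x₀ j ⊆ fr x₀ j ∧
      fr x₀ j ∪ fr x₀ (j + 1) ⊆ br x₀ j ∧ fr x₀ j ⊆ ball x₀ (8 / p2 j) := by
  obtain ⟨h1, h2, h3⟩ := p2_succ j
  obtain ⟨g1, g2, g3⟩ := p2_succ (j - 1)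
  rw [Nat.sub_add_cancel hj] at g1
  have a1 : 1 / p2 (j - 1) = 2 / p2 j := by rw [g1]; field_simp
  have a2 : 2 / p2 (j - 1) = 4 / p2 j := by rw [g1]; field_simp; norm_num
  have a3 : 2 / p2 (j + 1) = 1 / p2 j := by rw [h1]; field_simp
  have a4 : 4 / p2 (j + 1) = 2 / p2 j := by rw [h1]; field_simp; norm_num
  set c := 1 / p2 j with hc
  have hc0 : 0 < c := by positivity
  have b1 : 2 / p2 j = 2 * c := by rw [hc]; ring
  have b2 : 4 / p2 j = 4 * c := by rw [hc]; ring
  have b3 : 8 / p2 j = 8 * c := by rw [hc]; ring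
  have b4 : 16 / p2 j = 16 * c := by rw [hc]; ring
  have b5 : 1 / (2 * p2 j) = c / 2 := by rw [hc]; field_simp
  have b6 : 1 / (8 * p2 j) = c / 8 := by rw [hc]; field_simp
  have b7 : 1 / (2 * (2 * p2 j)) = c / 4 := by rw [hc]; field_simp; norm_num
  refine ⟨?_, ?_, ?_, ?_⟩
  · ext x
    simp only [fr, rg, mem_setOf_eq, mem_union, a1, a2, a3, b1, b2, b5]
    rw [show 1 / p2 (j + 1) = c / 2 by rw [h1, b5]]
    constructor
    · rintro ⟨k1, k2⟩
      by_cases k3 : ‖x - x₀‖ ≤ c
      · right; exact ⟨k1, k3⟩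
      · push Not at k3
        by_cases k4 : ‖x - x₀‖ ≤ 2 * c
        · left; right; exact ⟨k3.le, k4⟩
        · push Not at k4
          left; left; exact ⟨k4.le, k2⟩
    · rintro ((k | k) | k)
      · exact ⟨by linarith [k.1], k.2⟩
      · exact ⟨by linarith [k.1], by linarith [k.2]⟩
      · exact ⟨k.1, by linarith [k.2]⟩
  · intro x hx
    simp only [fr, rg, mem_setOf_eq, b1, b2, b5] at hx ⊢
    exact ⟨by linarith [hx.1], by linarith [hx.2]⟩
  · intro x hx
    simp only [fr, br, mem_setOf_eq, mem_union, h1, b2, b4, b5, b6, b7] at hx ⊢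
    rcases hx with k | k
    · exact ⟨by linarith [k.1], by linarith [k.2]⟩
    · have e : 4 / (2 * p2 j) = 2 * c := by rw [hc]; field_simp; norm_num
      rw [e] at k
      exact ⟨by linarith [k.1], by linarith [k.2]⟩
  · intro x hx
    simp only [fr, mem_setOf_eq, b2, b5] at hx
    rw [mem_ball, dist_eq_norm, b3]
    linarith [hx.2]

lemma rgGeo_null_lt {n : ℕ} (x₀ : E n) (j j' : ℕ) (h : j < j') :
    volume (rg x₀ j ∩ rg x₀ j') = 0 := by
  have hp := (p2_succ j).2.1
  have hp' := (p2_succ j').2.1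
  have hsub : rg x₀ j ∩ rg x₀ j' ⊆ sphere x₀ (1 / p2 j) := by
    intro x hx
    rw [mem_sphere, dist_eq_norm]
    apply le_antisymm _ hx.1.1
    refine hx.2.2.trans ?_
    have h1 : p2 (j + 1) ≤ p2 j' := by
      unfold p2
      exact pow_le_pow_right₀ (by norm_num) h
    rw [(p2_succ j).1] at h1
    rw [div_le_div_iff₀ hp' hp]
    linarith
  refine measure_mono_null hsub ?_
  exact Measure.addHaar_sphere_of_ne_zero volume x₀ (by positivity)

theorem rg_null {n : ℕ} (hn : 1 ≤ n) (x₀ : E n) (j j' : ℕ) (h : j ≠ j') :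
    volume (rg x₀ j ∩ rg x₀ j') = 0 := by
  rcases lt_or_gt_of_ne h with h | h
  · exact rgGeo_null_lt x₀ j j' h
  · rw [inter_comm]
    exact rgGeo_null_lt x₀ j' j h

theorem fr_vol (n : ℕ) (hn : 1 ≤ n) : ∃ C : ℝ, 1 ≤ C ∧ ∀ (x₀ : E n) (j : ℕ),
    p2 j ^ n * (volume (fr x₀ j)).toReal ≤ C ∧ volume (fr x₀ j) < ⊤ ∧
      p2 j ^ n * (volume (rg x₀ j)).toReal ≤ C ∧ 1 ≤ C * (p2 j ^ n * (volume (rg x₀ j)).toReal) := by
  set ωv : ℝ := (volume (ball (0 : E n) 1)).toReal with hωv
  have hωv0 : 0 < ωv := by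
    rw [hωv, ENNReal.toReal_pos_iff]
    exact ⟨measure_ball_pos _ _ (by norm_num), measure_ball_lt_top⟩
  have hcb : ∀ (x₀ : E n) (r : ℝ), 0 ≤ r →
      (volume (closedBall x₀ r)).toReal = r ^ n * ωv := by
    intro x₀ r hr
    rw [Measure.addHaar_closedBall _ _ hr, ENNReal.toReal_mul, finrank_euclideanSpace,
      Fintype.card_fin, ENNReal.toReal_ofReal (by positivity)]
  have hb : ∀ (x₀ : E n) (r : ℝ), 0 ≤ r →
      (volume (ball x₀ r)).toReal = r ^ n * ωv := by
    intro x₀ r hr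
    have : Nonempty (Fin n) := ⟨⟨0, hn⟩⟩
    rw [Measure.addHaar_ball _ _ hr, ENNReal.toReal_mul, finrank_euclideanSpace,
      Fintype.card_fin, ENNReal.toReal_ofReal (by positivity)]
  have hC0 : 0 < 4 ^ n * ωv + 1 / ωv := by positivity
  refine ⟨1 + 4 ^ n * ωv + 1 / ωv, by linarith, ?_⟩
  intro x₀ j
  have hp := (p2_succ j).2.1
  have hfr : fr x₀ j ⊆ closedBall x₀ (4 / p2 j) := by
    intro x hx
    rw [mem_closedBall, dist_eq_norm]
    exact hx.2
  have hrg : rg x₀ j ⊆ closedBall x₀ (4 / p2 j) := by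
    intro x hx
    rw [mem_closedBall, dist_eq_norm]
    refine hx.2.trans ?_
    apply div_le_div_of_nonneg_right (by norm_num) hp.le
  have hv : p2 j ^ n * (volume (closedBall x₀ (4 / p2 j))).toReal = 4 ^ n * ωv := by
    rw [hcb _ _ (by positivity), div_pow]
    field_simp
  have hge : ωv ≤ p2 j ^ n * (volume (rg x₀ j)).toReal := by
    have h1 : closedBall x₀ (2 / p2 j) \ ball x₀ (1 / p2 j) ⊆ rg x₀ j := by
      intro x hx
      rw [mem_diff, mem_closedBall, mem_ball, dist_eq_norm, not_lt] at hx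
      exact ⟨hx.2, hx.1⟩
    have h2 : ball x₀ (1 / p2 j) ⊆ closedBall x₀ (2 / p2 j) := by
      refine ball_subset_closedBall.trans (closedBall_subset_closedBall ?_)
      apply div_le_div_of_nonneg_right (by norm_num) hp.le
    have h3 : (volume (closedBall x₀ (2 / p2 j) \ ball x₀ (1 / p2 j))).toReal =
        (2 / p2 j) ^ n * ωv - (1 / p2 j) ^ n * ωv := by
      rw [measure_diff h2 measurableSet_ball.nullMeasurableSet measure_ball_lt_top.ne,
        ENNReal.toReal_sub_of_le (measure_mono h2) measure_closedBall_lt_top.ne,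
        hcb _ _ (by positivity), hb _ _ (by positivity)]
    have h4 : (volume (closedBall x₀ (2 / p2 j) \ ball x₀ (1 / p2 j))).toReal ≤
        (volume (rg x₀ j)).toReal := by
      apply ENNReal.toReal_mono _ (measure_mono h1)
      exact ((measure_mono hrg).trans_lt measure_closedBall_lt_top).ne
    rw [h3] at h4
    have h5 : p2 j ^ n * ((2 / p2 j) ^ n * ωv - (1 / p2 j) ^ n * ωv) = (2 ^ n - 1) * ωv := by
      rw [div_pow, div_pow, one_pow]
      field_simp
    have h6 : (2 : ℝ) ≤ 2 ^ n := by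
      calc (2 : ℝ) = 2 ^ 1 := by norm_num
        _ ≤ 2 ^ n := pow_le_pow_right₀ (by norm_num) hn
    calc ωv ≤ (2 ^ n - 1) * ωv := by nlinarith
      _ = p2 j ^ n * ((2 / p2 j) ^ n * ωv - (1 / p2 j) ^ n * ωv) := h5.symm
      _ ≤ p2 j ^ n * (volume (rg x₀ j)).toReal := mul_le_mul_of_nonneg_left h4 (by positivity)
  have h7 : 0 ≤ 1 / ωv := by positivity
  have h8 : 0 ≤ 4 ^ n * ωv := by positivity
  refine ⟨?_, ?_, ?_, ?_⟩
  · have : (volume (fr x₀ j)).toReal ≤ (volume (closedBall x₀ (4 / p2 j))).toReal :=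
      ENNReal.toReal_mono measure_closedBall_lt_top.ne (measure_mono hfr)
    have h9 := mul_le_mul_of_nonneg_left this (show 0 ≤ p2 j ^ n by positivity)
    rw [hv] at h9
    linarith
  · exact (measure_mono hfr).trans_lt measure_closedBall_lt_top
  · have : (volume (rg x₀ j)).toReal ≤ (volume (closedBall x₀ (4 / p2 j))).toReal :=
      ENNReal.toReal_mono measure_closedBall_lt_top.ne (measure_mono hrg)
    have h9 := mul_le_mul_of_nonneg_left this (show 0 ≤ p2 j ^ n by positivity)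
    rw [hv] at h9
    linarith
  · calc (1 : ℝ) = 1 / ωv * ωv := by field_simp
      _ ≤ (1 + 4 ^ n * ωv + 1 / ωv) * (p2 j ^ n * (volume (rg x₀ j)).toReal) := by
          apply mul_le_mul (by linarith) hge hωv0.le (by linarith)

/-- Integrals over `R_j` and over the three rings. -/
theorem fr_int {n : ℕ} (hn : 1 ≤ n) (x₀ : E n) (j : ℕ) (hj : 1 ≤ j) (S : Set (E n))
    (hS : MeasurableSet S) (h : E n → ℝ) (h0 : ∀ x, 0 ≤ h x)
    (hi : IntegrableOn h (fr x₀ j ∩ S)) :
    ∫ x in fr x₀ j ∩ S, h x ≤ (∫ x in rg x₀ (j - 1) ∩ S, h x) + (∫ x in rg x₀ j ∩ S, h x) +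
      ∫ x in rg x₀ (j + 1) ∩ S, h x := by
  have e : fr x₀ j ∩ S = (rg x₀ (j - 1) ∩ S ∪ rg x₀ j ∩ S) ∪ rg x₀ (j + 1) ∩ S := by
    rw [(fr_eq x₀ j hj).1]
    rw [union_inter_distrib_right, union_inter_distrib_right]
  have i1 : IntegrableOn h (rg x₀ (j - 1) ∩ S) := hi.mono_set (by
    rw [e]; intro x hx; left; left; exact hx)
  have i2 : IntegrableOn h (rg x₀ j ∩ S) := hi.mono_set (by
    rw [e]; intro x hx; left; right; exact hx)
  have i3 : IntegrableOn h (rg x₀ (j + 1) ∩ S) := hi.mono_set (by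
    rw [e]; intro x hx; right; exact hx)
  have m1 : ∀ i, MeasurableSet (rg x₀ i ∩ S) := fun i => (rg_meas x₀ i).1.inter hS
  have d : ∀ i i', i ≠ i' → AEDisjoint volume (rg x₀ i ∩ S) (rg x₀ i' ∩ S) := by
    intro i i' hii
    refine measure_mono_null ?_ (rg_null hn x₀ i i' hii)
    intro x hx
    exact ⟨hx.1.1, hx.2.1⟩
  have d2 : AEDisjoint volume (rg x₀ (j - 1) ∩ S ∪ rg x₀ j ∩ S) (rg x₀ (j + 1) ∩ S) := by
    rw [AEDisjoint, union_inter_distrib_right]
    exact measure_union_null (d _ _ (by omega)) (d _ _ (by omega))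
  rw [e, setIntegral_union₀ d2 (m1 _).nullMeasurableSet (i1.union i2) i3,
    setIntegral_union₀ (d _ _ (by omega)) (m1 _).nullMeasurableSet i1 i2]

/-- Every point is in at most seven of the sets `br x₀ j`: sums of energies. -/
theorem br_sum {n : ℕ} (x₀ : E n) (a b : ℕ) (f : E n → ℝ) (h0 : ∀ x, 0 ≤ f x)
    (hi : Integrable f) (r : ℝ) (hr : 16 / p2 a ≤ r) :
    ∑ j ∈ Finset.Icc a b, ∫ x in br x₀ j, f x ≤ 9 * ∫ x in closedBall x₀ r, f x := by
  classical
  have hm : ∀ j, MeasurableSet (br x₀ j) := fun j => (rg_meas x₀ j).2.2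
  have e1 : ∑ j ∈ Finset.Icc a b, ∫ x in br x₀ j, f x =
      ∫ x, ∑ j ∈ Finset.Icc a b, (br x₀ j).indicator f x := by
    rw [integral_finsetSum]
    · apply Finset.sum_congr rfl
      intro j _
      rw [integral_indicator (hm j)]
    · intro j _
      exact hi.indicator (hm j)
  have e2 : 9 * ∫ x in closedBall x₀ r, f x =
      ∫ x, 9 * (closedBall x₀ r).indicator f x := by
    rw [integral_const_mul, integral_indicator isClosed_closedBall.measurableSet]
  rw [e1, e2]
  apply integral_mono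
  · exact integrable_finsetSum _ (fun j _ => hi.indicator (hm j))
  · exact (hi.indicator isClosed_closedBall.measurableSet).const_mul 9
  · intro x
    simp only
    have e3 : ∑ j ∈ Finset.Icc a b, (br x₀ j).indicator f x =
        (((Finset.Icc a b).filter (fun j => x ∈ br x₀ j)).card : ℝ) * f x := by
      rw [Finset.card_filter, Nat.cast_sum, Finset.sum_mul]
      apply Finset.sum_congr rfl
      intro j _
      by_cases h : x ∈ br x₀ j
      · rw [indicator_of_mem h, if_pos h]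
        simp
      · rw [indicator_of_notMem h, if_neg h]
        simp
    rw [e3]
    set J := (Finset.Icc a b).filter (fun j => x ∈ br x₀ j) with hJ
    rcases J.eq_empty_or_nonempty with h | h
    · rw [h]
      simp only [Finset.card_empty, Nat.cast_zero, zero_mul]
      exact mul_nonneg (by norm_num) (indicator_nonneg (fun y _ => h0 y) x)
    · have hmem : ∀ j, j ∈ J ↔ (a ≤ j ∧ j ≤ b) ∧ x ∈ br x₀ j := by
        intro j
        rw [hJ, Finset.mem_filter, Finset.mem_Icc]
      set j0 := J.min' h with hj0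
      have hj0J : j0 ∈ J := Finset.min'_mem J h
      have hx : x ∈ closedBall x₀ r := by
        rw [mem_closedBall, dist_eq_norm]
        have h1 := (hmem j0).mp hj0J
        refine (h1.2.2.trans ?_).trans hr
        apply div_le_div_of_nonneg_left (by norm_num) (p2_succ a).2.1
        unfold p2
        exact pow_le_pow_right₀ (by norm_num) h1.1.1
      rw [indicator_of_mem hx]
      apply mul_le_mul_of_nonneg_right _ (h0 x)
      have hsub : J ⊆ Finset.Icc j0 (j0 + 7) := by
        intro j hj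
        rw [Finset.mem_Icc]
        refine ⟨Finset.min'_le J j hj, ?_⟩
        by_contra hc
        push Not at hc
        have h1 := ((hmem j).mp hj).2.2
        have h2 := ((hmem j0).mp hj0J).2.1
        have hp := (p2_succ j).2.1
        have hp0 := (p2_succ j0).2.1
        have h3 : 1 / (8 * p2 j0) ≤ 16 / p2 j := h2.trans h1
        rw [div_le_div_iff₀ (by positivity) hp] at h3
        have h4 : p2 (j0 + 8) ≤ p2 j := by
          unfold p2
          exact pow_le_pow_right₀ (by norm_num) hc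
        have h5 : p2 (j0 + 8) = 256 * p2 j0 := by
          unfold p2
          rw [pow_add]
          norm_num
          ring
        rw [h5] at h4
        linarith
      have h6 := Finset.card_le_card hsub
      rw [Nat.card_Icc] at h6
      have h7 : J.card ≤ 9 := by omega
      exact_mod_cast h7

end H60NT
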