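import Pool.Agent.H60.NT.Def4

/-!
The statements of `iter` and `block_pay`, as hypotheses of later modules.
-/

set_option autoImplicit false

namespace H60NT

open H60NH MeasureTheory Metric Set Filter Topology
open scoped ENNReal NNReal ContDiff

/-- The statement of `iter`. -/
def IterS {n m : ℕ} (P : Par n m) : Prop :=
  ∀ Cp : ℝ, 1 ≤ Cp → UniQ P (fun C _ R =>
    (∀ α β : ℕ, R.k + R.W ≤ α → α + 2 ≤ β → β ≤ α + R.W → Nonempty (Pf R Cp α β)) →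
    ∀ (s : ℕ) (ηb : ℝ) (V : ℕ → (Fin n → ℤ) → ℝ), R.k + R.W ≤ s → 0 ≤ ηb → ηb ≤ 1 →
      (∀ j z, 0 ≤ V j z) →
      (∀ (α β : ℕ) (pf : Pf R Cp α β), s ≤ α → β ≤ s + R.W → α + 2 ≤ β → pf.HV ηb V) →
      ∃ (mm j2 : ℕ) (pf : Pf R Cp mm j2), s ≤ mm ∧ mm + 2 ≤ j2 ∧ j2 ≤ s + R.W ∧
        ηb * pf.Zp mm ≤ C * Real.sqrt R.e *
            (∑ j ∈ Finset.Ico s (s + R.W), ∑ z ∈ box n (j + R.T + n), V j z) +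
          C * R.e ^ (R.Q + 3) * ∑ j ∈ Finset.Icc (s - 4) (s + R.W + 4), R.Dj j)

/-- The statement of `block_pay`. -/
def BPay {n m : ℕ} (P : Par n m) (L₀ : ℝ) : Prop :=
    ∃ t₁ : ℝ, 0 < t₁ ∧ ∀ (Q : ℕ) (C₅ t₀ : ℝ), 1 ≤ C₅ → 0 < t₀ → t₀ ≤ t₁ →
    ∃ e₁ C : ℝ, 0 < e₁ ∧ e₁ ≤ 1 ∧ 1 ≤ C ∧ ∀ (D : Dyn P) (nd : Node n) (x₀ : E n) (T W s : ℕ)
      (e ρ : ℝ) (U : ℕ → (Fin n → ℤ) → ℝ),
      D.ε ≤ e₁ → 0 < e → e ≤ e₁ → nd.OK L₀ → ‖x₀ - nd.y‖ ≤ 2 / p2 nd.k →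
      (∀ j, nd.k ≤ j → ∀ x ∈ ball nd.y (8 / p2 nd.k), AA D.f j x ≤ e) →
      min D.ε ((D.Ds nd) ^ (1 / (n : ℝ))) ≤ e →
      (1 / 2 : ℝ) ^ T ≤ e ^ (Q + 4) → e * T ≤ Real.sqrt e → 20 ≤ T →
      1 ≤ W * Real.sqrt e → W * Real.sqrt e ≤ 2 →
      nd.k + W ≤ s → 0 ≤ ρ → ρ ≤ P.ρ₀ →
      (∀ j ∈ Finset.Ico s (s + W), ∀ z ∈ box n (j + T + n), 0 ≤ U j z ∧
        ((∃ x, P.Th x₀ j x * P.psi (j + T + n) z x ≠ 0) →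
          D.Bd C₅ t₀ (P.chd nd x₀ T j z) ρ (U j z))) →
      ∃ mm ∈ Finset.Ico s (s + W), ∃ Pt ∈ P.N, ‖Pt - P.π (D.ub s x₀)‖ ≤ C * Real.sqrt e ∧
        ∀ q ∈ P.N, P.r₁ < P.dd q Pt → P.dd q Pt ≤ P.r₁ + 2 * P.ρ₀ →
          ∃ q' ∈ P.N, P.dd q' Pt = P.r₁ ∧
            D.Phi (fun x => nd.η x * P.chi x₀ mm x) q' - D.Phi (fun x => nd.η x * P.chi x₀ mm x) q ≤
              C * Real.sqrt e * (∑ j ∈ Finset.Ico s (s + W), ∑ z ∈ box n (j + T + n), U j z)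
              + C * e ^ (Q + 2) * (∑ j ∈ Finset.Icc (s - 4) (s + W + 4), ∫ x in br x₀ j, D.f x ^ n)
              + C * (p2 nd.k / p2 mm) * D.Ds nd

end H60NT
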