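import Pool.Agent.H60.NT.Def2

/-!
# [H60 NT RCNUM] Numerical consequences of the context

`W √e ≤ 2` gives `e W = √e (W √e) ≤ 2 √e`; `1 ≤ W √e` gives `W ≥ 1/√e ≥ 1/√e₁ ≥ 8` for `e ≤ e₁ = 1/64`;
`e ≤ √e` as `e ≤ 1`; `(1/2)^T ≤ e^(Q+4) ≤ e`.
-/

set_option autoImplicit false

namespace H60NT

open H60NH MeasureTheory Metric Set Filter Topology
open scoped ENNReal NNReal ContDiff

theorem rc_num {n m : ℕ} {P : Par n m} {D : Dyn P} (R : RC D) :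
    R.e * R.W ≤ 2 * Real.sqrt R.e ∧ R.e ≤ Real.sqrt R.e ∧ Real.sqrt R.e ≤ 1 ∧
      (1 / 2 : ℝ) ^ R.T ≤ 1 / 4 ∧ (1 / 2 : ℝ) ^ R.T ≤ R.e ^ (R.Q + 4) ∧ 1 ≤ R.W ∧
      (R.e ≤ 1 / 64 → 8 ≤ R.W) := by
  have h0 := R.e_pos
  have h1 := R.e_le
  have hs0 : 0 < Real.sqrt R.e := Real.sqrt_pos.mpr h0
  have hs1 : Real.sqrt R.e ≤ 1 := by
    rw [← Real.sqrt_one]
    exact Real.sqrt_le_sqrt h1
  have hss : Real.sqrt R.e * Real.sqrt R.e = R.e := Real.mul_self_sqrt h0.le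
  have hW1 := R.W1
  have hW2 := R.W2
  refine ⟨?_, ?_, hs1, ?_, R.T1, ?_, ?_⟩
  · calc R.e * R.W = Real.sqrt R.e * (R.W * Real.sqrt R.e) := by
          nth_rewrite 1 [← hss]
          ring
      _ ≤ Real.sqrt R.e * 2 := mul_le_mul_of_nonneg_left hW2 hs0.le
      _ = 2 * Real.sqrt R.e := by ring
  · nlinarith
  · calc (1 / 2 : ℝ) ^ R.T ≤ (1 / 2) ^ 2 :=
          pow_le_pow_of_le_one (by norm_num) (by norm_num) (by have := R.T3; omega)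
      _ = 1 / 4 := by norm_num
  · by_contra hc
    have : R.W = 0 := by omega
    rw [this] at hW1
    norm_num at hW1
  · intro he
    have h2 : Real.sqrt R.e ≤ 1 / 8 := by
      rw [show (1 / 8 : ℝ) = Real.sqrt (1 / 64) by
        rw [show (1 / 64 : ℝ) = (1 / 8) ^ 2 by norm_num, Real.sqrt_sq (by norm_num)]]
      exact Real.sqrt_le_sqrt he
    have h3 : (1 : ℝ) ≤ R.W * (1 / 8) :=
      hW1.trans (mul_le_mul_of_nonneg_left h2 (Nat.cast_nonneg _))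
    have h4 : (8 : ℝ) ≤ R.W := by linarith
    exact_mod_cast h4

end H60NT
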