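import Pool.Agent.H60.NT.PoiI
import Pool.Agent.H60.NT.RcNum
import Pool.Agent.H60.NT.RgGeo
import Pool.Agent.H60.NH.NCont

/-!
# [H60 NT BPOW] (4.1): powers of the measure of the bad set

`b_small` with `c = t₀/(2C₅)`, `q = 2n(Q+6)`, `m = min ε (D_j^(1/n)) ≤ e` (`R.loc`, `j ≥ k + W`; `j ≥ 4` as `W ≥ 8`):
`b_j ≤ C m^q`, so `b_j^(1/(2n)) ≤ C^(1/(2n)) m^(Q+6) ≤ C' e^(Q+5) m`, which is `≤ e^(Q+4) m` for `e` small, and
`m ≤ D_j^(1/n)`, `m ≤ e ≤ 1`. The constant depends on `c`, `Q`, `n` only; it is absorbed by `e₁`.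
-/

set_option autoImplicit false

namespace H60NT

open H60NH MeasureTheory Metric Set Filter Topology
open scoped ENNReal NNReal ContDiff

theorem b_pow {n m : ℕ} (P : Par n m) : Uni P (fun _ _ R =>
    MeasurableSet R.S ∧ ∀ j, R.k + R.W ≤ j → 0 ≤ R.b j ∧ R.b j ≤ 1 ∧
      (R.b j) ^ (1 / (2 * n : ℝ)) ≤ R.e ^ (R.Q + 4) ∧
      (R.b j) ^ (1 / (2 * n : ℝ)) ≤ R.e ^ (R.Q + 4) * (R.Dj j) ^ (1 / (n : ℝ))) := by
  have hn := P.hn
  refine ⟨1, 1, le_rfl, one_pos, ?_⟩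
  intro Q C₅ t₀ h5 h0 _
  obtain ⟨Cb, hCb, hb⟩ := b_small n hn (t₀ / (2 * C₅)) (by positivity) (2 * n * (Q + 6))
  have hCb0 : 0 < Cb := by linarith
  refine ⟨min (1 / 64) (1 / Cb), lt_min (by norm_num) (by positivity),
    (min_le_left _ _).trans (by norm_num), ?_⟩
  intro D R hR
  have he64 : R.e ≤ 1 / 64 := hR.e_le.trans (min_le_left _ _)
  have heC : R.e ≤ 1 / Cb := hR.e_le.trans (min_le_right _ _)
  have hCe : Cb * R.e ≤ 1 := by
    rw [le_div_iff₀ hCb0] at heC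
    linarith
  have hW := (rc_num R).2.2.2.2.2.2 he64
  have hx := R.hx
  have hS : R.S = gs D.f R.x₀ R.T (t₀ / (2 * C₅)) := by
    unfold RC.S
    rw [hR.hC, hR.ht]
  have he0 := R.e_pos
  have he1 := R.e_le
  constructor
  · rw [hS]
    exact (hb D.f D.ε D.hf R.x₀ 4 R.T (by linarith) le_rfl R.T3).1
  · intro j hj
    have hbj := (hb D.f D.ε D.hf R.x₀ j R.T (by linarith) (by omega) R.T3).2
    have hb0 : 0 ≤ R.b j := by
      unfold RC.b p2
      positivity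
    have hbj' : R.b j ≤ Cb * (min D.ε ((R.Dj j) ^ (1 / (n : ℝ)))) ^ (2 * n * (Q + 6)) := by
      unfold RC.b
      rw [hS]
      exact hbj
    have hloc := R.loc j hj
    have hDj0 : 0 ≤ R.Dj j := by
      unfold RC.Dj
      apply setIntegral_nonneg_of_ae
      exact ae_of_all _ (fun x => pow_nonneg (D.hf.nonneg x) n)
    set mm := min D.ε ((R.Dj j) ^ (1 / (n : ℝ))) with hmm
    have hm0 : 0 ≤ mm := le_min D.ε_pos.le (Real.rpow_nonneg hDj0 _)
    have hme : mm ≤ R.e := hloc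
    have hm1 : mm ≤ 1 := hme.trans he1
    have hmD : mm ≤ (R.Dj j) ^ (1 / (n : ℝ)) := min_le_right _ _
    have hQ := hR.hQ
    have hmain : (R.b j) ^ (1 / (2 * n : ℝ)) ≤ R.e ^ (R.Q + 4) * mm := by
      have hn0 : (0 : ℝ) < n := by
        have : (3 : ℝ) ≤ n := by exact_mod_cast hn
        linarith
      have g1 : (R.b j) ^ (1 / (2 * n : ℝ)) ≤
          (Cb * mm ^ (2 * n * (Q + 6))) ^ (1 / (2 * n : ℝ)) :=
        Real.rpow_le_rpow hb0 hbj' (by positivity)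
      have g2 : (Cb * mm ^ (2 * n * (Q + 6))) ^ (1 / (2 * n : ℝ)) =
          Cb ^ (1 / (2 * n : ℝ)) * mm ^ (Q + 6) := by
        rw [Real.mul_rpow hCb0.le (by positivity)]
        congr 1
        rw [← Real.rpow_natCast, ← Real.rpow_mul hm0, ← Real.rpow_natCast]
        congr 1
        push_cast
        field_simp
      have g3 : Cb ^ (1 / (2 * n : ℝ)) ≤ Cb := by
        have : (1 : ℝ) / (2 * n) ≤ 1 := by
          rw [div_le_one (by positivity)]
          have : (3 : ℝ) ≤ n := by exact_mod_cast hn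
          linarith
        calc Cb ^ (1 / (2 * n : ℝ)) ≤ Cb ^ (1 : ℝ) := Real.rpow_le_rpow_of_exponent_le hCb this
          _ = Cb := Real.rpow_one _
      rw [g2] at g1
      refine g1.trans ?_
      calc Cb ^ (1 / (2 * n : ℝ)) * mm ^ (Q + 6) ≤ Cb * mm ^ (Q + 6) :=
            mul_le_mul_of_nonneg_right g3 (by positivity)
        _ = Cb * (mm ^ (Q + 5) * mm) := by ring
        _ ≤ Cb * (R.e ^ (Q + 5) * mm) := by
            apply mul_le_mul_of_nonneg_left _ hCb0.le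
            exact mul_le_mul_of_nonneg_right (pow_le_pow_left₀ hm0 hme _) hm0
        _ = (Cb * R.e) * (R.e ^ (Q + 4) * mm) := by ring
        _ ≤ 1 * (R.e ^ (Q + 4) * mm) := mul_le_mul_of_nonneg_right hCe (by positivity)
        _ = R.e ^ (R.Q + 4) * mm := by rw [one_mul, hQ]
    refine ⟨hb0, ?_, ?_, ?_⟩
    · refine hbj'.trans ?_
      have g1 : mm ^ (2 * n * (Q + 6)) ≤ mm := by
        calc mm ^ (2 * n * (Q + 6)) ≤ mm ^ 1 :=
              pow_le_pow_of_le_one hm0 hm1 (by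
                have : 0 < 2 * n * (Q + 6) := by positivity
                omega)
          _ = mm := pow_one _
      calc Cb * mm ^ (2 * n * (Q + 6)) ≤ Cb * R.e :=
            mul_le_mul_of_nonneg_left (g1.trans hme) hCb0.le
        _ ≤ 1 := hCe
    · refine hmain.trans ?_
      calc R.e ^ (R.Q + 4) * mm ≤ R.e ^ (R.Q + 4) * 1 :=
            mul_le_mul_of_nonneg_left hm1 (by positivity)
        _ = R.e ^ (R.Q + 4) := mul_one _
    · exact hmain.trans (mul_le_mul_of_nonneg_left hmD (by positivity))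

/-- Larger exponents. -/
theorem b_exp {b : ℝ} (h0 : 0 ≤ b) (h1 : b ≤ 1) (n : ℕ) (hn : 3 ≤ n) (p : ℝ)
    (hp : 1 / (2 * n : ℝ) ≤ p) : b ^ p ≤ b ^ (1 / (2 * n : ℝ)) :=
  Real.rpow_le_rpow_of_exponent_ge' h0 h1 (by positivity) hp

end H60NT
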