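import Pool.Agent.H60.NT.CWin
import Pool.Agent.H60.NH.IterA

/-!
# The decay, all `n ≥ 3`

Copy of the last theorem of `NH/Iter.lean`.
-/

set_option autoImplicit false

namespace H60NT

open H60NH MeasureTheory Metric Set Filter Topology
open scoped ENNReal NNReal ContDiff

theorem decay {n m : ℕ} (hn : 3 ≤ n) {N : Set (E m)} {π : E m → E m}
    (hM : MIneq n m N π) (u : E n → E m) (G : E n → Fin n → E m) (hS : Sol N π 1 u G)
    (z : E n) (hz : z ∈ ball (0 : E n) 1) :
    ∃ R q C₁ : ℝ, 0 < R ∧ 0 < q ∧ q < 1 ∧ 0 ≤ C₁ ∧ ∀ j : ℕ, ∀ y ∈ ball z R, ∀ t : ℝ, 0 < t →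
      t ≤ q ^ j * R → xs (fun x => gn (G x)) y t ≤ C₁ / 2 ^ j := by
  have hn1 : 1 ≤ n := by omega
  have hn1' : (1 : ℝ) ≤ n := by exact_mod_cast hn1
  have hs : 0 < sn n := by unfold sn; linarith
  obtain ⟨E₀, lam₀, L, hE₀, hlam₀, hwin⟩ := H60NT.window hn hM
  have hf : Base (fun x => gn (G x)) := sol_base (by omega) hS
  obtain ⟨V, hV⟩ : ∃ V, V = ((volume (ball (0 : E n) 1)).toReal) ^ (1 / (2 * (n : ℝ))) := ⟨_, rfl⟩
  have hV0 : 0 ≤ V := by rw [hV]; exact Real.rpow_nonneg ENNReal.toReal_nonneg _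
  obtain ⟨E', hE'⟩ : ∃ E', E' = min E₀ ((lam₀ / (V + 1)) ^ ((n : ℝ) / sn n)) := ⟨_, rfl⟩
  have hE'0 : 0 < E' := by
    rw [hE']
    exact lt_min hE₀ (Real.rpow_pos_of_pos (by positivity) _)
  have hE'1 : E' ≤ E₀ := by rw [hE']; exact min_le_left _ _
  have hE'2 : E' ^ (sn n / n) ≤ lam₀ / (V + 1) := by
    have h1 : E' ≤ (lam₀ / (V + 1)) ^ ((n : ℝ) / sn n) := by rw [hE']; exact min_le_right _ _
    have h2 := Real.rpow_le_rpow hE'0.le h1 (by positivity : 0 ≤ sn n / n)
    rw [← Real.rpow_mul (by positivity)] at h2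
    have h3 : (n : ℝ) / sn n * (sn n / n) = 1 := by
      have : (n : ℝ) ≠ 0 := by positivity
      field_simp
    rwa [h3, Real.rpow_one] at h2
  obtain ⟨R₁, hR₁, hsm⟩ := iter_small hn1 hf hE'0
  rw [mem_ball_zero_iff] at hz
  obtain ⟨R₀, hR₀⟩ : ∃ R₀, R₀ = min R₁ ((1 - ‖z‖) / 8) := ⟨_, rfl⟩
  have hR₀0 : 0 < R₀ := by
    rw [hR₀]
    exact lt_min hR₁ (by linarith)
  have hR₀1 : R₀ ≤ R₁ := by rw [hR₀]; exact min_le_left _ _
  have hR₀2 : 4 * R₀ < 1 - ‖z‖ := by
    have : R₀ ≤ (1 - ‖z‖) / 8 := by rw [hR₀]; exact min_le_right _ _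
    linarith
  have hp2 : 1 ≤ p2 L := by
    unfold p2
    exact one_le_pow₀ (by norm_num)
  have hp20 : 0 < p2 L := by linarith
  obtain ⟨q, hq⟩ : ∃ q, q = 1 / (128 * p2 L) := ⟨_, rfl⟩
  have hq0 : 0 < q := by rw [hq]; positivity
  have hq2 : q ≤ 1 / 2 := by
    rw [hq, div_le_div_iff₀ (by positivity) (by norm_num)]
    linarith
  have hqp : q * p2 L = 1 / 128 := by
    rw [hq]
    field_simp
  have main : ∀ j : ℕ, ∀ y ∈ ball z (R₀ + 2 * R₀ * q ^ j), ∀ t : ℝ, 0 < t → t ≤ q ^ j * R₀ →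
      xs (fun x => gn (G x)) y t ≤ lam₀ / 2 ^ j := by
    intro j
    induction j with
    | zero =>
      intro y _ t ht0 ht
      rw [pow_zero, one_mul] at ht
      rw [pow_zero, div_one]
      have h1 := iter_xs hn1 hf y ht0
      rw [← hV] at h1
      have h2 := hsm y t (ht.trans hR₀1)
      have h3 : (∫ x in ball y t, gn (G x) ^ n) ^ (sn n / n) ≤ lam₀ / (V + 1) :=
        (Real.rpow_le_rpow (setIntegral_nonneg measurableSet_ball
          fun x _ => pow_nonneg (hf.nonneg x) n) h2 (by positivity)).trans hE'2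
      calc xs (fun x => gn (G x)) y t ≤ _ := h1
        _ ≤ lam₀ / (V + 1) * V := mul_le_mul_of_nonneg_right h3 hV0
        _ ≤ lam₀ := by
          rw [div_mul_eq_mul_div, div_le_iff₀ (by positivity)]
          nlinarith
    | succ j ih =>
      intro y hy t ht0 ht
      rw [mem_ball] at hy
      have hqj : 0 < q ^ j := by positivity
      have hqj1 : q ^ j ≤ 1 := pow_le_one₀ hq0.le (by linarith)
      have hqs : q ^ (j + 1) = q ^ j * q := pow_succ q j
      have hr : t * p2 L ≤ q ^ j * R₀ / 128 := by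
        calc t * p2 L ≤ q ^ (j + 1) * R₀ * p2 L := mul_le_mul_of_nonneg_right ht hp20.le
          _ = q ^ j * R₀ * (q * p2 L) := by rw [hqs]; ring
          _ = q ^ j * R₀ / 128 := by rw [hqp]; ring
      have hA : R₀ + 2 * R₀ * q ^ (j + 1) ≤ R₀ + 2 * R₀ * q ^ j - R₀ * q ^ j := by
        have h5 : R₀ * q ^ j * q ≤ R₀ * q ^ j * (1 / 2) :=
          mul_le_mul_of_nonneg_left hq2 (by positivity)
        rw [hqs]
        nlinarith
      have hB : R₀ * q ^ j ≤ R₀ := by nlinarith
      have hr0 : 0 < t * p2 L := by positivity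
      have hlamj : lam₀ / 2 ^ j ≤ lam₀ := by
        rw [div_le_iff₀ (by positivity)]
        have : (1 : ℝ) ≤ 2 ^ j := one_le_pow₀ (by norm_num)
        nlinarith
      have hw := hwin u G hS y (t * p2 L) (lam₀ / 2 ^ j) hr0 ?_ (by positivity) hlamj ?_ ?_
      · rw [mul_div_assoc, div_self hp20.ne', mul_one] at hw
        refine hw.trans (le_of_eq ?_)
        rw [pow_succ]
        field_simp
      · intro w hw
        rw [mem_ball] at hw
        rw [mem_ball_zero_iff]
        have h6 : ‖w‖ ≤ dist w y + dist y z + ‖z‖ := by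
          calc ‖w‖ = dist w 0 := (dist_zero_right w).symm
            _ ≤ dist w z + dist z 0 := dist_triangle _ _ _
            _ ≤ dist w y + dist y z + dist z 0 := by
              have := dist_triangle w y z
              linarith
            _ = _ := by rw [dist_zero_right]
        nlinarith
      · intro y' hy' t' ht'0 ht'
        rw [mem_ball] at hy'
        refine ih y' ?_ t' ht'0 ?_
        · rw [mem_ball]
          have h7 := dist_triangle y' y z
          nlinarith
        · nlinarith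
      · refine le_trans ?_ ((hsm y R₀ hR₀1).trans hE'1)
        refine setIntegral_mono_set hf.intn.integrableOn
          (Filter.Eventually.of_forall fun x => pow_nonneg (hf.nonneg x) n) ?_
        refine (ball_subset_ball ?_).eventuallyLE
        nlinarith
  refine ⟨R₀, q, lam₀, hR₀0, hq0, by linarith, hlam₀.le, fun j y hy t ht0 ht => ?_⟩
  refine main j y (ball_subset_ball ?_ hy) t ht0 ht
  have : 0 < q ^ j := by positivity
  nlinarith

end H60NT
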