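import Pool.Agent.H60.NT.Def

/-!
# [H60 NT CUTKEX] A radial cutoff

`κ t = Real.smoothTransition (2 - t)`: `1` for `t ≤ 1`, `0` for `t ≥ 2`, antitone (`Real.smoothTransition` is monotone:
it is the quotient `g x / (g x + g (1 - x))` with `g = expNegInvGlue` monotone), `C^∞`. The derivative is continuous and vanishes
outside `[1, 2]` (locally constant outside), so it is bounded.
-/

set_option autoImplicit false

namespace H60NT

open H60NH MeasureTheory Metric Set Filter Topology
open scoped ENNReal NNReal ContDiff

theorem exists_cutK : ∃ (κ : ℝ → ℝ) (L : ℝ), CutK κ L := by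
  obtain ⟨κ, hκ⟩ : ∃ κ : ℝ → ℝ, κ = fun t => Real.smoothTransition (2 - t) := ⟨_, rfl⟩
  have hs : ContDiff ℝ ∞ κ := by
    rw [hκ]
    exact Real.smoothTransition.contDiff.comp (contDiff_const.sub contDiff_id)
  have hone : ∀ t, t ≤ 1 → κ t = 1 := fun t ht => by
    rw [hκ]
    exact Real.smoothTransition.one_of_one_le (by linarith)
  have hzero : ∀ t, 2 ≤ t → κ t = 0 := fun t ht => by
    rw [hκ]
    exact Real.smoothTransition.zero_of_nonpos (by linarith)
  have hd : Continuous (deriv κ) := hs.continuous_deriv (by simp)
  obtain ⟨C, hC⟩ := (isCompact_Icc (a := (1 : ℝ)) (b := 2)).exists_bound_of_continuousOn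
    hd.continuousOn
  refine ⟨κ, max C 1, hs, ?_, hone, hzero, ?_, le_max_right _ _⟩
  · intro a b hab
    rw [hκ]
    exact Real.smoothTransition.monotone (by linarith)
  · intro t
    rcases lt_or_ge t 1 with h | h
    · have h1 : deriv κ t = 0 := by
        have h2 : κ =ᶠ[𝓝 t] fun _ => 1 := by
          filter_upwards [Iio_mem_nhds h] with y hy
          exact hone y (le_of_lt hy)
        rw [h2.deriv_eq, deriv_const]
      rw [h1, abs_zero]
      exact le_trans zero_le_one (le_max_right _ _)
    · rcases lt_or_ge 2 t with h' | h'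
      · have h1 : deriv κ t = 0 := by
          have h2 : κ =ᶠ[𝓝 t] fun _ => 0 := by
            filter_upwards [Ioi_mem_nhds h'] with y hy
            exact hzero y (le_of_lt hy)
          rw [h2.deriv_eq, deriv_const]
        rw [h1, abs_zero]
        exact le_trans zero_le_one (le_max_right _ _)
      · have h1 := hC t ⟨h, h'⟩
        rw [Real.norm_eq_abs] at h1
        exact le_trans h1 (le_max_left _ _)

end H60NT
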