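import Pool.Agent.H79.NG.GeoFin

/-!
Interface of the geometric part (Section 1 of proofs id 299). Proved in `Pool/Agent/H79/NG`.
-/

set_option autoImplicit false

namespace H60NT

open H60NH MeasureTheory Metric Set Filter Topology
open scoped ENNReal NNReal ContDiff

theorem exists_geo {m : ℕ} {N : Set (E m)} {π : E m → E m} {δ C : ℝ} (hT : TC N π δ C) :
    ∃ (F : E m → E m → E m) (dd : E m → E m → ℝ) (r₁ ρ₀ κ₀ t₃ a₀ c C' : ℝ),
      Geo N π F dd r₁ ρ₀ κ₀ t₃ a₀ c C' :=
  H79NG.exists_geo_main hT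

end H60NT
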