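import Pool.Agent.H60.NT.Def

/-!
# [H60 NT HATEX] A one-dimensional partition of unity that reproduces affine functions

`σ t = Real.smoothTransition ((t + 1)/2)`: smooth, monotone, `0` for `t ≤ -1`, `1` for `t ≥ 1`, and `σ t + σ (-t) = 1` (definition
of `smoothTransition`). `R t = ∫ y in (-1)..t, σ y`: smooth with `R' = σ`, `R t = 0` for `t ≤ -1`; `R 1 = 1` by the symmetry
(`∫_{-1}^1 σ = ∫_{-1}^1 (σ y + σ (-y))/2 = 1`), so `R t = t` for `t ≥ 1`. `β t = R (t+1) - 2 R t + R (t-1)`. Then `β t = 0` for `|t| ≥ 2`,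
`β t = ∫_t^{t+1} σ - ∫_{t-1}^t σ ∈ [0, 1]` (`σ` monotone, values in `[0,1]`), `|β'| ≤ 4`. Sums: with `D z = R (t - z + 1) - R (t - z)` one has
`β (t - z) = D z - D (z + 1)` (since `D (z+1) = R (t - z) - R (t - z - 1)`), so `∑_{z=a}^b β (t - z) = D a - D (b+1) = 1 - 0`
(`t - a ≥ 2`: `D a = 1`; `t - b - 1 ≤ -3`, `t - b ≤ -2`: `D (b+1) = 0`). And `∑_{z=a}^b z (D z - D (z+1)) = a D a + ∑_{z=a+1}^{b} D z - b D (b+1)
= a + (R (t - a) - R (t - b)) = a + (t - a) = t` (telescoping sum `∑_{z=a+1}^b D z = R (t - a) - R (t - b)`, `R (t-a) = t - a`, `R (t - b) = 0`).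
-/

set_option autoImplicit false

namespace H60NT

open H60NH MeasureTheory Metric Set Filter Topology
open scoped ENNReal NNReal ContDiff

section hatex

/-- symmetric smooth step -/
private noncomputable def hsg (t : ℝ) : ℝ := Real.smoothTransition ((t + 1) / 2)

private theorem hsg_contDiff : ContDiff ℝ ∞ hsg := by
  unfold hsg
  exact Real.smoothTransition.contDiff.comp ((contDiff_id.add contDiff_const).div_const 2)

private theorem hsg_cont : Continuous hsg := hsg_contDiff.continuous

private theorem hsg_mono : Monotone hsg := fun a b h =>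
  Real.smoothTransition.monotone (by linarith)

private theorem hsg_nonneg (t : ℝ) : 0 ≤ hsg t := Real.smoothTransition.nonneg _

private theorem hsg_le (t : ℝ) : hsg t ≤ 1 := Real.smoothTransition.le_one _

private theorem hsg_zero {t : ℝ} (h : t ≤ -1) : hsg t = 0 :=
  Real.smoothTransition.zero_of_nonpos (by linarith)

private theorem hsg_one {t : ℝ} (h : 1 ≤ t) : hsg t = 1 :=
  Real.smoothTransition.one_of_one_le (by linarith)

private theorem hsg_symm (t : ℝ) : hsg t + hsg (-t) = 1 := by
  unfold hsg Real.smoothTransition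
  have e : 1 - (-t + 1) / 2 = (t + 1) / 2 := by ring
  have e2 : 1 - (t + 1) / 2 = (-t + 1) / 2 := by ring
  have h := Real.smoothTransition.pos_denom ((t + 1) / 2)
  rw [e2] at h
  rw [e, e2, add_comm (expNegInvGlue ((-t + 1) / 2)), ← add_div, div_self h.ne']

/-- primitive -/
private noncomputable def hR (t : ℝ) : ℝ := ∫ y in (-1)..t, hsg y

private theorem hR_int (a b : ℝ) : IntervalIntegrable hsg volume a b := hsg_cont.intervalIntegrable a b

private theorem hR_deriv (t : ℝ) : HasDerivAt hR (hsg t) t :=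
  (hsg_cont.integral_hasStrictDerivAt (-1) t).hasDerivAt

private theorem hR_contDiff : ContDiff ℝ ∞ hR := by
  rw [contDiff_infty_iff_deriv]
  refine ⟨fun t => (hR_deriv t).differentiableAt, ?_⟩
  have : deriv hR = hsg := funext fun t => (hR_deriv t).deriv
  rw [this]
  exact hsg_contDiff

private theorem hR_sub (a b : ℝ) : hR b - hR a = ∫ y in a..b, hsg y :=
  intervalIntegral.integral_interval_sub_left (hR_int _ _) (hR_int _ _)

private theorem hR_le {a b : ℝ} (h : a ≤ b) : hR b - hR a ≤ (b - a) * hsg b := by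
  rw [hR_sub, ← smul_eq_mul, ← intervalIntegral.integral_const]
  exact intervalIntegral.integral_mono_on h (hR_int _ _) intervalIntegrable_const
    fun x hx => hsg_mono hx.2

private theorem hR_ge {a b : ℝ} (h : a ≤ b) : (b - a) * hsg a ≤ hR b - hR a := by
  rw [hR_sub, ← smul_eq_mul, ← intervalIntegral.integral_const]
  exact intervalIntegral.integral_mono_on h intervalIntegrable_const (hR_int _ _)
    fun x hx => hsg_mono hx.1

private theorem hR_zero {t : ℝ} (h : t ≤ -1) : hR t = 0 := by
  have h1 := hR_le h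
  have h2 := hR_ge h
  rw [hsg_zero le_rfl, mul_zero] at h1
  rw [hsg_zero h, mul_zero] at h2
  have h3 : hR (-1) = 0 := by
    unfold hR
    rw [intervalIntegral.integral_same]
  rw [h3] at h1 h2
  linarith

private theorem hR_one : hR 1 = 1 := by
  have h1 : ∫ y in (-1 : ℝ)..1, hsg (-y) = ∫ y in (-1 : ℝ)..1, hsg y := by
    rw [intervalIntegral.integral_comp_neg]
    norm_num
  have h2 : (∫ y in (-1 : ℝ)..1, hsg y) + ∫ y in (-1 : ℝ)..1, hsg (-y) = 2 := by
    have hi : IntervalIntegrable (fun y => hsg (-y)) volume (-1) 1 :=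
      (hsg_cont.comp continuous_neg).intervalIntegrable _ _
    rw [← intervalIntegral.integral_add (hR_int _ _) hi]
    simp only [hsg_symm]
    rw [intervalIntegral.integral_const]
    norm_num
  rw [h1] at h2
  unfold hR
  linarith

private theorem hR_id {t : ℝ} (h : 1 ≤ t) : hR t = t := by
  have h1 := hR_le h
  have h2 := hR_ge h
  rw [hsg_one h, mul_one, hR_one] at h1
  rw [hsg_one le_rfl, mul_one, hR_one] at h2
  linarith

private theorem h_tele (G : ℤ → ℝ) (a b : ℤ) (h : a ≤ b) :
    ∑ z ∈ Finset.Icc a b, (G z - G (z + 1)) = G a - G (b + 1) := by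
  induction b, h using Int.leInduction with
  | base => rw [Finset.Icc_self, Finset.sum_singleton]
  | succ b hb ih =>
    have e : Finset.Icc a (b + 1) = insert (b + 1) (Finset.Icc a b) := by
      ext z
      simp only [Finset.mem_Icc, Finset.mem_insert]
      omega
    rw [e, Finset.sum_insert (by simp), ih]
    ring

end hatex

theorem exists_hat : ∃ (β : ℝ → ℝ) (L : ℝ), Hat β L := by
  refine ⟨fun t => hR (t + 1) - 2 * hR t + hR (t - 1), 4, ?_, ?_, ?_, ?_, ?_, ?_, ?_, ?_⟩
  · exact ((hR_contDiff.comp (contDiff_id.add contDiff_const)).sub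
      (contDiff_const.mul hR_contDiff)).add (hR_contDiff.comp (contDiff_id.sub contDiff_const))
  · intro t
    have h1 := hR_ge (by linarith : t ≤ t + 1)
    have h2 := hR_le (by linarith : t - 1 ≤ t)
    linarith
  · intro t
    have h1 := hR_le (by linarith : t ≤ t + 1)
    have h2 := hR_ge (by linarith : t - 1 ≤ t)
    have h3 := hsg_le (t + 1)
    have h4 := hsg_nonneg (t - 1)
    linarith
  · intro t ht
    show hR (t + 1) - 2 * hR t + hR (t - 1) = 0
    rcases le_abs.1 ht with h | h
    · rw [hR_id (by linarith), hR_id (by linarith), hR_id (by linarith)]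
      ring
    · rw [hR_zero (by linarith), hR_zero (by linarith), hR_zero (by linarith)]
      ring
  · intro t
    have h1 : HasDerivAt (fun t => hR (t + 1)) (hsg (t + 1)) t :=
      (hR_deriv (t + 1)).comp_add_const t 1
    have h2 : HasDerivAt (fun t => hR (t - 1)) (hsg (t - 1)) t :=
      (hR_deriv (t - 1)).comp_sub_const t 1
    have h3 := (h1.sub ((hR_deriv t).const_mul 2)).add h2
    have h4 : deriv (fun t => hR (t + 1) - 2 * hR t + hR (t - 1)) t =
        hsg (t + 1) - 2 * hsg t + hsg (t - 1) := h3.deriv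
    rw [h4, abs_le]
    have a1 := hsg_nonneg (t + 1)
    have a2 := hsg_nonneg t
    have a3 := hsg_nonneg (t - 1)
    have b1 := hsg_le (t + 1)
    have b2 := hsg_le t
    have b3 := hsg_le (t - 1)
    constructor <;> linarith
  · intro t a b ha hb
    have hab : a ≤ b := by
      have : (a : ℝ) ≤ b := by linarith
      exact_mod_cast this
    have e : ∀ z : ℤ, hR (t - z + 1) - 2 * hR (t - z) + hR (t - z - 1) =
        (fun z : ℤ => hR (t - z + 1) - hR (t - z)) z -
          (fun z : ℤ => hR (t - z + 1) - hR (t - z)) (z + 1) := by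
      intro z
      push_cast
      rw [show t - ((z : ℝ) + 1) + 1 = t - z by ring, show t - ((z : ℝ) + 1) = t - z - 1 by ring]
      ring
    rw [Finset.sum_congr rfl fun z _ => e z, h_tele _ a b hab]
    push_cast
    rw [hR_id (by linarith : (1 : ℝ) ≤ t - a + 1), hR_id (by linarith : (1 : ℝ) ≤ t - a),
      hR_zero (by linarith), hR_zero (by linarith)]
    ring
  · intro t a b ha hb
    have hab : a ≤ b := by
      have : (a : ℝ) ≤ b := by linarith
      exact_mod_cast this
    have e : ∀ z : ℤ, (z : ℝ) * (hR (t - z + 1) - 2 * hR (t - z) + hR (t - z - 1)) =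
        (fun z : ℤ => (z : ℝ) * (hR (t - z + 1) - hR (t - z)) + hR (t - z)) z -
          (fun z : ℤ => (z : ℝ) * (hR (t - z + 1) - hR (t - z)) + hR (t - z)) (z + 1) := by
      intro z
      push_cast
      rw [show t - ((z : ℝ) + 1) + 1 = t - z by ring, show t - ((z : ℝ) + 1) = t - z - 1 by ring]
      ring
    rw [Finset.sum_congr rfl fun z _ => e z, h_tele _ a b hab]
    push_cast
    rw [hR_id (by linarith : (1 : ℝ) ≤ t - a + 1), hR_id (by linarith : (1 : ℝ) ≤ t - a),
      hR_zero (by linarith), hR_zero (by linarith)]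
    ring
  · norm_num

end H60NT
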