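import Pool.Agent.H60.NT.Def3

/-!
# Uniform statements with constants depending on `Q`, `C₅`, `t₀`
-/

set_option autoImplicit false

namespace H60NT

open H60NH MeasureTheory Metric Set Filter Topology
open scoped ENNReal NNReal ContDiff

/-- As `Uni`, but the constant may depend on `Q`, `C₅`, `t₀`. -/
def UniQ {n m : ℕ} (P : Par n m) (Φ : ℝ → (D : Dyn P) → RC D → Prop) : Prop :=
  ∃ t₁ : ℝ, 0 < t₁ ∧ ∀ (Q : ℕ) (C₅ t₀ : ℝ), 1 ≤ C₅ → 0 < t₀ → t₀ ≤ t₁ →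
    ∃ C e₁ : ℝ, 1 ≤ C ∧ 0 < e₁ ∧ e₁ ≤ 1 ∧ ∀ (D : Dyn P) (R : RC D), Ok R Q C₅ t₀ e₁ → Φ C D R

theorem Uni.toQ {n m : ℕ} {P : Par n m} {Φ : ℝ → (D : Dyn P) → RC D → Prop} (h : Uni P Φ) :
    UniQ P Φ := by
  obtain ⟨C, t, hC, ht, H⟩ := h
  refine ⟨t, ht, ?_⟩
  intro Q C₅ t₀ h5 h0 h'
  obtain ⟨e, he, he1, K⟩ := H Q C₅ t₀ h5 h0 h'
  exact ⟨C, e, hC, he, he1, K⟩

end H60NT
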