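import Pool.Agent.H60.NT.RcNum

/-!
# [H60 NT PFB] The profile on the annulus

`r = ‖x - x₀‖`. By `lam_der`: `Lam x i = -((x - x₀)_i / r²) V(s)`, `s = - log r ∈ Icc (s_α - 4) (s_β + 4)`, `‖V s‖ = a`, so
`gn (Lam x) = a / r` (`∑_i (x - x₀)_i² = r²`).
Distances: `Γ` is Lipschitz with constant `a` on the interval (`Geod.der`, `speed`, mean value inequality); for
`x ∈ fr x₀ j`: `|s(x) - s_j| ≤ 2` (`r p2 j ∈ [1/2, 4]`, `s(x) - s_j = log (3/2) - log (r p2 j)`), and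
`|s(x) - s_α| ≤ (β - α) log 2 + 4`-like, `≤ 3 (β - α)` as `β - α ≥ 2`; `a (β - α) ≤ Cp √e` (`a_len`).
Lipschitz bound of the derivative: for `y, y'` in the convex ball `ball x (r/4)`, contained in the annulus
`1/(4 p2 β) < · < 8/p2 α`: `fderiv lam` is differentiable there with derivative `O((a² + a)/r²)`: `V` is Lipschitz
with constant `CT a²` (`Geod.der2`, `‖D2 π‖ ≤ CT` by `TC.bd2` at points of `N`), `a ≤ Cp e ≤ 1` for
`e` small; the map `x ↦ (x - x₀)/r²` is Lipschitz with constant `C/r²` on the ball and bounded by `2/r`.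
-/

set_option autoImplicit false

namespace H60NT

open H60NH MeasureTheory Metric Set Filter Topology
open scoped ENNReal NNReal ContDiff

lemma pfB_p2_pos (j : ℕ) : 0 < p2 j := by unfold p2; positivity

lemma pfB_log2 : 0 < Real.log 2 ∧ Real.log 2 ≤ 7 / 10 := by
  refine ⟨Real.log_pos (by norm_num), ?_⟩
  have := Real.log_two_lt_d9
  linarith

lemma pfB_log32 : 0 < Real.log (3 / 2) ∧ Real.log (3 / 2) ≤ 1 / 2 := by
  refine ⟨Real.log_pos (by norm_num), ?_⟩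
  have := Real.log_le_sub_one_of_pos (show (0 : ℝ) < 3 / 2 by norm_num)
  linarith

lemma pfB_logp2 (j : ℕ) : Real.log (p2 j) = j * Real.log 2 := by
  unfold p2
  rw [Real.log_pow]

/-- The time of a point of the annulus is in the interval of the geodesic. -/
lemma pfB_time (α β : ℕ) (ρ : ℝ) (h1 : 1 / (4 * p2 β) ≤ ρ) (h2 : ρ ≤ 8 / p2 α) :
    0 < ρ ∧ -Real.log ρ ∈ Icc (sj α - 4) (sj β + 4) := by
  have ha := pfB_p2_pos α
  have hb := pfB_p2_pos β
  have hρ : 0 < ρ := lt_of_lt_of_le (by positivity) h1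
  obtain ⟨l1, l2⟩ := pfB_log2
  obtain ⟨m1, m2⟩ := pfB_log32
  have e8 : Real.log 8 = 3 * Real.log 2 := by
    rw [show (8 : ℝ) = 2 ^ 3 by norm_num, Real.log_pow]
    norm_num
  have e4 : Real.log 4 = 2 * Real.log 2 := by
    rw [show (4 : ℝ) = 2 ^ 2 by norm_num, Real.log_pow]
    norm_num
  have g1 := Real.log_le_log hρ h2
  rw [Real.log_div (by norm_num) ha.ne', e8] at g1
  have g2 := Real.log_le_log (by positivity) h1
  rw [one_div, Real.log_inv, Real.log_mul (by norm_num) hb.ne', e4] at g2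
  refine ⟨hρ, ?_, ?_⟩
  · unfold sj
    linarith
  · unfold sj
    linarith

lemma pfB_gamma_lip {m : ℕ} {N : Set (E m)} {π : E m → E m} {Γ V : ℝ → E m} {a : ℝ} {s₁ s₂ : ℝ}
    (hG : Geod N π Γ V a (Icc s₁ s₂)) (s t : ℝ) (hs : s ∈ Icc s₁ s₂) (ht : t ∈ Icc s₁ s₂) :
    ‖Γ s - Γ t‖ ≤ a * |s - t| := by
  have := Convex.norm_image_sub_le_of_norm_hasDerivWithin_le (f := Γ) (f' := V) (C := a)
    (fun x hx => (hG.der x hx).hasDerivWithinAt) (fun x hx => (hG.speed x hx).le)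
    (convex_Icc s₁ s₂) ht hs
  rwa [Real.norm_eq_abs] at this

lemma pfB_V_lip {m : ℕ} {N : Set (E m)} {π : E m → E m} {δ CT : ℝ} (hT : TC N π δ CT)
    {Γ V : ℝ → E m} {a : ℝ} {s₁ s₂ : ℝ} (ha : 0 ≤ a)
    (hG : Geod N π Γ V a (Icc s₁ s₂)) (s t : ℝ) (hs : s ∈ Icc s₁ s₂) (ht : t ∈ Icc s₁ s₂) :
    ‖V s - V t‖ ≤ CT * a ^ 2 * |s - t| := by
  have := Convex.norm_image_sub_le_of_norm_hasDerivWithin_le (f := V)
    (f' := fun s => D2 π (Γ s) (V s) (V s)) (C := CT * a ^ 2)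
    (fun x hx => (hG.der2 x hx).hasDerivWithinAt) (by
      intro x hx
      have hN := hG.mem x hx
      have h0 : infDist (Γ x) N < 4 * δ := by
        rw [infDist_zero_of_mem hN]
        have := hT.pos
        linarith
      have h1 := hT.bd2 (Γ x) h0
      have h2 := hG.speed x hx
      calc ‖D2 π (Γ x) (V x) (V x)‖ ≤ ‖D2 π (Γ x)‖ * ‖V x‖ * ‖V x‖ :=
            ContinuousLinearMap.le_opNorm₂ _ _ _
        _ = ‖D2 π (Γ x)‖ * a ^ 2 := by rw [h2]; ring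
        _ ≤ CT * a ^ 2 := mul_le_mul_of_nonneg_right h1 (by positivity))
    (convex_Icc s₁ s₂) ht hs
  rwa [Real.norm_eq_abs] at this

theorem pf_lam {n m : ℕ} {P : Par n m} {D : Dyn P} {R : RC D} {Cp : ℝ} {α β : ℕ}
    (pf : Pf R Cp α β) (x : E n) (h1 : 1 / (4 * p2 β) ≤ ‖x - R.x₀‖)
    (h2 : ‖x - R.x₀‖ ≤ 8 / p2 α) :
    pf.fl x = pf.a / ‖x - R.x₀‖ ∧ ‖fderiv ℝ pf.lam x‖ ≤ pf.a / ‖x - R.x₀‖ := by
  obtain ⟨hr, hs⟩ := pfB_time α β _ h1 h2
  have hV := pf.geod.speed _ hs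
  have ha := pf.a_nonneg
  set r := ‖x - R.x₀‖ with hrdef
  have hd := pf.lam_der x h1 h2
  constructor
  · unfold Pf.fl gn
    have e1 : ∑ i, ‖pf.Lam x i‖ ^ 2 = (pf.a / r) ^ 2 := by
      have e2 : ∀ i, ‖pf.Lam x i‖ ^ 2 = ‖(x - R.x₀) i‖ ^ 2 * (pf.a ^ 2 / r ^ 4) := by
        intro i
        unfold Pf.Lam
        rw [hd, norm_smul, hV]
        have e3 : inner ℝ (x - R.x₀) (ev i : E n) = (x - R.x₀) i := by
          unfold ev
          rw [EuclideanSpace.inner_single_right]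
          simp
        rw [e3, norm_neg, norm_div, norm_pow, Real.norm_of_nonneg hr.le]
        field_simp
      rw [Finset.sum_congr rfl (fun i _ => e2 i), ← Finset.sum_mul, ← EuclideanSpace.norm_sq_eq,
        ← hrdef]
      field_simp
    rw [e1, Real.sqrt_sq (by positivity)]
  · apply ContinuousLinearMap.opNorm_le_bound _ (by positivity)
    intro h
    rw [hd, norm_smul, hV, norm_neg, norm_div, norm_pow, Real.norm_of_nonneg hr.le]
    have g1 : ‖(inner ℝ (x - R.x₀) h : ℝ)‖ ≤ r * ‖h‖ := norm_inner_le_norm _ _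
    calc ‖(inner ℝ (x - R.x₀) h : ℝ)‖ / r ^ 2 * pf.a ≤ (r * ‖h‖) / r ^ 2 * pf.a := by
          apply mul_le_mul_of_nonneg_right _ ha
          exact div_le_div_of_nonneg_right g1 (by positivity)
      _ = pf.a / r * ‖h‖ := by field_simp

lemma pfB_sj_sub (i j : ℕ) : sj i - sj j = ((i : ℝ) - j) * Real.log 2 := by
  unfold sj
  rw [pfB_logp2, pfB_logp2]
  ring

theorem pf_dist {n m : ℕ} (P : Par n m) (Cp : ℝ) (hCp : 1 ≤ Cp) : ∃ C : ℝ, 1 ≤ C ∧
    ∀ (D : Dyn P) (R : RC D) (α β : ℕ) (pf : Pf R Cp α β), α + 2 ≤ β →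
      (∀ j, α - 1 ≤ j → j ≤ β + 1 → ∀ x ∈ fr R.x₀ j,
        ‖pf.lam x - R.yj α‖ ≤ C * Real.sqrt R.e ∧ ‖pf.lam x - pf.Γ (sj j)‖ ≤ C * pf.a) ∧
      (∀ j, α ≤ j → j ≤ β → pf.Γ (sj j) ∈ P.N ∧ ‖pf.Γ (sj j) - R.yj α‖ ≤ C * Real.sqrt R.e) := by
  refine ⟨4 * Cp, by linarith, ?_⟩
  intro D R α β pf hαβ
  obtain ⟨n1, n2, n3, n4, n5, n6, n7⟩ := rc_num R
  have ha := pf.a_nonneg
  have hα1 : 1 ≤ α := by
    have := pf.ge
    omega
  obtain ⟨l1, l2⟩ := pfB_log2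
  obtain ⟨m1, m2⟩ := pfB_log32
  have hs0 : 0 ≤ Real.sqrt R.e := Real.sqrt_nonneg _
  have ha1 : pf.a ≤ Cp * Real.sqrt R.e :=
    pf.a_le.trans (mul_le_mul_of_nonneg_left n2 (by linarith))
  have halen := pf.a_len
  have hαβ' : (α : ℝ) + 2 ≤ β := by exact_mod_cast hαβ
  have hsj : ∀ j, α - 1 ≤ j → j ≤ β + 1 →
      sj j ∈ Icc (sj α - 4) (sj β + 4) ∧ |sj j - sj α| ≤ ((β : ℝ) - α) + 1 := by
    intro j hj1 hj2
    have hj1' : (α : ℝ) - 1 ≤ j := by
      have : α ≤ j + 1 := by omega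
      have : (α : ℝ) ≤ j + 1 := by exact_mod_cast this
      linarith
    have hj2' : (j : ℝ) ≤ β + 1 := by exact_mod_cast hj2
    have e1 := pfB_sj_sub j α
    have e2 := pfB_sj_sub j β
    have p1 : -1 * Real.log 2 ≤ ((j : ℝ) - α) * Real.log 2 :=
      mul_le_mul_of_nonneg_right (by linarith) l1.le
    have p2 : ((j : ℝ) - β) * Real.log 2 ≤ 1 * Real.log 2 :=
      mul_le_mul_of_nonneg_right (by linarith) l1.le
    have p3 : ((j : ℝ) - α) * Real.log 2 ≤ ((β : ℝ) - α + 1) * Real.log 2 :=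
      mul_le_mul_of_nonneg_right (by linarith) l1.le
    have p4 : ((β : ℝ) - α + 1) * Real.log 2 ≤ ((β : ℝ) - α + 1) * (7 / 10) :=
      mul_le_mul_of_nonneg_left l2 (by linarith)
    refine ⟨⟨?_, ?_⟩, ?_⟩
    · linarith
    · linarith
    · rw [e1, abs_le]
      constructor <;> linarith
  have hdist : ∀ j, α - 1 ≤ j → j ≤ β + 1 →
      ‖pf.Γ (sj j) - R.yj α‖ ≤ 2 * Cp * Real.sqrt R.e := by
    intro j hj1 hj2
    rw [← pf.hα]
    obtain ⟨g1, g2⟩ := hsj j hj1 hj2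
    obtain ⟨g3, -⟩ := hsj α (by omega) (by omega)
    refine (pfB_gamma_lip pf.geod _ _ g1 g3).trans ?_
    calc pf.a * |sj j - sj α| ≤ pf.a * (2 * ((β : ℝ) - α)) := by
          apply mul_le_mul_of_nonneg_left _ ha
          linarith
      _ = 2 * (pf.a * ((β : ℝ) - α)) := by ring
      _ ≤ 2 * (Cp * Real.sqrt R.e) := by linarith
      _ = 2 * Cp * Real.sqrt R.e := by ring
  constructor
  · intro j hj1 hj2 x hx
    have hp := pfB_p2_pos j
    have hpa := pfB_p2_pos α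
    have hpb := pfB_p2_pos β
    have h1 : 1 / (4 * p2 β) ≤ ‖x - R.x₀‖ := by
      refine le_trans ?_ hx.1
      apply one_div_le_one_div_of_le (by positivity)
      have g1 : p2 j ≤ p2 (β + 1) := by
        unfold p2
        exact pow_le_pow_right₀ (by norm_num) hj2
      have g2 : p2 (β + 1) = 2 * p2 β := by unfold p2; ring
      linarith
    have h2 : ‖x - R.x₀‖ ≤ 8 / p2 α := by
      refine hx.2.trans ?_
      rw [div_le_div_iff₀ hp hpa]
      have g1 : p2 α ≤ p2 (j + 1) := by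
        unfold p2
        exact pow_le_pow_right₀ (by norm_num) (by omega)
      have g2 : p2 (j + 1) = 2 * p2 j := by unfold p2; ring
      linarith
    obtain ⟨hr, hs⟩ := pfB_time α β _ h1 h2
    rw [pf.lam_eq x h1 h2]
    have hjm := (hsj j hj1 hj2).1
    have h3 : |-Real.log ‖x - R.x₀‖ - sj j| ≤ 2 := by
      have g1 := Real.log_le_log hr hx.2
      rw [Real.log_div (by norm_num) hp.ne'] at g1
      have g2 := Real.log_le_log (by positivity) hx.1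
      rw [one_div, Real.log_inv, Real.log_mul (by norm_num) hp.ne'] at g2
      have e4 : Real.log 4 = 2 * Real.log 2 := by
        rw [show (4 : ℝ) = 2 ^ 2 by norm_num, Real.log_pow]
        norm_num
      rw [e4] at g1
      unfold sj
      rw [abs_le]
      constructor <;> linarith
    have h4 := pfB_gamma_lip pf.geod _ _ hs hjm
    have h5 : ‖pf.Γ (-Real.log ‖x - R.x₀‖) - pf.Γ (sj j)‖ ≤ 2 * pf.a := by
      refine h4.trans ?_
      have := mul_le_mul_of_nonneg_left h3 ha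
      linarith
    constructor
    · have h6 := hdist j hj1 hj2
      have h7 := norm_sub_le_norm_sub_add_norm_sub (pf.Γ (-Real.log ‖x - R.x₀‖)) (pf.Γ (sj j))
        (R.yj α)
      linarith
    · refine h5.trans ?_
      have := mul_le_mul_of_nonneg_right hCp ha
      linarith
  · intro j hj1 hj2
    refine ⟨pf.geod.mem _ (hsj j (by omega) (by omega)).1, ?_⟩
    refine (hdist j (by omega) (by omega)).trans ?_
    linarith

lemma pfB_log_diff (a b c : ℝ) (hc : 0 < c) (ha : c ≤ a) (hb : c ≤ b) :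
    |Real.log a - Real.log b| ≤ |a - b| / c := by
  have key : ∀ a b : ℝ, c ≤ a → c ≤ b → b ≤ a → |Real.log a - Real.log b| ≤ |a - b| / c := by
    intro a b ha hb hab
    have ha0 : 0 < a := by linarith
    have hb0 : 0 < b := by linarith
    have h1 : 0 ≤ Real.log a - Real.log b := by
      have := Real.log_le_log hb0 hab
      linarith
    rw [abs_of_nonneg h1, abs_of_nonneg (by linarith), ← Real.log_div ha0.ne' hb0.ne']
    have h2 := Real.log_le_sub_one_of_pos (show 0 < a / b by positivity)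
    have h3 : a / b - 1 = (a - b) / b := by field_simp
    rw [h3] at h2
    exact h2.trans (div_le_div_of_nonneg_left (by linarith) hc hb)
  rcases le_total b a with h | h
  · exact key a b ha hb h
  · rw [abs_sub_comm, abs_sub_comm a b]
    exact key b a hb ha h

theorem pf_lip {n m : ℕ} (P : Par n m) (Cp : ℝ) (hCp : 1 ≤ Cp) : ∃ C e₁ : ℝ, 1 ≤ C ∧ 0 < e₁ ∧
    ∀ (D : Dyn P) (R : RC D) (α β : ℕ) (pf : Pf R Cp α β), R.e ≤ e₁ →
      ∀ x, 1 / (2 * p2 β) ≤ ‖x - R.x₀‖ → ‖x - R.x₀‖ ≤ 4 / p2 α →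
        ∀ y ∈ ball x (‖x - R.x₀‖ / 4), ∀ y' ∈ ball x (‖x - R.x₀‖ / 4),
          ‖fderiv ℝ pf.lam y - fderiv ℝ pf.lam y'‖ ≤ C * pf.a / ‖x - R.x₀‖ ^ 2 * ‖y - y'‖ := by
  have hCT := P.hT.one_le
  refine ⟨16 / 9 * (1 + P.CT * Cp), 1, by
    have := mul_nonneg (by linarith : (0 : ℝ) ≤ P.CT) (by linarith : (0 : ℝ) ≤ Cp)
    linarith, one_pos, ?_⟩
  intro D R α β pf _ x hx1 hx2 y hy y' hy'
  have hpa := pfB_p2_pos α
  have hpb := pfB_p2_pos β
  have ha := pf.a_nonneg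
  have haC : pf.a ≤ Cp := by
    refine pf.a_le.trans ?_
    have := R.e_le
    exact mul_le_of_le_one_right (by linarith) this
  set r := ‖x - R.x₀‖ with hr
  have hr0 : 0 < r := lt_of_lt_of_le (by positivity) hx1
  have hrng : ∀ w ∈ ball x (r / 4), 3 / 4 * r ≤ ‖w - R.x₀‖ ∧ ‖w - R.x₀‖ ≤ 5 / 4 * r := by
    intro w hw
    rw [mem_ball, dist_eq_norm] at hw
    have h1 := norm_sub_le_norm_sub_add_norm_sub x w R.x₀
    have h2 := norm_sub_le_norm_sub_add_norm_sub w x R.x₀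
    rw [norm_sub_rev x w] at h1
    constructor <;> linarith
  have hann : ∀ w ∈ ball x (r / 4), 1 / (4 * p2 β) ≤ ‖w - R.x₀‖ ∧ ‖w - R.x₀‖ ≤ 8 / p2 α := by
    intro w hw
    obtain ⟨h1, h2⟩ := hrng w hw
    constructor
    · refine le_trans ?_ h1
      have e : 1 / (4 * p2 β) = 1 / 2 * (1 / (2 * p2 β)) := by field_simp; norm_num
      rw [e]
      linarith
    · refine h2.trans ?_
      have e : 8 / p2 α = 2 * (4 / p2 α) := by ring
      rw [e]
      linarith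
  obtain ⟨y1, y2⟩ := hrng y hy
  obtain ⟨y1', y2'⟩ := hrng y' hy'
  obtain ⟨z1, z2⟩ := hann y hy
  obtain ⟨z1', z2'⟩ := hann y' hy'
  set ρ := ‖y - R.x₀‖ with hρ
  set ρ' := ‖y' - R.x₀‖ with hρ'
  obtain ⟨hρ0, hs⟩ := pfB_time α β ρ z1 z2
  obtain ⟨hρ0', hs'⟩ := pfB_time α β ρ' z1' z2'
  set s := -Real.log ρ with hsd
  set s' := -Real.log ρ' with hsd'
  have hV := pf.geod.speed s hs
  have hVd := pfB_V_lip P.hT ha pf.geod s s' hs hs'
  have hss : |s - s'| ≤ ‖y - y'‖ / (3 / 4 * r) := by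
    have g1 := pfB_log_diff ρ ρ' (3 / 4 * r) (by positivity) y1 y1'
    have e : |s - s'| = |Real.log ρ - Real.log ρ'| := by
      rw [hsd, hsd', ← abs_neg]
      congr 1
      ring
    rw [e]
    refine g1.trans ?_
    apply div_le_div_of_nonneg_right _ (by positivity)
    have := abs_norm_sub_norm_le (y - R.x₀) (y' - R.x₀)
    rw [sub_sub_sub_cancel_right] at this
    exact this
  have hy0 : y - R.x₀ ≠ 0 := norm_pos_iff.mp hρ0
  have hy0' : y' - R.x₀ ≠ 0 := norm_pos_iff.mp hρ0'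
  have hw : ‖(1 / ρ ^ 2) • (y - R.x₀) - (1 / ρ' ^ 2) • (y' - R.x₀)‖ ≤
      16 / 9 / r ^ 2 * ‖y - y'‖ := by
    have g1 := dist_div_norm_sq_smul hy0 hy0' 1
    rw [dist_eq_norm, dist_eq_norm, sub_sub_sub_cancel_right, div_pow, div_pow, one_pow,
      ← hρ, ← hρ'] at g1
    rw [g1]
    apply mul_le_mul_of_nonneg_right _ (norm_nonneg _)
    rw [div_div, div_le_div_iff₀ (by positivity) (by positivity)]
    linarith [mul_le_mul y1 y1' (by positivity) hρ0.le]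
  have hw' : ‖(1 / ρ' ^ 2) • (y' - R.x₀)‖ ≤ 4 / 3 / r := by
    rw [norm_smul, ← hρ', norm_div, norm_one, norm_pow, Real.norm_of_nonneg hρ0'.le]
    have e : 1 / ρ' ^ 2 * ρ' = 1 / ρ' := by field_simp
    rw [e, div_div, div_le_div_iff₀ hρ0' (by positivity)]
    linarith
  apply ContinuousLinearMap.opNorm_le_bound _ (by positivity)
  intro h
  have hdy : (fderiv ℝ pf.lam y - fderiv ℝ pf.lam y') h =
      -((inner ℝ ((1 / ρ ^ 2) • (y - R.x₀) - (1 / ρ' ^ 2) • (y' - R.x₀)) h : ℝ) • pf.V s) -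
        (inner ℝ ((1 / ρ' ^ 2) • (y' - R.x₀)) h : ℝ) • (pf.V s - pf.V s') := by
    have e1 : (inner ℝ ((1 / ρ ^ 2) • (y - R.x₀) - (1 / ρ' ^ 2) • (y' - R.x₀)) h : ℝ) =
        1 / ρ ^ 2 * inner ℝ (y - R.x₀) h - 1 / ρ' ^ 2 * inner ℝ (y' - R.x₀) h := by
      rw [inner_sub_left, real_inner_smul_left, real_inner_smul_left]
    have e2 : (inner ℝ ((1 / ρ' ^ 2) • (y' - R.x₀)) h : ℝ) =
        1 / ρ' ^ 2 * inner ℝ (y' - R.x₀) h := real_inner_smul_left _ _ _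
    rw [e1, e2, sub_apply, pf.lam_der y z1 z2, pf.lam_der y' z1' z2', ← hρ, ← hρ', ← hsd, ← hsd']
    rw [div_eq_mul_one_div (inner ℝ (y - R.x₀) h : ℝ), div_eq_mul_one_div (inner ℝ (y' - R.x₀) h : ℝ)]
    module
  rw [hdy]
  have h1 : |(inner ℝ ((1 / ρ ^ 2) • (y - R.x₀) - (1 / ρ' ^ 2) • (y' - R.x₀)) h : ℝ)| ≤
      16 / 9 / r ^ 2 * ‖y - y'‖ * ‖h‖ :=
    (abs_real_inner_le_norm _ _).trans (mul_le_mul_of_nonneg_right hw (norm_nonneg _))
  have h2 : |(inner ℝ ((1 / ρ' ^ 2) • (y' - R.x₀)) h : ℝ)| ≤ 4 / 3 / r * ‖h‖ :=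
    (abs_real_inner_le_norm _ _).trans (mul_le_mul_of_nonneg_right hw' (norm_nonneg _))
  have h3 : ‖pf.V s - pf.V s'‖ ≤ P.CT * pf.a ^ 2 * (‖y - y'‖ / (3 / 4 * r)) :=
    hVd.trans (mul_le_mul_of_nonneg_left hss (by positivity))
  refine (norm_sub_le _ _).trans ?_
  rw [norm_neg, norm_smul, norm_smul, hV, Real.norm_eq_abs, Real.norm_eq_abs]
  calc |(inner ℝ ((1 / ρ ^ 2) • (y - R.x₀) - (1 / ρ' ^ 2) • (y' - R.x₀)) h : ℝ)| * pf.a +
        |(inner ℝ ((1 / ρ' ^ 2) • (y' - R.x₀)) h : ℝ)| * ‖pf.V s - pf.V s'‖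
      ≤ 16 / 9 / r ^ 2 * ‖y - y'‖ * ‖h‖ * pf.a +
        4 / 3 / r * ‖h‖ * (P.CT * pf.a ^ 2 * (‖y - y'‖ / (3 / 4 * r))) := by
        apply add_le_add
        · exact mul_le_mul_of_nonneg_right h1 ha
        · exact mul_le_mul h2 h3 (norm_nonneg _) (by positivity)
    _ = (16 / 9 * (1 + P.CT * pf.a)) * pf.a / r ^ 2 * ‖y - y'‖ * ‖h‖ := by
        field_simp
        ring
    _ ≤ (16 / 9 * (1 + P.CT * Cp)) * pf.a / r ^ 2 * ‖y - y'‖ * ‖h‖ := by
        apply mul_le_mul_of_nonneg_right _ (norm_nonneg _)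
        apply mul_le_mul_of_nonneg_right _ (norm_nonneg _)
        apply div_le_div_of_nonneg_right _ (by positivity)
        apply mul_le_mul_of_nonneg_right _ ha
        have := mul_le_mul_of_nonneg_left haC (by linarith : (0 : ℝ) ≤ P.CT)
        linarith

end H60NT
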