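import Pool.Agent.H60.NT.RgGeo

/-!
# [H60 NT CHIF] The cutoffs

`chi x₀ j x = κ (p2 j ‖x - x₀‖)`, `1` on the ball of radius `1/p2 j`, so smooth (near `x₀` constant, elsewhere the norm is
smooth), `0` outside the ball of radius `2/p2 j`, antitone: `chi (j+1) ≤ chi j` (`p2 (j+1) ≥ p2 j`, `Antitone κ`).
Derivative: `fderiv chi x h = κ'(p2 j r) p2 j ⟨x - x₀, h⟩/r`, zero outside `rg x₀ j`, bounded by `Lκ p2 j ‖h‖`.
`Th j = chi j - chi (j+1)`, telescoping sums. `chi α - chi β` (`α < β`) is `1` on `rg x₀ j` for `α < j < β`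
(up to the boundary: `1/p2 j ≥ 2/p2 β`, `2/p2 j ≤ 1/p2 α`), between `0` and `1`, and vanishes outside
`1/p2 β ≤ ‖x - x₀‖ ≤ 2/p2 α`.
-/

set_option autoImplicit false

namespace H60NT

open H60NH MeasureTheory Metric Set Filter Topology
open scoped ENNReal NNReal ContDiff

lemma chif_p2_pos (j : ℕ) : 0 < p2 j := by unfold p2; positivity

lemma chif_p2_succ (j : ℕ) : p2 (j + 1) = 2 * p2 j := by unfold p2; ring

lemma chif_p2_mono {i j : ℕ} (h : i ≤ j) : p2 i ≤ p2 j := by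
  unfold p2
  exact pow_le_pow_right₀ (by norm_num) h

lemma chif_norm {n : ℕ} (y : E n) (hy : y ≠ 0) :
    HasFDerivAt (fun x : E n => ‖x‖) ((1 / ‖y‖) • innerSL ℝ y) y := by
  have h1 : HasFDerivAt (fun x : E n => ‖x‖ ^ 2) (2 • (innerSL ℝ y)) y := by
    have := (hasFDerivAt_id (𝕜 := ℝ) y).norm_sq
    simpa using this
  have h2 := h1.sqrt (by positivity)
  have h3 : (fun x : E n => Real.sqrt (‖x‖ ^ 2)) = fun x : E n => ‖x‖ := by
    funext x
    exact Real.sqrt_sq (norm_nonneg _)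
  rw [h3] at h2
  have h4 : (1 / (2 * Real.sqrt (‖y‖ ^ 2))) • (2 • (innerSL ℝ y)) = (1 / ‖y‖) • innerSL ℝ y := by
    rw [Real.sqrt_sq (norm_nonneg _), ← Nat.cast_smul_eq_nsmul ℝ, smul_smul]
    congr 1
    have : ‖y‖ ≠ 0 := norm_ne_zero_iff.mpr hy
    push_cast
    field_simp
  rw [h4] at h2
  exact h2

theorem chi_facts {n m : ℕ} (P : Par n m) (x₀ : E n) (j : ℕ) :
    ContDiff ℝ ∞ (P.chi x₀ j) ∧ (∀ x, 0 ≤ P.chi x₀ j x ∧ P.chi x₀ j x ≤ 1) ∧
    (∀ x, ‖x - x₀‖ ≤ 1 / p2 j → P.chi x₀ j x = 1) ∧ (∀ x, 2 / p2 j ≤ ‖x - x₀‖ → P.chi x₀ j x = 0) ∧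
    (∀ x, P.chi x₀ (j + 1) x ≤ P.chi x₀ j x) ∧
    (∀ x h, |fderiv ℝ (P.chi x₀ j) x h| ≤ P.Lκ * p2 j * ‖h‖) ∧
    (∀ x, x ∉ rg x₀ j → fderiv ℝ (P.chi x₀ j) x = 0) ∧
    ∀ x, x ≠ x₀ → ∀ h, fderiv ℝ (P.chi x₀ j) x h =
      deriv P.κf (p2 j * ‖x - x₀‖) * p2 j * (inner ℝ (x - x₀) h / ‖x - x₀‖) := by
  have hp := chif_p2_pos j
  have h1 : ∀ x, ‖x - x₀‖ ≤ 1 / p2 j → P.chi x₀ j x = 1 := by
    intro x hx
    unfold Par.chi
    apply P.hκ.one
    rw [le_div_iff₀ hp] at hx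
    linarith
  have h0 : ∀ x, 2 / p2 j ≤ ‖x - x₀‖ → P.chi x₀ j x = 0 := by
    intro x hx
    unfold Par.chi
    apply P.hκ.zero
    rw [div_le_iff₀ hp] at hx
    linarith
  have hc1 : ∀ x, ‖x - x₀‖ < 1 / p2 j → P.chi x₀ j =ᶠ[𝓝 x] fun _ => (1 : ℝ) := by
    intro x hx
    have ho : IsOpen {y : E n | ‖y - x₀‖ < 1 / p2 j} :=
      isOpen_lt (by fun_prop) continuous_const
    filter_upwards [ho.mem_nhds hx] with y hy
    exact h1 y (le_of_lt hy)
  have hc0 : ∀ x, 2 / p2 j < ‖x - x₀‖ → P.chi x₀ j =ᶠ[𝓝 x] fun _ => (0 : ℝ) := by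
    intro x hx
    have ho : IsOpen {y : E n | 2 / p2 j < ‖y - x₀‖} :=
      isOpen_lt continuous_const (by fun_prop)
    filter_upwards [ho.mem_nhds hx] with y hy
    exact h0 y (le_of_lt hy)
  have hder : ∀ x, x ≠ x₀ → ∀ h, fderiv ℝ (P.chi x₀ j) x h =
      deriv P.κf (p2 j * ‖x - x₀‖) * p2 j * (inner ℝ (x - x₀) h / ‖x - x₀‖) := by
    intro x hx h
    have hx' : x - x₀ ≠ 0 := sub_ne_zero.mpr hx
    have g1 : HasFDerivAt (fun y : E n => y - x₀) (ContinuousLinearMap.id ℝ (E n)) x :=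
      (hasFDerivAt_id x).sub_const x₀
    have g2 := ((chif_norm (x - x₀) hx').comp x g1).const_mul (p2 j)
    have g3 : HasDerivAt P.κf (deriv P.κf (p2 j * ‖x - x₀‖)) (p2 j * ‖x - x₀‖) :=
      ((P.hκ.smooth.differentiable (by norm_num)).differentiableAt).hasDerivAt
    have g4 := g3.comp_hasFDerivAt x g2
    have g5 : fderiv ℝ (P.chi x₀ j) x = _ := g4.fderiv
    rw [g5]
    simp only [ContinuousLinearMap.smul_apply, ContinuousLinearMap.comp_apply,
      ContinuousLinearMap.id_apply, innerSL_apply_apply, smul_eq_mul]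
    ring
  have hz : ∀ x, x ∉ rg x₀ j → fderiv ℝ (P.chi x₀ j) x = 0 := by
    intro x hx
    by_cases hx1 : ‖x - x₀‖ < 1 / p2 j
    · rw [(hc1 x hx1).fderiv_eq]
      exact fderiv_const_apply _
    · by_cases hx2 : 2 / p2 j < ‖x - x₀‖
      · rw [(hc0 x hx2).fderiv_eq]
        exact fderiv_const_apply _
      · exact absurd ⟨not_lt.mp hx1, not_lt.mp hx2⟩ hx
  refine ⟨?_, ?_, h1, h0, ?_, ?_, hz, hder⟩
  · rw [contDiff_iff_contDiffAt]
    intro x
    by_cases hx : ‖x - x₀‖ < 1 / p2 j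
    · exact contDiffAt_const.congr_of_eventuallyEq (hc1 x hx)
    · have hx' : x - x₀ ≠ 0 := by
        intro h
        rw [h, norm_zero] at hx
        exact hx (by positivity)
      have g1 : ContDiffAt ℝ ∞ (fun y : E n => p2 j * ‖y - x₀‖) x :=
        contDiffAt_const.mul ((contDiffAt_id.sub contDiffAt_const).norm ℝ hx')
      exact P.hκ.smooth.contDiffAt.comp x g1
  · intro x
    unfold Par.chi
    constructor
    · have := P.hκ.anti (le_max_left (p2 j * ‖x - x₀‖) 2)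
      rw [P.hκ.zero _ (le_max_right _ _)] at this
      exact this
    · have := P.hκ.anti (min_le_left (p2 j * ‖x - x₀‖) 1)
      rw [P.hκ.one _ (min_le_right _ _)] at this
      exact this
  · intro x
    unfold Par.chi
    apply P.hκ.anti
    exact mul_le_mul_of_nonneg_right (chif_p2_mono (by omega)) (norm_nonneg _)
  · intro x h
    have hL := P.hκ.one_le
    by_cases hx : x = x₀
    · rw [hz x]
      · rw [ContinuousLinearMap.zero_apply, abs_zero]
        positivity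
      · intro hc
        have := hc.1
        rw [hx, sub_self, norm_zero] at this
        have h3 : 0 < 1 / p2 j := by positivity
        linarith
    · rw [hder x hx h]
      have hn : 0 < ‖x - x₀‖ := norm_pos_iff.mpr (sub_ne_zero.mpr hx)
      rw [abs_mul, abs_mul, abs_of_pos hp, abs_div, abs_of_pos hn]
      have g1 := P.hκ.der (p2 j * ‖x - x₀‖)
      have g2 : |inner ℝ (x - x₀) h| / ‖x - x₀‖ ≤ ‖h‖ := by
        rw [div_le_iff₀ hn, mul_comm]
        exact abs_real_inner_le_norm _ _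
      exact mul_le_mul (mul_le_mul_of_nonneg_right g1 hp.le) g2 (by positivity) (by positivity)

theorem th_facts {n m : ℕ} (P : Par n m) (x₀ : E n) (j : ℕ) :
    ContDiff ℝ ∞ (P.Th x₀ j) ∧ (∀ x, 0 ≤ P.Th x₀ j x ∧ P.Th x₀ j x ≤ 1) ∧
    (∀ x, P.Th x₀ j x ≠ 0 → 1 / (2 * p2 j) < ‖x - x₀‖ ∧ ‖x - x₀‖ < 2 / p2 j) ∧
    (∀ x h, |fderiv ℝ (P.Th x₀ j) x h| ≤ 3 * P.Lκ * p2 j * ‖h‖) := by
  obtain ⟨a1, a2, a3, a4, a5, a6, a7, a8⟩ := chi_facts P x₀ j
  obtain ⟨b1, b2, b3, b4, b5, b6, b7, b8⟩ := chi_facts P x₀ (j + 1)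
  have hp := chif_p2_pos j
  have hs := chif_p2_succ j
  refine ⟨a1.sub b1, ?_, ?_, ?_⟩
  · intro x
    unfold Par.Th
    have := a5 x
    have h1 := (a2 x).2
    have h2 := (b2 x).1
    constructor <;> linarith
  · intro x hx
    constructor
    · by_contra hc
      push Not at hc
      apply hx
      unfold Par.Th
      rw [a3 x, b3 x, sub_self]
      · rw [hs]; exact hc
      · refine hc.trans ?_
        apply one_div_le_one_div_of_le hp
        linarith
    · by_contra hc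
      push Not at hc
      apply hx
      unfold Par.Th
      rw [a4 x hc, b4 x, sub_self]
      refine le_trans ?_ hc
      apply div_le_div_of_nonneg_left (by norm_num) hp
      linarith
  · intro x h
    have h1 : fderiv ℝ (P.Th x₀ j) x = fderiv ℝ (P.chi x₀ j) x - fderiv ℝ (P.chi x₀ (j + 1)) x := by
      have e : P.Th x₀ j = P.chi x₀ j - P.chi x₀ (j + 1) := by
        funext y
        rfl
      rw [e]
      exact fderiv_sub (a1.differentiable (by norm_num)).differentiableAt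
        (b1.differentiable (by norm_num)).differentiableAt
    rw [h1, ContinuousLinearMap.sub_apply]
    have h2 := a6 x h
    have h3 := b6 x h
    rw [hs] at h3
    have h4 := abs_sub (fderiv ℝ (P.chi x₀ j) x h) (fderiv ℝ (P.chi x₀ (j + 1)) x h)
    linarith

theorem th_sum {n m : ℕ} (P : Par n m) (x₀ : E n) (α β : ℕ) (h : α ≤ β) (x : E n) :
    ∑ j ∈ Finset.Ico α β, P.Th x₀ j x = P.chi x₀ α x - P.chi x₀ β x := by
  induction β, h using Nat.le_induction with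
  | base => simp
  | succ b hb ih =>
    rw [Finset.sum_Ico_succ_top hb, ih]
    unfold Par.Th
    ring

theorem chi_win {n m : ℕ} (P : Par n m) (x₀ : E n) (α β : ℕ) (h : α < β) :
    (∀ x, 0 ≤ P.chi x₀ α x - P.chi x₀ β x ∧ P.chi x₀ α x - P.chi x₀ β x ≤ 1) ∧
    (∀ x, P.chi x₀ α x - P.chi x₀ β x ≠ 0 → 1 / p2 β ≤ ‖x - x₀‖ ∧ ‖x - x₀‖ ≤ 2 / p2 α) ∧
    (∀ j, α < j → j < β → ∀ x ∈ rg x₀ j, P.chi x₀ α x - P.chi x₀ β x = 1) ∧
    (∀ x, P.chi x₀ α x - P.chi x₀ β x ≠ 0 → ∃ j, α ≤ j ∧ j ≤ β ∧ x ∈ rg x₀ j) := by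
  obtain ⟨a1, a2, a3, a4, a5, a6, a7, a8⟩ := chi_facts P x₀ α
  obtain ⟨b1, b2, b3, b4, b5, b6, b7, b8⟩ := chi_facts P x₀ β
  have hpa := chif_p2_pos α
  have hpb := chif_p2_pos β
  have hab := chif_p2_mono h.le
  have hw : ∀ x, P.chi x₀ α x - P.chi x₀ β x ≠ 0 →
      1 / p2 β ≤ ‖x - x₀‖ ∧ ‖x - x₀‖ ≤ 2 / p2 α := by
    intro x hx
    constructor
    · by_contra hc
      push Not at hc
      apply hx
      rw [b3 x hc.le, a3 x, sub_self]
      exact hc.le.trans (one_div_le_one_div_of_le hpa hab)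
    · by_contra hc
      push Not at hc
      apply hx
      rw [a4 x hc.le, b4 x, sub_self]
      exact (div_le_div_of_nonneg_left (by norm_num) hpa hab).trans hc.le
  refine ⟨?_, hw, ?_, ?_⟩
  · intro x
    have h1 : P.chi x₀ β x ≤ P.chi x₀ α x := by
      unfold Par.chi
      apply P.hκ.anti
      exact mul_le_mul_of_nonneg_right hab (norm_nonneg _)
    have h2 := (a2 x).2
    have h3 := (b2 x).1
    constructor <;> linarith
  · intro j hj1 hj2 x hx
    have hpj := chif_p2_pos j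
    rw [a3 x, b4 x, sub_zero]
    · refine le_trans ?_ hx.1
      have h1 := chif_p2_mono (show j + 1 ≤ β from hj2)
      rw [chif_p2_succ] at h1
      rw [div_le_div_iff₀ hpb hpj]
      linarith
    · refine le_trans hx.2 ?_
      have h1 := chif_p2_mono (show α + 1 ≤ j from hj1)
      rw [chif_p2_succ] at h1
      rw [div_le_div_iff₀ hpj hpa]
      linarith
  · intro x hx
    obtain ⟨h1, h2⟩ := hw x hx
    have hex : ∃ j, α ≤ j ∧ 1 / p2 j ≤ ‖x - x₀‖ := ⟨β, h.le, h1⟩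
    classical
    obtain ⟨g1, g2⟩ := Nat.find_spec hex
    have g3 : Nat.find hex ≤ β := Nat.find_le ⟨h.le, h1⟩
    refine ⟨Nat.find hex, g1, g3, g2, ?_⟩
    by_cases hc : Nat.find hex = α
    · rw [hc]
      exact h2
    · have g4 : ¬ (α ≤ Nat.find hex - 1 ∧ 1 / p2 (Nat.find hex - 1) ≤ ‖x - x₀‖) :=
        Nat.find_min hex (by omega)
      have g5 : ‖x - x₀‖ < 1 / p2 (Nat.find hex - 1) := by
        by_contra hcc
        push Not at hcc
        exact g4 ⟨by omega, hcc⟩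
      have g6 : p2 (Nat.find hex) = 2 * p2 (Nat.find hex - 1) := by
        rw [← chif_p2_succ]
        congr 1
        omega
      rw [g6]
      have hpp := chif_p2_pos (Nat.find hex - 1)
      refine g5.le.trans (le_of_eq ?_)
      field_simp

end H60NT
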