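import Pool.Agent.H60.NT.TgF
import Pool.Agent.H60.NH.MSol

/-!
# [H60 NT DINT] Integrability facts for a solution

`D.hS : Sol P.N P.π 64 D.u D.G`, `D.hf : Mor`. `f = gn ∘ G` is measurable (`sol_int` in `NH/MSol`), `f >= 0`.
`gq`: `∑ ‖G_i‖² = f²` (`gn` squared), `|⟨G_i, DF G_i⟩| <= CG ‖G_i‖²` (`Geo.bdy`), so
`|gq| <= CG f^(n-2) f² = CG f^n` (`n >= 2`). Measurability: `x ↦ fderiv (F q) (u x)` is measurable
(`F q` is `C^∞`, so its derivative is continuous, composed with the measurable `u`), applied to the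
measurable `G x i`. `Phi`: `η * gq` is dominated by `B CG f^n`.
Second theorem: for a.e. `x ∈ ball 0 64` `u x ∈ N` and `G x i` is tangent; outside the ball `G = 0`, so
`gq = 0`; `Geo.mono`.
-/

set_option autoImplicit false

namespace H60NT

open H60NH MeasureTheory Metric Set Filter Topology
open scoped ENNReal NNReal ContDiff

private theorem dint_F {m : ℕ} {n : ℕ} (P : Par n m) (q : E m) : ContDiff ℝ ∞ (P.F q) :=
  P.hG.smooth.comp (contDiff_const.prodMk contDiff_id)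

private theorem dint_gn_sq {n m : ℕ} (a : Fin n → E m) : gn a ^ 2 = ∑ i, ‖a i‖ ^ 2 := by
  unfold gn
  exact Real.sq_sqrt (Finset.sum_nonneg fun i _ => by positivity)

private theorem dint_meas {n m : ℕ} {P : Par n m} (D : Dyn P) (q : E m) : Measurable (D.gq q) := by
  have hc : Continuous (fun p : E m × E m => fderiv ℝ (P.F q) p.1 p.2) :=
    (((dint_F P q).continuous_fderiv (by simp)).comp continuous_fst).clm_apply continuous_snd
  have hf : Measurable D.f := D.hf.meas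
  unfold Dyn.gq
  refine (hf.pow_const (n - 2)).mul (Finset.measurable_sum _ fun i _ => ?_)
  exact (D.hS.meas_G i).inner (hc.measurable.comp (D.hS.meas_u.prodMk (D.hS.meas_G i)))

private theorem dint_bd {n m : ℕ} {P : Par n m} (D : Dyn P) (q : E m) (x : E n) :
    |D.gq q x| ≤ P.CG * D.f x ^ n := by
  have hn := P.hn
  have hf0 : 0 ≤ D.f x := D.hf.nonneg x
  have h1 : |∑ i, inner ℝ (D.G x i) (fderiv ℝ (P.F q) (D.u x) (D.G x i))| ≤
      P.CG * D.f x ^ 2 := by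
    have h2 : D.f x ^ 2 = ∑ i, ‖D.G x i‖ ^ 2 := dint_gn_sq (D.G x)
    rw [h2, Finset.mul_sum]
    refine (Finset.abs_sum_le_sum_abs _ _).trans (Finset.sum_le_sum fun i _ => ?_)
    refine (abs_real_inner_le_norm _ _).trans ?_
    have h3 : ‖fderiv ℝ (P.F q) (D.u x) (D.G x i)‖ ≤ P.CG * ‖D.G x i‖ :=
      (ContinuousLinearMap.le_opNorm _ _).trans
        (mul_le_mul_of_nonneg_right (P.hG.bdy q (D.u x)) (norm_nonneg _))
    calc ‖D.G x i‖ * ‖fderiv ℝ (P.F q) (D.u x) (D.G x i)‖ ≤ ‖D.G x i‖ * (P.CG * ‖D.G x i‖) :=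
          mul_le_mul_of_nonneg_left h3 (norm_nonneg _)
      _ = P.CG * ‖D.G x i‖ ^ 2 := by ring
  unfold Dyn.gq
  rw [abs_mul, abs_of_nonneg (pow_nonneg hf0 _)]
  calc D.f x ^ (n - 2) * |∑ i, inner ℝ (D.G x i) (fderiv ℝ (P.F q) (D.u x) (D.G x i))|
      ≤ D.f x ^ (n - 2) * (P.CG * D.f x ^ 2) := mul_le_mul_of_nonneg_left h1 (pow_nonneg hf0 _)
    _ = P.CG * (D.f x ^ (n - 2) * D.f x ^ 2) := by ring
    _ = P.CG * D.f x ^ n := by
        rw [← pow_add]
        congr 2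
        omega

theorem dyn_int {n m : ℕ} {P : Par n m} (D : Dyn P) :
    Measurable D.f ∧ (∀ x, 0 ≤ D.f x) ∧ Integrable D.f ∧ Integrable (fun x => D.f x ^ n) ∧
      (∀ q, Measurable (D.gq q)) ∧ (∀ q x, |D.gq q x| ≤ P.CG * D.f x ^ n) ∧
      (∀ q, Integrable (D.gq q)) ∧
      (∀ (η : E n → ℝ) (B : ℝ) (q : E m), Measurable η → (∀ x, |η x| ≤ B) →
        Integrable (fun x => η x * D.gq q x)) := by
  have hC1 : 1 ≤ P.CG := P.hG.one_le
  have hf0 : ∀ x, 0 ≤ D.f x := D.hf.nonneg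
  have hgi : ∀ q, Integrable (D.gq q) := by
    intro q
    refine (D.hf.intn.const_mul P.CG).mono' (dint_meas D q).aestronglyMeasurable ?_
    exact Eventually.of_forall fun x => by
      rw [Real.norm_eq_abs]
      exact dint_bd D q x
  refine ⟨D.hf.meas, hf0, D.hf.int, D.hf.intn, fun q => dint_meas D q, fun q x => dint_bd D q x,
    hgi, ?_⟩
  intro η B q hη hB
  refine (hgi q).bdd_mul (c := B) hη.aestronglyMeasurable ?_
  exact Eventually.of_forall fun x => by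
    rw [Real.norm_eq_abs]
    exact hB x

theorem dyn_ae {n m : ℕ} {P : Par n m} (D : Dyn P) :
    (∀ᵐ x, x ∈ ball (0 : E n) 64 → D.u x ∈ P.N ∧
      ∀ i, fderiv ℝ P.π (D.u x) (D.G x i) = D.G x i) ∧
    (∀ x, x ∉ ball (0 : E n) 64 → D.f x = 0 ∧ D.u x = 0 ∧ ∀ i, D.G x i = 0) ∧
    ∀ q ∈ P.N, ∀ᵐ x, (x ∈ ball (0 : E n) 64 → P.dd q (D.u x) ≤ P.r₁ + 3 * P.ρ₀) →
      0 ≤ D.gq q x := by
  have h1 : ∀ᵐ x, x ∈ ball (0 : E n) 64 → D.u x ∈ P.N ∧
      ∀ i, fderiv ℝ P.π (D.u x) (D.G x i) = D.G x i := by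
    have ha := (ae_restrict_iff' measurableSet_ball).1 D.hS.memN
    have hb := (ae_restrict_iff' measurableSet_ball).1 D.hS.tan
    filter_upwards [ha, hb] with x hxa hxb hx
    exact ⟨hxa hx, hxb hx⟩
  have h2 : ∀ x, x ∉ ball (0 : E n) 64 → D.f x = 0 ∧ D.u x = 0 ∧ ∀ i, D.G x i = 0 := by
    intro x hx
    exact ⟨D.hf.supp x hx, D.hS.out_u x hx, D.hS.out_G x hx⟩
  refine ⟨h1, h2, ?_⟩
  intro q hq
  filter_upwards [h1] with x hx1 hx2
  unfold Dyn.gq
  by_cases hx : x ∈ ball (0 : E n) 64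
  · obtain ⟨hN, hT⟩ := hx1 hx
    refine mul_nonneg (pow_nonneg (D.hf.nonneg x) _) (Finset.sum_nonneg fun i _ => ?_)
    exact P.hG.mono q hq (D.u x) hN (hx2 hx) (D.G x i) (hT i)
  · have h3 := (h2 x hx).2.2
    have h4 : ∑ i, inner ℝ (D.G x i) (fderiv ℝ (P.F q) (D.u x) (D.G x i)) = 0 :=
      Finset.sum_eq_zero fun i _ => by rw [h3 i, inner_zero_left]
    rw [h4, mul_zero]

/-- `Phi` is additive and homogeneous in bounded measurable weights, with a bound. -/
theorem phi_lin {n m : ℕ} {P : Par n m} (D : Dyn P) (η η' : E n → ℝ) (B : ℝ) (q : E m)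
    (hη : Measurable η) (hη' : Measurable η') (hB : ∀ x, |η x| ≤ B) (hB' : ∀ x, |η' x| ≤ B) :
    D.Phi (fun x => η x + η' x) q = D.Phi η q + D.Phi η' q ∧
    D.Phi (fun x => η x - η' x) q = D.Phi η q - D.Phi η' q ∧
    (∀ c : ℝ, D.Phi (fun x => c * η x) q = c * D.Phi η q) ∧
    |D.Phi η q| ≤ P.CG * ∫ x, |η x| * D.f x ^ n := by
  obtain ⟨hfm, hf0, hfi, hfn, hgm, hgb, hgi, hpi⟩ := dyn_int D
  have hi := hpi η B q hη hB
  have hi' := hpi η' B q hη' hB'
  refine ⟨?_, ?_, ?_, ?_⟩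
  · unfold Dyn.Phi
    rw [← integral_add hi hi']
    congr 1
    funext x
    ring
  · unfold Dyn.Phi
    rw [← integral_sub hi hi']
    congr 1
    funext x
    ring
  · intro c
    unfold Dyn.Phi
    rw [← integral_const_mul]
    congr 1
    funext x
    ring
  · unfold Dyn.Phi
    have hi3 : Integrable (fun x => |η x| * D.f x ^ n) := by
      refine hfn.bdd_mul (c := B) hη.norm.aestronglyMeasurable ?_
      exact Eventually.of_forall fun x => by
        rw [Real.norm_eq_abs, abs_abs]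
        exact hB x
    rw [← integral_const_mul]
    refine (abs_integral_le_integral_abs).trans ?_
    refine integral_mono hi.abs (hi3.const_mul P.CG) ?_
    intro x
    show |η x * D.gq q x| ≤ P.CG * (|η x| * D.f x ^ n)
    rw [abs_mul]
    calc |η x| * |D.gq q x| ≤ |η x| * (P.CG * D.f x ^ n) :=
          mul_le_mul_of_nonneg_left (hgb q x) (abs_nonneg _)
      _ = P.CG * (|η x| * D.f x ^ n) := by ring

end H60NT
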