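import Pool.Agent.H60.NT.Def

/-!
# [H60 NT POW] Elementary inequalities for powers

All by standard means. (a) power mean: `(∑_{i ∈ s} a_i)^n ≤ |s|^(n-1) ∑ a_i^n` (`inner_le_nnorm_mul_nnorm` or
`Finset.inner_le...`; Mathlib: `inner_mul_le_norm...`, better `Finset.pow_arith_mean_le_arith_mean_pow` or
`inner_le_Lp_mul_Lq`). (b) Young: `a^(n-1) b ≤ a^n + b^n`, `a^(n-2) b^2 ≤ a^n + b^n` (compare with `max a b`).
(c) `(a+b)^n ≤ 2^n (a^n + b^n)`.
-/

set_option autoImplicit false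

namespace H60NT

open H60NH MeasureTheory Metric Set Filter Topology
open scoped ENNReal NNReal ContDiff

theorem pow_mean {ι : Type*} (s : Finset ι) (a : ι → ℝ) (ha : ∀ i ∈ s, 0 ≤ a i) (n : ℕ)
    (hn : 1 ≤ n) : (∑ i ∈ s, a i) ^ n ≤ (s.card : ℝ) ^ (n - 1) * ∑ i ∈ s, a i ^ n := by
  rcases s.eq_empty_or_nonempty with rfl | hs
  · rw [Finset.sum_empty, zero_pow (by omega)]
    simp
  obtain ⟨k, rfl⟩ : ∃ k, n = k + 1 := ⟨n - 1, by omega⟩
  have h1 := pow_sum_div_card_le_sum_pow (s := s) (f := a) (n := k) ha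
  have h2 : (0 : ℝ) < (s.card : ℝ) ^ k := by
    have : (0 : ℝ) < s.card := by exact_mod_cast hs.card_pos
    positivity
  rw [div_le_iff₀ h2] at h1
  rw [Nat.add_sub_cancel]
  linarith

private theorem young_aux {a b : ℝ} (ha : 0 ≤ a) (hb : 0 ≤ b) (p q : ℕ) :
    a ^ p * b ^ q ≤ a ^ (p + q) + b ^ (p + q) := by
  rcases le_total a b with h | h
  · have h1 : a ^ p * b ^ q ≤ b ^ p * b ^ q :=
      mul_le_mul_of_nonneg_right (pow_le_pow_left₀ ha h p) (pow_nonneg hb q)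
    rw [← pow_add] at h1
    have h2 : 0 ≤ a ^ (p + q) := pow_nonneg ha _
    linarith
  · have h1 : a ^ p * b ^ q ≤ a ^ p * a ^ q :=
      mul_le_mul_of_nonneg_left (pow_le_pow_left₀ hb h q) (pow_nonneg ha p)
    rw [← pow_add] at h1
    have h2 : 0 ≤ b ^ (p + q) := pow_nonneg hb _
    linarith

private theorem young_add {a b : ℝ} (ha : 0 ≤ a) (hb : 0 ≤ b) (n k : ℕ) (hk : k ≤ n) :
    (a + b) ^ k ≤ 2 ^ n * (a ^ k + b ^ k) := by
  refine (add_pow_le ha hb k).trans ?_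
  refine mul_le_mul_of_nonneg_right ?_ (add_nonneg (pow_nonneg ha k) (pow_nonneg hb k))
  exact pow_le_pow_right₀ (by norm_num) (by omega)

theorem young1 (n : ℕ) (hn : 2 ≤ n) (a b : ℝ) (ha : 0 ≤ a) (hb : 0 ≤ b) :
    a ^ (n - 1) * b ≤ a ^ n + b ^ n ∧ a ^ (n - 2) * b ^ 2 ≤ a ^ n + b ^ n ∧
      a * b ^ (n - 1) ≤ a ^ n + b ^ n ∧ (a + b) ^ n ≤ 2 ^ n * (a ^ n + b ^ n) ∧
      (a + b) ^ (n - 2) ≤ 2 ^ n * (a ^ (n - 2) + b ^ (n - 2)) ∧
      (a + b) ^ (n - 1) ≤ 2 ^ n * (a ^ (n - 1) + b ^ (n - 1)) := by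
  refine ⟨?_, ?_, ?_, young_add ha hb n n le_rfl, young_add ha hb n (n - 2) (by omega),
    young_add ha hb n (n - 1) (by omega)⟩
  · have h := young_aux ha hb (n - 1) 1
    rwa [pow_one, Nat.sub_add_cancel (by omega)] at h
  · have h := young_aux ha hb (n - 2) 2
    rwa [Nat.sub_add_cancel hn] at h
  · have h := young_aux ha hb 1 (n - 1)
    rwa [pow_one, Nat.add_sub_cancel' (by omega)] at h

end H60NT
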