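import Pool.Agent.H60.NT.PfVG
import Pool.Agent.H60.NT.RgGeo
import Pool.Agent.H60.NT.Pow
import Pool.Agent.H60.NT.DInt

/-!
# [H60 NT PFGN] The energy of `g` in the rings; (6a)

`fr x₀ j ⊆ br x₀ j`, inside the annulus of `pf_lam` for `α - 1 ≤ j ≤ β + 1` and inside `ball 0 64`
(`‖x₀‖ ≤ 1`, `p2 j ≥ 1`). `gn g ≤ f + fl`, `fl = a/‖x-x₀‖ ≤ 2 a p2 j` on `fr x₀ j`, `(f + fl)^n ≤ 2^n (f^n + fl^n)`, volume
`fr_vol`. The same for `z ≤ 4 · 2^n (f^n + fl^n)` (`pf_in`) on `rg x₀ j`. Integrability: all functions are dominated by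
integrable ones (`gn g ^ 2 ≤ 1 + gn g ^ n`).
(6a): `SS = ∑_{α-1 ≤ j ≤ β+1} Z_j ≤ C ∑ (D_j + a^n)`; there are `β - α + 3 ≤ 3 (β - α)` terms and
`(β - α) a^n ≤ Cp ∑_{α ≤ j ≤ β} D_j` (`a_pow`).
-/

set_option autoImplicit false

namespace H60NT

open H60NH MeasureTheory Metric Set Filter Topology
open scoped ENNReal NNReal ContDiff

private theorem pgn_frbr {n : ℕ} (x₀ : E n) (j : ℕ) : fr x₀ j ⊆ br x₀ j := by
  intro x hx
  obtain ⟨h1, h2⟩ := hx
  have hp := (p2_succ j).2.1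
  refine ⟨?_, ?_⟩
  · refine le_trans ?_ h1
    apply one_div_le_one_div_of_le (by positivity)
    linarith
  · refine h2.trans ?_
    apply div_le_div_of_nonneg_right _ hp.le
    norm_num

private theorem pgn_rgfr {n : ℕ} (x₀ : E n) (j : ℕ) : rg x₀ j ⊆ fr x₀ j := by
  intro x hx
  obtain ⟨h1, h2⟩ := hx
  have hp := (p2_succ j).2.1
  refine ⟨?_, ?_⟩
  · refine le_trans ?_ h1
    apply one_div_le_one_div_of_le (by positivity)
    linarith
  · refine h2.trans ?_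
    apply div_le_div_of_nonneg_right _ hp.le
    norm_num

theorem pf_gn {n m : ℕ} (P : Par n m) (Cp : ℝ) (hCp : 1 ≤ Cp) : ∃ C : ℝ, 1 ≤ C ∧
    ∀ (D : Dyn P) (R : RC D) (α β : ℕ) (pf : Pf R Cp α β), α + 2 ≤ β → MeasurableSet R.S →
      (∀ j, α - 1 ≤ j → j ≤ β + 1 →
        IntegrableOn (fun x => gn (pf.g x) ^ n) (fr R.x₀ j) ∧
        IntegrableOn (fun x => gn (pf.g x) ^ 2) (fr R.x₀ j) ∧
        IntegrableOn pf.z (fr R.x₀ j) ∧
        ∫ x in fr R.x₀ j, gn (pf.g x) ^ n ≤ C * (R.Dj j + pf.a ^ n) ∧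
        0 ≤ pf.Z j ∧ pf.Z j ≤ C * (R.Dj j + pf.a ^ n) ∧ 0 ≤ R.Dj j ∧ 0 ≤ pf.Er j) ∧
      pf.SS ≤ C * ∑ j ∈ Finset.Icc (α - 1) (β + 1), R.Dj j ∧
      ((β : ℝ) - α + 3) * pf.a ^ n ≤ C * ∑ j ∈ Finset.Icc α β, R.Dj j := by
  have hn := P.hn
  obtain ⟨Cv, hCv1, hCv⟩ := fr_vol n (by omega)
  have hone : (1 : ℝ) ≤ 2 ^ n := one_le_pow₀ (by norm_num)
  set C1 : ℝ := 4 * 2 ^ n * (2 ^ n * Cv) with hC1
  have hC1' : 1 ≤ C1 := by
    have h1 : (1 : ℝ) ≤ 2 ^ n * Cv := one_le_mul_of_one_le_of_one_le hone hCv1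
    have h2 : (1 : ℝ) ≤ 4 * 2 ^ n := by linarith
    exact one_le_mul_of_one_le_of_one_le h2 h1
  refine ⟨C1 * (1 + 3 * Cp), ?_, ?_⟩
  · exact one_le_mul_of_one_le_of_one_le hC1' (by linarith)
  intro D R α β pf hαβ hSm
  have hC1C : C1 ≤ C1 * (1 + 3 * Cp) := le_mul_of_one_le_right (by linarith) (by linarith)
  obtain ⟨hVG, hvm, hlc, hLc, hflc, hzm, hfl0, hz0, hvb⟩ := pf_vg pf
  have hf0 : ∀ x, 0 ≤ D.f x := D.hf.nonneg
  have ha0 := pf.a_nonneg
  have han : 0 ≤ pf.a ^ n := pow_nonneg ha0 n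
  have hW1 : 1 ≤ R.W := by
    have h1 := R.W1
    by_contra h2
    have h3 : R.W = 0 := by omega
    rw [h3, Nat.cast_zero, zero_mul] at h1
    linarith
  have hα1 : 1 ≤ α := by
    have := pf.ge
    omega
  have hD0 : ∀ j, 0 ≤ R.Dj j := fun j => integral_nonneg fun x => pow_nonneg (hf0 x) n
  -- the fat rings
  have hring : ∀ j, α - 1 ≤ j → j ≤ β + 1 → ∀ x ∈ fr R.x₀ j,
      ‖x‖ < 64 ∧ pf.fl x ≤ 2 * p2 j * pf.a := by
    intro j hj1 hj2 x hx
    obtain ⟨h1, h2⟩ := hx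
    obtain ⟨-, hpj, hpj1⟩ := p2_succ j
    obtain ⟨eβ, hpβ, hpβ1⟩ := p2_succ β
    have hα' : p2 α = 2 * p2 (α - 1) := by
      have := (p2_succ (α - 1)).1
      rwa [Nat.sub_add_cancel hα1] at this
    have hpα := (p2_succ (α - 1)).2.1
    have hmono : ∀ i k : ℕ, i ≤ k → p2 i ≤ p2 k := fun i k hik =>
      pow_le_pow_right₀ (by norm_num) hik
    have h3 : 1 / (4 * p2 β) ≤ ‖x - R.x₀‖ := by
      refine le_trans ?_ h1
      apply one_div_le_one_div_of_le (by positivity)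
      have := hmono j (β + 1) hj2
      rw [eβ] at this
      linarith
    have h4 : ‖x - R.x₀‖ ≤ 8 / p2 α := by
      refine h2.trans ?_
      rw [hα']
      have h5 := hmono (α - 1) j hj1
      rw [show (8 : ℝ) / (2 * p2 (α - 1)) = 4 / p2 (α - 1) by
        field_simp
        norm_num]
      exact div_le_div_of_nonneg_left (by norm_num) hpα h5
    have hr : 0 < ‖x - R.x₀‖ := lt_of_lt_of_le (by positivity) h1
    refine ⟨?_, ?_⟩
    · have h5 : ‖x‖ ≤ ‖x - R.x₀‖ + ‖R.x₀‖ := by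
        have := norm_add_le (x - R.x₀) R.x₀
        rwa [sub_add_cancel] at this
      have h6 : 4 / p2 j ≤ 4 := by
        rw [div_le_iff₀ hpj]
        linarith
      have := R.hx
      linarith
    · rw [(pf_lam pf x h3 h4).1, div_le_iff₀ hr]
      have h5 : 1 ≤ 2 * p2 j * ‖x - R.x₀‖ := by
        rw [div_le_iff₀ (by positivity)] at h1
        linarith
      calc pf.a = pf.a * 1 := (mul_one _).symm
        _ ≤ pf.a * (2 * p2 j * ‖x - R.x₀‖) := mul_le_mul_of_nonneg_left h5 ha0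
        _ = 2 * p2 j * pf.a * ‖x - R.x₀‖ := by ring
  have hgn0 : ∀ x, 0 ≤ gn (pf.g x) := fun x => Real.sqrt_nonneg _
  have hgm : Measurable (fun x => gn (pf.g x)) := by
    unfold gn
    exact (Finset.measurable_sum _ fun i _ => (hVG.meas_g i).norm.pow_const 2).sqrt
  have hmain : ∀ j, α - 1 ≤ j → j ≤ β + 1 →
        IntegrableOn (fun x => gn (pf.g x) ^ n) (fr R.x₀ j) ∧
        IntegrableOn (fun x => gn (pf.g x) ^ 2) (fr R.x₀ j) ∧
        IntegrableOn pf.z (fr R.x₀ j) ∧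
        ∫ x in fr R.x₀ j, gn (pf.g x) ^ n ≤ C1 * (R.Dj j + pf.a ^ n) ∧
        0 ≤ pf.Z j ∧ pf.Z j ≤ C1 * (R.Dj j + pf.a ^ n) ∧ 0 ≤ R.Dj j ∧ 0 ≤ pf.Er j := by
    intro j hj1 hj2
    obtain ⟨hrgm, hfrm, hbrm⟩ := rg_meas R.x₀ j
    obtain ⟨hv1, hv2, -, -⟩ := hCv R.x₀ j
    obtain ⟨-, hpj, hpj1⟩ := p2_succ j
    have hI1 : IntegrableOn (fun x => gn (pf.g x) ^ n) (fr R.x₀ j) := hVG.int_gn.integrableOn
    have hIcc : ∀ c : ℝ, IntegrableOn (fun _ : E n => c) (fr R.x₀ j) volume := fun c => by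
      rw [integrableOn_const_iff]
      exact Or.inr hv2
    have hIc := hIcc 1
    have hfI : IntegrableOn (fun x => 4 * 2 ^ n * D.f x ^ n) (fr R.x₀ j) volume :=
      (D.hf.intn.const_mul (4 * 2 ^ n)).integrableOn
    have hI2 : IntegrableOn (fun x => gn (pf.g x) ^ 2) (fr R.x₀ j) := by
      refine Integrable.mono' (hIc.add hI1) (hgm.pow_const 2).aestronglyMeasurable ?_
      refine Eventually.of_forall fun x => ?_
      rw [Real.norm_of_nonneg (sq_nonneg _), Pi.add_apply]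
      rcases le_total (gn (pf.g x)) 1 with h | h
      · have h1 : gn (pf.g x) ^ 2 ≤ 1 := pow_le_one₀ (hgn0 x) h
        have h2 : 0 ≤ gn (pf.g x) ^ n := pow_nonneg (hgn0 x) n
        linarith
      · have h1 : gn (pf.g x) ^ 2 ≤ gn (pf.g x) ^ n := pow_le_pow_right₀ h (by omega)
        linarith
    have hbI : IntegrableOn (fun x => 4 * 2 ^ n * D.f x ^ n +
        4 * 2 ^ n * (2 * p2 j * pf.a) ^ n) (fr R.x₀ j) volume := hfI.add (hIcc _)
    have hzb : ∀ x ∈ fr R.x₀ j, pf.z x ≤ 4 * 2 ^ n * D.f x ^ n +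
        4 * 2 ^ n * (2 * p2 j * pf.a) ^ n := by
      intro x hx
      obtain ⟨h1, h2⟩ := hring j hj1 hj2 x hx
      obtain ⟨-, -, -, -, -, -, h3⟩ := pf_in pf x h1
      have h4 : pf.fl x ^ n ≤ (2 * p2 j * pf.a) ^ n := pow_le_pow_left₀ (hfl0 x) h2 n
      have h5 : 4 * 2 ^ n * pf.fl x ^ n ≤ 4 * 2 ^ n * (2 * p2 j * pf.a) ^ n :=
        mul_le_mul_of_nonneg_left h4 (by positivity)
      have h6 : 2 ^ n * (D.f x ^ n + pf.fl x ^ n) * 4 =
          4 * 2 ^ n * D.f x ^ n + 4 * 2 ^ n * pf.fl x ^ n := by ring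
      linarith
    have hI3 : IntegrableOn pf.z (fr R.x₀ j) := by
      refine Integrable.mono' hbI hzm.aestronglyMeasurable ?_
      rw [ae_restrict_iff' hfrm]
      refine Eventually.of_forall fun x hx => ?_
      rw [Real.norm_of_nonneg (hz0 x)]
      exact hzb x hx
    have hzint : ∫ x in fr R.x₀ j, pf.z x ≤ C1 * (R.Dj j + pf.a ^ n) := by
      have h1 : ∫ x in fr R.x₀ j, pf.z x ≤ ∫ x in fr R.x₀ j, (4 * 2 ^ n * D.f x ^ n +
          4 * 2 ^ n * (2 * p2 j * pf.a) ^ n) :=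
        setIntegral_mono_on hI3 hbI hfrm hzb
      rw [integral_add hfI (hIcc _), integral_const_mul, setIntegral_const, smul_eq_mul] at h1
      have h2 : ∫ x in fr R.x₀ j, D.f x ^ n ≤ R.Dj j := by
        unfold RC.Dj
        exact setIntegral_mono_set D.hf.intn.integrableOn
          (Eventually.of_forall fun x => pow_nonneg (hf0 x) n)
          (Filter.Eventually.of_forall (pgn_frbr R.x₀ j))
      have h3 : volume.real (fr R.x₀ j) * (4 * 2 ^ n * (2 * p2 j * pf.a) ^ n) =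
          4 * 2 ^ n * 2 ^ n * pf.a ^ n * (p2 j ^ n * (volume (fr R.x₀ j)).toReal) := by
        rw [Measure.real, mul_pow, mul_pow]
        ring
      rw [h3] at h1
      have h4 : 4 * 2 ^ n * 2 ^ n * pf.a ^ n * (p2 j ^ n * (volume (fr R.x₀ j)).toReal) ≤
          4 * 2 ^ n * 2 ^ n * pf.a ^ n * Cv :=
        mul_le_mul_of_nonneg_left hv1 (by positivity)
      have h5 : 4 * 2 ^ n * (∫ x in fr R.x₀ j, D.f x ^ n) ≤ C1 * R.Dj j := by
        have h6 : 4 * 2 ^ n * (∫ x in fr R.x₀ j, D.f x ^ n) ≤ 4 * 2 ^ n * R.Dj j :=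
          mul_le_mul_of_nonneg_left h2 (by positivity)
        refine h6.trans (mul_le_mul_of_nonneg_right ?_ (hD0 j))
        rw [hC1]
        exact le_mul_of_one_le_right (by positivity)
          (one_le_mul_of_one_le_of_one_le hone hCv1)
      have h6 : 4 * 2 ^ n * 2 ^ n * pf.a ^ n * Cv = C1 * pf.a ^ n := by
        rw [hC1]
        ring
      rw [mul_add]
      linarith
    refine ⟨hI1, hI2, hI3, ?_, ?_, ?_, hD0 j, ?_⟩
    · refine le_trans ?_ hzint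
      refine setIntegral_mono_on hI1 hI3 hfrm fun x hx => ?_
      exact (pf_in pf x (hring j hj1 hj2 x hx).1).2.2.2.2.1
    · exact integral_nonneg fun x => hz0 x
    · refine le_trans ?_ hzint
      unfold Pf.Z
      exact setIntegral_mono_set hI3 (Eventually.of_forall fun x => hz0 x)
        (Filter.Eventually.of_forall (Set.inter_subset_left.trans (pgn_rgfr R.x₀ j)))
    · unfold Pf.Er
      have := R.e_pos
      have := hD0 j
      positivity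
  have hlast : ((β : ℝ) - α + 3) * pf.a ^ n ≤ 3 * Cp * ∑ j ∈ Finset.Icc α β, R.Dj j := by
    have h1 : (α : ℝ) + 2 ≤ β := by exact_mod_cast hαβ
    have h2 := pf.a_pow
    have h3 : ((β : ℝ) - α + 3) * pf.a ^ n ≤ 3 * (((β : ℝ) - α) * pf.a ^ n) := by
      have : ((β : ℝ) - α + 3) * pf.a ^ n ≤ (3 * ((β : ℝ) - α)) * pf.a ^ n :=
        mul_le_mul_of_nonneg_right (by linarith) han
      linarith
    linarith
  have hsub : ∑ j ∈ Finset.Icc α β, R.Dj j ≤ ∑ j ∈ Finset.Icc (α - 1) (β + 1), R.Dj j :=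
    Finset.sum_le_sum_of_subset_of_nonneg
      (Finset.Icc_subset_Icc (Nat.sub_le _ _) (Nat.le_succ _)) fun j _ _ => hD0 j
  have hS0 : 0 ≤ ∑ j ∈ Finset.Icc α β, R.Dj j := Finset.sum_nonneg fun j _ => hD0 j
  have hS1 : 0 ≤ ∑ j ∈ Finset.Icc (α - 1) (β + 1), R.Dj j := Finset.sum_nonneg fun j _ => hD0 j
  refine ⟨?_, ?_, ?_⟩
  · intro j hj1 hj2
    obtain ⟨h1, h2, h3, h4, h5, h6, h7, h8⟩ := hmain j hj1 hj2
    have h9 : C1 * (R.Dj j + pf.a ^ n) ≤ C1 * (1 + 3 * Cp) * (R.Dj j + pf.a ^ n) :=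
      mul_le_mul_of_nonneg_right hC1C (by linarith)
    exact ⟨h1, h2, h3, h4.trans h9, h5, h6.trans h9, h7, h8⟩
  · have h1 : pf.SS ≤ ∑ j ∈ Finset.Icc (α - 1) (β + 1), C1 * (R.Dj j + pf.a ^ n) := by
      unfold Pf.SS
      refine Finset.sum_le_sum fun j hj => ?_
      rw [Finset.mem_Icc] at hj
      exact (hmain j hj.1 hj.2).2.2.2.2.2.1
    rw [← Finset.mul_sum, Finset.sum_add_distrib, Finset.sum_const, nsmul_eq_mul,
      Nat.card_Icc] at h1
    have h2 : ((β + 1 + 1 - (α - 1) : ℕ) : ℝ) = (β : ℝ) - α + 3 := by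
      have h3 : β + 1 + 1 - (α - 1) = β - α + 3 := by omega
      rw [h3]
      push_cast
      rw [Nat.cast_sub (by omega)]
    rw [h2] at h1
    have h4 : ((β : ℝ) - α + 3) * pf.a ^ n ≤
        3 * Cp * ∑ j ∈ Finset.Icc (α - 1) (β + 1), R.Dj j :=
      hlast.trans (mul_le_mul_of_nonneg_left hsub (by linarith))
    calc pf.SS ≤ C1 * (∑ j ∈ Finset.Icc (α - 1) (β + 1), R.Dj j +
          ((β : ℝ) - α + 3) * pf.a ^ n) := h1
      _ ≤ C1 * (∑ j ∈ Finset.Icc (α - 1) (β + 1), R.Dj j +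
          3 * Cp * ∑ j ∈ Finset.Icc (α - 1) (β + 1), R.Dj j) :=
          mul_le_mul_of_nonneg_left (by linarith) (by linarith)
      _ = C1 * (1 + 3 * Cp) * ∑ j ∈ Finset.Icc (α - 1) (β + 1), R.Dj j := by ring
  · refine hlast.trans (mul_le_mul_of_nonneg_right ?_ hS0)
    calc 3 * Cp ≤ 1 * (1 + 3 * Cp) := by linarith
      _ ≤ C1 * (1 + 3 * Cp) := mul_le_mul_of_nonneg_right hC1' (by linarith)

end H60NT
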