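import Pool.Agent.H60.NT.Def3
import Pool.Agent.H60.NT.PfGn
import Pool.Agent.H60.NT.ChiF

/-!
# [H60 NT WINT] Integrability in the window

All functions are measurable (`pf_vg`, `dyn_int`, continuity of `F` and its derivatives, of `lam`, `Lam`, of the cutoffs
and their derivatives) and vanish outside the annulus `1/p2 β ≤ ‖x - x₀‖ ≤ 2/p2 α` (contained in `ball 0 64`); they are
dominated there by `C (f^n + gn g^n + fl^n + 1)` times constants depending on `β` (`‖v‖ ≤ 2 CT` a.e., `|fderiv cw x h| ≤ 3 Lκ p2 β ‖h‖`,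
`‖x-x₀‖⁻¹ ≤ p2 β`).
-/

set_option autoImplicit false

namespace H60NT

open H60NH MeasureTheory Metric Set Filter Topology
open scoped ENNReal NNReal ContDiff

private def wiA {n : ℕ} (x₀ : E n) (α β : ℕ) : Set (E n) := {x | 1 / p2 β ≤ ‖x - x₀‖ ∧ ‖x - x₀‖ ≤ 2 / p2 α}

private theorem wi_le_gn {n m : ℕ} (a : Fin n → E m) (i : Fin n) : ‖a i‖ ≤ gn a := by
  unfold gn
  apply Real.le_sqrt_of_sq_le
  exact Finset.single_le_sum (f := fun i => ‖a i‖ ^ 2) (fun _ _ => by positivity) (Finset.mem_univ i)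

private theorem wi_gn_nonneg {n m : ℕ} (a : Fin n → E m) : 0 ≤ gn a := Real.sqrt_nonneg _

private theorem wi_sum {n m : ℕ} (a b : Fin n → E m) (A B : ℝ) (hA : 0 ≤ A) (ha : ∀ i, ‖a i‖ ≤ A) (hb : ∀ i, ‖b i‖ ≤ B) :
    |∑ i, inner ℝ (a i) (b i)| ≤ n * (A * B) := by
  refine (Finset.abs_sum_le_sum_abs _ _).trans ?_
  refine (Finset.sum_le_sum (g := fun _ => A * B) fun i _ => ?_).trans ?_
  · exact (abs_real_inner_le_norm _ _).trans (mul_le_mul (ha i) (hb i) (norm_nonneg _) hA)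
  · rw [Finset.sum_const, Finset.card_univ, Fintype.card_fin, nsmul_eq_mul]

private theorem wi_sum2 {n m : ℕ} (a : Fin n → E m) (v : E m) (c : Fin n → ℝ) (A B M : ℝ) (hA : 0 ≤ A) (hB : 0 ≤ B)
    (ha : ∀ i, ‖a i‖ ≤ A) (hb : ‖v‖ ≤ B) (hc : ∀ i, |c i| ≤ M) :
    |∑ i, inner ℝ (a i) v * c i| ≤ n * (A * B * M) := by
  refine (Finset.abs_sum_le_sum_abs _ _).trans ?_
  refine (Finset.sum_le_sum (g := fun _ => A * B * M) fun i _ => ?_).trans ?_
  · rw [abs_mul]
    exact mul_le_mul ((abs_real_inner_le_norm _ _).trans (mul_le_mul (ha i) hb (norm_nonneg _) hA)) (hc i) (abs_nonneg _)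
      (mul_nonneg hA hB)
  · rw [Finset.sum_const, Finset.card_univ, Fintype.card_fin, nsmul_eq_mul]

private theorem wi_A_meas {n : ℕ} (x₀ : E n) (α β : ℕ) : MeasurableSet (wiA x₀ α β) := by
  have h : IsClosed (wiA x₀ α β) := by
    unfold wiA
    exact (isClosed_le continuous_const (continuous_id.sub continuous_const).norm).inter
      (isClosed_le (continuous_id.sub continuous_const).norm continuous_const)
  exact h.measurableSet

private theorem wi_A_fin {n : ℕ} (x₀ : E n) (α β : ℕ) : volume (wiA x₀ α β) < ⊤ := by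
  have h : wiA x₀ α β ⊆ closedBall x₀ (2 / p2 α) := by
    intro x hx
    rw [mem_closedBall, dist_eq_norm]
    exact hx.2
  exact lt_of_le_of_lt (measure_mono h) measure_closedBall_lt_top

private theorem wi_dom {n m : ℕ} {P : Par n m} (D : Dyn P) (x₀ : E n) (α β : ℕ) (M : ℝ) (hM : 0 ≤ M) :
    Integrable ((wiA x₀ α β).indicator (fun x => (D.f x + M) ^ n)) := by
  obtain ⟨hf, hf0, _, hfn, _⟩ := dyn_int D
  have h1 : Integrable (fun x => (2 : ℝ) ^ (n - 1) * (D.f x ^ n + (wiA x₀ α β).indicator (fun _ => M ^ n) x)) := by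
    refine (hfn.add ?_).const_mul _
    exact (integrable_indicator_iff (wi_A_meas x₀ α β)).2 (integrableOn_const (wi_A_fin x₀ α β).ne)
  refine h1.mono' (((hf.add_const M).pow_const n).indicator (wi_A_meas x₀ α β)).aestronglyMeasurable
    (Filter.Eventually.of_forall fun x => ?_)
  rw [Real.norm_eq_abs]
  by_cases hx : x ∈ wiA x₀ α β
  · rw [Set.indicator_of_mem hx, Set.indicator_of_mem hx, abs_of_nonneg (pow_nonneg (add_nonneg (hf0 x) hM) n)]
    exact add_pow_le (hf0 x) hM n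
  · rw [Set.indicator_of_notMem hx, Set.indicator_of_notMem hx, abs_zero, add_zero]
    have := pow_nonneg (hf0 x) n
    positivity

private theorem wi_int {n m : ℕ} {P : Par n m} (D : Dyn P) (x₀ : E n) (α β : ℕ) (M K : ℝ) (hM : 0 ≤ M) (H : E n → ℝ)
    (hH : Measurable H) (h0 : ∀ x, x ∉ wiA x₀ α β → H x = 0)
    (hb : ∀ᵐ x, x ∈ wiA x₀ α β → |H x| ≤ K * (D.f x + M) ^ n) : Integrable H := by
  refine ((wi_dom D x₀ α β M hM).const_mul K).mono' hH.aestronglyMeasurable ?_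
  filter_upwards [hb] with x hx
  rw [Real.norm_eq_abs]
  by_cases hxA : x ∈ wiA x₀ α β
  · rw [Set.indicator_of_mem hxA]
    exact hx hxA
  · rw [Set.indicator_of_notMem hxA, h0 x hxA, abs_zero, mul_zero]

private theorem wi_gn_meas {n m : ℕ} (g : E n → Fin n → E m) (h : ∀ i, Measurable (fun x => g x i)) :
    Measurable (fun x => gn (g x)) := by
  unfold gn
  exact (Finset.measurable_sum _ fun i _ => ((h i).norm.pow_const 2)).sqrt

theorem w_int {n m : ℕ} {P : Par n m} {D : Dyn P} {R : RC D} {Cp : ℝ} {α β : ℕ}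
    (pf : Pf R Cp α β) (h : α + 2 ≤ β) (hS : MeasurableSet R.S) :
    Integrable (fun x => pf.cw x * pf.gL x) ∧ Integrable pf.FL ∧ Integrable pf.QL ∧
    Integrable (fun x => pf.cw x * pf.z x) ∧
    IntegrableOn (fun x => ‖x - R.x₀‖⁻¹ *
      ((pf.fl x ^ (n - 2) * gn (pf.g x) + gn (pf.g x) ^ (n - 1)) * ‖pf.v x‖ +
        D.f x ^ (n - 1) * ‖pf.v x‖ ^ 3)) (R.S ∩ (rg R.x₀ α ∪ rg R.x₀ β)) ∧
    Integrable (fun x => pf.cw x * ((gn (pf.g x) ^ n + pf.fl x ^ n) * ‖pf.v x‖ ^ 2)) ∧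
    Integrable (fun x => pf.cw x * (D.f x ^ (n - 2) * ∑ i, inner ℝ (D.G x i) (pf.g x i))) ∧
    Integrable (fun x => pf.cw x * (pf.fl x ^ (n - 2) * ∑ i, inner ℝ (pf.Lam x i) (pf.g x i))) ∧
    Integrable (fun x => D.f x ^ (n - 2) * ∑ i, inner ℝ (D.G x i) (pf.v x) *
      fderiv ℝ pf.cw x (ev i)) ∧
    Integrable (fun x => pf.fl x ^ (n - 2) * ∑ i, inner ℝ (pf.Lam x i) (pf.v x) *
      fderiv ℝ pf.cw x (ev i)) := by
  have hn := P.hn
  have hCG := P.hG.one_le
  have hLκ := P.hκ.one_le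
  have hCT := P.hT.one_le
  have hlt := pf.lt
  have ha0 := pf.a_nonneg
  obtain ⟨hf, hf0, _, _, _⟩ := dyn_int D
  obtain ⟨hVG, hvm, hlamc, hLamc, hflc, hzm, hfl0, hz0, hvb⟩ := pf_vg pf
  have hpβ : 0 < p2 β := by unfold p2; positivity
  have hpβ1 : 1 ≤ p2 β := by unfold p2; exact one_le_pow₀ (by norm_num)
  have hpα : 1 ≤ p2 α := by unfold p2; exact one_le_pow₀ (by norm_num)
  have hpαβ : p2 α ≤ p2 β := by
    unfold p2
    exact pow_le_pow_right₀ (by norm_num) hlt.le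
  obtain ⟨M, hMd⟩ : ∃ M : ℝ, M = 1 + pf.a * p2 β + 2 * P.CT + 2 * P.Lκ * p2 β + p2 β := ⟨_, rfl⟩
  have hLp : 0 ≤ 2 * P.Lκ * p2 β := by positivity
  have hap : 0 ≤ pf.a * p2 β := by positivity
  have hM1 : 1 ≤ M := by rw [hMd]; linarith
  have hM0 : 0 ≤ M := by linarith
  -- the cutoff
  obtain ⟨c1, c2, c3, c4, c5, c6, c7, _⟩ := chi_facts P R.x₀ α
  obtain ⟨d1, d2, d3, d4, d5, d6, d7, _⟩ := chi_facts P R.x₀ β
  have hcwC : ContDiff ℝ ∞ pf.cw := by
    have : ContDiff ℝ ∞ (fun x => P.chi R.x₀ α x - P.chi R.x₀ β x) := c1.sub d1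
    exact this
  have hcwm : Measurable pf.cw := hcwC.continuous.measurable
  have hcwdm : ∀ i, Measurable (fun x => fderiv ℝ pf.cw x (ev i)) := by
    intro i
    exact ((hcwC.continuous_fderiv (by simp)).clm_apply continuous_const).measurable
  have hcw01 : ∀ x, |pf.cw x| ≤ 1 := by
    intro x
    obtain ⟨e1, e2⟩ := (chi_win P R.x₀ α β hlt).1 x
    have e3 : pf.cw x = P.chi R.x₀ α x - P.chi R.x₀ β x := rfl
    rw [e3, abs_of_nonneg e1]
    exact e2
  have hcw0 : ∀ x, x ∉ wiA R.x₀ α β → pf.cw x = 0 := by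
    intro x hx
    by_contra hc
    exact hx ((chi_win P R.x₀ α β hlt).2.1 x hc)
  have hfd : ∀ x h, fderiv ℝ pf.cw x h = fderiv ℝ (P.chi R.x₀ α) x h - fderiv ℝ (P.chi R.x₀ β) x h := by
    intro x h
    have e1 : fderiv ℝ pf.cw x = fderiv ℝ (P.chi R.x₀ α) x - fderiv ℝ (P.chi R.x₀ β) x :=
      (((c1.differentiable (by simp)) x).hasFDerivAt.sub ((d1.differentiable (by simp)) x).hasFDerivAt).fderiv
    rw [e1]
    rfl
  have hrgα : rg R.x₀ α ⊆ wiA R.x₀ α β := by
    intro x hx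
    refine ⟨le_trans ?_ hx.1, hx.2⟩
    exact one_div_le_one_div_of_le (by linarith) hpαβ
  have hrgβ : rg R.x₀ β ⊆ wiA R.x₀ α β := by
    intro x hx
    refine ⟨hx.1, hx.2.trans ?_⟩
    exact div_le_div_of_nonneg_left (by norm_num) (by linarith) hpαβ
  have hcwd0 : ∀ x, x ∉ wiA R.x₀ α β → ∀ i : Fin n, fderiv ℝ pf.cw x (ev i) = 0 := by
    intro x hx i
    rw [hfd, c7 x (fun hc => hx (hrgα hc)), d7 x (fun hc => hx (hrgβ hc))]
    simp
  have hcwdM : ∀ x (i : Fin n), |fderiv ℝ pf.cw x (ev i)| ≤ M := by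
    intro x i
    have hev : ‖(ev i : E n)‖ = 1 := by
      unfold ev
      rw [PiLp.norm_single]
      simp
    have e1 := c6 x (ev i)
    have e2 := d6 x (ev i)
    rw [hev, mul_one] at e1 e2
    rw [hfd]
    refine (abs_sub _ _).trans ?_
    have e3 : P.Lκ * p2 α ≤ P.Lκ * p2 β := mul_le_mul_of_nonneg_left hpαβ (by linarith)
    rw [hMd]
    linarith
  -- bounds in the annulus
  have hin : ∀ x, x ∈ wiA R.x₀ α β → ‖x - R.x₀‖⁻¹ ≤ M ∧ pf.fl x ≤ M ∧ gn (pf.g x) ≤ D.f x + M ∧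
      pf.z x ≤ 2 ^ n * (D.f x ^ n + pf.fl x ^ n) * 4 := by
    intro x hx
    obtain ⟨h1, h2⟩ := hx
    have hr : 0 < ‖x - R.x₀‖ := lt_of_lt_of_le (by positivity) h1
    have hinv : ‖x - R.x₀‖⁻¹ ≤ p2 β := by
      rw [inv_le_comm₀ hr hpβ, ← one_div]
      exact h1
    have hfl : pf.fl x ≤ M := by
      have e3 : 1 / (4 * p2 β) ≤ ‖x - R.x₀‖ := by
        have e4 : 1 / (4 * p2 β) = (1 / p2 β) / 4 := by field_simp
        have e5 : 0 < 1 / p2 β := by positivity
        rw [e4]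
        linarith
      have e4 : ‖x - R.x₀‖ ≤ 8 / p2 α := by
        have e5 : 8 / p2 α = 4 * (2 / p2 α) := by ring
        have e6 : 0 < 2 / p2 α := by positivity
        rw [e5]
        linarith
      rw [(pf_lam pf x e3 e4).1, div_eq_mul_inv]
      have := mul_le_mul_of_nonneg_left hinv ha0
      rw [hMd]
      linarith
    have hx64 : ‖x‖ < 64 := by
      have e1 : ‖x‖ ≤ ‖R.x₀‖ + ‖x - R.x₀‖ := by
        calc ‖x‖ = ‖R.x₀ + (x - R.x₀)‖ := by congr 1; abel
          _ ≤ _ := norm_add_le _ _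
      have e2 : 2 / p2 α ≤ 2 := by
        rw [div_le_iff₀ (by linarith)]
        linarith
      have := R.hx
      linarith
    obtain ⟨_, _, e1, _, _, _, e2⟩ := pf_in pf x hx64
    refine ⟨?_, hfl, by linarith, e2⟩
    rw [hMd]
    linarith
  have hv2 : ∀ᵐ x, ‖pf.v x‖ ≤ M := by
    filter_upwards [hvb] with x hx
    rw [hMd]
    linarith
  have hw1 : ∀ x, 1 ≤ D.f x + M := fun x => by linarith [hf0 x]
  have hwn : ∀ x, (D.f x + M) ^ (n - 2) * ((D.f x + M) * (D.f x + M)) = (D.f x + M) ^ n := by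
    intro x
    rw [← pow_two, ← pow_add]
    congr 1
    omega
  have hwn1 : ∀ x, (D.f x + M) ^ (n - 1) ≤ (D.f x + M) ^ n := fun x => pow_le_pow_right₀ (hw1 x) (by omega)
  have hGf : ∀ x i, ‖D.G x i‖ ≤ D.f x + M := fun x i => by
    have : ‖D.G x i‖ ≤ D.f x := wi_le_gn _ i
    linarith
  have hfp : ∀ x, D.f x ^ (n - 2) ≤ (D.f x + M) ^ (n - 2) := fun x => pow_le_pow_left₀ (hf0 x) (by linarith) _
  have hflp : ∀ x, x ∈ wiA R.x₀ α β → pf.fl x ^ (n - 2) ≤ (D.f x + M) ^ (n - 2) := fun x hx =>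
    pow_le_pow_left₀ (hfl0 x) (by linarith [(hin x hx).2.1, hf0 x]) _
  have hwpos : ∀ x k, 0 ≤ (D.f x + M) ^ k := fun x k => pow_nonneg (by linarith [hw1 x]) k
  -- measurability
  have hΦ := P.hG.smooth
  have hcy : Continuous (fun t : (E m × E m) × E m => fderiv ℝ (P.F t.1.1) t.1.2 t.2) := by
    have e1 : (fun t : (E m × E m) × E m => fderiv ℝ (P.F t.1.1) t.1.2 t.2) =
        fun t => fderiv ℝ (fun p : E m × E m => P.F p.1 p.2) t.1 (0, t.2) := by
      funext t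
      have e2 : HasFDerivAt (fun y => P.F t.1.1 y)
          ((fderiv ℝ (fun p : E m × E m => P.F p.1 p.2) t.1).comp (ContinuousLinearMap.inr ℝ (E m) (E m))) t.1.2 := by
        have e3 : HasFDerivAt (fun p : E m × E m => P.F p.1 p.2)
            (fderiv ℝ (fun p : E m × E m => P.F p.1 p.2) t.1) (t.1.1, t.1.2) :=
          ((hΦ.differentiable (by simp)) t.1).hasFDerivAt
        exact e3.comp t.1.2 (hasFDerivAt_prodMk_right t.1.1 t.1.2)
      have e4 : fderiv ℝ (P.F t.1.1) t.1.2 =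
          (fderiv ℝ (fun p : E m × E m => P.F p.1 p.2) t.1).comp (ContinuousLinearMap.inr ℝ (E m) (E m)) := e2.fderiv
      rw [e4]
      simp
    rw [e1]
    exact ((hΦ.continuous_fderiv (by simp)).comp continuous_fst).clm_apply (by fun_prop)
  have hcq : Continuous (fun t : (E m × E m) × E m => fderiv ℝ (fun p => P.F p t.1.2) t.1.1 t.2) := by
    have e1 : (fun t : (E m × E m) × E m => fderiv ℝ (fun p => P.F p t.1.2) t.1.1 t.2) =
        fun t => fderiv ℝ (fun p : E m × E m => P.F p.1 p.2) t.1 (t.2, 0) := by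
      funext t
      have e2 : HasFDerivAt (fun p => P.F p t.1.2)
          ((fderiv ℝ (fun p : E m × E m => P.F p.1 p.2) t.1).comp (ContinuousLinearMap.inl ℝ (E m) (E m))) t.1.1 := by
        have e3 : HasFDerivAt (fun p : E m × E m => P.F p.1 p.2)
            (fderiv ℝ (fun p : E m × E m => P.F p.1 p.2) t.1) (t.1.1, t.1.2) :=
          ((hΦ.differentiable (by simp)) t.1).hasFDerivAt
        exact HasFDerivAt.comp (f := fun e : E m => (e, t.1.2)) t.1.1 e3 (hasFDerivAt_prodMk_left t.1.1 t.1.2)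
      rw [e2.fderiv]
      simp
    rw [e1]
    exact ((hΦ.continuous_fderiv (by simp)).comp continuous_fst).clm_apply (by fun_prop)
  have hGm := D.hS.meas_G
  have hum := D.hS.meas_u
  have hgm := hVG.meas_g
  have hgnm : Measurable (fun x => gn (pf.g x)) := wi_gn_meas _ hgm
  have hflm : Measurable pf.fl := hflc.measurable
  have hLm : ∀ i, Measurable (fun x => pf.Lam x i) := fun i => (hLamc i).measurable
  have hgLm : Measurable pf.gL := by
    unfold Pf.gL
    refine (hf.pow_const _).mul (Finset.measurable_sum _ fun i _ => ?_)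
    exact (hGm i).inner (hcy.measurable.comp ((hlamc.measurable.prodMk hum).prodMk (hGm i)))
  have hFLm : Measurable pf.FL := by
    unfold Pf.FL
    refine (hf.pow_const _).mul (Finset.measurable_sum _ fun i _ => ?_)
    exact ((hGm i).inner (hΦ.continuous.measurable.comp (hlamc.measurable.prodMk hum))).mul (hcwdm i)
  have hQLm : Measurable pf.QL := by
    unfold Pf.QL
    refine hcwm.mul ((hf.pow_const _).mul (Finset.measurable_sum _ fun i _ => ?_))
    exact (hGm i).inner (hcq.measurable.comp ((hlamc.measurable.prodMk hum).prodMk (hLm i)))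
  refine ⟨?_, ?_, ?_, ?_, ?_, ?_, ?_, ?_, ?_, ?_⟩
  · -- 1
    refine wi_int D R.x₀ α β M (n * P.CG) hM0 _ (hcwm.mul hgLm) (fun x hx => by rw [hcw0 x hx, zero_mul])
      (Filter.Eventually.of_forall fun x hx => ?_)
    rw [abs_mul]
    unfold Pf.gL
    rw [abs_mul, abs_of_nonneg (pow_nonneg (hf0 x) _)]
    have e1 := wi_sum (fun i => D.G x i) (fun i => fderiv ℝ (P.F (pf.lam x)) (D.u x) (D.G x i)) (D.f x + M)
      (P.CG * (D.f x + M)) (by linarith [hw1 x]) (hGf x) (fun i =>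
        (ContinuousLinearMap.le_opNorm _ _).trans (mul_le_mul (P.hG.bdy _ _) (hGf x i) (norm_nonneg _) (by linarith)))
    calc |pf.cw x| * (D.f x ^ (n - 2) * _) ≤ 1 * ((D.f x + M) ^ (n - 2) * (n * ((D.f x + M) * (P.CG * (D.f x + M))))) := by
          apply mul_le_mul (hcw01 x) _ (mul_nonneg (pow_nonneg (hf0 x) _) (abs_nonneg _)) zero_le_one
          exact mul_le_mul (hfp x) e1 (abs_nonneg _) (hwpos x _)
      _ = n * P.CG * ((D.f x + M) ^ (n - 2) * ((D.f x + M) * (D.f x + M))) := by ring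
      _ = n * P.CG * (D.f x + M) ^ n := by rw [hwn]
  · -- 2
    refine wi_int D R.x₀ α β M n hM0 _ hFLm (fun x hx => by
      unfold Pf.FL
      rw [Finset.sum_eq_zero (fun i _ => by rw [hcwd0 x hx i, mul_zero]), mul_zero])
      (Filter.Eventually.of_forall fun x hx => ?_)
    unfold Pf.FL
    rw [abs_mul, abs_of_nonneg (pow_nonneg (hf0 x) _)]
    have e1 := wi_sum2 (fun i => D.G x i) (P.F (pf.lam x) (D.u x)) (fun i => fderiv ℝ pf.cw x (ev i)) (D.f x + M) 1 M
      (by linarith [hw1 x]) zero_le_one (hGf x) (P.hG.bd _ _) (hcwdM x)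
    calc D.f x ^ (n - 2) * _ ≤ (D.f x + M) ^ (n - 2) * (n * ((D.f x + M) * 1 * M)) :=
          mul_le_mul (hfp x) e1 (abs_nonneg _) (hwpos x _)
      _ ≤ (D.f x + M) ^ (n - 2) * (n * ((D.f x + M) * 1 * (D.f x + M))) := by
          apply mul_le_mul_of_nonneg_left _ (hwpos x _)
          apply mul_le_mul_of_nonneg_left _ (Nat.cast_nonneg n)
          apply mul_le_mul_of_nonneg_left _ (by linarith [hw1 x])
          linarith [hf0 x]
      _ = n * ((D.f x + M) ^ (n - 2) * ((D.f x + M) * (D.f x + M))) := by ring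
      _ = n * (D.f x + M) ^ n := by rw [hwn]
  · -- 3
    refine wi_int D R.x₀ α β M (n * P.CG) hM0 _ hQLm (fun x hx => by
      unfold Pf.QL
      rw [hcw0 x hx, zero_mul]) (Filter.Eventually.of_forall fun x hx => ?_)
    unfold Pf.QL
    rw [abs_mul, abs_mul, abs_of_nonneg (pow_nonneg (hf0 x) _)]
    have e1 := wi_sum (fun i => D.G x i) (fun i => fderiv ℝ (fun p => P.F p (D.u x)) (pf.lam x) (pf.Lam x i)) (D.f x + M)
      (P.CG * (D.f x + M)) (by linarith [hw1 x]) (hGf x) (fun i =>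
        (ContinuousLinearMap.le_opNorm _ _).trans (mul_le_mul (P.hG.bdq _ _) (by
          have e2 : ‖pf.Lam x i‖ ≤ pf.fl x := wi_le_gn _ i
          linarith [(hin x hx).2.1, hf0 x]) (norm_nonneg _) (by linarith)))
    calc |pf.cw x| * (D.f x ^ (n - 2) * _) ≤ 1 * ((D.f x + M) ^ (n - 2) * (n * ((D.f x + M) * (P.CG * (D.f x + M))))) := by
          apply mul_le_mul (hcw01 x) _ (mul_nonneg (pow_nonneg (hf0 x) _) (abs_nonneg _)) zero_le_one
          exact mul_le_mul (hfp x) e1 (abs_nonneg _) (hwpos x _)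
      _ = n * P.CG * ((D.f x + M) ^ (n - 2) * ((D.f x + M) * (D.f x + M))) := by ring
      _ = n * P.CG * (D.f x + M) ^ n := by rw [hwn]
  · -- 4
    refine wi_int D R.x₀ α β M (8 * 2 ^ n) hM0 _ (hcwm.mul hzm) (fun x hx => by rw [hcw0 x hx, zero_mul])
      (Filter.Eventually.of_forall fun x hx => ?_)
    obtain ⟨_, e2, _, e4⟩ := hin x hx
    rw [abs_mul, abs_of_nonneg (hz0 x)]
    have e5 : D.f x ^ n ≤ (D.f x + M) ^ n := pow_le_pow_left₀ (hf0 x) (by linarith) n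
    have e6 : pf.fl x ^ n ≤ (D.f x + M) ^ n := pow_le_pow_left₀ (hfl0 x) (by linarith [hf0 x]) n
    calc |pf.cw x| * pf.z x ≤ 1 * (2 ^ n * (D.f x ^ n + pf.fl x ^ n) * 4) :=
          mul_le_mul (hcw01 x) e4 (hz0 x) zero_le_one
      _ ≤ 1 * (2 ^ n * ((D.f x + M) ^ n + (D.f x + M) ^ n) * 4) := by gcongr
      _ = 8 * 2 ^ n * (D.f x + M) ^ n := by ring
  · -- 5
    have hB : MeasurableSet (R.S ∩ (rg R.x₀ α ∪ rg R.x₀ β)) :=
      hS.inter ((rg_meas R.x₀ α).1.union (rg_meas R.x₀ β).1)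
    rw [← integrable_indicator_iff hB]
    have hsub : R.S ∩ (rg R.x₀ α ∪ rg R.x₀ β) ⊆ wiA R.x₀ α β := fun x hx => hx.2.elim (fun h => hrgα h) (fun h => hrgβ h)
    refine wi_int D R.x₀ α β M (3 * M ^ 4) hM0 _ (Measurable.indicator ?_ hB) (fun x hx => ?_) ?_
    · refine Measurable.mul ?_ (Measurable.add ?_ ?_)
      · exact (by fun_prop : Measurable (fun x : E n => ‖x - R.x₀‖)).inv
      · exact (((hflm.pow_const _).mul hgnm).add (hgnm.pow_const _)).mul hvm.norm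
      · exact (hf.pow_const _).mul (hvm.norm.pow_const 3)
    · rw [Set.indicator_of_notMem (fun hc => hx (hsub hc))]
    · filter_upwards [hv2] with x hv hx
      obtain ⟨e1, e2, e3, _⟩ := hin x hx
      refine (norm_indicator_le_norm_self (fun x => ‖x - R.x₀‖⁻¹ *
        ((pf.fl x ^ (n - 2) * gn (pf.g x) + gn (pf.g x) ^ (n - 1)) * ‖pf.v x‖ +
        D.f x ^ (n - 1) * ‖pf.v x‖ ^ 3)) x).trans ?_
      have g0 : 0 ≤ gn (pf.g x) := wi_gn_nonneg _
      have hfl0' := hfl0 x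
      have hf0' := hf0 x
      have hb0 : 0 ≤ ‖x - R.x₀‖⁻¹ * ((pf.fl x ^ (n - 2) * gn (pf.g x) + gn (pf.g x) ^ (n - 1)) * ‖pf.v x‖ +
        D.f x ^ (n - 1) * ‖pf.v x‖ ^ 3) := by positivity
      rw [Real.norm_eq_abs, abs_of_nonneg hb0]
      have t1 : pf.fl x ^ (n - 2) * gn (pf.g x) ≤ (D.f x + M) ^ (n - 1) := by
        have e5 : (D.f x + M) ^ (n - 1) = (D.f x + M) ^ (n - 2) * (D.f x + M) := by
          rw [← pow_succ]
          congr 1
          omega
        rw [e5]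
        exact mul_le_mul (hflp x hx) e3 g0 (hwpos x _)
      have t2 : gn (pf.g x) ^ (n - 1) ≤ (D.f x + M) ^ (n - 1) := pow_le_pow_left₀ g0 e3 _
      have t3 : D.f x ^ (n - 1) ≤ (D.f x + M) ^ (n - 1) := pow_le_pow_left₀ hf0' (by linarith) _
      have hMM : M ^ 2 ≤ M ^ 4 := pow_le_pow_right₀ hM1 (by norm_num)
      have hw0 := hwpos x (n - 1)
      calc ‖x - R.x₀‖⁻¹ * ((pf.fl x ^ (n - 2) * gn (pf.g x) + gn (pf.g x) ^ (n - 1)) * ‖pf.v x‖ +
            D.f x ^ (n - 1) * ‖pf.v x‖ ^ 3)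
          ≤ M * (((D.f x + M) ^ (n - 1) + (D.f x + M) ^ (n - 1)) * M + (D.f x + M) ^ (n - 1) * M ^ 3) := by
            gcongr
        _ = (2 * M ^ 2 + M ^ 4) * (D.f x + M) ^ (n - 1) := by ring
        _ ≤ (3 * M ^ 4) * (D.f x + M) ^ n := by
            apply mul_le_mul _ (hwn1 x) hw0 (by positivity)
            linarith
  · -- 6
    refine wi_int D R.x₀ α β M (2 * M ^ 2) hM0 _ (hcwm.mul (((hgnm.pow_const n).add (hflm.pow_const n)).mul
      (hvm.norm.pow_const 2))) (fun x hx => by rw [hcw0 x hx, zero_mul]) ?_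
    filter_upwards [hv2] with x hv hx
    obtain ⟨e1, e2, e3, _⟩ := hin x hx
    have g0 : 0 ≤ gn (pf.g x) := wi_gn_nonneg _
    have hfl0' := hfl0 x
    have hf0' := hf0 x
    have t1 : gn (pf.g x) ^ n ≤ (D.f x + M) ^ n := pow_le_pow_left₀ g0 e3 n
    have t2 : pf.fl x ^ n ≤ (D.f x + M) ^ n := pow_le_pow_left₀ hfl0' (by linarith) n
    have hw0 := hwpos x n
    have hb0 : 0 ≤ (gn (pf.g x) ^ n + pf.fl x ^ n) * ‖pf.v x‖ ^ 2 := by positivity
    rw [abs_mul, abs_of_nonneg hb0]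
    calc |pf.cw x| * ((gn (pf.g x) ^ n + pf.fl x ^ n) * ‖pf.v x‖ ^ 2)
        ≤ 1 * (((D.f x + M) ^ n + (D.f x + M) ^ n) * M ^ 2) := by
          apply mul_le_mul (hcw01 x) _ hb0 zero_le_one
          gcongr
      _ = 2 * M ^ 2 * (D.f x + M) ^ n := by ring
  · -- 7
    refine wi_int D R.x₀ α β M n hM0 _ (hcwm.mul ((hf.pow_const _).mul (Finset.measurable_sum _ fun i _ =>
      (hGm i).inner (hgm i)))) (fun x hx => by rw [hcw0 x hx, zero_mul]) (Filter.Eventually.of_forall fun x hx => ?_)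
    obtain ⟨e1, e2, e3, _⟩ := hin x hx
    rw [abs_mul, abs_mul, abs_of_nonneg (pow_nonneg (hf0 x) _)]
    have e4 := wi_sum (fun i => D.G x i) (fun i => pf.g x i) (D.f x + M) (D.f x + M) (by linarith [hw1 x]) (hGf x)
      (fun i => (wi_le_gn (pf.g x) i).trans e3)
    calc |pf.cw x| * (D.f x ^ (n - 2) * _) ≤ 1 * ((D.f x + M) ^ (n - 2) * (n * ((D.f x + M) * (D.f x + M)))) := by
          apply mul_le_mul (hcw01 x) _ (mul_nonneg (pow_nonneg (hf0 x) _) (abs_nonneg _)) zero_le_one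
          exact mul_le_mul (hfp x) e4 (abs_nonneg _) (hwpos x _)
      _ = n * ((D.f x + M) ^ (n - 2) * ((D.f x + M) * (D.f x + M))) := by ring
      _ = n * (D.f x + M) ^ n := by rw [hwn]
  · -- 8
    refine wi_int D R.x₀ α β M n hM0 _ (hcwm.mul ((hflm.pow_const _).mul (Finset.measurable_sum _ fun i _ =>
      (hLm i).inner (hgm i)))) (fun x hx => by rw [hcw0 x hx, zero_mul]) (Filter.Eventually.of_forall fun x hx => ?_)
    obtain ⟨e1, e2, e3, _⟩ := hin x hx
    rw [abs_mul, abs_mul, abs_of_nonneg (pow_nonneg (hfl0 x) _)]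
    have e4 := wi_sum (fun i => pf.Lam x i) (fun i => pf.g x i) (D.f x + M) (D.f x + M) (by linarith [hw1 x])
      (fun i => by
        have e5 : ‖pf.Lam x i‖ ≤ pf.fl x := wi_le_gn _ i
        linarith [hf0 x])
      (fun i => (wi_le_gn (pf.g x) i).trans e3)
    calc |pf.cw x| * (pf.fl x ^ (n - 2) * _) ≤ 1 * ((D.f x + M) ^ (n - 2) * (n * ((D.f x + M) * (D.f x + M)))) := by
          apply mul_le_mul (hcw01 x) _ (mul_nonneg (pow_nonneg (hfl0 x) _) (abs_nonneg _)) zero_le_one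
          exact mul_le_mul (hflp x hx) e4 (abs_nonneg _) (hwpos x _)
      _ = n * ((D.f x + M) ^ (n - 2) * ((D.f x + M) * (D.f x + M))) := by ring
      _ = n * (D.f x + M) ^ n := by rw [hwn]
  · -- 9
    refine wi_int D R.x₀ α β M (n * M) hM0 _ ((hf.pow_const _).mul (Finset.measurable_sum _ fun i _ =>
      ((hGm i).inner hvm).mul (hcwdm i))) (fun x hx => by
        rw [Finset.sum_eq_zero (fun i _ => by rw [hcwd0 x hx i, mul_zero]), mul_zero]) ?_
    filter_upwards [hv2] with x hv hx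
    rw [abs_mul, abs_of_nonneg (pow_nonneg (hf0 x) _)]
    have e1 := wi_sum2 (fun i => D.G x i) (pf.v x) (fun i => fderiv ℝ pf.cw x (ev i)) (D.f x + M) M M
      (by linarith [hw1 x]) hM0 (hGf x) hv (hcwdM x)
    calc D.f x ^ (n - 2) * _ ≤ (D.f x + M) ^ (n - 2) * (n * ((D.f x + M) * M * M)) :=
          mul_le_mul (hfp x) e1 (abs_nonneg _) (hwpos x _)
      _ ≤ (D.f x + M) ^ (n - 2) * (n * ((D.f x + M) * M * (D.f x + M))) := by
          apply mul_le_mul_of_nonneg_left _ (hwpos x _)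
          apply mul_le_mul_of_nonneg_left _ (Nat.cast_nonneg n)
          apply mul_le_mul_of_nonneg_left _ (mul_nonneg (by linarith [hw1 x]) hM0)
          linarith [hf0 x]
      _ = n * M * ((D.f x + M) ^ (n - 2) * ((D.f x + M) * (D.f x + M))) := by ring
      _ = n * M * (D.f x + M) ^ n := by rw [hwn]
  · -- 10
    refine wi_int D R.x₀ α β M (n * M) hM0 _ ((hflm.pow_const _).mul (Finset.measurable_sum _ fun i _ =>
      ((hLm i).inner hvm).mul (hcwdm i))) (fun x hx => by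
        rw [Finset.sum_eq_zero (fun i _ => by rw [hcwd0 x hx i, mul_zero]), mul_zero]) ?_
    filter_upwards [hv2] with x hv hx
    obtain ⟨e1, e2, e3, _⟩ := hin x hx
    rw [abs_mul, abs_of_nonneg (pow_nonneg (hfl0 x) _)]
    have e4 := wi_sum2 (fun i => pf.Lam x i) (pf.v x) (fun i => fderiv ℝ pf.cw x (ev i)) (D.f x + M) M M
      (by linarith [hw1 x]) hM0 (fun i => by
        have e5 : ‖pf.Lam x i‖ ≤ pf.fl x := wi_le_gn _ i
        linarith [hf0 x]) hv (hcwdM x)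
    calc pf.fl x ^ (n - 2) * _ ≤ (D.f x + M) ^ (n - 2) * (n * ((D.f x + M) * M * M)) :=
          mul_le_mul (hflp x hx) e4 (abs_nonneg _) (hwpos x _)
      _ ≤ (D.f x + M) ^ (n - 2) * (n * ((D.f x + M) * M * (D.f x + M))) := by
          apply mul_le_mul_of_nonneg_left _ (hwpos x _)
          apply mul_le_mul_of_nonneg_left _ (Nat.cast_nonneg n)
          apply mul_le_mul_of_nonneg_left _ (mul_nonneg (by linarith [hw1 x]) hM0)
          linarith [hf0 x]
      _ = n * M * ((D.f x + M) ^ (n - 2) * ((D.f x + M) * (D.f x + M))) := by ring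
      _ = n * M * (D.f x + M) ^ n := by rw [hwn]

end H60NT
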