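import Pool.Agent.H60.NT.PfF
import Pool.Agent.H60.NT.WInt
import Pool.Agent.H60.NT.PfB

/-!
# [H60 NT WBDY] The boundary term

`j = α` or `β`; on `rg j`: `‖x-x₀‖⁻¹ ≤ p2 j`, `fl ≤ a p2 j`. `I(h) = p2 j^n ∫_{rg ∩ S} h`, `G = Gg j`.
First part: `p2 j (a p2 j)^(n-2) ∫ gn g ‖v‖ ≤ a^(n-2) (p2 j^(n-2) ∫_{rg ∩ S} gn g²)^(1/2) (I(‖v‖²))^(1/2) ≤ C a^(n-2) G (G + a (1/2)^T) ≤ C (Z_j^+ + E_j)`
(`pf_f`, `pf_c`; `a^n (1/2)^(2T) ≤ a^n e^(Q+4)`). Second part: Hölder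
`p2 j ∫ gn g^(n-1) ‖v‖ ≤ (∫_{rg∩S} gn g^n)^((n-1)/n) (I(‖v‖^n))^(1/n) ≤ Z_j^((n-1)/n) (C (Z_j^+ + E_j))^(1/n) ≤ C (Z_j^+ + E_j)`.
Third part: `f^(n-1) ≤ 2^n (gn g^(n-1) + fl^(n-1))` (`pf_in`, `young1`), `‖v‖ ≤ C(t₀+√e) ≤ 1` a.e. (`pf_d`): `gn g^(n-1) ‖v‖³ ≤ gn g^(n-1) ‖v‖`, and
`p2 j ∫ fl^(n-1) ‖v‖² ≤ a^(n-1) I(‖v‖²) ≤ C a^(n-1) (G² + (a (1/2)^T)²) ≤ C (Z_j^+ + E_j)` (`a ≤ 1`).
-/

set_option autoImplicit false

namespace H60NT

open H60NH MeasureTheory Metric Set Filter Topology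
open scoped ENNReal NNReal ContDiff

/-- The integrand of the boundary term. -/
noncomputable def wBdyH {n m : ℕ} {P : Par n m} {D : Dyn P} {R : RC D} {Cp : ℝ} {α β : ℕ}
    (pf : Pf R Cp α β) (x : E n) : ℝ :=
  ‖x - R.x₀‖⁻¹ * ((pf.fl x ^ (n - 2) * gn (pf.g x) + gn (pf.g x) ^ (n - 1)) * ‖pf.v x‖ +
    D.f x ^ (n - 1) * ‖pf.v x‖ ^ 3)

/-- The pointwise inequality. -/
lemma wBdy_pt (n : ℕ) (hn : 3 ≤ n) (r p a G f fl v : ℝ) (hr : 0 < r) (hrp : 1 / p ≤ r)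
    (hp : 0 < p) (ha : 0 ≤ a) (ha1 : a ≤ 1) (hG : 0 ≤ G) (hf : 0 ≤ f) (hfl : fl = a / r)
    (hfG : f ≤ G + fl) (hv : 0 ≤ v) (hv1 : v ≤ 1) :
    r⁻¹ * ((fl ^ (n - 2) * G + G ^ (n - 1)) * v + f ^ (n - 1) * v ^ 3) ≤
      a ^ (n - 2) * (p ^ (n - 2) * G ^ 2) + (1 + 2 ^ n) * G ^ n +
        ((1 + 2 ^ n) * (p ^ n * v ^ n) + (1 + 2 ^ n) * (a ^ (n - 2) * (p ^ n * v ^ 2))) := by
  obtain ⟨k, rfl⟩ : ∃ k, n = k + 2 := ⟨n - 2, by omega⟩
  have e1 : k + 2 - 2 = k := by omega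
  have e2 : k + 2 - 1 = k + 1 := by omega
  rw [e1, e2]
  have hri : r⁻¹ ≤ p := by
    rw [inv_le_comm₀ hr hp]
    rw [one_div] at hrp
    exact hrp
  have hri0 : 0 ≤ r⁻¹ := by positivity
  have hfl0 : 0 ≤ fl := by rw [hfl]; positivity
  have hflp : fl ≤ a * p := by
    rw [hfl, div_eq_mul_inv]
    exact mul_le_mul_of_nonneg_left hri ha
  have hapk : 0 ≤ a ^ k := by positivity
  have hpk : 0 ≤ p ^ k := by positivity
  have hT1 : r⁻¹ * (fl ^ k * G * v) ≤ a ^ k * (p ^ k * G ^ 2) + a ^ k * (p ^ (k + 2) * v ^ 2) := by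
    have g1 : fl ^ k ≤ a ^ k * p ^ k := by
      rw [← mul_pow]
      exact pow_le_pow_left₀ hfl0 hflp k
    have g2 : r⁻¹ * (fl ^ k * G * v) ≤ p * (a ^ k * p ^ k * G * v) := by
      apply mul_le_mul hri _ (by positivity) hp.le
      apply mul_le_mul_of_nonneg_right _ hv
      exact mul_le_mul_of_nonneg_right g1 hG
    refine g2.trans ?_
    have g3 : 0 ≤ a ^ k * p ^ k * (G - p * v) ^ 2 := by positivity
    have g4 : 0 ≤ a ^ k * p ^ k * G * (p * v) := by positivity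
    have g5 : a ^ k * (p ^ (k + 2) * v ^ 2) = a ^ k * p ^ k * (p * v) ^ 2 := by ring
    rw [g5]
    nlinarith
  have hT2 : r⁻¹ * (G ^ (k + 1) * v) ≤ G ^ (k + 2) + p ^ (k + 2) * v ^ (k + 2) := by
    have g1 := (young1 (k + 2) (by omega) G (p * v) hG (by positivity)).1
    rw [e2, mul_pow] at g1
    refine le_trans ?_ g1
    calc r⁻¹ * (G ^ (k + 1) * v) ≤ p * (G ^ (k + 1) * v) :=
          mul_le_mul_of_nonneg_right hri (by positivity)
      _ = G ^ (k + 1) * (p * v) := by ring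
  have hT3 : r⁻¹ * (f ^ (k + 1) * v ^ 3) ≤ 2 ^ (k + 2) * (G ^ (k + 2) + p ^ (k + 2) * v ^ (k + 2)) +
      2 ^ (k + 2) * (a ^ k * (p ^ (k + 2) * v ^ 2)) := by
    have g1 : f ^ (k + 1) ≤ 2 ^ (k + 2) * (G ^ (k + 1) + fl ^ (k + 1)) := by
      have := (young1 (k + 2) (by omega) G fl hG hfl0).2.2.2.2.2
      rw [e2] at this
      exact (pow_le_pow_left₀ hf hfG (k + 1)).trans this
    have hv3 : v ^ 3 ≤ v := by
      calc v ^ 3 ≤ v ^ 1 := pow_le_pow_of_le_one hv hv1 (by norm_num)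
        _ = v := pow_one v
    have hv32 : v ^ 3 ≤ v ^ 2 := pow_le_pow_of_le_one hv hv1 (by norm_num)
    have g2 : r⁻¹ * (f ^ (k + 1) * v ^ 3) ≤
        2 ^ (k + 2) * (r⁻¹ * (G ^ (k + 1) * v)) + 2 ^ (k + 2) * (r⁻¹ * (fl ^ (k + 1) * v ^ 2)) := by
      calc r⁻¹ * (f ^ (k + 1) * v ^ 3) ≤
            r⁻¹ * ((2 ^ (k + 2) * (G ^ (k + 1) + fl ^ (k + 1))) * v ^ 3) := by
              apply mul_le_mul_of_nonneg_left _ hri0
              exact mul_le_mul_of_nonneg_right g1 (by positivity)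
        _ = 2 ^ (k + 2) * (r⁻¹ * (G ^ (k + 1) * v ^ 3)) +
            2 ^ (k + 2) * (r⁻¹ * (fl ^ (k + 1) * v ^ 3)) := by ring
        _ ≤ _ := by
            apply add_le_add
            · apply mul_le_mul_of_nonneg_left _ (by positivity)
              apply mul_le_mul_of_nonneg_left _ hri0
              exact mul_le_mul_of_nonneg_left hv3 (by positivity)
            · apply mul_le_mul_of_nonneg_left _ (by positivity)
              apply mul_le_mul_of_nonneg_left _ hri0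
              exact mul_le_mul_of_nonneg_left hv32 (by positivity)
    have g3 : r⁻¹ * (fl ^ (k + 1) * v ^ 2) ≤ a ^ k * (p ^ (k + 2) * v ^ 2) := by
      have g4 : fl ^ (k + 1) ≤ (a * p) ^ (k + 1) := pow_le_pow_left₀ hfl0 hflp _
      calc r⁻¹ * (fl ^ (k + 1) * v ^ 2) ≤ p * ((a * p) ^ (k + 1) * v ^ 2) := by
            apply mul_le_mul hri _ (by positivity) hp.le
            exact mul_le_mul_of_nonneg_right g4 (by positivity)
        _ = a * (a ^ k * (p ^ (k + 2) * v ^ 2)) := by ring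
        _ ≤ 1 * (a ^ k * (p ^ (k + 2) * v ^ 2)) :=
            mul_le_mul_of_nonneg_right ha1 (by positivity)
        _ = a ^ k * (p ^ (k + 2) * v ^ 2) := one_mul _
    have h2 : (0 : ℝ) ≤ 2 ^ (k + 2) := by positivity
    refine g2.trans (add_le_add ?_ ?_)
    · exact mul_le_mul_of_nonneg_left hT2 h2
    · exact mul_le_mul_of_nonneg_left g3 h2
  have e : r⁻¹ * ((fl ^ k * G + G ^ (k + 1)) * v + f ^ (k + 1) * v ^ 3) =
      r⁻¹ * (fl ^ k * G * v) + r⁻¹ * (G ^ (k + 1) * v) + r⁻¹ * (f ^ (k + 1) * v ^ 3) := by ring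
  rw [e]
  linarith

lemma wBdy_int4 {X : Type*} [MeasurableSpace X] (μ : Measure X) (f1 f2 f3 f4 : X → ℝ)
    (h1 : Integrable f1 μ) (h2 : Integrable f2 μ) (h3 : Integrable f3 μ) (h4 : Integrable f4 μ)
    (a b c d e u v : ℝ) :
    ∫ x, (a * (b * f1 x) + c * f2 x + (c * (d * f3 x) + e * (u * (v * f4 x)))) ∂μ =
      a * (b * ∫ x, f1 x ∂μ) + c * (∫ x, f2 x ∂μ) + (c * (d * ∫ x, f3 x ∂μ) +
        e * (u * (v * ∫ x, f4 x ∂μ))) := by
  have i1 : Integrable (fun x => a * (b * f1 x)) μ := (h1.const_mul b).const_mul a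
  have i2 : Integrable (fun x => c * f2 x) μ := h2.const_mul c
  have i3 : Integrable (fun x => c * (d * f3 x)) μ := (h3.const_mul d).const_mul c
  have i4 : Integrable (fun x => e * (u * (v * f4 x))) μ :=
    ((h4.const_mul v).const_mul u).const_mul e
  have i12 : Integrable (fun x => a * (b * f1 x) + c * f2 x) μ := i1.add i2
  have i34 : Integrable (fun x => c * (d * f3 x) + e * (u * (v * f4 x))) μ := i3.add i4
  rw [integral_add i12 i34, integral_add i1 i2, integral_add i3 i4]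
  simp only [integral_const_mul]

theorem w_bdy {n m : ℕ} (P : Par n m) (Cp : ℝ) (hCp : 1 ≤ Cp) : Uni P (fun C _ R =>
    ∀ (α β : ℕ) (pf : Pf R Cp α β), α + 2 ≤ β →
      pf.Bdy ≤ C * (pf.Zp α + pf.Zp β + pf.Er α + pf.Er β)) := by
  have hn := P.hn
  obtain ⟨C₁, t₁, hC₁, ht₁, H₁⟩ := pf_d P Cp hCp
  obtain ⟨C₂, t₂, hC₂, ht₂, H₂⟩ := pf_c P Cp hCp
  obtain ⟨C₃, t₃, hC₃, ht₃, H₃⟩ := b_pow P
  obtain ⟨C₄, hC₄, H₄⟩ := pf_gn P Cp hCp
  obtain ⟨C₆, t₆, hC₆, ht₆, H₆⟩ := pf_f P Cp hCp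
  have hN : (1 : ℝ) ≤ 1 + 2 ^ n := by
    have : (0 : ℝ) < 2 ^ n := by positivity
    linarith
  have hC0 : 0 ≤ (1 + 2 ^ n) * (1 + C₆ + C₆ * (C₂ + 1)) := by positivity
  refine ⟨C₂ + (1 + 2 ^ n) * (1 + C₆ + C₆ * (C₂ + 1)),
    min (min (min t₁ t₂) (min t₃ t₆)) (1 / (2 * C₁)), by linarith,
    lt_min (lt_min (lt_min ht₁ ht₂) (lt_min ht₃ ht₆)) (by positivity), ?_⟩
  intro Q C₅ t₀ h5 h0 h
  have ht₀1 : t₀ ≤ 1 / (2 * C₁) := h.trans (min_le_right _ _)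
  have h' := h.trans (min_le_left _ _)
  obtain ⟨e₁, he₁, he₁1, K₁⟩ := H₁ Q C₅ t₀ h5 h0 (h'.trans ((min_le_left _ _).trans (min_le_left _ _)))
  obtain ⟨e₂, he₂, he₂1, K₂⟩ := H₂ Q C₅ t₀ h5 h0 (h'.trans ((min_le_left _ _).trans (min_le_right _ _)))
  obtain ⟨e₃, he₃, he₃1, K₃⟩ := H₃ Q C₅ t₀ h5 h0 (h'.trans ((min_le_right _ _).trans (min_le_left _ _)))
  obtain ⟨e₆, he₆, he₆1, K₆⟩ := H₆ Q C₅ t₀ h5 h0 (h'.trans ((min_le_right _ _).trans (min_le_right _ _)))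
  refine ⟨min (min (min e₁ e₂) (min e₃ e₆)) (min ((1 / (2 * C₁)) ^ 2) (1 / Cp)),
    lt_min (lt_min (lt_min he₁ he₂) (lt_min he₃ he₆)) (lt_min (by positivity) (by positivity)),
    (((min_le_left _ _).trans (min_le_left _ _)).trans (min_le_left _ _)).trans he₁1, ?_⟩
  intro D R hR α β pf hαβ
  have hRl := hR.mono (min_le_left _ _)
  have F₁ := K₁ D R (hRl.mono ((min_le_left _ _).trans (min_le_left _ _))) α β pf hαβ
  have F₂ := K₂ D R (hRl.mono ((min_le_left _ _).trans (min_le_right _ _))) α β pf hαβ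
  obtain ⟨hSm, -⟩ := K₃ D R (hRl.mono ((min_le_right _ _).trans (min_le_left _ _)))
  have F₆ := K₆ D R (hRl.mono ((min_le_right _ _).trans (min_le_right _ _))) α β pf hαβ
  obtain ⟨F₄, -, -⟩ := H₄ D R α β pf hαβ hSm
  obtain ⟨hVG, hvm, hlc, hLc, hflc, hzm, hfl0, hz0, hvb⟩ := pf_vg pf
  obtain ⟨n1, n2, n3, n4, n5, n6, n7⟩ := rc_num R
  have hge := pf.ge
  have ha := pf.a_nonneg
  have he0 := R.e_pos
  have he1 := R.e_le
  have ha1 : pf.a ≤ 1 := by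
    refine pf.a_le.trans ?_
    have : R.e ≤ 1 / Cp := hR.e_le.trans ((min_le_right _ _).trans (min_le_right _ _))
    rw [le_div_iff₀ (by linarith)] at this
    linarith
  have hsq : Real.sqrt R.e ≤ 1 / (2 * C₁) := by
    have h1 : R.e ≤ (1 / (2 * C₁)) ^ 2 := hR.e_le.trans ((min_le_right _ _).trans (min_le_left _ _))
    calc Real.sqrt R.e ≤ Real.sqrt ((1 / (2 * C₁)) ^ 2) := Real.sqrt_le_sqrt h1
      _ = 1 / (2 * C₁) := Real.sqrt_sq (by positivity)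
  have hsmall : C₁ * (R.t₀ + Real.sqrt R.e) ≤ 1 := by
    rw [hR.ht]
    calc C₁ * (t₀ + Real.sqrt R.e) ≤ C₁ * (1 / (2 * C₁) + 1 / (2 * C₁)) :=
          mul_le_mul_of_nonneg_left (add_le_add ht₀1 hsq) (by linarith)
      _ = 1 := by field_simp; norm_num
  have hZ0 : ∀ i, 0 ≤ pf.Z i := fun i =>
    setIntegral_nonneg_of_ae (ae_of_all _ (fun x => hz0 x))
  have hg0 : ∀ x, 0 ≤ gn (pf.g x) := fun x => by unfold gn; positivity
  have han : 0 ≤ pf.a ^ n := by positivity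
  have hgm : Measurable (fun x => gn (pf.g x)) := by
    unfold gn
    exact (Finset.measurable_sum _ fun i _ => ((hVG.meas_g i).norm.pow_const 2)).sqrt
  -- one ring
  have key : ∀ j, j = α ∨ j = β → ∫ x in R.S ∩ rg R.x₀ j, wBdyH pf x ≤
      (C₂ + (1 + 2 ^ n) * (1 + C₆ + C₆ * (C₂ + 1))) * (pf.Zp j + pf.Er j) := by
    intro j hj
    have hjα : α ≤ j := by omega
    have hjβ : j ≤ β := by omega
    obtain ⟨G1, G2, G3, G4, G5, G6, G7, G8⟩ := F₄ j (by omega) (by omega)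
    obtain ⟨A1, A2, A3⟩ := F₂ j hjα hjβ
    obtain ⟨B1, B2⟩ := F₆ j hj
    have hp := (p2_succ j).2.1
    have hpn : 0 ≤ p2 j ^ n := by positivity
    obtain ⟨f1, f2, f3, f4⟩ := fr_eq R.x₀ j (by omega)
    have hrgm := (rg_meas R.x₀ j).1
    have hAm : MeasurableSet (rg R.x₀ j ∩ R.S) := hrgm.inter hSm
    have hrgv : volume (rg R.x₀ j) ≠ ⊤ :=
      ((measure_mono (f2.trans f4)).trans_lt measure_ball_lt_top).ne
    have hAv : volume (rg R.x₀ j ∩ R.S) ≠ ⊤ :=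
      ((measure_mono inter_subset_left).trans_lt (lt_top_iff_ne_top.mpr hrgv)).ne
    have hin : ∀ x ∈ rg R.x₀ j, ‖x‖ < 64 := by
      intro x hx
      have h1 := f4 (f2 hx)
      rw [mem_ball, dist_eq_norm] at h1
      have h2 : 8 / p2 j ≤ 8 := by
        rw [div_le_iff₀ hp]
        have := (p2_succ j).2.2
        linarith
      have h3 : ‖x‖ ≤ ‖x - R.x₀‖ + ‖R.x₀‖ := by
        have := norm_add_le (x - R.x₀) R.x₀
        rwa [sub_add_cancel] at this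
      have := R.hx
      linarith
    have hAfr : rg R.x₀ j ∩ R.S ⊆ fr R.x₀ j := inter_subset_left.trans f2
    have iv : ∀ q : ℕ, IntegrableOn (fun x => ‖pf.v x‖ ^ q) (rg R.x₀ j ∩ R.S) := by
      intro q
      have := P.hT.one_le
      apply Measure.integrableOn_of_bounded (M := (2 * P.CT) ^ q) hAv
        (hvm.norm.pow_const q).aestronglyMeasurable
      filter_upwards [ae_restrict_of_ae hvb] with x hx
      rw [Real.norm_of_nonneg (by positivity)]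
      exact pow_le_pow_left₀ (norm_nonneg _) hx q
    have ig2 : IntegrableOn (fun x => gn (pf.g x) ^ 2) (rg R.x₀ j ∩ R.S) := G2.mono_set hAfr
    have ign : IntegrableOn (fun x => gn (pf.g x) ^ n) (rg R.x₀ j ∩ R.S) := G1.mono_set hAfr
    set X := pf.Zp j + pf.Er j with hX
    have hX0 : 0 ≤ pf.Zp j := by
      unfold Pf.Zp
      have := hZ0 (j - 1)
      have := hZ0 j
      have := hZ0 (j + 1)
      linarith
    have hsub : ∫ x in R.S ∩ rg R.x₀ j, wBdyH pf x ≤ ∫ x in rg R.x₀ j ∩ R.S,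
        (pf.a ^ (n - 2) * (p2 j ^ (n - 2) * gn (pf.g x) ^ 2) + (1 + 2 ^ n) * gn (pf.g x) ^ n +
        ((1 + 2 ^ n) * (p2 j ^ n * ‖pf.v x‖ ^ n) +
          (1 + 2 ^ n) * (pf.a ^ (n - 2) * (p2 j ^ n * ‖pf.v x‖ ^ 2)))) := by
      rw [inter_comm]
      apply integral_mono_of_nonneg
      · apply ae_of_all
        intro x
        simp only [Pi.zero_apply]
        unfold wBdyH
        have := hfl0 x
        have := hg0 x
        have := D.hf.nonneg x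
        have h3 : 0 ≤ D.f x := this
        positivity
      · exact (((ig2.const_mul _).const_mul _).add (ign.const_mul _)).add
          (((iv n).const_mul _).const_mul _ |>.add ((((iv 2).const_mul _).const_mul _).const_mul _))
      · have := (ae_restrict_iff' (μ := volume) hAm (p := fun x => wBdyH pf x ≤
          (pf.a ^ (n - 2) * (p2 j ^ (n - 2) * gn (pf.g x) ^ 2) + (1 + 2 ^ n) * gn (pf.g x) ^ n +
          ((1 + 2 ^ n) * (p2 j ^ n * ‖pf.v x‖ ^ n) +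
            (1 + 2 ^ n) * (pf.a ^ (n - 2) * (p2 j ^ n * ‖pf.v x‖ ^ 2)))))).mpr (by
            filter_upwards [F₁ j (by omega) (by omega)] with x hx hxA
            obtain ⟨-, k1, -⟩ := hx hxA.1 hxA.2
            have hr1 : 1 / p2 j ≤ ‖x - R.x₀‖ := hxA.1.1
            have hr0 : 0 < ‖x - R.x₀‖ := lt_of_lt_of_le (by positivity) hr1
            have hpα := (p2_succ α).2.1
            have hpβ := (p2_succ β).2.1
            have hjβ' : p2 j ≤ p2 β := by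
              unfold p2
              exact pow_le_pow_right₀ (by norm_num) hjβ
            have hjα' : p2 α ≤ p2 j := by
              unfold p2
              exact pow_le_pow_right₀ (by norm_num) hjα
            have c1 : 1 / (4 * p2 β) ≤ ‖x - R.x₀‖ := by
              refine le_trans ?_ hr1
              apply one_div_le_one_div_of_le hp
              linarith
            have c2 : ‖x - R.x₀‖ ≤ 8 / p2 α := by
              refine hxA.1.2.trans ?_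
              rw [div_le_div_iff₀ hp hpα]
              linarith
            obtain ⟨l1, -⟩ := pf_lam pf x c1 c2
            obtain ⟨q1, q2, q3, q4, q5, q6, q7⟩ := pf_in pf x (hin x hxA.1)
            exact wBdy_pt n hn _ (p2 j) pf.a (gn (pf.g x)) (D.f x) (pf.fl x) ‖pf.v x‖ hr0 hr1 hp ha
              ha1 (hg0 x) (D.hf.nonneg x) l1 q4 (norm_nonneg _) (k1.trans hsmall))
        exact this
    refine hsub.trans ?_
    rw [wBdy_int4 (volume.restrict (rg R.x₀ j ∩ R.S)) (fun x => gn (pf.g x) ^ 2)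
      (fun x => gn (pf.g x) ^ n) (fun x => ‖pf.v x‖ ^ n) (fun x => ‖pf.v x‖ ^ 2) ig2 ign (iv n)
      (iv 2)]
    -- the four terms
    have hEr : pf.Er j = R.e ^ (R.Q + 3) * (R.Dj j + pf.a ^ n) := rfl
    have hε34 : R.e ^ (R.Q + 4) ≤ R.e ^ (R.Q + 3) := pow_le_pow_of_le_one he0.le he1 (by omega)
    have hGg : pf.Gg j ^ 2 = p2 j ^ (n - 2) * ∫ x in fr R.x₀ j, gn (pf.g x) ^ 2 := by
      unfold Pf.Gg
      apply Real.sq_sqrt
      apply mul_nonneg (by positivity)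
      exact setIntegral_nonneg_of_ae (ae_of_all _ (fun x => by positivity))
    have T1 : pf.a ^ (n - 2) * (p2 j ^ (n - 2) * ∫ x in rg R.x₀ j ∩ R.S, gn (pf.g x) ^ 2) ≤
        C₂ * X := by
      refine le_trans ?_ A2
      rw [hGg]
      apply mul_le_mul_of_nonneg_left _ (by positivity)
      apply mul_le_mul_of_nonneg_left _ (by positivity)
      apply setIntegral_mono_set G2 (ae_of_all _ (fun x => by positivity))
      exact Eventually.of_forall hAfr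
    have T2 : ∫ x in rg R.x₀ j ∩ R.S, gn (pf.g x) ^ n ≤ X := by
      have h1 : ∫ x in rg R.x₀ j ∩ R.S, gn (pf.g x) ^ n ≤ pf.Z j := by
        apply setIntegral_mono_on ign (G3.mono_set hAfr) hAm
        intro x hx
        exact (pf_in pf x (hin x hx.1)).2.2.2.2.1
      have h2 : pf.Z j ≤ pf.Zp j := by
        unfold Pf.Zp
        have := hZ0 (j - 1)
        have := hZ0 (j + 1)
        linarith
      linarith
    have hpT : pf.a ^ (n - 2) * (pf.a * (1 / 2) ^ R.T) ^ 2 ≤ X := by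
      have h1 : pf.a ^ (n - 2) * (pf.a * (1 / 2) ^ R.T) ^ 2 =
          pf.a ^ n * ((1 / 2) ^ R.T) ^ 2 := by
        rw [mul_pow, ← mul_assoc, ← pow_add, Nat.sub_add_cancel (by omega)]
      have h2 : ((1 / 2 : ℝ) ^ R.T) ^ 2 ≤ R.e ^ (R.Q + 3) := by
        calc ((1 / 2 : ℝ) ^ R.T) ^ 2 ≤ ((1 / 2) ^ R.T) ^ 1 :=
              pow_le_pow_of_le_one (by positivity) (by linarith) (by omega)
          _ = (1 / 2) ^ R.T := pow_one _
          _ ≤ R.e ^ (R.Q + 3) := n5.trans hε34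
      rw [h1]
      have h3 : pf.a ^ n * ((1 / 2) ^ R.T) ^ 2 ≤ pf.a ^ n * R.e ^ (R.Q + 3) :=
        mul_le_mul_of_nonneg_left h2 han
      have h4 : pf.a ^ n * R.e ^ (R.Q + 3) ≤ pf.Er j := by
        rw [hEr]
        nlinarith [mul_nonneg (pow_nonneg he0.le (R.Q + 3)) G7]
      linarith
    have T4 : pf.a ^ (n - 2) * (p2 j ^ n * ∫ x in rg R.x₀ j ∩ R.S, ‖pf.v x‖ ^ 2) ≤
        C₆ * (C₂ + 1) * X := by
      calc pf.a ^ (n - 2) * (p2 j ^ n * ∫ x in rg R.x₀ j ∩ R.S, ‖pf.v x‖ ^ 2)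
          ≤ pf.a ^ (n - 2) * (C₆ * (pf.Gg j ^ 2 + (pf.a * (1 / 2) ^ R.T) ^ 2)) :=
            mul_le_mul_of_nonneg_left B1 (by positivity)
        _ = C₆ * (pf.a ^ (n - 2) * pf.Gg j ^ 2 + pf.a ^ (n - 2) * (pf.a * (1 / 2) ^ R.T) ^ 2) := by
            ring
        _ ≤ C₆ * (C₂ * X + X) :=
            mul_le_mul_of_nonneg_left (add_le_add A2 hpT) (by linarith)
        _ = C₆ * (C₂ + 1) * X := by ring
    have hN0 : (0 : ℝ) ≤ 1 + 2 ^ n := by linarith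
    have s2 := mul_le_mul_of_nonneg_left T2 hN0
    have s3 := mul_le_mul_of_nonneg_left B2 hN0
    have s4 := mul_le_mul_of_nonneg_left T4 hN0
    have e : (C₂ + (1 + 2 ^ n) * (1 + C₆ + C₆ * (C₂ + 1))) * X =
        C₂ * X + (1 + 2 ^ n) * X + ((1 + 2 ^ n) * (C₆ * X) + (1 + 2 ^ n) * (C₆ * (C₂ + 1) * X)) := by
      ring
    rw [e]
    exact add_le_add (add_le_add T1 s2) (add_le_add s3 s4)
  -- the union
  have hint := (w_int pf hαβ hSm).2.2.2.2.1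
  have e1 : R.S ∩ (rg R.x₀ α ∪ rg R.x₀ β) = (R.S ∩ rg R.x₀ α) ∪ (R.S ∩ rg R.x₀ β) :=
    inter_union_distrib_left _ _ _
  have hBdy : pf.Bdy = (∫ x in R.S ∩ rg R.x₀ α, wBdyH pf x) + ∫ x in R.S ∩ rg R.x₀ β, wBdyH pf x := by
    have hd : AEDisjoint volume (R.S ∩ rg R.x₀ α) (R.S ∩ rg R.x₀ β) := by
      refine measure_mono_null ?_ (rg_null (by omega) R.x₀ α β (by omega))
      intro x hx
      exact ⟨hx.1.2, hx.2.2⟩
    have hint' : IntegrableOn (wBdyH pf) (R.S ∩ (rg R.x₀ α ∪ rg R.x₀ β)) := hint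
    have : pf.Bdy = ∫ x in R.S ∩ (rg R.x₀ α ∪ rg R.x₀ β), wBdyH pf x := rfl
    rw [this, e1]
    rw [e1] at hint'
    exact setIntegral_union₀ hd (hSm.inter (rg_meas R.x₀ β).1).nullMeasurableSet
      (hint'.mono_set subset_union_left) (hint'.mono_set subset_union_right)
  rw [hBdy]
  have k1 := key α (Or.inl rfl)
  have k2 := key β (Or.inr rfl)
  have e2 : (C₂ + (1 + 2 ^ n) * (1 + C₆ + C₆ * (C₂ + 1))) *
      (pf.Zp α + pf.Zp β + pf.Er α + pf.Er β) =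
      (C₂ + (1 + 2 ^ n) * (1 + C₆ + C₆ * (C₂ + 1))) * (pf.Zp α + pf.Er α) +
      (C₂ + (1 + 2 ^ n) * (1 + C₆ + C₆ * (C₂ + 1))) * (pf.Zp β + pf.Er β) := by ring
  rw [e2]
  exact add_le_add k1 k2

end H60NT
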