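import Pool.Agent.H60.NT.PfV2
import Pool.Agent.H60.NT.WInt
import Pool.Agent.H60.NT.BPow

/-!
# [H60 NT WCUR] The curvature term

On `S` in the window `‖v‖ ≤ C (t₀ + √e)` a.e. (`pf_d`; the points with `cw ≠ 0` are in some `rg j`, `α ≤ j ≤ β`, `chi_win`):
`∫_S cw gn g^n ‖v‖² ≤ C (t₀ + √e)² ∫_S cw z` (`gn g^n ≤ z`). `∫_S cw fl^n ‖v‖² ≤ ∑_{α ≤ j ≤ β} (a p2 j)^n ∫_{rg j ∩ S} ‖v‖²` and `pf_v2`.
-/

set_option autoImplicit false

namespace H60NT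

open H60NH MeasureTheory Metric Set Filter Topology
open scoped ENNReal NNReal ContDiff

private theorem wcur_p2 (j : ℕ) : 0 < p2 j ∧ 1 ≤ p2 j := by
  unfold p2
  exact ⟨by positivity, one_le_pow₀ (by norm_num)⟩

private theorem wcur_p2m {i j : ℕ} (h : i ≤ j) : p2 i ≤ p2 j :=
  pow_le_pow_right₀ (by norm_num) h

private theorem wcur_pt {n m : ℕ} {P : Par n m} {D : Dyn P} {R : RC D} {Cp : ℝ} {α β : ℕ}
    (pf : Pf R Cp α β) {j : ℕ} (hj1 : α ≤ j) (hj2 : j ≤ β) {x : E n} (hx : x ∈ rg R.x₀ j) :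
    ‖x‖ < 64 ∧ pf.fl x ^ n ≤ pf.a ^ n * p2 j ^ n := by
  obtain ⟨h1, h2⟩ := hx
  obtain ⟨hpj, hpj1⟩ := wcur_p2 j
  obtain ⟨hpa, hpa1⟩ := wcur_p2 α
  have h3 : 1 / (4 * p2 β) ≤ ‖x - R.x₀‖ := by
    refine le_trans ?_ h1
    apply one_div_le_one_div_of_le (by positivity)
    have := wcur_p2m hj2
    linarith
  have h4 : ‖x - R.x₀‖ ≤ 8 / p2 α := by
    refine h2.trans ?_
    rw [div_le_div_iff₀ hpj hpa]
    have := wcur_p2m hj1
    linarith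
  have hr : 0 < ‖x - R.x₀‖ := lt_of_lt_of_le (by positivity) h1
  refine ⟨?_, ?_⟩
  · have h5 : ‖x‖ ≤ ‖x - R.x₀‖ + ‖R.x₀‖ := by
      have := norm_add_le (x - R.x₀) R.x₀
      rwa [sub_add_cancel] at this
    have h6 : 2 / p2 j ≤ 2 := by
      rw [div_le_iff₀ hpj]
      linarith
    have := R.hx
    linarith
  · rw [← mul_pow]
    have hfl0 : 0 ≤ pf.fl x := Real.sqrt_nonneg _
    refine pow_le_pow_left₀ hfl0 ?_ n
    rw [(pf_lam pf x h3 h4).1, div_le_iff₀ hr]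
    have h5 : 1 ≤ p2 j * ‖x - R.x₀‖ := by
      rw [div_le_iff₀ hpj] at h1
      linarith
    calc pf.a = pf.a * 1 := (mul_one _).symm
      _ ≤ pf.a * (p2 j * ‖x - R.x₀‖) := mul_le_mul_of_nonneg_left h5 pf.a_nonneg
      _ = pf.a * p2 j * ‖x - R.x₀‖ := by ring

theorem w_cur {n m : ℕ} (P : Par n m) (Cp : ℝ) (hCp : 1 ≤ Cp) : Uni P (fun C _ R =>
    ∀ (α β : ℕ) (pf : Pf R Cp α β), α + 2 ≤ β →
      pf.Cur ≤ C * (R.t₀ + Real.sqrt R.e) ^ 2 * (∫ x in R.S, pf.cw x * pf.z x) +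
        C * R.e * pf.SS + C * ∑ j ∈ Finset.Icc α β, pf.Er j) := by
  obtain ⟨C1, t1, hC1, ht1, H1⟩ := pf_d P Cp hCp
  obtain ⟨C2, t2, hC2, ht2, H2⟩ := pf_v2 P Cp hCp
  obtain ⟨C3, t3, hC3, ht3, H3⟩ := b_pow P
  refine ⟨C1 ^ 2 + C2, min t1 (min t2 t3), by nlinarith, lt_min ht1 (lt_min ht2 ht3), ?_⟩
  intro Q C₅ t₀ h5 h0 h
  obtain ⟨e1, he1, he1', K1⟩ := H1 Q C₅ t₀ h5 h0 (h.trans (min_le_left _ _))
  obtain ⟨e2, he2, he2', K2⟩ := H2 Q C₅ t₀ h5 h0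
    (h.trans ((min_le_right _ _).trans (min_le_left _ _)))
  obtain ⟨e3, he3, he3', K3⟩ := H3 Q C₅ t₀ h5 h0
    (h.trans ((min_le_right _ _).trans (min_le_right _ _)))
  refine ⟨min e1 (min e2 e3), lt_min he1 (lt_min he2 he3), (min_le_left _ _).trans he1', ?_⟩
  intro D R hR α β pf hab
  have k1 := K1 D R (hR.mono (min_le_left _ _)) α β pf hab
  have k2 := K2 D R (hR.mono ((min_le_right _ _).trans (min_le_left _ _))) α β pf hab
  have hSm := (K3 D R (hR.mono ((min_le_right _ _).trans (min_le_right _ _)))).1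
  obtain ⟨hVG, hvm, hlc, hLc, hflc, hzm, hfl0, hz0, hvb⟩ := pf_vg pf
  obtain ⟨-, -, -, hcz, -, hcur, -⟩ := w_int pf hab hSm
  obtain ⟨c1, c2, c3, c4⟩ := chi_win P R.x₀ α β pf.lt
  obtain ⟨T, hT⟩ : ∃ T : ℝ, T = R.t₀ + Real.sqrt R.e := ⟨_, rfl⟩
  rw [← hT]
  -- integrability of the squares
  have hsq : ∀ j, IntegrableOn (fun x => ‖pf.v x‖ ^ 2) (rg R.x₀ j ∩ R.S) := by
    intro j
    have hfin : volume (rg R.x₀ j ∩ R.S) < ⊤ := by
      have hsub : rg R.x₀ j ∩ R.S ⊆ closedBall R.x₀ (2 / p2 j) := by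
        intro x hx
        rw [mem_closedBall, dist_eq_norm]
        exact hx.1.2
      exact lt_of_le_of_lt (measure_mono hsub) measure_closedBall_lt_top
    refine Measure.integrableOn_of_bounded (M := (2 * P.CT) ^ 2) hfin.ne
      (hvm.norm.pow_const 2).aestronglyMeasurable ?_
    refine ae_restrict_of_ae ?_
    filter_upwards [hvb] with x hx
    rw [Real.norm_of_nonneg (sq_nonneg _)]
    exact pow_le_pow_left₀ (norm_nonneg _) hx 2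
  have hrgm : ∀ j, MeasurableSet (rg R.x₀ j ∩ R.S) := fun j => ((rg_meas R.x₀ j).1).inter hSm
  have hA : ∀ j : ℕ, Integrable ((rg R.x₀ j ∩ R.S).indicator fun x =>
      pf.a ^ n * p2 j ^ n * ‖pf.v x‖ ^ 2) := fun j =>
    (integrable_indicator_iff (hrgm j)).2 ((hsq j).const_mul _)
  have hae : ∀ᵐ x, ∀ j, α ≤ j → j ≤ β → x ∈ rg R.x₀ j → x ∈ R.S → ‖pf.v x‖ ≤ C1 * T := by
    rw [ae_all_iff]
    intro j
    by_cases hj : α ≤ j ∧ j ≤ β
    · filter_upwards [k1 j (by omega) (by omega)] with x hx _ _ h1 h2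
      rw [hT]
      exact (hx h1 h2).2.1
    · exact Eventually.of_forall fun x h1 h2 => absurd ⟨h1, h2⟩ hj
  have hpt : ∀ᵐ x ∂(volume.restrict R.S),
      pf.cw x * ((gn (pf.g x) ^ n + pf.fl x ^ n) * ‖pf.v x‖ ^ 2) ≤
      (C1 * T) ^ 2 * (pf.cw x * pf.z x) + ∑ j ∈ Finset.Icc α β,
        (rg R.x₀ j ∩ R.S).indicator (fun x => pf.a ^ n * p2 j ^ n * ‖pf.v x‖ ^ 2) x := by
    rw [ae_restrict_iff' hSm]
    filter_upwards [hae] with x hx hxS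
    have hnn : ∀ j ∈ Finset.Icc α β,
        0 ≤ (rg R.x₀ j ∩ R.S).indicator (fun x => pf.a ^ n * p2 j ^ n * ‖pf.v x‖ ^ 2) x := by
      intro j _
      refine indicator_nonneg (fun y _ => ?_) x
      have := pf.a_nonneg
      have := (wcur_p2 j).1
      positivity
    have hcw := c1 x
    have hcw0 : 0 ≤ pf.cw x := hcw.1
    have hcw1 : pf.cw x ≤ 1 := hcw.2
    by_cases h0 : pf.cw x = 0
    · rw [h0]
      have := Finset.sum_nonneg hnn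
      linarith
    · obtain ⟨j, hj1, hj2, hxj⟩ := c4 x h0
      obtain ⟨p1, p2'⟩ := wcur_pt pf hj1 hj2 hxj
      obtain ⟨-, -, -, -, q1, -, -⟩ := pf_in pf x p1
      have hv := hx j hj1 hj2 hxj hxS
      have hv2 : ‖pf.v x‖ ^ 2 ≤ (C1 * T) ^ 2 := pow_le_pow_left₀ (norm_nonneg _) hv 2
      have hsum := Finset.single_le_sum hnn (Finset.mem_Icc.2 ⟨hj1, hj2⟩)
      have hmem : x ∈ rg R.x₀ j ∩ R.S := ⟨hxj, hxS⟩
      rw [indicator_of_mem hmem] at hsum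
      have hg0 : 0 ≤ gn (pf.g x) ^ n := pow_nonneg (Real.sqrt_nonneg _) n
      have hf0 : 0 ≤ pf.fl x ^ n := pow_nonneg (hfl0 x) n
      have a1 : pf.cw x * (gn (pf.g x) ^ n * ‖pf.v x‖ ^ 2) ≤ (C1 * T) ^ 2 * (pf.cw x * pf.z x) := by
        have : gn (pf.g x) ^ n * ‖pf.v x‖ ^ 2 ≤ pf.z x * (C1 * T) ^ 2 :=
          mul_le_mul q1 hv2 (sq_nonneg _) (hz0 x)
        calc pf.cw x * (gn (pf.g x) ^ n * ‖pf.v x‖ ^ 2) ≤ pf.cw x * (pf.z x * (C1 * T) ^ 2) :=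
              mul_le_mul_of_nonneg_left this hcw0
          _ = (C1 * T) ^ 2 * (pf.cw x * pf.z x) := by ring
      have a2 : pf.cw x * (pf.fl x ^ n * ‖pf.v x‖ ^ 2) ≤ pf.a ^ n * p2 j ^ n * ‖pf.v x‖ ^ 2 := by
        calc pf.cw x * (pf.fl x ^ n * ‖pf.v x‖ ^ 2) ≤ 1 * (pf.fl x ^ n * ‖pf.v x‖ ^ 2) :=
              mul_le_mul_of_nonneg_right hcw1 (by positivity)
          _ ≤ pf.a ^ n * p2 j ^ n * ‖pf.v x‖ ^ 2 := by
              rw [one_mul]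
              exact mul_le_mul_of_nonneg_right p2' (sq_nonneg _)
      calc pf.cw x * ((gn (pf.g x) ^ n + pf.fl x ^ n) * ‖pf.v x‖ ^ 2) =
          pf.cw x * (gn (pf.g x) ^ n * ‖pf.v x‖ ^ 2) + pf.cw x * (pf.fl x ^ n * ‖pf.v x‖ ^ 2) := by
            ring
        _ ≤ _ := add_le_add a1 (a2.trans hsum)
  have hI : Integrable (fun x => ∑ j ∈ Finset.Icc α β,
      (rg R.x₀ j ∩ R.S).indicator (fun x => pf.a ^ n * p2 j ^ n * ‖pf.v x‖ ^ 2) x) :=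
    integrable_finsetSum _ fun j _ => hA j
  have hint : pf.Cur ≤ ∫ x in R.S, ((C1 * T) ^ 2 * (pf.cw x * pf.z x) + ∑ j ∈ Finset.Icc α β,
        (rg R.x₀ j ∩ R.S).indicator (fun x => pf.a ^ n * p2 j ^ n * ‖pf.v x‖ ^ 2) x) :=
    integral_mono_ae hcur.integrableOn ((hcz.const_mul _).add hI).integrableOn hpt
  rw [integral_add (hcz.const_mul _).integrableOn hI.integrableOn, integral_const_mul,
    integral_finsetSum _ fun j _ => (hA j).integrableOn] at hint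
  have hj : ∀ j ∈ Finset.Icc α β, ∫ x in R.S,
      (rg R.x₀ j ∩ R.S).indicator (fun x => pf.a ^ n * p2 j ^ n * ‖pf.v x‖ ^ 2) x =
      pf.a ^ n * (p2 j ^ n * ∫ x in rg R.x₀ j ∩ R.S, ‖pf.v x‖ ^ 2) := by
    intro j _
    rw [setIntegral_indicator (hrgm j), ← inter_assoc, inter_comm R.S, inter_assoc,
      inter_self, integral_const_mul, mul_assoc]
  rw [Finset.sum_congr rfl hj, ← Finset.mul_sum] at hint
  have hz1 : 0 ≤ ∫ x in R.S, pf.cw x * pf.z x :=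
    integral_nonneg fun x => mul_nonneg (c1 x).1 (hz0 x)
  have hSS : 0 ≤ pf.SS := Finset.sum_nonneg fun j _ => integral_nonneg fun x => hz0 x
  have hEr : 0 ≤ ∑ j ∈ Finset.Icc α β, pf.Er j := Finset.sum_nonneg fun j _ => by
    unfold Pf.Er RC.Dj
    have h1 : 0 ≤ ∫ x in br R.x₀ j, D.f x ^ n :=
      integral_nonneg fun x => pow_nonneg (Real.sqrt_nonneg _) n
    have h2 := R.e_pos
    have h3 := pf.a_nonneg
    positivity
  have he0 := R.e_pos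
  have f1 : (C1 * T) ^ 2 * (∫ x in R.S, pf.cw x * pf.z x) ≤
      (C1 ^ 2 + C2) * T ^ 2 * ∫ x in R.S, pf.cw x * pf.z x := by
    refine mul_le_mul_of_nonneg_right ?_ hz1
    have : 0 ≤ C2 * T ^ 2 := mul_nonneg (by linarith) (sq_nonneg _)
    calc (C1 * T) ^ 2 = C1 ^ 2 * T ^ 2 := by ring
      _ ≤ (C1 ^ 2 + C2) * T ^ 2 := by linarith
  have f2 : C2 * R.e * pf.SS ≤ (C1 ^ 2 + C2) * R.e * pf.SS := by
    refine mul_le_mul_of_nonneg_right (mul_le_mul_of_nonneg_right ?_ he0.le) hSS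
    nlinarith [sq_nonneg C1]
  have f3 : C2 * ∑ j ∈ Finset.Icc α β, pf.Er j ≤ (C1 ^ 2 + C2) * ∑ j ∈ Finset.Icc α β, pf.Er j := by
    refine mul_le_mul_of_nonneg_right ?_ hEr
    nlinarith [sq_nonneg C1]
  linarith

end H60NT
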