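import Pool.Agent.H60.NT.Win4
import Pool.Agent.H60.NT.WBdy
import Pool.Agent.H60.NT.WCur

/-!
# [H60 NT WINZ] The window inequality (Z)

`I = ∫_S cw z`. `win4`, `w_bdy`, `w_cur`: `ηb I ≤ C (ηb C (t₀+√e)² I + ηb C e SS + ηb C (Z_α^+ + Z_β^+) + SV V + C ∑ E_j)`, and
`SS ≤ I + Z_α^+ + Z_β^+` (`cw = 1` on `rg j` for `α < j < β`, `chi_win`; the rings overlap in null sets only, `rg_null`; `SS` is the sum
over `α - 1 ≤ j ≤ β + 1`, the terms outside `α < j < β` are in `Z_α^+ + Z_β^+`; if `β = α + 2` some terms appear twice, which is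
harmless as `Z_j ≥ 0`). Choose `t₁`, `e₁` with `C² (t₀+√e)² ≤ 1/4`, `C² e ≤ 1/4` and absorb. Finally
`ηb SS ≤ ηb I + ηb (Z_α^+ + Z_β^+)`.
-/

set_option autoImplicit false

namespace H60NT

open H60NH MeasureTheory Metric Set Filter Topology
open scoped ENNReal NNReal ContDiff

private theorem winz_rings {n : ℕ} (hn : 1 ≤ n) (x₀ : E n) (s : Finset ℕ) (S : Set (E n))
    (hS : MeasurableSet S) (h : E n → ℝ) (h0 : ∀ x, 0 ≤ h x) (hi : Integrable h) :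
    ∑ j ∈ s, ∫ x in rg x₀ j ∩ S, h x ≤ ∫ x in S, h x := by
  classical
  have hm : ∀ j, MeasurableSet (rg x₀ j ∩ S) := fun j => ((rg_meas x₀ j).1).inter hS
  have h1 : ∀ j ∈ s, ∫ x in rg x₀ j ∩ S, h x = ∫ x, (rg x₀ j ∩ S).indicator h x := fun j _ =>
    (integral_indicator (hm j)).symm
  rw [Finset.sum_congr rfl h1, ← integral_finsetSum _ (fun j _ => hi.indicator (hm j)),
    ← integral_indicator hS]
  refine integral_mono_ae (integrable_finsetSum _ fun j _ => hi.indicator (hm j))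
    (hi.indicator hS) ?_
  have h2 : ∀ᵐ x : E n, ∀ j j' : ℕ, j ≠ j' → x ∉ rg x₀ j ∩ rg x₀ j' := by
    rw [ae_all_iff]
    intro j
    rw [ae_all_iff]
    intro j'
    by_cases hjj : j = j'
    · exact Filter.Eventually.of_forall fun x h => absurd hjj h
    · have h3 := rg_null hn x₀ j j' hjj
      filter_upwards [measure_eq_zero_iff_ae_notMem.mp h3] with x hx _
      exact hx
  filter_upwards [h2] with x hx
  by_cases hex : ∃ j ∈ s, x ∈ rg x₀ j ∩ S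
  · obtain ⟨j, hj, hxj⟩ := hex
    rw [Finset.sum_eq_single_of_mem j hj, indicator_of_mem hxj, indicator_of_mem hxj.2]
    intro j' _ hne
    rw [indicator_of_notMem]
    intro h3
    exact hx j' j hne ⟨h3.1, hxj.1⟩
  · rw [Finset.sum_eq_zero]
    · exact indicator_nonneg (fun x _ => h0 x) x
    · intro j hj
      rw [indicator_of_notMem]
      exact fun h3 => hex ⟨j, hj, h3⟩

theorem win_Z {n m : ℕ} (P : Par n m) (Cp : ℝ) (hCp : 1 ≤ Cp) : Uni P (fun C _ R =>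
    ∀ (α β : ℕ) (pf : Pf R Cp α β), α + 2 ≤ β → ∀ (ηb : ℝ) (V : ℕ → (Fin n → ℤ) → ℝ),
      0 ≤ ηb → ηb ≤ 1 → (∀ j z, 0 ≤ V j z) → pf.HV ηb V →
      ηb * pf.SS ≤ C * (ηb * (pf.Zp α + pf.Zp β) + pf.SV V +
        ∑ j ∈ Finset.Icc α β, pf.Er j)) := by
  classical
  obtain ⟨Ca, ta, hCa, hta, Ha⟩ := win4 P Cp hCp
  obtain ⟨Cc, tc, hCc, htc, Hc⟩ := w_cur P Cp hCp
  obtain ⟨Cb, tb, hCb, htb, Hb⟩ := w_bdy P Cp hCp
  obtain ⟨_, td, _, htd, Hd⟩ := b_pow P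
  obtain ⟨K, hK⟩ : ∃ K : ℝ, K = Ca * Cc := ⟨_, rfl⟩
  have hK1 : 1 ≤ K := by
    rw [hK]
    exact one_le_mul_of_one_le_of_one_le hCa hCc
  have hab : 1 ≤ Ca * Cb := one_le_mul_of_one_le_of_one_le hCa hCb
  refine ⟨2 + 4 * (Ca * Cb) + 2 * K + 2 * Ca,
    min (min ta tc) (min (min tb td) (1 / (4 * K))), by linarith, ?_, ?_⟩
  · exact lt_min (lt_min hta htc) (lt_min (lt_min htb htd) (by positivity))
  intro Q C₅ t₀ h5 h0 ht
  obtain ⟨ea, hea, hea1, Ka⟩ := Ha Q C₅ t₀ h5 h0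
    (ht.trans ((min_le_left _ _).trans (min_le_left _ _)))
  obtain ⟨ec, hec, hec1, Kc⟩ := Hc Q C₅ t₀ h5 h0
    (ht.trans ((min_le_left _ _).trans (min_le_right _ _)))
  obtain ⟨eb, heb, heb1, Kb⟩ := Hb Q C₅ t₀ h5 h0
    (ht.trans ((min_le_right _ _).trans ((min_le_left _ _).trans (min_le_left _ _))))
  obtain ⟨ed, hed, hed1, Kd⟩ := Hd Q C₅ t₀ h5 h0
    (ht.trans ((min_le_right _ _).trans ((min_le_left _ _).trans (min_le_right _ _))))
  have ht4 : t₀ ≤ 1 / (4 * K) := ht.trans ((min_le_right _ _).trans (min_le_right _ _))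
  refine ⟨min (min ea ec) (min (min eb ed) ((1 / (4 * K)) ^ 2)),
    lt_min (lt_min hea hec) (lt_min (lt_min heb hed) (by positivity)),
    ((min_le_left _ _).trans (min_le_left _ _)).trans hea1, ?_⟩
  intro D R hR α β pf hαβ ηb V hη0 hη1 hV hHV
  have ha := Ka D R (hR.mono ((min_le_left _ _).trans (min_le_left _ _))) α β pf hαβ ηb V hη0 hη1
    hV hHV
  have hc := Kc D R (hR.mono ((min_le_left _ _).trans (min_le_right _ _))) α β pf hαβ
  have hb := Kb D R (hR.mono ((min_le_right _ _).trans ((min_le_left _ _).trans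
    (min_le_left _ _)))) α β pf hαβ
  have hSm := (Kd D R (hR.mono ((min_le_right _ _).trans ((min_le_left _ _).trans
    (min_le_right _ _))))).1
  have he4 : R.e ≤ (1 / (4 * K)) ^ 2 := hR.e_le.trans
    ((min_le_right _ _).trans (min_le_right _ _))
  have hsq : Real.sqrt R.e ≤ 1 / (4 * K) := by
    rw [← Real.sqrt_sq (show (0 : ℝ) ≤ 1 / (4 * K) by positivity)]
    exact Real.sqrt_le_sqrt he4
  have hsq0 := Real.sqrt_nonneg R.e
  have hte : R.t₀ + Real.sqrt R.e ≤ 1 / (2 * K) := by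
    rw [hR.ht]
    have h1 : 1 / (2 * K) = 1 / (4 * K) + 1 / (4 * K) := by
      field_simp
      norm_num
    linarith
  have hte0 : 0 ≤ R.t₀ + Real.sqrt R.e := by linarith [R.t0]
  have hKi : 1 / K ≤ 1 := by
    rw [div_le_one (by linarith)]
    exact hK1
  have hθ : K * (R.t₀ + Real.sqrt R.e) ^ 2 ≤ 1 / 4 := by
    have h1 : (R.t₀ + Real.sqrt R.e) ^ 2 ≤ (1 / (2 * K)) ^ 2 := pow_le_pow_left₀ hte0 hte 2
    have h2 : K * (1 / (2 * K)) ^ 2 = 1 / 4 * (1 / K) := by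
      field_simp
      norm_num
    have h3 := mul_le_mul_of_nonneg_left h1 (show 0 ≤ K by linarith)
    linarith
  have hKe : K * R.e ≤ 1 / 4 := by
    have h2 : K * (1 / (4 * K)) ^ 2 = 1 / 16 * (1 / K) := by
      field_simp
      norm_num
    have h3 := mul_le_mul_of_nonneg_left he4 (show 0 ≤ K by linarith)
    linarith
  -- positivity
  obtain ⟨-, -, -, -, -, -, -, hz0, -⟩ := pf_vg pf
  have hcw := chi_win P R.x₀ α β (by omega)
  have hcw0 : ∀ x, 0 ≤ pf.cw x := fun x => (hcw.1 x).1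
  have hZ0 : ∀ j, 0 ≤ pf.Z j := fun j => integral_nonneg fun x => hz0 x
  obtain ⟨Zb, hZb⟩ : ∃ Zb : ℝ, Zb = pf.Zp α + pf.Zp β := ⟨_, rfl⟩
  have hZp0 : ∀ j, 0 ≤ pf.Zp j := fun j => add_nonneg (add_nonneg (hZ0 _) (hZ0 _)) (hZ0 _)
  have hZb0 : 0 ≤ Zb := by
    rw [hZb]
    exact add_nonneg (hZp0 _) (hZp0 _)
  have hEr0 : ∀ j, 0 ≤ pf.Er j := by
    intro j
    refine mul_nonneg (pow_nonneg R.e_pos.le _) (add_nonneg ?_ (pow_nonneg pf.a_nonneg _))
    exact integral_nonneg fun x => pow_nonneg (Real.sqrt_nonneg _) _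
  obtain ⟨Es, hEs⟩ : ∃ Es : ℝ, Es = ∑ j ∈ Finset.Icc α β, pf.Er j := ⟨_, rfl⟩
  have hEα : pf.Er α ≤ Es := by
    rw [hEs]
    exact Finset.single_le_sum (fun j _ => hEr0 j) (Finset.mem_Icc.mpr ⟨le_rfl, by omega⟩)
  have hEβ : pf.Er β ≤ Es := by
    rw [hEs]
    exact Finset.single_le_sum (fun j _ => hEr0 j) (Finset.mem_Icc.mpr ⟨by omega, le_rfl⟩)
  have hEs0 : 0 ≤ Es := (hEr0 α).trans hEα
  obtain ⟨I, hI⟩ : ∃ I : ℝ, I = ∫ x in R.S, pf.cw x * pf.z x := ⟨_, rfl⟩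
  have hI0 : 0 ≤ I := by
    rw [hI]
    exact integral_nonneg fun x => mul_nonneg (hcw0 x) (hz0 x)
  have hSV0 : 0 ≤ pf.SV V := Finset.sum_nonneg fun j _ => Finset.sum_nonneg fun z _ => hV j z
  -- the sum over the rings
  have hα1 : 1 ≤ α := by
    have h1 := pf.ge
    have h2 : R.W ≠ 0 := by
      intro h3
      have h4 := R.W1
      rw [h3] at h4
      norm_num at h4
    omega
  have hSS : pf.SS ≤ I + Zb := by
    obtain ⟨-, -, -, hint, -⟩ := w_int pf hαβ hSm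
    have h1 : ∑ j ∈ Finset.Ioo α β, pf.Z j ≤ I := by
      have h2 : ∀ j ∈ Finset.Ioo α β, pf.Z j = ∫ x in rg R.x₀ j ∩ R.S, pf.cw x * pf.z x := by
        intro j hj
        rw [Finset.mem_Ioo] at hj
        unfold Pf.Z
        refine setIntegral_congr_fun (((rg_meas R.x₀ j).1).inter hSm) fun x hx => ?_
        have h3 : pf.cw x = 1 := hcw.2.2.1 j hj.1 hj.2 x hx.1
        simp only [h3, one_mul]
      rw [Finset.sum_congr rfl h2, hI]
      exact winz_rings (by have := P.hn; omega) R.x₀ _ R.S hSm _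
        (fun x => mul_nonneg (hcw0 x) (hz0 x)) hint
    have h2 : Finset.Icc (α - 1) (β + 1) = insert (α - 1) (insert α (insert β (insert (β + 1)
        (Finset.Ioo α β)))) := by
      ext j
      simp only [Finset.mem_Icc, Finset.mem_insert, Finset.mem_Ioo]
      omega
    have h3 : pf.SS = pf.Z (α - 1) + (pf.Z α + (pf.Z β + (pf.Z (β + 1) +
        ∑ j ∈ Finset.Ioo α β, pf.Z j))) := by
      unfold Pf.SS
      rw [h2, Finset.sum_insert, Finset.sum_insert, Finset.sum_insert, Finset.sum_insert]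
      all_goals
        simp only [Finset.mem_insert, Finset.mem_Ioo]
        omega
    have h4 : pf.Z (α - 1) + pf.Z α ≤ pf.Zp α := by
      unfold Pf.Zp
      linarith [hZ0 (α + 1)]
    have h5 : pf.Z β + pf.Z (β + 1) ≤ pf.Zp β := by
      unfold Pf.Zp
      linarith [hZ0 (β - 1)]
    rw [h3, hZb]
    linarith
  rw [← hI, ← hEs] at ha
  rw [← hI, ← hEs] at hc
  rw [← hZb, ← hEs]
  have hSS0 : 0 ≤ pf.SS := Finset.sum_nonneg fun j _ => hZ0 j
  have hBdy : pf.Bdy ≤ Cb * (Zb + 2 * Es) := by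
    refine hb.trans (mul_le_mul_of_nonneg_left ?_ (by linarith))
    rw [hZb]
    linarith
  -- the curvature
  have hCur : Ca * pf.Cur ≤ 1 / 4 * I + 1 / 4 * (I + Zb) + K * Es := by
    have h1 := mul_le_mul_of_nonneg_left hc (show 0 ≤ Ca by linarith)
    have h2 : Ca * (Cc * (R.t₀ + Real.sqrt R.e) ^ 2 * I + Cc * R.e * pf.SS + Cc * Es) =
        K * (R.t₀ + Real.sqrt R.e) ^ 2 * I + K * R.e * pf.SS + K * Es := by
      rw [hK]
      ring
    rw [h2] at h1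
    have h3 : K * (R.t₀ + Real.sqrt R.e) ^ 2 * I ≤ 1 / 4 * I := mul_le_mul_of_nonneg_right hθ hI0
    have h4 : K * R.e * pf.SS ≤ 1 / 4 * (I + Zb) := mul_le_mul hKe hSS hSS0 (by norm_num)
    linarith
  have hBdy2 : Ca * pf.Bdy ≤ Ca * Cb * (Zb + 2 * Es) := by
    have h1 := mul_le_mul_of_nonneg_left hBdy (show 0 ≤ Ca by linarith)
    linarith
  have hsum : Ca * (pf.Cur + pf.Bdy) ≤ 1 / 4 * I + 1 / 4 * (I + Zb) + K * Es +
      Ca * Cb * (Zb + 2 * Es) := by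
    linarith
  have h1 := mul_le_mul_of_nonneg_left hsum hη0
  -- collect
  have h2 : ηb * I ≤ ηb * (1 / 4 * I + 1 / 4 * (I + Zb) + K * Es + Ca * Cb * (Zb + 2 * Es)) +
      Ca * pf.SV V + Ca * Es := by
    have h3 : Ca * (ηb * (pf.Cur + pf.Bdy) + pf.SV V + Es) =
        ηb * (Ca * (pf.Cur + pf.Bdy)) + Ca * pf.SV V + Ca * Es := by ring
    rw [h3] at ha
    linarith
  have h4 : ηb * (K * Es) ≤ K * Es :=
    mul_le_of_le_one_left (mul_nonneg (by linarith) hEs0) hη1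
  have h5 : ηb * (Ca * Cb * Es) ≤ Ca * Cb * Es :=
    mul_le_of_le_one_left (mul_nonneg (by linarith) hEs0) hη1
  have h6 : ηb * pf.SS ≤ ηb * (I + Zb) := mul_le_mul_of_nonneg_left hSS hη0
  have h7 : ηb * I ≤ ηb * Zb * (1 / 2 + 2 * (Ca * Cb)) + 2 * (K + 2 * (Ca * Cb) + Ca) * Es +
      2 * Ca * pf.SV V := by
    have e1 : ηb * (1 / 4 * I + 1 / 4 * (I + Zb) + K * Es + Ca * Cb * (Zb + 2 * Es)) =
        1 / 2 * (ηb * I) + 1 / 4 * (ηb * Zb) + ηb * (K * Es) + Ca * Cb * (ηb * Zb) +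
          2 * (ηb * (Ca * Cb * Es)) := by ring
    have e2 : ηb * Zb * (1 / 2 + 2 * (Ca * Cb)) = 1 / 2 * (ηb * Zb) +
        2 * (Ca * Cb * (ηb * Zb)) := by ring
    have e3 : 2 * (K + 2 * (Ca * Cb) + Ca) * Es = 2 * (K * Es) + 4 * (Ca * Cb * Es) +
        2 * (Ca * Es) := by ring
    have e4 : 2 * Ca * pf.SV V = 2 * (Ca * pf.SV V) := by ring
    rw [e1] at h2
    rw [e2, e3, e4]
    linarith
  have h8 : 0 ≤ ηb * Zb := mul_nonneg hη0 hZb0
  have h9 : ηb * pf.SS ≤ ηb * Zb * (3 / 2 + 2 * (Ca * Cb)) +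
      2 * (K + 2 * (Ca * Cb) + Ca) * Es + 2 * Ca * pf.SV V := by
    linarith
  refine h9.trans ?_
  have h10 : ηb * Zb * (3 / 2 + 2 * (Ca * Cb)) ≤
      (2 + 4 * (Ca * Cb) + 2 * K + 2 * Ca) * (ηb * Zb) := by
    rw [mul_comm (ηb * Zb)]
    exact mul_le_mul_of_nonneg_right (by linarith) h8
  have h11 : 2 * (K + 2 * (Ca * Cb) + Ca) * Es ≤
      (2 + 4 * (Ca * Cb) + 2 * K + 2 * Ca) * Es :=
    mul_le_mul_of_nonneg_right (by linarith) hEs0
  have h12 : 2 * Ca * pf.SV V ≤ (2 + 4 * (Ca * Cb) + 2 * K + 2 * Ca) * pf.SV V :=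
    mul_le_mul_of_nonneg_right (by linarith) hSV0
  linarith

end H60NT
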