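import Pool.Agent.H60.NT.Step
import Pool.Agent.H60.NT.WinZ
import Pool.Agent.H60.NT.Def4

/-!
# [H60 NT IT] Iteration of the step

`Db = ∑_{j ∈ Icc (s-4) (s+W+4)} D_j`, `RV = ∑_{j ∈ Ico s (s+W)} ∑_z V j z`, `η = ηb`. The hypothesis: `HV ηb V` for all profiles in the
block. Claim by induction on `i ≤ K := 2(Q+4)`: there are `α, β`, `pf` in the block (`s + 2 ≤ α`, `β + 2 ≤ s + W`) with
`W ≤ 4^(i+1) (β - α)` and `η SS ≤ (C 4^(i+1)/W)^i C Db + C (RV + e^(Q+3) Db)`-like. Start: `α = s + 2`, `β = s + W - 2` (`W - 4 ≥ W/4`), `pf_gn` (6a). Step: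
`β - α ≥ W/4^(i+1) ≥ 40` for `e` small (`W ≥ 1/√e`), `step` gives `pf'`, and `win_Z` for `pf'`:
`η SS' ≤ C (η (Z'^+_{j1} + Z'^+_{j2}) + SV + ∑ E') ≤ C (2C η SS/(β-α) + RV + C e^(Q+3) Db)` (`∑_{j1≤i≤j2} E'_i ≤ C e^(Q+3) Db` by `pf_gn`; `SV V ≤ RV` as
`V ≥ 0`). With `1/(β-α) ≤ 4^(i+1)/W ≤ 4^(i+1) √e`: after `K` steps the first term is `(C' √e)^K Db ≤ e^(Q+3) Db`
for `e` small. One more step (without `win_Z`) gives `m = j1`: `η Z'^+_m ≤ C η SS/(β-α) + C e^(Q+3) Db`, and `1/(β - α) ≤ C √e`.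
-/

set_option autoImplicit false

namespace H60NT

open H60NH MeasureTheory Metric Set Filter Topology
open scoped ENNReal NNReal ContDiff

theorem Dj_nonneg' {n m : ℕ} {P : Par n m} {D : Dyn P} (R : RC D) (j : ℕ) : 0 ≤ R.Dj j := by
  unfold RC.Dj Dyn.f
  refine integral_nonneg fun x => ?_
  have : 0 ≤ gn (D.G x) := by
    unfold gn
    positivity
  exact pow_nonneg this n

/-- one step for `SS` -/
theorem it_step {n m : ℕ} {P : Par n m} {Cp CS CZ CG : ℝ} (hCS : 1 ≤ CS) (hCZ : 1 ≤ CZ) (hCG : 1 ≤ CG)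
    {D : Dyn P} {R : RC D} {s : ℕ} {ηb : ℝ} {V : ℕ → (Fin n → ℤ) → ℝ}
    (hη0 : 0 ≤ ηb) (hη1 : ηb ≤ 1) (hV : ∀ j z, 0 ≤ V j z)
    (hHV : ∀ (α β : ℕ) (pf : Pf R Cp α β), s ≤ α → β ≤ s + R.W → α + 2 ≤ β → pf.HV ηb V)
    (hS : ∀ (α β : ℕ) (pf : Pf R Cp α β), α + 40 ≤ β →
      ∃ (j1 j2 : ℕ) (pf' : Pf R Cp j1 j2), α + 2 ≤ j1 ∧ j1 + 2 ≤ j2 ∧ j2 + 2 ≤ β ∧
        (β : ℝ) - α ≤ 4 * ((j2 : ℝ) - j1) ∧
        ∀ j, j = j1 ∨ j = j2 → pf'.Zp j ≤ CS * (pf.SS / ((β : ℝ) - α) +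
          R.e ^ (R.Q + 3) * ∑ i ∈ Finset.Icc α β, R.Dj i))
    (hZ : ∀ (α β : ℕ) (pf : Pf R Cp α β), α + 2 ≤ β → ∀ (ηb : ℝ) (V : ℕ → (Fin n → ℤ) → ℝ),
      0 ≤ ηb → ηb ≤ 1 → (∀ j z, 0 ≤ V j z) → pf.HV ηb V →
      ηb * pf.SS ≤ CZ * (ηb * (pf.Zp α + pf.Zp β) + pf.SV V +
        ∑ j ∈ Finset.Icc α β, pf.Er j))
    (hG : ∀ (α β : ℕ) (pf : Pf R Cp α β), α + 2 ≤ β →
      ((β : ℝ) - α + 3) * pf.a ^ n ≤ CG * ∑ j ∈ Finset.Icc α β, R.Dj j)
    {α β : ℕ} (pf : Pf R Cp α β) (hSS : 0 ≤ pf.SS) (h40 : α + 40 ≤ β) (hsα : s ≤ α)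
    (hβs : β ≤ s + R.W) :
    ∃ (j1 j2 : ℕ) (pf' : Pf R Cp j1 j2), α + 2 ≤ j1 ∧ j1 + 2 ≤ j2 ∧ j2 + 2 ≤ β ∧
      (β : ℝ) - α ≤ 4 * ((j2 : ℝ) - j1) ∧
      ηb * pf'.Zp j1 ≤ CS * (ηb * pf.SS / ((β : ℝ) - α) +
          R.e ^ (R.Q + 3) * ∑ j ∈ Finset.Icc (s - 4) (s + R.W + 4), R.Dj j) ∧
      ηb * pf'.SS ≤ (CZ * (2 * CS + 1 + CG)) * (ηb * pf.SS / ((β : ℝ) - α) +
        (∑ j ∈ Finset.Ico s (s + R.W), ∑ z ∈ box n (j + R.T + n), V j z) +
          R.e ^ (R.Q + 3) * ∑ j ∈ Finset.Icc (s - 4) (s + R.W + 4), R.Dj j) := by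
  obtain ⟨j1, j2, pf', h1, h2, h3, h4, h5⟩ := hS α β pf h40
  have he3 : 0 ≤ R.e ^ (R.Q + 3) := pow_nonneg R.e_pos.le _
  have hDj := fun j => Dj_nonneg' R j
  have hsub : ∀ a b : ℕ, s ≤ a → b ≤ s + R.W → ∑ i ∈ Finset.Icc a b, R.Dj i ≤
      ∑ j ∈ Finset.Icc (s - 4) (s + R.W + 4), R.Dj j := by
    intro a b ha hb
    refine Finset.sum_le_sum_of_subset_of_nonneg ?_ fun i _ _ => hDj i
    exact Finset.Icc_subset_Icc (by omega) (by omega)
  set Db := ∑ j ∈ Finset.Icc (s - 4) (s + R.W + 4), R.Dj j with hDb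
  set RV := ∑ j ∈ Finset.Ico s (s + R.W), ∑ z ∈ box n (j + R.T + n), V j z with hRV
  have hDb0 : 0 ≤ Db := Finset.sum_nonneg fun i _ => hDj i
  have hZp : ∀ j, j = j1 ∨ j = j2 → ηb * pf'.Zp j ≤
      CS * (ηb * pf.SS / ((β : ℝ) - α) + R.e ^ (R.Q + 3) * Db) := by
    intro j hj
    have h6 := mul_le_mul_of_nonneg_left (h5 j hj) hη0
    refine h6.trans ?_
    have h7 := hsub α β hsα hβs
    have h8 : ηb * (R.e ^ (R.Q + 3) * ∑ i ∈ Finset.Icc α β, R.Dj i) ≤ R.e ^ (R.Q + 3) * Db := by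
      calc ηb * (R.e ^ (R.Q + 3) * ∑ i ∈ Finset.Icc α β, R.Dj i) ≤
            1 * (R.e ^ (R.Q + 3) * Db) := by
              refine mul_le_mul hη1 (mul_le_mul_of_nonneg_left h7 he3) ?_ zero_le_one
              exact mul_nonneg he3 (Finset.sum_nonneg fun i _ => hDj i)
        _ = _ := one_mul _
    calc ηb * (CS * (pf.SS / ((β : ℝ) - α) + R.e ^ (R.Q + 3) * ∑ i ∈ Finset.Icc α β, R.Dj i)) =
          CS * (ηb * pf.SS / ((β : ℝ) - α) +
            ηb * (R.e ^ (R.Q + 3) * ∑ i ∈ Finset.Icc α β, R.Dj i)) := by ring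
      _ ≤ _ := mul_le_mul_of_nonneg_left (by linarith) (by linarith)
  refine ⟨j1, j2, pf', h1, h2, h3, h4, hZp j1 (Or.inl rfl), ?_⟩
  have h6 := hZ j1 j2 pf' h2 ηb V hη0 hη1 hV (hHV j1 j2 pf' (by omega) (by omega) h2)
  have h7 : pf'.SV V ≤ RV := by
    unfold Pf.SV
    refine Finset.sum_le_sum_of_subset_of_nonneg ?_ fun i _ _ => Finset.sum_nonneg fun z _ => hV i z
    exact Finset.Ico_subset_Ico (by omega) (by omega)
  have hRV0 : 0 ≤ RV := Finset.sum_nonneg fun i _ => Finset.sum_nonneg fun z _ => hV i z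
  have h8 : ∑ j ∈ Finset.Icc j1 j2, pf'.Er j ≤ (1 + CG) * (R.e ^ (R.Q + 3) * Db) := by
    have e1 : ∑ j ∈ Finset.Icc j1 j2, pf'.Er j =
        R.e ^ (R.Q + 3) * (∑ j ∈ Finset.Icc j1 j2, R.Dj j + ((j2 : ℝ) - j1 + 1) * pf'.a ^ n) := by
      unfold Pf.Er
      rw [← Finset.mul_sum, Finset.sum_add_distrib, Finset.sum_const, Nat.card_Icc, nsmul_eq_mul]
      congr 3
      rw [Nat.cast_sub (by omega)]
      push_cast
      ring
    rw [e1]
    have e2 := hG j1 j2 pf' h2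
    have e3 := hsub j1 j2 (by omega) (by omega)
    have e4 : 0 ≤ pf'.a ^ n := pow_nonneg pf'.a_nonneg n
    have e5 : ((j2 : ℝ) - j1 + 1) * pf'.a ^ n ≤ CG * Db := by
      calc ((j2 : ℝ) - j1 + 1) * pf'.a ^ n ≤ ((j2 : ℝ) - j1 + 3) * pf'.a ^ n :=
            mul_le_mul_of_nonneg_right (by linarith) e4
        _ ≤ CG * ∑ j ∈ Finset.Icc j1 j2, R.Dj j := e2
        _ ≤ CG * Db := mul_le_mul_of_nonneg_left e3 (by linarith)
    calc _ ≤ R.e ^ (R.Q + 3) * (Db + CG * Db) := mul_le_mul_of_nonneg_left (add_le_add e3 e5) he3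
      _ = _ := by ring
  have hx := hZp j1 (Or.inl rfl)
  have hy := hZp j2 (Or.inr rfl)
  -- nonnegativity of the first term
  have hE0 : 0 ≤ R.e ^ (R.Q + 3) * Db := mul_nonneg he3 hDb0
  have hβα : (0 : ℝ) ≤ (β : ℝ) - α := by
    have : (α : ℝ) + 40 ≤ β := by exact_mod_cast h40
    linarith
  have hA : 0 ≤ ηb * pf.SS / ((β : ℝ) - α) := div_nonneg (mul_nonneg hη0 hSS) hβα
  calc ηb * pf'.SS ≤ CZ * (ηb * (pf'.Zp j1 + pf'.Zp j2) + pf'.SV V +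
        ∑ j ∈ Finset.Icc j1 j2, pf'.Er j) := h6
      _ ≤ CZ * (2 * (CS * (ηb * pf.SS / ((β : ℝ) - α) + R.e ^ (R.Q + 3) * Db)) + RV +
          (1 + CG) * (R.e ^ (R.Q + 3) * Db)) := by
          refine mul_le_mul_of_nonneg_left ?_ (by linarith)
          rw [mul_add]
          linarith
      _ ≤ _ := by
          rw [mul_assoc CZ]
          refine mul_le_mul_of_nonneg_left ?_ (by linarith)
          linarith [mul_nonneg (by linarith : (0 : ℝ) ≤ 1 + CG) hA,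
            mul_nonneg (by linarith : (0 : ℝ) ≤ 2 * CS + CG) hRV0]

theorem iter {n m : ℕ} (P : Par n m) (Cp : ℝ) (hCp : 1 ≤ Cp) : UniQ P (fun C _ R =>
    (∀ α β : ℕ, R.k + R.W ≤ α → α + 2 ≤ β → β ≤ α + R.W → Nonempty (Pf R Cp α β)) →
    ∀ (s : ℕ) (ηb : ℝ) (V : ℕ → (Fin n → ℤ) → ℝ), R.k + R.W ≤ s → 0 ≤ ηb → ηb ≤ 1 →
      (∀ j z, 0 ≤ V j z) →
      (∀ (α β : ℕ) (pf : Pf R Cp α β), s ≤ α → β ≤ s + R.W → α + 2 ≤ β → pf.HV ηb V) →
      ∃ (mm j2 : ℕ) (pf : Pf R Cp mm j2), s ≤ mm ∧ mm + 2 ≤ j2 ∧ j2 ≤ s + R.W ∧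
        ηb * pf.Zp mm ≤ C * Real.sqrt R.e *
            (∑ j ∈ Finset.Ico s (s + R.W), ∑ z ∈ box n (j + R.T + n), V j z) +
          C * R.e ^ (R.Q + 3) * ∑ j ∈ Finset.Icc (s - 4) (s + R.W + 4), R.Dj j) := by
  obtain ⟨CS, t1, hCS, ht1, H1⟩ := step P Cp hCp
  obtain ⟨CZ, t2, hCZ, ht2, H2⟩ := win_Z P Cp hCp
  obtain ⟨C3, t3, hC3, ht3, H3⟩ := b_pow P
  obtain ⟨CG, hCG, hgn⟩ := pf_gn P Cp hCp
  refine ⟨min t1 (min t2 t3), lt_min ht1 (lt_min ht2 ht3), fun Q C₅ t₀ hC5 ht0 htt => ?_⟩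
  obtain ⟨e1, he1, he11, K1⟩ := H1 Q C₅ t₀ hC5 ht0 (htt.trans (min_le_left _ _))
  obtain ⟨e2, he2, -, K2⟩ := H2 Q C₅ t₀ hC5 ht0
    (htt.trans ((min_le_right _ _).trans (min_le_left _ _)))
  obtain ⟨e3, he3, -, K3⟩ := H3 Q C₅ t₀ hC5 ht0
    (htt.trans ((min_le_right _ _).trans (min_le_right _ _)))
  obtain ⟨K, hK⟩ : ∃ K : ℕ, K = 2 * (Q + 4) := ⟨_, rfl⟩
  obtain ⟨B, hB⟩ : ∃ B : ℝ, B = CZ * (2 * CS + 1 + CG) := ⟨_, rfl⟩
  have hB1 : 1 ≤ B := by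
    rw [hB]
    exact one_le_mul_of_one_le_of_one_le hCZ (by linarith)
  obtain ⟨F, hF⟩ : ∃ F : ℝ, F = 4 ^ (K + 1) := ⟨_, rfl⟩
  have hF4 : 4 ≤ F := by
    rw [hF]
    calc (4 : ℝ) = 4 ^ 1 := (pow_one _).symm
      _ ≤ 4 ^ (K + 1) := pow_le_pow_right₀ (by norm_num) (by omega)
  -- the threshold
  obtain ⟨G, hG⟩ : ∃ G : ℝ, G = (B * F) ^ K * CG := ⟨_, rfl⟩
  have hG0 : 0 < G := by
    rw [hG]
    positivity
  obtain ⟨e4, he4⟩ : ∃ e4 : ℝ, e4 = min ((1 / (40 * B * F)) ^ 2) (1 / G) := ⟨_, rfl⟩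
  have he40 : 0 < e4 := by
    rw [he4]
    exact lt_min (by positivity) (by positivity)
  refine ⟨CS * (F * (2 * B + 1) + 1), min (min e1 e2) (min e3 e4), ?_,
    lt_min (lt_min he1 he2) (lt_min he3 he40), ((min_le_left _ _).trans (min_le_left _ _)).trans he11,
    fun D R hR hex s ηb V hks hη0 hη1 hV hHV => ?_⟩
  · exact one_le_mul_of_one_le_of_one_le hCS (by
      have := mul_pos (by linarith : (0 : ℝ) < F) (by linarith : (0 : ℝ) < 2 * B + 1)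
      linarith)
  have hQ := hR.hQ
  have hS := K1 D R (hR.mono ((min_le_left _ _).trans (min_le_left _ _))) hex
  have hZ := K2 D R (hR.mono ((min_le_left _ _).trans (min_le_right _ _)))
  obtain ⟨hSm, -⟩ := K3 D R (hR.mono ((min_le_right _ _).trans (min_le_left _ _)))
  have hgn' := fun (α β : ℕ) (pf : Pf R Cp α β) (h : α + 2 ≤ β) => hgn D R α β pf h hSm
  have hee4 : R.e ≤ e4 := hR.e_le.trans ((min_le_right _ _).trans (min_le_right _ _))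
  have he0 := R.e_pos
  have hsq0 : 0 < Real.sqrt R.e := Real.sqrt_pos.2 he0
  have hsqs : Real.sqrt R.e * Real.sqrt R.e = R.e := Real.mul_self_sqrt he0.le
  have hsq : Real.sqrt R.e * (40 * B * F) ≤ 1 := by
    have h1 : Real.sqrt R.e ≤ 1 / (40 * B * F) := by
      rw [Real.sqrt_le_left (by positivity)]
      refine hee4.trans ?_
      rw [he4]
      exact min_le_left _ _
    rwa [le_div_iff₀ (by positivity)] at h1
  have heG : R.e * G ≤ 1 := by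
    have h1 : R.e ≤ 1 / G := by
      refine hee4.trans ?_
      rw [he4]
      exact min_le_right _ _
    rwa [le_div_iff₀ hG0] at h1
  have hDj := fun j => Dj_nonneg' R j
  have he3' : 0 ≤ R.e ^ (R.Q + 3) := pow_nonneg he0.le _
  obtain ⟨Db, hDb⟩ : ∃ Db, Db = ∑ j ∈ Finset.Icc (s - 4) (s + R.W + 4), R.Dj j := ⟨_, rfl⟩
  obtain ⟨RV, hRV⟩ : ∃ RV, RV = ∑ j ∈ Finset.Ico s (s + R.W), ∑ z ∈ box n (j + R.T + n), V j z :=
    ⟨_, rfl⟩
  have hDb0 : 0 ≤ Db := by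
    rw [hDb]
    exact Finset.sum_nonneg fun i _ => hDj i
  have hRV0 : 0 ≤ RV := by
    rw [hRV]
    exact Finset.sum_nonneg fun i _ => Finset.sum_nonneg fun z _ => hV i z
  have hE0 : 0 ≤ R.e ^ (R.Q + 3) * Db := mul_nonneg he3' hDb0
  have hSS0 : ∀ (α β : ℕ) (pf : Pf R Cp α β), α + 2 ≤ β → 0 ≤ pf.SS := by
    intro α β pf h
    unfold Pf.SS
    refine Finset.sum_nonneg fun j hj => ?_
    rw [Finset.mem_Icc] at hj
    exact ((hgn' α β pf h).1 j hj.1 hj.2).2.2.2.2.1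
  -- W is large
  have hW : 40 * B * F ≤ R.W := by
    have h1 := R.W1
    have h2 : Real.sqrt R.e * (40 * B * F) ≤ Real.sqrt R.e * R.W := by linarith
    exact le_of_mul_le_mul_left h2 hsq0
  have hW160 : 160 ≤ R.W := by
    have h1 : (160 : ℝ) ≤ R.W := by
      have h2 := mul_le_mul hB1 hF4 (by norm_num) (by linarith)
      linarith
    exact_mod_cast h1
  have hstep := @it_step n m P Cp CS CZ CG hCS hCZ hCG D R s ηb V hη0 hη1 hV hHV hS hZ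
    (fun α β pf h => (hgn' α β pf h).2.2)
  rw [← hDb, ← hRV, ← hB] at hstep
  have hθ : B * F * Real.sqrt R.e ≤ 1 / 2 := by linarith
  -- length of the block
  have hlen : ∀ (i α β : ℕ), i ≤ K → (R.W : ℝ) ≤ 4 ^ (i + 1) * ((β : ℝ) - α) →
      (α : ℝ) + 40 ≤ β ∧ ∀ y : ℝ, 0 ≤ y → y / ((β : ℝ) - α) ≤ F * Real.sqrt R.e * y := by
    intro i α β hi h
    have h1 : (4 : ℝ) ^ (i + 1) ≤ F := by
      rw [hF]
      exact pow_le_pow_right₀ (by norm_num) (by omega)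
    have h2 : 0 < (β : ℝ) - α := by
      by_contra hcon
      rw [not_lt] at hcon
      have h3 : (4 : ℝ) ^ (i + 1) * ((β : ℝ) - α) ≤ 0 :=
        mul_nonpos_of_nonneg_of_nonpos (by positivity) hcon
      have h4 : (160 : ℝ) ≤ R.W := by exact_mod_cast hW160
      linarith
    have h3 : (R.W : ℝ) ≤ F * ((β : ℝ) - α) := h.trans (mul_le_mul_of_nonneg_right h1 h2.le)
    constructor
    · have h4 : F * 40 ≤ F * ((β : ℝ) - α) := by
        have h5 := mul_le_mul_of_nonneg_right hB1 (show 0 ≤ F by linarith)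
        linarith
      have h5 := le_of_mul_le_mul_left h4 (by linarith)
      linarith
    · intro y hy
      rw [div_le_iff₀ h2]
      have h4 : 1 ≤ F * Real.sqrt R.e * ((β : ℝ) - α) := by
        have h5 := mul_le_mul_of_nonneg_right h3 hsq0.le
        have h6 := R.W1
        linarith
      have h7 := mul_le_mul_of_nonneg_right h4 hy
      linarith
  -- the iteration
  have main : ∀ i, i ≤ K → ∃ (α β : ℕ) (pf : Pf R Cp α β), s + 2 ≤ α ∧ β + 2 ≤ s + R.W ∧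
      α + 2 ≤ β ∧ (R.W : ℝ) ≤ 4 ^ (i + 1) * ((β : ℝ) - α) ∧
      ηb * pf.SS ≤ (B * F * Real.sqrt R.e) ^ i * (CG * Db) + 2 * B * (RV + R.e ^ (R.Q + 3) * Db) := by
    intro i
    induction i with
    | zero =>
      intro _
      obtain ⟨pf⟩ := hex (s + 2) (s + R.W - 2) (by omega) (by omega) (by omega)
      refine ⟨s + 2, s + R.W - 2, pf, le_rfl, by omega, by omega, ?_, ?_⟩
      · have h1 : ((s + R.W - 2 : ℕ) : ℝ) = s + R.W - 2 := by
          rw [Nat.cast_sub (by omega)]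
          push_cast
          ring
        rw [h1]
        push_cast
        have h2 : (160 : ℝ) ≤ R.W := by exact_mod_cast hW160
        linarith
      · have h1 := (hgn' _ _ pf (by omega)).2.1
        have h2 := hSS0 _ _ pf (by omega)
        have h3 : ∑ j ∈ Finset.Icc (s + 2 - 1) (s + R.W - 2 + 1), R.Dj j ≤ Db := by
          rw [hDb]
          refine Finset.sum_le_sum_of_subset_of_nonneg ?_ fun i _ _ => hDj i
          exact Finset.Icc_subset_Icc (by omega) (by omega)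
        calc ηb * pf.SS ≤ 1 * pf.SS := mul_le_mul_of_nonneg_right hη1 h2
          _ = pf.SS := one_mul _
          _ ≤ CG * ∑ j ∈ Finset.Icc (s + 2 - 1) (s + R.W - 2 + 1), R.Dj j := h1
          _ ≤ CG * Db := mul_le_mul_of_nonneg_left h3 (by linarith)
          _ ≤ _ := by
            rw [pow_zero, one_mul]
            have : 0 ≤ 2 * B * (RV + R.e ^ (R.Q + 3) * Db) := by positivity
            linarith
    | succ i ih =>
      intro hi
      obtain ⟨α, β, pf, h1, h2, h3, h4, h5⟩ := ih (by omega)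
      obtain ⟨h6, h7⟩ := hlen i α β (by omega) h4
      have h40 : α + 40 ≤ β := by exact_mod_cast h6
      obtain ⟨j1, j2, pf', g1, g2, g3, g4, -, g5⟩ := hstep pf (hSS0 α β pf h3) h40 (by omega) (by omega)
      refine ⟨j1, j2, pf', by omega, by omega, g2, ?_, ?_⟩
      · calc (R.W : ℝ) ≤ 4 ^ (i + 1) * ((β : ℝ) - α) := h4
          _ ≤ 4 ^ (i + 1) * (4 * ((j2 : ℝ) - j1)) := mul_le_mul_of_nonneg_left g4 (by positivity)
          _ = 4 ^ (i + 1 + 1) * ((j2 : ℝ) - j1) := by ring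
      · have h8 := h7 (ηb * pf.SS) (mul_nonneg hη0 (hSS0 α β pf h3))
        have h9 : B * (ηb * pf.SS / ((β : ℝ) - α)) ≤ B * F * Real.sqrt R.e * (ηb * pf.SS) := by
          calc _ ≤ B * (F * Real.sqrt R.e * (ηb * pf.SS)) := mul_le_mul_of_nonneg_left h8 (by linarith)
            _ = _ := by ring
        have hθ0 : 0 ≤ B * F * Real.sqrt R.e := by positivity
        have h10 := mul_le_mul_of_nonneg_left h5 hθ0
        have h11 : B * F * Real.sqrt R.e * (2 * B * (RV + R.e ^ (R.Q + 3) * Db)) ≤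
            1 / 2 * (2 * B * (RV + R.e ^ (R.Q + 3) * Db)) :=
          mul_le_mul_of_nonneg_right hθ (by positivity)
        calc ηb * pf'.SS ≤ B * (ηb * pf.SS / ((β : ℝ) - α) + RV + R.e ^ (R.Q + 3) * Db) := g5
          _ = B * (ηb * pf.SS / ((β : ℝ) - α)) + B * (RV + R.e ^ (R.Q + 3) * Db) := by ring
          _ ≤ B * F * Real.sqrt R.e * (ηb * pf.SS) + B * (RV + R.e ^ (R.Q + 3) * Db) := by linarith
          _ ≤ B * F * Real.sqrt R.e * ((B * F * Real.sqrt R.e) ^ i * (CG * Db) +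
              2 * B * (RV + R.e ^ (R.Q + 3) * Db)) + B * (RV + R.e ^ (R.Q + 3) * Db) := by linarith
          _ = (B * F * Real.sqrt R.e) ^ (i + 1) * (CG * Db) +
              B * F * Real.sqrt R.e * (2 * B * (RV + R.e ^ (R.Q + 3) * Db)) +
              B * (RV + R.e ^ (R.Q + 3) * Db) := by ring
          _ ≤ (B * F * Real.sqrt R.e) ^ (i + 1) * (CG * Db) +
              1 / 2 * (2 * B * (RV + R.e ^ (R.Q + 3) * Db)) +
              B * (RV + R.e ^ (R.Q + 3) * Db) := by linarith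
          _ = _ := by ring
  obtain ⟨α, β, pf, h1, h2, h3, h4, h5⟩ := main K le_rfl
  obtain ⟨h6, h7⟩ := hlen K α β le_rfl h4
  have h40 : α + 40 ≤ β := by exact_mod_cast h6
  obtain ⟨j1, j2, pf', g1, g2, g3, g4, g5, -⟩ := hstep pf (hSS0 α β pf h3) h40 (by omega) (by omega)
  refine ⟨j1, j2, pf', by omega, g2, by omega, ?_⟩
  rw [← hDb, ← hRV]
  have h8 : (B * F * Real.sqrt R.e) ^ K * (CG * Db) ≤ R.e ^ (R.Q + 3) * Db := by
    have h9 : Real.sqrt R.e ^ K = R.e ^ (Q + 4) := by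
      rw [hK, pow_mul, pow_two, hsqs]
    calc (B * F * Real.sqrt R.e) ^ K * (CG * Db) = (R.e * G) * R.e ^ (Q + 3) * Db := by
          rw [mul_pow, h9, hG]
          ring
      _ ≤ 1 * R.e ^ (Q + 3) * Db := by gcongr
      _ = R.e ^ (R.Q + 3) * Db := by rw [one_mul, hQ]
  have h9 := h7 (ηb * pf.SS) (mul_nonneg hη0 (hSS0 α β pf h3))
  have h10 : ηb * pf.SS ≤ (2 * B + 1) * (RV + R.e ^ (R.Q + 3) * Db) := by linarith
  have h11 : F * Real.sqrt R.e * (ηb * pf.SS) ≤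
      F * Real.sqrt R.e * ((2 * B + 1) * (RV + R.e ^ (R.Q + 3) * Db)) :=
    mul_le_mul_of_nonneg_left h10 (by positivity)
  have hsq1 : Real.sqrt R.e ≤ 1 := by
    rw [Real.sqrt_le_one]
    exact R.e_le
  calc ηb * pf'.Zp j1 ≤ CS * (ηb * pf.SS / ((β : ℝ) - α) + R.e ^ (R.Q + 3) * Db) := g5
    _ ≤ CS * (F * Real.sqrt R.e * ((2 * B + 1) * (RV + R.e ^ (R.Q + 3) * Db)) +
        R.e ^ (R.Q + 3) * Db) := mul_le_mul_of_nonneg_left (by linarith) (by linarith)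
    _ = CS * (F * (2 * B + 1)) * Real.sqrt R.e * RV +
        CS * (F * (2 * B + 1) * Real.sqrt R.e + 1) * (R.e ^ (R.Q + 3) * Db) := by ring
    _ ≤ CS * (F * (2 * B + 1) + 1) * Real.sqrt R.e * RV +
        CS * (F * (2 * B + 1) + 1) * (R.e ^ (R.Q + 3) * Db) := by
        have p1 : 0 ≤ F * (2 * B + 1) := by positivity
        have p2 : F * (2 * B + 1) * Real.sqrt R.e ≤ F * (2 * B + 1) :=
          mul_le_of_le_one_right p1 hsq1
        gcongr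
        linarith
    _ = _ := by ring

end H60NT
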