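import Pool.Agent.H60.NT.Def

/-!
# [H60 NT CLAMP] A smooth clamp

`h s = α - 1/2 + ∫_{α - 1/2}^s g`-type construction, or by a smooth step function (`Real.smoothTransition`):
`h(s) = s` on `[α, β]`, `h` constant for `s ≤ α - 1` and for `s ≥ β + 1`, `α - 1 ≤ h ≤ β + 1`. For instance
`h(s) = s σ₁(s) σ₂(s) + α (1 - σ₁(s)) + β (1 - σ₂(s))` with `σ₁ = smoothTransition (s - α + 1)` (`0` for `s ≤ α - 1`, `1` for
`s ≥ α`) and `σ₂ = smoothTransition (β + 1 - s)`: on `[α-1, α]` it is a convex combination of `s` and `α`, on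
`[β, β+1]` of `s` and `β`, outside it equals `α`, resp. `β`.
-/

set_option autoImplicit false

namespace H60NT

open H60NH MeasureTheory Metric Set Filter Topology
open scoped ENNReal NNReal ContDiff

theorem exists_clamp (α β : ℝ) (h : α ≤ β) : ∃ g : ℝ → ℝ, ContDiff ℝ ∞ g ∧
    (∀ s, α ≤ s → s ≤ β → g s = s) ∧ (∀ s, α - 1 ≤ g s ∧ g s ≤ β + 1) ∧
    (∀ s, s ≤ α - 1 → g s = α) ∧ (∀ s, β + 1 ≤ s → g s = β) := by
  obtain ⟨g, hg⟩ : ∃ g : ℝ → ℝ, ∀ s, g s = s * (Real.smoothTransition (s - α + 1) *
      Real.smoothTransition (β + 1 - s)) + α * (1 - Real.smoothTransition (s - α + 1)) +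
      β * (1 - Real.smoothTransition (β + 1 - s)) := ⟨_, fun _ => rfl⟩
  have h1 : ∀ s, α ≤ s → Real.smoothTransition (s - α + 1) = 1 := fun s hs =>
    Real.smoothTransition.one_of_one_le (by linarith)
  have h2 : ∀ s, s ≤ α - 1 → Real.smoothTransition (s - α + 1) = 0 := fun s hs =>
    Real.smoothTransition.zero_of_nonpos (by linarith)
  have h3 : ∀ s, s ≤ β → Real.smoothTransition (β + 1 - s) = 1 := fun s hs =>
    Real.smoothTransition.one_of_one_le (by linarith)
  have h4 : ∀ s, β + 1 ≤ s → Real.smoothTransition (β + 1 - s) = 0 := fun s hs =>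
    Real.smoothTransition.zero_of_nonpos (by linarith)
  have hlow : ∀ s, s ≤ α - 1 → g s = α := by
    intro s hs
    rw [hg, h2 s hs, h3 s (by linarith)]
    ring
  have hhigh : ∀ s, β + 1 ≤ s → g s = β := by
    intro s hs
    rw [hg, h1 s (by linarith), h4 s hs]
    ring
  have hmid : ∀ s, α ≤ s → s ≤ β → g s = s := by
    intro s hs hs'
    rw [hg, h1 s hs, h3 s hs']
    ring
  refine ⟨g, ?_, hmid, ?_, hlow, hhigh⟩
  · have h5 : g = fun s => s * (Real.smoothTransition (s - α + 1) *
      Real.smoothTransition (β + 1 - s)) + α * (1 - Real.smoothTransition (s - α + 1)) +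
      β * (1 - Real.smoothTransition (β + 1 - s)) := funext hg
    have h6 : ContDiff ℝ ∞ (fun s : ℝ => Real.smoothTransition (s - α + 1)) :=
      Real.smoothTransition.contDiff.comp ((contDiff_id.sub contDiff_const).add contDiff_const)
    have h7 : ContDiff ℝ ∞ (fun s : ℝ => Real.smoothTransition (β + 1 - s)) :=
      Real.smoothTransition.contDiff.comp (contDiff_const.sub contDiff_id)
    rw [h5]
    exact ((contDiff_id.mul (h6.mul h7)).add (contDiff_const.mul (contDiff_const.sub h6))).add
      (contDiff_const.mul (contDiff_const.sub h7))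
  · intro s
    rcases le_total s (α - 1) with hs | hs
    · rw [hlow s hs]
      constructor <;> linarith
    rcases le_total (β + 1) s with hs' | hs'
    · rw [hhigh s hs']
      constructor <;> linarith
    rcases le_total s α with ha | ha
    · rw [hg, h3 s (by linarith)]
      have h5 := Real.smoothTransition.nonneg (s - α + 1)
      have h6 := Real.smoothTransition.le_one (s - α + 1)
      constructor <;> nlinarith
    rcases le_total β s with hb | hb
    · rw [hg, h1 s ha]
      have h5 := Real.smoothTransition.nonneg (β + 1 - s)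
      have h6 := Real.smoothTransition.le_one (β + 1 - s)
      constructor <;> nlinarith
    · rw [hmid s ha hb]
      constructor <;> linarith

end H60NT
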