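import Pool.Agent.H60.NT.YjStep
import Pool.Agent.H60.NT.Pow
import Pool.Agent.H60.NT.Clamp
import Pool.Agent.H60.NT.ChiF
import Pool.Agent.H60.NT.PfB

/-!
# [H60 NT EXPF] Existence of the profile

`s_β - s_α = (β - α) log 2 ≥ 1` since `β - α ≥ 2` (`log 2 ≥ 1/2`). `‖y_α - y_β‖ ≤ C e (β - α) ≤ C e W ≤ 2 C √e ≤ t₃` for
`e` small: `Geo.twopt` gives `Γ, V, a` with `a ≤ CG ‖y_α - y_β‖ / (s_β - s_α)`. Since `‖y_α - y_β‖ ≤ C e (β - α)`:
`a ≤ 2 CG C e`; `a (β - α) ≤ 2 CG ‖y_α - y_β‖ ≤ C' √e`; `‖y_α - y_β‖ ≤ ∑_{α ≤ j < β} ‖y_j - y_{j+1}‖`, `pow_mean` and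
`yj_step`: `(a (β - α))^n ≤ C (β - α)^(n-1) ∑ D_j`, divide by `(β-α)^(n-1)`.
`lam x = Γ (g (- log ‖x - x₀‖))` with the clamp `g` of the interval `[s_α - 3, s_β + 3]` (`exists_clamp`; `g` has values
in `[s_α - 4, s_β + 4]`, where `Γ ∈ N`); near `x₀` (`x = x₀` included, `Real.log 0 = 0` is a junk value: define
`lam x₀` separately or note that near `x₀` and `x ≠ x₀` `lam` is the constant `Γ (s_β + 3)`, so put
`lam x = Γ (g (- log (max ‖x - x₀‖ r)))`-like, or use `if x = x₀`): `lam` is `C^1` (constant near `x₀`; elsewhere a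
composition with `Γ`, which is `C^1` on the closed interval in the sense of `Geod.der` with the continuous derivative
`V`). On the annulus `1/(4 p2 β) ≤ ‖x - x₀‖ ≤ 8/p2 α`: `- log ‖x - x₀‖ ∈ [log p2 α - log 8, log p2 β + log 4]`, contained in
the interior of `[s_α - 3, s_β + 3]` (`log 8 < 2.1`, `log (3/2) > 0.4`), where `g s = s`, so the formula for the
derivative is the chain rule (`fderiv` of `‖x - x₀‖`).
-/

set_option autoImplicit false

namespace H60NT

open H60NH MeasureTheory Metric Set Filter Topology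
open scoped ENNReal NNReal ContDiff

/-- The function `Γ ∘ g` for a clamp `g`. -/
lemma exPf_gamma {m : ℕ} {N : Set (E m)} {π : E m → E m} {Γ V : ℝ → E m} {a s₁ s₂ : ℝ}
    (hG : Geod N π Γ V a (Icc s₁ s₂)) (g : ℝ → ℝ) (hg : ContDiff ℝ ∞ g)
    (hgI : ∀ s, g s ∈ Icc s₁ s₂) :
    ContDiff ℝ 1 (fun s => Γ (g s)) ∧ ∀ s, HasDerivAt (fun s => Γ (g s)) (deriv g s • V (g s)) s := by
  have hgd : ∀ s, HasDerivAt g (deriv g s) s := fun s =>
    ((hg.differentiable (by norm_num)).differentiableAt).hasDerivAt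
  have hd : ∀ s, HasDerivAt (fun s => Γ (g s)) (deriv g s • V (g s)) s := by
    intro s
    exact HasDerivAt.scomp s (hG.der (g s) (hgI s)) (hgd s)
  refine ⟨?_, hd⟩
  rw [contDiff_one_iff_deriv]
  refine ⟨fun s => (hd s).differentiableAt, ?_⟩
  have e : deriv (fun s => Γ (g s)) = fun s => deriv g s • V (g s) := by
    funext s
    exact (hd s).deriv
  rw [e]
  have hc : Continuous (fun s => V (g s)) := by
    rw [continuous_iff_continuousAt]
    intro s
    exact ContinuousAt.comp (hG.der2 (g s) (hgI s)).continuousAt hg.continuous.continuousAt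
  exact (hg.continuous_deriv (by norm_num)).smul hc

/-- The map `lam`. -/
lemma exPf_lam {n m : ℕ} {N : Set (E m)} {π : E m → E m} {Γ V : ℝ → E m} {a : ℝ} {α β : ℕ}
    (hαβ : α < β) (hG : Geod N π Γ V a (Icc (sj α - 4) (sj β + 4))) (x₀ : E n) :
    ∃ lam : E n → E m, ContDiff ℝ 1 lam ∧ (∀ x, lam x ∈ N) ∧
      (∀ x, 1 / (4 * p2 β) ≤ ‖x - x₀‖ → ‖x - x₀‖ ≤ 8 / p2 α → lam x = Γ (-Real.log ‖x - x₀‖)) ∧
      (∀ x, 1 / (4 * p2 β) ≤ ‖x - x₀‖ → ‖x - x₀‖ ≤ 8 / p2 α → ∀ h,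
        fderiv ℝ lam x h = (-(inner ℝ (x - x₀) h / ‖x - x₀‖ ^ 2)) • V (-Real.log ‖x - x₀‖)) := by
  have hsab : sj α ≤ sj β := by
    have h1 := pfB_sj_sub β α
    have h2 : (α : ℝ) < β := by exact_mod_cast hαβ
    have h3 := pfB_log2.1
    nlinarith
  obtain ⟨g, g1, g2, g3, g4, g5⟩ := exists_clamp (sj α - 3) (sj β + 3) (by linarith)
  have hgI : ∀ s, g s ∈ Icc (sj α - 4) (sj β + 4) := by
    intro s
    obtain ⟨h1, h2⟩ := g3 s
    constructor <;> linarith
  obtain ⟨c1, c2⟩ := exPf_gamma hG g g1 hgI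
  classical
  set lam : E n → E m := fun x => if x = x₀ then Γ (sj β + 3) else Γ (g (-Real.log ‖x - x₀‖))
    with hlam
  have hne : ∀ x, x ≠ x₀ → lam =ᶠ[𝓝 x] fun y => Γ (g (-Real.log ‖y - x₀‖)) := by
    intro x hx
    filter_upwards [isOpen_ne.mem_nhds hx] with y hy
    simp only [hlam]
    rw [if_neg hy]
  have heq : lam =ᶠ[𝓝 x₀] fun _ => Γ (sj β + 3) := by
    have hr : 0 < Real.exp (-(sj β + 4)) := Real.exp_pos _
    filter_upwards [ball_mem_nhds x₀ hr] with y hy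
    simp only [hlam]
    by_cases h : y = x₀
    · rw [if_pos h]
    · rw [if_neg h]
      rw [mem_ball, dist_eq_norm] at hy
      have hp : 0 < ‖y - x₀‖ := norm_pos_iff.mpr (sub_ne_zero.mpr h)
      have h1 := Real.log_lt_log hp hy
      rw [Real.log_exp] at h1
      rw [g5 _ (by linarith)]
  have hfd : ∀ x, x ≠ x₀ → HasFDerivAt (fun y : E n => -Real.log ‖y - x₀‖)
      (-(‖x - x₀‖⁻¹ • (((1 / ‖x - x₀‖) • innerSL ℝ (x - x₀)).comp
        (ContinuousLinearMap.id ℝ (E n))))) x := by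
    intro x hx
    have hx' : x - x₀ ≠ 0 := sub_ne_zero.mpr hx
    have k1 : HasFDerivAt (fun y : E n => y - x₀) (ContinuousLinearMap.id ℝ (E n)) x :=
      (hasFDerivAt_id x).sub_const x₀
    have k2 := (chif_norm (x - x₀) hx').comp x k1
    exact (k2.log (norm_ne_zero_iff.mpr hx')).neg
  refine ⟨lam, ?_, ?_, ?_, ?_⟩
  · rw [contDiff_iff_contDiffAt]
    intro x
    by_cases hx : x = x₀
    · rw [hx]
      exact contDiffAt_const.congr_of_eventuallyEq heq
    · refine ContDiffAt.congr_of_eventuallyEq ?_ (hne x hx)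
      have hx' : x - x₀ ≠ 0 := sub_ne_zero.mpr hx
      have k1 : ContDiffAt ℝ 1 (fun y : E n => -Real.log ‖y - x₀‖) x := by
        apply ContDiffAt.neg
        apply ContDiffAt.log
        · exact (contDiffAt_id.sub contDiffAt_const).norm ℝ hx'
        · exact norm_ne_zero_iff.mpr hx'
      exact c1.contDiffAt.comp x k1
  · intro x
    simp only [hlam]
    by_cases hx : x = x₀
    · rw [if_pos hx]
      apply hG.mem
      constructor <;> linarith
    · rw [if_neg hx]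
      exact hG.mem _ (hgI _)
  all_goals
    intro x h1 h2
    have ha := pfB_p2_pos α
    have hb := pfB_p2_pos β
    have hρ : 0 < ‖x - x₀‖ := lt_of_lt_of_le (by positivity) h1
    have hx : x ≠ x₀ := by
      intro h
      rw [h, sub_self, norm_zero] at hρ
      exact lt_irrefl _ hρ
    obtain ⟨l1, l2⟩ := pfB_log2
    obtain ⟨m1, m2⟩ := pfB_log32
    have e8 : Real.log 8 = 3 * Real.log 2 := by
      rw [show (8 : ℝ) = 2 ^ 3 by norm_num, Real.log_pow]
      norm_num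
    have e4 : Real.log 4 = 2 * Real.log 2 := by
      rw [show (4 : ℝ) = 2 ^ 2 by norm_num, Real.log_pow]
      norm_num
    have k1 := Real.log_le_log hρ h2
    rw [Real.log_div (by norm_num) ha.ne', e8] at k1
    have k2 := Real.log_le_log (by positivity) h1
    rw [one_div, Real.log_inv, Real.log_mul (by norm_num) hb.ne', e4] at k2
    have hs1 : sj α - 3 < -Real.log ‖x - x₀‖ := by
      unfold sj
      linarith
    have hs2 : -Real.log ‖x - x₀‖ < sj β + 3 := by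
      unfold sj
      linarith
  · simp only [hlam]
    rw [if_neg hx, g2 _ hs1.le hs2.le]
  · intro h
    rw [(hne x hx).fderiv_eq]
    have k3 := (c2 (-Real.log ‖x - x₀‖)).hasFDerivAt.comp x (hfd x hx)
    have k4 : fderiv ℝ (fun y : E n => Γ (g (-Real.log ‖y - x₀‖))) x = _ := k3.fderiv
    rw [k4]
    have k5 : deriv g (-Real.log ‖x - x₀‖) = 1 := by
      have : g =ᶠ[𝓝 (-Real.log ‖x - x₀‖)] fun s => s := by
        filter_upwards [Ioo_mem_nhds hs1 hs2] with s hs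
        exact g2 s hs.1.le hs.2.le
      rw [this.deriv_eq, deriv_id'']
    have k6 : g (-Real.log ‖x - x₀‖) = -Real.log ‖x - x₀‖ := g2 _ hs1.le hs2.le
    rw [k5, k6, one_smul]
    simp only [ContinuousLinearMap.comp_apply, ContinuousLinearMap.toSpanSingleton_apply,
      neg_apply, smul_apply, ContinuousLinearMap.id_apply, innerSL_apply_apply, smul_eq_mul]
    congr 1
    field_simp

theorem exists_pf {n m : ℕ} (P : Par n m) : Uni P (fun C _ R =>
    ∀ α β : ℕ, R.k + R.W ≤ α → α + 2 ≤ β → β ≤ α + R.W → Nonempty (Pf R C α β)) := by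
  have hn := P.hn
  obtain ⟨C₁, t₁, hC₁, ht₁, H₁⟩ := yj_facts P
  obtain ⟨C₂, t₂, hC₂, ht₂, H₂⟩ := yj_step P
  have hCG := P.hG.one_le
  have hC0 : 1 ≤ (2 * P.CG) ^ n * C₂ := by
    have : (1 : ℝ) ≤ (2 * P.CG) ^ n := one_le_pow₀ (by linarith)
    nlinarith
  have hC1 : 0 ≤ 4 * P.CG * C₂ := by positivity
  refine ⟨(2 * P.CG) ^ n * C₂ + 4 * P.CG * C₂, min t₁ t₂, by linarith, lt_min ht₁ ht₂, ?_⟩
  intro Q C₅ t₀ h5 h0 h
  obtain ⟨e₁, he₁, he₁1, K₁⟩ := H₁ Q C₅ t₀ h5 h0 (h.trans (min_le_left _ _))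
  obtain ⟨e₂, he₂, he₂1, K₂⟩ := H₂ Q C₅ t₀ h5 h0 (h.trans (min_le_right _ _))
  have ht3 := P.hG.t_pos
  refine ⟨min (min e₁ e₂) ((P.t₃ / (2 * C₂)) ^ 2), lt_min (lt_min he₁ he₂) (by positivity),
    ((min_le_left _ _).trans (min_le_left _ _)).trans he₁1, ?_⟩
  intro D R hR α β hα hαβ hβ
  have F₁ := K₁ D R (hR.mono ((min_le_left _ _).trans (min_le_left _ _)))
  obtain ⟨F₂, F₃⟩ := K₂ D R (hR.mono ((min_le_left _ _).trans (min_le_right _ _)))
  have he3 : Real.sqrt R.e ≤ P.t₃ / (2 * C₂) := by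
    have h1 : R.e ≤ (P.t₃ / (2 * C₂)) ^ 2 := hR.e_le.trans (min_le_right _ _)
    calc Real.sqrt R.e ≤ Real.sqrt ((P.t₃ / (2 * C₂)) ^ 2) := Real.sqrt_le_sqrt h1
      _ = P.t₃ / (2 * C₂) := Real.sqrt_sq (by positivity)
  obtain ⟨n1, n2, n3, n4, n5, n6, n7⟩ := rc_num R
  have hkα : R.k + 1 ≤ α := by omega
  have he0 := R.e_pos
  have hd := F₃ α β hkα (by omega)
  set d := ‖R.yj α - R.yj β‖ with hdd
  have hd0 : 0 ≤ d := norm_nonneg _
  have hβα : (2 : ℝ) ≤ (β : ℝ) - α := by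
    have : (α : ℝ) + 2 ≤ β := by exact_mod_cast hαβ
    linarith
  have hβW : (β : ℝ) - α ≤ R.W := by
    have : (β : ℝ) ≤ α + R.W := by exact_mod_cast hβ
    linarith
  have hd1 : d ≤ 2 * C₂ * Real.sqrt R.e := by
    calc d ≤ C₂ * R.e * ((β : ℝ) - α) := hd
      _ ≤ C₂ * R.e * R.W := mul_le_mul_of_nonneg_left hβW (by positivity)
      _ = C₂ * (R.e * R.W) := by ring
      _ ≤ C₂ * (2 * Real.sqrt R.e) := mul_le_mul_of_nonneg_left n1 (by linarith)
      _ = 2 * C₂ * Real.sqrt R.e := by ring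
  have hd2 : d ≤ P.t₃ := by
    refine hd1.trans ?_
    have := mul_le_mul_of_nonneg_left he3 (show 0 ≤ 2 * C₂ by positivity)
    have e : 2 * C₂ * (P.t₃ / (2 * C₂)) = P.t₃ := by field_simp
    rwa [e] at this
  have hlog := pfB_log2
  have hlog2 : 1 / 2 ≤ Real.log 2 := by
    have := Real.log_two_gt_d9
    linarith
  have hss := pfB_sj_sub β α
  obtain ⟨Γ, V, a, ha0, ha1, hG, hΓα, hΓβ⟩ := P.hG.twopt _ (F₁ α hkα).1 _ (F₁ β (by omega)).1 hd2
    (sj α) (sj β) (by nlinarith)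
  rw [← hdd] at ha1
  have ha2 : a * ((β : ℝ) - α) ≤ 2 * P.CG * d := by
    have h1 : 0 < sj β - sj α := by rw [hss]; nlinarith
    rw [le_div_iff₀ h1, hss] at ha1
    have h2 : a * (((β : ℝ) - α) * (1 / 2)) ≤ a * (((β : ℝ) - α) * Real.log 2) :=
      mul_le_mul_of_nonneg_left (mul_le_mul_of_nonneg_left hlog2 (by linarith)) ha0
    linarith
  have hcge : ∀ x y : ℝ, 0 ≤ y → x ≤ 4 * P.CG * C₂ * y →
      x ≤ ((2 * P.CG) ^ n * C₂ + 4 * P.CG * C₂) * y := by
    intro x y hy hx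
    have : 0 ≤ (2 * P.CG) ^ n * C₂ * y := by positivity
    linarith
  obtain ⟨lam, q1, q2, q3, q4⟩ := exPf_lam (by omega : α < β) hG R.x₀
  refine ⟨⟨Γ, V, a, lam, by omega, hα, hβ, hG, hΓα, hΓβ, ha0, ?_, ?_, ?_, q1, q2, q3, q4⟩⟩
  · apply hcge _ _ he0.le
    have h1 : a * ((β : ℝ) - α) ≤ 2 * P.CG * (C₂ * R.e) * ((β : ℝ) - α) := by
      calc a * ((β : ℝ) - α) ≤ 2 * P.CG * d := ha2
        _ ≤ 2 * P.CG * (C₂ * R.e * ((β : ℝ) - α)) := mul_le_mul_of_nonneg_left hd (by positivity)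
        _ = 2 * P.CG * (C₂ * R.e) * ((β : ℝ) - α) := by ring
    have h2 := le_of_mul_le_mul_right h1 (by linarith)
    have h3 : 0 ≤ P.CG * C₂ * R.e := by positivity
    linarith
  · apply hcge _ _ (Real.sqrt_nonneg _)
    calc a * ((β : ℝ) - α) ≤ 2 * P.CG * d := ha2
      _ ≤ 2 * P.CG * (2 * C₂ * Real.sqrt R.e) := mul_le_mul_of_nonneg_left hd1 (by positivity)
      _ = 4 * P.CG * C₂ * Real.sqrt R.e := by ring
  · have hb0 : 0 < (β : ℝ) - α := by linarith
    have hDj : ∀ j, 0 ≤ R.Dj j := by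
      intro j
      unfold RC.Dj
      apply setIntegral_nonneg_of_ae
      exact ae_of_all _ (fun x => pow_nonneg (D.hf.nonneg x) n)
    have h1 : d ≤ ∑ j ∈ Finset.Ico α β, ‖R.yj j - R.yj (j + 1)‖ := by
      have key : ∀ b, α ≤ b → ‖R.yj α - R.yj b‖ ≤
          ∑ j ∈ Finset.Ico α b, ‖R.yj j - R.yj (j + 1)‖ := by
        intro b hb
        induction b, hb using Nat.le_induction with
        | base => simp
        | succ b hb ih =>
          rw [Finset.sum_Ico_succ_top hb]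
          have := norm_sub_le_norm_sub_add_norm_sub (R.yj α) (R.yj b) (R.yj (b + 1))
          linarith
      exact key β (by omega)
    have h2 : d ^ n ≤ ((β : ℝ) - α) ^ (n - 1) * (C₂ * ∑ j ∈ Finset.Icc α β, R.Dj j) := by
      have g1 := pow_mean (Finset.Ico α β) (fun j => ‖R.yj j - R.yj (j + 1)‖)
        (fun j _ => norm_nonneg _) n (by omega)
      have g2 : d ^ n ≤ (∑ j ∈ Finset.Ico α β, ‖R.yj j - R.yj (j + 1)‖) ^ n :=
        pow_le_pow_left₀ hd0 h1 n
      have g3 : ∑ j ∈ Finset.Ico α β, ‖R.yj j - R.yj (j + 1)‖ ^ n ≤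
          C₂ * ∑ j ∈ Finset.Icc α β, R.Dj j := by
        have g4 : ∑ j ∈ Finset.Ico α β, ‖R.yj j - R.yj (j + 1)‖ ^ n ≤
            ∑ j ∈ Finset.Ico α β, C₂ * R.Dj j := by
          apply Finset.sum_le_sum
          intro j hj
          rw [Finset.mem_Ico] at hj
          exact (F₂ j (by omega)).2
        refine g4.trans ?_
        rw [← Finset.mul_sum]
        apply mul_le_mul_of_nonneg_left _ (by linarith)
        apply Finset.sum_le_sum_of_subset_of_nonneg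
        · intro j hj
          rw [Finset.mem_Ico] at hj
          rw [Finset.mem_Icc]
          omega
        · intro j _ _
          exact hDj j
      have g5 : (((Finset.Ico α β).card : ℕ) : ℝ) = (β : ℝ) - α := by
        rw [Nat.card_Ico, Nat.cast_sub (by omega)]
      rw [g5] at g1
      exact g2.trans (g1.trans (mul_le_mul_of_nonneg_left g3 (by positivity)))
    have h3 : (a * ((β : ℝ) - α)) ^ n ≤ (2 * P.CG) ^ n * d ^ n := by
      rw [← mul_pow]
      exact pow_le_pow_left₀ (by positivity) ha2 n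
    have h4 : ((β : ℝ) - α) * a ^ n * ((β : ℝ) - α) ^ (n - 1) ≤
        (2 * P.CG) ^ n * C₂ * (∑ j ∈ Finset.Icc α β, R.Dj j) * ((β : ℝ) - α) ^ (n - 1) := by
      have e : ((β : ℝ) - α) * a ^ n * ((β : ℝ) - α) ^ (n - 1) = (a * ((β : ℝ) - α)) ^ n := by
        obtain ⟨k, rfl⟩ : ∃ k, n = k + 1 := ⟨n - 1, by omega⟩
        rw [Nat.add_sub_cancel, mul_pow, pow_succ ((β : ℝ) - α) k]
        ring
      rw [e]
      calc (a * ((β : ℝ) - α)) ^ n ≤ (2 * P.CG) ^ n * d ^ n := h3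
        _ ≤ (2 * P.CG) ^ n * (((β : ℝ) - α) ^ (n - 1) * (C₂ * ∑ j ∈ Finset.Icc α β, R.Dj j)) :=
            mul_le_mul_of_nonneg_left h2 (by positivity)
        _ = _ := by ring
    have h5 := le_of_mul_le_mul_right h4 (by positivity)
    have h6 : 0 ≤ 4 * P.CG * C₂ * ∑ j ∈ Finset.Icc α β, R.Dj j :=
      mul_nonneg hC1 (Finset.sum_nonneg (fun j _ => hDj j))
    linarith

end H60NT
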