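import Pool.Agent.H60.NT.Def
import Pool.Agent.H60.NH.MErr

/-!
# [H60 NT ERR2] The errors of the approximation tend to zero on the ball of radius 2

Adaptation of the proved module `NH/MErr.lean` (`err_lim`, `err_int`): the same proof with `ball 0 1`
replaced by `ball 0 2` (everything there works inside `ball 0 4`; `der_Ln` is on `ball 0 8`).
-/

set_option autoImplicit false

namespace H60NT

open H60NH MeasureTheory Metric Set Filter Topology
open scoped ENNReal NNReal ContDiff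

private theorem err2_young {a b t : ℝ} (ha : 0 ≤ a) (hb : 0 ≤ b) (ht : 0 < t) {n : ℕ}
    (hn : 1 ≤ n) : a ^ (n - 1) * b ≤ t * a ^ n + (t ^ (n - 1))⁻¹ * b ^ n := by
  obtain ⟨p, rfl⟩ : ∃ p, n = p + 1 := ⟨n - 1, by omega⟩
  simp only [Nat.add_sub_cancel]
  rcases le_total b (t * a) with h | h
  · have h1 : a ^ p * b ≤ a ^ p * (t * a) := by gcongr
    have h2 : a ^ p * (t * a) = t * a ^ (p + 1) := by ring
    have h3 : 0 ≤ (t ^ p)⁻¹ * b ^ (p + 1) := by positivity
    linarith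
  · have h0 : a ≤ b / t := by rw [le_div_iff₀ ht]; linarith
    have h1 : a ^ p * b ≤ (b / t) ^ p * b := by gcongr
    have h2 : (b / t) ^ p * b = (t ^ p)⁻¹ * b ^ (p + 1) := by
      rw [div_pow, pow_succ]
      field_simp
    have h3 : 0 ≤ t * a ^ (p + 1) := by positivity
    linarith

private theorem err2_hold {α : Type*} [MeasurableSpace α] {μ : Measure α} {f : α → ℝ}
    {g : ℕ → α → ℝ} {n : ℕ} (hn : 1 ≤ n) (hf0 : ∀ x, 0 ≤ f x) (hg0 : ∀ k x, 0 ≤ g k x)
    (hfm : AEStronglyMeasurable f μ) (hgm : ∀ k, AEStronglyMeasurable (g k) μ)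
    (hfn : Integrable (fun x => f x ^ n) μ) (hgn : ∀ k, Integrable (fun x => g k x ^ n) μ)
    (hlim : Tendsto (fun k => ∫ x, g k x ^ n ∂μ) atTop (𝓝 0)) :
    (∀ k, Integrable (fun x => f x ^ (n - 1) * g k x) μ) ∧
      Tendsto (fun k => ∫ x, f x ^ (n - 1) * g k x ∂μ) atTop (𝓝 0) := by
  have hi : ∀ k, Integrable (fun x => f x ^ (n - 1) * g k x) μ := by
    intro k
    refine Integrable.mono' ((hfn.const_mul 1).add ((hgn k).const_mul ((1:ℝ) ^ (n - 1))⁻¹))
      ((hfm.pow (n - 1)).mul (hgm k)) ?_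
    filter_upwards with x
    rw [Real.norm_of_nonneg (mul_nonneg (pow_nonneg (hf0 x) _) (hg0 k x))]
    exact err2_young (hf0 x) (hg0 k x) one_pos hn
  refine ⟨hi, ?_⟩
  have hI0 : 0 ≤ ∫ x, f x ^ n ∂μ := integral_nonneg fun x => pow_nonneg (hf0 x) _
  rw [Metric.tendsto_atTop] at hlim ⊢
  intro ε hε
  obtain ⟨t, ht0, ht⟩ : ∃ t : ℝ, 0 < t ∧ t * (∫ x, f x ^ n ∂μ) < ε / 2 := by
    refine ⟨ε / (2 * ((∫ x, f x ^ n ∂μ) + 1)), by positivity, ?_⟩
    rw [div_mul_eq_mul_div, div_lt_div_iff₀ (by positivity) (by norm_num)]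
    nlinarith
  have htp : 0 < t ^ (n - 1) := by positivity
  obtain ⟨K, hK⟩ := hlim (t ^ (n - 1) * (ε / 2)) (by positivity)
  refine ⟨K, fun k hk => ?_⟩
  have h1 := hK k hk
  rw [Real.dist_eq, sub_zero,
    abs_of_nonneg (integral_nonneg fun x => pow_nonneg (hg0 k x) _)] at h1
  rw [Real.dist_eq, sub_zero, abs_of_nonneg (integral_nonneg fun x =>
    mul_nonneg (pow_nonneg (hf0 x) _) (hg0 k x))]
  have h2 : ∫ x, f x ^ (n - 1) * g k x ∂μ ≤
      ∫ x, (t * f x ^ n + (t ^ (n - 1))⁻¹ * g k x ^ n) ∂μ := by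
    refine integral_mono (hi k) ((hfn.const_mul t).add ((hgn k).const_mul _)) ?_
    intro x
    exact err2_young (hf0 x) (hg0 k x) ht0 hn
  rw [integral_add (hfn.const_mul t) ((hgn k).const_mul _), integral_const_mul,
    integral_const_mul] at h2
  have h3 : (t ^ (n - 1))⁻¹ * ∫ x, g k x ^ n ∂μ < ε / 2 := by
    rw [inv_mul_lt_iff₀ htp]
    exact h1
  linarith

private theorem err2_le_gn {n m : ℕ} (a : Fin n → E m) (i : Fin n) : ‖a i‖ ≤ gn a := by
  unfold gn
  refine Real.le_sqrt_of_sq_le ?_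
  exact Finset.single_le_sum (f := fun i => ‖a i‖ ^ 2) (fun j _ => by positivity)
    (Finset.mem_univ i)

private theorem err2_all {n m : ℕ} (hn : 2 ≤ n) {φ : E n → ℝ} {Θ : Fin n → E n → ℝ} {M : ℝ}
    (hφ : Moll φ Θ M) {N : Set (E m)} {π : E m → E m} {δ C : ℝ} (hT : TC N π δ C)
    {u : E n → E m} {G : E n → Fin n → E m} (hS : Sol N π 64 u G)
    (htube : ∀ k, ∀ x ∈ ball (0 : E n) 4, infDist (ubar φ u k x) N < δ) :
    (∀ k, Integrable (fun x => gn (G x) ^ n * ‖π (ubar φ u k x) - u x‖)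
      (volume.restrict (ball (0 : E n) 2))) ∧
    (∀ k, Integrable (fun x => gn (G x) ^ (n - 1) * ∑ i, ‖pU π (ubar φ u k) x (ev i) - G x i‖)
      (volume.restrict (ball (0 : E n) 2))) ∧
    Tendsto (fun k => ∫ x in ball (0 : E n) 2, gn (G x) ^ n * ‖π (ubar φ u k x) - u x‖)
      atTop (𝓝 0) ∧
    Tendsto (fun k => ∫ x in ball (0 : E n) 2,
      gn (G x) ^ (n - 1) * ∑ i, ‖pU π (ubar φ u k) x (ev i) - G x i‖) atTop (𝓝 0) := by
  obtain ⟨hu, hGi, hGL, hfm, hfi, hfn⟩ := sol_int (by omega : 1 ≤ n) hS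
  have hC : 0 ≤ C := zero_le_one.trans hT.one_le
  have hδ : 0 < δ := hT.pos
  have hN0 : ∀ y ∈ N, infDist y N = 0 := fun y hy => infDist_zero_of_mem hy
  have hsub : ball (0 : E n) 2 ⊆ ball 0 64 := ball_subset_ball (by norm_num)
  have hsub4 : ball (0 : E n) 2 ⊆ ball 0 4 := ball_subset_ball (by norm_num)
  have hsub8 : ball (0 : E n) 2 ⊆ ball 0 8 := ball_subset_ball (by norm_num)
  have hmem : ∀ᵐ x ∂(volume.restrict (ball (0 : E n) 2)), u x ∈ N :=
    ae_restrict_of_ae_restrict_of_subset hsub hS.memN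
  have htan : ∀ᵐ x ∂(volume.restrict (ball (0 : E n) 2)), ∀ i,
      fderiv ℝ π (u x) (G x i) = G x i :=
    ae_restrict_of_ae_restrict_of_subset hsub hS.tan
  have hin : ∀ᵐ x ∂(volume.restrict (ball (0 : E n) 2)), x ∈ ball (0 : E n) 2 :=
    ae_restrict_mem measurableSet_ball
  have hconv : ∀ᵐ x ∂(volume.restrict (ball (0 : E n) 2)),
      Tendsto (fun k => ubar φ u k x) atTop (𝓝 (u x)) := ae_restrict_of_ae (ubar_ae hφ u hu)
  have hsm : ∀ k, ContDiff ℝ ∞ (ubar φ u k) := fun k => ubar_smooth hφ u hu k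
  have hopen : IsOpen {y : E m | infDist y N < 4 * δ} :=
    isOpen_lt (continuous_infDist_pt N) continuous_const
  have htube' : ∀ k, ∀ x ∈ ball (0 : E n) 4, infDist (ubar φ u k x) N < 4 * δ :=
    fun k x hx => by linarith [htube k x hx]
  have hf0 : ∀ x, 0 ≤ gn (G x) := fun x => Real.sqrt_nonneg _
  have hfnr : Integrable (fun x => gn (G x) ^ n) (volume.restrict (ball (0 : E n) 2)) :=
    hfn.restrict
  have hum : ∀ k, Measurable (ubar φ u k) := fun k => (hsm k).continuous.measurable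
  -- measurability of `π ∘ ubar k`
  have hπm : ∀ k, AEStronglyMeasurable (fun x => π (ubar φ u k x))
      (volume.restrict (ball (0 : E n) 2)) := by
    intro k
    have h1 : ContinuousOn (fun x => π (ubar φ u k x)) (ball (0 : E n) 2) := by
      refine hT.smooth.continuousOn.comp (hsm k).continuous.continuousOn ?_
      intro x hx
      exact htube' k x (hsub4 hx)
    exact h1.aestronglyMeasurable measurableSet_ball
  -- first part
  have hm1 : ∀ k, AEStronglyMeasurable (fun x => gn (G x) ^ n * ‖π (ubar φ u k x) - u x‖)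
      (volume.restrict (ball (0 : E n) 2)) := by
    intro k
    exact ((hfm.pow_const n).aestronglyMeasurable).mul
      (((hπm k).sub hS.meas_u.aestronglyMeasurable).norm)
  have hb1 : ∀ k, ∀ᵐ x ∂(volume.restrict (ball (0 : E n) 2)),
      ‖gn (G x) ^ n * ‖π (ubar φ u k x) - u x‖‖ ≤ gn (G x) ^ n * (2 * C) := by
    intro k
    filter_upwards [hmem, hin] with x hx hx1
    rw [Real.norm_of_nonneg (mul_nonneg (pow_nonneg (hf0 x) _) (norm_nonneg _))]
    refine mul_le_mul_of_nonneg_left ?_ (pow_nonneg (hf0 x) _)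
    have h1 := hT.bdN _ (hT.mem _ (htube' k x (hsub4 hx1)))
    have h2 := hT.bdN _ hx
    have h3 := norm_sub_le (π (ubar φ u k x)) (u x)
    linarith
  have hl1 : ∀ᵐ x ∂(volume.restrict (ball (0 : E n) 2)),
      Tendsto (fun k => gn (G x) ^ n * ‖π (ubar φ u k x) - u x‖) atTop (𝓝 0) := by
    filter_upwards [hmem, hconv] with x hx hc
    have hx0 : u x ∈ {y : E m | infDist y N < 4 * δ} := by
      show infDist (u x) N < 4 * δ
      rw [hN0 _ hx]; linarith
    have h1 : ContinuousAt π (u x) := hT.smooth.continuousOn.continuousAt (hopen.mem_nhds hx0)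
    have h2 : Tendsto (fun k => π (ubar φ u k x)) atTop (𝓝 (u x)) := by
      have := h1.tendsto.comp hc
      rwa [hT.fixed _ hx] at this
    have h3 : Tendsto (fun k => ‖π (ubar φ u k x) - u x‖) atTop (𝓝 0) := by
      rw [tendsto_iff_norm_sub_tendsto_zero] at h2
      exact h2
    simpa using h3.const_mul (gn (G x) ^ n)
  have hi1 : ∀ k, Integrable (fun x => gn (G x) ^ n * ‖π (ubar φ u k x) - u x‖)
      (volume.restrict (ball (0 : E n) 2)) :=
    fun k => Integrable.mono' (hfnr.mul_const (2 * C)) (hm1 k) (hb1 k)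
  have ht1 : Tendsto (fun k => ∫ x in ball (0 : E n) 2,
      gn (G x) ^ n * ‖π (ubar φ u k x) - u x‖) atTop (𝓝 0) := by
    have h := tendsto_integral_of_dominated_convergence (fun x => gn (G x) ^ n * (2 * C))
      hm1 (hfnr.mul_const (2 * C)) hb1 hl1
    simpa using h
  -- second part: the difference of the derivatives of `π`
  have hwm : ∀ k, Measurable (fun x => ‖fderiv ℝ π (ubar φ u k x) - fderiv ℝ π (u x)‖) := by
    intro k
    have h1 : Measurable (fderiv ℝ π) := measurable_fderiv ℝ π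
    exact ((h1.comp (hum k)).sub (h1.comp hS.meas_u)).norm
  have hm2 : ∀ k, AEStronglyMeasurable
      (fun x => gn (G x) ^ n * ‖fderiv ℝ π (ubar φ u k x) - fderiv ℝ π (u x)‖)
      (volume.restrict (ball (0 : E n) 2)) := by
    intro k
    exact ((hfm.pow_const n).mul (hwm k)).aestronglyMeasurable
  have hb2 : ∀ k, ∀ᵐ x ∂(volume.restrict (ball (0 : E n) 2)),
      ‖gn (G x) ^ n * ‖fderiv ℝ π (ubar φ u k x) - fderiv ℝ π (u x)‖‖ ≤
        gn (G x) ^ n * (2 * C) := by
    intro k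
    filter_upwards [hmem, hin] with x hx hx1
    rw [Real.norm_of_nonneg (mul_nonneg (pow_nonneg (hf0 x) _) (norm_nonneg _))]
    refine mul_le_mul_of_nonneg_left ?_ (pow_nonneg (hf0 x) _)
    have h1 := hT.bd1 _ (htube' k x (hsub4 hx1))
    have h2 : ‖fderiv ℝ π (u x)‖ ≤ C := hT.bd1 _ (by rw [hN0 _ hx]; linarith)
    have h3 := norm_sub_le (fderiv ℝ π (ubar φ u k x)) (fderiv ℝ π (u x))
    linarith
  have hl2 : ∀ᵐ x ∂(volume.restrict (ball (0 : E n) 2)),
      Tendsto (fun k => gn (G x) ^ n * ‖fderiv ℝ π (ubar φ u k x) - fderiv ℝ π (u x)‖)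
        atTop (𝓝 0) := by
    filter_upwards [hmem, hconv] with x hx hc
    have hx0 : u x ∈ {y : E m | infDist y N < 4 * δ} := by
      show infDist (u x) N < 4 * δ
      rw [hN0 _ hx]; linarith
    have h1 : ContinuousAt (fderiv ℝ π) (u x) :=
      (hT.smooth.continuousOn_fderiv_of_isOpen hopen (by norm_num)).continuousAt
        (hopen.mem_nhds hx0)
    have h2 : Tendsto (fun k => fderiv ℝ π (ubar φ u k x)) atTop (𝓝 (fderiv ℝ π (u x))) :=
      h1.tendsto.comp hc
    have h3 : Tendsto (fun k => ‖fderiv ℝ π (ubar φ u k x) - fderiv ℝ π (u x)‖)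
        atTop (𝓝 0) := by
      rw [tendsto_iff_norm_sub_tendsto_zero] at h2
      exact h2
    simpa using h3.const_mul (gn (G x) ^ n)
  have hi2 : ∀ k, Integrable
      (fun x => gn (G x) ^ n * ‖fderiv ℝ π (ubar φ u k x) - fderiv ℝ π (u x)‖)
      (volume.restrict (ball (0 : E n) 2)) :=
    fun k => Integrable.mono' (hfnr.mul_const (2 * C)) (hm2 k) (hb2 k)
  have ht2 : Tendsto (fun k => ∫ x in ball (0 : E n) 2,
      gn (G x) ^ n * ‖fderiv ℝ π (ubar φ u k x) - fderiv ℝ π (u x)‖) atTop (𝓝 0) := by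
    have h := tendsto_integral_of_dominated_convergence (fun x => gn (G x) ^ n * (2 * C))
      hm2 (hfnr.mul_const (2 * C)) hb2 hl2
    simpa using h
  -- second part: the gradients
  have hgr : ∀ i, (∀ k, Integrable (fun x => gn (G x) ^ (n - 1) *
        ‖fderiv ℝ (ubar φ u k) x (ev i) - G x i‖) (volume.restrict (ball (0 : E n) 2))) ∧
      Tendsto (fun k => ∫ x in ball (0 : E n) 2, gn (G x) ^ (n - 1) *
        ‖fderiv ℝ (ubar φ u k) x (ev i) - G x i‖) atTop (𝓝 0) := by
    intro i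
    obtain ⟨h1, h2⟩ := der_Ln (by omega : 1 ≤ n) hφ hS i
    have h3 : ∀ k, Integrable (fun x => ‖fderiv ℝ (ubar φ u k) x (ev i) - G x i‖ ^ n)
        (volume.restrict (ball (0 : E n) 2)) := fun k =>
      IntegrableOn.mono_set (h2 k) hsub8
    refine err2_hold (by omega : 1 ≤ n) hf0 (fun k x => norm_nonneg _)
      hfm.aestronglyMeasurable ?_ hfnr h3 ?_
    · intro k
      have h4 : Measurable (fun x => fderiv ℝ (ubar φ u k) x (ev i)) :=
        measurable_fderiv_apply_const ℝ (ubar φ u k) (ev i)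
      exact (h4.sub (hS.meas_G i)).norm.aestronglyMeasurable
    · refine squeeze_zero (fun k => integral_nonneg fun x => by positivity) (fun k => ?_) h1
      exact setIntegral_mono_set (h2 k)
        (Eventually.of_forall fun x => by positivity) hsub8.eventuallyLE
  -- the pointwise bound
  have hbd : ∀ k, ∀ᵐ x ∂(volume.restrict (ball (0 : E n) 2)),
      gn (G x) ^ (n - 1) * ∑ i, ‖pU π (ubar φ u k) x (ev i) - G x i‖ ≤
        C * ∑ i, gn (G x) ^ (n - 1) * ‖fderiv ℝ (ubar φ u k) x (ev i) - G x i‖ +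
        (n : ℝ) * (gn (G x) ^ n * ‖fderiv ℝ π (ubar φ u k x) - fderiv ℝ π (u x)‖) := by
    intro k
    filter_upwards [hmem, hin, htan] with x hx hx1 hxt
    have hdπ : DifferentiableAt ℝ π (ubar φ u k x) :=
      (hT.smooth.contDiffAt (hopen.mem_nhds (htube' k x (hsub4 hx1)))).differentiableAt
        (by norm_num)
    have hdu : DifferentiableAt ℝ (ubar φ u k) x := ((hsm k).differentiable (by norm_num)) x
    have hch : ∀ h, pU π (ubar φ u k) x h =
        fderiv ℝ π (ubar φ u k x) (fderiv ℝ (ubar φ u k) x h) := by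
      intro h
      unfold pU
      have := fderiv_comp x hdπ hdu
      have h2 : (fun y => π (ubar φ u k y)) = π ∘ ubar φ u k := rfl
      rw [h2, this]
      rfl
    have hp : ∀ i, ‖pU π (ubar φ u k) x (ev i) - G x i‖ ≤
        C * ‖fderiv ℝ (ubar φ u k) x (ev i) - G x i‖ +
          ‖fderiv ℝ π (ubar φ u k x) - fderiv ℝ π (u x)‖ * gn (G x) := by
      intro i
      have e : pU π (ubar φ u k) x (ev i) - G x i =
          fderiv ℝ π (ubar φ u k x) (fderiv ℝ (ubar φ u k) x (ev i) - G x i) +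
            (fderiv ℝ π (ubar φ u k x) - fderiv ℝ π (u x)) (G x i) := by
        rw [hch, map_sub, sub_apply, hxt i]
        abel
      rw [e]
      refine (norm_add_le _ _).trans ?_
      refine add_le_add ?_ ?_
      · refine (ContinuousLinearMap.le_opNorm _ _).trans ?_
        exact mul_le_mul_of_nonneg_right (hT.bd1 _ (htube' k x (hsub4 hx1))) (norm_nonneg _)
      · refine (ContinuousLinearMap.le_opNorm _ _).trans ?_
        exact mul_le_mul_of_nonneg_left (err2_le_gn _ i) (norm_nonneg _)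
    have hs : ∑ i, ‖pU π (ubar φ u k) x (ev i) - G x i‖ ≤
        ∑ i, (C * ‖fderiv ℝ (ubar φ u k) x (ev i) - G x i‖ +
          ‖fderiv ℝ π (ubar φ u k x) - fderiv ℝ π (u x)‖ * gn (G x)) :=
      Finset.sum_le_sum fun i _ => hp i
    have hpow : gn (G x) ^ n = gn (G x) ^ (n - 1) * gn (G x) := by
      rw [← pow_succ]
      congr 1
      omega
    calc gn (G x) ^ (n - 1) * ∑ i, ‖pU π (ubar φ u k) x (ev i) - G x i‖
        ≤ gn (G x) ^ (n - 1) * ∑ i, (C * ‖fderiv ℝ (ubar φ u k) x (ev i) - G x i‖ +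
          ‖fderiv ℝ π (ubar φ u k x) - fderiv ℝ π (u x)‖ * gn (G x)) :=
          mul_le_mul_of_nonneg_left hs (pow_nonneg (hf0 x) _)
      _ = _ := by
          rw [Finset.sum_add_distrib, Finset.sum_const, Finset.card_univ, Fintype.card_fin,
            nsmul_eq_mul, hpow, mul_add, ← Finset.mul_sum, ← Finset.mul_sum]
          ring
  have hm3 : ∀ k, AEStronglyMeasurable
      (fun x => gn (G x) ^ (n - 1) * ∑ i, ‖pU π (ubar φ u k) x (ev i) - G x i‖)
      (volume.restrict (ball (0 : E n) 2)) := by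
    intro k
    refine Measurable.aestronglyMeasurable ?_
    refine (hfm.pow_const (n - 1)).mul (Finset.measurable_sum _ fun i _ => ?_)
    have h4 : Measurable (fun x => pU π (ubar φ u k) x (ev i)) :=
      measurable_fderiv_apply_const ℝ (fun y => π (ubar φ u k y)) (ev i)
    exact (h4.sub (hS.meas_G i)).norm
  have hH : ∀ k, Integrable (fun x =>
        C * ∑ i, gn (G x) ^ (n - 1) * ‖fderiv ℝ (ubar φ u k) x (ev i) - G x i‖ +
        (n : ℝ) * (gn (G x) ^ n * ‖fderiv ℝ π (ubar φ u k x) - fderiv ℝ π (u x)‖))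
      (volume.restrict (ball (0 : E n) 2)) := by
    intro k
    refine Integrable.add ?_ ((hi2 k).const_mul _)
    exact (integrable_finsetSum _ fun i _ => (hgr i).1 k).const_mul C
  have hi3 : ∀ k, Integrable
      (fun x => gn (G x) ^ (n - 1) * ∑ i, ‖pU π (ubar φ u k) x (ev i) - G x i‖)
      (volume.restrict (ball (0 : E n) 2)) := by
    intro k
    refine Integrable.mono' (hH k) (hm3 k) ?_
    filter_upwards [hbd k] with x hx
    rw [Real.norm_of_nonneg (mul_nonneg (pow_nonneg (hf0 x) _)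
      (Finset.sum_nonneg fun i _ => norm_nonneg _))]
    exact hx
  refine ⟨hi1, hi3, ht1, ?_⟩
  have hle : ∀ k, ∫ x in ball (0 : E n) 2,
      gn (G x) ^ (n - 1) * ∑ i, ‖pU π (ubar φ u k) x (ev i) - G x i‖ ≤
      C * ∑ i, (∫ x in ball (0 : E n) 2,
        gn (G x) ^ (n - 1) * ‖fderiv ℝ (ubar φ u k) x (ev i) - G x i‖) +
      (n : ℝ) * ∫ x in ball (0 : E n) 2,
        gn (G x) ^ n * ‖fderiv ℝ π (ubar φ u k x) - fderiv ℝ π (u x)‖ := by
    intro k
    have h1 := integral_mono_ae (hi3 k) (hH k) (hbd k)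
    rw [integral_add ((integrable_finsetSum _ fun i _ => (hgr i).1 k).const_mul C)
      ((hi2 k).const_mul _), integral_const_mul, integral_const_mul,
      integral_finsetSum _ fun i _ => (hgr i).1 k] at h1
    exact h1
  have hlim : Tendsto (fun k => C * ∑ i, (∫ x in ball (0 : E n) 2,
        gn (G x) ^ (n - 1) * ‖fderiv ℝ (ubar φ u k) x (ev i) - G x i‖) +
      (n : ℝ) * ∫ x in ball (0 : E n) 2,
        gn (G x) ^ n * ‖fderiv ℝ π (ubar φ u k x) - fderiv ℝ π (u x)‖) atTop (𝓝 0) := by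
    have h1 : Tendsto (fun k => ∑ i, (∫ x in ball (0 : E n) 2,
        gn (G x) ^ (n - 1) * ‖fderiv ℝ (ubar φ u k) x (ev i) - G x i‖)) atTop
        (𝓝 (∑ _i : Fin n, (0:ℝ))) := tendsto_finsetSum _ fun i _ => (hgr i).2
    have h2 := (h1.const_mul C).add (ht2.const_mul (n : ℝ))
    simpa using h2
  refine squeeze_zero (fun k => ?_) hle hlim
  exact integral_nonneg fun x => mul_nonneg (pow_nonneg (hf0 x) _)
    (Finset.sum_nonneg fun i _ => norm_nonneg _)

theorem err_lim2 {n m : ℕ} (hn : 2 ≤ n) {φ : E n → ℝ} {Θ : Fin n → E n → ℝ} {M : ℝ}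
    (hφ : Moll φ Θ M) {N : Set (E m)} {π : E m → E m} {δ C : ℝ} (hT : TC N π δ C)
    {u : E n → E m} {G : E n → Fin n → E m} (hS : Sol N π 64 u G)
    (htube : ∀ k, ∀ x ∈ ball (0 : E n) 4, infDist (ubar φ u k x) N < δ) :
    (∀ k, Integrable (fun x => gn (G x) ^ n * ‖π (ubar φ u k x) - u x‖)
      (volume.restrict (ball (0 : E n) 2))) ∧
    (∀ k, Integrable (fun x => gn (G x) ^ (n - 1) * ∑ i, ‖pU π (ubar φ u k) x (ev i) - G x i‖)
      (volume.restrict (ball (0 : E n) 2))) ∧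
    Tendsto (fun k => ∫ x in ball (0 : E n) 2, gn (G x) ^ n * ‖π (ubar φ u k x) - u x‖)
      atTop (𝓝 0) ∧
    Tendsto (fun k => ∫ x in ball (0 : E n) 2,
      gn (G x) ^ (n - 1) * ∑ i, ‖pU π (ubar φ u k) x (ev i) - G x i‖) atTop (𝓝 0) := by
  exact err2_all hn hφ hT hS htube

end H60NT
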