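import Pool.Agent.H60.NT.Def
import Pool.Agent.H60.NH.MBd
import Pool.Agent.H60.NH.MDist
import Pool.Agent.H60.NH.MConv
import Pool.Agent.H60.NH.MSol
import Pool.Agent.H60.NH.NCont

/-!
# [H60 NT NEAR] The mollified maps are close to each other and to `u`

`M = P.M`, `f = gn ∘ G`. By `ubar_der_bd` (with `R = 64`; `D.hS.wg`, integrability from `sol_int`),
`‖D ub_k(w) (ev i)‖ <= M p2 k^n ∫_{ball w (1/p2 k)} f`, for `‖w‖ + 1/p2 k < 64`. On the segment from `x` to
`z` (`‖x - z‖ <= 2/p2 k`): `ball w (1/p2 k) ⊆ ball x (8/p2 k)`, so `‖D ub_k(w)‖ <= n M p2 k · AA f k x`, mean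
value inequality: first claim with `C = 2 n M`. Second: `ubar_diff_bd`. Third: `ubar_dist` and `aa <= AA`
(`AA_nonneg`), `AA f k x <= 8^(n-1) ε`, so `infDist < P.δ` for `ε` small. Fourth: for a.e. `x`,
`ub_j x → u x` (`ubar_ae`); `‖ub_J x - ub_k x‖ <= C ∑_{k <= j < J} AA f j x = C NN f J k x <= C c`; `J → ∞`.
`D.ub k = ubar P.φ D.u k`, `D.f = fun x => gn (D.G x)` (unfold).
-/

set_option autoImplicit false

namespace H60NT

open H60NH MeasureTheory Metric Set Filter Topology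
open scoped ENNReal NNReal ContDiff

private theorem near_p2 (k : ℕ) : 0 < p2 k := by unfold p2; positivity

private theorem near_p2_one (k : ℕ) : 1 ≤ p2 k := by
  unfold p2
  exact one_le_pow₀ (by norm_num)

private theorem near_op {n m : ℕ} (L : E n →L[ℝ] E m) {c : ℝ} (hc : 0 ≤ c)
    (h : ∀ i, ‖L (ev i)‖ ≤ c) : ‖L‖ ≤ n * c := by
  refine L.opNorm_le_bound (by positivity) fun x => ?_
  have h1 : x = ∑ i, x i • (ev i : E n) := by
    have h2 := (EuclideanSpace.basisFun (Fin n) ℝ).sum_repr x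
    refine h2.symm.trans (Finset.sum_congr rfl fun i _ => ?_)
    simp [ev]
  have h3 : L x = ∑ i, x i • L (ev i) := by
    conv_lhs => rw [h1]
    rw [map_sum]
    exact Finset.sum_congr rfl fun i _ => by rw [map_smul]
  rw [h3]
  refine (norm_sum_le _ _).trans ?_
  have h4 : ∀ i ∈ (Finset.univ : Finset (Fin n)), ‖x i • L (ev i)‖ ≤ ‖x‖ * c := by
    intro i _
    rw [norm_smul]
    exact mul_le_mul (PiLp.norm_apply_le x i) (h i) (norm_nonneg _) (norm_nonneg _)
  refine (Finset.sum_le_sum h4).trans ?_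
  rw [Finset.sum_const, Finset.card_univ, Fintype.card_fin, nsmul_eq_mul]
  exact le_of_eq (by ring)

theorem near_ub {n m : ℕ} (P : Par n m) : ∃ ε₁ C : ℝ, 0 < ε₁ ∧ 1 ≤ C ∧ ∀ D : Dyn P, D.ε ≤ ε₁ →
    (∀ (k : ℕ) (x z : E n), ‖x‖ ≤ 16 → ‖x - z‖ ≤ 2 / p2 k →
      ‖D.ub k z - D.ub k x‖ ≤ C * AA D.f k x) ∧
    (∀ (k : ℕ) (x : E n), ‖x‖ ≤ 16 → ‖D.ub (k + 1) x - D.ub k x‖ ≤ C * AA D.f k x) ∧
    (∀ (k : ℕ) (x : E n), ‖x‖ ≤ 16 → infDist (D.ub k x) P.N ≤ C * AA D.f k x ∧
      infDist (D.ub k x) P.N < P.δ) ∧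
    ∀ᵐ x, ‖x‖ ≤ 16 → ∀ (k : ℕ) (c : ℝ), (∀ K : ℕ, NN D.f K k x ≤ c) →
      ‖D.u x - D.ub k x‖ ≤ C * c := by
  have hn := P.hn
  have hM : 1 ≤ P.M := P.hφ.one_le
  have hδ : 0 < P.δ := P.hT.pos
  have hn1 : (1 : ℝ) ≤ n := by exact_mod_cast (by omega : 1 ≤ n)
  obtain ⟨C, hC⟩ : ∃ C : ℝ, C = 3 * n * P.M := ⟨_, rfl⟩
  have hC1 : 1 ≤ C := by
    rw [hC]
    nlinarith
  have h8 : 0 < (8 : ℝ) ^ (n - 1) := by positivity
  refine ⟨P.δ / (2 * C * 8 ^ (n - 1)), C, by positivity, hC1, ?_⟩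
  intro D hD
  obtain ⟨hu, hGi, hGL, hgm, hgi, hgn⟩ := sol_int (by omega : 1 ≤ n) D.hS
  have hf0 : ∀ x, 0 ≤ D.f x := D.hf.nonneg
  have hAA : ∀ k x, 0 ≤ AA D.f k x ∧ 0 ≤ aa D.f k x ∧ aa D.f k x ≤ AA D.f k x ∧
      AA D.f k x ≤ 8 ^ (n - 1) * D.ε := fun k x => AA_nonneg D.hf k x
  -- integrals over smaller balls
  have hmono : ∀ (k : ℕ) (x w : E n), ‖w - x‖ ≤ 2 / p2 k →
      ∫ y in ball w (1 / p2 k), D.f y ≤ ∫ y in ball x (8 / p2 k), D.f y := by
    intro k x w hw
    have hp := near_p2 k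
    refine setIntegral_mono_set D.hf.int.integrableOn (ae_of_all _ hf0) ?_
    refine LE.le.eventuallyLE ?_
    intro y hy
    rw [mem_ball, dist_eq_norm] at hy ⊢
    have h1 : ‖y - x‖ ≤ ‖y - w‖ + ‖w - x‖ := by
      have := norm_add_le (y - w) (w - x)
      rwa [sub_add_sub_cancel] at this
    have h2 : (1 : ℝ) / p2 k + 2 / p2 k ≤ 8 / p2 k := by
      rw [← add_div]
      exact div_le_div_of_nonneg_right (by norm_num) hp.le
    linarith
  have hAAeq : ∀ (k : ℕ) (x : E n), p2 k ^ n * ∫ y in ball x (8 / p2 k), D.f y =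
      p2 k * AA D.f k x := by
    intro k x
    unfold AA
    rw [← mul_assoc, ← pow_succ']
    congr 2
    omega
  have hsub2 : ∀ (k : ℕ) (x : E n), ‖x‖ ≤ 16 →
      ‖D.ub (k + 1) x - D.ub k x‖ ≤ C * AA D.f k x := by
    intro k x hx
    have hp := near_p2 k
    have hp1 : 1 / p2 k ≤ 1 := by
      rw [div_le_one hp]
      exact near_p2_one k
    have h1 := ubar_diff_bd (by omega : 1 ≤ n) P.hφ D.hS.wg hu D.hS.out_u D.hS.out_G hgi k x
      (by linarith)
    refine h1.trans ?_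
    have h2 := hmono k x x (by rw [sub_self, norm_zero]; positivity)
    have h3 : p2 k ^ (n - 1) * ∫ y in ball x (1 / p2 k), D.f y ≤ AA D.f k x := by
      unfold AA
      exact mul_le_mul_of_nonneg_left h2 (by positivity)
    calc n * P.M * (p2 k ^ (n - 1) * ∫ y in ball x (1 / p2 k), gn (D.G y))
        ≤ n * P.M * AA D.f k x := mul_le_mul_of_nonneg_left h3 (by positivity)
      _ ≤ C * AA D.f k x := by
          refine mul_le_mul_of_nonneg_right ?_ (hAA k x).1
          rw [hC]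
          nlinarith
  refine ⟨?_, hsub2, ?_, ?_⟩
  · intro k x z hx hxz
    have hp := near_p2 k
    have hp1 : 1 / p2 k ≤ 1 := by
      rw [div_le_one hp]
      exact near_p2_one k
    have hp2 : 2 / p2 k ≤ 2 := by
      rw [div_le_iff₀ hp]
      linarith [near_p2_one k]
    have hsm : ContDiff ℝ ∞ (D.ub k) := ubar_smooth P.hφ D.u hu k
    have h1 : ‖D.ub k z - D.ub k x‖ ≤ (n * (P.M * (p2 k * AA D.f k x))) * ‖z - x‖ := by
      refine Convex.norm_image_sub_le_of_norm_fderiv_le (𝕜 := ℝ) (s := closedBall x (2 / p2 k))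
        (fun w _ => (hsm.differentiable (by simp)).differentiableAt) ?_
        (convex_closedBall _ _) ?_ ?_
      · intro w hw
        rw [mem_closedBall, dist_eq_norm] at hw
        refine near_op _ (mul_nonneg (by linarith) (mul_nonneg hp.le (hAA k x).1)) fun i => ?_
        have hwn : ‖w‖ ≤ ‖w - x‖ + ‖x‖ := by
          have := norm_add_le (w - x) x
          rwa [sub_add_cancel] at this
        have h2 := ubar_der_bd P.hφ D.hS.wg hu D.hS.out_u D.hS.out_G hgi k w (by linarith) i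
        refine h2.trans ?_
        rw [← hAAeq k x]
        refine mul_le_mul_of_nonneg_left ?_ (by linarith)
        exact mul_le_mul_of_nonneg_left (hmono k x w hw) (by positivity)
      · exact mem_closedBall_self (by positivity)
      · rw [mem_closedBall, dist_comm, dist_eq_norm]
        exact hxz
    have h2 : ‖z - x‖ ≤ 2 / p2 k := by
      rw [norm_sub_rev]
      exact hxz
    have hA := (hAA k x).1
    calc ‖D.ub k z - D.ub k x‖ ≤ (n * (P.M * (p2 k * AA D.f k x))) * ‖z - x‖ := h1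
      _ ≤ (n * (P.M * (p2 k * AA D.f k x))) * (2 / p2 k) :=
          mul_le_mul_of_nonneg_left h2 (by positivity)
      _ = 2 * n * P.M * AA D.f k x := by
          field_simp
      _ ≤ C * AA D.f k x := by
          refine mul_le_mul_of_nonneg_right ?_ hA
          rw [hC]
          nlinarith
  · intro k x hx
    have h1 := ubar_dist (by omega : 1 ≤ n) P.hφ D.hS hu hgi k x (by
      rw [mem_ball_zero_iff]
      linarith)
    have h2 : infDist (D.ub k x) P.N ≤ C * AA D.f k x := by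
      refine h1.trans ?_
      rw [hC]
      exact mul_le_mul_of_nonneg_left (hAA k x).2.2.1 (by positivity)
    refine ⟨h2, h2.trans_lt ?_⟩
    have h3 : C * AA D.f k x ≤ C * (8 ^ (n - 1) * D.ε) :=
      mul_le_mul_of_nonneg_left (hAA k x).2.2.2 (by linarith)
    have h4 : C * (8 ^ (n - 1) * D.ε) ≤ C * (8 ^ (n - 1) * (P.δ / (2 * C * 8 ^ (n - 1)))) := by
      gcongr
    have h5 : C * (8 ^ (n - 1) * (P.δ / (2 * C * 8 ^ (n - 1)))) = P.δ / 2 := by
      field_simp
    linarith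
  · filter_upwards [ubar_ae P.hφ D.u hu] with x hconv hx k c hK
    have hc0 : 0 ≤ c := by
      refine le_trans ?_ (hK k)
      unfold NN
      exact Finset.sum_nonneg fun j _ => (hAA j x).1
    have h1 : ∀ J, k ≤ J → ‖D.ub J x - D.ub k x‖ ≤ C * NN D.f J k x := by
      intro J hJ
      induction J, hJ using Nat.le_induction with
      | base => simp [NN]
      | succ J hJ ih =>
        have h2 : D.ub (J + 1) x - D.ub k x =
            (D.ub (J + 1) x - D.ub J x) + (D.ub J x - D.ub k x) := by abel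
        have h3 : NN D.f (J + 1) k x = NN D.f J k x + AA D.f J x := by
          unfold NN
          exact Finset.sum_Ico_succ_top hJ _
        rw [h2, h3, mul_add]
        refine (norm_add_le _ _).trans ?_
        linarith [hsub2 J x hx]
    have h2 : Tendsto (fun J => ‖D.ub J x - D.ub k x‖) atTop (𝓝 ‖D.u x - D.ub k x‖) :=
      (hconv.sub_const (D.ub k x)).norm
    refine le_of_tendsto h2 ?_
    filter_upwards [eventually_ge_atTop k] with J hJ
    exact (h1 J hJ).trans (mul_le_mul_of_nonneg_left (hK J) (by linarith))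

end H60NT
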