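import Pool.Agent.H60.NT.ElT
import Pool.Agent.H60.NT.Err2
import Pool.Agent.H60.NT.Near

/-!
# [H60 NT EL] The identity (EL)

`el_K` for all `K` and `K → ∞`. For a.e. `x ∈ ball 0 2`: `u x ∈ N`, `G x i` tangent, `F q (u x)` tangent
(`Geo.tan`, `q ∈ N`), so `⟨D2 π (u x)(G_i, G_i), F q (u x)⟩ = 0` (`d2_normal` and `symm1`). Differences (with
`P_K = π (ub_K x)`): `|F q P_K - F q (u x)| <= CG ‖P_K - u x‖` (`bdy`, mean value inequality), so
third term: `|η| f^(n-2) f² C CG ‖P_K - u‖`; first term: `|Dη| f^(n-1) CG ‖P_K - u‖` - use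
`f^(n-1) ‖P_K - u‖ <= (1 + f^n) ‖P_K - u‖`, and `∫_{ball 0 2} ‖P_K - u‖ → 0` by dominated convergence
(`P_K → u` a.e., bounded); second term: `‖DF(P_K) p - DF(u) G‖ <= CG ‖p - G‖ + CG ‖P_K - u‖ ‖G‖` (`lipy`).
All tend to `0` by `err_lim2` (`η`, `Dη` are bounded: compact support). Outside `ball 0 2` `η = 0` and
`Dη = 0` (the complement of the open ball: `η` vanishes on it, also `Dη` vanishes on the complement of the
closed ball; the sphere has measure zero).
-/

set_option autoImplicit false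

namespace H60NT

open H60NH MeasureTheory Metric Set Filter Topology
open scoped ENNReal NNReal ContDiff

private theorem el_F {m : ℕ} {n : ℕ} (P : Par n m) (q : E m) : ContDiff ℝ ∞ (P.F q) :=
  P.hG.smooth.comp (contDiff_const.prodMk contDiff_id)

private theorem el_lip {m : ℕ} {n : ℕ} (P : Par n m) (q y z : E m) :
    ‖P.F q z - P.F q y‖ ≤ P.CG * ‖z - y‖ :=
  Convex.norm_image_sub_le_of_norm_fderiv_le (𝕜 := ℝ) (s := univ)
    (fun x _ => ((el_F P q).differentiable (by simp)).differentiableAt)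
    (fun x _ => P.hG.bdy q x) convex_univ (mem_univ _) (mem_univ _)

private theorem el_gn0 {n m : ℕ} (a : Fin n → E m) : 0 ≤ gn a := Real.sqrt_nonneg _

private theorem el_le_gn {n m : ℕ} (a : Fin n → E m) (i : Fin n) : ‖a i‖ ≤ gn a := by
  unfold gn
  refine Real.le_sqrt_of_sq_le ?_
  exact Finset.single_le_sum (f := fun i => ‖a i‖ ^ 2) (fun j _ => by positivity)
    (Finset.mem_univ i)

private theorem el_pow {f : ℝ} (hf : 0 ≤ f) {n : ℕ} : f ^ (n - 1) ≤ 1 + f ^ n := by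
  rcases le_total f 1 with h | h
  · have h1 := pow_le_one₀ (n := n - 1) hf h
    have h2 : 0 ≤ f ^ n := pow_nonneg hf n
    linarith
  · have h1 : f ^ (n - 1) ≤ f ^ n := pow_le_pow_right₀ h (by omega)
    linarith

private theorem el_pow' {f : ℝ} (hf : 0 ≤ f) {n : ℕ} (hn : 2 ≤ n) : f ^ (n - 1) ≤ f + f ^ n := by
  rcases le_total f 1 with h | h
  · have h1 : f ^ (n - 1) ≤ f ^ 1 := pow_le_pow_of_le_one hf h (by omega)
    have h2 : 0 ≤ f ^ n := pow_nonneg hf n
    rw [pow_one] at h1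
    linarith
  · have h1 : f ^ (n - 1) ≤ f ^ n := pow_le_pow_right₀ h (by omega)
    linarith

private theorem el_pt {n m : ℕ} (P : Par n m) (q : E m) (hq : q ∈ P.N) (y z : E m)
    (g p : Fin n → E m) (de : Fin n → ℝ) (e B0 B1 : ℝ) (hy : y ∈ P.N)
    (hg : ∀ i, fderiv ℝ P.π y (g i) = g i) (he : |e| ≤ B0) (hde : ∀ i, |de i| ≤ B1) :
    |gn g ^ (n - 2) * (∑ i, (de i * inner ℝ (g i) (P.F q z) +
        e * inner ℝ (g i) (fderiv ℝ (P.F q) z (p i)) +
        e * inner ℝ (D2 P.π y (g i) (g i)) (P.F q z))) -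
      gn g ^ (n - 2) * (∑ i, (de i * inner ℝ (g i) (P.F q y) +
        e * inner ℝ (g i) (fderiv ℝ (P.F q) y (g i))))| ≤
      (n * (B1 * P.CG)) * ‖z - y‖ + (B0 * P.CG) * (gn g ^ (n - 1) * ∑ i, ‖p i - g i‖) +
        (n * (B1 * P.CG + B0 * P.CG * (1 + P.CT))) * (gn g ^ n * ‖z - y‖) := by
  have hn := P.hn
  have hCG : 0 ≤ P.CG := zero_le_one.trans P.hG.one_le
  have hCT : 0 ≤ P.CT := zero_le_one.trans P.hT.one_le
  have hB0 : 0 ≤ B0 := (abs_nonneg _).trans he
  have hB1 : 0 ≤ B1 := (abs_nonneg _).trans (hde ⟨0, by omega⟩)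
  have hf0 : 0 ≤ gn g := el_gn0 g
  have hδ : 0 < P.δ := P.hT.pos
  have hyt : infDist y P.N < 4 * P.δ := by
    rw [infDist_zero_of_mem hy]
    linarith
  have hd0 : 0 ≤ ‖z - y‖ := norm_nonneg _
  obtain ⟨f, hf⟩ : ∃ f, f = gn g := ⟨_, rfl⟩
  obtain ⟨d, hd⟩ : ∃ d, d = ‖z - y‖ := ⟨_, rfl⟩
  have hlip : ‖P.F q z - P.F q y‖ ≤ P.CG * d := by
    rw [hd]
    exact el_lip P q y z
  have hterm : ∀ i, |(de i * inner ℝ (g i) (P.F q z) +
        e * inner ℝ (g i) (fderiv ℝ (P.F q) z (p i)) +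
        e * inner ℝ (D2 P.π y (g i) (g i)) (P.F q z)) -
        (de i * inner ℝ (g i) (P.F q y) +
        e * inner ℝ (g i) (fderiv ℝ (P.F q) y (g i)))| ≤
      B1 * P.CG * (f * d) + B0 * P.CG * (f * ‖p i - g i‖) + B0 * P.CG * (1 + P.CT) * (f ^ 2 * d) := by
    intro i
    have hgi : ‖g i‖ ≤ f := hf ▸ el_le_gn g i
    have hgi0 : 0 ≤ ‖g i‖ := norm_nonneg _
    have hfnn : 0 ≤ f := hgi0.trans hgi
    have hdnn : 0 ≤ d := by rw [hd]; exact norm_nonneg _
    have e1 : (de i * inner ℝ (g i) (P.F q z) +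
        e * inner ℝ (g i) (fderiv ℝ (P.F q) z (p i)) +
        e * inner ℝ (D2 P.π y (g i) (g i)) (P.F q z)) -
        (de i * inner ℝ (g i) (P.F q y) +
        e * inner ℝ (g i) (fderiv ℝ (P.F q) y (g i))) =
        de i * inner ℝ (g i) (P.F q z - P.F q y) +
        e * (inner ℝ (g i) (fderiv ℝ (P.F q) z (p i - g i)) +
          inner ℝ (g i) ((fderiv ℝ (P.F q) z - fderiv ℝ (P.F q) y) (g i))) +
        e * inner ℝ (D2 P.π y (g i) (g i)) (P.F q z - P.F q y) := by
      have h0 : inner ℝ (D2 P.π y (g i) (g i)) (P.F q y) = 0 := by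
        have h1 := P.hG.tan q hq y hy
        rw [← h1, ← P.hT.symm1 y hyt, d2_normal P.hT y hy (g i) (g i) (hg i) (hg i),
          inner_zero_left]
      rw [inner_sub_right (g i), inner_sub_right (D2 P.π y (g i) (g i)), h0, map_sub,
        sub_apply, inner_sub_right, inner_sub_right]
      ring
    rw [e1]
    have t1 : |de i * inner ℝ (g i) (P.F q z - P.F q y)| ≤ B1 * P.CG * (f * d) := by
      rw [abs_mul]
      have h1 : |inner ℝ (g i) (P.F q z - P.F q y)| ≤ f * (P.CG * d) :=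
        (abs_real_inner_le_norm _ _).trans (mul_le_mul hgi hlip (norm_nonneg _) hfnn)
      calc |de i| * |inner ℝ (g i) (P.F q z - P.F q y)| ≤ B1 * (f * (P.CG * d)) :=
            mul_le_mul (hde i) h1 (abs_nonneg _) hB1
        _ = B1 * P.CG * (f * d) := by ring
    have t2 : |inner ℝ (g i) (fderiv ℝ (P.F q) z (p i - g i))| ≤ P.CG * (f * ‖p i - g i‖) := by
      refine (abs_real_inner_le_norm _ _).trans ?_
      have h1 : ‖fderiv ℝ (P.F q) z (p i - g i)‖ ≤ P.CG * ‖p i - g i‖ :=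
        (ContinuousLinearMap.le_opNorm _ _).trans
          (mul_le_mul_of_nonneg_right (P.hG.bdy q z) (norm_nonneg _))
      calc ‖g i‖ * ‖fderiv ℝ (P.F q) z (p i - g i)‖ ≤ f * (P.CG * ‖p i - g i‖) :=
            mul_le_mul hgi h1 (norm_nonneg _) hfnn
        _ = _ := by ring
    have t3 : |inner ℝ (g i) ((fderiv ℝ (P.F q) z - fderiv ℝ (P.F q) y) (g i))| ≤
        P.CG * (f ^ 2 * d) := by
      refine (abs_real_inner_le_norm _ _).trans ?_
      have h0 : ‖fderiv ℝ (P.F q) z - fderiv ℝ (P.F q) y‖ ≤ P.CG * d := by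
        have h2 := P.hG.lipy q q z y
        rwa [sub_self, norm_zero, zero_add, ← hd] at h2
      have h1 : ‖(fderiv ℝ (P.F q) z - fderiv ℝ (P.F q) y) (g i)‖ ≤ (P.CG * d) * f :=
        (ContinuousLinearMap.le_opNorm _ _).trans
          (mul_le_mul h0 hgi (norm_nonneg _) (by positivity))
      calc ‖g i‖ * ‖(fderiv ℝ (P.F q) z - fderiv ℝ (P.F q) y) (g i)‖ ≤ f * ((P.CG * d) * f) :=
            mul_le_mul hgi h1 (norm_nonneg _) hfnn
        _ = _ := by ring
    have t4 : |e * inner ℝ (D2 P.π y (g i) (g i)) (P.F q z - P.F q y)| ≤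
        B0 * P.CG * P.CT * (f ^ 2 * d) := by
      rw [abs_mul]
      have h1 : ‖D2 P.π y (g i) (g i)‖ ≤ P.CT * f ^ 2 := by
        calc ‖D2 P.π y (g i) (g i)‖ ≤ ‖D2 P.π y‖ * ‖g i‖ * ‖g i‖ :=
              ContinuousLinearMap.le_opNorm₂ _ _ _
          _ ≤ P.CT * f * f := by
              have := P.hT.bd2 y hyt
              gcongr
          _ = P.CT * f ^ 2 := by ring
      have h2 : |inner ℝ (D2 P.π y (g i) (g i)) (P.F q z - P.F q y)| ≤
          (P.CT * f ^ 2) * (P.CG * d) :=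
        (abs_real_inner_le_norm _ _).trans
          (mul_le_mul h1 hlip (norm_nonneg _) (by positivity))
      calc |e| * |inner ℝ (D2 P.π y (g i) (g i)) (P.F q z - P.F q y)| ≤
            B0 * ((P.CT * f ^ 2) * (P.CG * d)) := mul_le_mul he h2 (abs_nonneg _) hB0
        _ = _ := by ring
    have t5 : |e * (inner ℝ (g i) (fderiv ℝ (P.F q) z (p i - g i)) +
          inner ℝ (g i) ((fderiv ℝ (P.F q) z - fderiv ℝ (P.F q) y) (g i)))| ≤
        B0 * P.CG * (f * ‖p i - g i‖) + B0 * P.CG * (f ^ 2 * d) := by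
      rw [abs_mul]
      have h1 := (abs_add_le (inner ℝ (g i) (fderiv ℝ (P.F q) z (p i - g i)))
        (inner ℝ (g i) ((fderiv ℝ (P.F q) z - fderiv ℝ (P.F q) y) (g i)))).trans
        (add_le_add t2 t3)
      calc _ ≤ B0 * (P.CG * (f * ‖p i - g i‖) + P.CG * (f ^ 2 * d)) :=
            mul_le_mul he h1 (abs_nonneg _) hB0
        _ = _ := by ring
    refine (abs_add_le _ _).trans ?_
    refine (add_le_add (abs_add_le _ _) le_rfl).trans ?_
    have hr : B1 * P.CG * (f * d) + B0 * P.CG * (f * ‖p i - g i‖) +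
        B0 * P.CG * (1 + P.CT) * (f ^ 2 * d) =
        (B1 * P.CG * (f * d) + (B0 * P.CG * (f * ‖p i - g i‖) + B0 * P.CG * (f ^ 2 * d))) +
          B0 * P.CG * P.CT * (f ^ 2 * d) := by ring
    rw [hr]
    exact add_le_add (add_le_add t1 t5) t4
  rw [← mul_sub, ← Finset.sum_sub_distrib, abs_mul, abs_of_nonneg (pow_nonneg hf0 _)]
  have hsum := (Finset.abs_sum_le_sum_abs (fun i => (de i * inner ℝ (g i) (P.F q z) +
        e * inner ℝ (g i) (fderiv ℝ (P.F q) z (p i)) +
        e * inner ℝ (D2 P.π y (g i) (g i)) (P.F q z)) -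
        (de i * inner ℝ (g i) (P.F q y) +
        e * inner ℝ (g i) (fderiv ℝ (P.F q) y (g i)))) Finset.univ).trans
      (Finset.sum_le_sum fun i _ => hterm i)
  have e2 : ∑ i : Fin n, (B1 * P.CG * (f * d) + B0 * P.CG * (f * ‖p i - g i‖) +
      B0 * P.CG * (1 + P.CT) * (f ^ 2 * d)) =
      n * (B1 * P.CG) * (f * d) + B0 * P.CG * (f * ∑ i, ‖p i - g i‖) +
        n * (B0 * P.CG * (1 + P.CT)) * (f ^ 2 * d) := by
    rw [Finset.sum_add_distrib, Finset.sum_add_distrib, Finset.sum_const, Finset.sum_const,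
      Finset.card_univ, Fintype.card_fin, nsmul_eq_mul, nsmul_eq_mul, ← Finset.mul_sum,
      ← Finset.mul_sum]
    ring
  rw [e2] at hsum
  have hfnn : 0 ≤ f := by rw [hf]; exact hf0
  have hdnn : 0 ≤ d := by rw [hd]; exact norm_nonneg _
  rw [← hf, ← hd]
  refine (mul_le_mul_of_nonneg_left hsum (pow_nonneg hfnn _)).trans ?_
  have p1 : f ^ (n - 2) * f = f ^ (n - 1) := by
    rw [← pow_succ]
    congr 1
    omega
  have p2' : f ^ (n - 2) * f ^ 2 = f ^ n := by
    rw [← pow_add]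
    congr 1
    omega
  have e3 : f ^ (n - 2) * (n * (B1 * P.CG) * (f * d) + B0 * P.CG * (f * ∑ i, ‖p i - g i‖) +
        n * (B0 * P.CG * (1 + P.CT)) * (f ^ 2 * d)) =
      n * (B1 * P.CG) * (f ^ (n - 1) * d) + B0 * P.CG * (f ^ (n - 1) * ∑ i, ‖p i - g i‖) +
        n * (B0 * P.CG * (1 + P.CT)) * (f ^ n * d) := by
    rw [← p1, ← p2']
    ring
  rw [e3]
  have h7 : f ^ (n - 1) * d ≤ (1 + f ^ n) * d :=
    mul_le_mul_of_nonneg_right (el_pow hfnn) hdnn
  have h8 : n * (B1 * P.CG) * (f ^ (n - 1) * d) ≤ n * (B1 * P.CG) * ((1 + f ^ n) * d) :=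
    mul_le_mul_of_nonneg_left h7 (by positivity)
  have e4 : n * (B1 * P.CG) * ((1 + f ^ n) * d) + B0 * P.CG * (f ^ (n - 1) * ∑ i, ‖p i - g i‖) +
        n * (B0 * P.CG * (1 + P.CT)) * (f ^ n * d) =
      (n * (B1 * P.CG)) * d + (B0 * P.CG) * (f ^ (n - 1) * ∑ i, ‖p i - g i‖) +
        (n * (B1 * P.CG + B0 * P.CG * (1 + P.CT))) * (f ^ n * d) := by ring
  rw [← e4]
  linarith

private theorem el_L1 {n m : ℕ} (hn : 2 ≤ n) {φ : E n → ℝ} {Θ : Fin n → E n → ℝ} {M : ℝ}
    (hφ : Moll φ Θ M) {N : Set (E m)} {π : E m → E m} {δ C : ℝ} (hT : TC N π δ C)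
    {u : E n → E m} {G : E n → Fin n → E m} (hS : Sol N π 64 u G)
    (htube : ∀ k, ∀ x ∈ ball (0 : E n) 4, infDist (ubar φ u k x) N < δ) :
    (∀ k, AEStronglyMeasurable (fun x => π (ubar φ u k x))
      (volume.restrict (ball (0 : E n) 2))) ∧
    (∀ k, Integrable (fun x => ‖π (ubar φ u k x) - u x‖)
      (volume.restrict (ball (0 : E n) 2))) ∧
    Tendsto (fun k => ∫ x in ball (0 : E n) 2, ‖π (ubar φ u k x) - u x‖)
      atTop (𝓝 0) := by
  obtain ⟨hu, -, -, -, -, -⟩ := sol_int (by omega : 1 ≤ n) hS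
  have hδ : 0 < δ := hT.pos
  have hN0 : ∀ y ∈ N, infDist y N = 0 := fun y hy => infDist_zero_of_mem hy
  have hsub : ball (0 : E n) 2 ⊆ ball 0 64 := ball_subset_ball (by norm_num)
  have hsub4 : ball (0 : E n) 2 ⊆ ball 0 4 := ball_subset_ball (by norm_num)
  have hmem : ∀ᵐ x ∂(volume.restrict (ball (0 : E n) 2)), u x ∈ N :=
    ae_restrict_of_ae_restrict_of_subset hsub hS.memN
  have hin : ∀ᵐ x ∂(volume.restrict (ball (0 : E n) 2)), x ∈ ball (0 : E n) 2 :=
    ae_restrict_mem measurableSet_ball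
  have hconv : ∀ᵐ x ∂(volume.restrict (ball (0 : E n) 2)),
      Tendsto (fun k => ubar φ u k x) atTop (𝓝 (u x)) := ae_restrict_of_ae (ubar_ae hφ u hu)
  have hsm : ∀ k, ContDiff ℝ ∞ (ubar φ u k) := fun k => ubar_smooth hφ u hu k
  have hopen : IsOpen {y : E m | infDist y N < 4 * δ} :=
    isOpen_lt (continuous_infDist_pt N) continuous_const
  have htube' : ∀ k, ∀ x ∈ ball (0 : E n) 4, infDist (ubar φ u k x) N < 4 * δ :=
    fun k x hx => by linarith [htube k x hx]
  have hπm : ∀ k, AEStronglyMeasurable (fun x => π (ubar φ u k x))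
      (volume.restrict (ball (0 : E n) 2)) := by
    intro k
    have h1 : ContinuousOn (fun x => π (ubar φ u k x)) (ball (0 : E n) 2) := by
      refine hT.smooth.continuousOn.comp (hsm k).continuous.continuousOn ?_
      intro x hx
      exact htube' k x (hsub4 hx)
    exact h1.aestronglyMeasurable measurableSet_ball
  have hm1 : ∀ k, AEStronglyMeasurable (fun x => ‖π (ubar φ u k x) - u x‖)
      (volume.restrict (ball (0 : E n) 2)) :=
    fun k => ((hπm k).sub hS.meas_u.aestronglyMeasurable).norm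
  have hb1 : ∀ k, ∀ᵐ x ∂(volume.restrict (ball (0 : E n) 2)),
      ‖‖π (ubar φ u k x) - u x‖‖ ≤ 2 * C := by
    intro k
    filter_upwards [hmem, hin] with x hx hx1
    rw [norm_norm]
    have h1 := hT.bdN _ (hT.mem _ (htube' k x (hsub4 hx1)))
    have h2 := hT.bdN _ hx
    have h3 := norm_sub_le (π (ubar φ u k x)) (u x)
    linarith
  have hl1 : ∀ᵐ x ∂(volume.restrict (ball (0 : E n) 2)),
      Tendsto (fun k => ‖π (ubar φ u k x) - u x‖) atTop (𝓝 0) := by
    filter_upwards [hmem, hconv] with x hx hc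
    have hx0 : u x ∈ {y : E m | infDist y N < 4 * δ} := by
      show infDist (u x) N < 4 * δ
      rw [hN0 _ hx]; linarith
    have h1 : ContinuousAt π (u x) := hT.smooth.continuousOn.continuousAt (hopen.mem_nhds hx0)
    have h2 : Tendsto (fun k => π (ubar φ u k x)) atTop (𝓝 (u x)) := by
      have := h1.tendsto.comp hc
      rwa [hT.fixed _ hx] at this
    rw [tendsto_iff_norm_sub_tendsto_zero] at h2
    exact h2
  have hfin : IsFiniteMeasure (volume.restrict (ball (0 : E n) 2)) :=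
    ⟨by rw [Measure.restrict_apply_univ]; exact measure_ball_lt_top⟩
  have hci : Integrable (fun _ : E n => 2 * C) (volume.restrict (ball (0 : E n) 2)) :=
    integrable_const _
  refine ⟨hπm, fun k => Integrable.mono' hci (hm1 k) (hb1 k), ?_⟩
  have h := tendsto_integral_of_dominated_convergence (fun _ => 2 * C) hm1 hci hb1 hl1
  simpa using h

theorem el_id {n m : ℕ} (P : Par n m) : ∃ ε₁ : ℝ, 0 < ε₁ ∧ ∀ D : Dyn P, D.ε ≤ ε₁ →
    ∀ η : E n → ℝ, ContDiff ℝ ∞ η → (∀ x, η x ≠ 0 → x ∈ ball (0 : E n) 2) → ∀ q ∈ P.N,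
      Integrable (fun x => D.f x ^ (n - 2) *
        ∑ i, inner ℝ (D.G x i) (P.F q (D.u x)) * fderiv ℝ η x (ev i)) ∧
      D.Phi η q = - D.Fl η q := by
  obtain ⟨ε₁, C, hε₁, hC, hnear⟩ := near_ub P
  refine ⟨ε₁, hε₁, ?_⟩
  intro D hD η hη hs q hq
  obtain ⟨hn1, hn2, hn3, hn4⟩ := hnear D hD
  have hn := P.hn
  have htube : ∀ K (x : E n), ‖x‖ ≤ 16 → infDist (D.ub K x) P.N < P.δ :=
    fun K x hx => (hn3 K x hx).2
  have htube4 : ∀ k, ∀ x ∈ ball (0 : E n) 4, infDist (ubar P.φ D.u k x) P.N < P.δ := by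
    intro k x hx
    rw [mem_ball_zero_iff] at hx
    exact htube k x (by linarith)
  obtain ⟨he1, he2, he3, he4⟩ := err_lim2 (by omega : 2 ≤ n) P.hφ P.hT D.hS htube4
  obtain ⟨hl1, hl2, hl3⟩ := el_L1 (by omega : 2 ≤ n) P.hφ P.hT D.hS htube4
  obtain ⟨hfm, hf0, hfi, hfn, hgm, hgb, hgi, hpi⟩ := dyn_int D
  obtain ⟨hae1, hae2, hae3⟩ := dyn_ae D
  have hFq : ContDiff ℝ ∞ (P.F q) := el_F P q
  -- bounds for the weight
  have hts : tsupport η ⊆ closedBall (0 : E n) 2 := by
    refine closure_minimal ?_ isClosed_closedBall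
    intro x hx
    exact ball_subset_closedBall (hs x hx)
  have hηc : HasCompactSupport η :=
    HasCompactSupport.of_support_subset_isCompact (isCompact_closedBall (0 : E n) 2)
      ((subset_tsupport _).trans hts)
  obtain ⟨B0, hB0⟩ := hηc.exists_bound_of_continuous hη.continuous
  have hdc : Continuous (fderiv ℝ η) := hη.continuous_fderiv (by simp)
  obtain ⟨B1, hB1⟩ := (hηc.fderiv (𝕜 := ℝ)).exists_bound_of_continuous hdc
  have hB0' : ∀ x, |η x| ≤ B0 := fun x => by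
    rw [← Real.norm_eq_abs]
    exact hB0 x
  have hB1' : ∀ x (i : Fin n), |fderiv ℝ η x (ev i)| ≤ B1 := by
    intro x i
    rw [← Real.norm_eq_abs]
    refine (ContinuousLinearMap.le_opNorm _ _).trans ?_
    have h1 : ‖(ev i : E n)‖ = 1 := by
      unfold ev
      simp
    rw [h1, mul_one]
    exact hB1 x
  have hB1n : 0 ≤ B1 := (norm_nonneg _).trans (hB1 0)
  have hdm : ∀ i : Fin n, Measurable (fun x => fderiv ℝ η x (ev i)) := fun i =>
    (hdc.clm_apply continuous_const).measurable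
  -- the weight vanishes outside the ball
  have hsph : ∀ᵐ x : E n, x ∉ sphere (0 : E n) 2 := by
    rw [ae_iff]
    simp only [not_not]
    exact Measure.addHaar_sphere_of_ne_zero volume (0 : E n) (by norm_num)
  have hout : ∀ᵐ x : E n, x ∉ ball (0 : E n) 2 → η x = 0 ∧ fderiv ℝ η x = 0 := by
    filter_upwards [hsph] with x hx hxb
    have h1 : x ∉ tsupport η := by
      intro h
      have h2 := hts h
      rw [mem_closedBall] at h2
      rw [mem_ball, not_lt] at hxb
      exact hx (mem_sphere.2 (le_antisymm h2 hxb))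
    have h3 : η =ᶠ[𝓝 x] fun _ => (0 : ℝ) := notMem_tsupport_iff_eventuallyEq.1 h1
    refine ⟨h3.self_of_nhds, ?_⟩
    rw [h3.fderiv_eq, fderiv_fun_const]
    rfl
  -- the functions
  obtain ⟨aF, haF⟩ : ∃ aF : E n → ℝ, aF = fun x => D.f x ^ (n - 2) *
      ∑ i, inner ℝ (D.G x i) (P.F q (D.u x)) * fderiv ℝ η x (ev i) := ⟨_, rfl⟩
  obtain ⟨a, ha⟩ : ∃ a : E n → ℝ, a = fun x => D.f x ^ (n - 2) *
      (∑ i, (fderiv ℝ η x (ev i) * inner ℝ (D.G x i) (P.F q (D.u x)) +
        η x * inner ℝ (D.G x i) (fderiv ℝ (P.F q) (D.u x) (D.G x i)))) := ⟨_, rfl⟩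
  obtain ⟨b, hb⟩ : ∃ b : ℕ → E n → ℝ, b = fun K x => D.f x ^ (n - 2) *
      (∑ i, (fderiv ℝ η x (ev i) *
        inner ℝ (D.G x i) (P.F q (P.π (D.ub K x))) +
        η x * inner ℝ (D.G x i) (fderiv ℝ (P.F q) (P.π (D.ub K x)) (pU P.π (D.ub K) x (ev i))) +
        η x * inner ℝ (D2 P.π (D.u x) (D.G x i) (D.G x i)) (P.F q (P.π (D.ub K x))))) :=
    ⟨_, rfl⟩
  have hbK : ∀ K, ∫ x, b K x = 0 := by
    intro K
    rw [hb]
    exact el_K P D K (htube K) η hη hs q
  -- integrability of the flux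
  have hFum : Measurable (fun x => P.F q (D.u x)) := hFq.continuous.measurable.comp D.hS.meas_u
  have haFm : Measurable aF := by
    rw [haF]
    refine (hfm.pow_const (n - 2)).mul (Finset.measurable_sum _ fun i _ => ?_)
    exact ((D.hS.meas_G i).inner hFum).mul (hdm i)
  have haFi : Integrable aF := by
    refine ((hfi.add hfn).const_mul (n * B1)).mono' haFm.aestronglyMeasurable ?_
    refine Eventually.of_forall fun x => ?_
    show ‖aF x‖ ≤ n * B1 * (D.f x + D.f x ^ n)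
    rw [haF, Real.norm_eq_abs]
    show |D.f x ^ (n - 2) * ∑ i, inner ℝ (D.G x i) (P.F q (D.u x)) * fderiv ℝ η x (ev i)| ≤ _
    rw [abs_mul, abs_of_nonneg (pow_nonneg (hf0 x) _)]
    have h1 : |∑ i, inner ℝ (D.G x i) (P.F q (D.u x)) * fderiv ℝ η x (ev i)| ≤
        n * B1 * D.f x := by
      refine (Finset.abs_sum_le_sum_abs _ _).trans ?_
      have h2 : ∀ i ∈ (Finset.univ : Finset (Fin n)),
          |inner ℝ (D.G x i) (P.F q (D.u x)) * fderiv ℝ η x (ev i)| ≤ D.f x * B1 := by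
        intro i _
        rw [abs_mul]
        refine mul_le_mul ?_ (hB1' x i) (abs_nonneg _) (hf0 x)
        refine (abs_real_inner_le_norm _ _).trans ?_
        calc ‖D.G x i‖ * ‖P.F q (D.u x)‖ ≤ ‖D.G x i‖ * 1 :=
              mul_le_mul_of_nonneg_left (P.hG.bd q _) (norm_nonneg _)
          _ = ‖D.G x i‖ := mul_one _
          _ ≤ D.f x := el_le_gn (D.G x) i
      refine (Finset.sum_le_sum h2).trans ?_
      rw [Finset.sum_const, Finset.card_univ, Fintype.card_fin, nsmul_eq_mul]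
      exact le_of_eq (by ring)
    refine (mul_le_mul_of_nonneg_left h1 (pow_nonneg (hf0 x) _)).trans ?_
    have h3 : D.f x ^ (n - 2) * (n * B1 * D.f x) = n * B1 * D.f x ^ (n - 1) := by
      have h4 : D.f x ^ (n - 1) = D.f x ^ (n - 2) * D.f x := by
        rw [← pow_succ]
        congr 1
        omega
      rw [h4]
      ring
    rw [h3]
    exact mul_le_mul_of_nonneg_left (el_pow' (hf0 x) (by omega)) (by positivity)
  have hphi : Integrable (fun x => η x * D.gq q x) :=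
    hpi η B0 q hη.continuous.measurable hB0'
  have hasum : a = fun x => aF x + η x * D.gq q x := by
    rw [ha, haF]
    funext x
    show D.f x ^ (n - 2) * _ = D.f x ^ (n - 2) * _ + η x * (D.f x ^ (n - 2) * _)
    rw [Finset.sum_add_distrib, ← Finset.mul_sum, mul_add]
    congr 1
    · congr 1
      exact Finset.sum_congr rfl fun i _ => mul_comm _ _
    · ring
  have hai : Integrable a := by
    rw [hasum]
    exact haFi.add hphi
  refine ⟨haF ▸ haFi, ?_⟩
  have hint : ∫ x, a x = D.Fl η q + D.Phi η q := by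
    rw [hasum, integral_add haFi hphi, haF]
    rfl
  -- restriction to the ball
  have ha0 : ∀ᵐ x : E n, x ∉ ball (0 : E n) 2 → a x = 0 := by
    filter_upwards [hout] with x hx hxb
    obtain ⟨h1, h2⟩ := hx hxb
    rw [ha]
    show D.f x ^ (n - 2) * _ = 0
    rw [h1, h2]
    simp
  have hb0 : ∀ K, ∀ᵐ x : E n, x ∉ ball (0 : E n) 2 → b K x = 0 := by
    intro K
    filter_upwards [hout] with x hx hxb
    obtain ⟨h1, h2⟩ := hx hxb
    rw [hb]
    show D.f x ^ (n - 2) * _ = 0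
    rw [h1, h2]
    simp
  have har : ∫ x in ball (0 : E n) 2, a x = ∫ x, a x :=
    setIntegral_eq_integral_of_ae_compl_eq_zero ha0
  have hbr : ∀ K, ∫ x in ball (0 : E n) 2, b K x = 0 := by
    intro K
    rw [setIntegral_eq_integral_of_ae_compl_eq_zero (hb0 K), hbK K]
  -- measurability of `b K` on the ball
  have hbm : ∀ K, AEStronglyMeasurable (b K) (volume.restrict (ball (0 : E n) 2)) := by
    intro K
    have hπ : AEStronglyMeasurable (fun x => P.π (D.ub K x))
        (volume.restrict (ball (0 : E n) 2)) := hl1 K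
    have hFπ : AEStronglyMeasurable (fun x => P.F q (P.π (D.ub K x)))
        (volume.restrict (ball (0 : E n) 2)) := hFq.continuous.comp_aestronglyMeasurable hπ
    have hG : ∀ i, AEStronglyMeasurable (fun x => D.G x i)
        (volume.restrict (ball (0 : E n) 2)) := fun i => (D.hS.meas_G i).aestronglyMeasurable
    have hp : ∀ i, AEStronglyMeasurable (fun x => pU P.π (D.ub K) x (ev i))
        (volume.restrict (ball (0 : E n) 2)) := fun i =>
      (measurable_fderiv_apply_const ℝ (fun y => P.π (D.ub K y)) (ev i)).aestronglyMeasurable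
    have hdF : Continuous (fun p : E m × E m => fderiv ℝ (P.F q) p.1 p.2) :=
      ((hFq.continuous_fderiv (by simp)).comp continuous_fst).clm_apply continuous_snd
    have hD2m : Measurable (fun x => D2 P.π (D.u x)) :=
      (measurable_fderiv ℝ (fderiv ℝ P.π)).comp D.hS.meas_u
    have hD2c : Continuous (fun p : (E m →L[ℝ] E m →L[ℝ] E m) × E m => p.1 p.2 p.2) :=
      (continuous_fst.clm_apply continuous_snd).clm_apply continuous_snd
    have hD2 : ∀ i, AEStronglyMeasurable (fun x => D2 P.π (D.u x) (D.G x i) (D.G x i))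
        (volume.restrict (ball (0 : E n) 2)) := fun i =>
      hD2c.comp_aestronglyMeasurable
        (hD2m.aestronglyMeasurable.prodMk (D.hS.meas_G i).aestronglyMeasurable)
    rw [hb]
    refine ((hfm.pow_const (n - 2)).aestronglyMeasurable).mul ?_
    refine Finset.aestronglyMeasurable_fun_sum _ fun i _ => ?_
    refine AEStronglyMeasurable.add (AEStronglyMeasurable.add ?_ ?_) ?_
    · exact (hdm i).aestronglyMeasurable.mul ((hG i).inner hFπ)
    · refine hη.continuous.aestronglyMeasurable.mul ((hG i).inner ?_)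
      exact hdF.comp_aestronglyMeasurable (hπ.prodMk (hp i))
    · exact hη.continuous.aestronglyMeasurable.mul ((hD2 i).inner hFπ)
  -- the bound
  obtain ⟨c1, hc1⟩ : ∃ c1 : ℝ, c1 = n * (B1 * P.CG) := ⟨_, rfl⟩
  obtain ⟨c2, hc2⟩ : ∃ c2 : ℝ, c2 = B0 * P.CG := ⟨_, rfl⟩
  obtain ⟨c3, hc3⟩ : ∃ c3 : ℝ, c3 = n * (B1 * P.CG + B0 * P.CG * (1 + P.CT)) := ⟨_, rfl⟩
  have hbd : ∀ K, ∀ᵐ x ∂(volume.restrict (ball (0 : E n) 2)), |b K x - a x| ≤
      c1 * ‖P.π (D.ub K x) - D.u x‖ +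
        c2 * (D.f x ^ (n - 1) * ∑ i, ‖pU P.π (D.ub K) x (ev i) - D.G x i‖) +
        c3 * (D.f x ^ n * ‖P.π (D.ub K x) - D.u x‖) := by
    intro K
    rw [ae_restrict_iff' measurableSet_ball]
    filter_upwards [hae1] with x hx hxb
    have hx64 : x ∈ ball (0 : E n) 64 := ball_subset_ball (by norm_num) hxb
    obtain ⟨hxN, hxT⟩ := hx hx64
    rw [ha, hb, hc1, hc2, hc3]
    exact el_pt P q hq (D.u x) (P.π (D.ub K x)) (D.G x) (fun i => pU P.π (D.ub K) x (ev i))
      (fun i => fderiv ℝ η x (ev i)) (η x) B0 B1 hxN hxT (hB0' x) (hB1' x)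
  have hHi : ∀ K, Integrable (fun x => c1 * ‖P.π (D.ub K x) - D.u x‖ +
        c2 * (D.f x ^ (n - 1) * ∑ i, ‖pU P.π (D.ub K) x (ev i) - D.G x i‖) +
        c3 * (D.f x ^ n * ‖P.π (D.ub K x) - D.u x‖)) (volume.restrict (ball (0 : E n) 2)) :=
    fun K => (((hl2 K).const_mul c1).add ((he2 K).const_mul c2)).add ((he1 K).const_mul c3)
  have hHint : ∀ K, ∫ x in ball (0 : E n) 2, (c1 * ‖P.π (D.ub K x) - D.u x‖ +
        c2 * (D.f x ^ (n - 1) * ∑ i, ‖pU P.π (D.ub K) x (ev i) - D.G x i‖) +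
        c3 * (D.f x ^ n * ‖P.π (D.ub K x) - D.u x‖)) =
      c1 * (∫ x in ball (0 : E n) 2, ‖P.π (ubar P.φ D.u K x) - D.u x‖) +
      c2 * (∫ x in ball (0 : E n) 2,
        gn (D.G x) ^ (n - 1) * ∑ i, ‖pU P.π (ubar P.φ D.u K) x (ev i) - D.G x i‖) +
      c3 * (∫ x in ball (0 : E n) 2, gn (D.G x) ^ n * ‖P.π (ubar P.φ D.u K x) - D.u x‖) := by
    intro K
    refine (integral_add (((hl2 K).const_mul c1).add ((he2 K).const_mul c2))
      ((he1 K).const_mul c3)).trans ?_
    rw [← integral_const_mul c1, ← integral_const_mul c2, ← integral_const_mul c3]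
    congr 1
    exact integral_add ((hl2 K).const_mul c1) ((he2 K).const_mul c2)
  have hdi : ∀ K, Integrable (fun x => b K x - a x) (volume.restrict (ball (0 : E n) 2)) := by
    intro K
    refine (hHi K).mono' ((hbm K).sub hai.aestronglyMeasurable.restrict) ?_
    filter_upwards [hbd K] with x hx
    rw [Real.norm_eq_abs]
    exact hx
  have hle : ∀ K, |∫ x, a x| ≤
      c1 * (∫ x in ball (0 : E n) 2, ‖P.π (ubar P.φ D.u K x) - D.u x‖) +
      c2 * (∫ x in ball (0 : E n) 2,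
        gn (D.G x) ^ (n - 1) * ∑ i, ‖pU P.π (ubar P.φ D.u K) x (ev i) - D.G x i‖) +
      c3 * (∫ x in ball (0 : E n) 2, gn (D.G x) ^ n * ‖P.π (ubar P.φ D.u K x) - D.u x‖) := by
    intro K
    have hbi : Integrable (b K) (volume.restrict (ball (0 : E n) 2)) := by
      have h1 := (hdi K).add hai.restrict
      refine h1.congr (Eventually.of_forall fun x => ?_)
      show b K x - a x + a x = b K x
      ring
    have h2 : ∫ x in ball (0 : E n) 2, (b K x - a x) = - ∫ x, a x := by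
      rw [integral_sub hbi hai.restrict, hbr K, har]
      ring
    have h3 : |∫ x, a x| = |∫ x in ball (0 : E n) 2, (b K x - a x)| := by
      rw [h2, abs_neg]
    rw [h3, ← hHint K]
    refine abs_integral_le_integral_abs.trans ?_
    exact integral_mono_ae (hdi K).abs (hHi K) (hbd K)
  have hlim : Tendsto (fun K =>
      c1 * (∫ x in ball (0 : E n) 2, ‖P.π (ubar P.φ D.u K x) - D.u x‖) +
      c2 * (∫ x in ball (0 : E n) 2,
        gn (D.G x) ^ (n - 1) * ∑ i, ‖pU P.π (ubar P.φ D.u K) x (ev i) - D.G x i‖) +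
      c3 * (∫ x in ball (0 : E n) 2, gn (D.G x) ^ n * ‖P.π (ubar P.φ D.u K x) - D.u x‖))
      atTop (𝓝 0) := by
    have h := ((hl3.const_mul c1).add (he4.const_mul c2)).add (he3.const_mul c3)
    simpa using h
  have h0 : |∫ x, a x| ≤ 0 := ge_of_tendsto' hlim hle
  have h1 : ∫ x, a x = 0 := abs_nonpos_iff.1 h0
  rw [hint] at h1
  linarith

end H60NT
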