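import Pool.Agent.H60.NT.Def

/-!
# [H60 NT LAT] The lattice partition of unity

`psi s z x = ∏_i β (p2 s x_i - z_i)`. For `x ∈ ball 0 4` every `|p2 s x_i| < 4 · 2^s`, so `Hat.sum`, `Hat.lin` apply with
`a = -(4·2^s+2)`, `b = 4·2^s+2`, and `∑_{z ∈ box} ∏ = ∏ ∑` (`Finset.prod_univ_sum`, `Fintype.piFinset`). First moment: for
the `l`-th coordinate the factor `β(p2 s x_l - z_l)` is replaced by `(z_l/p2 s) β(...)`. Support: all `|p2 s x_i - z_i| < 2`,
so `‖x - zc s z‖² < 4 n / p2 s²`, `2 √n < 2^n` (`n ≥ 3`). Derivative: product rule, `n` terms, each `≤ Lβ p2 s`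
(`|h i| ≤ ‖h‖`). At most `5^n` lattice points `z` have `psi s z x ≠ 0` (at most `4` integers in each coordinate).
Differentiate the two sums (on the open ball) to get the last two identities.
-/

set_option autoImplicit false

namespace H60NT

open H60NH MeasureTheory Metric Set Filter Topology
open scoped ENNReal NNReal ContDiff

lemma lat_coord {n : ℕ} (x : E n) (i : Fin n) : |x i| ≤ ‖x‖ := by
  rw [← Real.norm_eq_abs]
  exact PiLp.norm_apply_le x i

lemma lat_p2_pos (j : ℕ) : 0 < p2 j := by unfold p2; positivity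

/-- The factor. -/
lemma lat_fac {n m : ℕ} (P : Par n m) (s : ℕ) (w : ℤ) (i : Fin n) (x : E n) :
    HasFDerivAt (fun y : E n => P.βf (p2 s * y i - w))
      ((deriv P.βf (p2 s * x i - w)) • (p2 s • (EuclideanSpace.proj i : E n →L[ℝ] ℝ))) x := by
  have g1 : HasFDerivAt (fun y : E n => p2 s * y i - w)
      (p2 s • (EuclideanSpace.proj i : E n →L[ℝ] ℝ)) x := by
    have := ((EuclideanSpace.proj (𝕜 := ℝ) i : E n →L[ℝ] ℝ).hasFDerivAt (x := x)).const_mul (p2 s)
    exact this.sub_const (w : ℝ)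
  have g2 : HasDerivAt P.βf (deriv P.βf (p2 s * x i - w)) (p2 s * x i - w) :=
    ((P.hβ.smooth.differentiable (by norm_num)).differentiableAt).hasDerivAt
  exact g2.comp_hasFDerivAt x g1

theorem psi_facts {n m : ℕ} (P : Par n m) (s : ℕ) (z : Fin n → ℤ) :
    ContDiff ℝ ∞ (P.psi s z) ∧ (∀ x, 0 ≤ P.psi s z x ∧ P.psi s z x ≤ 1) ∧
    (∀ x, P.psi s z x ≠ 0 → ‖x - zc s z‖ < 2 ^ n / p2 s) ∧
    (∀ x, 2 ^ n / p2 s ≤ ‖x - zc s z‖ → fderiv ℝ (P.psi s z) x = 0) ∧
    (∀ x h, |fderiv ℝ (P.psi s z) x h| ≤ n * P.Lβ * p2 s * ‖h‖) := by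
  have hp := lat_p2_pos s
  have hn := P.hn
  have h01 : ∀ x, 0 ≤ P.psi s z x ∧ P.psi s z x ≤ 1 := by
    intro x
    unfold Par.psi
    constructor
    · exact Finset.prod_nonneg (fun i _ => P.hβ.nonneg _)
    · exact Finset.prod_le_one (fun i _ => P.hβ.nonneg _) (fun i _ => P.hβ.le_one _)
  have hsupp : ∀ x, P.psi s z x ≠ 0 → ‖x - zc s z‖ < 2 ^ n / p2 s := by
    intro x hx
    have h1 : ∀ i, |p2 s * x i - z i| < 2 := by
      intro i
      by_contra hc
      push Not at hc
      apply hx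
      unfold Par.psi
      exact Finset.prod_eq_zero (Finset.mem_univ i) (P.hβ.supp _ hc)
    have h2 : ‖x - zc s z‖ ^ 2 < (2 ^ n / p2 s) ^ 2 := by
      rw [EuclideanSpace.norm_sq_eq]
      have h3 : ∀ i ∈ (Finset.univ : Finset (Fin n)), ‖(x - zc s z) i‖ ^ 2 < 4 / p2 s ^ 2 := by
        intro i _
        have e : (x - zc s z) i = (p2 s * x i - z i) / p2 s := by
          unfold zc
          simp only [PiLp.sub_apply]
          field_simp
        rw [e, Real.norm_eq_abs, sq_abs, div_pow]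
        apply div_lt_div_of_pos_right _ (by positivity)
        have := h1 i
        rw [← sq_abs]
        nlinarith [abs_nonneg (p2 s * x i - z i)]
      have h4 : (Finset.univ : Finset (Fin n)).Nonempty := by
        refine ⟨⟨0, by omega⟩, Finset.mem_univ _⟩
      have h5 := Finset.sum_lt_sum_of_nonempty h4 h3
      refine h5.trans_le ?_
      rw [Finset.sum_const, Finset.card_univ, Fintype.card_fin, nsmul_eq_mul, div_pow,
        mul_div_assoc']
      apply div_le_div_of_nonneg_right _ (by positivity)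
      have h6 : ∀ k : ℕ, 1 ≤ k → (k : ℝ) * 4 ≤ (2 ^ k) ^ 2 := by
        intro k hk
        induction k, hk using Nat.le_induction with
        | base => norm_num
        | succ k hk ih =>
          push_cast
          have h7 : (1 : ℝ) ≤ k := by exact_mod_cast hk
          have h8 : ((2 : ℝ) ^ (k + 1)) ^ 2 = 4 * (2 ^ k) ^ 2 := by ring
          rw [h8]
          linarith
      exact h6 n (by omega)
    exact lt_of_pow_lt_pow_left₀ 2 (by positivity) h2
  refine ⟨?_, h01, hsupp, ?_, ?_⟩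
  · unfold Par.psi
    apply contDiff_prod
    intro i _
    apply P.hβ.smooth.comp
    exact (contDiff_const.mul (EuclideanSpace.proj (𝕜 := ℝ) i : E n →L[ℝ] ℝ).contDiff).sub
      contDiff_const
  · intro x hx
    have h1 : P.psi s z x = 0 := by
      by_contra hc
      have := hsupp x hc
      linarith
    have h2 : IsLocalMin (P.psi s z) x := by
      apply Filter.Eventually.of_forall
      intro y
      rw [h1]
      exact (h01 y).1
    exact h2.fderiv_eq_zero
  · intro x h
    have g1 : HasFDerivAt (P.psi s z) (∑ i, (∏ j ∈ Finset.univ.erase i, P.βf (p2 s * x j - z j)) •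
        ((deriv P.βf (p2 s * x i - z i)) • (p2 s • (EuclideanSpace.proj i : E n →L[ℝ] ℝ)))) x := by
      unfold Par.psi
      have := HasFDerivAt.finsetProd (u := Finset.univ) (fun i _ => lat_fac P s (z i) i x)
      exact this
    rw [g1.fderiv]
    rw [ContinuousLinearMap.sum_apply]
    refine (Finset.abs_sum_le_sum_abs _ _).trans ?_
    have hL := P.hβ.one_le
    have g2 : ∀ i ∈ (Finset.univ : Finset (Fin n)),
        |((∏ j ∈ Finset.univ.erase i, P.βf (p2 s * x j - z j)) •
        ((deriv P.βf (p2 s * x i - z i)) • (p2 s • (EuclideanSpace.proj i : E n →L[ℝ] ℝ)))) h| ≤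
        P.Lβ * p2 s * ‖h‖ := by
      intro i _
      have e : ((∏ j ∈ Finset.univ.erase i, P.βf (p2 s * x j - z j)) •
        ((deriv P.βf (p2 s * x i - z i)) • (p2 s • (EuclideanSpace.proj i : E n →L[ℝ] ℝ)))) h =
        (∏ j ∈ Finset.univ.erase i, P.βf (p2 s * x j - z j)) *
          ((deriv P.βf (p2 s * x i - z i)) * (p2 s * h i)) := by
        simp [smul_eq_mul]
      rw [e, abs_mul, abs_mul, abs_mul, abs_of_pos hp]
      have k1 : |∏ j ∈ Finset.univ.erase i, P.βf (p2 s * x j - z j)| ≤ 1 := by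
        rw [abs_of_nonneg (Finset.prod_nonneg (fun j _ => P.hβ.nonneg _))]
        exact Finset.prod_le_one (fun j _ => P.hβ.nonneg _) (fun j _ => P.hβ.le_one _)
      have k2 := P.hβ.der (p2 s * x i - z i)
      have k3 := lat_coord h i
      calc |∏ j ∈ Finset.univ.erase i, P.βf (p2 s * x j - z j)| *
            (|deriv P.βf (p2 s * x i - z i)| * (p2 s * |h i|))
          ≤ 1 * (P.Lβ * (p2 s * ‖h‖)) := by
            apply mul_le_mul k1 _ (by positivity) (by norm_num)
            exact mul_le_mul k2 (mul_le_mul_of_nonneg_left k3 hp.le) (by positivity) (by positivity)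
        _ = P.Lβ * p2 s * ‖h‖ := by ring
    refine (Finset.sum_le_sum g2).trans ?_
    rw [Finset.sum_const, Finset.card_univ, Fintype.card_fin, nsmul_eq_mul]
    exact le_of_eq (by ring)

lemma lat_range {n : ℕ} (s : ℕ) (x : E n) (hx : x ∈ ball (0 : E n) 4) (i : Fin n) :
    ((-(4 * 2 ^ s + 2) : ℤ) : ℝ) + 2 ≤ p2 s * x i ∧
      p2 s * x i ≤ ((4 * 2 ^ s + 2 : ℤ) : ℝ) - 2 := by
  rw [mem_ball_zero_iff] at hx
  have h1 := lat_coord x i
  have h2 : |x i| ≤ 4 := by linarith
  rw [abs_le] at h2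
  have hp := lat_p2_pos s
  have e : p2 s = 2 ^ s := rfl
  push_cast
  rw [← e]
  constructor <;> nlinarith [h2.1, h2.2]

lemma lat_sum1 {n m : ℕ} (P : Par n m) (s : ℕ) (x : E n) (hx : x ∈ ball (0 : E n) 4) :
    ∑ z ∈ box n s, P.psi s z x = 1 := by
  unfold box Par.psi
  rw [← Finset.prod_univ_sum (fun _ => Finset.Icc (-(4 * 2 ^ s + 2) : ℤ) (4 * 2 ^ s + 2))
    (fun i w => P.βf (p2 s * x i - w))]
  apply Finset.prod_eq_one
  intro i _
  obtain ⟨h1, h2⟩ := lat_range s x hx i
  exact P.hβ.sum _ _ _ h1 h2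

lemma lat_sum2 {n m : ℕ} (P : Par n m) (s : ℕ) (x : E n) (hx : x ∈ ball (0 : E n) 4) :
    ∑ z ∈ box n s, P.psi s z x • zc s z = x := by
  have hp := lat_p2_pos s
  ext l
  have e1 : (∑ z ∈ box n s, P.psi s z x • zc s z) l =
      ∑ z ∈ box n s, P.psi s z x * ((z l : ℝ) / p2 s) := by
    rw [WithLp.ofLp_sum, Finset.sum_apply]
    apply Finset.sum_congr rfl
    intro z _
    simp [zc]
  rw [e1]
  have e2 : ∀ z : Fin n → ℤ, P.psi s z x * ((z l : ℝ) / p2 s) =
      (∏ i, (if i = l then (z i : ℝ) * P.βf (p2 s * x i - z i) else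
        P.βf (p2 s * x i - z i))) / p2 s := by
    intro z
    have e3 : (∏ i, (if i = l then (z i : ℝ) * P.βf (p2 s * x i - z i) else
        P.βf (p2 s * x i - z i))) = (z l : ℝ) * ∏ i, P.βf (p2 s * x i - z i) := by
      rw [← Finset.mul_prod_erase Finset.univ _ (Finset.mem_univ l), if_pos rfl,
        ← Finset.mul_prod_erase Finset.univ (fun i => P.βf (p2 s * x i - z i)) (Finset.mem_univ l),
        mul_assoc]
      congr 2
      apply Finset.prod_congr rfl
      intro i hi
      rw [if_neg (Finset.ne_of_mem_erase hi)]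
    rw [e3]
    unfold Par.psi
    ring
  rw [Finset.sum_congr rfl (fun z _ => e2 z), ← Finset.sum_div]
  unfold box
  have e4 := Finset.prod_univ_sum (fun _ : Fin n => Finset.Icc (-(4 * 2 ^ s + 2) : ℤ) (4 * 2 ^ s + 2))
    (fun i w => if i = l then (w : ℝ) * P.βf (p2 s * x i - w) else P.βf (p2 s * x i - w))
  rw [← e4, ← Finset.mul_prod_erase Finset.univ _ (Finset.mem_univ l)]
  have e5 : ∑ w ∈ Finset.Icc (-(4 * 2 ^ s + 2) : ℤ) (4 * 2 ^ s + 2),
      (if l = l then (w : ℝ) * P.βf (p2 s * x l - w) else P.βf (p2 s * x l - w)) = p2 s * x l := by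
    simp only [if_true]
    obtain ⟨h1, h2⟩ := lat_range s x hx l
    exact P.hβ.lin _ _ _ h1 h2
  rw [e5, Finset.prod_eq_one]
  · field_simp
  · intro i hi
    have hi' := Finset.ne_of_mem_erase hi
    simp only [if_neg hi']
    obtain ⟨h1, h2⟩ := lat_range s x hx i
    exact P.hβ.sum _ _ _ h1 h2

theorem psi_sum {n m : ℕ} (P : Par n m) (s : ℕ) (x : E n) (hx : x ∈ ball (0 : E n) 4) :
    ∑ z ∈ box n s, P.psi s z x = 1 ∧ ∑ z ∈ box n s, P.psi s z x • zc s z = x ∧
    (∀ h, ∑ z ∈ box n s, fderiv ℝ (P.psi s z) x h = 0) ∧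
    (∀ h, ∑ z ∈ box n s, fderiv ℝ (P.psi s z) x h • zc s z = h) := by
  have hd : ∀ z, HasFDerivAt (P.psi s z) (fderiv ℝ (P.psi s z) x) x := by
    intro z
    exact (((psi_facts P s z).1.differentiable (by norm_num)).differentiableAt).hasFDerivAt
  refine ⟨lat_sum1 P s x hx, lat_sum2 P s x hx, ?_, ?_⟩
  · intro h
    have g1 : HasFDerivAt (fun y => ∑ z ∈ box n s, P.psi s z y)
        (∑ z ∈ box n s, fderiv ℝ (P.psi s z) x) x := HasFDerivAt.fun_sum (fun z _ => hd z)
    have g2 : HasFDerivAt (fun _ : E n => (1 : ℝ)) (0 : E n →L[ℝ] ℝ) x := hasFDerivAt_const _ _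
    have g3 : (fun y => ∑ z ∈ box n s, P.psi s z y) =ᶠ[𝓝 x] fun _ => (1 : ℝ) := by
      filter_upwards [isOpen_ball.mem_nhds hx] with y hy
      exact lat_sum1 P s y hy
    have g4 := (g2.congr_of_eventuallyEq g3).unique g1
    have g5 := congrArg (fun L : E n →L[ℝ] ℝ => L h) g4
    simp only [ContinuousLinearMap.sum_apply] at g5
    rw [← g5]
    rfl
  · intro h
    have g1 : HasFDerivAt (fun y => ∑ z ∈ box n s, P.psi s z y • zc s z)
        (∑ z ∈ box n s, (fderiv ℝ (P.psi s z) x).smulRight (zc s z)) x :=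
      HasFDerivAt.fun_sum (fun z _ => (hd z).smul_const (zc s z))
    have g2 : HasFDerivAt (fun y : E n => y) (ContinuousLinearMap.id ℝ (E n)) x := hasFDerivAt_id x
    have g3 : (fun y => ∑ z ∈ box n s, P.psi s z y • zc s z) =ᶠ[𝓝 x] fun y => y := by
      filter_upwards [isOpen_ball.mem_nhds hx] with y hy
      exact lat_sum2 P s y hy
    have g4 := (g2.congr_of_eventuallyEq g3).unique g1
    have g5 := congrArg (fun L : E n →L[ℝ] E n => L h) g4
    simp only [ContinuousLinearMap.sum_apply, ContinuousLinearMap.smulRight_apply] at g5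
    rw [← g5]
    rfl

theorem psi_count {n m : ℕ} (P : Par n m) (s : ℕ) (x : E n) (r : ℝ) (hr : 0 ≤ r) :
    ((box n s).filter (fun z => ‖x - zc s z‖ ≤ r / p2 s)).card ≤ (2 * r + 1) ^ n := by
  have hp := lat_p2_pos s
  have h1 : (box n s).filter (fun z => ‖x - zc s z‖ ≤ r / p2 s) ⊆
      Fintype.piFinset (fun i => Finset.Icc ⌈p2 s * x i - r⌉ ⌊p2 s * x i + r⌋) := by
    intro z hz
    rw [Finset.mem_filter] at hz
    rw [Fintype.mem_piFinset]
    intro i
    rw [Finset.mem_Icc, Int.ceil_le, Int.le_floor]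
    have h2 := (lat_coord (x - zc s z) i).trans hz.2
    have e : (x - zc s z) i = (p2 s * x i - z i) / p2 s := by
      unfold zc
      simp only [PiLp.sub_apply]
      field_simp
    rw [e, abs_div, abs_of_pos hp, div_le_div_iff_of_pos_right hp, abs_le] at h2
    constructor <;> linarith [h2.1, h2.2]
  have h2 := Finset.card_le_card h1
  rw [Fintype.card_piFinset] at h2
  have h3 : (((box n s).filter (fun z => ‖x - zc s z‖ ≤ r / p2 s)).card : ℝ) ≤
      ∏ i : Fin n, ((Finset.Icc ⌈p2 s * x i - r⌉ ⌊p2 s * x i + r⌋).card : ℝ) := by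
    exact_mod_cast h2
  refine h3.trans ?_
  have h4 : ∀ i ∈ (Finset.univ : Finset (Fin n)),
      ((Finset.Icc ⌈p2 s * x i - r⌉ ⌊p2 s * x i + r⌋).card : ℝ) ≤ 2 * r + 1 := by
    intro i _
    rw [Int.card_Icc]
    have h5 := Int.floor_le (p2 s * x i + r)
    have h6 := Int.le_ceil (p2 s * x i - r)
    by_cases h7 : 0 ≤ ⌊p2 s * x i + r⌋ + 1 - ⌈p2 s * x i - r⌉
    · have h8 : (((⌊p2 s * x i + r⌋ + 1 - ⌈p2 s * x i - r⌉).toNat : ℤ) : ℝ) =
          ((⌊p2 s * x i + r⌋ + 1 - ⌈p2 s * x i - r⌉ : ℤ) : ℝ) := by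
        rw [Int.toNat_of_nonneg h7]
      rw [Int.cast_natCast] at h8
      rw [h8]
      push_cast
      linarith
    · rw [Int.toNat_of_nonpos (by omega)]
      simp only [Nat.cast_zero]
      linarith
  refine (Finset.prod_le_prod (fun i _ => by positivity) h4).trans ?_
  rw [Finset.prod_const, Finset.card_univ, Fintype.card_fin]

end H60NT
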