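import Pool.Agent.H60.NT.TgF

/-!
# [H60 NT CHO] Chords of the target

`y, y' ∈ N`. If `‖y' - y‖ < δ`: `y' - y = π y' - π y` and the segment stays in the tube
(`infDist <= ‖· - y‖ < δ`), so by the mean value inequality and `lip1`
`‖y' - y - Dπ(y)(y' - y)‖ <= C ‖y' - y‖²`. If moreover `‖y - y₀‖ < δ`: `‖(Dπ(y) - Dπ(y₀))(y' - y)‖ <=
C ‖y - y₀‖ ‖y' - y‖` (`lip1`). If one of the two distances is `>= δ`, the left side is at most
`2 ‖y' - y‖` (`dpi_le`), so `C' = 2 C + 2/δ` works in all cases.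
`chord_normal`: `ν` normal at `y`: `⟨ν, y' - y⟩ = ⟨ν, (y' - y) - Dπ(y)(y' - y)⟩` (symmetry), and the first
part with `y₀ = y`.
-/

set_option autoImplicit false

namespace H60NT

open H60NH MeasureTheory Metric Set Filter Topology
open scoped ENNReal NNReal ContDiff

theorem chord {m : ℕ} {N : Set (E m)} {π : E m → E m} {δ C : ℝ} (hT : TC N π δ C) :
    ∃ C' : ℝ, 1 ≤ C' ∧ (∀ y₀ ∈ N, ∀ y ∈ N, ∀ y' ∈ N,
      ‖(y' - y) - fderiv ℝ π y₀ (y' - y)‖ ≤ C' * (‖y - y₀‖ + ‖y' - y‖) * ‖y' - y‖) ∧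
      ∀ y ∈ N, ∀ y' ∈ N, ∀ ν, fderiv ℝ π y ν = 0 →
        |inner ℝ ν (y' - y)| ≤ C' * ‖ν‖ * ‖y' - y‖ ^ 2 := by
  have hδ : 0 < δ := hT.pos
  have hC1 : 1 ≤ C := hT.one_le
  have hopen : IsOpen {y : E m | infDist y N < 4 * δ} :=
    isOpen_lt (continuous_infDist_pt N) continuous_const
  have hN0 : ∀ y ∈ N, infDist y N = 0 := fun y hy => infDist_zero_of_mem hy
  have main : ∀ y₀ ∈ N, ∀ y ∈ N, ∀ y' ∈ N,
      ‖(y' - y) - fderiv ℝ π y₀ (y' - y)‖ ≤
        (2 * C + 2 / δ) * (‖y - y₀‖ + ‖y' - y‖) * ‖y' - y‖ := by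
    intro y₀ h₀ y hy y' hy'
    have hn1 : 0 ≤ ‖y - y₀‖ := norm_nonneg _
    have hn2 : 0 ≤ ‖y' - y‖ := norm_nonneg _
    by_cases hc : ‖y' - y‖ < δ ∧ ‖y - y₀‖ < δ
    · obtain ⟨hc1, hc2⟩ := hc
      have hseg : ∀ z ∈ segment ℝ y y', ‖z - y‖ ≤ ‖y' - y‖ := by
        intro z hz
        rw [segment_eq_image'] at hz
        obtain ⟨t, ht, rfl⟩ := hz
        have e1 : y + t • (y' - y) - y = t • (y' - y) := by abel
        rw [e1, norm_smul, Real.norm_of_nonneg ht.1]
        exact mul_le_of_le_one_left hn2 ht.2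
      have htz : ∀ z ∈ segment ℝ y y', infDist z N < δ := by
        intro z hz
        refine lt_of_le_of_lt (infDist_le_dist_of_mem hy) ?_
        rw [dist_eq_norm]
        exact (hseg z hz).trans_lt hc1
      have h1 : ‖π y' - π y - fderiv ℝ π y (y' - y)‖ ≤ (C * ‖y' - y‖) * ‖y' - y‖ := by
        refine (convex_segment y y').norm_image_sub_le_of_norm_hasFDerivWithin_le'
          (f := π) (f' := fderiv ℝ π) ?_ ?_ (left_mem_segment ℝ y y') (right_mem_segment ℝ y y')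
        · intro z hz
          have h2 : z ∈ {y : E m | infDist y N < 4 * δ} := by
            show infDist z N < 4 * δ
            linarith [htz z hz]
          exact ((hT.smooth.contDiffAt (hopen.mem_nhds h2)).differentiableAt
            (by norm_num)).hasFDerivAt.hasFDerivWithinAt
        · intro z hz
          have h3 := hT.lip1 z y (by linarith [htz z hz])
            (by linarith [(hseg z hz).trans_lt hc1])
          exact h3.trans (mul_le_mul_of_nonneg_left (hseg z hz) (by linarith))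
      rw [hT.fixed y hy, hT.fixed y' hy'] at h1
      have h2 : ‖(fderiv ℝ π y - fderiv ℝ π y₀) (y' - y)‖ ≤ (C * ‖y - y₀‖) * ‖y' - y‖ := by
        refine (ContinuousLinearMap.le_opNorm _ _).trans ?_
        refine mul_le_mul_of_nonneg_right ?_ hn2
        exact hT.lip1 y y₀ (by rw [hN0 y hy]; linarith) (by linarith)
      have e2 : (y' - y) - fderiv ℝ π y₀ (y' - y) =
          (y' - y - fderiv ℝ π y (y' - y)) + (fderiv ℝ π y - fderiv ℝ π y₀) (y' - y) := by
        rw [sub_apply]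
        abel
      rw [e2]
      refine (norm_add_le _ _).trans ((add_le_add h1 h2).trans ?_)
      have h4 : 0 ≤ 2 / δ := by positivity
      have h5 : 0 ≤ (‖y - y₀‖ + ‖y' - y‖) * ‖y' - y‖ := by positivity
      have h6 : C * ‖y' - y‖ * ‖y' - y‖ + C * ‖y - y₀‖ * ‖y' - y‖ =
          C * ((‖y - y₀‖ + ‖y' - y‖) * ‖y' - y‖) := by ring
      rw [h6, mul_assoc]
      exact mul_le_mul_of_nonneg_right (by linarith) h5
    · have h1 : ‖(y' - y) - fderiv ℝ π y₀ (y' - y)‖ ≤ 2 * ‖y' - y‖ := by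
        have h2 := (dpi_le hT y₀ h₀ (y' - y)).1
        have h3 := norm_sub_le (y' - y) (fderiv ℝ π y₀ (y' - y))
        linarith
      have h2 : δ ≤ ‖y - y₀‖ + ‖y' - y‖ := by
        by_contra hcon
        rw [not_le] at hcon
        exact hc ⟨by linarith, by linarith⟩
      refine h1.trans (mul_le_mul_of_nonneg_right ?_ hn2)
      have h3 : (2 : ℝ) = 2 / δ * δ := by field_simp
      calc (2 : ℝ) = 2 / δ * δ := h3
        _ ≤ 2 / δ * (‖y - y₀‖ + ‖y' - y‖) := mul_le_mul_of_nonneg_left h2 (by positivity)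
        _ ≤ (2 * C + 2 / δ) * (‖y - y₀‖ + ‖y' - y‖) :=
            mul_le_mul_of_nonneg_right (by linarith) (by positivity)
  refine ⟨2 * C + 2 / δ, ?_, main, ?_⟩
  · have h4 : 0 ≤ 2 / δ := by positivity
    linarith
  · intro y hy y' hy' ν hν
    have h1 : inner ℝ ν (y' - y) = inner ℝ ν ((y' - y) - fderiv ℝ π y (y' - y)) := by
      rw [inner_sub_right ν (y' - y), ← hT.symm1 y (by rw [hN0 y hy]; linarith), hν,
        inner_zero_left, sub_zero]
    rw [h1]
    refine (abs_real_inner_le_norm _ _).trans ?_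
    have h2 := main y hy y hy y' hy'
    rw [sub_self, norm_zero, zero_add] at h2
    calc ‖ν‖ * ‖(y' - y) - fderiv ℝ π y (y' - y)‖
        ≤ ‖ν‖ * ((2 * C + 2 / δ) * ‖y' - y‖ * ‖y' - y‖) :=
          mul_le_mul_of_nonneg_left h2 (norm_nonneg _)
      _ = _ := by ring

end H60NT
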