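import Pool.Agent.H60.NT.PoiI
import Pool.Agent.H60.NT.RcNum
import Pool.Agent.H60.NT.Near
import Pool.Agent.H60.NT.Cho

/-!
# [H60 NT YJ] The points `y_j`

`VG D.u D.G` holds by `D.hS` (`wg`, `out_u`, `out_G`, `meas_G`, `sol_int`), `ring_mean` with
`M_j = Mn R.μ R.x₀ j D.u`, `j ≥ k + 1`: for `x' ∈ rg x₀ j`: `‖M_j - ub_{j+5}(x')‖ ≤ C p2 j^(n-1) ∫_{fr} f ≤ C AA f j x₀ ≤ C e`
(`fr x₀ j ⊆ ball x₀ (8/p2 j)`; `x₀ ∈ ball x₀ (5/p2 k)`, `R.amp`). For `x ∈ fr x₀ j` choose `x' ∈ rg x₀ j` on the ray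
through `x` with `‖x - x'‖ ≤ 2/p2 j`; `x, x' ∈ ball x₀ (5/p2 k)` (`4/p2 j ≤ 2/p2 k`), so by `near_ub`
(`‖x‖ ≤ 1 + 4 ≤ 16`) `‖ub_j x - ub_j x'‖ ≤ C e`, `‖ub_{i+1} x - ub_i x‖ ≤ C e` for `i ≥ j`, and the same for `x'`. So
`‖ub_i x - M_j‖ ≤ C e (i - j + 1)` with a new constant. `infDist M_j N ≤ ‖M_j - ub_{j+5} x'‖ + infDist (ub_{j+5} x') N ≤ C e < δ`
(`e` small), so `y_j = π M_j ∈ N`, `‖M_j - y_j‖ = infDist M_j N ≤ C e` (`TC.dist_eq`).
-/

set_option autoImplicit false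

namespace H60NT

open H60NH MeasureTheory Metric Set Filter Topology
open scoped ENNReal NNReal ContDiff

private theorem yj_p2 (k : ℕ) : 0 < p2 k := by unfold p2; positivity

private theorem yj_p2_succ (k : ℕ) : 2 ≤ p2 (k + 1) := by
  unfold p2
  rw [pow_succ]
  have : (1 : ℝ) ≤ 2 ^ k := one_le_pow₀ (by norm_num)
  linarith

private theorem yj_p2_mono {j k : ℕ} (h : k + 1 ≤ j) : 2 * p2 k ≤ p2 j := by
  have h1 : p2 (k + 1) ≤ p2 j := by
    unfold p2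
    exact pow_le_pow_right₀ (by norm_num) h
  have h2 : p2 (k + 1) = 2 * p2 k := by
    unfold p2
    ring
  linarith

/-- A point of the ring close to a point of the fat ring. -/
private theorem yj_ray {n : ℕ} {x₀ x : E n} {j : ℕ} (hx : x ∈ fr x₀ j) :
    ∃ x' ∈ rg x₀ j, ‖x - x'‖ ≤ 2 / p2 j := by
  have hp := yj_p2 j
  obtain ⟨h1, h2⟩ := hx
  have hr : 0 < ‖x - x₀‖ := lt_of_lt_of_le (by positivity) h1
  obtain ⟨r, hrr⟩ : ∃ r, r = ‖x - x₀‖ := ⟨_, rfl⟩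
  rw [← hrr] at h1 h2 hr
  obtain ⟨q, hq⟩ : ∃ q, q = 1 / p2 j := ⟨_, rfl⟩
  have hq0 : 0 < q := by rw [hq]; positivity
  have e1 : 1 / (2 * p2 j) = q / 2 := by rw [hq]; field_simp
  have e2 : 4 / p2 j = 4 * q := by rw [hq]; ring
  have e3 : 2 / p2 j = 2 * q := by rw [hq]; ring
  rw [e1] at h1
  rw [e2] at h2
  obtain ⟨c, hc1, hc2, hc3⟩ : ∃ c, q ≤ c ∧ c ≤ 2 * q ∧ |r - c| ≤ 2 * q := by
    rcases le_total r q with h | h
    · exact ⟨q, le_rfl, by linarith, by rw [abs_le]; constructor <;> linarith⟩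
    · rcases le_total r (2 * q) with h' | h'
      · exact ⟨r, h, h', by rw [sub_self, abs_zero]; positivity⟩
      · exact ⟨2 * q, by linarith, le_rfl, by rw [abs_le]; constructor <;> linarith⟩
  have hc0 : 0 < c := by linarith
  refine ⟨x₀ + (c / r) • (x - x₀), ?_, ?_⟩
  · have e4 : ‖x₀ + (c / r) • (x - x₀) - x₀‖ = c := by
      rw [add_sub_cancel_left, norm_smul, Real.norm_of_nonneg (by positivity), ← hrr]
      field_simp
    constructor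
    · rw [e4, ← hq]
      exact hc1
    · rw [e4, e3]
      exact hc2
  · have e5 : x - (x₀ + (c / r) • (x - x₀)) = (1 - c / r) • (x - x₀) := by
      rw [sub_smul, one_smul]
      abel
    rw [e5, norm_smul, ← hrr, e3, Real.norm_eq_abs]
    have e6 : |1 - c / r| * r = |r - c| := by
      have e7 : r - c = (1 - c / r) * r := by field_simp
      rw [e7, abs_mul, abs_of_pos hr]
    rw [e6]
    exact hc3

theorem vg_u {n m : ℕ} {P : Par n m} (D : Dyn P) : VG D.u D.G := by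
  obtain ⟨hu, hGi, hGL, hgm, hgi, hgn⟩ := sol_int (by have := P.hn; omega : 1 ≤ n) D.hS
  exact ⟨D.hS.wg, D.hS.out_u, D.hS.out_G, hu, D.hS.meas_G, hgi, hgn⟩

theorem yj_facts {n m : ℕ} (P : Par n m) : Uni P (fun C D R =>
    ∀ j, R.k + 1 ≤ j → R.yj j ∈ P.N ∧ infDist (Mn R.μ R.x₀ j D.u) P.N ≤ C * R.e ∧
      infDist (Mn R.μ R.x₀ j D.u) P.N < P.δ ∧ ‖Mn R.μ R.x₀ j D.u - R.yj j‖ ≤ C * R.e ∧
      ∀ x ∈ fr R.x₀ j, ∀ i, j ≤ i → ‖D.ub i x - R.yj j‖ ≤ C * R.e * ((i : ℝ) - j + 1)) := by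
  have hn := P.hn
  obtain ⟨Cr, hCr, hring⟩ := ring_mean n m hn P.hφ
  obtain ⟨ε₁, Cn, hε₁, hCn, hnear⟩ := near_ub P
  have hδ : 0 < P.δ := P.hT.pos
  refine ⟨7 * Cn + 2 * Cr, 1, by linarith, one_pos, ?_⟩
  intro Q C₅ t₀ _ _ _
  have hS0 : 0 < Cr + Cn := by linarith
  refine ⟨min (min ε₁ (P.δ / (2 * (Cr + Cn)))) 1, by positivity, min_le_right _ _, ?_⟩
  intro D R hR j hj
  have hDε : D.ε ≤ ε₁ := hR.ε_le.trans ((min_le_left _ _).trans (min_le_left _ _))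
  have hRe : R.e ≤ P.δ / (2 * (Cr + Cn)) :=
    hR.e_le.trans ((min_le_left _ _).trans (min_le_right _ _))
  obtain ⟨hn1, hn2, hn3, -⟩ := hnear D hDε
  have he0 := R.e_pos
  have hp := yj_p2 j
  have hpk := yj_p2 R.k
  have hjk : 2 * p2 R.k ≤ p2 j := yj_p2_mono hj
  have hp2 : 2 ≤ p2 j := by
    obtain ⟨i, rfl⟩ : ∃ i, j = i + 1 := ⟨j - 1, by omega⟩
    exact yj_p2_succ i
  have hf0 : ∀ x, 0 ≤ D.f x := D.hf.nonneg
  -- points of the fat ring
  have hfr : ∀ x ∈ fr R.x₀ j, ‖x‖ ≤ 16 ∧ x ∈ ball R.x₀ (5 / p2 R.k) := by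
    intro x hx
    obtain ⟨h1, h2⟩ := hx
    have h3 : 4 / p2 j ≤ 2 := by
      rw [div_le_iff₀ hp]
      linarith
    have h4 : 4 / p2 j < 5 / p2 R.k := by
      rw [div_lt_div_iff₀ hp hpk]
      nlinarith
    refine ⟨?_, ?_⟩
    · have h5 : ‖x‖ ≤ ‖x - R.x₀‖ + ‖R.x₀‖ := by
        have := norm_add_le (x - R.x₀) R.x₀
        rwa [sub_add_cancel] at this
      have := R.hx
      linarith
    · rw [mem_ball, dist_eq_norm]
      linarith
  have hrf : ∀ x ∈ rg R.x₀ j, x ∈ fr R.x₀ j := by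
    intro x hx
    obtain ⟨h1, h2⟩ := hx
    constructor
    · refine le_trans ?_ h1
      rw [div_le_div_iff₀ (by positivity) hp]
      linarith
    · refine h2.trans ?_
      exact div_le_div_of_nonneg_right (by norm_num) hp.le
  have hamp : ∀ x ∈ fr R.x₀ j, ∀ i, j ≤ i → AA D.f i x ≤ R.e := by
    intro x hx i hi
    exact R.amp i (by omega) x (hfr x hx).2
  have hAx0 : AA D.f j R.x₀ ≤ R.e :=
    R.amp j (by omega) R.x₀ (mem_ball_self (by positivity))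
  have hint : p2 j ^ (n - 1) * ∫ y in fr R.x₀ j, D.f y ≤ R.e := by
    refine le_trans ?_ hAx0
    unfold AA
    refine mul_le_mul_of_nonneg_left ?_ (by positivity)
    refine setIntegral_mono_set D.hf.int.integrableOn (ae_of_all _ hf0) ?_
    refine LE.le.eventuallyLE ?_
    intro y hy
    obtain ⟨h1, h2⟩ := hy
    rw [mem_ball, dist_eq_norm]
    refine lt_of_le_of_lt h2 ?_
    exact div_lt_div_of_pos_right (by norm_num) hp
  have hT2 : (1 / 2 : ℝ) ^ R.T ≤ 1 / 4 := by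
    have h1 : (1 / 2 : ℝ) ^ R.T ≤ (1 / 2) ^ 2 :=
      pow_le_pow_of_le_one (by norm_num) (by norm_num) (by have := R.T3; omega)
    norm_num at h1 ⊢
    exact h1
  have hx2 : ‖R.x₀‖ ≤ 2 := R.hx.trans (by norm_num)
  have hMr : ∀ x ∈ rg R.x₀ j, ‖Mn R.μ R.x₀ j D.u - D.ub (j + 5) x‖ ≤ Cr * R.e := by
    intro x hx
    have h1 := (hring R.μ _ hT2 R.hμ D.u D.G (vg_u D) R.x₀ j hx2 (by omega)).1 x hx
    refine h1.trans (mul_le_mul_of_nonneg_left ?_ (by linarith))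
    exact hint
  -- the ring is not empty
  obtain ⟨x₁, hx₁⟩ : ∃ x₁, x₁ ∈ rg R.x₀ j := by
    refine ⟨R.x₀ + (1 / p2 j) • (ev ⟨0, by omega⟩ : E n), ?_⟩
    have h1 : ‖(ev ⟨0, by omega⟩ : E n)‖ = 1 := by
      unfold ev
      simp
    have e4 : ‖R.x₀ + (1 / p2 j) • (ev ⟨0, by omega⟩ : E n) - R.x₀‖ = 1 / p2 j := by
      rw [add_sub_cancel_left, norm_smul, Real.norm_of_nonneg (by positivity), h1, mul_one]
    constructor
    · rw [e4]
    · rw [e4]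
      exact div_le_div_of_nonneg_right (by norm_num) hp.le
  have hMN : infDist (Mn R.μ R.x₀ j D.u) P.N ≤ (Cr + Cn) * R.e := by
    have h1 := hMr x₁ hx₁
    have h2 := (hn3 (j + 5) x₁ (hfr x₁ (hrf x₁ hx₁)).1).1
    have h3 : AA D.f (j + 5) x₁ ≤ R.e := hamp x₁ (hrf x₁ hx₁) (j + 5) (by omega)
    have h4 : Cn * AA D.f (j + 5) x₁ ≤ Cn * R.e := mul_le_mul_of_nonneg_left h3 (by linarith)
    have h5 : infDist (Mn R.μ R.x₀ j D.u) P.N ≤
        infDist (D.ub (j + 5) x₁) P.N + dist (Mn R.μ R.x₀ j D.u) (D.ub (j + 5) x₁) :=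
      infDist_le_infDist_add_dist
    rw [dist_eq_norm] at h5
    linarith
  have hMδ : infDist (Mn R.μ R.x₀ j D.u) P.N < P.δ := by
    have h1 : (Cr + Cn) * R.e ≤ (Cr + Cn) * (P.δ / (2 * (Cr + Cn))) :=
      mul_le_mul_of_nonneg_left hRe hS0.le
    have h2 : (Cr + Cn) * (P.δ / (2 * (Cr + Cn))) = P.δ / 2 := by field_simp
    linarith
  have hM4 : infDist (Mn R.μ R.x₀ j D.u) P.N < 4 * P.δ := by linarith
  have hyN : R.yj j ∈ P.N := P.hT.mem _ hM4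
  have hMy : ‖Mn R.μ R.x₀ j D.u - R.yj j‖ ≤ (Cr + Cn) * R.e := by
    have h1 := P.hT.dist_eq _ hM4
    have h2 : R.yj j = P.π (Mn R.μ R.x₀ j D.u) := rfl
    rw [h2, h1]
    exact hMN
  have hCe : (Cr + Cn) * R.e ≤ (7 * Cn + 2 * Cr) * R.e :=
    mul_le_mul_of_nonneg_right (by linarith) he0.le
  refine ⟨hyN, hMN.trans hCe, hMδ, hMy.trans hCe, ?_⟩
  intro x hx i hi
  -- the steps of the mollified maps
  have hstep : ∀ x ∈ fr R.x₀ j, ∀ i, j ≤ i → ‖D.ub i x - D.ub j x‖ ≤ Cn * R.e * ((i : ℝ) - j) := by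
    intro x hx i hi
    induction i, hi using Nat.le_induction with
    | base => simp
    | succ i hi ih =>
      have h2 : D.ub (i + 1) x - D.ub j x =
          (D.ub (i + 1) x - D.ub i x) + (D.ub i x - D.ub j x) := by abel
      rw [h2]
      refine (norm_add_le _ _).trans ?_
      have h3 := hn2 i x (hfr x hx).1
      have h4 : Cn * AA D.f i x ≤ Cn * R.e :=
        mul_le_mul_of_nonneg_left (hamp x hx i hi) (by linarith)
      push_cast
      have e : Cn * R.e * ((i : ℝ) + 1 - j) = Cn * R.e + Cn * R.e * ((i : ℝ) - j) := by ring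
      rw [e]
      linarith
  obtain ⟨x', hx', hxx'⟩ := yj_ray hx
  have a1 := hstep x hx i hi
  have a2 : ‖D.ub j x - D.ub j x'‖ ≤ Cn * R.e := by
    have h1 := hn1 j x x' (hfr x hx).1 hxx'
    rw [norm_sub_rev]
    exact h1.trans (mul_le_mul_of_nonneg_left (hamp x hx j le_rfl) (by linarith))
  have a3 : ‖D.ub j x' - D.ub (j + 5) x'‖ ≤ Cn * R.e * 5 := by
    have h1 := hstep x' (hrf x' hx') (j + 5) (by omega)
    rw [norm_sub_rev]
    refine h1.trans (le_of_eq ?_)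
    push_cast
    ring
  have a4 : ‖D.ub (j + 5) x' - Mn R.μ R.x₀ j D.u‖ ≤ Cr * R.e := by
    rw [norm_sub_rev]
    exact hMr x' hx'
  have e1 : D.ub i x - R.yj j = (D.ub i x - D.ub j x) + (D.ub j x - D.ub j x') +
      (D.ub j x' - D.ub (j + 5) x') + (D.ub (j + 5) x' - Mn R.μ R.x₀ j D.u) +
      (Mn R.μ R.x₀ j D.u - R.yj j) := by abel
  rw [e1]
  have b1 := norm_add_le ((D.ub i x - D.ub j x) + (D.ub j x - D.ub j x') +
      (D.ub j x' - D.ub (j + 5) x') + (D.ub (j + 5) x' - Mn R.μ R.x₀ j D.u))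
      (Mn R.μ R.x₀ j D.u - R.yj j)
  have b2 := norm_add_le ((D.ub i x - D.ub j x) + (D.ub j x - D.ub j x') +
      (D.ub j x' - D.ub (j + 5) x')) (D.ub (j + 5) x' - Mn R.μ R.x₀ j D.u)
  have b3 := norm_add_le ((D.ub i x - D.ub j x) + (D.ub j x - D.ub j x'))
      (D.ub j x' - D.ub (j + 5) x')
  have b4 := norm_add_le (D.ub i x - D.ub j x) (D.ub j x - D.ub j x')
  have hij : (0 : ℝ) ≤ (i : ℝ) - j := by
    have : (j : ℝ) ≤ i := by exact_mod_cast hi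
    linarith
  have c1 : Cn * R.e * ((i : ℝ) - j) ≤ (7 * Cn + 2 * Cr) * R.e * ((i : ℝ) - j) := by
    refine mul_le_mul_of_nonneg_right (mul_le_mul_of_nonneg_right (by linarith) he0.le) hij
  have c2 : (7 * Cn + 2 * Cr) * R.e * ((i : ℝ) - j + 1) =
      (7 * Cn + 2 * Cr) * R.e * ((i : ℝ) - j) + (7 * Cn * R.e + 2 * Cr * R.e) := by ring
  rw [c2]
  have hMy' : ‖Mn R.μ R.x₀ j D.u - R.yj j‖ ≤ Cr * R.e + Cn * R.e := by
    rw [← add_mul]
    exact hMy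
  linarith

end H60NT
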