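import Pool.Agent.H60.NT.PoiI
import Pool.Agent.H60.NT.Yj
import Pool.Agent.H60.NH.NInt

/-!
# [H60 NT YJSTEP] Steps of the points `y_j`

`ring_mean`, second part, for `u`: `‖M_j - M_{j+1}‖ ≤ C p2 j^(n-1) ∫_{fr j ∪ fr (j+1)} f`. This is `≤ C e` (as in
`Yj`: the set is contained in `ball x₀ (8/p2 j)`), and by Hölder its `n`-th power is
`≤ C p2 j^(n(n-1)) |ball x₀ (8/p2 j)|^(n-1) ∫_{fr j ∪ fr (j+1)} f^n ≤ C D_j` (`fr j ∪ fr (j+1) ⊆ br j`).
`π` is Lipschitz near the two points (`TC.lip0`; `infDist M_j N < δ < 2δ`, `‖M_j - M_{j+1}‖ ≤ C e < 2δ`).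
Third claim: sum of the first.
-/

set_option autoImplicit false

namespace H60NT

open H60NH MeasureTheory Metric Set Filter Topology
open scoped ENNReal NNReal ContDiff

private theorem ys_p2 (k : ℕ) : 0 < p2 k := by unfold p2; positivity

private theorem ys_tan {x s : ℝ} (hx : 0 ≤ x) (hs : 0 ≤ s) {n : ℕ} (hn : 1 ≤ n) :
    n * s ^ (n - 1) * x - (n - 1) * s ^ n ≤ x ^ n := by
  obtain ⟨p, rfl⟩ : ∃ p, n = p + 1 := ⟨n - 1, by omega⟩
  simp only [Nat.add_sub_cancel]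
  push_cast
  rcases hs.eq_or_lt with h0 | h0
  · rw [← h0]
    rcases Nat.eq_zero_or_pos p with hp | hp
    · subst hp
      simp
    · have h1 : (0 : ℝ) ^ p = 0 := zero_pow (by omega)
      have h2 : (0 : ℝ) ^ (p + 1) = 0 := zero_pow (by omega)
      rw [h1, h2]
      have : 0 ≤ x ^ (p + 1) := pow_nonneg hx _
      linarith
  · have h1 : (-2 : ℝ) ≤ x / s - 1 := by
      have : 0 ≤ x / s := by positivity
      linarith
    have h2 := one_add_mul_le_pow h1 (p + 1)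
    have h3 : s ^ (p + 1) * (1 + ((p + 1 : ℕ) : ℝ) * (x / s - 1)) ≤
        s ^ (p + 1) * (1 + (x / s - 1)) ^ (p + 1) :=
      mul_le_mul_of_nonneg_left h2 (by positivity)
    have h4 : s ^ (p + 1) * (1 + (x / s - 1)) ^ (p + 1) = x ^ (p + 1) := by
      rw [← mul_pow]
      congr 1
      field_simp
      ring
    have h5 : s ^ (p + 1) * (1 + ((p + 1 : ℕ) : ℝ) * (x / s - 1)) =
        ((p : ℝ) + 1) * s ^ p * x - ((p : ℝ) + 1 - 1) * s ^ (p + 1) := by
      push_cast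
      rw [pow_succ]
      field_simp
      ring
    rw [h4, h5] at h3
    exact h3

private theorem ys_hold {n : ℕ} (hn : 1 ≤ n) {f : E n → ℝ} {ε : ℝ} (hf : Mor f ε)
    {A : Set (E n)} {x₀ : E n} {ρ : ℝ} (hρ : 0 < ρ) (hA : A ⊆ ball x₀ ρ) :
    (∫ y in A, f y) ^ n ≤ (vb n * ρ ^ n) ^ (n - 1) * ∫ y in A, f y ^ n := by
  have hvb := vb_pos n
  obtain ⟨V, hV⟩ : ∃ V, V = vb n * ρ ^ n := ⟨_, rfl⟩
  have hV0 : 0 < V := by rw [hV]; positivity
  obtain ⟨s, hs⟩ : ∃ s, s = (∫ y in A, f y) / V := ⟨_, rfl⟩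
  have hI0 : 0 ≤ ∫ y in A, f y := integral_nonneg hf.nonneg
  have hs0 : 0 ≤ s := by rw [hs]; positivity
  have hlt : volume A < ⊤ := (measure_mono hA).trans_lt measure_ball_lt_top
  have hvol : (volume A).toReal ≤ V := by
    have h1 : volume A ≤ ENNReal.ofReal V := by
      rw [hV, ← vol_ball x₀ ρ hρ]
      exact measure_mono hA
    exact ENNReal.toReal_le_of_le_ofReal hV0.le h1
  have hfin : IsFiniteMeasure (volume.restrict A) :=
    ⟨by rw [Measure.restrict_apply_univ]; exact hlt⟩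
  have hi1 : Integrable (fun y => n * s ^ (n - 1) * f y) (volume.restrict A) :=
    hf.int.integrableOn.const_mul _
  have hi2 : Integrable (fun _ : E n => ((n : ℝ) - 1) * s ^ n) (volume.restrict A) :=
    integrable_const _
  have h1 : ∫ y in A, (n * s ^ (n - 1) * f y - (n - 1) * s ^ n) ≤ ∫ y in A, f y ^ n := by
    refine integral_mono (hi1.sub hi2) hf.intn.integrableOn ?_
    intro y
    exact ys_tan (hf.nonneg y) hs0 hn
  rw [integral_sub hi1 hi2, integral_const_mul, integral_const, smul_eq_mul] at h1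
  have h2 : (volume.restrict A).real univ = (volume A).toReal := by
    rw [Measure.real, Measure.restrict_apply_univ]
  rw [h2] at h1
  have h3 : ∫ y in A, f y = V * s := by
    rw [hs]
    field_simp
  have hn1 : (0 : ℝ) ≤ (n : ℝ) - 1 := by
    have : (1 : ℝ) ≤ n := by exact_mod_cast hn
    linarith
  have h4 : (volume A).toReal * ((n - 1) * s ^ n) ≤ V * ((n - 1) * s ^ n) :=
    mul_le_mul_of_nonneg_right hvol (mul_nonneg hn1 (pow_nonneg hs0 _))
  have hsn : s ^ (n - 1) * s = s ^ n := by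
    rw [← pow_succ]
    congr 1
    omega
  have h5 : V * s ^ n ≤ ∫ y in A, f y ^ n := by
    rw [h3] at h1
    have e1 : n * s ^ (n - 1) * (V * s) = n * V * s ^ n := by
      rw [← hsn]
      ring
    rw [e1] at h1
    have e2 : V * ((n - 1) * s ^ n) = n * V * s ^ n - V * s ^ n := by ring
    linarith
  rw [h3, mul_pow, ← hV]
  have hVn : V ^ n = V ^ (n - 1) * V := by
    rw [← pow_succ]
    congr 1
    omega
  rw [hVn, mul_assoc]
  exact mul_le_mul_of_nonneg_left h5 (by positivity)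

theorem yj_step {n m : ℕ} (P : Par n m) : Uni P (fun C _ R =>
    (∀ j, R.k + 1 ≤ j → ‖R.yj j - R.yj (j + 1)‖ ≤ C * R.e ∧
      ‖R.yj j - R.yj (j + 1)‖ ^ n ≤ C * R.Dj j) ∧
    ∀ i j, R.k + 1 ≤ i → i ≤ j → ‖R.yj i - R.yj j‖ ≤ C * R.e * ((j : ℝ) - i)) := by
  have hn := P.hn
  obtain ⟨Cr, hCr, hring⟩ := ring_mean n m hn P.hφ
  obtain ⟨Cy, t₁, hCy, ht₁, hyj⟩ := yj_facts P
  have hδ : 0 < P.δ := P.hT.pos
  have hCT : 1 ≤ P.CT := P.hT.one_le
  have hvb := vb_pos n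
  obtain ⟨C, hC⟩ : ∃ C : ℝ, C = P.CT * Cr + (P.CT * Cr) ^ n * (vb n * 8 ^ n) ^ (n - 1) :=
    ⟨_, rfl⟩
  have hTr : 1 ≤ P.CT * Cr := one_le_mul_of_one_le_of_one_le hCT hCr
  have h8 : 0 ≤ (P.CT * Cr) ^ n * (vb n * 8 ^ n) ^ (n - 1) := by positivity
  refine ⟨C, t₁, by linarith, ht₁, ?_⟩
  intro Q C₅ t₀ h5 h0 h01
  obtain ⟨e₁, he₁, he₁1, H⟩ := hyj Q C₅ t₀ h5 h0 h01
  refine ⟨min e₁ (P.δ / Cr), by positivity, (min_le_left _ _).trans he₁1, ?_⟩
  intro D R hR
  have hR' : Ok R Q C₅ t₀ e₁ := hR.mono (min_le_left _ _)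
  have hRe : R.e ≤ P.δ / Cr := hR.e_le.trans (min_le_right _ _)
  have hf0 : ∀ x, 0 ≤ D.f x := D.hf.nonneg
  have he0 := R.e_pos
  have hT2 : (1 / 2 : ℝ) ^ R.T ≤ 1 / 4 := (rc_num R).2.2.2.1
  have hx2 : ‖R.x₀‖ ≤ 2 := R.hx.trans (by norm_num)
  have key : ∀ j, R.k + 1 ≤ j → ‖R.yj j - R.yj (j + 1)‖ ≤ C * R.e ∧
      ‖R.yj j - R.yj (j + 1)‖ ^ n ≤ C * R.Dj j := by
    intro j hj
    have hp := ys_p2 j
    have hpk := ys_p2 R.k
    obtain ⟨-, -, hMδ, -, -⟩ := H D R hR' j hj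
    have hsub : fr R.x₀ j ∪ fr R.x₀ (j + 1) ⊆ ball R.x₀ (8 / p2 j) := by
      intro y hy
      rw [mem_ball, dist_eq_norm]
      rcases hy with hy | hy
      · exact lt_of_le_of_lt hy.2 (div_lt_div_of_pos_right (by norm_num) hp)
      · refine lt_of_le_of_lt hy.2 ?_
        have e1 : p2 (j + 1) = 2 * p2 j := by
          unfold p2
          ring
        rw [e1, div_lt_div_iff₀ (by positivity) hp]
        linarith
    have hsub2 : fr R.x₀ j ∪ fr R.x₀ (j + 1) ⊆ br R.x₀ j := by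
      intro y hy
      have e1 : p2 (j + 1) = 2 * p2 j := by
        unfold p2
        ring
      rcases hy with hy | hy
      · obtain ⟨h1, h2⟩ := hy
        constructor
        · refine le_trans ?_ h1
          rw [div_le_div_iff₀ (by positivity) (by positivity)]
          linarith
        · refine h2.trans ?_
          exact div_le_div_of_nonneg_right (by norm_num) hp.le
      · obtain ⟨h1, h2⟩ := hy
        rw [e1] at h1 h2
        constructor
        · refine le_trans ?_ h1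
          rw [div_le_div_iff₀ (by positivity) (by positivity)]
          linarith
        · refine h2.trans ?_
          rw [div_le_div_iff₀ (by positivity) hp]
          linarith
    have hAe : p2 j ^ (n - 1) * ∫ y in fr R.x₀ j ∪ fr R.x₀ (j + 1), D.f y ≤ R.e := by
      refine le_trans ?_ (R.amp j (by omega) R.x₀ (mem_ball_self (by positivity)))
      unfold AA
      refine mul_le_mul_of_nonneg_left ?_ (by positivity)
      exact setIntegral_mono_set D.hf.int.integrableOn (ae_of_all _ hf0)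
        (LE.le.eventuallyLE hsub)
    have hMM : ‖Mn R.μ R.x₀ j D.u - Mn R.μ R.x₀ (j + 1) D.u‖ ≤
        Cr * (p2 j ^ (n - 1) * ∫ y in fr R.x₀ j ∪ fr R.x₀ (j + 1), D.f y) :=
      (hring R.μ _ hT2 R.hμ D.u D.G (vg_u D) R.x₀ j hx2 (by omega)).2
    have hMe : ‖Mn R.μ R.x₀ j D.u - Mn R.μ R.x₀ (j + 1) D.u‖ ≤ Cr * R.e :=
      hMM.trans (mul_le_mul_of_nonneg_left hAe (by linarith))
    have hM2 : ‖Mn R.μ R.x₀ j D.u - Mn R.μ R.x₀ (j + 1) D.u‖ < 2 * P.δ := by
      have h1 : Cr * R.e ≤ Cr * (P.δ / Cr) := mul_le_mul_of_nonneg_left hRe (by linarith)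
      have h2 : Cr * (P.δ / Cr) = P.δ := by field_simp
      linarith
    have hyy : ‖R.yj j - R.yj (j + 1)‖ ≤
        P.CT * ‖Mn R.μ R.x₀ j D.u - Mn R.μ R.x₀ (j + 1) D.u‖ :=
      P.hT.lip0 _ _ (by linarith) hM2
    constructor
    · refine hyy.trans ?_
      calc P.CT * ‖Mn R.μ R.x₀ j D.u - Mn R.μ R.x₀ (j + 1) D.u‖ ≤ P.CT * (Cr * R.e) :=
            mul_le_mul_of_nonneg_left hMe (by linarith)
        _ = P.CT * Cr * R.e := by ring
        _ ≤ C * R.e := mul_le_mul_of_nonneg_right (by linarith) he0.le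
    · have hI0 : 0 ≤ ∫ y in fr R.x₀ j ∪ fr R.x₀ (j + 1), D.f y := integral_nonneg hf0
      have h1 : ‖R.yj j - R.yj (j + 1)‖ ≤
          P.CT * (Cr * (p2 j ^ (n - 1) * ∫ y in fr R.x₀ j ∪ fr R.x₀ (j + 1), D.f y)) :=
        hyy.trans (mul_le_mul_of_nonneg_left hMM (by linarith))
      have h2 := pow_le_pow_left₀ (norm_nonneg _) h1 n
      have h3 := ys_hold (by omega : 1 ≤ n) D.hf (by positivity : 0 < 8 / p2 j) hsub
      have h4 : (P.CT * (Cr * (p2 j ^ (n - 1) *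
          ∫ y in fr R.x₀ j ∪ fr R.x₀ (j + 1), D.f y))) ^ n =
          (P.CT * Cr) ^ n * (p2 j ^ (n - 1)) ^ n *
            (∫ y in fr R.x₀ j ∪ fr R.x₀ (j + 1), D.f y) ^ n := by
        rw [← mul_pow, ← mul_pow]
        congr 1
        ring
      have h5 : (∫ y in fr R.x₀ j ∪ fr R.x₀ (j + 1), D.f y ^ n) ≤ R.Dj j := by
        unfold RC.Dj
        exact setIntegral_mono_set D.hf.intn.integrableOn
          (ae_of_all _ fun y => pow_nonneg (hf0 y) _) (LE.le.eventuallyLE hsub2)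
      have hD0 : 0 ≤ R.Dj j := by
        unfold RC.Dj
        exact integral_nonneg fun y => pow_nonneg (hf0 y) _
      have h6 : (p2 j ^ (n - 1)) ^ n * (vb n * (8 / p2 j) ^ n) ^ (n - 1) =
          (vb n * 8 ^ n) ^ (n - 1) := by
        have e1 : (p2 j ^ (n - 1)) ^ n = (p2 j ^ n) ^ (n - 1) := by
          rw [← pow_mul, ← pow_mul, mul_comm]
        rw [e1, ← mul_pow]
        congr 1
        rw [div_pow]
        field_simp
      calc ‖R.yj j - R.yj (j + 1)‖ ^ n ≤ _ := h2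
        _ = (P.CT * Cr) ^ n * (p2 j ^ (n - 1)) ^ n *
            (∫ y in fr R.x₀ j ∪ fr R.x₀ (j + 1), D.f y) ^ n := h4
        _ ≤ (P.CT * Cr) ^ n * (p2 j ^ (n - 1)) ^ n * ((vb n * (8 / p2 j) ^ n) ^ (n - 1) *
            ∫ y in fr R.x₀ j ∪ fr R.x₀ (j + 1), D.f y ^ n) :=
            mul_le_mul_of_nonneg_left h3 (by positivity)
        _ = (P.CT * Cr) ^ n * ((p2 j ^ (n - 1)) ^ n * (vb n * (8 / p2 j) ^ n) ^ (n - 1)) *
            ∫ y in fr R.x₀ j ∪ fr R.x₀ (j + 1), D.f y ^ n := by ring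
        _ = (P.CT * Cr) ^ n * (vb n * 8 ^ n) ^ (n - 1) *
            ∫ y in fr R.x₀ j ∪ fr R.x₀ (j + 1), D.f y ^ n := by rw [h6]
        _ ≤ (P.CT * Cr) ^ n * (vb n * 8 ^ n) ^ (n - 1) * R.Dj j :=
            mul_le_mul_of_nonneg_left h5 h8
        _ ≤ C * R.Dj j := mul_le_mul_of_nonneg_right (by linarith) hD0
  refine ⟨key, ?_⟩
  intro i j hi hij
  induction j, hij using Nat.le_induction with
  | base => simp
  | succ j hij ih =>
    have h2 : R.yj i - R.yj (j + 1) = (R.yj i - R.yj j) + (R.yj j - R.yj (j + 1)) := by abel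
    rw [h2]
    refine (norm_add_le _ _).trans ?_
    have h3 := (key j (by omega)).1
    push_cast
    have e : C * R.e * ((j : ℝ) + 1 - i) = C * R.e * ((j : ℝ) - i) + C * R.e := by ring
    rw [e]
    linarith

end H60NT
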