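import Pool.Agent.H60.NT.Def3
import Pool.Agent.H60.NT.El
import Pool.Agent.H60.NT.ChiF
import Pool.Agent.H60.NT.Lat
import Pool.Agent.H60.NT.RcNum
import Pool.Agent.H60.NT.RgGeo
import Pool.Agent.H60.NT.Yj
import Pool.Agent.H60.NT.PfB
import Pool.Agent.H60.NT.YjStep
import Pool.Agent.H60.NT.BPow

/-!
# [H60 NT HVBD] From `Bd` of the children to the hypothesis `HV`

`c = chd nd x₀ T j z`, weight `nd.η Th_j psi`, base point `P_c = π (ub_{j+T} z_c)`. If `Th_j psi = 0` identically, the left side of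
`HV` is `0`. Otherwise there is `x` with `Th_j x ≠ 0`, `psi x ≠ 0`: `‖x - z_c‖ < 1/p2 (j+T)`, `x ∈ fr x₀ j`, so `z_c ∈ fr x₀ j` or very
close: `‖z_c - x₀‖ ∈ [1/(2p2 j) - .., 2/p2 j + ..]`; `‖ub_{j+T} z_c - y_j‖ ≤ C e (T + 1) ≤ C √e` (`near_ub` for `x`, `z_c` and `yj_facts` for `x`),
`π` Lipschitz: `‖P_c - y_j‖ ≤ C √e`, `‖y_j - y_α‖ ≤ C √e`, `‖lam z_c - y_α‖ ≤ C √e` (`pf_dist`, `z_c ∈ fr x₀ j ∪ fr x₀ (j+1)`), so for
`q := lam z_c ∈ N`: `dd q P_c ≤ CG ‖q - P_c‖ ≤ C √e ≤ min (t₀/2) r₁` (`dd_lip`, `dd_self`, `P_c ∈ N`) for `e` small (`e₁` may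
depend on `t₀`). `Bd` with this `q` and `S' = R.S` (measurable by `b_pow`): the condition `dd q P_c + C₅ NN f K (j+T) x ≤ t₀` holds because
`x ∈ S`, `1/(2 p2 j) = 1/p2 (j+1) ≤ ‖x - x₀‖` gives `NN f K (j+T) x ≤ t₀/(2C₅)` (definition of `gs` with `j + 1`). So
`∫_S nd.η Th psi g_q - Phi (nd.η Th psi) q ≤ U j z`. On the support of `Th_j psi`: `|nd.η x - ηb| ≤ L₀ p2 k ‖x - x₀‖ ≤ 2 L₀ p2 k/p2 j ≤ 2 L₀ 2^(-W)`
(mean value inequality), and `2^(-W) ≤ 2^(-1/√e)` is smaller than `e^(Q+5)` for small `e`: replacing `nd.η` by `ηb` costs at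
most `2 CG · 2 L₀ 2^(-W) ∫_{supp} f^n ≤ e^(Q+4) ∫_{supp} f^n`, `supp ⊆ ball z_c (1/p2 (j+T)) ∩ fr x₀ j`.
Second theorem: sum over `z`: every point is in at most `(2·2^n+1)^n` of the balls (`psi_count`), `fr x₀ j ⊆ br x₀ j`.
-/

set_option autoImplicit false

namespace H60NT

open H60NH MeasureTheory Metric Set Filter Topology
open scoped ENNReal NNReal ContDiff

/-- The bounds `V` made from the bounds `U` of the children. -/
noncomputable def VU {n m : ℕ} {P : Par n m} {D : Dyn P} (R : RC D)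
    (U : ℕ → (Fin n → ℤ) → ℝ) (j : ℕ) (z : Fin n → ℤ) : ℝ :=
  U j z + R.e ^ (R.Q + 4) *
    ∫ x in ball (zc (j + R.T + n) z) (1 / p2 (j + R.T)) ∩ fr R.x₀ j, D.f x ^ n

lemma hvbd_p2_pos (j : ℕ) : 0 < p2 j := by unfold p2; positivity

lemma hvbd_p2_add (i j : ℕ) : p2 (i + j) = p2 i * p2 j := by unfold p2; rw [pow_add]

lemma hvbd_p2_mono {i j : ℕ} (h : i ≤ j) : p2 i ≤ p2 j := by
  unfold p2
  exact pow_le_pow_right₀ (by norm_num) h

/-- The numerical smallness. -/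
lemma hvbd_small (M : ℝ) (hM : 1 ≤ M) (Q : ℕ) : ∃ e₁ : ℝ, 0 < e₁ ∧ ∀ (e : ℝ) (W : ℕ), 0 < e →
    e ≤ e₁ → 1 ≤ W * Real.sqrt e → M * (1 / 2 : ℝ) ^ W ≤ e ^ (Q + 4) := by
  have h1 := tendsto_pow_const_div_const_pow_of_one_lt (2 * (Q + 4)) (by norm_num : (1 : ℝ) < 2)
  have h2 : ∀ᶠ w : ℕ in atTop, ((w : ℝ) ^ (2 * (Q + 4)) / 2 ^ w) < 1 / M :=
    h1.eventually (gt_mem_nhds (by positivity))
  obtain ⟨W₀, hW₀⟩ := eventually_atTop.1 h2
  refine ⟨1 / ((W₀ : ℝ) + 1) ^ 2, by positivity, ?_⟩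
  intro e W he hee hW
  have hs : 0 < Real.sqrt e := Real.sqrt_pos.2 he
  have h3 : Real.sqrt e ≤ 1 / ((W₀ : ℝ) + 1) := by
    rw [Real.sqrt_le_left (by positivity)]
    rw [div_pow, one_pow]
    exact hee
  have h4 : (W₀ : ℝ) + 1 ≤ W := by
    rw [le_div_iff₀ (by positivity)] at h3
    by_contra hcon
    push Not at hcon
    have h5 : (W : ℝ) * Real.sqrt e < ((W₀ : ℝ) + 1) * Real.sqrt e :=
      mul_lt_mul_of_pos_right hcon hs
    linarith
  have h5 : W₀ ≤ W := by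
    have : (W₀ : ℝ) ≤ W := by linarith
    exact_mod_cast this
  have h6 := hW₀ W h5
  have hW0 : (0 : ℝ) < W := by
    have : (0 : ℝ) ≤ W₀ := Nat.cast_nonneg _
    linarith
  rw [div_lt_div_iff₀ (by positivity) (by linarith)] at h6
  have h7 : 1 ≤ (e * (W : ℝ) ^ 2) ^ (Q + 4) := by
    refine one_le_pow₀ ?_
    have h8 : e * (W : ℝ) ^ 2 = (W * Real.sqrt e) ^ 2 := by
      rw [mul_pow, Real.sq_sqrt he.le]
      ring
    rw [h8]
    exact one_le_pow₀ hW
  rw [mul_pow, ← pow_mul] at h7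
  have hP : 0 < (W : ℝ) ^ (2 * (Q + 4)) := by positivity
  rw [one_div_pow, mul_one_div, div_le_iff₀ (by positivity)]
  have h9 : M * (W : ℝ) ^ (2 * (Q + 4)) ≤ e ^ (Q + 4) * 2 ^ W * (W : ℝ) ^ (2 * (Q + 4)) := by
    calc M * (W : ℝ) ^ (2 * (Q + 4)) ≤ 1 * 2 ^ W := by linarith
      _ ≤ (e ^ (Q + 4) * (W : ℝ) ^ (2 * (Q + 4))) * 2 ^ W :=
          mul_le_mul_of_nonneg_right h7 (by positivity)
      _ = e ^ (Q + 4) * 2 ^ W * (W : ℝ) ^ (2 * (Q + 4)) := by ring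
  exact le_of_mul_le_mul_right h9 hP

/-- Square roots are small. -/
lemma hvbd_sqrt (K t : ℝ) (hK : 0 < K) (ht : 0 < t) : ∃ e₁ : ℝ, 0 < e₁ ∧ ∀ e : ℝ, 0 < e → e ≤ e₁ →
    K * Real.sqrt e ≤ t := by
  refine ⟨(t / K) ^ 2, by positivity, ?_⟩
  intro e he hee
  have h1 : Real.sqrt e ≤ t / K := by
    rw [Real.sqrt_le_left (by positivity)]
    exact hee
  rw [le_div_iff₀ hK] at h1
  linarith

/-- The weight of a node is Lipschitz. -/
lemma hvbd_eta {n : ℕ} {L₀ : ℝ} {nd : Node n} (h : nd.OK L₀) (hL : 0 ≤ L₀) (x x' : E n) :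
    |nd.η x - nd.η x'| ≤ L₀ * p2 nd.k * ‖x - x'‖ := by
  have hp := hvbd_p2_pos nd.k
  rw [← Real.norm_eq_abs]
  refine Convex.norm_image_sub_le_of_norm_fderiv_le (𝕜 := ℝ) (s := Set.univ)
    (fun y _ => (h.smooth.differentiable (by norm_num)).differentiableAt) ?_ convex_univ
    (Set.mem_univ _) (Set.mem_univ _)
  intro y _
  refine ContinuousLinearMap.opNorm_le_bound _ (by positivity) ?_
  intro v
  rw [Real.norm_eq_abs]
  exact h.der y v

theorem hv_of_bd {n m : ℕ} (P : Par n m) (Cp L₀ : ℝ) (hCp : 1 ≤ Cp) (hL : 1 ≤ L₀) :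
    Uni P (fun _ D R => ∀ (nd : Node n) (ρ : ℝ) (U : ℕ → (Fin n → ℤ) → ℝ) (s : ℕ),
      nd.OK L₀ → R.k = nd.k → ‖R.x₀ - nd.y‖ ≤ 2 / p2 nd.k → R.k + R.W ≤ s → 0 ≤ ρ →
      (∀ j ∈ Finset.Ico s (s + R.W), ∀ z ∈ box n (j + R.T + n), 0 ≤ U j z ∧
        ((∃ x, P.Th R.x₀ j x * P.psi (j + R.T + n) z x ≠ 0) →
          D.Bd R.C₅ R.t₀ (P.chd nd R.x₀ R.T j z) ρ (U j z))) →
      ∀ (α β : ℕ) (pf : Pf R Cp α β), s ≤ α → β ≤ s + R.W → α + 2 ≤ β →
        pf.HV (nd.η R.x₀) (VU R U)) := by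
  obtain ⟨ε₁, Cn, hε₁, hCn, hnear⟩ := near_ub P
  obtain ⟨Cy, t₁, hCy, ht₁, hyj⟩ := yj_facts P
  obtain ⟨Cs, t₂, hCs, ht₂, hys⟩ := yj_step P
  obtain ⟨Cb, t₃, hCb, ht₃, hbp⟩ := b_pow P
  obtain ⟨Cd, hCd, hpd⟩ := pf_dist P Cp hCp
  have hδ : 0 < P.δ := P.hT.pos
  have hCT : 1 ≤ P.CT := P.hT.one_le
  have hCG : 1 ≤ P.CG := P.hG.one_le
  have hr1 := P.hG.r1_pos
  refine ⟨1, min t₁ (min t₂ t₃), le_refl _, lt_min ht₁ (lt_min ht₂ ht₃), ?_⟩
  intro Q C₅ t₀ h5 h0 h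
  obtain ⟨a1, ha1, ha11, A1⟩ := hyj Q C₅ t₀ h5 h0 (h.trans (min_le_left _ _))
  obtain ⟨a2, ha2, ha21, A2⟩ := hys Q C₅ t₀ h5 h0
    (h.trans ((min_le_right _ _).trans (min_le_left _ _)))
  obtain ⟨a3, ha3, ha31, A3⟩ := hbp Q C₅ t₀ h5 h0
    (h.trans ((min_le_right _ _).trans (min_le_right _ _)))
  obtain ⟨a4, ha4, A4⟩ := hvbd_small (4 * P.CG * L₀) (by
    have := one_le_mul_of_one_le_of_one_le hCG hL
    linarith) Q
  set K0 : ℝ := Cy + 2 * Cy + 2 * Cn with hK0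
  set K : ℝ := Cd + 2 * Cs + P.CT * K0 with hK
  have hK0p : 0 < K0 := by linarith
  have hKp : 0 < K := by
    have : 0 < P.CT * K0 := by positivity
    linarith
  obtain ⟨a5, ha5, A5⟩ := hvbd_sqrt K0 P.δ hK0p hδ
  obtain ⟨a6, ha6, A6⟩ := hvbd_sqrt (P.CG * K) (min (t₀ / 2) P.r₁) (by positivity)
    (lt_min (by linarith) hr1)
  refine ⟨min (min ε₁ (min a1 a2)) (min a3 (min a4 (min a5 a6))),
    lt_min (lt_min hε₁ (lt_min ha1 ha2)) (lt_min ha3 (lt_min ha4 (lt_min ha5 ha6))),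
    ((min_le_right _ _).trans (min_le_left _ _)).trans ha31, ?_⟩
  intro D R hR nd ρ U s hnd hk hcen hs hρ hU α β pf hsα hβs hαβ
  have l1 : min (min ε₁ (min a1 a2)) (min a3 (min a4 (min a5 a6))) ≤ ε₁ :=
    (min_le_left _ _).trans (min_le_left _ _)
  have l2 : min (min ε₁ (min a1 a2)) (min a3 (min a4 (min a5 a6))) ≤ a1 :=
    (min_le_left _ _).trans ((min_le_right _ _).trans (min_le_left _ _))
  have l3 : min (min ε₁ (min a1 a2)) (min a3 (min a4 (min a5 a6))) ≤ a2 :=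
    (min_le_left _ _).trans ((min_le_right _ _).trans (min_le_right _ _))
  have l4 : min (min ε₁ (min a1 a2)) (min a3 (min a4 (min a5 a6))) ≤ a3 :=
    (min_le_right _ _).trans (min_le_left _ _)
  have l5 : min (min ε₁ (min a1 a2)) (min a3 (min a4 (min a5 a6))) ≤ a4 :=
    (min_le_right _ _).trans ((min_le_right _ _).trans (min_le_left _ _))
  have l6 : min (min ε₁ (min a1 a2)) (min a3 (min a4 (min a5 a6))) ≤ a5 :=
    (min_le_right _ _).trans ((min_le_right _ _).trans ((min_le_right _ _).trans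
      (min_le_left _ _)))
  have l7 : min (min ε₁ (min a1 a2)) (min a3 (min a4 (min a5 a6))) ≤ a6 :=
    (min_le_right _ _).trans ((min_le_right _ _).trans ((min_le_right _ _).trans
      (min_le_right _ _)))
  obtain ⟨n1, n2, n3, n4⟩ := hnear D (hR.ε_le.trans l1)
  have B1 := A1 D R (hR.mono l2)
  have B2 := (A2 D R (hR.mono l3)).2
  have hSm := (A3 D R (hR.mono l4)).1
  have hep := R.e_pos
  have B4 := A4 R.e R.W hep (hR.e_le.trans l5) R.W1
  have B5 := A5 R.e hep (hR.e_le.trans l6)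
  have B6 := A6 R.e hep (hR.e_le.trans l7)
  obtain ⟨c1, c2, c3, c4, c5, c6, c7⟩ := rc_num R
  have hQ : R.Q = Q := hR.hQ
  have hC5 : R.C₅ = C₅ := hR.hC
  have ht0 : R.t₀ = t₀ := hR.ht
  obtain ⟨hfm, hf0, hfi, hfn, hgm, hgb, hgi, hpi⟩ := dyn_int D
  intro j hj z hz
  rw [Finset.mem_Ico] at hj
  have hjs : j ∈ Finset.Ico s (s + R.W) := Finset.mem_Ico.2 ⟨by omega, by omega⟩
  obtain ⟨hU0, hUB⟩ := hU j hjs z hz
  obtain ⟨th1, th2, th3, th4⟩ := th_facts P R.x₀ j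
  obtain ⟨ps1, ps2, ps3, ps4, ps5⟩ := psi_facts P (j + R.T + n) z
  have hpj := hvbd_p2_pos j
  have hpT := hvbd_p2_pos (j + R.T)
  have hsc : (2 : ℝ) ^ n / p2 (j + R.T + n) = 1 / p2 (j + R.T) := by
    rw [hvbd_p2_add (j + R.T) n]
    unfold p2
    field_simp
  set q : E m := pf.lam (zc (j + R.T + n) z) with hq
  have hqN : q ∈ P.N := pf.lam_mem _
  have hbig : 0 ≤ ∫ x in ball (zc (j + R.T + n) z) (1 / p2 (j + R.T)) ∩ fr R.x₀ j, D.f x ^ n := by
    refine integral_nonneg fun x => ?_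
    have := hf0 x
    simp only [Pi.zero_apply]
    positivity
  by_cases hex : ∃ x, P.Th R.x₀ j x * P.psi (j + R.T + n) z x ≠ 0
  swap
  · push Not at hex
    have e1 : ∫ x in R.S, P.Th R.x₀ j x * P.psi (j + R.T + n) z x * D.gq q x = 0 := by
      simp only [hex, zero_mul, integral_zero]
    have e2 : D.Phi (fun x => P.Th R.x₀ j x * P.psi (j + R.T + n) z x) q = 0 := by
      unfold Dyn.Phi
      simp only [hex, zero_mul, integral_zero]
    rw [e1, e2, sub_zero, mul_zero]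
    unfold VU
    positivity
  have hBd := hUB hex
  obtain ⟨x, hx⟩ := hex
  have hxT : P.Th R.x₀ j x ≠ 0 := left_ne_zero_of_mul hx
  have hxp : P.psi (j + R.T + n) z x ≠ 0 := right_ne_zero_of_mul hx
  obtain ⟨x1, x2⟩ := th3 x hxT
  have x3 := ps3 x hxp
  rw [hsc] at x3
  -- the lattice point
  have hT20 : (2 : ℝ) ^ 20 * p2 j ≤ p2 (j + R.T) := by
    rw [hvbd_p2_add]
    have h1 : (2 : ℝ) ^ 20 ≤ p2 R.T := by
      unfold p2
      exact pow_le_pow_right₀ (by norm_num) R.T3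
    rw [mul_comm (p2 j)]
    exact mul_le_mul_of_nonneg_right h1 hpj.le
  have hsmall : 1 / p2 (j + R.T) ≤ 1 / (4 * p2 j) := by
    apply one_div_le_one_div_of_le (by positivity)
    have : (4 : ℝ) * p2 j ≤ 2 ^ 20 * p2 j :=
      mul_le_mul_of_nonneg_right (by norm_num) hpj.le
    linarith
  have hz1 : 1 / (4 * p2 j) ≤ ‖zc (j + R.T + n) z - R.x₀‖ := by
    have h1 : ‖x - R.x₀‖ ≤ ‖x - zc (j + R.T + n) z‖ + ‖zc (j + R.T + n) z - R.x₀‖ :=
      norm_sub_le_norm_sub_add_norm_sub _ _ _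
    have h2 : 1 / (2 * p2 j) = 1 / (4 * p2 j) + 1 / (4 * p2 j) := by field_simp; norm_num
    linarith
  have hz2 : ‖zc (j + R.T + n) z - R.x₀‖ ≤ 2 / p2 j + 1 / (4 * p2 j) := by
    have h1 : ‖zc (j + R.T + n) z - R.x₀‖ ≤ ‖zc (j + R.T + n) z - x‖ + ‖x - R.x₀‖ :=
      norm_sub_le_norm_sub_add_norm_sub _ _ _
    rw [norm_sub_rev (zc (j + R.T + n) z) x] at h1
    linarith
  have hps : p2 (j + 1) = 2 * p2 j := by unfold p2; ring
  have hzfr : ∃ j', α - 1 ≤ j' ∧ j' ≤ β + 1 ∧ zc (j + R.T + n) z ∈ fr R.x₀ j' := by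
    by_cases hc : 1 / (2 * p2 j) ≤ ‖zc (j + R.T + n) z - R.x₀‖
    · refine ⟨j, by omega, by omega, hc, hz2.trans ?_⟩
      have h1 : 4 / p2 j = 2 / p2 j + 8 * (1 / (4 * p2 j)) := by field_simp; norm_num
      have h2 : 0 < 1 / (4 * p2 j) := by positivity
      linarith
    · push Not at hc
      refine ⟨j + 1, by omega, by omega, ?_, ?_⟩
      · rw [hps]
        have h1 : 2 * (2 * p2 j) = 4 * p2 j := by ring
        rw [h1]
        exact hz1
      · rw [hps]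
        refine hc.le.trans ?_
        rw [div_le_div_iff₀ (by positivity) (by positivity)]
        linarith
  obtain ⟨j', hj'1, hj'2, hj'3⟩ := hzfr
  have hd1 := ((hpd D R α β pf hαβ).1 j' hj'1 hj'2 _ hj'3).1
  -- the distances
  have hpj1 : 1 ≤ p2 j := by unfold p2; exact one_le_pow₀ (by norm_num)
  have hx16 : ‖x‖ ≤ 16 := by
    have h1 : ‖x‖ ≤ ‖x - R.x₀‖ + ‖R.x₀‖ := by
      have := norm_add_le (x - R.x₀) R.x₀
      rwa [sub_add_cancel] at this
    have h2 : 2 / p2 j ≤ 2 := by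
      rw [div_le_iff₀ hpj]
      linarith
    have := R.hx
    linarith
  have hz16 : ‖zc (j + R.T + n) z‖ ≤ 16 := by
    have h1 : ‖zc (j + R.T + n) z‖ ≤ ‖zc (j + R.T + n) z - R.x₀‖ + ‖R.x₀‖ := by
      have := norm_add_le (zc (j + R.T + n) z - R.x₀) R.x₀
      rwa [sub_add_cancel] at this
    have h2 : 2 / p2 j + 1 / (4 * p2 j) ≤ 3 := by
      have e1 : 2 / p2 j ≤ 2 := by
        rw [div_le_iff₀ hpj]
        linarith
      have e2 : 1 / (4 * p2 j) ≤ 1 := by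
        rw [div_le_iff₀ (by positivity)]
        linarith
      linarith
    have := R.hx
    linarith
  have hxfr : x ∈ fr R.x₀ j := by
    refine ⟨x1.le, x2.le.trans ?_⟩
    exact div_le_div_of_nonneg_right (by norm_num) hpj.le
  have hkj : R.k + 1 ≤ j := by omega
  have hkα : R.k + 1 ≤ α := by omega
  obtain ⟨y1, y2, y3, y4, y5⟩ := B1 j hkj
  have y6 := y5 x hxfr (j + R.T) (by omega)
  have y7 := n1 (j + R.T) x (zc (j + R.T + n) z) hx16 (by
    refine x3.le.trans ?_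
    exact div_le_div_of_nonneg_right (by norm_num) hpT.le)
  have y8 : AA D.f (j + R.T) x ≤ R.e := by
    refine R.amp (j + R.T) (by omega) x ?_
    rw [mem_ball_iff_norm]
    refine x2.trans ?_
    have h1 := hvbd_p2_pos R.k
    have h2 : p2 R.k ≤ p2 j := hvbd_p2_mono (by omega)
    rw [div_lt_div_iff₀ hpj h1]
    linarith
  have y9 : ‖D.ub (j + R.T) (zc (j + R.T + n) z) - R.yj j‖ ≤ K0 * Real.sqrt R.e := by
    have h1 : ‖D.ub (j + R.T) (zc (j + R.T + n) z) - R.yj j‖ ≤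
        ‖D.ub (j + R.T) (zc (j + R.T + n) z) - D.ub (j + R.T) x‖ +
          ‖D.ub (j + R.T) x - R.yj j‖ := norm_sub_le_norm_sub_add_norm_sub _ _ _
    have h2 : Cn * AA D.f (j + R.T) x ≤ Cn * R.e := mul_le_mul_of_nonneg_left y8 (by linarith)
    have h3 : ((j + R.T : ℕ) : ℝ) - j + 1 = R.T + 1 := by push_cast; ring
    rw [h3] at y6
    have h4 : Cy * R.e * ((R.T : ℝ) + 1) = Cy * (R.e * R.T) + Cy * R.e := by ring
    rw [h4] at y6
    have h5 : Cy * (R.e * R.T) ≤ Cy * Real.sqrt R.e :=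
      mul_le_mul_of_nonneg_left R.T2 (by linarith)
    have h6 : Cy * R.e ≤ Cy * Real.sqrt R.e := mul_le_mul_of_nonneg_left c2 (by linarith)
    have h7 : Cn * R.e ≤ Cn * Real.sqrt R.e := mul_le_mul_of_nonneg_left c2 (by linarith)
    have h8 : K0 * Real.sqrt R.e = Cy * Real.sqrt R.e + 2 * (Cy * Real.sqrt R.e) +
        2 * (Cn * Real.sqrt R.e) := by rw [hK0]; ring
    have hsq : 0 < Real.sqrt R.e := Real.sqrt_pos.2 hep
    have h9 : 0 ≤ Cn * Real.sqrt R.e := by positivity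
    have h10 : 0 ≤ Cy * Real.sqrt R.e := by positivity
    rw [h8]
    linarith
  have hPN : P.π (D.ub (j + R.T) (zc (j + R.T + n) z)) ∈ P.N := by
    refine P.hT.mem _ ?_
    have := (n3 (j + R.T) _ hz16).2
    linarith
  have hd2 : ‖R.yj j - P.π (D.ub (j + R.T) (zc (j + R.T + n) z))‖ ≤
      P.CT * (K0 * Real.sqrt R.e) := by
    have h1 := P.hT.lip0 (R.yj j) (D.ub (j + R.T) (zc (j + R.T + n) z)) (by
      rw [infDist_zero_of_mem y1]
      linarith) (by
      rw [norm_sub_rev]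
      linarith)
    rw [P.hT.fixed _ y1, norm_sub_rev (R.yj j) (D.ub _ _)] at h1
    exact h1.trans (mul_le_mul_of_nonneg_left y9 (by linarith))
  have hd3 : ‖R.yj α - R.yj j‖ ≤ 2 * Cs * Real.sqrt R.e := by
    have h1 := B2 α j hkα (by omega)
    have h2 : (j : ℝ) - α ≤ R.W := by
      have : (j : ℝ) ≤ α + R.W := by exact_mod_cast (by omega : j ≤ α + R.W)
      linarith
    have h3 : Cs * R.e * ((j : ℝ) - α) ≤ Cs * R.e * R.W :=
      mul_le_mul_of_nonneg_left h2 (by positivity)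
    have h4 : Cs * R.e * R.W = Cs * (R.e * R.W) := by ring
    have h5 : Cs * (R.e * R.W) ≤ Cs * (2 * Real.sqrt R.e) :=
      mul_le_mul_of_nonneg_left c1 (by linarith)
    linarith
  have hd4 : ‖P.π (D.ub (j + R.T) (zc (j + R.T + n) z)) - q‖ ≤ K * Real.sqrt R.e := by
    have h1 : ‖q - P.π (D.ub (j + R.T) (zc (j + R.T + n) z))‖ ≤ ‖q - R.yj α‖ +
        ‖R.yj α - P.π (D.ub (j + R.T) (zc (j + R.T + n) z))‖ :=
      norm_sub_le_norm_sub_add_norm_sub _ _ _
    have h2 : ‖R.yj α - P.π (D.ub (j + R.T) (zc (j + R.T + n) z))‖ ≤ ‖R.yj α - R.yj j‖ +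
        ‖R.yj j - P.π (D.ub (j + R.T) (zc (j + R.T + n) z))‖ :=
      norm_sub_le_norm_sub_add_norm_sub _ _ _
    rw [norm_sub_rev]
    have h3 : K * Real.sqrt R.e = Cd * Real.sqrt R.e + 2 * Cs * Real.sqrt R.e +
        P.CT * (K0 * Real.sqrt R.e) := by rw [hK]; ring
    rw [h3]
    linarith
  have hdd : P.dd q (P.π (D.ub (j + R.T) (zc (j + R.T + n) z))) ≤ min (t₀ / 2) P.r₁ := by
    have h1 := P.hG.dd_lip q hqN _ hPN q hqN
    rw [P.hG.dd_self q hqN, sub_zero] at h1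
    have h2 := (le_abs_self _).trans h1
    have h3 : P.CG * ‖P.π (D.ub (j + R.T) (zc (j + R.T + n) z)) - q‖ ≤
        P.CG * (K * Real.sqrt R.e) := mul_le_mul_of_nonneg_left hd4 (by linarith)
    have h4 : P.CG * (K * Real.sqrt R.e) = P.CG * K * Real.sqrt R.e := by ring
    linarith
  have hbase : D.base (P.chd nd R.x₀ R.T j z) =
      P.π (D.ub (j + R.T) (zc (j + R.T + n) z)) := rfl
  have hmain := hBd q hqN (by
    rw [hbase]
    have := hdd.trans (min_le_right _ _)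
    linarith) R.S hSm (by
    intro y hy hη Kk
    rw [hbase]
    have h1 := hdd.trans (min_le_left _ _)
    have h2 : P.Th R.x₀ j y ≠ 0 := by
      intro h3
      apply hη
      change nd.η y * P.Th R.x₀ j y * P.psi (j + R.T + n) z y = 0
      rw [h3]
      ring
    have h3 := (th3 y h2).1
    have h4 : NN D.f Kk (j + 1 - 1 + R.T) y ≤ R.t₀ / (2 * R.C₅) :=
      hy (j + 1) Kk (by omega) (by rw [hps]; exact h3.le)
    rw [Nat.add_sub_cancel] at h4
    have h5 : R.C₅ * NN D.f Kk (j + R.T) y ≤ R.C₅ * (R.t₀ / (2 * R.C₅)) :=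
      mul_le_mul_of_nonneg_left h4 (by rw [hC5]; linarith)
    have h6 : R.C₅ * (R.t₀ / (2 * R.C₅)) = t₀ / 2 := by
      rw [hC5, ht0]
      field_simp
    have h7 : (P.chd nd R.x₀ R.T j z).k = j + R.T := rfl
    rw [h7, ht0]
    linarith)
  -- replacing the weight
  set A : Set (E n) := ball (zc (j + R.T + n) z) (1 / p2 (j + R.T)) ∩ fr R.x₀ j with hA
  have hAm : MeasurableSet A := measurableSet_ball.inter (rg_meas R.x₀ j).2.1
  set hh : E n → ℝ := fun y => P.Th R.x₀ j y * P.psi (j + R.T + n) z y with hhdef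
  have hhb : ∀ y, 0 ≤ hh y ∧ hh y ≤ 1 := by
    intro y
    have h1 := th2 y
    have h2 := ps2 y
    refine ⟨mul_nonneg h1.1 h2.1, ?_⟩
    calc hh y ≤ 1 * 1 := mul_le_mul h1.2 h2.2 h2.1 (by norm_num)
      _ = 1 := by norm_num
  have hhm : Measurable hh := (th1.continuous.measurable).mul ps1.continuous.measurable
  have hηm : Measurable nd.η := hnd.smooth.continuous.measurable
  have hhA : ∀ y, y ∉ A → hh y = 0 := by
    intro y hy
    by_contra hne
    apply hy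
    have g1 : P.Th R.x₀ j y ≠ 0 := left_ne_zero_of_mul hne
    have g2 : P.psi (j + R.T + n) z y ≠ 0 := right_ne_zero_of_mul hne
    have g3 := ps3 y g2
    rw [hsc] at g3
    obtain ⟨g4, g5⟩ := th3 y g1
    refine ⟨by rw [mem_ball_iff_norm]; exact g3, g4.le, g5.le.trans ?_⟩
    exact div_le_div_of_nonneg_right (by norm_num) hpj.le
  have hdel : ∀ y, hh y ≠ 0 → |nd.η R.x₀ - nd.η y| ≤ 2 * L₀ * (1 / 2 : ℝ) ^ R.W := by
    intro y hne
    have g1 : P.Th R.x₀ j y ≠ 0 := left_ne_zero_of_mul hne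
    obtain ⟨g4, g5⟩ := th3 y g1
    have g6 := hvbd_eta hnd (by linarith) R.x₀ y
    refine g6.trans ?_
    rw [norm_sub_rev]
    have hpk := hvbd_p2_pos nd.k
    have g7 : L₀ * p2 nd.k * ‖y - R.x₀‖ ≤ L₀ * p2 nd.k * (2 / p2 j) :=
      mul_le_mul_of_nonneg_left g5.le (by positivity)
    refine g7.trans ?_
    have g8 : p2 nd.k * p2 R.W ≤ p2 j := by
      rw [← hvbd_p2_add, ← hk]
      exact hvbd_p2_mono (by omega)
    have g9 : (1 / 2 : ℝ) ^ R.W = 1 / p2 R.W := by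
      unfold p2
      rw [one_div_pow]
    rw [g9]
    have g10 := hvbd_p2_pos R.W
    have g11 : L₀ * p2 nd.k * (2 / p2 j) = (2 * L₀) * (p2 nd.k / p2 j) := by ring
    rw [g11]
    refine mul_le_mul_of_nonneg_left ?_ (by linarith)
    rw [div_le_div_iff₀ hpj g10]
    linarith
  set M0 : ℝ := 2 * L₀ * (1 / 2 : ℝ) ^ R.W with hM0
  have hM0p : 0 ≤ M0 := by positivity
  have hF2 : ∀ y, |(nd.η R.x₀ - nd.η y) * hh y * D.gq q y| ≤
      A.indicator (fun y => M0 * P.CG * D.f y ^ n) y := by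
    intro y
    by_cases hy : y ∈ A
    · rw [Set.indicator_of_mem hy]
      rw [abs_mul, abs_mul]
      have g1 := hgb q y
      have g2 := hf0 y
      by_cases hne : hh y = 0
      · rw [hne, abs_zero, mul_zero, zero_mul]
        positivity
      · have g3 := hdel y hne
        have g4 : |hh y| ≤ 1 := by
          rw [abs_of_nonneg (hhb y).1]
          exact (hhb y).2
        calc |nd.η R.x₀ - nd.η y| * |hh y| * |D.gq q y| ≤ M0 * 1 * (P.CG * D.f y ^ n) := by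
              refine mul_le_mul ?_ g1 (abs_nonneg _) (by positivity)
              exact mul_le_mul g3 g4 (abs_nonneg _) hM0p
          _ = M0 * P.CG * D.f y ^ n := by ring
    · rw [Set.indicator_of_notMem hy, hhA y hy]
      simp
  have hIi : Integrable (A.indicator (fun y => M0 * P.CG * D.f y ^ n)) :=
    (hfn.const_mul _).indicator hAm
  have hIv : ∫ y, A.indicator (fun y => M0 * P.CG * D.f y ^ n) y =
      M0 * P.CG * ∫ y in A, D.f y ^ n := by
    rw [integral_indicator hAm, integral_const_mul]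
  have hi0 : Integrable (fun y => hh y * D.gq q y) :=
    hpi hh 1 q hhm fun y => by rw [abs_of_nonneg (hhb y).1]; exact (hhb y).2
  have hηb : ∀ y, 0 ≤ nd.η y ∧ nd.η y ≤ 1 := fun y => ⟨hnd.nonneg y, hnd.le_one y⟩
  have hi1 : Integrable (fun y => nd.η y * P.Th R.x₀ j y * P.psi (j + R.T + n) z y *
      D.gq q y) := by
    refine hpi (fun y => nd.η y * P.Th R.x₀ j y * P.psi (j + R.T + n) z y) 1 q
      ((hηm.mul th1.continuous.measurable).mul ps1.continuous.measurable) ?_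
    intro y
    have g1 : nd.η y * P.Th R.x₀ j y * P.psi (j + R.T + n) z y = nd.η y * hh y := by
      rw [hhdef]
      ring
    rw [g1, abs_of_nonneg (mul_nonneg (hηb y).1 (hhb y).1)]
    calc nd.η y * hh y ≤ 1 * 1 := mul_le_mul (hηb y).2 (hhb y).2 (hhb y).1 (by norm_num)
      _ = 1 := by norm_num
  have hi2 : Integrable (fun y => (nd.η R.x₀ - nd.η y) * hh y * D.gq q y) := by
    refine hpi (fun y => (nd.η R.x₀ - nd.η y) * hh y) 1 q
      ((measurable_const.sub hηm).mul hhm) ?_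
    intro y
    rw [abs_mul, abs_of_nonneg (hhb y).1]
    have g1 : |nd.η R.x₀ - nd.η y| ≤ 1 := by
      rw [abs_le]
      have u1 := hηb y
      have u2 := hηb R.x₀
      constructor <;> linarith
    calc |nd.η R.x₀ - nd.η y| * hh y ≤ 1 * 1 :=
          mul_le_mul g1 (hhb y).2 (hhb y).1 (by norm_num)
      _ = 1 := by norm_num
  have hdec : ∀ y, nd.η R.x₀ * (hh y * D.gq q y) =
      nd.η y * P.Th R.x₀ j y * P.psi (j + R.T + n) z y * D.gq q y +
        (nd.η R.x₀ - nd.η y) * hh y * D.gq q y := by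
    intro y
    rw [hhdef]
    ring
  have hS1 : nd.η R.x₀ * (∫ y in R.S, hh y * D.gq q y) =
      (∫ y in R.S, nd.η y * P.Th R.x₀ j y * P.psi (j + R.T + n) z y * D.gq q y) +
        ∫ y in R.S, (nd.η R.x₀ - nd.η y) * hh y * D.gq q y := by
    rw [← integral_const_mul, ← integral_add hi1.integrableOn hi2.integrableOn]
    refine integral_congr_ae (Eventually.of_forall fun y => ?_)
    exact hdec y
  have hS2 : nd.η R.x₀ * (∫ y, hh y * D.gq q y) =
      (∫ y, nd.η y * P.Th R.x₀ j y * P.psi (j + R.T + n) z y * D.gq q y) +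
        ∫ y, (nd.η R.x₀ - nd.η y) * hh y * D.gq q y := by
    rw [← integral_const_mul, ← integral_add hi1 hi2]
    refine integral_congr_ae (Eventually.of_forall fun y => ?_)
    exact hdec y
  have hE1 : ∫ y in R.S, (nd.η R.x₀ - nd.η y) * hh y * D.gq q y ≤
      M0 * P.CG * ∫ y in A, D.f y ^ n := by
    rw [← hIv]
    have g1 : ∫ y in R.S, (nd.η R.x₀ - nd.η y) * hh y * D.gq q y ≤
        ∫ y in R.S, A.indicator (fun y => M0 * P.CG * D.f y ^ n) y :=
      integral_mono hi2.integrableOn hIi.integrableOn fun y => (le_abs_self _).trans (hF2 y)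
    refine g1.trans ?_
    refine setIntegral_le_integral hIi (Eventually.of_forall fun y => ?_)
    exact (abs_nonneg _).trans (hF2 y)
  have hE2 : -(∫ y, (nd.η R.x₀ - nd.η y) * hh y * D.gq q y) ≤
      M0 * P.CG * ∫ y in A, D.f y ^ n := by
    rw [← hIv, ← integral_neg]
    exact integral_mono hi2.neg hIi fun y => (neg_le_abs _).trans (hF2 y)
  have hfin : nd.η R.x₀ * ((∫ y in R.S, hh y * D.gq q y) - ∫ y, hh y * D.gq q y) ≤
      U j z + 2 * (M0 * P.CG * ∫ y in A, D.f y ^ n) := by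
    rw [mul_sub, hS1, hS2]
    have g1 : (∫ y in R.S, nd.η y * P.Th R.x₀ j y * P.psi (j + R.T + n) z y * D.gq q y) -
        (∫ y, nd.η y * P.Th R.x₀ j y * P.psi (j + R.T + n) z y * D.gq q y) ≤ U j z := hmain
    linarith
  have hVU : VU R U j z = U j z + R.e ^ (R.Q + 4) * ∫ y in A, D.f y ^ n := rfl
  have hlast : 2 * (M0 * P.CG * ∫ y in A, D.f y ^ n) ≤
      R.e ^ (R.Q + 4) * ∫ y in A, D.f y ^ n := by
    have g1 : 2 * (M0 * P.CG * ∫ y in A, D.f y ^ n) =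
        (4 * P.CG * L₀ * (1 / 2 : ℝ) ^ R.W) * ∫ y in A, D.f y ^ n := by
      rw [hM0]
      ring
    rw [g1, hQ]
    exact mul_le_mul_of_nonneg_right B4 hbig
  change nd.η R.x₀ * ((∫ y in R.S, hh y * D.gq q y) - ∫ y, hh y * D.gq q y) ≤ VU R U j z
  rw [hVU]
  linarith

theorem vu_sum {n m : ℕ} (P : Par n m) : ∃ C : ℝ, 1 ≤ C ∧ ∀ (D : Dyn P) (R : RC D)
    (U : ℕ → (Fin n → ℤ) → ℝ) (s : ℕ), (∀ j z, 0 ≤ U j z) → 1 ≤ s →
      (∀ j z, 0 ≤ VU R U j z) ∧
      ∑ j ∈ Finset.Ico s (s + R.W), ∑ z ∈ box n (j + R.T + n), VU R U j z ≤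
        (∑ j ∈ Finset.Ico s (s + R.W), ∑ z ∈ box n (j + R.T + n), U j z) +
          C * R.e ^ (R.Q + 4) * ∑ j ∈ Finset.Ico s (s + R.W), R.Dj j := by
  have hn := P.hn
  have h2n : (0 : ℝ) < 2 ^ n := by positivity
  refine ⟨(2 * 2 ^ n + 1) ^ n, one_le_pow₀ (by linarith), ?_⟩
  intro D R U s hU hs
  obtain ⟨hfm, hf0, hfi, hfn, hgm, hgb, hgi, hpi⟩ := dyn_int D
  have hep := R.e_pos
  have hpos : ∀ j z, 0 ≤ ∫ x in ball (zc (j + R.T + n) z) (1 / p2 (j + R.T)) ∩ fr R.x₀ j,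
      D.f x ^ n := by
    intro j z
    refine integral_nonneg fun x => ?_
    have := hf0 x
    simp only [Pi.zero_apply]
    positivity
  refine ⟨fun j z => ?_, ?_⟩
  · have h1 := hU j z
    have h2 := hpos j z
    unfold VU
    positivity
  have hkey : ∀ j, 1 ≤ j → ∑ z ∈ box n (j + R.T + n),
      ∫ x in ball (zc (j + R.T + n) z) (1 / p2 (j + R.T)) ∩ fr R.x₀ j, D.f x ^ n ≤
        (2 * 2 ^ n + 1) ^ n * R.Dj j := by
    intro j hj
    have hpT := hvbd_p2_pos (j + R.T)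
    have hsc : (2 : ℝ) ^ n / p2 (j + R.T + n) = 1 / p2 (j + R.T) := by
      rw [hvbd_p2_add (j + R.T) n]
      unfold p2
      field_simp
    have hAm : ∀ z, MeasurableSet (ball (zc (j + R.T + n) z) (1 / p2 (j + R.T)) ∩ fr R.x₀ j) :=
      fun z => measurableSet_ball.inter (rg_meas R.x₀ j).2.1
    have hbrm : MeasurableSet (br R.x₀ j) := (rg_meas R.x₀ j).2.2
    have h1 : ∀ z ∈ box n (j + R.T + n),
        ∫ x in ball (zc (j + R.T + n) z) (1 / p2 (j + R.T)) ∩ fr R.x₀ j, D.f x ^ n =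
        ∫ x, (ball (zc (j + R.T + n) z) (1 / p2 (j + R.T)) ∩ fr R.x₀ j).indicator
          (fun x => D.f x ^ n) x := fun z _ => (integral_indicator (hAm z)).symm
    rw [Finset.sum_congr rfl h1, ← integral_finset_sum _ fun z _ => hfn.indicator (hAm z)]
    unfold RC.Dj
    rw [← integral_const_mul, ← integral_indicator hbrm]
    refine integral_mono (integrable_finset_sum _ fun z _ => hfn.indicator (hAm z))
      ((hfn.const_mul _).indicator hbrm) ?_
    intro x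
    have hfx := hf0 x
    by_cases hx : x ∈ fr R.x₀ j
    · have hxb : x ∈ br R.x₀ j := (fr_eq R.x₀ j hj).2.2.1 (Or.inl hx)
      rw [Set.indicator_of_mem hxb]
      have h2 : ∀ z ∈ box n (j + R.T + n),
          (ball (zc (j + R.T + n) z) (1 / p2 (j + R.T)) ∩ fr R.x₀ j).indicator
            (fun x => D.f x ^ n) x ≤ if ‖x - zc (j + R.T + n) z‖ ≤ 2 ^ n / p2 (j + R.T + n)
              then D.f x ^ n else 0 := by
        intro z _
        by_cases hxz : x ∈ ball (zc (j + R.T + n) z) (1 / p2 (j + R.T)) ∩ fr R.x₀ j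
        · rw [Set.indicator_of_mem hxz, if_pos]
          rw [hsc]
          have := hxz.1
          rw [mem_ball_iff_norm] at this
          exact this.le
        · rw [Set.indicator_of_notMem hxz]
          split_ifs
          · positivity
          · exact le_refl _
      refine (Finset.sum_le_sum h2).trans ?_
      rw [← Finset.sum_filter, Finset.sum_const, nsmul_eq_mul]
      refine mul_le_mul_of_nonneg_right ?_ (by positivity)
      exact psi_count P (j + R.T + n) x (2 ^ n) (by positivity)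
    · have h2 : ∀ z ∈ box n (j + R.T + n),
          (ball (zc (j + R.T + n) z) (1 / p2 (j + R.T)) ∩ fr R.x₀ j).indicator
            (fun x => D.f x ^ n) x = 0 := fun z _ =>
        Set.indicator_of_notMem (fun hc => hx hc.2) _
      beta_reduce
      rw [Finset.sum_congr rfl h2, Finset.sum_const_zero]
      refine Set.indicator_nonneg (fun y _ => ?_) x
      have := hf0 y
      positivity
  have hexp : ∀ j ∈ Finset.Ico s (s + R.W), ∑ z ∈ box n (j + R.T + n), VU R U j z ≤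
      (∑ z ∈ box n (j + R.T + n), U j z) + (2 * 2 ^ n + 1) ^ n * R.e ^ (R.Q + 4) * R.Dj j := by
    intro j hj
    rw [Finset.mem_Ico] at hj
    have h1 := hkey j (by omega)
    unfold VU
    rw [Finset.sum_add_distrib, ← Finset.mul_sum]
    have h2 := mul_le_mul_of_nonneg_left h1 (by positivity : 0 ≤ R.e ^ (R.Q + 4))
    have h3 : R.e ^ (R.Q + 4) * ((2 * 2 ^ n + 1) ^ n * R.Dj j) =
        (2 * 2 ^ n + 1) ^ n * R.e ^ (R.Q + 4) * R.Dj j := by ring
    linarith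
  refine (Finset.sum_le_sum hexp).trans (le_of_eq ?_)
  rw [Finset.sum_add_distrib, ← Finset.mul_sum]

end H60NT
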