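import Pool.Agent.H60.NH.Def4

/-!
MP_d943ab_an, all dimensions (proofs id 299): definitions.
The names follow the text: `Geod` geodesics, `Geo` the fields `F_q` and all facts on the geometry of
the target (Section 1), `Par` the data of the target and of the mollifier, `Dyn` a solution,
`Node`, `Bd` (Section 2), rings and means (Section 4).
-/

set_option autoImplicit false

namespace H60NT

open H60NH MeasureTheory Metric Set Filter Topology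
open scoped ENNReal NNReal ContDiff

/-- `Γ` is a geodesic of `N` with velocity `V` and constant speed `a` on the set `I` of times. -/
structure Geod {m : ℕ} (N : Set (E m)) (π : E m → E m) (Γ V : ℝ → E m) (a : ℝ) (I : Set ℝ) :
    Prop where
  mem : ∀ s ∈ I, Γ s ∈ N
  tan : ∀ s ∈ I, fderiv ℝ π (Γ s) (V s) = V s
  der : ∀ s ∈ I, HasDerivAt Γ (V s) s
  der2 : ∀ s ∈ I, HasDerivAt V (D2 π (Γ s) (V s) (V s)) s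
  speed : ∀ s ∈ I, ‖V s‖ = a

/-- The fields `F q y = F_q(y)`, the geodesic distance `dd q y` (near the diagonal; truncated
elsewhere), and all facts on the geometry of the target used later (Section 1 of the text). -/
structure Geo {m : ℕ} (N : Set (E m)) (π : E m → E m) (F : E m → E m → E m)
    (dd : E m → E m → ℝ) (r₁ ρ₀ κ₀ t₃ a₀ c C : ℝ) : Prop where
  r1_pos : 0 < r₁
  rho_pos : 0 < ρ₀
  kap_pos : 0 < κ₀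
  t_pos : 0 < t₃
  a_pos : 0 < a₀
  c_pos : 0 < c
  one_le : 1 ≤ C
  smooth : ContDiff ℝ ∞ (fun p : E m × E m => F p.1 p.2)
  bd : ∀ q y, ‖F q y‖ ≤ 1
  bdy : ∀ q y, ‖fderiv ℝ (F q) y‖ ≤ C
  bdq : ∀ q y, ‖fderiv ℝ (fun p => F p y) q‖ ≤ C
  lipy : ∀ q q' y y', ‖fderiv ℝ (F q) y - fderiv ℝ (F q') y'‖ ≤ C * (‖q - q'‖ + ‖y - y'‖)
  lipq : ∀ q q' y, ‖fderiv ℝ (fun p => F p y) q - fderiv ℝ (fun p => F p y) q'‖ ≤ C * ‖q - q'‖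
  tan : ∀ q ∈ N, ∀ y ∈ N, fderiv ℝ π y (F q y) = F q y
  dd_nonneg : ∀ q y, 0 ≤ dd q y
  dd_self : ∀ q ∈ N, dd q q = 0
  dd_lip : ∀ q ∈ N, ∀ y ∈ N, ∀ y' ∈ N, |dd q y - dd q y'| ≤ C * ‖y - y'‖
  dd_near : ∀ q ∈ N, ∀ y ∈ N, dd q y ≤ r₁ + 3 * ρ₀ → ‖y - q‖ ≤ dd q y
  /-- (F1) -/
  mono : ∀ q ∈ N, ∀ y ∈ N, dd q y ≤ r₁ + 3 * ρ₀ → ∀ a, fderiv ℝ π y a = a →
    0 ≤ inner ℝ a (fderiv ℝ (F q) y a)
  strict : ∀ q ∈ N, ∀ y ∈ N, ‖y - q‖ ≤ t₃ → ∀ a, fderiv ℝ π y a = a →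
    c * ‖a‖ ^ 2 ≤ inner ℝ a (fderiv ℝ (F q) y a)
  /-- (F2) -/
  near0 : ∀ q ∈ N, ∀ y ∈ N, ‖y - q‖ ≤ t₃ →
    ‖F q y - κ₀ • fderiv ℝ π y (y - q)‖ ≤ C * ‖y - q‖ ^ 3
  neary : ∀ q ∈ N, ∀ y ∈ N, ‖y - q‖ ≤ t₃ → ∀ a, fderiv ℝ π y a = a →
    ‖fderiv ℝ (F q) y a - κ₀ • (fderiv ℝ π y a + D2 π y a (y - q))‖ ≤ C * ‖y - q‖ ^ 2 * ‖a‖
  nearq : ∀ q ∈ N, ∀ y ∈ N, ‖y - q‖ ≤ t₃ → ∀ b, fderiv ℝ π q b = b →
    ‖fderiv ℝ (fun p => F p y) q b + κ₀ • fderiv ℝ π y b‖ ≤ C * ‖y - q‖ ^ 2 * ‖b‖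
  /-- (F3) recentering -/
  recentre : ∀ q ∈ N, ∀ P ∈ N, r₁ < dd q P → dd q P ≤ r₁ + 2 * ρ₀ → ∃ q' ∈ N, dd q' P = r₁ ∧
    (∀ y, ‖F q' y - F q y‖ ≤ C * (dd q P - r₁)) ∧
    (∀ y, ‖fderiv ℝ (F q') y - fderiv ℝ (F q) y‖ ≤ C * (dd q P - r₁)) ∧
    (∀ y y', ‖(fderiv ℝ (F q') y - fderiv ℝ (F q) y) - (fderiv ℝ (F q') y' - fderiv ℝ (F q) y')‖ ≤
      C * (dd q P - r₁) * ‖y - y'‖) ∧
    ∀ (Γ V : ℝ → E m) (a sP : ℝ), 0 ≤ a → a ≤ a₀ → Geod N π Γ V a (Icc sP (sP + 1)) → Γ sP = P →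
      ∀ s ∈ Icc sP (sP + 1), ∀ σ : ℝ, 0 ≤ σ → σ ^ 2 = a ^ 2 - (inner ℝ (V sP) (F q P)) ^ 2 →
        ‖F q' (Γ s) - F q (Γ s)‖ ≤ C * (dd q P - r₁) * σ ∧
        (∀ b, fderiv ℝ π (Γ s) b = b →
          |inner ℝ (V s) (fderiv ℝ (F q') (Γ s) b - fderiv ℝ (F q) (Γ s) b)| ≤
            C * (dd q P - r₁) * σ * ‖b‖) ∧
        c * (dd q P - r₁) * σ ^ 2 * (s - sP) ≤ inner ℝ (V s) (F q' (Γ s) - F q (Γ s))
  /-- (F4) two-point geodesics -/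
  twopt : ∀ y₁ ∈ N, ∀ y₂ ∈ N, ‖y₁ - y₂‖ ≤ t₃ → ∀ s₁ s₂ : ℝ, s₁ + 1 ≤ s₂ →
    ∃ (Γ V : ℝ → E m) (a : ℝ), 0 ≤ a ∧ a ≤ C * ‖y₁ - y₂‖ / (s₂ - s₁) ∧
      Geod N π Γ V a (Icc (s₁ - 4) (s₂ + 4)) ∧ Γ s₁ = y₁ ∧ Γ s₂ = y₂
  cmp : ∀ (Γ V Γ' V' : ℝ → E m) (a a' A s₁ s₂ : ℝ), a ≤ A → a' ≤ A → s₁ + 1 ≤ s₂ →
    A * (s₂ - s₁) ≤ a₀ →
    Geod N π Γ V a (Icc (s₁ - 4) (s₂ + 4)) → Geod N π Γ' V' a' (Icc (s₁ - 4) (s₂ + 4)) →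
    ∀ s ∈ Icc (s₁ - 4) (s₂ + 4), ‖V' s - V s‖ ≤
      C * (‖(Γ' s₂ - Γ s₂) - (Γ' s₁ - Γ s₁)‖ / (s₂ - s₁) +
        A ^ 2 * (s₂ - s₁) * (‖Γ' s₁ - Γ s₁‖ + ‖Γ' s₂ - Γ s₂‖))

/-- A smooth nonincreasing function, `1` on `(-∞, 1]` and `0` on `[2, ∞)`, with derivative at
least `-L`. -/
structure CutK (κ : ℝ → ℝ) (L : ℝ) : Prop where
  smooth : ContDiff ℝ ∞ κ
  anti : Antitone κ
  one : ∀ t, t ≤ 1 → κ t = 1
  zero : ∀ t, 2 ≤ t → κ t = 0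
  der : ∀ t, |deriv κ t| ≤ L
  one_le : 1 ≤ L

/-- A smooth function supported in `(-2, 2)` whose integer translates form a partition of unity
that reproduces affine functions. -/
structure Hat (β : ℝ → ℝ) (L : ℝ) : Prop where
  smooth : ContDiff ℝ ∞ β
  nonneg : ∀ t, 0 ≤ β t
  le_one : ∀ t, β t ≤ 1
  supp : ∀ t, 2 ≤ |t| → β t = 0
  der : ∀ t, |deriv β t| ≤ L
  sum : ∀ (t : ℝ) (a b : ℤ), (a : ℝ) + 2 ≤ t → t ≤ b - 2 → ∑ z ∈ Finset.Icc a b, β (t - z) = 1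
  lin : ∀ (t : ℝ) (a b : ℤ), (a : ℝ) + 2 ≤ t → t ≤ b - 2 →
    ∑ z ∈ Finset.Icc a b, (z : ℝ) * β (t - z) = t
  one_le : 1 ≤ L

/-- All static data: the target with its fields, a mollifier, a cutoff and a partition of unity. -/
structure Par (n m : ℕ) where
  hn : 3 ≤ n
  N : Set (E m)
  π : E m → E m
  δ : ℝ
  CT : ℝ
  hT : TC N π δ CT
  F : E m → E m → E m
  dd : E m → E m → ℝ
  r₁ : ℝ
  ρ₀ : ℝ
  κ₀ : ℝ
  t₃ : ℝ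
  a₀ : ℝ
  cg : ℝ
  CG : ℝ
  hG : Geo N π F dd r₁ ρ₀ κ₀ t₃ a₀ cg CG
  φ : E n → ℝ
  Θ : Fin n → E n → ℝ
  M : ℝ
  hφ : Moll φ Θ M
  κf : ℝ → ℝ
  Lκ : ℝ
  hκ : CutK κf Lκ
  βf : ℝ → ℝ
  Lβ : ℝ
  hβ : Hat βf Lβ

/-- A solution on the ball of radius 64 with the Morrey bound `ε` and energy at most one. -/
structure Dyn {n m : ℕ} (P : Par n m) where
  u : E n → E m
  G : E n → Fin n → E m
  ε : ℝ
  ε_pos : 0 < ε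
  hS : Sol P.N P.π 64 u G
  hf : Mor (fun x => gn (G x)) ε
  hD : ∫ x, gn (G x) ^ n ≤ 1

namespace Dyn

variable {n m : ℕ} {P : Par n m}

/-- `f = |∇u|`. -/
noncomputable def f (D : Dyn P) (x : E n) : ℝ := gn (D.G x)

/-- The mollified map. -/
noncomputable def ub (D : Dyn P) (k : ℕ) (x : E n) : E m := ubar P.φ D.u k x

/-- `g_q = w ∑ ⟨G_i, DF_q(u) G_i⟩`. -/
noncomputable def gq (D : Dyn P) (q : E m) (x : E n) : ℝ :=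
  D.f x ^ (n - 2) * ∑ i, inner ℝ (D.G x i) (fderiv ℝ (P.F q) (D.u x) (D.G x i))

/-- `Φ(η, q)`. -/
noncomputable def Phi (D : Dyn P) (η : E n → ℝ) (q : E m) : ℝ := ∫ x, η x * D.gq q x

/-- `∫ w ∑ ⟨G_i, F_q(u)⟩ ∂_i h`. -/
noncomputable def Fl (D : Dyn P) (h : E n → ℝ) (q : E m) : ℝ :=
  ∫ x, D.f x ^ (n - 2) * ∑ i, inner ℝ (D.G x i) (P.F q (D.u x)) * fderiv ℝ h x (ev i)

end Dyn

/-- A node: centre, scale `2^-k`, weight. -/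
structure Node (n : ℕ) where
  y : E n
  k : ℕ
  η : E n → ℝ

/-- The conditions on a node. -/
structure Node.OK {n : ℕ} (L₀ : ℝ) (nd : Node n) : Prop where
  smooth : ContDiff ℝ ∞ nd.η
  nonneg : ∀ x, 0 ≤ nd.η x
  le_one : ∀ x, nd.η x ≤ 1
  supp : ∀ x, nd.η x ≠ 0 → x ∈ ball nd.y (1 / p2 nd.k)
  supp1 : ∀ x, nd.η x ≠ 0 → x ∈ ball (0 : E n) 1
  der : ∀ x h, |fderiv ℝ nd.η x h| ≤ L₀ * p2 nd.k * ‖h‖
  cen : ‖nd.y‖ ≤ 2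

namespace Dyn

variable {n m : ℕ} {P : Par n m}

/-- `D*(ν)`, the energy of the ball `B(y, 16 2^-k)`. -/
noncomputable def Ds (D : Dyn P) (nd : Node n) : ℝ := ∫ x in ball nd.y (16 / p2 nd.k), D.f x ^ n

/-- The base point `P_ν = π(ubar_k(y))`. -/
noncomputable def base (D : Dyn P) (nd : Node n) : E m := P.π (D.ub nd.k nd.y)

/-- `Bd(ν, ρ, U)`. -/
def Bd (D : Dyn P) (C₅ t₀ : ℝ) (nd : Node n) (ρ U : ℝ) : Prop :=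
  ∀ q ∈ P.N, P.dd q (D.base nd) ≤ P.r₁ + ρ → ∀ S' : Set (E n), MeasurableSet S' →
    (∀ x ∈ S', nd.η x ≠ 0 → ∀ K : ℕ, P.dd q (D.base nd) + C₅ * NN D.f K nd.k x ≤ t₀) →
    (∫ x in S', nd.η x * D.gq q x) - D.Phi nd.η q ≤ U

end Dyn

/-- The cutoff `χ_j`: `1` for `|x - x₀| ≤ 2^-j`, `0` for `|x - x₀| ≥ 2 2^-j`. -/
noncomputable def Par.chi {n m : ℕ} (P : Par n m) (x₀ : E n) (j : ℕ) (x : E n) : ℝ :=
  P.κf (p2 j * ‖x - x₀‖)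

/-- `Θ_j = χ_j - χ_{j+1}`. -/
noncomputable def Par.Th {n m : ℕ} (P : Par n m) (x₀ : E n) (j : ℕ) (x : E n) : ℝ :=
  P.chi x₀ j x - P.chi x₀ (j + 1) x

/-- The lattice partition of unity with spacing `2^-s`. -/
noncomputable def Par.psi {n m : ℕ} (P : Par n m) (s : ℕ) (z : Fin n → ℤ) (x : E n) : ℝ :=
  ∏ i, P.βf (p2 s * x i - z i)

/-- The lattice point `2^-s z`. -/
noncomputable def zc {n : ℕ} (s : ℕ) (z : Fin n → ℤ) : E n :=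
  WithLp.toLp 2 (fun i => (z i : ℝ) / p2 s)

/-- The lattice points relevant for the ball of radius 4. -/
noncomputable def box (n s : ℕ) : Finset (Fin n → ℤ) :=
  Fintype.piFinset (fun _ => Finset.Icc (-(4 * 2 ^ s + 2) : ℤ) (4 * 2 ^ s + 2))

/-- The child `(j, z)` of the ring `j`: weight `η Θ_j ψ_{j,z}`, centre `z_c`, scale `j + T`. -/
noncomputable def Par.chd {n m : ℕ} (P : Par n m) (nd : Node n) (x₀ : E n) (T j : ℕ)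
    (z : Fin n → ℤ) : Node n where
  y := zc (j + T + n) z
  k := j + T
  η := fun x => nd.η x * P.Th x₀ j x * P.psi (j + T + n) z x

/-- The ring `A_j` about `x₀`. -/
def rg {n : ℕ} (x₀ : E n) (j : ℕ) : Set (E n) := {x | 1 / p2 j ≤ ‖x - x₀‖ ∧ ‖x - x₀‖ ≤ 2 / p2 j}

/-- The ring `R_j = A_{j-1} ∪ A_j ∪ A_{j+1}` about `x₀`. -/
def fr {n : ℕ} (x₀ : E n) (j : ℕ) : Set (E n) :=
  {x | 1 / (2 * p2 j) ≤ ‖x - x₀‖ ∧ ‖x - x₀‖ ≤ 4 / p2 j}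

/-- The ring `A_{j-3} ∪ ... ∪ A_{j+3}` about `x₀`. -/
def br {n : ℕ} (x₀ : E n) (j : ℕ) : Set (E n) :=
  {x | 1 / (8 * p2 j) ≤ ‖x - x₀‖ ∧ ‖x - x₀‖ ≤ 16 / p2 j}

/-- A radial probability density on a thin shell about the sphere of radius `3/2`. -/
structure Thin {n : ℕ} (μ : E n → ℝ) (κ : ℝ) : Prop where
  smooth : ContDiff ℝ ∞ μ
  nonneg : ∀ x, 0 ≤ μ x
  int : ∫ x, μ x = 1
  supp : ∀ x, κ < |‖x‖ - 3 / 2| → μ x = 0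
  radial : ∃ g : ℝ → ℝ, ContDiff ℝ ∞ g ∧ ∀ x, μ x = g ‖x‖

/-- The mean `M_j(v)` over the thin shell in the ring `A_j` about `x₀`. -/
noncomputable def Mn {n m : ℕ} (μ : E n → ℝ) (x₀ : E n) (j : ℕ) (v : E n → E m) : E m :=
  ∫ x, (p2 j ^ n * μ (p2 j • (x - x₀))) • v x

/-- The time `s_j = log (1/R_j)`, `R_j = (3/2) 2^-j`. -/
noncomputable def sj (j : ℕ) : ℝ := Real.log (p2 j) - Real.log (3 / 2)

/-- The good set. -/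
def gs {n : ℕ} (f : E n → ℝ) (x₀ : E n) (T : ℕ) (c : ℝ) : Set (E n) :=
  {x | ∀ j K : ℕ, 1 ≤ j → 1 / p2 j ≤ ‖x - x₀‖ → NN f K (j - 1 + T) x ≤ c}

/-- The context of Sections 4 to 7: a centre `x₀`, the scale `2^-k` of the node, the integers `T`,
`W`, the amplitude `e`, the kernel of the thin means, the constants `C₅`, `t₀`. -/
structure RC {n m : ℕ} {P : Par n m} (D : Dyn P) where
  x₀ : E n
  k : ℕ
  T : ℕ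
  W : ℕ
  Q : ℕ
  e : ℝ
  C₅ : ℝ
  t₀ : ℝ
  μ : E n → ℝ
  hx : ‖x₀‖ ≤ 1
  e_pos : 0 < e
  e_le : e ≤ 1
  C5 : 1 ≤ C₅
  t0 : 0 < t₀
  hμ : Thin μ ((1 / 2) ^ T)
  /-- all averages at scales below `2^-k` near `x₀` are at most `e` -/
  amp : ∀ j, k ≤ j → ∀ x ∈ ball x₀ (5 / p2 k), AA D.f j x ≤ e
  /-- the local amplitudes in the rings are at most `e` -/
  loc : ∀ j, k + W ≤ j → min D.ε ((∫ x in br x₀ j, D.f x ^ n) ^ (1 / (n : ℝ))) ≤ e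
  T1 : (1 / 2 : ℝ) ^ T ≤ e ^ (Q + 4)
  T2 : e * T ≤ Real.sqrt e
  T3 : 20 ≤ T
  W1 : 1 ≤ W * Real.sqrt e
  W2 : W * Real.sqrt e ≤ 2

namespace RC

variable {n m : ℕ} {P : Par n m} {D : Dyn P}

/-- `D_j`, the energy of the fat ring. -/
noncomputable def Dj (R : RC D) (j : ℕ) : ℝ := ∫ x in br R.x₀ j, D.f x ^ n

/-- The point `y_j = π(M_j(u))`. -/
noncomputable def yj (R : RC D) (j : ℕ) : E m := P.π (Mn R.μ R.x₀ j D.u)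

/-- The good set. -/
def S (R : RC D) : Set (E n) := gs D.f R.x₀ R.T (R.t₀ / (2 * R.C₅))

/-- `b_j = 2^{jn} |R_j \ S|`. -/
noncomputable def b (R : RC D) (j : ℕ) : ℝ := p2 j ^ n * (volume (fr R.x₀ j \ R.S)).toReal

end RC

/-- The profile of the pair `α < β` (Section 4): the geodesic `Γ` through `y_α` at the time `s_α` and
`y_β` at the time `s_β`, and the map `lam = Γ (log (1/|x - x₀|))` on the annulus, extended to a `C^1`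
map into `N`. -/
structure Pf {n m : ℕ} {P : Par n m} {D : Dyn P} (R : RC D) (Cp : ℝ) (α β : ℕ) where
  Γ : ℝ → E m
  V : ℝ → E m
  a : ℝ
  lam : E n → E m
  lt : α < β
  ge : R.k + R.W ≤ α
  le : β ≤ α + R.W
  geod : Geod P.N P.π Γ V a (Icc (sj α - 4) (sj β + 4))
  hα : Γ (sj α) = R.yj α
  hβ : Γ (sj β) = R.yj β
  a_nonneg : 0 ≤ a
  a_le : a ≤ Cp * R.e
  a_len : a * ((β : ℝ) - α) ≤ Cp * Real.sqrt R.e
  a_pow : ((β : ℝ) - α) * a ^ n ≤ Cp * ∑ j ∈ Finset.Icc α β, R.Dj j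
  lam_c1 : ContDiff ℝ 1 lam
  lam_mem : ∀ x, lam x ∈ P.N
  lam_eq : ∀ x, 1 / (4 * p2 β) ≤ ‖x - R.x₀‖ → ‖x - R.x₀‖ ≤ 8 / p2 α →
    lam x = Γ (-Real.log ‖x - R.x₀‖)
  lam_der : ∀ x, 1 / (4 * p2 β) ≤ ‖x - R.x₀‖ → ‖x - R.x₀‖ ≤ 8 / p2 α → ∀ h,
    fderiv ℝ lam x h = (-(inner ℝ (x - R.x₀) h / ‖x - R.x₀‖ ^ 2)) • V (-Real.log ‖x - R.x₀‖)

namespace Pf

variable {n m : ℕ} {P : Par n m} {D : Dyn P} {R : RC D} {Cp : ℝ} {α β : ℕ}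

/-- `D lam`. -/
noncomputable def Lam (pf : Pf R Cp α β) (x : E n) (i : Fin n) : E m := fderiv ℝ pf.lam x (ev i)

/-- `f_lam = |D lam|`. -/
noncomputable def fl (pf : Pf R Cp α β) (x : E n) : ℝ := gn (pf.Lam x)

/-- `v = u - lam` (zero outside the ball of radius 64). -/
noncomputable def v (pf : Pf R Cp α β) (x : E n) : E m :=
  (ball (0 : E n) 64).indicator (fun x => D.u x - pf.lam x) x

/-- `g = G - D lam` (zero outside the ball of radius 64). -/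
noncomputable def g (pf : Pf R Cp α β) (x : E n) (i : Fin n) : E m :=
  (ball (0 : E n) 64).indicator (fun x => D.G x i - pf.Lam x i) x

/-- `z = (f + f_lam)^(n-2) |g|^2`. -/
noncomputable def z (pf : Pf R Cp α β) (x : E n) : ℝ :=
  (D.f x + pf.fl x) ^ (n - 2) * gn (pf.g x) ^ 2

/-- `Z_j`. -/
noncomputable def Z (pf : Pf R Cp α β) (j : ℕ) : ℝ := ∫ x in rg R.x₀ j ∩ R.S, pf.z x

/-- `Z_j^+`. -/
noncomputable def Zp (pf : Pf R Cp α β) (j : ℕ) : ℝ := pf.Z (j - 1) + pf.Z j + pf.Z (j + 1)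

/-- `SS(α, β)`. -/
noncomputable def SS (pf : Pf R Cp α β) : ℝ := ∑ j ∈ Finset.Icc (α - 1) (β + 1), pf.Z j

/-- `𝒢_j = (2^{j(n-2)} ∫_{R_j} |g|^2)^(1/2)`. -/
noncomputable def Gg (pf : Pf R Cp α β) (j : ℕ) : ℝ :=
  Real.sqrt (p2 j ^ (n - 2) * ∫ x in fr R.x₀ j, gn (pf.g x) ^ 2)

/-- `E_j = e^(Q+3) (D_j + a^n)`. -/
noncomputable def Er (pf : Pf R Cp α β) (j : ℕ) : ℝ := R.e ^ (R.Q + 3) * (R.Dj j + pf.a ^ n)

end Pf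

end H60NT
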