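import Pool.Agent.H60.NT.PoiI
import Pool.Agent.H60.NT.RcNum
import Pool.Agent.H60.NT.Def
import Pool.Agent.H60.NT.Near

/-!
# [H60 NT RCEX] The context of a block

Data as in `block_pay` with `‖x₀‖ ≤ 1`. Take `μ` from `exists_thin` with `κ = (1/2)^T ≤ 1/4`. `amp`: for `x ∈ ball x₀ (5/p2 k)`:
`‖x - y‖ < 5/p2 k + 2/p2 k < 8/p2 k`. `loc`: `j ≥ k + W ≥ k + 1`: `br x₀ j ⊆ closedBall x₀ (16/p2 j) ⊆ ball y (16/p2 k)` - here one needs
`16/p2 j + 2/p2 k < 16/p2 k`, so `j ≥ k + 1` suffices (`8 + 2 < 16`); so `∫_{br} f^n ≤ Ds`, and `rpow` is monotone.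
-/

set_option autoImplicit false

namespace H60NT

open H60NH MeasureTheory Metric Set Filter Topology
open scoped ENNReal NNReal ContDiff

theorem rc_ex {n m : ℕ} (P : Par n m) (D : Dyn P) (nd : Node n) (x₀ : E n) (T W Q : ℕ)
    (e C₅ t₀ : ℝ) (h5 : 1 ≤ C₅) (h0 : 0 < t₀) (he : 0 < e) (he1 : e ≤ 1)
    (hx : ‖x₀‖ ≤ 1) (hxy : ‖x₀ - nd.y‖ ≤ 2 / p2 nd.k)
    (hamp : ∀ j, nd.k ≤ j → ∀ x ∈ ball nd.y (8 / p2 nd.k), AA D.f j x ≤ e)
    (hloc : min D.ε ((D.Ds nd) ^ (1 / (n : ℝ))) ≤ e)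
    (T1 : (1 / 2 : ℝ) ^ T ≤ e ^ (Q + 4)) (T2 : e * T ≤ Real.sqrt e) (T3 : 20 ≤ T)
    (W1 : 1 ≤ W * Real.sqrt e) (W2 : W * Real.sqrt e ≤ 2) :
    ∃ R : RC D, R.x₀ = x₀ ∧ R.k = nd.k ∧ R.T = T ∧ R.W = W ∧ R.Q = Q ∧ R.e = e ∧ R.C₅ = C₅ ∧
      R.t₀ = t₀ := by
  have hn : 1 ≤ n := by
    have := P.hn
    omega
  have hp : ∀ j, 0 < p2 j := fun j => by
    unfold p2
    positivity
  have hW : 1 ≤ W := by
    by_contra hc
    have : W = 0 := by omega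
    rw [this] at W1
    norm_num at W1
  have hT4 : (1 / 2 : ℝ) ^ T ≤ 1 / 4 := by
    calc (1 / 2 : ℝ) ^ T ≤ (1 / 2) ^ 2 :=
          pow_le_pow_of_le_one (by norm_num) (by norm_num) (by omega)
      _ = 1 / 4 := by norm_num
  obtain ⟨μ, hμ⟩ := exists_thin n hn ((1 / 2 : ℝ) ^ T) (by positivity) hT4
  have hamp' : ∀ j, nd.k ≤ j → ∀ x ∈ ball x₀ (5 / p2 nd.k), AA D.f j x ≤ e := by
    intro j hj x hx
    refine hamp j hj x ?_
    rw [mem_ball, dist_eq_norm] at hx ⊢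
    have h1 : ‖x - nd.y‖ ≤ ‖x - x₀‖ + ‖x₀ - nd.y‖ := by
      have : x - nd.y = (x - x₀) + (x₀ - nd.y) := by abel
      rw [this]
      exact norm_add_le _ _
    have h2 : 5 / p2 nd.k + 2 / p2 nd.k < 8 / p2 nd.k := by
      rw [← add_div]
      exact div_lt_div_of_pos_right (by norm_num) (hp _)
    linarith
  have hloc' : ∀ j, nd.k + W ≤ j →
      min D.ε ((∫ x in br x₀ j, D.f x ^ n) ^ (1 / (n : ℝ))) ≤ e := by
    intro j hj
    refine le_trans (min_le_min_left _ ?_) hloc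
    have hint : Integrable (fun x => D.f x ^ n) := (sol_int hn D.hS).2.2.2.2.2
    have hnn : ∀ x, 0 ≤ D.f x ^ n := fun x => pow_nonneg (Real.sqrt_nonneg _) n
    have hsub : br x₀ j ⊆ ball nd.y (16 / p2 nd.k) := by
      intro x hx
      have hx2 : ‖x - x₀‖ ≤ 16 / p2 j := hx.2
      rw [mem_ball, dist_eq_norm]
      have h1 : ‖x - nd.y‖ ≤ ‖x - x₀‖ + ‖x₀ - nd.y‖ := by
        have : x - nd.y = (x - x₀) + (x₀ - nd.y) := by abel
        rw [this]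
        exact norm_add_le _ _
      have h2 : 16 / p2 j ≤ 8 / p2 nd.k := by
        have h3 : 2 * p2 nd.k ≤ p2 j := by
          unfold p2
          rw [← pow_succ']
          exact pow_le_pow_right₀ (by norm_num) (by omega)
        rw [div_le_div_iff₀ (hp _) (hp _)]
        linarith
      have h4 : 8 / p2 nd.k + 2 / p2 nd.k < 16 / p2 nd.k := by
        rw [← add_div]
        exact div_lt_div_of_pos_right (by norm_num) (hp _)
      linarith
    refine Real.rpow_le_rpow (setIntegral_nonneg_of_ae (Eventually.of_forall hnn)) ?_ (by positivity)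
    unfold Dyn.Ds
    exact setIntegral_mono_set hint.integrableOn (Eventually.of_forall hnn)
      (Eventually.of_forall hsub)
  exact ⟨⟨x₀, nd.k, T, W, Q, e, C₅, t₀, μ, hx, he, he1, h5, h0, hμ, hamp', hloc', T1, T2, T3, W1, W2⟩,
    rfl, rfl, rfl, rfl, rfl, rfl, rfl, rfl⟩

end H60NT
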