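import Pool.Agent.H60.NT.Pay
import Pool.Agent.H60.NT.BPS
import Pool.Agent.H60.NT.HvBd
import Pool.Agent.H60.NT.RcEx
import Pool.Agent.H60.NT.ExPf

/-!
# [H60 NT PAYF] The payment in one block (`block_pay`)

Two cases. (A) `nd.η x₀ = 0` or `‖x₀‖ > 1` (then `nd.η x₀ = 0` as well by `supp1`): take `mm = s`, `Pt = π (ub_s x₀) ∈ N` (`near_ub`),
`Geo.recentre` gives `q'`; `|nd.η x| ≤ L₀ p2 k ‖x - x₀‖ ≤ 2 L₀ p2 k/p2 s` on the support of `χ_s`, so by `phi_lin` each `Phi` is at most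
`C (p2 k/p2 s) ∫_{ball x₀ (2/p2 s)} f^n ≤ C (p2 k/p2 s) Ds nd` (`ball x₀ (2/p2 s) ⊆ ball y (16/p2 k)`); the two other terms are nonnegative.
(B) `ηb = nd.η x₀ > 0`, `‖x₀‖ ≤ 1`: `rc_ex` gives `R`, `Ok R Q C₅ t₀ e₁`. `Cp` is the constant of `exists_pf`; `hv_of_bd`, `vu_sum`, `iter` with
`V = VU R U` (extend `U` by `0` outside the relevant indices to have `0 ≤ U` everywhere) give `mm`, `j2`, `pf` with
`ηb Z^+_mm ≤ C √e (∑∑ U + C e^(Q+4) ∑ D_j) + C e^(Q+3) ∑ D_j`. `Pt = pf.Γ (log (p2 mm) - log 2)`; `‖Pt - y_mm‖ ≤ a`, `‖y_mm - y_s‖ ≤ C √e`,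
`‖y_s - π (ub_s x₀)‖ ≤ C √e` (`yj_facts` at a point of `rg x₀ s`, `near_ub`). `pay` gives `q'` and
`Phi χ q' - Phi χ q ≤ C (Z^+_mm + E_mm)`. `Phi (nd.η χ) q' - Phi (nd.η χ) q = ηb (Phi χ q' - Phi χ q) + Phi ((nd.η - ηb) χ) q' - Phi ((nd.η - ηb) χ) q`
(`phi_lin`), the last two `≤ C (p2 k/p2 mm) Ds` as in (A). `ηb E_mm ≤ E_mm = e^(Q+3) (D_mm + a^n) ≤ C e^(Q+3) ∑ D_j` (`pf_gn`, last part).
-/

set_option autoImplicit false

namespace H60NT

open H60NH MeasureTheory Metric Set Filter Topology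
open scoped ENNReal NNReal ContDiff

/-- A small weight supported in a ball. -/
lemma payf_small {n m : ℕ} {P : Par n m} (D : Dyn P) (w : E n → ℝ) (hw : Measurable w) (c : ℝ)
    (y : E n) (r : ℝ) (hb : ∀ x, |w x| ≤ c) (hs : ∀ x, w x ≠ 0 → x ∈ ball y r) (q : E m) :
    |D.Phi w q| ≤ P.CG * (c * ∫ x in ball y r, D.f x ^ n) := by
  obtain ⟨hfm, hf0, hfi, hfn, hgm, hgb, hgi, hpi⟩ := dyn_int D
  have h1 := (phi_lin D w w c q hw hw hb hb).2.2.2
  refine h1.trans ?_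
  have hCG : 1 ≤ P.CG := P.hG.one_le
  apply mul_le_mul_of_nonneg_left _ (by linarith)
  rw [← integral_indicator measurableSet_ball, ← integral_const_mul]
  apply integral_mono_of_nonneg
  · exact Eventually.of_forall fun x => mul_nonneg (abs_nonneg _) (pow_nonneg (hf0 x) _)
  · exact (hfn.indicator measurableSet_ball).const_mul c
  · refine Eventually.of_forall fun x => ?_
    simp only
    by_cases hx : x ∈ ball y r
    · rw [indicator_of_mem hx]
      exact mul_le_mul_of_nonneg_right (hb x) (pow_nonneg (hf0 x) _)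
    · rw [indicator_of_notMem hx, mul_zero]
      have : w x = 0 := by
        by_contra h
        exact hx (hs x h)
      rw [this, abs_zero, zero_mul]

/-- Replacing the weight of the node by its value at the centre. -/
lemma payf_split {n m : ℕ} {P : Par n m} (D : Dyn P) {L₀ : ℝ} (hL : 1 ≤ L₀) (nd : Node n)
    (hnd : nd.OK L₀) (x₀ : E n) (hxy : ‖x₀ - nd.y‖ ≤ 2 / p2 nd.k) (j : ℕ) (hj : nd.k + 1 ≤ j)
    (q q' : E m) :
    D.Phi (fun x => nd.η x * P.chi x₀ j x) q' - D.Phi (fun x => nd.η x * P.chi x₀ j x) q ≤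
      nd.η x₀ * (D.Phi (P.chi x₀ j) q' - D.Phi (P.chi x₀ j) q) +
        4 * P.CG * L₀ * (p2 nd.k / p2 j) * D.Ds nd := by
  obtain ⟨a1, a2, a3, a4, a5, a6, a7, a8⟩ := chi_facts P x₀ j
  have hpj := hvbd_p2_pos j
  have hpk := hvbd_p2_pos nd.k
  have h2 : 2 * p2 nd.k ≤ p2 j := by
    have := hvbd_p2_mono hj
    have e : p2 (nd.k + 1) = 2 * p2 nd.k := by unfold p2; ring
    linarith
  have hχm : Measurable (P.chi x₀ j) := a1.continuous.measurable
  have hηm : Measurable nd.η := hnd.smooth.continuous.measurable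
  obtain ⟨w, hw⟩ : ∃ w : E n → ℝ, w = fun x => (nd.η x - nd.η x₀) * P.chi x₀ j x := ⟨_, rfl⟩
  have hwm : Measurable w := by
    rw [hw]
    exact (hηm.sub_const _).mul hχm
  have hw1 : ∀ x, |w x| ≤ 2 * L₀ * (p2 nd.k / p2 j) := by
    intro x
    rw [hw]
    simp only
    by_cases hx : 2 / p2 j ≤ ‖x - x₀‖
    · rw [a4 x hx, mul_zero, abs_zero]
      positivity
    · push Not at hx
      rw [abs_mul, abs_of_nonneg (a2 x).1]
      have h3 := hvbd_eta hnd (by linarith) x x₀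
      calc |nd.η x - nd.η x₀| * P.chi x₀ j x ≤ |nd.η x - nd.η x₀| * 1 :=
            mul_le_mul_of_nonneg_left (a2 x).2 (abs_nonneg _)
        _ ≤ L₀ * p2 nd.k * ‖x - x₀‖ := by linarith
        _ ≤ L₀ * p2 nd.k * (2 / p2 j) := mul_le_mul_of_nonneg_left hx.le (by positivity)
        _ = 2 * L₀ * (p2 nd.k / p2 j) := by ring
  have hw2 : ∀ x, w x ≠ 0 → x ∈ ball nd.y (16 / p2 nd.k) := by
    intro x hx
    have h3 : ‖x - x₀‖ < 2 / p2 j := by
      by_contra hc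
      push Not at hc
      apply hx
      rw [hw]
      simp only [a4 x hc, mul_zero]
    rw [mem_ball, dist_eq_norm]
    have h4 : ‖x - nd.y‖ ≤ ‖x - x₀‖ + ‖x₀ - nd.y‖ := by
      have := norm_add_le (x - x₀) (x₀ - nd.y)
      rwa [sub_add_sub_cancel] at this
    have h5 : 2 / p2 j ≤ 1 / p2 nd.k := by
      rw [div_le_div_iff₀ hpj hpk]
      linarith
    have h6 : 1 / p2 nd.k + 2 / p2 nd.k < 16 / p2 nd.k := by
      rw [← add_div]
      exact div_lt_div_of_pos_right (by norm_num) hpk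
    linarith
  have hc0 : 0 ≤ 2 * L₀ * (p2 nd.k / p2 j) := by positivity
  have hη0 := hnd.nonneg x₀
  have hη1 := hnd.le_one x₀
  have hkey : ∀ p : E m, D.Phi (fun x => nd.η x * P.chi x₀ j x) p =
      nd.η x₀ * D.Phi (P.chi x₀ j) p + D.Phi w p := by
    intro p
    have k1 : (fun x => nd.η x * P.chi x₀ j x) =
        fun x => (fun x => nd.η x₀ * P.chi x₀ j x) x + w x := by
      funext x
      rw [hw]
      ring
    rw [k1]
    have k2 := (phi_lin D (fun x => nd.η x₀ * P.chi x₀ j x) w (1 + 2 * L₀ * (p2 nd.k / p2 j)) p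
      (hχm.const_mul _) hwm (fun x => by
        rw [abs_mul, abs_of_nonneg hη0, abs_of_nonneg (a2 x).1]
        have := mul_le_mul hη1 (a2 x).2 (a2 x).1 zero_le_one
        linarith) (fun x => by
        have := hw1 x
        linarith)).1
    rw [k2]
    have k3 := (phi_lin D (P.chi x₀ j) (P.chi x₀ j) 1 p hχm hχm (fun x => by
        rw [abs_of_nonneg (a2 x).1]
        exact (a2 x).2) (fun x => by
        rw [abs_of_nonneg (a2 x).1]
        exact (a2 x).2)).2.2.1 (nd.η x₀)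
    rw [k3]
  rw [hkey q', hkey q]
  have g1 := abs_le.1 (payf_small D w hwm _ nd.y (16 / p2 nd.k) hw1 hw2 q')
  have g2 := abs_le.1 (payf_small D w hwm _ nd.y (16 / p2 nd.k) hw1 hw2 q)
  have e1 : P.CG * (2 * L₀ * (p2 nd.k / p2 j) * ∫ x in ball nd.y (16 / p2 nd.k), D.f x ^ n) =
      2 * P.CG * L₀ * (p2 nd.k / p2 j) * D.Ds nd := by
    unfold Dyn.Ds
    ring
  rw [e1] at g1 g2
  linarith [g1.1, g1.2, g2.1, g2.2]

theorem block_pay' {n m : ℕ} (P : Par n m) (L₀ : ℝ) (hL : 1 ≤ L₀) (hI : IterS P) :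
    ∃ t₁ : ℝ, 0 < t₁ ∧ ∀ (Q : ℕ) (C₅ t₀ : ℝ), 1 ≤ C₅ → 0 < t₀ → t₀ ≤ t₁ →
    ∃ e₁ C : ℝ, 0 < e₁ ∧ e₁ ≤ 1 ∧ 1 ≤ C ∧ ∀ (D : Dyn P) (nd : Node n) (x₀ : E n) (T W s : ℕ)
      (e ρ : ℝ) (U : ℕ → (Fin n → ℤ) → ℝ),
      D.ε ≤ e₁ → 0 < e → e ≤ e₁ → nd.OK L₀ → ‖x₀ - nd.y‖ ≤ 2 / p2 nd.k →
      (∀ j, nd.k ≤ j → ∀ x ∈ ball nd.y (8 / p2 nd.k), AA D.f j x ≤ e) →
      min D.ε ((D.Ds nd) ^ (1 / (n : ℝ))) ≤ e →
      (1 / 2 : ℝ) ^ T ≤ e ^ (Q + 4) → e * T ≤ Real.sqrt e → 20 ≤ T →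
      1 ≤ W * Real.sqrt e → W * Real.sqrt e ≤ 2 →
      nd.k + W ≤ s → 0 ≤ ρ → ρ ≤ P.ρ₀ →
      (∀ j ∈ Finset.Ico s (s + W), ∀ z ∈ box n (j + T + n), 0 ≤ U j z ∧
        ((∃ x, P.Th x₀ j x * P.psi (j + T + n) z x ≠ 0) →
          D.Bd C₅ t₀ (P.chd nd x₀ T j z) ρ (U j z))) →
      ∃ mm ∈ Finset.Ico s (s + W), ∃ Pt ∈ P.N, ‖Pt - P.π (D.ub s x₀)‖ ≤ C * Real.sqrt e ∧
        ∀ q ∈ P.N, P.r₁ < P.dd q Pt → P.dd q Pt ≤ P.r₁ + 2 * P.ρ₀ →
          ∃ q' ∈ P.N, P.dd q' Pt = P.r₁ ∧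
            D.Phi (fun x => nd.η x * P.chi x₀ mm x) q' - D.Phi (fun x => nd.η x * P.chi x₀ mm x) q ≤
              C * Real.sqrt e * (∑ j ∈ Finset.Ico s (s + W), ∑ z ∈ box n (j + T + n), U j z)
              + C * e ^ (Q + 2) * (∑ j ∈ Finset.Icc (s - 4) (s + W + 4), ∫ x in br x₀ j, D.f x ^ n)
              + C * (p2 nd.k / p2 mm) * D.Ds nd := by
  have hn := P.hn
  have hCT : 1 ≤ P.CT := P.hT.one_le
  have hCG : 1 ≤ P.CG := P.hG.one_le
  have hδ : 0 < P.δ := P.hT.pos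
  obtain ⟨Cp, ta, hCp, hta, Ha⟩ := exists_pf P
  obtain ⟨_, tb, _, htb, Hb⟩ := hv_of_bd P Cp L₀ hCp hL
  obtain ⟨tc, htc, Hc⟩ := hI Cp hCp
  obtain ⟨Cy, td, hCy, htd, Hd⟩ := pay P Cp hCp
  obtain ⟨Cf, te, hCf, hte, He⟩ := yj_facts P
  obtain ⟨Cs, tf, hCs, htf, Hf⟩ := yj_step P
  obtain ⟨_, tg, _, htg, Hg⟩ := b_pow P
  obtain ⟨Cv, hCv, Hv⟩ := vu_sum P
  obtain ⟨Cg, hCg, Hgn⟩ := pf_gn P Cp hCp
  obtain ⟨ε₁, Cn, hε₁, hCn, Hn⟩ := near_ub P
  refine ⟨min ta (min tb (min tc (min td (min te (min tf tg))))),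
    lt_min hta (lt_min htb (lt_min htc (lt_min htd (lt_min hte (lt_min htf htg))))), ?_⟩
  intro Q C₅ t₀ h5 h0 h
  have h1 := h.trans (min_le_right _ _)
  have h2 := h1.trans (min_le_right _ _)
  have h3 := h2.trans (min_le_right _ _)
  have h4 := h3.trans (min_le_right _ _)
  have h6 := h4.trans (min_le_right _ _)
  obtain ⟨ea, hea, hea1, Ka⟩ := Ha Q C₅ t₀ h5 h0 (h.trans (min_le_left _ _))
  obtain ⟨eb, heb, -, Kb⟩ := Hb Q C₅ t₀ h5 h0 (h1.trans (min_le_left _ _))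
  obtain ⟨Ci, ec, hCi, hec, -, Kc⟩ := Hc Q C₅ t₀ h5 h0 (h2.trans (min_le_left _ _))
  obtain ⟨ed, hed, -, Kd⟩ := Hd Q C₅ t₀ h5 h0 (h3.trans (min_le_left _ _))
  obtain ⟨ee, hee, -, Ke⟩ := He Q C₅ t₀ h5 h0 (h4.trans (min_le_left _ _))
  obtain ⟨ef, hef, -, Kf⟩ := Hf Q C₅ t₀ h5 h0 (h6.trans (min_le_left _ _))
  obtain ⟨eg, heg, -, Kg⟩ := Hg Q C₅ t₀ h5 h0 (h6.trans (min_le_right _ _))
  clear Ha Hb Hc Hd He Hf Hg
  obtain ⟨C1, hC1⟩ : ∃ C1 : ℝ, C1 = Cy * Ci := ⟨_, rfl⟩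
  obtain ⟨C2, hC2⟩ : ∃ C2 : ℝ, C2 = Cy * (Ci * Cv + Ci + 1 + Cg) := ⟨_, rfl⟩
  obtain ⟨C3, hC3⟩ : ∃ C3 : ℝ, C3 = 4 * P.CG * L₀ := ⟨_, rfl⟩
  obtain ⟨C4, hC4⟩ : ∃ C4 : ℝ, C4 = Cp + 2 * Cs + P.CT * (Cn + Cf) := ⟨_, rfl⟩
  have hC1' : 0 ≤ C1 := by rw [hC1]; positivity
  have hC2' : 0 ≤ C2 := by rw [hC2]; positivity
  have hC3' : 0 ≤ C3 := by rw [hC3]; positivity
  have hC4' : 0 ≤ C4 := by rw [hC4]; positivity
  obtain ⟨e₁, he₁⟩ : ∃ e₁ : ℝ, e₁ = min ea (min eb (min ec (min ed (min ee (min ef (min eg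
    (min ε₁ (P.δ / (Cn + Cf)))))))))  := ⟨_, rfl⟩
  have q1 : e₁ ≤ ea := by rw [he₁]; exact min_le_left _ _
  have q1' : e₁ ≤ min eb (min ec (min ed (min ee (min ef (min eg
    (min ε₁ (P.δ / (Cn + Cf))))))))  := by rw [he₁]; exact min_le_right _ _
  have q2 : e₁ ≤ eb := q1'.trans (min_le_left _ _)
  have q2' := q1'.trans (min_le_right _ _)
  have q3 : e₁ ≤ ec := q2'.trans (min_le_left _ _)
  have q3' := q2'.trans (min_le_right _ _)
  have q4 : e₁ ≤ ed := q3'.trans (min_le_left _ _)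
  have q4' := q3'.trans (min_le_right _ _)
  have q5 : e₁ ≤ ee := q4'.trans (min_le_left _ _)
  have q5' := q4'.trans (min_le_right _ _)
  have q6 : e₁ ≤ ef := q5'.trans (min_le_left _ _)
  have q6' := q5'.trans (min_le_right _ _)
  have q7 : e₁ ≤ eg := q6'.trans (min_le_left _ _)
  have q7' := q6'.trans (min_le_right _ _)
  have q8 : e₁ ≤ ε₁ := q7'.trans (min_le_left _ _)
  have q9 : e₁ ≤ P.δ / (Cn + Cf) := q7'.trans (min_le_right _ _)
  have he₁0 : 0 < e₁ := by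
    rw [he₁]
    have : 0 < Cn + Cf := by linarith
    positivity
  refine ⟨e₁, 1 + C1 + C2 + C3 + C4, he₁0, q1.trans hea1, by linarith, ?_⟩
  clear q1' q2' q3' q4' q5' q6' q7' he₁
  intro D nd x₀ T W s e ρ U hDε he hee hnd hxy hamp hloc T1 T2 T3 W1 W2 hks hρ0 hρ1 hU
  have hse : 0 ≤ Real.sqrt e := Real.sqrt_nonneg _
  have he1 : e ≤ 1 := hee.trans (q1.trans hea1)
  obtain ⟨hfm, hf0, hfi, hfn, hgm, hgb, hgi, hpi⟩ := dyn_int D
  have hDj0 : ∀ S' : Set (E n), 0 ≤ ∫ x in S', D.f x ^ n := by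
    intro S'
    exact integral_nonneg fun x => pow_nonneg (hf0 x) _
  have hDs : 0 ≤ D.Ds nd := hDj0 _
  have hpk := hvbd_p2_pos nd.k
  have hW : 1 ≤ W := by
    by_contra hc
    have : W = 0 := by omega
    rw [this] at W1
    norm_num at W1
  obtain ⟨SU, hSU⟩ : ∃ SU : ℝ, SU = ∑ j ∈ Finset.Ico s (s + W), ∑ z ∈ box n (j + T + n), U j z :=
    ⟨_, rfl⟩
  obtain ⟨SD, hSD⟩ : ∃ SD : ℝ, SD = ∑ j ∈ Finset.Icc (s - 4) (s + W + 4),
    ∫ x in br x₀ j, D.f x ^ n := ⟨_, rfl⟩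
  have hSU0 : 0 ≤ SU := by
    rw [hSU]
    exact Finset.sum_nonneg fun j hj => Finset.sum_nonneg fun z hz => (hU j hj z hz).1
  have hSD0 : 0 ≤ SD := by
    rw [hSD]
    exact Finset.sum_nonneg fun j _ => hDj0 _
  rw [← hSU, ← hSD]
  -- the final inequality from the two pieces
  have hfin : ∀ (mm : ℕ), nd.k + 1 ≤ mm → ∀ q q' : E m,
      nd.η x₀ * (D.Phi (P.chi x₀ mm) q' - D.Phi (P.chi x₀ mm) q) ≤
        C1 * Real.sqrt e * SU + C2 * e ^ (Q + 3) * SD →
      D.Phi (fun x => nd.η x * P.chi x₀ mm x) q' - D.Phi (fun x => nd.η x * P.chi x₀ mm x) q ≤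
        (1 + C1 + C2 + C3 + C4) * Real.sqrt e * SU +
          (1 + C1 + C2 + C3 + C4) * e ^ (Q + 2) * SD +
          (1 + C1 + C2 + C3 + C4) * (p2 nd.k / p2 mm) * D.Ds nd := by
    intro mm hmm q q' hq
    have g1 := payf_split D hL nd hnd x₀ hxy mm hmm q q'
    have hpm := hvbd_p2_pos mm
    have g2 : C1 * Real.sqrt e * SU ≤ (1 + C1 + C2 + C3 + C4) * Real.sqrt e * SU := by
      apply mul_le_mul_of_nonneg_right _ hSU0
      apply mul_le_mul_of_nonneg_right _ hse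
      linarith
    have g3 : C2 * e ^ (Q + 3) * SD ≤ (1 + C1 + C2 + C3 + C4) * e ^ (Q + 2) * SD := by
      apply mul_le_mul_of_nonneg_right _ hSD0
      apply mul_le_mul (by linarith) (pow_le_pow_of_le_one he.le he1 (by omega)) (by positivity)
        (by linarith)
    have g4 : 4 * P.CG * L₀ * (p2 nd.k / p2 mm) * D.Ds nd ≤
        (1 + C1 + C2 + C3 + C4) * (p2 nd.k / p2 mm) * D.Ds nd := by
      apply mul_le_mul_of_nonneg_right _ hDs
      apply mul_le_mul_of_nonneg_right _ (by positivity)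
      linarith
    linarith
  by_cases hη : nd.η x₀ = 0
  · -- case A
    have hx16 : ‖x₀‖ ≤ 16 := by
      have k1 : ‖x₀‖ ≤ ‖x₀ - nd.y‖ + ‖nd.y‖ := by
        have := norm_add_le (x₀ - nd.y) nd.y
        rwa [sub_add_cancel] at this
      have k2 : 2 / p2 nd.k ≤ 2 := by
        rw [div_le_iff₀ hpk]
        have : 1 ≤ p2 nd.k := by
          unfold p2
          exact one_le_pow₀ (by norm_num)
        linarith
      have := hnd.cen
      linarith
    have hnear := ((Hn D (hDε.trans q8)).2.2.1 s x₀ hx16).2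
    have hPt : P.π (D.ub s x₀) ∈ P.N := P.hT.mem _ (by linarith)
    refine ⟨s, by rw [Finset.mem_Ico]; omega, P.π (D.ub s x₀), hPt, ?_, ?_⟩
    · rw [sub_self, norm_zero]
      positivity
    · intro q hq hq1 hq2
      obtain ⟨q', hq', hq3, -⟩ := P.hG.recentre q hq _ hPt hq1 hq2
      refine ⟨q', hq', hq3, hfin s (by omega) q q' ?_⟩
      rw [hη, zero_mul]
      positivity
  · -- case B
    have hx1 : ‖x₀‖ ≤ 1 := by
      have := hnd.supp1 x₀ hη
      rw [mem_ball_zero_iff] at this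
      exact this.le
    obtain ⟨R, hRx, hRk, hRT, hRW, hRQ, hRe, hRC, hRt⟩ := rc_ex P D nd x₀ T W Q e C₅ t₀ h5 h0 he
      he1 hx1 hxy hamp hloc T1 T2 T3 W1 W2
    subst hRx hRT hRW hRe
    have hOk : ∀ e', e₁ ≤ e' → Ok R Q C₅ t₀ e' := fun e' h' =>
      ⟨hDε.trans h', hee.trans h', hRQ, hRC, hRt⟩
    have Fa := Ka D R (hOk _ q1)
    have Fb := Kb D R (hOk _ q2)
    have Fc := Kc D R (hOk _ q3)
    have Fd := Kd D R (hOk _ q4)
    have Fe := Ke D R (hOk _ q5)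
    obtain ⟨-, Ff⟩ := Kf D R (hOk _ q6)
    have Fg := (Kg D R (hOk _ q7)).1
    obtain ⟨n1, n2, n3, n4, n5, n6, n7⟩ := rc_num R
    classical
    obtain ⟨U', hU'⟩ : ∃ U' : ℕ → (Fin n → ℤ) → ℝ, U' = fun j z =>
      if j ∈ Finset.Ico s (s + R.W) ∧ z ∈ box n (j + R.T + n) then U j z else 0 := ⟨_, rfl⟩
    have hU'0 : ∀ j z, 0 ≤ U' j z := by
      intro j z
      rw [hU']
      simp only
      split_ifs with hc
      · exact (hU j hc.1 z hc.2).1
      · exact le_rfl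
    have hU'e : ∀ j ∈ Finset.Ico s (s + R.W), ∀ z ∈ box n (j + R.T + n), U' j z = U j z := by
      intro j hj z hz
      rw [hU']
      simp only
      rw [if_pos ⟨hj, hz⟩]
    have hSU' : ∑ j ∈ Finset.Ico s (s + R.W), ∑ z ∈ box n (j + R.T + n), U' j z = SU := by
      rw [hSU]
      exact Finset.sum_congr rfl fun j hj => Finset.sum_congr rfl fun z hz => hU'e j hj z hz
    obtain ⟨hV0, hV1⟩ := Hv D R U' s hU'0 (by omega)
    have hηp : 0 ≤ nd.η R.x₀ := hnd.nonneg _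
    have hη1 : nd.η R.x₀ ≤ 1 := hnd.le_one _
    have hHV := Fb nd ρ U' s hnd hRk hxy (by omega) hρ0 (by
      intro j hj z hz
      rw [hU'e j hj z hz, hRC, hRt]
      exact hU j hj z hz)
    obtain ⟨mm, j2, pf, hm1, hm2, hm3, hZ⟩ := Fc Fa s (nd.η R.x₀) (VU R U') (by omega) hηp hη1 hV0
      hHV
    have ha0 := pf.a_nonneg
    have hss := pfB_sj_sub j2 mm
    obtain ⟨l1, l2⟩ := pfB_log2
    obtain ⟨r1, r2⟩ := pfB_log32
    have hm2' : (mm : ℝ) + 2 ≤ j2 := by exact_mod_cast hm2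
    have hsj1 : sj mm ∈ Icc (sj mm - 4) (sj j2 + 4) := by
      constructor
      · linarith
      · have k0 : 0 ≤ ((j2 : ℝ) - mm) * Real.log 2 := mul_nonneg (by linarith) l1.le
        linarith
    have hτ : Real.log (p2 mm) - Real.log 2 = sj mm + Real.log (3 / 2) - Real.log 2 := by
      unfold sj
      ring
    have hlog : Real.log (3 / 2) ≤ Real.log 2 := Real.log_le_log (by norm_num) (by norm_num)
    have hlog3 : 0 ≤ Real.log (3 / 2) := Real.log_nonneg (by norm_num)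
    have hsj2 : Real.log (p2 mm) - Real.log 2 ∈ Icc (sj mm - 4) (sj j2 + 4) := by
      rw [hτ]
      obtain ⟨g1, g2⟩ := hsj1
      constructor <;> linarith
    have hPt : pf.Γ (Real.log (p2 mm) - Real.log 2) ∈ P.N := pf.geod.mem _ hsj2
    have hSDR : SD = ∑ j ∈ Finset.Icc (s - 4) (s + R.W + 4), R.Dj j := hSD
    refine ⟨mm, by rw [Finset.mem_Ico]; omega, pf.Γ (Real.log (p2 mm) - Real.log 2), hPt, ?_, ?_⟩
    · -- location
      have d1 : ‖pf.Γ (Real.log (p2 mm) - Real.log 2) - R.yj mm‖ ≤ Cp * Real.sqrt R.e := by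
        rw [← pf.hα]
        refine (pfB_gamma_lip pf.geod _ _ hsj2 hsj1).trans ?_
        have g1 : |Real.log (p2 mm) - Real.log 2 - sj mm| ≤ 1 := by
          rw [hτ, abs_le]
          constructor <;> linarith
        calc pf.a * |Real.log (p2 mm) - Real.log 2 - sj mm| ≤ pf.a * 1 :=
              mul_le_mul_of_nonneg_left g1 ha0
          _ ≤ Cp * R.e := by rw [mul_one]; exact pf.a_le
          _ ≤ Cp * Real.sqrt R.e := mul_le_mul_of_nonneg_left n2 (by linarith)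
      have d2 : ‖R.yj s - R.yj mm‖ ≤ 2 * Cs * Real.sqrt R.e := by
        refine (Ff s mm (by omega) hm1).trans ?_
        have g1 : (mm : ℝ) - s ≤ R.W := by
          have : mm ≤ s + R.W := by omega
          have : (mm : ℝ) ≤ s + R.W := by exact_mod_cast this
          linarith
        calc Cs * R.e * ((mm : ℝ) - s) ≤ Cs * R.e * R.W :=
              mul_le_mul_of_nonneg_left g1 (by positivity)
          _ = Cs * (R.e * R.W) := by ring
          _ ≤ Cs * (2 * Real.sqrt R.e) := mul_le_mul_of_nonneg_left n1 (by linarith)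
          _ = 2 * Cs * Real.sqrt R.e := by ring
      have d3 : ‖R.yj s - P.π (D.ub s R.x₀)‖ ≤ P.CT * (Cn + Cf) * Real.sqrt R.e := by
        obtain ⟨y1, -, -, -, y5⟩ := Fe s (by omega)
        have hps := hvbd_p2_pos s
        have hn0 : 0 < n := by omega
        obtain ⟨p, hp⟩ : ∃ p : E n, p = R.x₀ + (1 / p2 s) • (ev ⟨0, hn0⟩ : E n) := ⟨_, rfl⟩
        have hpn : ‖p - R.x₀‖ = 1 / p2 s := by
          rw [hp, add_sub_cancel_left, norm_smul]
          have : ‖(ev ⟨0, hn0⟩ : E n)‖ = 1 := by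
            unfold ev
            rw [EuclideanSpace.norm_single]
            norm_num
          rw [this, mul_one, Real.norm_eq_abs, abs_of_nonneg (by positivity)]
        have hpf : p ∈ fr R.x₀ s := by
          refine ⟨?_, ?_⟩
          · rw [hpn]
            apply one_div_le_one_div_of_le hps
            linarith
          · rw [hpn]
            apply div_le_div_of_nonneg_right _ hps.le
            norm_num
        have g1 := y5 p hpf s le_rfl
        have g2 := (Hn D (hDε.trans q8)).1 s R.x₀ p (by linarith) (by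
          rw [norm_sub_rev, hpn]
          apply div_le_div_of_nonneg_right _ hps.le
          norm_num)
        have g3 : AA D.f s R.x₀ ≤ R.e := hamp s (by omega) _ (by
          rw [mem_ball, dist_eq_norm]
          refine lt_of_le_of_lt hxy ?_
          exact div_lt_div_of_pos_right (by norm_num) hpk)
        have g4 : ‖R.yj s - D.ub s R.x₀‖ ≤ (Cn + Cf) * R.e := by
          have k1 := norm_sub_le_norm_sub_add_norm_sub (R.yj s) (D.ub s p) (D.ub s R.x₀)
          rw [norm_sub_rev (R.yj s) (D.ub s p)] at k1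
          have k2 : Cn * AA D.f s R.x₀ ≤ Cn * R.e := mul_le_mul_of_nonneg_left g3 (by linarith)
          have k3 : Cf * R.e * ((s : ℝ) - s + 1) = Cf * R.e := by ring
          rw [k3] at g1
          linarith
        have g5 : (Cn + Cf) * R.e ≤ P.δ := by
          have k1 := hee.trans q9
          rw [le_div_iff₀ (by linarith)] at k1
          linarith
        have g6 := P.hT.lip0 (R.yj s) (D.ub s R.x₀) (by
          rw [infDist_zero_of_mem y1]
          linarith) (by linarith)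
        rw [P.hT.fixed _ y1] at g6
        refine g6.trans ?_
        calc P.CT * ‖R.yj s - D.ub s R.x₀‖ ≤ P.CT * ((Cn + Cf) * Real.sqrt R.e) := by
              apply mul_le_mul_of_nonneg_left _ (by linarith)
              refine g4.trans (mul_le_mul_of_nonneg_left n2 (by linarith))
          _ = P.CT * (Cn + Cf) * Real.sqrt R.e := by ring
      have k1 := norm_sub_le_norm_sub_add_norm_sub (pf.Γ (Real.log (p2 mm) - Real.log 2))
        (R.yj mm) (P.π (D.ub s R.x₀))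
      have k2 := norm_sub_le_norm_sub_add_norm_sub (R.yj mm) (R.yj s) (P.π (D.ub s R.x₀))
      rw [norm_sub_rev (R.yj mm) (R.yj s)] at k2
      have k3 : C4 * Real.sqrt R.e = Cp * Real.sqrt R.e + 2 * Cs * Real.sqrt R.e +
          P.CT * (Cn + Cf) * Real.sqrt R.e := by
        rw [hC4]
        ring
      have k4 : C4 * Real.sqrt R.e ≤ (1 + C1 + C2 + C3 + C4) * Real.sqrt R.e := by
        apply mul_le_mul_of_nonneg_right _ hse
        linarith
      linarith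
    · intro q hq hq1 hq2
      obtain ⟨q', hq', hq3, hq4⟩ := Fd mm j2 pf hm2 q hq hq1 hq2
      refine ⟨q', hq', hq3, hfin mm (by omega) q q' ?_⟩
      obtain ⟨hg1, -, hg3⟩ := Hgn D R mm j2 pf hm2 Fg
      obtain ⟨-, -, -, -, -, -, hD0, hE0⟩ := hg1 mm (by omega) (by omega)
      have hDjn : ∀ j, 0 ≤ R.Dj j := fun j => hDj0 _
      have hsub1 : ∑ j ∈ Finset.Icc mm j2, R.Dj j ≤ SD := by
        rw [hSDR]
        refine Finset.sum_le_sum_of_subset_of_nonneg ?_ fun j _ _ => hDjn j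
        intro j hj
        rw [Finset.mem_Icc] at hj ⊢
        omega
      have hsub2 : ∑ j ∈ Finset.Ico s (s + R.W), R.Dj j ≤ SD := by
        rw [hSDR]
        refine Finset.sum_le_sum_of_subset_of_nonneg ?_ fun j _ _ => hDjn j
        intro j hj
        rw [Finset.mem_Ico] at hj
        rw [Finset.mem_Icc]
        omega
      have hsub3 : R.Dj mm ≤ SD := by
        rw [hSDR]
        exact Finset.single_le_sum (f := fun j => R.Dj j) (fun j _ => hDjn j)
          (by rw [Finset.mem_Icc]; omega)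
      have ha : pf.a ^ n ≤ Cg * SD := by
        have k1 : pf.a ^ n ≤ ((j2 : ℝ) - mm + 3) * pf.a ^ n := by
          have : 0 ≤ pf.a ^ n := by positivity
          exact le_mul_of_one_le_left this (by linarith)
        refine k1.trans (hg3.trans ?_)
        exact mul_le_mul_of_nonneg_left hsub1 (by linarith)
      have hep := R.e_pos
      have hE : pf.Er mm ≤ R.e ^ (Q + 3) * ((1 + Cg) * SD) := by
        unfold Pf.Er
        rw [hRQ]
        apply mul_le_mul_of_nonneg_left _ (by positivity)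
        linarith
      have hV2 : ∑ j ∈ Finset.Ico s (s + R.W), ∑ z ∈ box n (j + R.T + n), VU R U' j z ≤
          SU + Cv * R.e ^ (Q + 4) * SD := by
        rw [hSU', hRQ] at hV1
        refine hV1.trans ?_
        have : Cv * R.e ^ (Q + 4) * ∑ j ∈ Finset.Ico s (s + R.W), R.Dj j ≤
            Cv * R.e ^ (Q + 4) * SD := mul_le_mul_of_nonneg_left hsub2 (by positivity)
        linarith
      rw [← hSDR, hRQ] at hZ
      have hZ2 : nd.η R.x₀ * pf.Zp mm ≤ Ci * Real.sqrt R.e * SU +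
          (Ci * Cv + Ci) * R.e ^ (Q + 3) * SD := by
        have k1 : Ci * Real.sqrt R.e *
            ∑ j ∈ Finset.Ico s (s + R.W), ∑ z ∈ box n (j + R.T + n), VU R U' j z ≤
            Ci * Real.sqrt R.e * (SU + Cv * R.e ^ (Q + 4) * SD) :=
          mul_le_mul_of_nonneg_left hV2 (by positivity)
        have k2 : Real.sqrt R.e * R.e ^ (Q + 4) ≤ R.e ^ (Q + 3) := by
          have k3 : R.e ^ (Q + 4) ≤ R.e ^ (Q + 3) :=
            pow_le_pow_of_le_one hep.le he1 (by omega)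
          calc Real.sqrt R.e * R.e ^ (Q + 4) ≤ 1 * R.e ^ (Q + 3) :=
                mul_le_mul n3 k3 (by positivity) zero_le_one
            _ = R.e ^ (Q + 3) := one_mul _
        have k4 : Ci * Cv * SD * (Real.sqrt R.e * R.e ^ (Q + 4)) ≤
            Ci * Cv * SD * R.e ^ (Q + 3) := mul_le_mul_of_nonneg_left k2 (by positivity)
        have k5 : Ci * Real.sqrt R.e * (SU + Cv * R.e ^ (Q + 4) * SD) =
            Ci * Real.sqrt R.e * SU + Ci * Cv * SD * (Real.sqrt R.e * R.e ^ (Q + 4)) := by ring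
        have k6 : (Ci * Cv + Ci) * R.e ^ (Q + 3) * SD =
            Ci * Cv * SD * R.e ^ (Q + 3) + Ci * R.e ^ (Q + 3) * SD := by ring
        rw [k5] at k1
        rw [k6]
        linarith
      have k5 : nd.η R.x₀ * (D.Phi (P.chi R.x₀ mm) q' - D.Phi (P.chi R.x₀ mm) q) ≤
          Cy * (nd.η R.x₀ * pf.Zp mm + pf.Er mm) := by
        calc nd.η R.x₀ * (D.Phi (P.chi R.x₀ mm) q' - D.Phi (P.chi R.x₀ mm) q) ≤
              nd.η R.x₀ * (Cy * (pf.Zp mm + pf.Er mm)) := mul_le_mul_of_nonneg_left hq4 hηp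
          _ = Cy * (nd.η R.x₀ * pf.Zp mm + nd.η R.x₀ * pf.Er mm) := by ring
          _ ≤ Cy * (nd.η R.x₀ * pf.Zp mm + pf.Er mm) := by
              apply mul_le_mul_of_nonneg_left _ (by linarith)
              have := mul_le_mul_of_nonneg_right hη1 hE0
              linarith
      refine k5.trans ?_
      have k6 : Cy * (nd.η R.x₀ * pf.Zp mm + pf.Er mm) ≤ Cy * (Ci * Real.sqrt R.e * SU +
          (Ci * Cv + Ci) * R.e ^ (Q + 3) * SD + R.e ^ (Q + 3) * ((1 + Cg) * SD)) :=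
        mul_le_mul_of_nonneg_left (by linarith) (by linarith)
      refine k6.trans (le_of_eq ?_)
      rw [hC1, hC2]
      ring

end H60NT
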