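import Pool.Agent.H60.NT.R0I
import Pool.Agent.H60.NT.PayF
import Pool.Agent.H60.NT.It
import Pool.Agent.H60.NT.GeoI
import Pool.Agent.H60.NT.CutKEx
import Pool.Agent.H60.NT.HatEx
import Pool.Agent.H60.NH.MExist

/-!
# The inequality (R0) for all `n ≥ 3`
-/

set_option autoImplicit false

namespace H60NT

open H60NH MeasureTheory Metric Set Filter Topology
open scoped ENNReal NNReal ContDiff

theorem main_ineq_all {n m : ℕ} (hn : 3 ≤ n) {N : Set (E m)} {π : E m → E m} {δ C : ℝ}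
    (hT : TC N π δ C) :
    ∃ ε₁ c₀ C₁ : ℝ, 0 < ε₁ ∧ 0 < c₀ ∧ 1 ≤ C₁ ∧
      ∀ (u : E n → E m) (G : E n → Fin n → E m) (ε : ℝ),
      Sol N π 64 u G → 0 < ε → ε ≤ ε₁ → Mor (fun x => gn (G x)) ε → ∫ x, gn (G x) ^ n ≤ 1 →
      ∀ S : Set (E n), MeasurableSet S →
      (∀ x ∈ S ∩ ball (0 : E n) 1, Ninf (fun x => gn (G x)) x ≤ ENNReal.ofReal c₀) →
      ∃ e : ℕ → ℝ, Tendsto e atTop (𝓝 0) ∧ ∀ K : ℕ, 1 ≤ K →
        ∫ x in ball (0 : E n) (1 / 2) ∩ S, gn (G x) ^ n ≤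
          C₁ * (∫ x in ball (0 : E n) 1 \ ball (0 : E n) (1 / 2),
            gn (G x) ^ (n - 1) * min 1 (C₁ * NN (fun x => gn (G x)) K 0 x))
          + C₁ * ε ^ n * (∫ x, gn (G x) ^ n) + e K := by
  obtain ⟨F, dd, r₁, ρ₀, κ₀, t₃, a₀, c, C', hG⟩ := exists_geo hT
  obtain ⟨φ, Θ, M, hφ⟩ := exists_moll n
  obtain ⟨κf, Lκ, hκ⟩ := exists_cutK
  obtain ⟨βf, Lβ, hβ⟩ := exists_hat
  let P : Par n m :=
    { hn := hn, N := N, π := π, δ := δ, CT := C, hT := hT, F := F, dd := dd, r₁ := r₁, ρ₀ := ρ₀,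
      κ₀ := κ₀, t₃ := t₃, a₀ := a₀, cg := c, CG := C', hG := hG, φ := φ, Θ := Θ, M := M, hφ := hφ,
      κf := κf, Lκ := Lκ, hκ := hκ, βf := βf, Lβ := Lβ, hβ := hβ }
  obtain ⟨ε₁, c₀, C₁, h1, h2, h3, H⟩ := main_ineq_par P (block_pay' P (H87NR.L0 P) (H87NR.L0_ge P) (iter P))
  refine ⟨ε₁, c₀, C₁, h1, h2, h3, ?_⟩
  intro u G ε hS hε hε1 hf hD S hSm hSc
  let D : Dyn P := { u := u, G := G, ε := ε, ε_pos := hε, hS := hS, hf := hf, hD := hD }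
  exact H D hε1 S hSm hSc

end H60NT
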