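import Pool.Agent.H60.NT.CDec
import Pool.Agent.H60.NT.MainAll
import Pool.Agent.H60.NH.ESol
import Pool.Agent.H60.NH.Cont
import Pool.Agent.H60.NH.MExist

/-!
# The theorem, all `n ≥ 3`
-/

set_option autoImplicit false

namespace H60NT

open H60NH MeasureTheory Metric Set Filter Topology
open scoped ENNReal NNReal ContDiff

theorem regularity (n m : ℕ) (hn : 3 ≤ n) (N : Set (E m)) (δ : ℝ) (π : E m → E m)
    (hN : IsTarget N δ π) (u : E n → E m) (hu : IsWeaklyNHarmonic N π u) :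
    ∃ v : E n → E m, ContinuousOn v (ball (0 : E n) 1) ∧
      v =ᵐ[volume.restrict (ball (0 : E n) 1)] u := by
  obtain ⟨δ₁, C, -, hT⟩ := exists_TC hN
  have hn2 : 2 ≤ n := by omega
  obtain ⟨u', G', hS, hae⟩ := exists_sol hn2 hT u hu
  obtain ⟨φ, Θ, M, hφ⟩ := exists_moll n
  obtain ⟨v, hv, hvu⟩ := cont_of_decay hn2 hφ u' G' hS
    (fun z hz => decay hn (main_ineq_all hn hT) u' G' hS z hz)
  exact ⟨v, hv, hvu.trans hae⟩

end H60NT
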