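import Pool.Agent.H60.NT.CRpH
import Pool.Agent.H60.NH.RA
import Pool.Agent.H60.NH.ScSol
import Pool.Agent.H60.NH.WinA
import Pool.Agent.H60.NH.Rec
import Pool.Agent.H60.NH.SolBase

/-!
# One window, all `n ≥ 3`

Copy of `NH/Win.lean`.

`s = sn n`, `1 <= n/s <= 2`. Constants: `ε₁, c₀, C₀` of `RP_RH`; `C_A` of `RA_ineq` for `c = c₀/2`; `C_s` of
`sc_mor`. `C' = max(C₀ 64 + C₀ C_s^n, 2 C_A² 64)` etc. (independent of everything below), `η = 1/(512 C')`, `Cη` from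
`RP_RH`, `θ, C₂` from `rec_lemma C' (Cη + Cη C_s^n)`; `E₀ = min 1 (1/(8 C₂))`, `L` with `C₂ θ^L <= 1/8`, and `lam₀` small:
`ε := C_s lam^(1/s) <= ε₁`, `L 8^(n-1) ε <= c₀/2`, `64 Cη (ε + (8 lam)^(1/s)) <= 1/(8 C')`.
Data: `f = gn ∘ G` (`sol_base`), `r_k = r/p2 k`, `f_k = scF f x₀ r_k = gn ∘ scG G x₀ r_k` (`gn_scG`), solutions by
`sc_sol` (`ball x₀ (64 r_k) ⊆ ball x₀ (64 r)`), `Mor f_k ε` by `sc_mor`. `Λ = lam^(n/s)`,
`Y k = (xs f x₀ r_k)^(n/s) <= Λ`, `S = goodS f x₀ r c₀`, `D k = ∫_{ball x₀ r_k ∩ S} f^n`,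
`S_k = {x | x₀ + r_k • x ∈ S}`; by `good_set` the hypotheses on the set `S_k` in `RP_RH` (for `f_k`) and in `RA_ineq`
hold for `k <= L`. (For `k > L` define `Y k`, `D k` by the same formulas; nothing is needed there except
`0 <= Y k <= Λ` and monotonicity of `D`.)
`As f_k ^ n = (8 xs f x₀ (64 r_k))^(n/s)` (`As_sc`), which is `<= 64 Λ`, and `= (8 xs f x₀ r_{k-6})^(n/s) <= 64 Y (k-6)`
for `k >= 6`; `∫ f_k^n <= E₀` (`sc_n_full`); `ε^n = C_s^n Λ`; `As f_k <= (8 lam)^(1/s)`.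
`h0`: RP for `f_0`: `D 1 <= C₀ 64 Λ + C₀ C_s^n Λ E₀ <= C' Λ` (`sc_n` with `R = 1/2`).
`h1`: RA for `f_k` (`sc_s`, `R = 1`; `(a+b)^(n/s) <= 2 (a^(n/s) + b^(n/s))`): `Y k <= 2 C_A² (D k + E₀ (8 lam)^(n/s)) <= C' D k + C' E₀ Λ`.
`h2`: RH for `f_k`, `6 <= k < L` (`sc_n` with `R = 1/2`, `1`; the ring integral is `D k - D (k+1)`).
`rec_lemma`: `Y L <= C₂ (θ^L + E₀) Λ <= Λ/4 <= (lam/2)^(n/s)` as `n/s <= 2`; so `xs f x₀ r_L <= lam/2`.
-/

set_option autoImplicit false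

namespace H60NT

open H60NH MeasureTheory Metric Set Filter Topology
open scoped ENNReal NNReal ContDiff

private lemma win_add_rpow {a b q : ℝ} (ha : 0 ≤ a) (hb : 0 ≤ b) (hq1 : 1 ≤ q) (hq2 : q ≤ 2) :
    (a + b) ^ q ≤ 4 * (a ^ q + b ^ q) := by
  have h2 : (2 : ℝ) ^ q ≤ 4 := by
    have := Real.rpow_le_rpow_of_exponent_le (show (1:ℝ) ≤ 2 by norm_num) hq2
    calc (2:ℝ) ^ q ≤ (2:ℝ) ^ (2:ℝ) := this
      _ = 4 := by norm_num
  have hm : 0 ≤ max a b := le_max_of_le_left ha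
  have h1 : a + b ≤ 2 * max a b := by
    have := le_max_left a b
    have := le_max_right a b
    linarith
  have h3 : (max a b) ^ q ≤ a ^ q + b ^ q := by
    rcases le_total a b with h | h
    · rw [max_eq_right h]
      have := Real.rpow_nonneg ha q
      linarith
    · rw [max_eq_left h]
      have := Real.rpow_nonneg hb q
      linarith
  calc (a + b) ^ q ≤ (2 * max a b) ^ q :=
        Real.rpow_le_rpow (by linarith) h1 (by linarith)
    _ = 2 ^ q * (max a b) ^ q := Real.mul_rpow (by norm_num) hm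
    _ ≤ 4 * (a ^ q + b ^ q) := by
        apply mul_le_mul h2 h3 (Real.rpow_nonneg hm q) (by norm_num)

private lemma win_pow_le {a q : ℝ} (ha : 1 ≤ a) (hq2 : q ≤ 2) : a ^ q ≤ a ^ 2 := by
  have := Real.rpow_le_rpow_of_exponent_le ha hq2
  calc a ^ q ≤ a ^ (2:ℝ) := this
    _ = a ^ 2 := by norm_cast

theorem window {n m : ℕ} (hn : 3 ≤ n) {N : Set (E m)} {π : E m → E m}
    (hM : MIneq n m N π) :
    ∃ (E₀ lam₀ : ℝ) (L : ℕ), 0 < E₀ ∧ 0 < lam₀ ∧ ∀ (u : E n → E m) (G : E n → Fin n → E m),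
      Sol N π 1 u G → ∀ (x₀ : E n) (r lam : ℝ), 0 < r → ball x₀ (64 * r) ⊆ ball (0 : E n) 1 →
      0 < lam → lam ≤ lam₀ →
      (∀ y ∈ ball x₀ (64 * r), ∀ t : ℝ, 0 < t → t ≤ 128 * r →
        xs (fun x => gn (G x)) y t ≤ lam) →
      ∫ x in ball x₀ (64 * r), gn (G x) ^ n ≤ E₀ →
      xs (fun x => gn (G x)) x₀ (r / p2 L) ≤ lam / 2 := by
  have hn2 : 2 ≤ n := by omega
  have hnR : (2:ℝ) ≤ (n:ℝ) := by exact_mod_cast hn2
  obtain ⟨ε₁, c₀, C₀, hε₁, hc₀, hC₀, hRP, hRH⟩ := RP_RH hn hM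
  obtain ⟨CA, hCA, hRA⟩ := RA_ineq n hn2 (c₀ / 2) (by positivity)
  obtain ⟨Cs, hCs, hMor⟩ := sc_mor n hn2
  have hCsn : 1 ≤ Cs ^ n := one_le_pow₀ hCs
  obtain ⟨C', hC'⟩ : ∃ C' : ℝ, C' = 64 * C₀ + C₀ * Cs ^ n + 256 * CA ^ 2 := ⟨_, rfl⟩
  have hp1 : 0 < C₀ * Cs ^ n := by positivity
  have hp2 : 0 < CA ^ 2 := by positivity
  have hC'1 : 1 ≤ C' := by rw [hC']; linarith
  have hC'0 : 0 < C' := by linarith
  obtain ⟨Cη, hCη, hRHη⟩ := hRH (1 / (512 * C')) (by positivity)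
  have hCη0 : 0 < Cη := by linarith
  obtain ⟨θ, C₂, hθ0, hθ1, hC₂, hrec⟩ := rec_lemma C' (Cη + Cη * Cs ^ n) hC'1
    (by linarith [mul_pos hCη0 (by linarith : (0:ℝ) < Cs ^ n)])
  have hC₂0 : 0 < C₂ := by linarith
  obtain ⟨L, hL⟩ : ∃ L : ℕ, C₂ * θ ^ L ≤ 1 / 8 := by
    obtain ⟨L, hL⟩ := exists_pow_lt_of_lt_one (show (0:ℝ) < 1 / (8 * C₂) by positivity) hθ1
    refine ⟨L, ?_⟩
    have h1 : C₂ * θ ^ L ≤ C₂ * (1 / (8 * C₂)) := mul_le_mul_of_nonneg_left hL.le hC₂0.le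
    have h2 : C₂ * (1 / (8 * C₂)) = 1 / 8 := by field_simp
    linarith
  obtain ⟨E₀, hE₀⟩ : ∃ E₀ : ℝ, E₀ = min 1 (1 / (8 * C₂)) := ⟨_, rfl⟩
  have hE0 : 0 < E₀ := by rw [hE₀]; exact lt_min one_pos (by positivity)
  have hE1 : E₀ ≤ 1 := by rw [hE₀]; exact min_le_left _ _
  have hE2 : C₂ * E₀ ≤ 1 / 8 := by
    have h1 : E₀ ≤ 1 / (8 * C₂) := by rw [hE₀]; exact min_le_right _ _
    have h2 : C₂ * (1 / (8 * C₂)) = 1 / 8 := by field_simp
    calc C₂ * E₀ ≤ C₂ * (1 / (8 * C₂)) := mul_le_mul_of_nonneg_left h1 hC₂0.le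
      _ = 1 / 8 := h2
  obtain ⟨τ, hτ0, hτ1, hτ2, hτ3⟩ : ∃ τ : ℝ, 0 < τ ∧ Cs * τ ≤ ε₁ ∧
      (L : ℝ) * (8 ^ (n - 1) * (Cs * τ)) ≤ c₀ / 2 ∧
      64 * (Cη * (Cs * τ + 8 * τ)) ≤ 1 / (8 * C') := by
    have hLn : (0:ℝ) ≤ (L:ℝ) := Nat.cast_nonneg L
    refine ⟨min (ε₁ / Cs) (min ((c₀ / 2) / ((L : ℝ) * (8 ^ (n - 1) * Cs) + 1))
      ((1 / (8 * C')) / (64 * (Cη * (Cs + 8))))), by positivity, ?_, ?_, ?_⟩
    · calc Cs * _ ≤ Cs * (ε₁ / Cs) := mul_le_mul_of_nonneg_left (min_le_left _ _) (by linarith)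
        _ = ε₁ := by field_simp
    · set τ := min (ε₁ / Cs) (min ((c₀ / 2) / ((L : ℝ) * (8 ^ (n - 1) * Cs) + 1))
        ((1 / (8 * C')) / (64 * (Cη * (Cs + 8))))) with hτ
      have h1 : τ ≤ (c₀ / 2) / ((L : ℝ) * (8 ^ (n - 1) * Cs) + 1) :=
        (min_le_right _ _).trans (min_le_left _ _)
      have hpos : 0 < (L : ℝ) * (8 ^ (n - 1) * Cs) + 1 := by positivity
      rw [le_div_iff₀ hpos] at h1
      have hτ0 : 0 < τ := by positivity
      linarith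
    · set τ := min (ε₁ / Cs) (min ((c₀ / 2) / ((L : ℝ) * (8 ^ (n - 1) * Cs) + 1))
        ((1 / (8 * C')) / (64 * (Cη * (Cs + 8))))) with hτ
      have h1 : τ ≤ (1 / (8 * C')) / (64 * (Cη * (Cs + 8))) :=
        (min_le_right _ _).trans (min_le_right _ _)
      have hpos : 0 < 64 * (Cη * (Cs + 8)) := by positivity
      rw [le_div_iff₀ hpos] at h1
      calc 64 * (Cη * (Cs * τ + 8 * τ)) = τ * (64 * (Cη * (Cs + 8))) := by ring
        _ ≤ _ := h1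
  have hs0 : 0 < sn n := by unfold sn; linarith
  have hn0 : (0:ℝ) < (n:ℝ) := by linarith
  refine ⟨E₀, τ ^ sn n, L, hE0, Real.rpow_pos_of_pos hτ0 _, ?_⟩
  intro u G hS x₀ r lam hr hball hlam hlam0 hxs hE
  set f : E n → ℝ := fun x => gn (G x) with hf
  have hb : Base f := sol_base hn2 hS
  obtain ⟨q, hq⟩ : ∃ q : ℝ, q = (n : ℝ) / sn n := ⟨_, rfl⟩
  have hq1 : 1 ≤ q := by
    rw [hq, le_div_iff₀ hs0]; unfold sn; linarith
  have hq2 : q ≤ 2 := by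
    rw [hq, div_le_iff₀ hs0]; unfold sn; linarith
  have hq0 : 0 < q := by linarith
  have h1q : 1 / q = sn n / n := by rw [hq]; field_simp
  -- the small parameter
  obtain ⟨t, ht⟩ : ∃ t : ℝ, t = lam ^ (1 / sn n) := ⟨_, rfl⟩
  have ht0 : 0 < t := by rw [ht]; exact Real.rpow_pos_of_pos hlam _
  have htτ : t ≤ τ := by
    rw [ht]
    calc lam ^ (1 / sn n) ≤ (τ ^ sn n) ^ (1 / sn n) :=
          Real.rpow_le_rpow hlam.le hlam0 (by positivity)
      _ = τ := by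
          rw [← Real.rpow_mul hτ0.le, mul_one_div_cancel hs0.ne', Real.rpow_one]
  obtain ⟨ε, hε⟩ : ∃ ε : ℝ, ε = Cs * t := ⟨_, rfl⟩
  have hCs0 : 0 < Cs := by linarith
  have hε0 : 0 < ε := by rw [hε]; positivity
  have hετ : ε ≤ Cs * τ := by rw [hε]; exact mul_le_mul_of_nonneg_left htτ hCs0.le
  have hεε₁ : ε ≤ ε₁ := hετ.trans hτ1
  have hLε : (L : ℝ) * (8 ^ (n - 1) * ε) ≤ c₀ / 2 := by
    refine le_trans ?_ hτ2
    gcongr
  obtain ⟨Λ, hΛ⟩ : ∃ Λ : ℝ, Λ = lam ^ q := ⟨_, rfl⟩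
  have hΛ0 : 0 < Λ := by rw [hΛ]; exact Real.rpow_pos_of_pos hlam _
  have hεn : ε ^ n = Cs ^ n * Λ := by
    rw [hε, mul_pow, ht, hΛ, hq]
    congr 1
    rw [← Real.rpow_natCast (lam ^ (1 / sn n)) n, ← Real.rpow_mul hlam.le]
    congr 1
    field_simp
  have h8q : (8:ℝ) ^ q ≤ 64 := by
    have := win_pow_le (show (1:ℝ) ≤ 8 by norm_num) hq2
    linarith
  -- scales
  have hp2 : ∀ k, 0 < p2 k := fun k => by unfold p2; positivity
  have hp21 : ∀ k, 1 ≤ p2 k := fun k => by unfold p2; exact one_le_pow₀ (by norm_num)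
  have hrk : ∀ k, 0 < r / p2 k := fun k => div_pos hr (hp2 k)
  have hrk' : ∀ k, r / p2 k ≤ r := fun k => div_le_self hr.le (hp21 k)
  have hfn0 : ∀ x, 0 ≤ f x := hb.nonneg
  have hxs0 : ∀ y ρ, 0 ≤ xs f y ρ := by
    intro y ρ
    unfold xs
    exact div_nonneg (setIntegral_nonneg measurableSet_ball
      (fun x _ => Real.rpow_nonneg (hfn0 x) _)) (Real.sqrt_nonneg _)
  have hx₀ : x₀ ∈ ball x₀ (64 * r) := mem_ball_self (by positivity)
  have hxk : ∀ k, xs f x₀ (r / p2 k) ≤ lam := fun k =>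
    hxs x₀ hx₀ _ (hrk k) (by linarith [hrk' k])
  have hx64 : ∀ k, xs f x₀ (64 * (r / p2 k)) ≤ lam := fun k =>
    hxs x₀ hx₀ _ (by linarith [hrk k]) (by linarith [hrk' k])
  have hballk : ∀ k, ball x₀ (64 * (r / p2 k)) ⊆ ball x₀ (64 * r) := fun k =>
    ball_subset_ball (by linarith [hrk' k])
  have hSolk : ∀ k, Sol N π 64 (scU u x₀ (r / p2 k)) (scG G x₀ (r / p2 k)) := fun k =>
    sc_sol hn2 hS x₀ _ (hrk k) ((hballk k).trans hball)
  have hgk : ∀ k, (fun x => gn (scG G x₀ (r / p2 k) x)) = scF f x₀ (r / p2 k) := fun k =>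
    funext fun x => gn_scG G x₀ _ (hrk k).le x
  have hMork : ∀ k, Mor (scF f x₀ (r / p2 k)) ε := by
    intro k
    have := hMor f hb x₀ (r / p2 k) lam (hrk k) hlam.le (fun y hy t' ht' ht2 =>
      hxs y (hballk k hy) t' ht' (by linarith [hrk' k]))
    rw [hε, ht]; exact this
  have hMor0 : Mor (scF f x₀ r) ε := by
    have := hMork 0
    have h0 : r / p2 0 = r := by unfold p2; simp
    rwa [h0] at this
  obtain ⟨hSm, hSk⟩ := good_set hn2 hb x₀ r ε c₀ hr hc₀ hMor0 L hLε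
  set S : Set (E n) := goodS f x₀ r c₀ with hSdef
  have hSkm : ∀ k, MeasurableSet {x : E n | x₀ + (r / p2 k) • x ∈ S} := by
    intro k
    have hm : Measurable (fun x : E n => x₀ + (r / p2 k) • x) := by fun_prop
    exact hm hSm
  -- D and Y
  obtain ⟨D, hD⟩ : ∃ D : ℕ → ℝ, ∀ k, D k = ∫ z in ball x₀ (r / p2 k) ∩ S, f z ^ n :=
    ⟨_, fun k => rfl⟩
  obtain ⟨Y, hY⟩ : ∃ Y : ℕ → ℝ, ∀ k, Y k = (xs f x₀ (r / p2 k)) ^ q := ⟨_, fun k => rfl⟩
  have hY0 : ∀ k, 0 ≤ Y k := fun k => by rw [hY]; exact Real.rpow_nonneg (hxs0 _ _) _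
  have hYΛ : ∀ k, Y k ≤ Λ := fun k => by
    rw [hY, hΛ]; exact Real.rpow_le_rpow (hxs0 _ _) (hxk k) hq0.le
  have hD0 : ∀ k, 0 ≤ D k := fun k => by
    rw [hD]
    exact setIntegral_nonneg (measurableSet_ball.inter hSm) (fun x _ => pow_nonneg (hfn0 x) _)
  have hpk : ∀ k, r / p2 (k + 1) = 1 / 2 * (r / p2 k) := by
    intro k
    have : p2 (k + 1) = 2 * p2 k := by unfold p2; rw [pow_succ]; ring
    rw [this]
    have := (hp2 k).ne'
    field_simp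
  have hDmono : ∀ k, D (k + 1) ≤ D k := by
    intro k
    rw [hD, hD]
    apply setIntegral_mono_set hb.intn.integrableOn
    · exact Filter.Eventually.of_forall (fun x => pow_nonneg (hfn0 x) _)
    · apply HasSubset.Subset.eventuallyLE
      apply inter_subset_inter_left
      apply ball_subset_ball
      rw [hpk]
      linarith [hrk k]
  -- common facts
  have hhalf : ∀ k, ∫ x in ball (0 : E n) (1 / 2) ∩ {x | x₀ + (r / p2 k) • x ∈ S},
      scF f x₀ (r / p2 k) x ^ n = D (k + 1) := by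
    intro k
    rw [sc_n hn2 hb x₀ (r / p2 k) (1 / 2) (hrk k) (by norm_num) (by norm_num) S hSm, hD, hpk]
  have hone : ∀ k, ∫ x in ball (0 : E n) 1 ∩ {x | x₀ + (r / p2 k) • x ∈ S},
      scF f x₀ (r / p2 k) x ^ n = D k := by
    intro k
    rw [sc_n hn2 hb x₀ (r / p2 k) 1 (hrk k) (by norm_num) (by norm_num) S hSm, hD, one_mul]
  have hfull : ∀ k, ∫ x, scF f x₀ (r / p2 k) x ^ n ≤ E₀ := by
    intro k
    rw [sc_n_full hn2 hb x₀ (r / p2 k) (hrk k)]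
    refine le_trans ?_ hE
    apply setIntegral_mono_set hb.intn.integrableOn
    · exact Filter.Eventually.of_forall (fun x => pow_nonneg (hfn0 x) _)
    · exact (hballk k).eventuallyLE
  have hfull0 : ∀ k, 0 ≤ ∫ x, scF f x₀ (r / p2 k) x ^ n := by
    intro k
    exact integral_nonneg (fun x => pow_nonneg ((hMork k).nonneg x) _)
  have hAsn : ∀ k, As (scF f x₀ (r / p2 k)) ^ n ≤ 64 * Λ := by
    intro k
    rw [(As_sc hn2 hb x₀ (r / p2 k) (hrk k)).1, ← hq,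
      Real.mul_rpow (by norm_num) (hxs0 _ _), hΛ]
    apply mul_le_mul h8q (Real.rpow_le_rpow (hxs0 _ _) (hx64 k) hq0.le)
      (Real.rpow_nonneg (hxs0 _ _) _) (by norm_num)
  have hAsn0 : ∀ k, 0 ≤ As (scF f x₀ (r / p2 k)) ^ n := by
    intro k
    rw [(As_sc hn2 hb x₀ (r / p2 k) (hrk k)).1]
    exact Real.rpow_nonneg (mul_nonneg (by norm_num) (hxs0 _ _)) _
  have hAs1 : ∀ k, As (scF f x₀ (r / p2 k)) ≤ 8 * t := by
    intro k
    rw [(As_sc hn2 hb x₀ (r / p2 k) (hrk k)).2, Real.mul_rpow (by norm_num) (hxs0 _ _), ht]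
    have hs1 : 1 / sn n ≤ 1 := by
      rw [div_le_one hs0]; unfold sn; linarith
    have h8 : (8:ℝ) ^ (1 / sn n) ≤ 8 := by
      have := Real.rpow_le_rpow_of_exponent_le (show (1:ℝ) ≤ 8 by norm_num) hs1
      rwa [Real.rpow_one] at this
    exact mul_le_mul h8 (Real.rpow_le_rpow (hxs0 _ _) (hx64 k) (by positivity))
      (Real.rpow_nonneg (hxs0 _ _) _) (by norm_num)
  have hone' : ∀ k, ∫ x, gn (scG G x₀ (r / p2 k) x) ^ n ≤ 1 := by
    intro k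
    have hg : ∀ x, gn (scG G x₀ (r / p2 k) x) = scF f x₀ (r / p2 k) x := fun x =>
      congrFun (hgk k) x
    simp only [hg]
    exact (hfull k).trans hE1
  -- h0
  have hD1 : D 1 ≤ C' * Λ := by
    have h := hRP (scU u x₀ (r / p2 0)) (scG G x₀ (r / p2 0)) ε (hSolk 0) hε0 hεε₁
      (by rw [hgk 0]; exact hMork 0) (hone' 0) {x | x₀ + (r / p2 0) • x ∈ S} (hSkm 0)
      (fun x hx => by
        rw [hgk 0]
        exact (hSk 0 (Nat.zero_le _) x hx.2).1 hx.1)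
    have hg : ∀ x, gn (scG G x₀ (r / p2 0) x) = scF f x₀ (r / p2 0) x := fun x =>
      congrFun (hgk 0) x
    rw [hgk 0] at h
    simp only [hg] at h
    rw [hhalf 0, hεn] at h
    have h1 := hAsn 0
    have h2 := hfull 0
    have h3 := hfull0 0
    have h4 : C₀ * As (scF f x₀ (r / p2 0)) ^ n ≤ C₀ * (64 * Λ) :=
      mul_le_mul_of_nonneg_left h1 (by linarith)
    have h5 : C₀ * (Cs ^ n * Λ) * ∫ x, scF f x₀ (r / p2 0) x ^ n ≤ C₀ * (Cs ^ n * Λ) * 1 :=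
      mul_le_mul_of_nonneg_left (h2.trans hE1) (by positivity)
    have h6 : 0 ≤ 256 * CA ^ 2 * Λ := by positivity
    calc D 1 ≤ _ := h
      _ ≤ C₀ * (64 * Λ) + C₀ * (Cs ^ n * Λ) * 1 := add_le_add h4 h5
      _ ≤ C' * Λ := by rw [hC']; linarith
  -- h1
  have hY1 : ∀ k, k ≤ L → Y k ≤ C' * D k + C' * E₀ * Λ := by
    intro k hk
    have h := hRA (scF f x₀ (r / p2 k)) ε (hMork k) {x | x₀ + (r / p2 k) • x ∈ S} (hSkm k)
      (fun x hx hx' => (hSk k hk x hx).2 hx')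
    rw [sc_s hn2 hb x₀ (r / p2 k) 1 (hrk k) (by norm_num) (by norm_num), Real.sqrt_one, one_mul,
      one_mul, hone k, sc_s_full hn2 hb x₀ (r / p2 k) (hrk k), ← h1q] at h
    have hE' : (∫ x, scF f x₀ (r / p2 k) x ^ n) ^ (1 / q) ≤ E₀ ^ (1 / q) :=
      Real.rpow_le_rpow (hfull0 k) (hfull k) (by positivity)
    have h8 : 8 * xs f x₀ (64 * (r / p2 k)) ≤ 8 * lam := by linarith [hx64 k]
    have hCA0 : 0 < CA := by linarith
    have h9 : xs f x₀ (r / p2 k) ≤ CA * (D k) ^ (1 / q) + CA * E₀ ^ (1 / q) * (8 * lam) := by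
      refine h.trans ?_
      refine add_le_add le_rfl ?_
      apply mul_le_mul (mul_le_mul_of_nonneg_left hE' hCA0.le) h8
      · exact mul_nonneg (by norm_num) (hxs0 _ _)
      · positivity
    have ha : 0 ≤ CA * (D k) ^ (1 / q) := mul_nonneg hCA0.le (Real.rpow_nonneg (hD0 k) _)
    have hb' : 0 ≤ CA * E₀ ^ (1 / q) * (8 * lam) := by positivity
    have h10 : Y k ≤ 4 * ((CA * (D k) ^ (1 / q)) ^ q + (CA * E₀ ^ (1 / q) * (8 * lam)) ^ q) := by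
      rw [hY]
      exact (Real.rpow_le_rpow (hxs0 _ _) h9 hq0.le).trans (win_add_rpow ha hb' hq1 hq2)
    have h11 : (CA * (D k) ^ (1 / q)) ^ q = CA ^ q * D k := by
      rw [Real.mul_rpow hCA0.le (Real.rpow_nonneg (hD0 k) _), ← Real.rpow_mul (hD0 k),
        one_div_mul_cancel hq0.ne', Real.rpow_one]
    have h12 : (CA * E₀ ^ (1 / q) * (8 * lam)) ^ q = CA ^ q * E₀ * (8 ^ q * Λ) := by
      rw [Real.mul_rpow (by positivity) (by positivity), Real.mul_rpow hCA0.le (by positivity),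
        ← Real.rpow_mul hE0.le, one_div_mul_cancel hq0.ne', Real.rpow_one,
        Real.mul_rpow (by norm_num) hlam.le, hΛ]
    have h13 : CA ^ q ≤ CA ^ 2 := win_pow_le hCA hq2
    have hCAq : 0 < CA ^ q := Real.rpow_pos_of_pos hCA0 _
    rw [h11, h12] at h10
    have h14 : CA ^ q * D k ≤ CA ^ 2 * D k := mul_le_mul_of_nonneg_right h13 (hD0 k)
    have h15 : CA ^ q * E₀ * (8 ^ q * Λ) ≤ CA ^ 2 * E₀ * (64 * Λ) := by
      apply mul_le_mul (mul_le_mul_of_nonneg_right h13 hE0.le)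
        (mul_le_mul_of_nonneg_right h8q hΛ0.le)
      · positivity
      · positivity
    have h16 : 0 ≤ CA ^ 2 * E₀ * Λ := by positivity
    have h17 : 256 * CA ^ 2 ≤ C' := by
      rw [hC']; linarith
    have h18 : 256 * CA ^ 2 * D k ≤ C' * D k := mul_le_mul_of_nonneg_right h17 (hD0 k)
    have h19 : 256 * CA ^ 2 * (E₀ * Λ) ≤ C' * (E₀ * Λ) :=
      mul_le_mul_of_nonneg_right h17 (by positivity)
    have h20 : 0 ≤ CA ^ 2 * D k := mul_nonneg (by positivity) (hD0 k)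
    linarith
  -- h2
  have hH : ∀ k, 6 ≤ k → k < L → D (k + 1) ≤ (Cη + Cη * Cs ^ n) * (D k - D (k + 1)) +
      1 / (4 * C') * Y (k - 6) + (Cη + Cη * Cs ^ n) * E₀ * Λ := by
    intro k hk6 hkL
    have h := hRHη (scU u x₀ (r / p2 k)) (scG G x₀ (r / p2 k)) ε (hSolk k) hε0 hεε₁
      (by rw [hgk k]; exact hMork k) (hone' k) {x | x₀ + (r / p2 k) • x ∈ S} (hSkm k)
      (fun x hx => by
        rw [hgk k]
        exact (hSk k hkL.le x hx.2).1 hx.1)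
      (fun x hx hx' => by
        rw [hgk k] at hx'
        exact (hSk k hkL.le x hx).2 hx')
    have hg : ∀ x, gn (scG G x₀ (r / p2 k) x) = scF f x₀ (r / p2 k) x := fun x =>
      congrFun (hgk k) x
    rw [hgk k] at h
    simp only [hg] at h
    -- the ring
    have hring : ∫ x in (ball (0 : E n) 1 \ ball (0 : E n) (1 / 2)) ∩
        {x | x₀ + (r / p2 k) • x ∈ S}, scF f x₀ (r / p2 k) x ^ n = D k - D (k + 1) := by
      have hset : (ball (0 : E n) 1 \ ball (0 : E n) (1 / 2)) ∩ {x | x₀ + (r / p2 k) • x ∈ S} =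
          (ball (0 : E n) 1 ∩ {x | x₀ + (r / p2 k) • x ∈ S}) \
            (ball (0 : E n) (1 / 2) ∩ {x | x₀ + (r / p2 k) • x ∈ S}) := by
        ext x
        simp only [mem_inter_iff, mem_diff, not_and]
        tauto
      rw [hset, integral_diff (measurableSet_ball.inter (hSkm k)) (hMork k).intn.integrableOn
        (inter_subset_inter_left _ (ball_subset_ball (by norm_num))), hone k, hhalf k]
    have h64 : 64 * (r / p2 k) = r / p2 (k - 6) := by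
      obtain ⟨j, rfl⟩ := Nat.exists_eq_add_of_le hk6
      have : p2 (6 + j) = 64 * p2 j := by unfold p2; rw [pow_add]; norm_num
      rw [this, Nat.add_sub_cancel_left]
      have := (hp2 j).ne'
      field_simp
    have hAk : As (scF f x₀ (r / p2 k)) ^ n ≤ 64 * Y (k - 6) := by
      rw [(As_sc hn2 hb x₀ (r / p2 k) (hrk k)).1, ← hq,
        Real.mul_rpow (by norm_num) (hxs0 _ _), h64, hY]
      exact mul_le_mul_of_nonneg_right h8q (Real.rpow_nonneg (hxs0 _ _) _)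
    rw [hring, hhalf k, hεn] at h
    have hA1 := hAs1 k
    have hcoef : (1 / (512 * C') + Cη * (ε + As (scF f x₀ (r / p2 k)))) * 64 ≤ 1 / (4 * C') := by
      have h1 : Cη * (ε + As (scF f x₀ (r / p2 k))) ≤ Cη * (Cs * τ + 8 * τ) := by
        apply mul_le_mul_of_nonneg_left _ hCη0.le
        linarith
      have h2 : 1 / (512 * C') * 64 = 1 / (8 * C') := by field_simp; norm_num
      have h3 : 1 / (8 * C') + 1 / (8 * C') = 1 / (4 * C') := by field_simp; norm_num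
      linarith
    have hAs0 : 0 ≤ As (scF f x₀ (r / p2 k)) := by
      rw [(As_sc hn2 hb x₀ (r / p2 k) (hrk k)).2]
      exact Real.rpow_nonneg (mul_nonneg (by norm_num) (hxs0 _ _)) _
    have hcoef0 : 0 ≤ 1 / (512 * C') + Cη * (ε + As (scF f x₀ (r / p2 k))) := by positivity
    have hmid : (1 / (512 * C') + Cη * (ε + As (scF f x₀ (r / p2 k)))) *
        As (scF f x₀ (r / p2 k)) ^ n ≤ 1 / (4 * C') * Y (k - 6) := by
      calc _ ≤ (1 / (512 * C') + Cη * (ε + As (scF f x₀ (r / p2 k)))) * (64 * Y (k - 6)) :=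
            mul_le_mul_of_nonneg_left hAk hcoef0
        _ = ((1 / (512 * C') + Cη * (ε + As (scF f x₀ (r / p2 k)))) * 64) * Y (k - 6) := by ring
        _ ≤ _ := mul_le_mul_of_nonneg_right hcoef (hY0 _)
    have hlast : Cη * (Cs ^ n * Λ) * ∫ x, scF f x₀ (r / p2 k) x ^ n ≤
        Cη * (Cs ^ n * Λ) * E₀ := mul_le_mul_of_nonneg_left (hfull k) (by positivity)
    have hDD : 0 ≤ D k - D (k + 1) := by linarith [hDmono k]
    have hx1 : 0 ≤ Cη * Cs ^ n * (D k - D (k + 1)) := mul_nonneg (by positivity) hDD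
    have hx2 : 0 ≤ Cη * E₀ * Λ := by positivity
    calc D (k + 1) ≤ _ := h
      _ ≤ Cη * (D k - D (k + 1)) + 1 / (4 * C') * Y (k - 6) + Cη * (Cs ^ n * Λ) * E₀ := by
          linarith
      _ ≤ _ := by linarith
  have hfin := hrec Λ E₀ Y D L hΛ0.le hE0.le hY0 hYΛ hD0 hDmono hD1 hY1 hH L le_rfl
  have hfin2 : Y L ≤ Λ / 4 := by
    have h1 : C₂ * (θ ^ L + E₀) ≤ 1 / 4 := by linarith [mul_add C₂ (θ ^ L) E₀]
    calc Y L ≤ C₂ * (θ ^ L + E₀) * Λ := hfin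
      _ ≤ 1 / 4 * Λ := mul_le_mul_of_nonneg_right h1 hΛ0.le
      _ = Λ / 4 := by ring
  by_contra hcon
  rw [not_le] at hcon
  have h2q : (2:ℝ) ^ q ≤ 4 := by
    have := win_pow_le (show (1:ℝ) ≤ 2 by norm_num) hq2
    linarith
  have h1 : (lam / 2) ^ q < Y L := by
    rw [hY]; exact Real.rpow_lt_rpow (by positivity) hcon hq0
  have h2 : (lam / 2) ^ q = Λ / 2 ^ q := by
    rw [Real.div_rpow hlam.le (by norm_num), hΛ]
  have h3 : Λ / 4 ≤ Λ / 2 ^ q :=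
    div_le_div_of_nonneg_left hΛ0.le (Real.rpow_pos_of_pos (by norm_num) _) h2q
  linarith

end H60NT
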