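import Pool.Agent.H60.NT.Def

/-!
# Uniform statements

`Uni P Φ`: there are a constant `C` and a threshold `t₁` for `t₀`, both independent of `Q`, `C₅`, `t₀`, and
for all `Q`, `C₅`, `t₀ ≤ t₁` a threshold `e₁`, such that `Φ C D R` holds for every solution `D` and every
context `R` with these `Q`, `C₅`, `t₀` and `D.ε ≤ e₁`, `R.e ≤ e₁`.
-/

set_option autoImplicit false

namespace H60NT

open H60NH MeasureTheory Metric Set Filter Topology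
open scoped ENNReal NNReal ContDiff

/-- The context `R` has the parameters `Q`, `C₅`, `t₀` and is small. -/
structure Ok {n m : ℕ} {P : Par n m} {D : Dyn P} (R : RC D) (Q : ℕ) (C₅ t₀ e₁ : ℝ) : Prop where
  ε_le : D.ε ≤ e₁
  e_le : R.e ≤ e₁
  hQ : R.Q = Q
  hC : R.C₅ = C₅
  ht : R.t₀ = t₀

/-- Uniform statements. -/
def Uni {n m : ℕ} (P : Par n m) (Φ : ℝ → (D : Dyn P) → RC D → Prop) : Prop :=
  ∃ C t₁ : ℝ, 1 ≤ C ∧ 0 < t₁ ∧ ∀ (Q : ℕ) (C₅ t₀ : ℝ), 1 ≤ C₅ → 0 < t₀ → t₀ ≤ t₁ →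
    ∃ e₁ : ℝ, 0 < e₁ ∧ e₁ ≤ 1 ∧ ∀ (D : Dyn P) (R : RC D), Ok R Q C₅ t₀ e₁ → Φ C D R

theorem Ok.mono {n m : ℕ} {P : Par n m} {D : Dyn P} {R : RC D} {Q : ℕ} {C₅ t₀ e₁ e₂ : ℝ}
    (h : Ok R Q C₅ t₀ e₁) (h12 : e₁ ≤ e₂) : Ok R Q C₅ t₀ e₂ :=
  ⟨h.ε_le.trans h12, h.e_le.trans h12, h.hQ, h.hC, h.ht⟩

/-- Combination of two uniform statements that are monotone in the constant. -/
theorem Uni.and {n m : ℕ} {P : Par n m} {Φ Ψ : ℝ → (D : Dyn P) → RC D → Prop}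
    (h1 : Uni P Φ) (h2 : Uni P Ψ)
    (m1 : ∀ C C' D R, C ≤ C' → Φ C D R → Φ C' D R)
    (m2 : ∀ C C' D R, C ≤ C' → Ψ C D R → Ψ C' D R) :
    Uni P (fun C D R => Φ C D R ∧ Ψ C D R) := by
  obtain ⟨C, t, hC, ht, H⟩ := h1
  obtain ⟨C', t', hC', ht', H'⟩ := h2
  refine ⟨max C C', min t t', le_max_of_le_left hC, lt_min ht ht', ?_⟩
  intro Q C₅ t₀ h5 h0 h
  obtain ⟨e, he, he1, K⟩ := H Q C₅ t₀ h5 h0 (h.trans (min_le_left _ _))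
  obtain ⟨e', he', _, K'⟩ := H' Q C₅ t₀ h5 h0 (h.trans (min_le_right _ _))
  refine ⟨min e e', lt_min he he', (min_le_left _ _).trans he1, ?_⟩
  intro D R hR
  exact ⟨m1 _ _ D R (le_max_left _ _) (K D R (hR.mono (min_le_left _ _))),
    m2 _ _ D R (le_max_right _ _) (K' D R (hR.mono (min_le_right _ _)))⟩

/-- A uniform statement with one of its consequences. -/
theorem Uni.imp {n m : ℕ} {P : Par n m} {Φ Ψ : ℝ → (D : Dyn P) → RC D → Prop}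
    (h1 : Uni P Φ) (h : ∀ C D R, 1 ≤ C → Φ C D R → Ψ C D R) : Uni P Ψ := by
  obtain ⟨C, t, hC, ht, H⟩ := h1
  refine ⟨C, t, hC, ht, ?_⟩
  intro Q C₅ t₀ h5 h0 h'
  obtain ⟨e, he, he1, K⟩ := H Q C₅ t₀ h5 h0 h'
  exact ⟨e, he, he1, fun D R hR => h C D R hC (K D R hR)⟩

end H60NT
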