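import Pool.Agent.H60.NT.Def2

/-!
# Definitions for the window inequality
-/

set_option autoImplicit false

namespace H60NT

open H60NH MeasureTheory Metric Set Filter Topology
open scoped ENNReal NNReal ContDiff

namespace Pf

variable {n m : ℕ} {P : Par n m} {D : Dyn P} {R : RC D} {Cp : ℝ} {α β : ℕ}

/-- The window cutoff `χ = χ_α - χ_β`. -/
noncomputable def cw (_pf : Pf R Cp α β) (x : E n) : ℝ := P.chi R.x₀ α x - P.chi R.x₀ β x

/-- `w ∑ ⟨G_i, D_yF(lam, u) G_i⟩`. -/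
noncomputable def gL (pf : Pf R Cp α β) (x : E n) : ℝ :=
  D.f x ^ (n - 2) * ∑ i, inner ℝ (D.G x i) (fderiv ℝ (P.F (pf.lam x)) (D.u x) (D.G x i))

/-- `w ∑ ⟨G_i, F(lam, u)⟩ ∂_i χ`. -/
noncomputable def FL (pf : Pf R Cp α β) (x : E n) : ℝ :=
  D.f x ^ (n - 2) * ∑ i, inner ℝ (D.G x i) (P.F (pf.lam x) (D.u x)) * fderiv ℝ pf.cw x (ev i)

/-- `χ w ∑ ⟨G_i, D_qF(lam, u) ∂_i lam⟩`. -/
noncomputable def QL (pf : Pf R Cp α β) (x : E n) : ℝ :=
  pf.cw x * (D.f x ^ (n - 2) *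
    ∑ i, inner ℝ (D.G x i) (fderiv ℝ (fun p => P.F p (D.u x)) (pf.lam x) (pf.Lam x i)))

/-- The boundary term of the window. -/
noncomputable def Bdy (pf : Pf R Cp α β) : ℝ :=
  ∫ x in R.S ∩ (rg R.x₀ α ∪ rg R.x₀ β), ‖x - R.x₀‖⁻¹ *
    ((pf.fl x ^ (n - 2) * gn (pf.g x) + gn (pf.g x) ^ (n - 1)) * ‖pf.v x‖ +
      D.f x ^ (n - 1) * ‖pf.v x‖ ^ 3)

/-- The curvature term of the window. -/
noncomputable def Cur (pf : Pf R Cp α β) : ℝ :=
  ∫ x in R.S, pf.cw x * ((gn (pf.g x) ^ n + pf.fl x ^ n) * ‖pf.v x‖ ^ 2)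

/-- The hypothesis on the children of the window: `ηb` is the value of the weight of the node at the
centre, `V j z` the bounds. -/
def HV (pf : Pf R Cp α β) (ηb : ℝ) (V : ℕ → (Fin n → ℤ) → ℝ) : Prop :=
  ∀ j ∈ Finset.Ico α β, ∀ z ∈ box n (j + R.T + n),
    ηb * ((∫ x in R.S, P.Th R.x₀ j x * P.psi (j + R.T + n) z x *
        D.gq (pf.lam (zc (j + R.T + n) z)) x) -
      D.Phi (fun x => P.Th R.x₀ j x * P.psi (j + R.T + n) z x)
        (pf.lam (zc (j + R.T + n) z))) ≤ V j z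

/-- The sum of the bounds. -/
noncomputable def SV (_pf : Pf R Cp α β) (V : ℕ → (Fin n → ℤ) → ℝ) : ℝ :=
  ∑ j ∈ Finset.Ico α β, ∑ z ∈ box n (j + R.T + n), V j z

end Pf

end H60NT
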