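import Pool.Agent.H60.NT.Lat

/-!
# [H60 NT DISC] Lattice sums of functions with a Lipschitz derivative

`r = 2^n/p2 s`. Taylor: for `‖y - x‖ ≤ r`: `‖q y - q x - L (y - x)‖ ≤ B ‖y - x‖²` (`L = fderiv q x`, mean value
inequality). Only the `z` with `‖x - zc s z‖ < r` matter (`psi_facts`), at most `(2 · 2^n + 1)^n` of them. By `psi_sum`
`∑ psi q(z_c) - q x = ∑ psi (q z_c - q x - L (z_c - x))`, and the same with `fderiv psi x h`:
`∑ fderiv psi x h • q(z_c) - L h = ∑ fderiv psi x h • (q z_c - q x - L (z_c - x))`.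
-/

set_option autoImplicit false

namespace H60NT

open H60NH MeasureTheory Metric Set Filter Topology
open scoped ENNReal NNReal ContDiff

theorem disc {n m : ℕ} (P : Par n m) : ∃ C : ℝ, 1 ≤ C ∧ ∀ (s : ℕ) (x : E n) (q : E n → E m)
    (L : E n →L[ℝ] E m) (B : ℝ), x ∈ ball (0 : E n) 4 → 0 ≤ B →
    (∀ y, ‖y - x‖ ≤ 2 ^ n / p2 s → ‖q y - q x - L (y - x)‖ ≤ B * ‖y - x‖ ^ 2) →
      ‖∑ z ∈ box n s, P.psi s z x • q (zc s z) - q x‖ ≤ C * B / p2 s ^ 2 ∧
      ∀ h, ‖∑ z ∈ box n s, fderiv ℝ (P.psi s z) x h • q (zc s z) - L h‖ ≤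
        C * B / p2 s * ‖h‖ := by
  have hLβ := P.hβ.one_le
  have h4n : (1 : ℝ) ≤ 4 ^ n := one_le_pow₀ (by norm_num)
  set C₂ : ℝ := (2 * 2 ^ n + 1) ^ n * n * P.Lβ * 4 ^ n with hC₂
  have hC₂0 : 0 ≤ C₂ := by positivity
  refine ⟨4 ^ n + C₂, by linarith, ?_⟩
  intro s x q L B hx hB hq
  have hp := lat_p2_pos s
  obtain ⟨s1, s2, s3, s4⟩ := psi_sum P s x hx
  have hbd : ∀ z, ‖x - zc s z‖ < 2 ^ n / p2 s →
      ‖q (zc s z) - q x - L (zc s z - x)‖ ≤ B * (4 ^ n / p2 s ^ 2) := by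
    intro z hz
    rw [norm_sub_rev] at hz
    refine (hq _ hz.le).trans ?_
    apply mul_le_mul_of_nonneg_left _ hB
    have e : (4 : ℝ) ^ n / p2 s ^ 2 = (2 ^ n / p2 s) ^ 2 := by
      rw [div_pow, ← pow_mul, mul_comm n 2, pow_mul]
      norm_num
    rw [e]
    exact pow_le_pow_left₀ (norm_nonneg _) hz.le 2
  constructor
  · have e1 : ∑ z ∈ box n s, P.psi s z x • q (zc s z) - q x =
        ∑ z ∈ box n s, P.psi s z x • (q (zc s z) - q x - L (zc s z - x)) := by
      have e2 : ∑ z ∈ box n s, P.psi s z x • (q (zc s z) - q x - L (zc s z - x)) =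
          ∑ z ∈ box n s, P.psi s z x • q (zc s z) - (∑ z ∈ box n s, P.psi s z x) • q x -
            (L (∑ z ∈ box n s, P.psi s z x • zc s z) - (∑ z ∈ box n s, P.psi s z x) • L x) := by
        rw [map_sum, Finset.sum_smul, Finset.sum_smul, ← Finset.sum_sub_distrib,
          ← Finset.sum_sub_distrib, ← Finset.sum_sub_distrib]
        apply Finset.sum_congr rfl
        intro z _
        rw [map_smul, map_sub, smul_sub, smul_sub, smul_sub]
      rw [e2, s1, s2]
      simp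
    rw [e1]
    refine (norm_sum_le _ _).trans ?_
    have g1 : ∀ z ∈ box n s, ‖P.psi s z x • (q (zc s z) - q x - L (zc s z - x))‖ ≤
        P.psi s z x * (B * (4 ^ n / p2 s ^ 2)) := by
      intro z _
      obtain ⟨f1, f2, f3, f4, f5⟩ := psi_facts P s z
      rw [norm_smul, Real.norm_eq_abs, abs_of_nonneg (f2 x).1]
      by_cases hz : P.psi s z x = 0
      · rw [hz, zero_mul, zero_mul]
      · exact mul_le_mul_of_nonneg_left (hbd z (f3 x hz)) (f2 x).1
    refine (Finset.sum_le_sum g1).trans ?_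
    rw [← Finset.sum_mul, s1, one_mul]
    have e3 : (4 ^ n + C₂) * B / p2 s ^ 2 = B * (4 ^ n / p2 s ^ 2) + C₂ * B / p2 s ^ 2 := by
      field_simp
    rw [e3]
    have : 0 ≤ C₂ * B / p2 s ^ 2 := by positivity
    linarith
  · intro h
    have e1 : ∑ z ∈ box n s, fderiv ℝ (P.psi s z) x h • q (zc s z) - L h =
        ∑ z ∈ box n s, fderiv ℝ (P.psi s z) x h • (q (zc s z) - q x - L (zc s z - x)) := by
      have e2 : ∑ z ∈ box n s, fderiv ℝ (P.psi s z) x h • (q (zc s z) - q x - L (zc s z - x)) =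
          ∑ z ∈ box n s, fderiv ℝ (P.psi s z) x h • q (zc s z) -
            (∑ z ∈ box n s, fderiv ℝ (P.psi s z) x h) • q x -
            (L (∑ z ∈ box n s, fderiv ℝ (P.psi s z) x h • zc s z) -
              (∑ z ∈ box n s, fderiv ℝ (P.psi s z) x h) • L x) := by
        rw [map_sum, Finset.sum_smul, Finset.sum_smul, ← Finset.sum_sub_distrib,
          ← Finset.sum_sub_distrib, ← Finset.sum_sub_distrib]
        apply Finset.sum_congr rfl
        intro z _
        rw [map_smul, map_sub, smul_sub, smul_sub, smul_sub]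
      rw [e2, s3 h, s4 h]
      simp
    rw [e1]
    refine (norm_sum_le _ _).trans ?_
    classical
    have g0 : ∑ z ∈ box n s, ‖fderiv ℝ (P.psi s z) x h • (q (zc s z) - q x - L (zc s z - x))‖ =
        ∑ z ∈ (box n s).filter (fun z => ‖x - zc s z‖ < 2 ^ n / p2 s),
          ‖fderiv ℝ (P.psi s z) x h • (q (zc s z) - q x - L (zc s z - x))‖ := by
      symm
      apply Finset.sum_subset (Finset.filter_subset _ _)
      intro z hz hz'
      rw [Finset.mem_filter] at hz'
      have h5 : 2 ^ n / p2 s ≤ ‖x - zc s z‖ := by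
        by_contra hc
        push Not at hc
        exact hz' ⟨hz, hc⟩
      rw [(psi_facts P s z).2.2.2.1 x h5]
      simp
    rw [g0]
    have g1 : ∀ z ∈ (box n s).filter (fun z => ‖x - zc s z‖ < 2 ^ n / p2 s),
        ‖fderiv ℝ (P.psi s z) x h • (q (zc s z) - q x - L (zc s z - x))‖ ≤
        (n * P.Lβ * p2 s * ‖h‖) * (B * (4 ^ n / p2 s ^ 2)) := by
      intro z hz
      rw [Finset.mem_filter] at hz
      rw [norm_smul, Real.norm_eq_abs]
      exact mul_le_mul ((psi_facts P s z).2.2.2.2 x h) (hbd z hz.2) (norm_nonneg _)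
        (by positivity)
    refine (Finset.sum_le_sum g1).trans ?_
    rw [Finset.sum_const, nsmul_eq_mul]
    have g2 : (((box n s).filter (fun z => ‖x - zc s z‖ < 2 ^ n / p2 s)).card : ℝ) ≤
        (2 * 2 ^ n + 1) ^ n := by
      refine le_trans ?_ (psi_count P s x (2 ^ n) (by positivity))
      have : (box n s).filter (fun z => ‖x - zc s z‖ < 2 ^ n / p2 s) ⊆
          (box n s).filter (fun z => ‖x - zc s z‖ ≤ 2 ^ n / p2 s) := by
        intro z hz
        rw [Finset.mem_filter] at hz ⊢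
        exact ⟨hz.1, hz.2.le⟩
      have h6 := Finset.card_le_card this
      have h7 : (((box n s).filter (fun z => ‖x - zc s z‖ < 2 ^ n / p2 s)).card : ℝ) ≤
        ((box n s).filter (fun z => ‖x - zc s z‖ ≤ 2 ^ n / p2 s)).card := by exact_mod_cast h6
      refine h7.trans (le_of_eq ?_)
      congr!
    have g3 : 0 ≤ (n * P.Lβ * p2 s * ‖h‖) * (B * (4 ^ n / p2 s ^ 2)) := by positivity
    refine (mul_le_mul_of_nonneg_right g2 g3).trans ?_
    have e3 : (2 * 2 ^ n + 1) ^ n * ((n * P.Lβ * p2 s * ‖h‖) * (B * (4 ^ n / p2 s ^ 2))) =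
        C₂ * B / p2 s * ‖h‖ := by
      rw [hC₂]
      field_simp
    rw [e3]
    have e4 : (4 ^ n + C₂) * B / p2 s * ‖h‖ = 4 ^ n * B / p2 s * ‖h‖ + C₂ * B / p2 s * ‖h‖ := by
      ring
    rw [e4]
    have : 0 ≤ 4 ^ n * B / p2 s * ‖h‖ := by positivity
    linarith

end H60NT
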