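import Pool.Agent.H60.NT.DInt
import Pool.Agent.H60.NH.MDer

/-!
# [H60 NT ELT] The Euler-Lagrange system tested with `Y = η F_q(π ∘ ub_K)`

`infDist (ub_K x) N < δ` on `ball 0 16`, so `P_K = π ∘ ub_K` is `C^∞` there; `η` vanishes outside `ball 0 2`
(and its topological support is contained in the closed ball of radius 2), so `Y x = η x • F q (P_K x)`
(`0` where `η = 0`) is `C^∞` with compact support in `ball 0 64`; `D.hS.el` for `Y`, and the product and
chain rules: `fderiv Y x (ev i) = (fderiv η x (ev i)) • F q (P_K x) + η x • fderiv (F q) (P_K x) (pU π ub_K x (ev i))`.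
-/

set_option autoImplicit false

namespace H60NT

open H60NH MeasureTheory Metric Set Filter Topology
open scoped ENNReal NNReal ContDiff

private theorem elt_F {m : ℕ} {n : ℕ} (P : Par n m) (q : E m) : ContDiff ℝ ∞ (P.F q) :=
  P.hG.smooth.comp (contDiff_const.prodMk contDiff_id)

private theorem elt_ts {n : ℕ} {η : E n → ℝ} (hs : ∀ x, η x ≠ 0 → x ∈ ball (0 : E n) 2) :
    tsupport η ⊆ closedBall (0 : E n) 2 := by
  refine closure_minimal ?_ isClosed_closedBall
  intro x hx
  exact ball_subset_closedBall (hs x hx)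

theorem el_K {n m : ℕ} (P : Par n m) (D : Dyn P) (K : ℕ)
    (htube : ∀ x : E n, ‖x‖ ≤ 16 → infDist (D.ub K x) P.N < P.δ) (η : E n → ℝ)
    (hη : ContDiff ℝ ∞ η) (hs : ∀ x, η x ≠ 0 → x ∈ ball (0 : E n) 2) (q : E m) :
    ∫ x, D.f x ^ (n - 2) * (∑ i, (fderiv ℝ η x (ev i) *
        inner ℝ (D.G x i) (P.F q (P.π (D.ub K x))) +
        η x * inner ℝ (D.G x i) (fderiv ℝ (P.F q) (P.π (D.ub K x)) (pU P.π (D.ub K) x (ev i))) +
        η x * inner ℝ (D2 P.π (D.u x) (D.G x i) (D.G x i)) (P.F q (P.π (D.ub K x))))) = 0 := by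
  have hu : Integrable D.u := (sol_int (by have := P.hn; omega : 1 ≤ n) D.hS).1
  have hub : ContDiff ℝ ∞ (D.ub K) := ubar_smooth P.hφ D.u hu K
  have hopen : IsOpen {y : E m | infDist y P.N < 4 * P.δ} :=
    isOpen_lt (continuous_infDist_pt P.N) continuous_const
  have hδ : 0 < P.δ := P.hT.pos
  have hFq : ContDiff ℝ ∞ (P.F q) := elt_F P q
  -- smoothness of the projection of the mollified map
  have hPK : ∀ x : E n, ‖x‖ ≤ 16 → ContDiffAt ℝ ∞ (fun x => P.π (D.ub K x)) x := by
    intro x hx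
    have h1 : ContDiffAt ℝ ∞ P.π (D.ub K x) :=
      P.hT.smooth.contDiffAt (hopen.mem_nhds (by
        show infDist (D.ub K x) P.N < 4 * P.δ
        have := htube x hx
        linarith))
    exact h1.comp x hub.contDiffAt
  have hFP : ∀ x : E n, ‖x‖ ≤ 16 → ContDiffAt ℝ ∞ (fun x => P.F q (P.π (D.ub K x))) x := by
    intro x hx
    exact hFq.contDiffAt.comp x (hPK x hx)
  -- outside the ball of radius two everything vanishes
  have hout : ∀ x : E n, ¬ ‖x‖ ≤ 16 → ∀ᶠ y in 𝓝 x, η y = 0 := by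
    intro x hx
    have h1 : x ∉ tsupport η := by
      intro h
      have h2 := elt_ts hs h
      rw [mem_closedBall_zero_iff] at h2
      exact hx (h2.trans (by norm_num))
    exact notMem_tsupport_iff_eventuallyEq.1 h1
  obtain ⟨Y, hY⟩ : ∃ Y : E n → E m, Y = fun x => η x • P.F q (P.π (D.ub K x)) := ⟨_, rfl⟩
  have hYz : ∀ x : E n, ¬ ‖x‖ ≤ 16 → Y =ᶠ[𝓝 x] fun _ => 0 := by
    intro x hx
    filter_upwards [hout x hx] with y hy
    rw [hY]
    show η y • P.F q (P.π (D.ub K y)) = 0
    rw [hy, zero_smul]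
  have hYs : ContDiff ℝ 1 Y := by
    rw [contDiff_iff_contDiffAt]
    intro x
    by_cases hx : ‖x‖ ≤ 16
    · have h1 : ContDiffAt ℝ ∞ Y x := by
        rw [hY]
        exact (hη.contDiffAt).smul (hFP x hx)
      exact h1.of_le (by exact_mod_cast le_top)
    · exact contDiffAt_const.congr_of_eventuallyEq (hYz x hx)
  have hYsup : Function.support Y ⊆ closedBall (0 : E n) 2 := by
    intro x hx
    refine ball_subset_closedBall (hs x ?_)
    intro h0
    apply hx
    rw [hY]
    show η x • P.F q (P.π (D.ub K x)) = 0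
    rw [h0, zero_smul]
  have hYc : HasCompactSupport Y :=
    HasCompactSupport.of_support_subset_isCompact (isCompact_closedBall _ _) hYsup
  have hYt : tsupport Y ⊆ ball (0 : E n) 64 :=
    (closure_minimal hYsup isClosed_closedBall).trans (closedBall_subset_ball (by norm_num))
  have hel := D.hS.el Y hYs hYc hYt
  rw [← hel]
  congr 1
  funext x
  show gn (D.G x) ^ (n - 2) * _ = gn (D.G x) ^ (n - 2) * _
  congr 1
  refine Finset.sum_congr rfl fun i _ => ?_
  have hYx : Y x = η x • P.F q (P.π (D.ub K x)) := by rw [hY]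
  by_cases hx : ‖x‖ ≤ 16
  · have hd1 : HasFDerivAt η (fderiv ℝ η x) x :=
      (hη.differentiable (by simp)).differentiableAt.hasFDerivAt
    have hd2 : HasFDerivAt (fun x => P.π (D.ub K x)) (fderiv ℝ (fun x => P.π (D.ub K x)) x) x :=
      ((hPK x hx).differentiableAt (by simp)).hasFDerivAt
    have hd3 : HasFDerivAt (P.F q) (fderiv ℝ (P.F q) (P.π (D.ub K x))) (P.π (D.ub K x)) :=
      (hFq.differentiable (by simp)).differentiableAt.hasFDerivAt
    have hd4 := hd1.smul (hd3.comp x hd2)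
    have hd5 : fderiv ℝ Y x (ev i) = (fderiv ℝ η x (ev i)) • P.F q (P.π (D.ub K x)) +
        η x • fderiv ℝ (P.F q) (P.π (D.ub K x)) (pU P.π (D.ub K) x (ev i)) := by
      have h6 : fderiv ℝ Y x = η x • (fderiv ℝ (P.F q) (P.π (D.ub K x))).comp
          (fderiv ℝ (fun x => P.π (D.ub K x)) x) +
          (fderiv ℝ η x).smulRight (P.F q (P.π (D.ub K x))) := by
        rw [hY]
        exact hd4.fderiv
      rw [h6, add_comm]
      rfl
    rw [hd5, hYx, inner_add_right, inner_smul_right, inner_smul_right, inner_smul_right]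
  · have h0 : η x = 0 := (hout x hx).self_of_nhds
    have h1 : fderiv ℝ η x = 0 := by
      have h2 : η =ᶠ[𝓝 x] fun _ => (0 : ℝ) := hout x hx
      rw [h2.fderiv_eq, fderiv_fun_const]
      rfl
    have h3 : fderiv ℝ Y x = 0 := by
      rw [(hYz x hx).fderiv_eq, fderiv_fun_const]
      rfl
    rw [hYx, h0, h1, h3]
    simp

end H60NT
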