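import Pool.Agent.H60.NT.Yj

/-!
# [H60 NT GOODPT] Good points are close to `y_j`

`x ∈ rg x₀ j ∩ S` (`1 ≤ j`, `1/p2 j ≤ ‖x - x₀‖`): `NN f K (j-1+T) x ≤ t₀/(2 C₅) ≤ t₀` for all `K`; `near_ub` (fourth
part, `k := j - 1 + T`, `c := t₀`): `‖u x - ub_{j-1+T} x‖ ≤ C t₀` for a.e. `x`; `yj_facts` with `i = j - 1 + T ≥ j`:
`‖ub_i x - y_j‖ ≤ C e T ≤ C √e` (`R.T2`).
-/

set_option autoImplicit false

namespace H60NT

open H60NH MeasureTheory Metric Set Filter Topology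
open scoped ENNReal NNReal ContDiff

theorem good_pt {n m : ℕ} (P : Par n m) : Uni P (fun C D R =>
    ∀ j, R.k + 1 ≤ j → ∀ᵐ x, x ∈ rg R.x₀ j → x ∈ R.S →
      ‖D.u x - R.yj j‖ ≤ C * (R.t₀ + Real.sqrt R.e)) := by
  have hn := P.hn
  obtain ⟨ε₁, Cn, hε₁, hCn, hnear⟩ := near_ub P
  obtain ⟨Cy, t₁, hCy, ht₁, hyj⟩ := yj_facts P
  refine ⟨Cn + Cy, t₁, by linarith, ht₁, ?_⟩
  intro Q C₅ t₀ h5 h0 h01
  obtain ⟨e₁, he₁, he₁1, H⟩ := hyj Q C₅ t₀ h5 h0 h01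
  refine ⟨min e₁ ε₁, by positivity, (min_le_left _ _).trans he₁1, ?_⟩
  intro D R hR j hj
  have hR' : Ok R Q C₅ t₀ e₁ := hR.mono (min_le_left _ _)
  obtain ⟨-, -, -, hn4⟩ := hnear D (hR.ε_le.trans (min_le_right _ _))
  obtain ⟨-, -, -, -, hfr⟩ := H D R hR' j hj
  have hp : 0 < p2 j := by unfold p2; positivity
  have hp1 : 1 ≤ p2 j := by
    unfold p2
    exact one_le_pow₀ (by norm_num)
  filter_upwards [hn4] with x hx hxr hxS
  obtain ⟨h1, h2⟩ := hxr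
  have h3 : 2 / p2 j ≤ 2 := by
    rw [div_le_iff₀ hp]
    linarith
  have hx16 : ‖x‖ ≤ 16 := by
    have h5 : ‖x‖ ≤ ‖x - R.x₀‖ + ‖R.x₀‖ := by
      have := norm_add_le (x - R.x₀) R.x₀
      rwa [sub_add_cancel] at this
    have := R.hx
    linarith
  have ht0 : R.t₀ / (2 * R.C₅) ≤ R.t₀ := by
    have hC5 := R.C5
    have := R.t0
    rw [div_le_iff₀ (by linarith)]
    nlinarith
  have hT3 := R.T3
  have a1 : ‖D.u x - D.ub (j - 1 + R.T) x‖ ≤ Cn * R.t₀ :=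
    hx hx16 (j - 1 + R.T) R.t₀ (fun K => (hxS j K (by omega) h1).trans ht0)
  have hxf : x ∈ fr R.x₀ j := by
    constructor
    · refine le_trans ?_ h1
      rw [div_le_div_iff₀ (by positivity) hp]
      linarith
    · refine h2.trans ?_
      exact div_le_div_of_nonneg_right (by norm_num) hp.le
  have a2 := hfr x hxf (j - 1 + R.T) (by omega)
  have e1 : ((j - 1 + R.T : ℕ) : ℝ) - j + 1 = R.T := by
    have h7 : ((j - 1 + R.T : ℕ) : ℝ) = (j : ℝ) - 1 + R.T := by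
      rw [Nat.cast_add, Nat.cast_sub (by omega)]
      simp
    rw [h7]
    ring
  rw [e1] at a2
  have a3 : Cy * R.e * R.T ≤ Cy * Real.sqrt R.e := by
    rw [mul_assoc]
    exact mul_le_mul_of_nonneg_left R.T2 (by linarith)
  have e2 : D.u x - R.yj j = (D.u x - D.ub (j - 1 + R.T) x) + (D.ub (j - 1 + R.T) x - R.yj j) := by
    abel
  rw [e2]
  refine (norm_add_le _ _).trans ?_
  have hs0 : 0 ≤ Real.sqrt R.e := Real.sqrt_nonneg _
  have ht := R.t0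
  have b1 : 0 ≤ Cn * Real.sqrt R.e := mul_nonneg (by linarith) hs0
  have b2 : 0 ≤ Cy * R.t₀ := mul_nonneg (by linarith) ht.le
  have e3 : (Cn + Cy) * (R.t₀ + Real.sqrt R.e) =
      Cn * R.t₀ + Cy * Real.sqrt R.e + Cn * Real.sqrt R.e + Cy * R.t₀ := by ring
  rw [e3]
  linarith

end H60NT
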