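import Mathlib

/-!
Hölder inequalities on a finite measure space (auxiliary, helper35).
-/

set_option autoImplicit false

namespace H60NT

open MeasureTheory Metric Set Filter Topology
open scoped ENNReal NNReal

/-- `f^k` is in `L^(n/k)` if `f^n` is integrable. -/
theorem holA_mem {X : Type*} [MeasurableSpace X] (μ : Measure X) (f : X → ℝ)
    (hf : AEStronglyMeasurable f μ) (h0 : ∀ᵐ x ∂μ, 0 ≤ f x) (n k : ℕ) (hk : 1 ≤ k) (hkn : k ≤ n)
    (hi : Integrable (fun x => f x ^ n) μ) :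
    MemLp (fun x => f x ^ k) (ENNReal.ofReal ((n : ℝ) / k)) μ ∧
      ∫ x, (f x ^ k) ^ ((n : ℝ) / k) ∂μ = ∫ x, f x ^ n ∂μ := by
  have hk0 : (0 : ℝ) < k := by exact_mod_cast hk
  have hn0 : (0 : ℝ) < n := by
    have : 0 < n := by omega
    exact_mod_cast this
  have hkey : ∀ x, 0 ≤ f x → (f x ^ k) ^ ((n : ℝ) / k) = f x ^ n := by
    intro x hx
    rw [← Real.rpow_natCast (f x) k, ← Real.rpow_mul hx, mul_div_cancel₀ _ hk0.ne',
      Real.rpow_natCast]
  have hp0 : ENNReal.ofReal ((n : ℝ) / k) ≠ 0 := by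
    rw [ne_eq, ENNReal.ofReal_eq_zero, not_le]
    positivity
  have hfk : AEStronglyMeasurable (fun x => f x ^ k) μ := hf.pow k
  constructor
  · rw [← integrable_norm_rpow_iff hfk hp0 ENNReal.ofReal_ne_top,
      ENNReal.toReal_ofReal (by positivity)]
    refine hi.congr ?_
    filter_upwards [h0] with x hx
    rw [Real.norm_of_nonneg (pow_nonneg hx k), hkey x hx]
  · refine integral_congr_ae ?_
    filter_upwards [h0] with x hx
    exact hkey x hx

/-- `∫ f^k ≤ (∫ f^n)^(k/n) μ(X)^(1-k/n)`. -/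
theorem holA_set {X : Type*} [MeasurableSpace X] (μ : Measure X) [IsFiniteMeasure μ] (f : X → ℝ)
    (hf : AEStronglyMeasurable f μ) (h0 : ∀ᵐ x ∂μ, 0 ≤ f x) (n k : ℕ) (hk : 1 ≤ k) (hkn : k < n)
    (hi : Integrable (fun x => f x ^ n) μ) :
    Integrable (fun x => f x ^ k) μ ∧
      ∫ x, f x ^ k ∂μ ≤ (∫ x, f x ^ n ∂μ) ^ ((k : ℝ) / n) *
        (μ.real univ) ^ (((n : ℝ) - k) / n) := by
  have hk0 : (0 : ℝ) < k := by exact_mod_cast hk
  have hkn' : (k : ℝ) < n := by exact_mod_cast hkn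
  have hn0 : (0 : ℝ) < n := hk0.trans hkn'
  obtain ⟨m1, m2⟩ := holA_mem μ f hf h0 n k hk hkn.le hi
  have hpq : ((n : ℝ) / k).HolderConjugate ((n : ℝ) / (n - k)) := by
    rw [Real.holderConjugate_iff]
    refine ⟨(one_lt_div hk0).mpr hkn', ?_⟩
    rw [inv_div, inv_div]
    field_simp
    ring
  have hq0 : 0 < (n : ℝ) - k := by linarith
  have h := integral_mul_le_Lp_mul_Lq_of_nonneg (μ := μ) hpq
    (f := fun x => f x ^ k) (g := fun _ => (1 : ℝ))
    (by filter_upwards [h0] with x hx; exact pow_nonneg hx k)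
    (Filter.Eventually.of_forall fun x => zero_le_one) m1 (memLp_const 1)
  simp only [mul_one, Real.one_rpow, integral_const, smul_eq_mul] at h
  rw [m2, one_div_div, one_div_div] at h
  refine ⟨?_, h⟩
  have h1 : (1 : ℝ≥0∞) ≤ ENNReal.ofReal ((n : ℝ) / k) := by
    rw [← ENNReal.ofReal_one]
    apply ENNReal.ofReal_le_ofReal
    rw [one_le_div hk0]
    exact hkn'.le
  exact m1.integrable h1

/-- `∫ f^(n-1) g ≤ (∫ f^n)^((n-1)/n) (∫ g^n)^(1/n)`. -/
theorem holA_prod {X : Type*} [MeasurableSpace X] (μ : Measure X) (f g : X → ℝ)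
    (hf : AEStronglyMeasurable f μ) (h0 : ∀ᵐ x ∂μ, 0 ≤ f x)
    (hg : AEStronglyMeasurable g μ) (g0 : ∀ᵐ x ∂μ, 0 ≤ g x) (n : ℕ) (hn : 2 ≤ n)
    (hi : Integrable (fun x => f x ^ n) μ) (hj : Integrable (fun x => g x ^ n) μ) :
    ∫ x, f x ^ (n - 1) * g x ∂μ ≤ (∫ x, f x ^ n ∂μ) ^ (((n : ℝ) - 1) / n) *
        (∫ x, g x ^ n ∂μ) ^ (1 / (n : ℝ)) := by
  obtain ⟨k, rfl⟩ : ∃ k, n = k + 1 := ⟨n - 1, by omega⟩
  have hk0 : (0 : ℝ) < k := by
    have : 0 < k := by omega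
    exact_mod_cast this
  obtain ⟨m1, m2⟩ := holA_mem μ f hf h0 (k + 1) k (by omega) (by omega) hi
  obtain ⟨m3, m4⟩ := holA_mem μ g hg g0 (k + 1) 1 (by omega) (by omega) hj
  simp only [pow_one, Nat.cast_one, div_one] at m3 m4
  have hpq : (((k + 1 : ℕ) : ℝ) / k).HolderConjugate ((k + 1 : ℕ) : ℝ) := by
    rw [Real.holderConjugate_iff]
    push_cast
    refine ⟨(one_lt_div hk0).mpr (by linarith), ?_⟩
    rw [inv_div]
    field_simp
  have h := integral_mul_le_Lp_mul_Lq_of_nonneg (μ := μ) hpq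
    (f := fun x => f x ^ k) (g := g)
    (by filter_upwards [h0] with x hx; exact pow_nonneg hx k) g0 m1 m3
  rw [m2, m4, one_div_div] at h
  have e : ((k + 1 : ℕ) : ℝ) - 1 = k := by push_cast; ring
  rw [e, Nat.add_sub_cancel]
  exact h

end H60NT
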