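import Pool.Agent.H60.NH.Def4

/-! # The statement of the main inequality (R0) as a definition -/

set_option autoImplicit false

namespace H60NT

open H60NH MeasureTheory Metric Set Filter Topology
open scoped ENNReal NNReal ContDiff

/-- the main inequality (R0) for the target `N`, `π` -/
def MIneq (n m : ℕ) (N : Set (E m)) (π : E m → E m) : Prop :=
    ∃ ε₁ c₀ C₁ : ℝ, 0 < ε₁ ∧ 0 < c₀ ∧ 1 ≤ C₁ ∧
      ∀ (u : E n → E m) (G : E n → Fin n → E m) (ε : ℝ),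
      Sol N π 64 u G → 0 < ε → ε ≤ ε₁ → Mor (fun x => gn (G x)) ε → ∫ x, gn (G x) ^ n ≤ 1 →
      ∀ S : Set (E n), MeasurableSet S →
      (∀ x ∈ S ∩ ball (0 : E n) 1, Ninf (fun x => gn (G x)) x ≤ ENNReal.ofReal c₀) →
      ∃ e : ℕ → ℝ, Tendsto e atTop (𝓝 0) ∧ ∀ K : ℕ, 1 ≤ K →
        ∫ x in ball (0 : E n) (1 / 2) ∩ S, gn (G x) ^ n ≤
          C₁ * (∫ x in ball (0 : E n) 1 \ ball (0 : E n) (1 / 2),
            gn (G x) ^ (n - 1) * min 1 (C₁ * NN (fun x => gn (G x)) K 0 x))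
          + C₁ * ε ^ n * (∫ x, gn (G x) ^ n) + e K

end H60NT
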