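import Pool.Agent.H60.NT.Def

/-!
# [H60 NT MONOV] Monotonicity of `A ↦ |A|^(n-2) A`

`⟨A, B⟩ = ∑ ⟨A_i, B_i⟩`, `gn A² = ⟨A, A⟩` (Cauchy-Schwarz `|⟨A,B⟩| ≤ gn A gn B`). With `p = gn a^(n-2)`, `q = gn b^(n-2)`:
`⟨p a - q b, a - b⟩ = (p + q)/2 gn(a-b)² + (p - q)/2 (gn a² - gn b²)`, the last term is `≥ 0`, and
`(gn a + gn b)^(n-2) ≤ 2^(n-2) (p + q)`. Second claim: `p a - q b = p (a - b) + (p - q) b`; `|p - q| ≤ (n-2) max^(n-3) |gn a - gn b|`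
for `n ≥ 3`, `|gn a - gn b| ≤ gn (a-b)`, so `gn(p a - q b) ≤ n (gn a + gn b)^(n-2) gn(a - b)`, and `gn a ≤ gn (a-b) + gn b`.
-/

set_option autoImplicit false

namespace H60NT

open H60NH MeasureTheory Metric Set Filter Topology
open scoped ENNReal NNReal ContDiff

/-- The tuple as an element of a Hilbert space. -/
noncomputable def monoV_T {n m : ℕ} (a : Fin n → E m) : PiLp 2 (fun _ : Fin n => E m) :=
  WithLp.toLp 2 a

lemma monoV_norm {n m : ℕ} (a : Fin n → E m) : ‖monoV_T a‖ = gn a := by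
  unfold monoV_T gn
  rw [PiLp.norm_eq_of_L2]

lemma monoV_inner {n m : ℕ} (a b : Fin n → E m) :
    inner ℝ (monoV_T a) (monoV_T b) = ∑ i, inner ℝ (a i) (b i) := by
  unfold monoV_T
  rw [PiLp.inner_apply]

lemma monoV_sub {n m : ℕ} (a b : Fin n → E m) :
    monoV_T (fun i => a i - b i) = monoV_T a - monoV_T b := rfl

lemma monoV_smul {n m : ℕ} (c : ℝ) (a : Fin n → E m) :
    monoV_T (fun i => c • a i) = c • monoV_T a := rfl

lemma monoV_main {F : Type*} [NormedAddCommGroup F] [InnerProductSpace ℝ F] (k : ℕ) (A B : F) :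
    (‖A‖ + ‖B‖) ^ k * ‖A - B‖ ^ 2 ≤
      2 ^ (k + 2) * inner ℝ (‖A‖ ^ k • A - ‖B‖ ^ k • B) (A - B) := by
  set p := ‖A‖ ^ k with hp
  set q := ‖B‖ ^ k with hq
  have hA := norm_nonneg A
  have hB := norm_nonneg B
  have e1 : inner ℝ (p • A - q • B) (A - B) =
      (p + q) / 2 * ‖A - B‖ ^ 2 + (p - q) / 2 * (‖A‖ ^ 2 - ‖B‖ ^ 2) := by
    have h1 : ‖A - B‖ ^ 2 = ‖A‖ ^ 2 - 2 * inner ℝ A B + ‖B‖ ^ 2 := norm_sub_sq_real A B
    rw [h1, inner_sub_left, inner_sub_right, inner_sub_right, inner_smul_left, inner_smul_left,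
      inner_smul_left, inner_smul_left, real_inner_self_eq_norm_sq, real_inner_self_eq_norm_sq,
      real_inner_comm A B]
    simp only [conj_trivial]
    ring
  have e2 : 0 ≤ (p - q) / 2 * (‖A‖ ^ 2 - ‖B‖ ^ 2) := by
    rcases le_total ‖A‖ ‖B‖ with h | h
    · have h1 : p ≤ q := pow_le_pow_left₀ hA h k
      have h2 : ‖A‖ ^ 2 ≤ ‖B‖ ^ 2 := pow_le_pow_left₀ hA h 2
      nlinarith
    · have h1 : q ≤ p := pow_le_pow_left₀ hB h k
      have h2 : ‖B‖ ^ 2 ≤ ‖A‖ ^ 2 := pow_le_pow_left₀ hB h 2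
      nlinarith
  have e3 : (‖A‖ + ‖B‖) ^ k ≤ 2 ^ (k + 1) * (p + q) := by
    have h1 := add_pow_le hA hB k
    have hpq : 0 ≤ p + q := by positivity
    have h2 : (2 : ℝ) ^ (k - 1) ≤ 2 ^ (k + 1) := pow_le_pow_right₀ (by norm_num) (by omega)
    exact h1.trans (mul_le_mul_of_nonneg_right h2 hpq)
  rw [e1]
  have h5 : (‖A‖ + ‖B‖) ^ k * ‖A - B‖ ^ 2 ≤ 2 ^ (k + 1) * (p + q) * ‖A - B‖ ^ 2 :=
    mul_le_mul_of_nonneg_right e3 (by positivity)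
  have h6 : (2 : ℝ) ^ (k + 2) * ((p + q) / 2 * ‖A - B‖ ^ 2 + (p - q) / 2 * (‖A‖ ^ 2 - ‖B‖ ^ 2)) =
      2 ^ (k + 1) * (p + q) * ‖A - B‖ ^ 2 +
        2 ^ (k + 2) * ((p - q) / 2 * (‖A‖ ^ 2 - ‖B‖ ^ 2)) := by ring
  rw [h6]
  have h7 : 0 ≤ (2 : ℝ) ^ (k + 2) * ((p - q) / 2 * (‖A‖ ^ 2 - ‖B‖ ^ 2)) :=
    mul_nonneg (by positivity) e2
  linarith

lemma monoV_diff {F : Type*} [NormedAddCommGroup F] [InnerProductSpace ℝ F] (k : ℕ) (hk : 1 ≤ k)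
    (A B : F) :
    ‖‖A‖ ^ k • A - ‖B‖ ^ k • B‖ ≤
      ((1 + k) * 2 ^ k) * (‖B‖ ^ k * ‖A - B‖ + ‖A - B‖ ^ (k + 1)) := by
  set d := ‖A - B‖ with hd
  have hA := norm_nonneg A
  have hB := norm_nonneg B
  have hd0 : 0 ≤ d := norm_nonneg _
  have hAB : ‖A‖ ≤ ‖B‖ + d := by
    have := norm_add_le B (A - B)
    rw [add_sub_cancel] at this
    exact this
  have e1 : ‖A‖ ^ k • A - ‖B‖ ^ k • B = ‖A‖ ^ k • (A - B) + (‖A‖ ^ k - ‖B‖ ^ k) • B := by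
    rw [smul_sub, sub_smul]
    abel
  have h1 : |‖A‖ ^ k - ‖B‖ ^ k| ≤ d * k * (‖B‖ + d) ^ (k - 1) := by
    refine (abs_pow_sub_pow_le ‖A‖ ‖B‖ k).trans ?_
    have g1 : |‖A‖ - ‖B‖| ≤ d := abs_norm_sub_norm_le A B
    have g2 : max |‖A‖| |‖B‖| ≤ ‖B‖ + d := by
      rw [abs_of_nonneg hA, abs_of_nonneg hB]
      exact max_le hAB (by linarith)
    have g3 : max |‖A‖| |‖B‖| ^ (k - 1) ≤ (‖B‖ + d) ^ (k - 1) :=
      pow_le_pow_left₀ (le_max_of_le_left (abs_nonneg _)) g2 _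
    exact mul_le_mul (mul_le_mul_of_nonneg_right g1 (by positivity)) g3 (by positivity)
      (by positivity)
  have h2 : ‖‖A‖ ^ k • A - ‖B‖ ^ k • B‖ ≤ (1 + k) * ((‖B‖ + d) ^ k * d) := by
    rw [e1]
    refine (norm_add_le _ _).trans ?_
    rw [norm_smul, norm_smul, Real.norm_eq_abs, Real.norm_eq_abs, abs_of_nonneg (by positivity)]
    have g1 : ‖A‖ ^ k * ‖A - B‖ ≤ (‖B‖ + d) ^ k * d :=
      mul_le_mul_of_nonneg_right (pow_le_pow_left₀ hA hAB k) hd0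
    have g2 : |‖A‖ ^ k - ‖B‖ ^ k| * ‖B‖ ≤ k * ((‖B‖ + d) ^ k * d) := by
      calc |‖A‖ ^ k - ‖B‖ ^ k| * ‖B‖ ≤ (d * k * (‖B‖ + d) ^ (k - 1)) * (‖B‖ + d) :=
            mul_le_mul h1 (by linarith) hB (by positivity)
        _ = k * (((‖B‖ + d) ^ (k - 1) * (‖B‖ + d)) * d) := by ring
        _ = k * ((‖B‖ + d) ^ k * d) := by
            rw [← pow_succ, Nat.sub_add_cancel hk]
    linarith
  refine h2.trans ?_
  have h3 : (‖B‖ + d) ^ k ≤ 2 ^ k * (‖B‖ ^ k + d ^ k) := by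
    have g1 := add_pow_le hB hd0 k
    have g2 : (2 : ℝ) ^ (k - 1) ≤ 2 ^ k := pow_le_pow_right₀ (by norm_num) (by omega)
    exact g1.trans (mul_le_mul_of_nonneg_right g2 (by positivity))
  calc (1 + k) * ((‖B‖ + d) ^ k * d) ≤ (1 + k) * ((2 ^ k * (‖B‖ ^ k + d ^ k)) * d) := by
        apply mul_le_mul_of_nonneg_left _ (by positivity)
        exact mul_le_mul_of_nonneg_right h3 hd0
    _ = ((1 + k) * 2 ^ k) * (‖B‖ ^ k * d + d ^ (k + 1)) := by ring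

theorem mono_vec {n m : ℕ} (hn : 3 ≤ n) (a b : Fin n → E m) :
    (gn a + gn b) ^ (n - 2) * gn (fun i => a i - b i) ^ 2 ≤
      2 ^ n * ∑ i, inner ℝ (gn a ^ (n - 2) • a i - gn b ^ (n - 2) • b i) (a i - b i) := by
  have h1 := monoV_main (n - 2) (monoV_T a) (monoV_T b)
  rw [← monoV_sub, monoV_norm, monoV_norm, monoV_norm, ← monoV_smul, ← monoV_smul, ← monoV_sub,
    monoV_inner] at h1
  have e : n - 2 + 2 = n := by omega
  rw [e] at h1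
  exact h1

theorem vec_diff {n m : ℕ} (hn : 3 ≤ n) : ∃ C : ℝ, 1 ≤ C ∧ ∀ (a b : Fin n → E m) (i : Fin n),
    ‖gn a ^ (n - 2) • a i - gn b ^ (n - 2) • b i‖ ≤
      C * (gn b ^ (n - 2) * gn (fun i => a i - b i) + gn (fun i => a i - b i) ^ (n - 1)) := by
  refine ⟨(1 + ((n - 2 : ℕ) : ℝ)) * 2 ^ (n - 2), ?_, ?_⟩
  · have h1 : (1 : ℝ) ≤ 2 ^ (n - 2) := one_le_pow₀ (by norm_num)
    have h2 : (0 : ℝ) ≤ ((n - 2 : ℕ) : ℝ) := by positivity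
    nlinarith
  · intro a b i
    have h1 := monoV_diff (n - 2) (by omega) (monoV_T a) (monoV_T b)
    rw [← monoV_sub, monoV_norm, monoV_norm, monoV_norm, ← monoV_smul, ← monoV_smul,
      ← monoV_sub] at h1
    have e : n - 2 + 1 = n - 1 := by omega
    rw [e] at h1
    refine le_trans ?_ h1
    exact PiLp.norm_apply_le
      (monoV_T (fun i => gn a ^ (n - 2) • a i - gn b ^ (n - 2) • b i)) i

end H60NT
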