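import Pool.Agent.H60.NT.BPow
import Pool.Agent.H60.NT.DInt
import Pool.Agent.H60.NT.HolA
import Pool.Agent.H60.NT.Pow

/-!
# [H60 NT OUTINT] Integrals over the bad set

Hölder with `|rg \ S| ≤ |fr \ S|`, `b_j = p2 j^n |fr \ S|`: `p2 j ∫_{rg \ S} f^(n-1) ≤ b_j^(1/n) D_j^(1-1/n)` (`rg ⊆ br`), which is
`≤ e^(Q+4) D_j^(1/n) D_j^(1-1/n)` and `≤ e^(Q+4) D_j^(1-1/n)` (`b_pow`, `b_exp`); then
`a p2 j ∫_{rg \ S} f^(n-1) ≤ e^(Q+4) a D_j^(1-1/n) ≤ e^(Q+4) (D_j + a^n)`. `p2 j^(n-1) ∫_{rg \ S} f ≤ b_j^(1-1/n) D_j^(1/n)`, times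
`a^(n-1)`. Volume: `p2 j^n |rg \ S| ≤ b_j ≤ e^(Q+4)` and `≤ e^(Q+4) D_j^(1/n)`, so `a^(n-1) b_j ≤ e^(Q+4) (D_j + a^n)`.
-/

set_option autoImplicit false

namespace H60NT

open H60NH MeasureTheory Metric Set Filter Topology
open scoped ENNReal NNReal ContDiff

theorem out_int {n m : ℕ} (P : Par n m) : Uni P (fun _ D R =>
    ∀ j, R.k + R.W ≤ j →
      p2 j * ∫ x in rg R.x₀ j \ R.S, D.f x ^ (n - 1) ≤ R.e ^ (R.Q + 4) * R.Dj j ∧
      ∀ a : ℝ, 0 ≤ a →
        a * (p2 j * ∫ x in rg R.x₀ j \ R.S, D.f x ^ (n - 1)) ≤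
          R.e ^ (R.Q + 4) * (R.Dj j + a ^ n) ∧
        a ^ (n - 1) * (p2 j ^ (n - 1) * ∫ x in rg R.x₀ j \ R.S, D.f x) ≤
          R.e ^ (R.Q + 4) * (R.Dj j + a ^ n) ∧
        a ^ (n - 1) * (p2 j ^ n * (volume (rg R.x₀ j \ R.S)).toReal) ≤
          R.e ^ (R.Q + 4) * (R.Dj j + a ^ n) ∧
        a ^ n * (p2 j ^ n * (volume (rg R.x₀ j \ R.S)).toReal) ≤
          R.e ^ (R.Q + 4) * (R.Dj j + a ^ n)) := by
  have hn := P.hn
  refine (b_pow P).imp ?_
  intro C D R _ hΦ j hj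
  obtain ⟨hSm, hb⟩ := hΦ
  obtain ⟨hb0, hb1, hb2, hb3⟩ := hb j hj
  obtain ⟨d1, d2, d3, d4, -⟩ := dyn_int D
  have hW1 := (rc_num R).2.2.2.2.2.1
  obtain ⟨f1, f2, f3, f4⟩ := fr_eq R.x₀ j (by omega)
  have hp := (p2_succ j).2.1
  set A := rg R.x₀ j \ R.S with hA
  have hAm : MeasurableSet A := (rg_meas R.x₀ j).1.diff hSm
  have hAfr : A ⊆ fr R.x₀ j \ R.S := diff_subset_diff_left f2
  have hfrv : volume (fr R.x₀ j \ R.S) ≠ ⊤ := by
    have h1 : volume (fr R.x₀ j \ R.S) ≤ volume (ball R.x₀ (8 / p2 j)) :=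
      measure_mono (diff_subset.trans f4)
    exact (h1.trans_lt measure_ball_lt_top).ne
  have hAv : volume A ≠ ⊤ := ((measure_mono hAfr).trans_lt (lt_top_iff_ne_top.mpr hfrv)).ne
  have hfin : IsFiniteMeasure (volume.restrict A) := isFiniteMeasure_restrict.mpr hAv
  have hu : (volume.restrict A).real univ = (volume A).toReal := by
    rw [measureReal_restrict_apply MeasurableSet.univ, univ_inter]
    rfl
  set v := (volume A).toReal with hv
  have hv0 : 0 ≤ v := ENNReal.toReal_nonneg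
  set b := R.b j with hbdef
  have hvb : p2 j ^ n * v ≤ b := by
    have h1 : v ≤ (volume (fr R.x₀ j \ R.S)).toReal := ENNReal.toReal_mono hfrv (measure_mono hAfr)
    exact mul_le_mul_of_nonneg_left h1 (by positivity)
  set Dd := R.Dj j with hDd
  have hAbr : A ⊆ br R.x₀ j := by
    intro x hx
    exact f3 (Or.inl (f2 hx.1))
  have hI0 : 0 ≤ ∫ x in A, D.f x ^ n :=
    setIntegral_nonneg_of_ae (ae_of_all _ (fun x => pow_nonneg (d2 x) n))
  have hI : ∫ x in A, D.f x ^ n ≤ Dd := by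
    apply setIntegral_mono_set d4.integrableOn (ae_of_all _ (fun x => pow_nonneg (d2 x) n))
    exact Eventually.of_forall hAbr
  have hD0 : 0 ≤ Dd := hI0.trans hI
  have hn0 : (0 : ℝ) < n := by
    have : (3 : ℝ) ≤ n := by exact_mod_cast hn
    linarith
  have hn3 : (3 : ℝ) ≤ n := by exact_mod_cast hn
  set ε := R.e ^ (R.Q + 4) with hε
  have hε0 : 0 ≤ ε := by
    have := R.e_pos
    positivity
  -- powers of b
  have hbn : b ^ (1 / (n : ℝ)) ≤ b ^ (1 / (2 * n : ℝ)) := by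
    apply b_exp hb0 hb1 n hn
    rw [div_le_div_iff₀ (by positivity) hn0]
    linarith
  have hbn' : b ^ (((n : ℝ) - 1) / n) ≤ b ^ (1 / (2 * n : ℝ)) := by
    apply b_exp hb0 hb1 n hn
    rw [div_le_div_iff₀ (by positivity) hn0]
    nlinarith
  have hb1' : b ≤ b ^ (1 / (2 * n : ℝ)) := by
    have := b_exp hb0 hb1 n hn 1 (by
      rw [div_le_one (by positivity)]
      linarith)
    rwa [Real.rpow_one] at this
  -- powers of Dd
  have hDn : (Dd ^ (1 / (n : ℝ))) ^ n = Dd := by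
    rw [← Real.rpow_natCast, ← Real.rpow_mul hD0, one_div, inv_mul_cancel₀ hn0.ne', Real.rpow_one]
  have hDn1 : (Dd ^ (1 / (n : ℝ))) ^ (n - 1) = Dd ^ (((n : ℝ) - 1) / n) := by
    rw [← Real.rpow_natCast, ← Real.rpow_mul hD0, Nat.cast_sub (by omega)]
    congr 1
    push_cast
    ring
  set δ := Dd ^ (1 / (n : ℝ)) with hδ
  have hδ0 : 0 ≤ δ := Real.rpow_nonneg hD0 _
  -- first Hölder inequality
  have hH1 : p2 j * ∫ x in A, D.f x ^ (n - 1) ≤ δ ^ (n - 1) * b ^ (1 / (n : ℝ)) := by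
    have h1 := (holA_set (volume.restrict A) D.f d1.aestronglyMeasurable
      (ae_of_all _ d2) n (n - 1) (by omega) (by omega) d4.restrict).2
    rw [hu] at h1
    have e1 : ((n - 1 : ℕ) : ℝ) = (n : ℝ) - 1 := by
      rw [Nat.cast_sub (by omega)]
      norm_num
    have e2 : ((n : ℝ) - ((n : ℝ) - 1)) / n = 1 / (n : ℝ) := by ring
    rw [e1, e2] at h1
    have h2 : (∫ x in A, D.f x ^ n) ^ (((n : ℝ) - 1) / n) ≤ δ ^ (n - 1) := by
      rw [hDn1]
      exact Real.rpow_le_rpow hI0 hI (div_nonneg (by linarith) hn0.le)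
    have h3 : p2 j * v ^ (1 / (n : ℝ)) ≤ b ^ (1 / (n : ℝ)) := by
      have h4 : p2 j * v ^ (1 / (n : ℝ)) = (p2 j ^ n * v) ^ (1 / (n : ℝ)) := by
        rw [Real.mul_rpow (by positivity) hv0, ← Real.rpow_natCast (p2 j) n,
          ← Real.rpow_mul hp.le, mul_one_div_cancel hn0.ne', Real.rpow_one]
      rw [h4]
      exact Real.rpow_le_rpow (by positivity) hvb (by positivity)
    calc p2 j * ∫ x in A, D.f x ^ (n - 1)
        ≤ p2 j * ((∫ x in A, D.f x ^ n) ^ (((n : ℝ) - 1) / n) * v ^ (1 / (n : ℝ))) :=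
          mul_le_mul_of_nonneg_left h1 hp.le
      _ = (∫ x in A, D.f x ^ n) ^ (((n : ℝ) - 1) / n) * (p2 j * v ^ (1 / (n : ℝ))) := by ring
      _ ≤ δ ^ (n - 1) * b ^ (1 / (n : ℝ)) :=
          mul_le_mul h2 h3 (mul_nonneg hp.le (Real.rpow_nonneg hv0 _)) (by positivity)
  -- second Hölder inequality
  have hH2 : p2 j ^ (n - 1) * ∫ x in A, D.f x ≤ δ * b ^ (((n : ℝ) - 1) / n) := by
    have h1 := (holA_set (volume.restrict A) D.f d1.aestronglyMeasurable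
      (ae_of_all _ d2) n 1 le_rfl (by omega) d4.restrict).2
    rw [hu] at h1
    simp only [pow_one, Nat.cast_one] at h1
    have h2 : (∫ x in A, D.f x ^ n) ^ (1 / (n : ℝ)) ≤ δ :=
      Real.rpow_le_rpow hI0 hI (by positivity)
    have hq0 : 0 ≤ ((n : ℝ) - 1) / n := div_nonneg (by linarith) hn0.le
    have h3 : p2 j ^ (n - 1) * v ^ (((n : ℝ) - 1) / n) ≤ b ^ (((n : ℝ) - 1) / n) := by
      have h4 : p2 j ^ (n - 1) * v ^ (((n : ℝ) - 1) / n) =
          (p2 j ^ n * v) ^ (((n : ℝ) - 1) / n) := by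
        rw [Real.mul_rpow (by positivity) hv0, ← Real.rpow_natCast (p2 j) n,
          ← Real.rpow_mul hp.le, mul_div_cancel₀ _ hn0.ne', ← Real.rpow_natCast,
          Nat.cast_sub (by omega)]
        norm_num
      rw [h4]
      exact Real.rpow_le_rpow (by positivity) hvb hq0
    calc p2 j ^ (n - 1) * ∫ x in A, D.f x
        ≤ p2 j ^ (n - 1) * ((∫ x in A, D.f x ^ n) ^ (1 / (n : ℝ)) * v ^ (((n : ℝ) - 1) / n)) :=
          mul_le_mul_of_nonneg_left h1 (by positivity)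
      _ = (∫ x in A, D.f x ^ n) ^ (1 / (n : ℝ)) * (p2 j ^ (n - 1) * v ^ (((n : ℝ) - 1) / n)) := by
          ring
      _ ≤ δ * b ^ (((n : ℝ) - 1) / n) :=
          mul_le_mul h2 h3 (mul_nonneg (by positivity) (Real.rpow_nonneg hv0 _)) hδ0
  have hA1 : p2 j * ∫ x in A, D.f x ^ (n - 1) ≤ ε * δ ^ (n - 1) := by
    refine hH1.trans ?_
    rw [mul_comm ε]
    exact mul_le_mul_of_nonneg_left (hbn.trans hb2) (by positivity)
  refine ⟨?_, ?_⟩
  · refine hH1.trans ?_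
    calc δ ^ (n - 1) * b ^ (1 / (n : ℝ)) ≤ δ ^ (n - 1) * (ε * δ) :=
          mul_le_mul_of_nonneg_left (hbn.trans hb3) (by positivity)
      _ = ε * (δ ^ (n - 1) * δ) := by ring
      _ = ε * Dd := by
          rw [← pow_succ, Nat.sub_add_cancel (by omega), hDn]
  · intro a ha
    obtain ⟨y1, -, y3, -⟩ := young1 n (by omega) a δ ha hδ0
    rw [hDn] at y1 y3
    refine ⟨?_, ?_, ?_, ?_⟩
    · calc a * (p2 j * ∫ x in A, D.f x ^ (n - 1)) ≤ a * (ε * δ ^ (n - 1)) :=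
            mul_le_mul_of_nonneg_left hA1 ha
        _ = ε * (a * δ ^ (n - 1)) := by ring
        _ ≤ ε * (a ^ n + Dd) := mul_le_mul_of_nonneg_left y3 hε0
        _ = ε * (Dd + a ^ n) := by ring
    · calc a ^ (n - 1) * (p2 j ^ (n - 1) * ∫ x in A, D.f x)
          ≤ a ^ (n - 1) * (δ * ε) := by
            apply mul_le_mul_of_nonneg_left _ (by positivity)
            exact hH2.trans (mul_le_mul_of_nonneg_left (hbn'.trans hb2) hδ0)
        _ = ε * (a ^ (n - 1) * δ) := by ring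
        _ ≤ ε * (a ^ n + Dd) := mul_le_mul_of_nonneg_left y1 hε0
        _ = ε * (Dd + a ^ n) := by ring
    · calc a ^ (n - 1) * (p2 j ^ n * v) ≤ a ^ (n - 1) * (ε * δ) := by
            apply mul_le_mul_of_nonneg_left _ (by positivity)
            exact hvb.trans (hb1'.trans hb3)
        _ = ε * (a ^ (n - 1) * δ) := by ring
        _ ≤ ε * (a ^ n + Dd) := mul_le_mul_of_nonneg_left y1 hε0
        _ = ε * (Dd + a ^ n) := by ring
    · calc a ^ n * (p2 j ^ n * v) ≤ a ^ n * ε := by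
            apply mul_le_mul_of_nonneg_left _ (by positivity)
            exact hvb.trans (hb1'.trans hb2)
        _ ≤ ε * (Dd + a ^ n) := by nlinarith

end H60NT
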