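import Pool.Agent.H60.NT.WLeE
import Pool.Agent.H60.NT.OutInt

/-!
# [H60 NT WLES] The profile identity restricted to the good set
-/

set_option autoImplicit false

namespace H60NT

open H60NH MeasureTheory Metric Set Filter Topology
open scoped ENNReal NNReal ContDiff

/-- integrals of functions that live on the rings of the window -/
theorem wls_cover {n : ℕ} (x₀ : E n) (α β : ℕ) (A : Set (E n)) (hA : MeasurableSet A)
    (h : E n → ℝ) (h0 : ∀ x, 0 ≤ h x) (hi : Integrable h)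
    (hs : ∀ x, h x ≠ 0 → ∃ j ∈ Finset.Icc α β, x ∈ rg x₀ j) :
    ∫ x in A, h x ≤ ∑ j ∈ Finset.Icc α β, ∫ x in rg x₀ j ∩ A, h x := by
  have hm : ∀ j, MeasurableSet (rg x₀ j ∩ A) := fun j => (rg_meas x₀ j).1.inter hA
  rw [← integral_indicator hA]
  have e1 : ∑ j ∈ Finset.Icc α β, ∫ x in rg x₀ j ∩ A, h x =
      ∫ x, ∑ j ∈ Finset.Icc α β, (rg x₀ j ∩ A).indicator h x := by
    rw [integral_finsetSum _ (fun j _ => hi.indicator (hm j))]
    exact Finset.sum_congr rfl fun j _ => (integral_indicator (hm j)).symm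
  rw [e1]
  refine integral_mono (hi.indicator hA)
    (integrable_finsetSum _ fun j _ => hi.indicator (hm j)) fun x => ?_
  have hnn : ∀ j ∈ Finset.Icc α β, 0 ≤ (rg x₀ j ∩ A).indicator h x := fun j _ =>
    indicator_nonneg (fun y _ => h0 y) x
  by_cases hx : x ∈ A
  · rw [indicator_of_mem hx]
    by_cases hz : h x = 0
    · rw [hz]
      exact Finset.sum_nonneg hnn
    · obtain ⟨j, hj, hxj⟩ := hs x hz
      refine le_trans (le_of_eq ?_) (Finset.single_le_sum hnn hj)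
      have hxA : x ∈ rg x₀ j ∩ A := ⟨hxj, hx⟩
      rw [indicator_of_mem hxA]
  · rw [indicator_of_notMem hx]
    exact Finset.sum_nonneg hnn

theorem wls_dom {n : ℕ} {A : Set (E n)} (hA : MeasurableSet A) (hv : volume A < ⊤)
    {h f : E n → ℝ} {c₁ c₂ : ℝ} (hf : Integrable f)
    (hb : ∀ᵐ x, x ∈ A → |h x| ≤ c₁ * f x + c₂) :
    ∫ x in A, |h x| ≤ c₁ * (∫ x in A, f x) + c₂ * (volume A).toReal := by
  have : IsFiniteMeasure (volume.restrict A) := ⟨by rwa [Measure.restrict_apply_univ]⟩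
  have h1 : ∫ x in A, |h x| ≤ ∫ x in A, (c₁ * f x + c₂) := by
    refine integral_mono_of_nonneg (Eventually.of_forall fun x => abs_nonneg _)
      ((hf.integrableOn.const_mul c₁).add (integrable_const c₂)) ?_
    exact (ae_restrict_iff' hA).2 hb
  refine h1.trans (le_of_eq ?_)
  rw [integral_add (hf.integrableOn.const_mul c₁) (integrable_const c₂), integral_const_mul,
    integral_const, smul_eq_mul, Measure.real, Measure.restrict_apply_univ]
  ring

theorem wls_vol {n : ℕ} (x₀ : E n) (j : ℕ) : volume (rg x₀ j) < ⊤ := by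
  refine lt_of_le_of_lt (measure_mono (t := closedBall x₀ (2 / p2 j)) ?_)
    measure_closedBall_lt_top
  intro x hx
  rw [mem_closedBall, dist_eq_norm]
  exact hx.2

/-- the derivative of the window cutoff -/
theorem wls_dcw {n m : ℕ} {P : Par n m} {D : Dyn P} {R : RC D} {Cp : ℝ} {α β : ℕ}
    (pf : Pf R Cp α β) (x : E n) :
    (fderiv ℝ pf.cw x ≠ 0 → x ∈ rg R.x₀ α ∨ x ∈ rg R.x₀ β) ∧
    ∀ j, x ∈ rg R.x₀ j → ∀ h, |fderiv ℝ pf.cw x h| ≤ 4 * P.Lκ * p2 j * ‖h‖ := by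
  obtain ⟨ca, -, -, -, -, ca6, ca7, -⟩ := chi_facts P R.x₀ α
  obtain ⟨cb, -, -, -, -, cb6, cb7, -⟩ := chi_facts P R.x₀ β
  have hfd : fderiv ℝ pf.cw x = fderiv ℝ (P.chi R.x₀ α) x - fderiv ℝ (P.chi R.x₀ β) x := by
    have : pf.cw = (P.chi R.x₀ α) - (P.chi R.x₀ β) := rfl
    rw [this]
    exact fderiv_sub ((ca.differentiable (by simp)) x) ((cb.differentiable (by simp)) x)
  constructor
  · intro hne
    by_contra hc
    push Not at hc
    apply hne
    rw [hfd, ca7 x hc.1, cb7 x hc.2, sub_zero]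
  · intro j hj h
    have hL : 0 ≤ P.Lκ := zero_le_one.trans P.hκ.one_le
    have hpj := wps_p2_pos j
    -- the rings containing `x` have comparable scales
    have hcomp : ∀ i, x ∈ rg R.x₀ i → p2 i ≤ 2 * p2 j := by
      intro i hi
      have h1 := hi.2
      have h2 := hj.1
      have hpi := wps_p2_pos i
      have h3 : 1 / p2 j ≤ 2 / p2 i := h2.trans h1
      rw [div_le_div_iff₀ hpj hpi] at h3
      linarith
    have hone : ∀ i, (∀ x h, |fderiv ℝ (P.chi R.x₀ i) x h| ≤ P.Lκ * p2 i * ‖h‖) →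
        (∀ x, x ∉ rg R.x₀ i → fderiv ℝ (P.chi R.x₀ i) x = 0) →
        |fderiv ℝ (P.chi R.x₀ i) x h| ≤ 2 * P.Lκ * p2 j * ‖h‖ := by
      intro i h6 h7
      by_cases hi : x ∈ rg R.x₀ i
      · refine (h6 x h).trans ?_
        have := hcomp i hi
        have h9 : P.Lκ * p2 i * ‖h‖ ≤ P.Lκ * (2 * p2 j) * ‖h‖ := by gcongr
        linarith
      · rw [h7 x hi, zero_apply, abs_zero]
        positivity
    have h1 := hone α ca6 ca7
    have h2 := hone β cb6 cb7
    rw [hfd, sub_apply]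
    have := abs_sub (fderiv ℝ (P.chi R.x₀ α) x h) (fderiv ℝ (P.chi R.x₀ β) x h)
    linarith

/-- bounds for the profile on the rings -/
theorem wls_fl {n m : ℕ} {P : Par n m} {D : Dyn P} {R : RC D} {Cp : ℝ} {α β : ℕ}
    (pf : Pf R Cp α β) (x : E n) (j : ℕ) (h1 : α ≤ j) (h2 : j ≤ β) (hx : x ∈ rg R.x₀ j) :
    pf.fl x = pf.a / ‖x - R.x₀‖ ∧ 0 ≤ pf.fl x ∧ pf.fl x ≤ pf.a * p2 j := by
  obtain ⟨a1, a2⟩ := wps_annulus h1 h2 hx
  have h3 := (pf_lam pf x a1 a2).1
  have hpj := wps_p2_pos j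
  have hr : 0 < ‖x - R.x₀‖ := lt_of_lt_of_le (by positivity) hx.1
  have ha := pf.a_nonneg
  refine ⟨h3, by rw [h3]; positivity, ?_⟩
  rw [h3, div_le_iff₀ hr]
  have h4 : 1 ≤ p2 j * ‖x - R.x₀‖ := by
    have := hx.1
    rw [div_le_iff₀ hpj] at this
    linarith
  have := mul_le_mul_of_nonneg_left h4 ha
  linarith

theorem wls_sum {n m : ℕ} (a b : Fin n → E m) (c : Fin n → ℝ) (M : ℝ)
    (hc : ∀ i, |c i| ≤ M) : |∑ i, inner ℝ (a i) (b i) * c i| ≤ n * (gn a * gn b * M) := by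
  refine (Finset.abs_sum_le_sum_abs _ _).trans ?_
  have h1 : ∀ i ∈ (Finset.univ : Finset (Fin n)), |inner ℝ (a i) (b i) * c i| ≤
      gn a * gn b * M := by
    intro i _
    rw [abs_mul]
    have h2 : |inner ℝ (a i) (b i)| ≤ gn a * gn b :=
      (abs_real_inner_le_norm _ _).trans (mul_le_mul (wps_gn a i) (wps_gn b i) (norm_nonneg _)
        (Real.sqrt_nonneg _))
    exact mul_le_mul h2 (hc i) (abs_nonneg _) ((abs_nonneg _).trans h2)
  refine (Finset.sum_le_sum h1).trans (le_of_eq ?_)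
  rw [Finset.sum_const, Finset.card_univ, Fintype.card_fin, nsmul_eq_mul]

theorem wls_sum' {n m : ℕ} (a : Fin n → E m) (b : E m) (c : Fin n → ℝ) (M : ℝ)
    (hc : ∀ i, |c i| ≤ M) : |∑ i, inner ℝ (a i) b * c i| ≤ n * (gn a * ‖b‖ * M) := by
  refine (Finset.abs_sum_le_sum_abs _ _).trans ?_
  have h1 : ∀ i ∈ (Finset.univ : Finset (Fin n)), |inner ℝ (a i) b * c i| ≤
      gn a * ‖b‖ * M := by
    intro i _
    rw [abs_mul]
    have h2 : |inner ℝ (a i) b| ≤ gn a * ‖b‖ :=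
      (abs_real_inner_le_norm _ _).trans (mul_le_mul_of_nonneg_right (wps_gn a i) (norm_nonneg _))
    exact mul_le_mul h2 (hc i) (abs_nonneg _) ((abs_nonneg _).trans h2)
  refine (Finset.sum_le_sum h1).trans (le_of_eq ?_)
  rw [Finset.sum_const, Finset.card_univ, Fintype.card_fin, nsmul_eq_mul]

theorem w_leS {n m : ℕ} (P : Par n m) (Cp : ℝ) (hCp : 1 ≤ Cp) : Uni P (fun C _ R =>
    ∀ (α β : ℕ) (pf : Pf R Cp α β), α + 2 ≤ β →
      |(∫ x in R.S, pf.cw x * (pf.fl x ^ (n - 2) * ∑ i, inner ℝ (pf.Lam x i) (pf.g x i))) +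
        ∫ x in R.S, pf.fl x ^ (n - 2) * ∑ i, inner ℝ (pf.Lam x i) (pf.v x) *
          fderiv ℝ pf.cw x (ev i)| ≤
        C * (pf.Cur + ∑ j ∈ Finset.Icc α β, pf.Er j)) := by
  have hn := P.hn
  have hn1 : (1 : ℝ) ≤ n := by exact_mod_cast (by omega : 1 ≤ n)
  have hCT : 1 ≤ P.CT := P.hT.one_le
  have hL : 1 ≤ P.Lκ := P.hκ.one_le
  obtain ⟨Ce, hCe, He⟩ := w_leE P Cp hCp
  obtain ⟨_, t1, _, ht1, Ho⟩ := out_int P
  obtain ⟨_, t2, _, ht2, Hb⟩ := b_pow P
  set K : ℝ := 2 * n + 8 * n * P.CT * P.Lκ + Ce * (4 * P.CT ^ 2) + Ce with hK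
  have hnCL : 0 ≤ 8 * n * P.CT * P.Lκ := by positivity
  have hCC : 0 ≤ Ce * (4 * P.CT ^ 2) := by positivity
  refine ⟨K, min t1 t2, by linarith, lt_min ht1 ht2, ?_⟩
  intro Q C₅ t₀ hC5 ht0 hle
  obtain ⟨e, he, he1, H1⟩ := Ho Q C₅ t₀ hC5 ht0 (hle.trans (min_le_left _ _))
  obtain ⟨e', he', _, H2⟩ := Hb Q C₅ t₀ hC5 ht0 (hle.trans (min_le_right _ _))
  refine ⟨min e e', lt_min he he', (min_le_left _ _).trans he1, ?_⟩
  intro D R hR α β pf hαβ
  have hout := H1 D R (hR.mono (min_le_left _ _))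
  have hSm : MeasurableSet R.S := (H2 D R (hR.mono (min_le_right _ _))).1
  obtain ⟨hI3, hmain⟩ := He D R α β pf hαβ hSm
  obtain ⟨-, -, -, -, -, hI6, -, hI8, -, hI10⟩ := w_int pf hαβ hSm
  obtain ⟨-, hvm, -, -, hflc, -, hfl0, -, hv2⟩ := pf_vg pf
  have hcw0 : ∀ x, 0 ≤ pf.cw x := fun x => ((chi_win P R.x₀ α β pf.lt).1 x).1
  have hcw1 : ∀ x, pf.cw x ≤ 1 := fun x => ((chi_win P R.x₀ α β pf.lt).1 x).2
  have ha := pf.a_nonneg
  have hee : R.e ^ (R.Q + 4) ≤ R.e ^ (R.Q + 3) :=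
    pow_le_pow_of_le_one R.e_pos.le R.e_le (by omega)
  have hDj0 : ∀ j, 0 ≤ R.Dj j := fun j =>
    integral_nonneg fun x => pow_nonneg (Real.sqrt_nonneg _) n
  have hEr : ∀ j, R.e ^ (R.Q + 4) * (R.Dj j + pf.a ^ n) ≤ pf.Er j := fun j =>
    mul_le_mul_of_nonneg_right hee (add_nonneg (hDj0 j) (pow_nonneg ha n))
  have hf0 : ∀ x, 0 ≤ D.f x := fun x => Real.sqrt_nonneg _
  have hfi : Integrable D.f := (dyn_int D).2.2.1
  have hkW : ∀ j, α ≤ j → R.k + R.W ≤ j := fun j hj => pf.ge.trans hj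
  have hrm : ∀ j, MeasurableSet (rg R.x₀ j ∩ R.Sᶜ) := fun j =>
    (rg_meas R.x₀ j).1.inter hSm.compl
  have hrv : ∀ j, volume (rg R.x₀ j ∩ R.Sᶜ) < ⊤ := fun j =>
    lt_of_le_of_lt (measure_mono inter_subset_left) (wls_vol R.x₀ j)
  have hset : ∀ j, rg R.x₀ j ∩ R.Sᶜ = rg R.x₀ j \ R.S := fun j => rfl
  have hcwsupp : ∀ x, pf.cw x ≠ 0 → ∃ j ∈ Finset.Icc α β, x ∈ rg R.x₀ j := by
    intro x hx
    obtain ⟨j, h1, h2, h3⟩ := (chi_win P R.x₀ α β pf.lt).2.2.2 x hx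
    exact ⟨j, Finset.mem_Icc.2 ⟨h1, h2⟩, h3⟩
  -- first integral over the bad set
  have hbad1 : |∫ x in R.Sᶜ, pf.cw x * (pf.fl x ^ (n - 2) *
      ∑ i, inner ℝ (pf.Lam x i) (pf.g x i))| ≤ 2 * n * ∑ j ∈ Finset.Icc α β, pf.Er j := by
    refine (abs_integral_le_integral_abs).trans ?_
    refine (wls_cover R.x₀ α β R.Sᶜ hSm.compl _ (fun x => abs_nonneg _) hI8.abs ?_).trans ?_
    · intro x hx
      apply hcwsupp x
      intro h0
      apply hx
      rw [h0, zero_mul, abs_zero]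
    · rw [Finset.mul_sum]
      refine Finset.sum_le_sum fun j hj => ?_
      rw [Finset.mem_Icc] at hj
      have hb : ∀ᵐ x, x ∈ rg R.x₀ j ∩ R.Sᶜ → |pf.cw x * (pf.fl x ^ (n - 2) *
          ∑ i, inner ℝ (pf.Lam x i) (pf.g x i))| ≤
          (n * (pf.a * p2 j) ^ (n - 1)) * D.f x + n * (pf.a * p2 j) ^ n := by
        refine Eventually.of_forall fun x hx => ?_
        obtain ⟨-, f0, f1⟩ := wls_fl pf x j hj.1 hj.2 hx.1
        have hx3 := wps_norm R.hx hx.1
        have hg := (pf_in pf x (by linarith)).2.2.1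
        have hs := wls_sum (pf.Lam x) (pf.g x) (fun _ => 1) 1 (fun _ => by simp)
        simp only [mul_one] at hs
        rw [abs_mul, abs_of_nonneg (hcw0 x), abs_mul, abs_of_nonneg (pow_nonneg f0 _)]
        have hpp : 0 ≤ pf.a * p2 j := f0.trans f1
        have e1 : pf.fl x ^ (n - 2) * (n * (pf.fl x * gn (pf.g x))) =
            n * (pf.fl x ^ (n - 1) * gn (pf.g x)) := by
          have : pf.fl x ^ (n - 1) = pf.fl x ^ (n - 2) * pf.fl x := by
            rw [← pow_succ]; congr 1; omega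
          rw [this]; ring
        have e2 : (pf.a * p2 j) ^ n = (pf.a * p2 j) ^ (n - 1) * (pf.a * p2 j) := by
          rw [← pow_succ]; congr 1; omega
        have hgn0 : 0 ≤ gn (pf.g x) := Real.sqrt_nonneg _
        calc pf.cw x * (pf.fl x ^ (n - 2) * |∑ i, inner ℝ (pf.Lam x i) (pf.g x i)|)
            ≤ 1 * (pf.fl x ^ (n - 2) * (n * (pf.fl x * gn (pf.g x)))) := by
              refine mul_le_mul (hcw1 x) (mul_le_mul_of_nonneg_left hs (pow_nonneg f0 _)) ?_ zero_le_one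
              exact mul_nonneg (pow_nonneg f0 _) (abs_nonneg _)
          _ = n * (pf.fl x ^ (n - 1) * gn (pf.g x)) := by rw [one_mul, e1]
          _ ≤ n * ((pf.a * p2 j) ^ (n - 1) * (D.f x + pf.a * p2 j)) := by
              refine mul_le_mul_of_nonneg_left ?_ (by positivity)
              exact mul_le_mul (pow_le_pow_left₀ f0 f1 _) (hg.trans (by linarith)) hgn0
                (pow_nonneg hpp _)
          _ = _ := by rw [e2]; ring
      refine (wls_dom (hrm j) (hrv j) hfi hb).trans ?_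
      obtain ⟨-, hoa⟩ := hout j (hkW j hj.1)
      obtain ⟨-, o2, -, o4⟩ := hoa pf.a ha
      rw [hset, mul_pow, mul_pow]
      have := hEr j
      have k1 := mul_le_mul_of_nonneg_left (o2.trans this) (by positivity : (0 : ℝ) ≤ n)
      have k2 := mul_le_mul_of_nonneg_left (o4.trans this) (by positivity : (0 : ℝ) ≤ n)
      linarith
  -- second integral over the bad set
  have hbad2 : |∫ x in R.Sᶜ, pf.fl x ^ (n - 2) * ∑ i, inner ℝ (pf.Lam x i) (pf.v x) *
      fderiv ℝ pf.cw x (ev i)| ≤ 8 * n * P.CT * P.Lκ * ∑ j ∈ Finset.Icc α β, pf.Er j := by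
    refine (abs_integral_le_integral_abs).trans ?_
    refine (wls_cover R.x₀ α β R.Sᶜ hSm.compl _ (fun x => abs_nonneg _) hI10.abs ?_).trans ?_
    · intro x hx
      have hne : fderiv ℝ pf.cw x ≠ 0 := by
        intro h0
        apply hx
        rw [h0]
        simp
      rcases (wls_dcw pf x).1 hne with h1 | h1
      · exact ⟨α, Finset.mem_Icc.2 ⟨le_refl _, by omega⟩, h1⟩
      · exact ⟨β, Finset.mem_Icc.2 ⟨by omega, le_refl _⟩, h1⟩
    · rw [Finset.mul_sum]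
      refine Finset.sum_le_sum fun j hj => ?_
      rw [Finset.mem_Icc] at hj
      have hb : ∀ᵐ x, x ∈ rg R.x₀ j ∩ R.Sᶜ → |pf.fl x ^ (n - 2) *
          ∑ i, inner ℝ (pf.Lam x i) (pf.v x) * fderiv ℝ pf.cw x (ev i)| ≤
          0 * D.f x + 8 * n * P.CT * P.Lκ * (pf.a ^ (n - 1) * p2 j ^ n) := by
        filter_upwards [hv2] with x hvx hx
        obtain ⟨-, f0, f1⟩ := wls_fl pf x j hj.1 hj.2 hx.1
        have hpj := wps_p2_pos j
        have hs := wls_sum' (pf.Lam x) (pf.v x) (fun i => fderiv ℝ pf.cw x (ev i))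
          (4 * P.Lκ * p2 j) (fun i => by
            have := (wls_dcw pf x).2 j hx.1 (ev i)
            rwa [wle_ev, mul_one] at this)
        rw [abs_mul, abs_of_nonneg (pow_nonneg f0 _)]
        have e1 : pf.fl x ^ (n - 2) * (n * (pf.fl x * ‖pf.v x‖ * (4 * P.Lκ * p2 j))) =
            4 * n * P.Lκ * p2 j * (pf.fl x ^ (n - 1) * ‖pf.v x‖) := by
          have : pf.fl x ^ (n - 1) = pf.fl x ^ (n - 2) * pf.fl x := by
            rw [← pow_succ]; congr 1; omega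
          rw [this]; ring
        have hpp : 0 ≤ pf.a * p2 j := f0.trans f1
        have e2 : p2 j ^ n = p2 j ^ (n - 1) * p2 j := by
          rw [← pow_succ]; congr 1; omega
        calc pf.fl x ^ (n - 2) * |∑ i, inner ℝ (pf.Lam x i) (pf.v x) * fderiv ℝ pf.cw x (ev i)|
            ≤ pf.fl x ^ (n - 2) * (n * (pf.fl x * ‖pf.v x‖ * (4 * P.Lκ * p2 j))) :=
              mul_le_mul_of_nonneg_left hs (pow_nonneg f0 _)
          _ = 4 * n * P.Lκ * p2 j * (pf.fl x ^ (n - 1) * ‖pf.v x‖) := e1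
          _ ≤ 4 * n * P.Lκ * p2 j * ((pf.a * p2 j) ^ (n - 1) * (2 * P.CT)) := by
              refine mul_le_mul_of_nonneg_left ?_ (by positivity)
              exact mul_le_mul (pow_le_pow_left₀ f0 f1 _) hvx (norm_nonneg _)
                (pow_nonneg hpp _)
          _ = _ := by rw [mul_pow, e2]; ring
      refine (wls_dom (hrm j) (hrv j) hfi hb).trans ?_
      obtain ⟨-, hoa⟩ := hout j (hkW j hj.1)
      obtain ⟨-, -, o3, -⟩ := hoa pf.a ha
      rw [hset, zero_mul, zero_add]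
      have := hEr j
      have k1 := mul_le_mul_of_nonneg_left (o3.trans this) hnCL
      linarith
  -- third integral over the bad set
  have hbad3 : ∫ x in R.Sᶜ, pf.cw x * (pf.fl x ^ n * ‖pf.v x‖ ^ 2) ≤
      4 * P.CT ^ 2 * ∑ j ∈ Finset.Icc α β, pf.Er j := by
    have hnn : ∀ x, 0 ≤ pf.cw x * (pf.fl x ^ n * ‖pf.v x‖ ^ 2) := fun x =>
      mul_nonneg (hcw0 x) (mul_nonneg (pow_nonneg (hfl0 x) n) (sq_nonneg _))
    refine (wls_cover R.x₀ α β R.Sᶜ hSm.compl _ hnn hI3 ?_).trans ?_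
    · intro x hx
      apply hcwsupp x
      intro h0
      apply hx
      rw [h0, zero_mul]
    · rw [Finset.mul_sum]
      refine Finset.sum_le_sum fun j hj => ?_
      rw [Finset.mem_Icc] at hj
      have hb : ∀ᵐ x, x ∈ rg R.x₀ j ∩ R.Sᶜ → |pf.cw x * (pf.fl x ^ n * ‖pf.v x‖ ^ 2)| ≤
          0 * D.f x + 4 * P.CT ^ 2 * (pf.a ^ n * p2 j ^ n) := by
        filter_upwards [hv2] with x hvx hx
        obtain ⟨-, f0, f1⟩ := wls_fl pf x j hj.1 hj.2 hx.1
        rw [abs_of_nonneg (hnn x)]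
        have hpp : 0 ≤ pf.a * p2 j := f0.trans f1
        calc pf.cw x * (pf.fl x ^ n * ‖pf.v x‖ ^ 2) ≤ 1 * ((pf.a * p2 j) ^ n * (2 * P.CT) ^ 2) := by
              refine mul_le_mul (hcw1 x) ?_ (mul_nonneg (pow_nonneg f0 n) (sq_nonneg _)) zero_le_one
              exact mul_le_mul (pow_le_pow_left₀ f0 f1 _) (pow_le_pow_left₀ (norm_nonneg _) hvx 2)
                (sq_nonneg _) (pow_nonneg hpp _)
          _ = _ := by rw [mul_pow]; ring
      have h1 : ∫ x in rg R.x₀ j ∩ R.Sᶜ, pf.cw x * (pf.fl x ^ n * ‖pf.v x‖ ^ 2) =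
          ∫ x in rg R.x₀ j ∩ R.Sᶜ, |pf.cw x * (pf.fl x ^ n * ‖pf.v x‖ ^ 2)| := by
        refine integral_congr_ae (Eventually.of_forall fun x => ?_)
        exact (abs_of_nonneg (hnn x)).symm
      rw [h1]
      refine (wls_dom (hrm j) (hrv j) hfi hb).trans ?_
      obtain ⟨-, hoa⟩ := hout j (hkW j hj.1)
      obtain ⟨-, -, -, o4⟩ := hoa pf.a ha
      rw [hset, zero_mul, zero_add]
      have := hEr j
      have k1 := mul_le_mul_of_nonneg_left (o4.trans this)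
        (by positivity : (0 : ℝ) ≤ 4 * P.CT ^ 2)
      linarith
  have hgood3 : ∫ x in R.S, pf.cw x * (pf.fl x ^ n * ‖pf.v x‖ ^ 2) ≤ pf.Cur := by
    unfold Pf.Cur
    refine integral_mono hI3.integrableOn hI6.integrableOn fun x => ?_
    refine mul_le_mul_of_nonneg_left (mul_le_mul_of_nonneg_right ?_ (sq_nonneg _)) (hcw0 x)
    have : 0 ≤ gn (pf.g x) ^ n := pow_nonneg (Real.sqrt_nonneg _) n
    linarith
  have s1 := integral_add_compl hSm hI8
  have s2 := integral_add_compl hSm hI10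
  have s3 := integral_add_compl hSm hI3
  rw [← s1, ← s2, ← s3] at hmain
  set E := ∑ j ∈ Finset.Icc α β, pf.Er j with hE
  have hE0 : 0 ≤ E := Finset.sum_nonneg fun j _ =>
    mul_nonneg (pow_nonneg R.e_pos.le _) (add_nonneg (hDj0 j) (pow_nonneg ha n))
  have hCur0 : 0 ≤ pf.Cur := by
    refine le_trans ?_ hgood3
    exact integral_nonneg fun x =>
      mul_nonneg (hcw0 x) (mul_nonneg (pow_nonneg (hfl0 x) n) (sq_nonneg _))
  have k3 := mul_le_mul_of_nonneg_left (add_le_add hgood3 hbad3) (by linarith : (0 : ℝ) ≤ Ce)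
  have b1 := abs_le.1 hbad1
  have b2 := abs_le.1 hbad2
  have b3 := abs_le.1 hmain
  have hKC : Ce * pf.Cur ≤ K * pf.Cur := mul_le_mul_of_nonneg_right (by linarith) hCur0
  have hKE : 2 * n * E + 8 * n * P.CT * P.Lκ * E + Ce * (4 * P.CT ^ 2 * E) ≤ K * E := by
    rw [hK]
    have k4 : 0 ≤ Ce * E := mul_nonneg (by linarith) hE0
    linarith
  rw [abs_le]
  constructor
  · linarith [b1.1, b1.2, b2.1, b2.2, b3.1, b3.2]
  · linarith [b1.1, b1.2, b2.1, b2.2, b3.1, b3.2]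

end H60NT
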