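import Pool.Agent.H60.NT.WPtS
import Pool.Agent.H60.NT.WInt
import Pool.Agent.H60.NT.OutInt
import Pool.Agent.H60.NT.WLeS

/-!
# [H60 NT WIN2] (5.2)
-/

set_option autoImplicit false

namespace H60NT

open H60NH MeasureTheory Metric Set Filter Topology
open scoped ENNReal NNReal ContDiff

theorem win2_int {n m : ℕ} {P : Par n m} (D : Dyn P) : Integrable (fun x => D.f x ^ (n - 1)) := by
  have hn := P.hn
  obtain ⟨hm, h0, h1, h2, -⟩ := dyn_int D
  refine (h1.add h2).mono' (hm.pow_const (n - 1)).aestronglyMeasurable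
    (Eventually.of_forall fun x => ?_)
  rw [Real.norm_of_nonneg (pow_nonneg (h0 x) _)]
  show D.f x ^ (n - 1) ≤ D.f x + D.f x ^ n
  have hx := h0 x
  rcases le_total (D.f x) 1 with h | h
  · have h3 : D.f x ^ (n - 1) ≤ D.f x ^ 1 := pow_le_pow_of_le_one hx h (by omega)
    rw [pow_one] at h3
    have := pow_nonneg hx n
    linarith
  · have h3 : D.f x ^ (n - 1) ≤ D.f x ^ n := pow_le_pow_right₀ h (by omega)
    linarith

theorem win2_sum3 {n m : ℕ} (a : Fin n → E m) (b : E m) (c : Fin n → ℝ) (M : ℝ)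
    (hb : ‖b‖ ≤ 1) (hc : ∀ i, |c i| ≤ M) : |∑ i, inner ℝ (a i) b * c i| ≤ n * (gn a * M) := by
  refine (wls_sum' a b c M hc).trans ?_
  rcases Nat.eq_zero_or_pos n with h0 | h0
  · subst h0; simp
  · have hM : 0 ≤ M := (abs_nonneg _).trans (hc ⟨0, h0⟩)
    have hg : 0 ≤ gn a := Real.sqrt_nonneg _
    have : gn a * ‖b‖ * M ≤ gn a * 1 * M := by gcongr
    rw [mul_one] at this
    exact mul_le_mul_of_nonneg_left this (by positivity)

theorem win2_rev {n : ℕ} {x₀ x : E n} {j : ℕ} (hx : x ∈ rg x₀ j) : p2 j ≤ 2 * ‖x - x₀‖⁻¹ := by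
  have hpj := wps_p2_pos j
  have hr : 0 < ‖x - x₀‖ := lt_of_lt_of_le (by positivity) hx.1
  have h2 := hx.2
  rw [le_div_iff₀ hpj] at h2
  rw [← div_eq_mul_inv, le_div_iff₀ hr]
  linarith

theorem win2 {n m : ℕ} (P : Par n m) (Cp : ℝ) (hCp : 1 ≤ Cp) : Uni P (fun C D R =>
    ∀ (α β : ℕ) (pf : Pf R Cp α β), α + 2 ≤ β →
      P.κ₀ * ((∫ x in R.S, pf.cw x * (D.f x ^ (n - 2) * ∑ i, inner ℝ (D.G x i) (pf.g x i))) +
        ∫ x in R.S, D.f x ^ (n - 2) * ∑ i, inner ℝ (D.G x i) (pf.v x) *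
          fderiv ℝ pf.cw x (ev i)) ≤
      (∫ x in R.S, pf.cw x * pf.gL x) + (∫ x, pf.FL x) + (∫ x, pf.QL x) +
        C * (pf.Cur + pf.Bdy + ∑ j ∈ Finset.Icc α β, pf.Er j)) := by
  have hn := P.hn
  have hn1 : (1 : ℝ) ≤ n := by exact_mod_cast (by omega : 1 ≤ n)
  have hCG : 1 ≤ P.CG := P.hG.one_le
  have hL : 1 ≤ P.Lκ := P.hκ.one_le
  obtain ⟨Cs, t1, hCs, ht1, Hs⟩ := w_ptS P Cp hCp
  obtain ⟨_, t2, _, ht2, Ho⟩ := out_int P
  obtain ⟨_, t3, _, ht3, Hb⟩ := b_pow P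
  set K : ℝ := Cs + 8 * n * P.Lκ * Cs + 4 * n * P.Lκ + n * P.CG with hK
  have hk1 : 0 ≤ 8 * n * P.Lκ * Cs := by positivity
  have hk2 : 0 ≤ 4 * n * P.Lκ := by positivity
  have hk3 : 0 ≤ n * P.CG := by positivity
  refine ⟨K, min t1 (min t2 t3), by linarith, lt_min ht1 (lt_min ht2 ht3), ?_⟩
  intro Q C₅ t₀ hC5 ht0 hle
  obtain ⟨e, he, he1, H1⟩ := Hs Q C₅ t₀ hC5 ht0 (hle.trans (min_le_left _ _))
  obtain ⟨e', he', _, H2⟩ := Ho Q C₅ t₀ hC5 ht0
    (hle.trans ((min_le_right _ _).trans (min_le_left _ _)))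
  obtain ⟨e'', he'', _, H3⟩ := Hb Q C₅ t₀ hC5 ht0
    (hle.trans ((min_le_right _ _).trans (min_le_right _ _)))
  refine ⟨min e (min e' e''), lt_min he (lt_min he' he''), (min_le_left _ _).trans he1, ?_⟩
  intro D R hR α β pf hαβ
  have hpts := H1 D R (hR.mono (min_le_left _ _)) α β pf hαβ
  have hout := H2 D R (hR.mono ((min_le_right _ _).trans (min_le_left _ _)))
  have hSm : MeasurableSet R.S := (H3 D R (hR.mono ((min_le_right _ _).trans (min_le_right _ _)))).1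
  obtain ⟨hI1, hI2, hI3, -, hI5, hI6, hI7, -, hI9, -⟩ := w_int pf hαβ hSm
  have hcw0 : ∀ x, 0 ≤ pf.cw x := fun x => ((chi_win P R.x₀ α β pf.lt).1 x).1
  have hcw1 : ∀ x, pf.cw x ≤ 1 := fun x => ((chi_win P R.x₀ α β pf.lt).1 x).2
  have ha := pf.a_nonneg
  have hee : R.e ^ (R.Q + 4) ≤ R.e ^ (R.Q + 3) :=
    pow_le_pow_of_le_one R.e_pos.le R.e_le (by omega)
  have hDj0 : ∀ j, 0 ≤ R.Dj j := fun j =>
    integral_nonneg fun x => pow_nonneg (Real.sqrt_nonneg _) n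
  have hEr : ∀ j, R.e ^ (R.Q + 4) * (R.Dj j + pf.a ^ n) ≤ pf.Er j := fun j =>
    mul_le_mul_of_nonneg_right hee (add_nonneg (hDj0 j) (pow_nonneg ha n))
  have hEr' : ∀ j, R.e ^ (R.Q + 4) * R.Dj j ≤ pf.Er j := fun j =>
    (mul_le_mul_of_nonneg_left (by linarith [pow_nonneg ha n])
      (pow_nonneg R.e_pos.le _)).trans (hEr j)
  have hf0 : ∀ x, 0 ≤ D.f x := fun x => Real.sqrt_nonneg _
  have hfi : Integrable (fun x => D.f x ^ (n - 1)) := win2_int D
  have hkW : ∀ j, α ≤ j → R.k + R.W ≤ j := fun j hj => pf.ge.trans hj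
  have hrm : ∀ j, MeasurableSet (rg R.x₀ j ∩ R.Sᶜ) := fun j =>
    (rg_meas R.x₀ j).1.inter hSm.compl
  have hrv : ∀ j, volume (rg R.x₀ j ∩ R.Sᶜ) < ⊤ := fun j =>
    lt_of_le_of_lt (measure_mono inter_subset_left) (wls_vol R.x₀ j)
  have hset : ∀ j, rg R.x₀ j ∩ R.Sᶜ = rg R.x₀ j \ R.S := fun j => rfl
  have hcwsupp : ∀ x, pf.cw x ≠ 0 → ∃ j ∈ Finset.Icc α β, x ∈ rg R.x₀ j := by
    intro x hx
    obtain ⟨j, h1, h2, h3⟩ := (chi_win P R.x₀ α β pf.lt).2.2.2 x hx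
    exact ⟨j, Finset.mem_Icc.2 ⟨h1, h2⟩, h3⟩
  have hFbd : ∀ x, ‖P.F (pf.lam x) (D.u x)‖ ≤ 1 := fun x => P.hG.bd _ _
  have epow : ∀ x, D.f x ^ (n - 2) * D.f x = D.f x ^ (n - 1) := by
    intro x
    rw [← pow_succ]; congr 1; omega
  -- FL over the bad set
  have hbad1 : |∫ x in R.Sᶜ, pf.FL x| ≤ 4 * n * P.Lκ * ∑ j ∈ Finset.Icc α β, pf.Er j := by
    refine (abs_integral_le_integral_abs).trans ?_
    refine (wls_cover R.x₀ α β R.Sᶜ hSm.compl _ (fun x => abs_nonneg _) hI2.abs ?_).trans ?_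
    · intro x hx
      have hne : fderiv ℝ pf.cw x ≠ 0 := by
        intro h0
        apply hx
        unfold Pf.FL
        rw [h0]
        simp
      rcases (wls_dcw pf x).1 hne with h1 | h1
      · exact ⟨α, Finset.mem_Icc.2 ⟨le_refl _, by omega⟩, h1⟩
      · exact ⟨β, Finset.mem_Icc.2 ⟨by omega, le_refl _⟩, h1⟩
    · rw [Finset.mul_sum]
      refine Finset.sum_le_sum fun j hj => ?_
      rw [Finset.mem_Icc] at hj
      have hb : ∀ᵐ x, x ∈ rg R.x₀ j ∩ R.Sᶜ → |pf.FL x| ≤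
          4 * n * P.Lκ * p2 j * D.f x ^ (n - 1) + 0 := by
        refine Eventually.of_forall fun x hx => ?_
        have hpj := wps_p2_pos j
        have hs := win2_sum3 (D.G x) (P.F (pf.lam x) (D.u x)) (fun i => fderiv ℝ pf.cw x (ev i))
          (4 * P.Lκ * p2 j) (hFbd x) (fun i => by
            have := (wls_dcw pf x).2 j hx.1 (ev i)
            rwa [wle_ev, mul_one] at this)
        unfold Pf.FL
        rw [abs_mul, abs_of_nonneg (pow_nonneg (hf0 x) _), add_zero]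
        refine (mul_le_mul_of_nonneg_left hs (pow_nonneg (hf0 x) _)).trans (le_of_eq ?_)
        have : gn (D.G x) = D.f x := rfl
        rw [this, ← epow x]
        ring
      refine (wls_dom (hrm j) (hrv j) hfi hb).trans ?_
      obtain ⟨o1, -⟩ := hout j (hkW j hj.1)
      rw [hset, zero_mul, add_zero]
      have k1 := mul_le_mul_of_nonneg_left (o1.trans (hEr' j)) hk2
      linarith
  -- QL over the bad set
  have hQpt : ∀ x, ∀ j, α ≤ j → j ≤ β → x ∈ rg R.x₀ j → |pf.QL x| ≤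
      n * P.CG * (pf.a * p2 j) * D.f x ^ (n - 1) := by
    intro x j h1 h2 hx
    obtain ⟨-, f0, f1⟩ := wls_fl pf x j h1 h2 hx
    have hs : |∑ i, inner ℝ (D.G x i) (fderiv ℝ (fun p => P.F p (D.u x)) (pf.lam x)
        (pf.Lam x i))| ≤ n * (D.f x * (P.CG * pf.fl x)) := by
      refine (Finset.abs_sum_le_sum_abs _ _).trans ?_
      have h3 : ∀ i ∈ (Finset.univ : Finset (Fin n)), |inner ℝ (D.G x i)
          (fderiv ℝ (fun p => P.F p (D.u x)) (pf.lam x) (pf.Lam x i))| ≤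
          D.f x * (P.CG * pf.fl x) := by
        intro i _
        refine (abs_real_inner_le_norm _ _).trans ?_
        refine mul_le_mul (wps_gn (D.G x) i) ?_ (norm_nonneg _) (hf0 x)
        refine (ContinuousLinearMap.le_opNorm _ _).trans ?_
        exact mul_le_mul (P.hG.bdq _ _) (wps_gn (pf.Lam x) i) (norm_nonneg _) (by linarith)
      refine (Finset.sum_le_sum h3).trans (le_of_eq ?_)
      rw [Finset.sum_const, Finset.card_univ, Fintype.card_fin, nsmul_eq_mul]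
    unfold Pf.QL
    rw [abs_mul, abs_of_nonneg (hcw0 x), abs_mul, abs_of_nonneg (pow_nonneg (hf0 x) _)]
    have hfn := pow_nonneg (hf0 x) (n - 2)
    calc pf.cw x * (D.f x ^ (n - 2) * |∑ i, inner ℝ (D.G x i)
          (fderiv ℝ (fun p => P.F p (D.u x)) (pf.lam x) (pf.Lam x i))|)
        ≤ 1 * (D.f x ^ (n - 2) * (n * (D.f x * (P.CG * pf.fl x)))) := by
          refine mul_le_mul (hcw1 x) (mul_le_mul_of_nonneg_left hs hfn) ?_ zero_le_one
          exact mul_nonneg hfn (abs_nonneg _)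
      _ = n * P.CG * pf.fl x * D.f x ^ (n - 1) := by rw [← epow x]; ring
      _ ≤ n * P.CG * (pf.a * p2 j) * D.f x ^ (n - 1) := by
          have := pow_nonneg (hf0 x) (n - 1)
          gcongr
  have hbad2 : |∫ x in R.Sᶜ, pf.QL x| ≤ n * P.CG * ∑ j ∈ Finset.Icc α β, pf.Er j := by
    refine (abs_integral_le_integral_abs).trans ?_
    refine (wls_cover R.x₀ α β R.Sᶜ hSm.compl _ (fun x => abs_nonneg _) hI3.abs ?_).trans ?_
    · intro x hx
      apply hcwsupp x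
      intro h0
      apply hx
      unfold Pf.QL
      rw [h0, zero_mul, abs_zero]
    · rw [Finset.mul_sum]
      refine Finset.sum_le_sum fun j hj => ?_
      rw [Finset.mem_Icc] at hj
      have hb : ∀ᵐ x, x ∈ rg R.x₀ j ∩ R.Sᶜ → |pf.QL x| ≤
          n * P.CG * (pf.a * p2 j) * D.f x ^ (n - 1) + 0 := by
        refine Eventually.of_forall fun x hx => ?_
        rw [add_zero]
        exact hQpt x j hj.1 hj.2 hx.1
      refine (wls_dom (hrm j) (hrv j) hfi hb).trans ?_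
      obtain ⟨-, hoa⟩ := hout j (hkW j hj.1)
      obtain ⟨o1, -⟩ := hoa pf.a ha
      rw [hset, zero_mul, add_zero]
      have k1 := mul_le_mul_of_nonneg_left (o1.trans (hEr j)) hk3
      linarith
  -- pointwise on the good set
  have hall : ∀ᵐ x, ∀ j ∈ Finset.Icc α β, x ∈ rg R.x₀ j → x ∈ R.S →
      P.κ₀ * (D.f x ^ (n - 2) * ∑ i, inner ℝ (D.G x i) (pf.g x i)) ≤
          pf.gL x + D.f x ^ (n - 2) * (∑ i, inner ℝ (D.G x i)
            (fderiv ℝ (fun p => P.F p (D.u x)) (pf.lam x) (pf.Lam x i))) +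
          Cs * ((gn (pf.g x) ^ n + pf.fl x ^ n) * ‖pf.v x‖ ^ 2) ∧
        ∀ i, |P.κ₀ * inner ℝ (D.G x i) (pf.v x) - inner ℝ (D.G x i) (P.F (pf.lam x) (D.u x))| ≤
          Cs * (‖D.G x i‖ * ‖pf.v x‖ ^ 3) := by
    rw [ae_all_iff]
    intro j
    by_cases hj : j ∈ Finset.Icc α β
    · have hj' := Finset.mem_Icc.1 hj
      filter_upwards [hpts j hj'.1 hj'.2] with x hx _
      exact hx
    · exact Eventually.of_forall fun x h => absurd h hj
  have hA1 : P.κ₀ * (∫ x in R.S, pf.cw x * (D.f x ^ (n - 2) *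
      ∑ i, inner ℝ (D.G x i) (pf.g x i))) ≤
      (∫ x in R.S, pf.cw x * pf.gL x) + (∫ x in R.S, pf.QL x) + Cs * pf.Cur := by
    unfold Pf.Cur
    have hJ : IntegrableOn (fun x => pf.cw x * pf.gL x + pf.QL x) R.S :=
      hI1.integrableOn.add hI3.integrableOn
    rw [← integral_const_mul, ← integral_const_mul, ← integral_add hI1.integrableOn
      hI3.integrableOn, ← integral_add hJ (hI6.integrableOn.const_mul _)]
    refine setIntegral_mono_ae_restrict (hI7.integrableOn.const_mul _)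
      (hJ.add (hI6.integrableOn.const_mul _)) ?_
    refine (ae_restrict_iff' hSm).2 ?_
    filter_upwards [hall] with x hx hxS
    show P.κ₀ * (pf.cw x * (D.f x ^ (n - 2) * ∑ i, inner ℝ (D.G x i) (pf.g x i))) ≤
      pf.cw x * pf.gL x + pf.QL x +
        Cs * (pf.cw x * ((gn (pf.g x) ^ n + pf.fl x ^ n) * ‖pf.v x‖ ^ 2))
    by_cases hc : pf.cw x = 0
    · unfold Pf.QL
      rw [hc]
      simp
    · obtain ⟨j, hj, hxj⟩ := hcwsupp x hc
      have h1 := mul_le_mul_of_nonneg_left (hx j hj hxj hxS).1 (hcw0 x)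
      unfold Pf.QL
      linarith
  have hUm : MeasurableSet (rg R.x₀ α ∪ rg R.x₀ β) :=
    (rg_meas R.x₀ α).1.union (rg_meas R.x₀ β).1
  have hA2 : P.κ₀ * (∫ x in R.S, D.f x ^ (n - 2) * ∑ i, inner ℝ (D.G x i) (pf.v x) *
      fderiv ℝ pf.cw x (ev i)) ≤ (∫ x in R.S, pf.FL x) + 8 * n * P.Lκ * Cs * pf.Bdy := by
    unfold Pf.Bdy
    rw [← setIntegral_indicator hUm, ← integral_const_mul, ← integral_const_mul]
    have hI5' : IntegrableOn ((rg R.x₀ α ∪ rg R.x₀ β).indicator (fun x => ‖x - R.x₀‖⁻¹ *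
      ((pf.fl x ^ (n - 2) * gn (pf.g x) + gn (pf.g x) ^ (n - 1)) * ‖pf.v x‖ +
        D.f x ^ (n - 1) * ‖pf.v x‖ ^ 3))) R.S := by
      rw [IntegrableOn, integrable_indicator_iff hUm, IntegrableOn,
        Measure.restrict_restrict hUm, inter_comm]
      exact hI5
    rw [← integral_add hI2.integrableOn (hI5'.const_mul _)]
    refine setIntegral_mono_ae_restrict (hI9.integrableOn.const_mul _)
      (hI2.integrableOn.add (hI5'.const_mul _)) ?_
    refine (ae_restrict_iff' hSm).2 ?_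
    filter_upwards [hall] with x hx hxS
    show P.κ₀ * (D.f x ^ (n - 2) * ∑ i, inner ℝ (D.G x i) (pf.v x) *
      fderiv ℝ pf.cw x (ev i)) ≤ pf.FL x + 8 * n * P.Lκ * Cs *
        (rg R.x₀ α ∪ rg R.x₀ β).indicator (fun x => ‖x - R.x₀‖⁻¹ *
      ((pf.fl x ^ (n - 2) * gn (pf.g x) + gn (pf.g x) ^ (n - 1)) * ‖pf.v x‖ +
        D.f x ^ (n - 1) * ‖pf.v x‖ ^ 3)) x
    have hgn0 : 0 ≤ gn (pf.g x) := Real.sqrt_nonneg _
    have hfl0 : 0 ≤ pf.fl x := Real.sqrt_nonneg _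
    by_cases hne : fderiv ℝ pf.cw x = 0
    · unfold Pf.FL
      have h1 : 0 ≤ (rg R.x₀ α ∪ rg R.x₀ β).indicator (fun x => ‖x - R.x₀‖⁻¹ *
        ((pf.fl x ^ (n - 2) * gn (pf.g x) + gn (pf.g x) ^ (n - 1)) * ‖pf.v x‖ +
        D.f x ^ (n - 1) * ‖pf.v x‖ ^ 3)) x := by
        refine indicator_nonneg (fun y _ => ?_) x
        have g0 : 0 ≤ gn (pf.g y) := Real.sqrt_nonneg _
        have l0 : 0 ≤ pf.fl y := Real.sqrt_nonneg _
        have f0 := hf0 y
        positivity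
      rw [hne]
      simp only [zero_apply, mul_zero, Finset.sum_const_zero, zero_add]
      exact mul_nonneg hk1 h1
    · have hor := (wls_dcw pf x).1 hne
      obtain ⟨j, hj, hxj⟩ : ∃ j ∈ Finset.Icc α β, x ∈ rg R.x₀ j := by
        rcases hor with h1 | h1
        · exact ⟨α, Finset.mem_Icc.2 ⟨le_refl _, by omega⟩, h1⟩
        · exact ⟨β, Finset.mem_Icc.2 ⟨by omega, le_refl _⟩, h1⟩
      have hU : x ∈ rg R.x₀ α ∪ rg R.x₀ β := hor
      rw [indicator_of_mem hU]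
      have h2 := (hx j hj hxj hxS).2
      have hpj := wps_p2_pos j
      have hrev := win2_rev hxj
      have hterm : ∀ i ∈ (Finset.univ : Finset (Fin n)),
          P.κ₀ * (inner ℝ (D.G x i) (pf.v x) * fderiv ℝ pf.cw x (ev i)) ≤
          inner ℝ (D.G x i) (P.F (pf.lam x) (D.u x)) * fderiv ℝ pf.cw x (ev i) +
            8 * P.Lκ * Cs * (‖x - R.x₀‖⁻¹ * (D.f x * ‖pf.v x‖ ^ 3)) := by
        intro i _
        have h3 := h2 i
        have h4 := (wls_dcw pf x).2 j hxj (ev i)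
        rw [wle_ev, mul_one] at h4
        have h5 : ‖D.G x i‖ ≤ D.f x := wps_gn _ i
        have h6 : |(P.κ₀ * inner ℝ (D.G x i) (pf.v x) -
            inner ℝ (D.G x i) (P.F (pf.lam x) (D.u x))) * fderiv ℝ pf.cw x (ev i)| ≤
            Cs * (D.f x * ‖pf.v x‖ ^ 3) * (4 * P.Lκ * (2 * ‖x - R.x₀‖⁻¹)) := by
          rw [abs_mul]
          have h7 : Cs * (‖D.G x i‖ * ‖pf.v x‖ ^ 3) ≤ Cs * (D.f x * ‖pf.v x‖ ^ 3) := by gcongr
          have h8 : 4 * P.Lκ * p2 j ≤ 4 * P.Lκ * (2 * ‖x - R.x₀‖⁻¹) := by gcongr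
          exact mul_le_mul (h3.trans h7) (h4.trans h8) (abs_nonneg _)
            ((abs_nonneg _).trans (h3.trans h7))
        have h9 := (abs_le.1 h6).2
        have h10 : (P.κ₀ * inner ℝ (D.G x i) (pf.v x) -
            inner ℝ (D.G x i) (P.F (pf.lam x) (D.u x))) * fderiv ℝ pf.cw x (ev i) =
            P.κ₀ * (inner ℝ (D.G x i) (pf.v x) * fderiv ℝ pf.cw x (ev i)) -
              inner ℝ (D.G x i) (P.F (pf.lam x) (D.u x)) * fderiv ℝ pf.cw x (ev i) := by ring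
        have h11 : Cs * (D.f x * ‖pf.v x‖ ^ 3) * (4 * P.Lκ * (2 * ‖x - R.x₀‖⁻¹)) =
            8 * P.Lκ * Cs * (‖x - R.x₀‖⁻¹ * (D.f x * ‖pf.v x‖ ^ 3)) := by ring
        rw [h10, h11] at h9
        linarith
      have hs := Finset.sum_le_sum hterm
      rw [← Finset.mul_sum, Finset.sum_add_distrib, Finset.sum_const, Finset.card_univ,
        Fintype.card_fin, nsmul_eq_mul] at hs
      have hfn := pow_nonneg (hf0 x) (n - 2)
      have hs2 := mul_le_mul_of_nonneg_left hs hfn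
      have hr0 : 0 ≤ ‖x - R.x₀‖⁻¹ := inv_nonneg.2 (norm_nonneg _)
      have h10 : 0 ≤ ‖x - R.x₀‖⁻¹ * ((pf.fl x ^ (n - 2) * gn (pf.g x) +
          gn (pf.g x) ^ (n - 1)) * ‖pf.v x‖) := by positivity
      have h11 := mul_nonneg hk1 h10
      unfold Pf.FL
      have e1 : D.f x ^ (n - 2) * (n * (8 * P.Lκ * Cs * (‖x - R.x₀‖⁻¹ *
          (D.f x * ‖pf.v x‖ ^ 3)))) =
          8 * n * P.Lκ * Cs * (‖x - R.x₀‖⁻¹ * (D.f x ^ (n - 1) * ‖pf.v x‖ ^ 3)) := by
        rw [← epow x]; ring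
      rw [mul_add, e1] at hs2
      calc P.κ₀ * (D.f x ^ (n - 2) * ∑ i, inner ℝ (D.G x i) (pf.v x) *
            fderiv ℝ pf.cw x (ev i))
          = D.f x ^ (n - 2) * (P.κ₀ * ∑ i, inner ℝ (D.G x i) (pf.v x) *
            fderiv ℝ pf.cw x (ev i)) := by ring
        _ ≤ _ := hs2
        _ ≤ _ := by linarith
  have s2 := integral_add_compl hSm hI2
  have s3 := integral_add_compl hSm hI3
  set Es := ∑ j ∈ Finset.Icc α β, pf.Er j with hE
  have hE0 : 0 ≤ Es := Finset.sum_nonneg fun j _ =>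
    mul_nonneg (pow_nonneg R.e_pos.le _) (add_nonneg (hDj0 j) (pow_nonneg ha n))
  have hCur0 : 0 ≤ pf.Cur := by
    refine integral_nonneg fun x => mul_nonneg (hcw0 x) (mul_nonneg ?_ (sq_nonneg _))
    exact add_nonneg (pow_nonneg (Real.sqrt_nonneg _) n) (pow_nonneg (Real.sqrt_nonneg _) n)
  have hBdy0 : 0 ≤ pf.Bdy := by
    refine integral_nonneg fun y => ?_
    have g0 : 0 ≤ gn (pf.g y) := Real.sqrt_nonneg _
    have l0 : 0 ≤ pf.fl y := Real.sqrt_nonneg _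
    have f0 := hf0 y
    positivity
  have b1 := abs_le.1 hbad1
  have b2 := abs_le.1 hbad2
  rw [← s2, ← s3]
  have hKC : Cs * pf.Cur ≤ K * pf.Cur := mul_le_mul_of_nonneg_right (by linarith) hCur0
  have hKB : 8 * n * P.Lκ * Cs * pf.Bdy ≤ K * pf.Bdy :=
    mul_le_mul_of_nonneg_right (by linarith) hBdy0
  have hKE : (4 * n * P.Lκ + n * P.CG) * Es ≤ K * Es :=
    mul_le_mul_of_nonneg_right (by linarith) hE0
  rw [mul_add, mul_add, mul_add]
  linarith [b1.1, b1.2, b2.1, b2.2, hA1, hA2]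

end H60NT
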