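import Pool.Agent.H60.NT.PayP
import Pool.Agent.H60.NT.ChiF
import Pool.Agent.H60.NT.MonoV
import Pool.Agent.H60.NT.WInt
import Pool.Agent.H60.NT.Win2

/-!
# [H60 NT PAYR] Payment: the remainder terms
-/

set_option autoImplicit false

namespace H60NT

open H60NH MeasureTheory Metric Set Filter Topology
open scoped ENNReal NNReal ContDiff

/-- the algebra of the remainder -/
theorem payr_alg (n : ℕ) (hn : 3 ≤ n) (B F X w σ a z τ Cp : ℝ) (hB : 0 < B) (hF0 : 0 ≤ F)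
    (hX : 0 ≤ X) (hw : 0 ≤ w) (hσ : 0 ≤ σ) (hσa : σ ≤ a) (haC : a ≤ Cp) (hF : F ≤ a * B)
    (hτ : 0 < τ) (hz1 : X ^ n ≤ z) (hz2 : F ^ (n - 2) * X ^ 2 ≤ z) (K1 K2 : ℝ) (hK1 : 0 ≤ K1)
    (hK2 : 0 ≤ K2) :
    K1 * (B * ((F ^ (n - 2) * X + X ^ (n - 1)) * (σ + w))) +
      K2 * ((a * B) ^ (n - 2) * B ^ 2 * (σ * w + a * w ^ 2)) ≤
    (2 * K1 + K2) * τ * ((a * B) ^ (n - 2) * B ^ 2 * σ ^ 2) +
      (K1 * (1 / (2 * τ) + τ + 2) + K2 * (1 / (4 * τ) + Cp)) *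
        (z + (a * B) ^ (n - 2) * B ^ 2 * w ^ 2 + B ^ n * w ^ n) := by
  have ha : 0 ≤ a := hσ.trans hσa
  set A := a * B with hA
  have hA0 : 0 ≤ A := by positivity
  have hAn : 0 ≤ A ^ (n - 2) := pow_nonneg hA0 _
  have hFn : 0 ≤ F ^ (n - 2) := pow_nonneg hF0 _
  have hFA : F ^ (n - 2) ≤ A ^ (n - 2) := pow_le_pow_left₀ hF0 hF _
  have hz0 : 0 ≤ z := le_trans (pow_nonneg hX n) hz1
  have hw2 : 0 ≤ B ^ n * w ^ n := by positivity
  have hw3 : 0 ≤ A ^ (n - 2) * B ^ 2 * w ^ 2 := by positivity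
  have amgm : ∀ p q : ℝ, p * q ≤ 1 / (4 * τ) * p ^ 2 + τ * q ^ 2 := by
    intro p q
    have h1 : 0 ≤ (p / (2 * τ) - q) ^ 2 := sq_nonneg _
    have h2 : (p / (2 * τ) - q) ^ 2 = p ^ 2 / (4 * τ ^ 2) - p * q / τ + q ^ 2 := by
      field_simp; ring
    rw [h2] at h1
    have h3 := mul_nonneg hτ.le h1
    have h4 : τ * (p ^ 2 / (4 * τ ^ 2) - p * q / τ + q ^ 2) =
        1 / (4 * τ) * p ^ 2 - p * q + τ * q ^ 2 := by
      field_simp
    linarith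
  -- the six terms
  have t1 : B * (F ^ (n - 2) * X) * σ ≤ 1 / (4 * τ) * z + τ * (A ^ (n - 2) * B ^ 2 * σ ^ 2) := by
    have h1 := mul_le_mul_of_nonneg_left (amgm X (B * σ)) hFn
    have h2 : F ^ (n - 2) * (τ * (B * σ) ^ 2) ≤ A ^ (n - 2) * (τ * (B * σ) ^ 2) :=
      mul_le_mul_of_nonneg_right hFA (by positivity)
    have h3 : 1 / (4 * τ) * (F ^ (n - 2) * X ^ 2) ≤ 1 / (4 * τ) * z :=
      mul_le_mul_of_nonneg_left hz2 (by positivity)
    calc B * (F ^ (n - 2) * X) * σ = F ^ (n - 2) * (X * (B * σ)) := by ring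
      _ ≤ F ^ (n - 2) * (1 / (4 * τ) * X ^ 2 + τ * (B * σ) ^ 2) := h1
      _ = 1 / (4 * τ) * (F ^ (n - 2) * X ^ 2) + F ^ (n - 2) * (τ * (B * σ) ^ 2) := by ring
      _ ≤ 1 / (4 * τ) * z + A ^ (n - 2) * (τ * (B * σ) ^ 2) := add_le_add h3 h2
      _ = _ := by ring
  have eX1 : X ^ (n - 1) = X ^ (n - 2) * X := by rw [← pow_succ]; congr 1; omega
  have eX2 : X ^ n = X ^ (n - 2) * X ^ 2 := by rw [← pow_add]; congr 1; omega
  have hXn : 0 ≤ X ^ (n - 2) := pow_nonneg hX _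
  have hbb : X ^ (n - 2) * (B * σ) ^ 2 ≤ X ^ n + A ^ (n - 2) * (B * σ) ^ 2 := by
    rcases le_total X A with h | h
    · have h1 : X ^ (n - 2) ≤ A ^ (n - 2) := pow_le_pow_left₀ hX h _
      have h2 := mul_le_mul_of_nonneg_right h1 (sq_nonneg (B * σ))
      have := pow_nonneg hX n
      linarith
    · have h1 : B * σ ≤ X := by
        refine le_trans ?_ h
        rw [hA, mul_comm a B]
        exact mul_le_mul_of_nonneg_left hσa hB.le
      have h2 : (B * σ) ^ 2 ≤ X ^ 2 := pow_le_pow_left₀ (by positivity) h1 2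
      have h3 := mul_le_mul_of_nonneg_left h2 hXn
      rw [← eX2] at h3
      have : 0 ≤ A ^ (n - 2) * (B * σ) ^ 2 := by positivity
      linarith
  have t2 : B * X ^ (n - 1) * σ ≤ (1 / (4 * τ) + τ) * z +
      τ * (A ^ (n - 2) * B ^ 2 * σ ^ 2) := by
    have h1 := mul_le_mul_of_nonneg_left (amgm X (B * σ)) hXn
    have h2 := mul_le_mul_of_nonneg_left hbb hτ.le
    have h3 : (1 / (4 * τ) + τ) * X ^ n ≤ (1 / (4 * τ) + τ) * z :=
      mul_le_mul_of_nonneg_left hz1 (by positivity)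
    calc B * X ^ (n - 1) * σ = X ^ (n - 2) * (X * (B * σ)) := by rw [eX1]; ring
      _ ≤ X ^ (n - 2) * (1 / (4 * τ) * X ^ 2 + τ * (B * σ) ^ 2) := h1
      _ = 1 / (4 * τ) * X ^ n + τ * (X ^ (n - 2) * (B * σ) ^ 2) := by rw [eX2]; ring
      _ ≤ 1 / (4 * τ) * X ^ n + τ * (X ^ n + A ^ (n - 2) * (B * σ) ^ 2) := by linarith
      _ = (1 / (4 * τ) + τ) * X ^ n + τ * (A ^ (n - 2) * B ^ 2 * σ ^ 2) := by ring
      _ ≤ _ := by linarith
  have t3 : B * (F ^ (n - 2) * X) * w ≤ z + A ^ (n - 2) * B ^ 2 * w ^ 2 := by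
    have h1 : X * (B * w) ≤ X ^ 2 + (B * w) ^ 2 := by
      linarith [sq_nonneg (X - B * w), sq_nonneg X, sq_nonneg (B * w)]
    have h2 := mul_le_mul_of_nonneg_left h1 hFn
    have h3 : F ^ (n - 2) * (B * w) ^ 2 ≤ A ^ (n - 2) * (B * w) ^ 2 :=
      mul_le_mul_of_nonneg_right hFA (by positivity)
    calc B * (F ^ (n - 2) * X) * w = F ^ (n - 2) * (X * (B * w)) := by ring
      _ ≤ F ^ (n - 2) * (X ^ 2 + (B * w) ^ 2) := h2
      _ = F ^ (n - 2) * X ^ 2 + F ^ (n - 2) * (B * w) ^ 2 := by ring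
      _ ≤ z + A ^ (n - 2) * (B * w) ^ 2 := add_le_add hz2 h3
      _ = _ := by ring
  have t4 : B * X ^ (n - 1) * w ≤ z + B ^ n * w ^ n := by
    have h1 := (young1 n (by omega) X (B * w) hX (by positivity)).1
    rw [mul_pow] at h1
    calc B * X ^ (n - 1) * w = X ^ (n - 1) * (B * w) := by ring
      _ ≤ X ^ n + B ^ n * w ^ n := h1
      _ ≤ _ := by linarith
  have t5 : A ^ (n - 2) * B ^ 2 * (σ * w) ≤ τ * (A ^ (n - 2) * B ^ 2 * σ ^ 2) +
      1 / (4 * τ) * (A ^ (n - 2) * B ^ 2 * w ^ 2) := by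
    have h1 := mul_le_mul_of_nonneg_left (amgm w σ)
      (by positivity : 0 ≤ A ^ (n - 2) * B ^ 2)
    linarith
  have t6 : A ^ (n - 2) * B ^ 2 * (a * w ^ 2) ≤ Cp * (A ^ (n - 2) * B ^ 2 * w ^ 2) := by
    have := mul_le_mul_of_nonneg_right haC hw3
    linarith
  have hτ4 : 0 ≤ 1 / (4 * τ) := by positivity
  have hτ2 : 1 / (2 * τ) = 1 / (4 * τ) + 1 / (4 * τ) := by field_simp; norm_num
  have hCp0 : 0 ≤ Cp := ha.trans haC
  have s1 : B * ((F ^ (n - 2) * X + X ^ (n - 1)) * (σ + w)) ≤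
      2 * τ * (A ^ (n - 2) * B ^ 2 * σ ^ 2) + (1 / (2 * τ) + τ + 2) *
        (z + A ^ (n - 2) * B ^ 2 * w ^ 2 + B ^ n * w ^ n) := by
    rw [hτ2]
    have u1 : 0 ≤ (1 / (4 * τ) + 1 / (4 * τ) + τ) *
        (A ^ (n - 2) * B ^ 2 * w ^ 2 + B ^ n * w ^ n) := by positivity
    have u2 : 0 ≤ A ^ (n - 2) * B ^ 2 * w ^ 2 + B ^ n * w ^ n := by positivity
    linarith [t1, t2, t3, t4]
  have s2 : A ^ (n - 2) * B ^ 2 * (σ * w + a * w ^ 2) ≤
      τ * (A ^ (n - 2) * B ^ 2 * σ ^ 2) + (1 / (4 * τ) + Cp) *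
        (z + A ^ (n - 2) * B ^ 2 * w ^ 2 + B ^ n * w ^ n) := by
    have u1 : 0 ≤ (1 / (4 * τ) + Cp) * (z + B ^ n * w ^ n) := by positivity
    linarith [t5, t6]
  have k1 := mul_le_mul_of_nonneg_left s1 hK1
  have k2 := mul_le_mul_of_nonneg_left s2 hK2
  linarith

/-- the pointwise bound of the difference of the integrands -/
theorem payr_pt {n m : ℕ} (P : Par n m) (Cv : ℝ) (hCv : 1 ≤ Cv)
    (hvd : ∀ (a b : Fin n → E m) (i : Fin n),
      ‖gn a ^ (n - 2) • a i - gn b ^ (n - 2) • b i‖ ≤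
        Cv * (gn b ^ (n - 2) * gn (fun i => a i - b i) + gn (fun i => a i - b i) ^ (n - 1)))
    {D : Dyn P} {R : RC D} {Cp : ℝ} {α β : ℕ} (pf : Pf R Cp α β) (C₀ : ℝ) (hC₀ : 1 ≤ C₀)
    (q q' : E m) (d σ : ℝ) (hd : 0 ≤ d) (hσ : 0 ≤ σ) (x : E n) (hx : x ∈ rg R.x₀ α)
    (h2 : ‖P.F q' (D.u x) - P.F q (D.u x)‖ ≤ C₀ * d * (σ + ‖pf.v x‖))
    (h3 : |inner ℝ (pf.V (-Real.log ‖x - R.x₀‖)) ((P.F q' (D.u x) - P.F q (D.u x)) -
      (P.F q' (pf.lam x) - P.F q (pf.lam x)))| ≤ C₀ * d * (σ * ‖pf.v x‖ + pf.a * ‖pf.v x‖ ^ 2)) :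
    |(D.f x ^ (n - 2) * ∑ i, inner ℝ (D.G x i) (P.F q' (D.u x) - P.F q (D.u x)) *
          fderiv ℝ (P.chi R.x₀ α) x (ev i)) -
      pf.fl x ^ (n - 2) * ∑ i, inner ℝ (pf.Lam x i) (P.F q' (pf.lam x) - P.F q (pf.lam x)) *
            fderiv ℝ (P.chi R.x₀ α) x (ev i)| ≤
      d * ((n * Cv * C₀ * P.Lκ) * (p2 α * ((pf.fl x ^ (n - 2) * gn (pf.g x) +
          gn (pf.g x) ^ (n - 1)) * (σ + ‖pf.v x‖))) +
        (n * C₀ * P.Lκ) * ((pf.a * p2 α) ^ (n - 2) * p2 α ^ 2 *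
          (σ * ‖pf.v x‖ + pf.a * ‖pf.v x‖ ^ 2))) := by
  have hn := P.hn
  have hp := wps_p2_pos α
  have hL : 1 ≤ P.Lκ := P.hκ.one_le
  obtain ⟨fe, f0, f1⟩ := wls_fl pf x α le_rfl pf.lt.le hx
  have hx3 := wps_norm R.hx hx
  have hgeq := (pf_in pf x (by linarith)).2.1
  have hg' : (fun i => D.G x i - pf.Lam x i) = pf.g x := by
    funext i
    exact (hgeq i).symm
  have hgn0 : 0 ≤ gn (pf.g x) := Real.sqrt_nonneg _
  have hfl : gn (pf.Lam x) = pf.fl x := rfl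
  have hfG : gn (D.G x) = D.f x := rfl
  have hvd' : ∀ i, ‖D.f x ^ (n - 2) • D.G x i - pf.fl x ^ (n - 2) • pf.Lam x i‖ ≤
      Cv * (pf.fl x ^ (n - 2) * gn (pf.g x) + gn (pf.g x) ^ (n - 1)) := by
    intro i
    have h := hvd (D.G x) (pf.Lam x) i
    rw [hg', hfl, hfG] at h
    exact h
  have hχ : ∀ i : Fin n, |fderiv ℝ (P.chi R.x₀ α) x (ev i)| ≤ P.Lκ * p2 α := by
    intro i
    have := (chi_facts P R.x₀ α).2.2.2.2.2.1 x (ev i)
    rwa [wle_ev, mul_one] at this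
  obtain ⟨an1, an2⟩ := wps_annulus le_rfl pf.lt.le hx
  have hr : 0 < ‖x - R.x₀‖ := lt_of_lt_of_le (by positivity) hx.1
  have hrinv : 1 / ‖x - R.x₀‖ ≤ p2 α := by
    have := hx.1
    rw [div_le_iff₀ hp] at this
    rw [div_le_iff₀ hr]
    linarith
  set Hu := P.F q' (D.u x) - P.F q (D.u x) with hHu
  set Hl := P.F q' (pf.lam x) - P.F q (pf.lam x) with hHl
  have hLam : ∀ i, |inner ℝ (pf.Lam x i) (Hu - Hl)| ≤
      p2 α * (C₀ * d * (σ * ‖pf.v x‖ + pf.a * ‖pf.v x‖ ^ 2)) := by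
    intro i
    unfold Pf.Lam
    rw [pf.lam_der x an1 an2, inner_smul_left, conj_trivial, abs_mul]
    have h4 : |-(inner ℝ (x - R.x₀) (ev i) / ‖x - R.x₀‖ ^ 2)| ≤ p2 α := by
      rw [abs_neg, abs_div, abs_of_nonneg (sq_nonneg ‖x - R.x₀‖)]
      refine le_trans ?_ hrinv
      rw [div_le_div_iff₀ (by positivity) hr]
      have h5 : |inner ℝ (x - R.x₀) (ev i)| ≤ ‖x - R.x₀‖ := by
        have := abs_real_inner_le_norm (x - R.x₀) (ev i)
        rwa [wle_ev, mul_one] at this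
      have := mul_le_mul_of_nonneg_right h5 hr.le
      linarith
    exact mul_le_mul h4 h3 (abs_nonneg _) hp.le
  have hsplit : (D.f x ^ (n - 2) * ∑ i, inner ℝ (D.G x i) Hu *
          fderiv ℝ (P.chi R.x₀ α) x (ev i)) -
      pf.fl x ^ (n - 2) * ∑ i, inner ℝ (pf.Lam x i) Hl *
            fderiv ℝ (P.chi R.x₀ α) x (ev i) =
      ∑ i, (inner ℝ (D.f x ^ (n - 2) • D.G x i - pf.fl x ^ (n - 2) • pf.Lam x i) Hu +
        pf.fl x ^ (n - 2) * inner ℝ (pf.Lam x i) (Hu - Hl)) *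
          fderiv ℝ (P.chi R.x₀ α) x (ev i) := by
    rw [Finset.mul_sum, Finset.mul_sum, ← Finset.sum_sub_distrib]
    refine Finset.sum_congr rfl fun i _ => ?_
    simp only [inner_sub_left, inner_smul_left, inner_sub_right, conj_trivial]
    ring
  rw [hsplit]
  refine (Finset.abs_sum_le_sum_abs _ _).trans ?_
  set Y := Cv * (pf.fl x ^ (n - 2) * gn (pf.g x) + gn (pf.g x) ^ (n - 1)) *
      (C₀ * d * (σ + ‖pf.v x‖)) +
      (pf.a * p2 α) ^ (n - 2) * (p2 α * (C₀ * d * (σ * ‖pf.v x‖ + pf.a * ‖pf.v x‖ ^ 2))) with hY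
  have ha := pf.a_nonneg
  have hY0 : 0 ≤ Y := by
    have := norm_nonneg (pf.v x)
    positivity
  have hterm : ∀ i ∈ (Finset.univ : Finset (Fin n)),
      |(inner ℝ (D.f x ^ (n - 2) • D.G x i - pf.fl x ^ (n - 2) • pf.Lam x i) Hu +
        pf.fl x ^ (n - 2) * inner ℝ (pf.Lam x i) (Hu - Hl)) *
          fderiv ℝ (P.chi R.x₀ α) x (ev i)| ≤ Y * (P.Lκ * p2 α) := by
    intro i _
    rw [abs_mul]
    refine mul_le_mul ?_ (hχ i) (abs_nonneg _) hY0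
    refine (abs_add_le _ _).trans (add_le_add ?_ ?_)
    · refine (abs_real_inner_le_norm _ _).trans ?_
      exact mul_le_mul (hvd' i) h2 (norm_nonneg _) (by positivity)
    · rw [abs_mul, abs_of_nonneg (pow_nonneg f0 _)]
      exact mul_le_mul (pow_le_pow_left₀ f0 f1 _) (hLam i) (abs_nonneg _)
        (pow_nonneg (f0.trans f1) _)
  refine (Finset.sum_le_sum hterm).trans (le_of_eq ?_)
  rw [Finset.sum_const, Finset.card_univ, Fintype.card_fin, nsmul_eq_mul, hY]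
  ring

theorem pay_r {n m : ℕ} (P : Par n m) (Cp : ℝ) (hCp : 1 ≤ Cp) (C₀ t : ℝ) (hC₀ : 1 ≤ C₀)
    (ht : 0 < t) :
    Uni P (fun C D R => ∀ (α β : ℕ) (pf : Pf R Cp α β), α + 2 ≤ β → ∀ (q q' : E m) (d σ : ℝ),
      RD pf C₀ q q' d σ →
      |(∫ x in rg R.x₀ α ∩ R.S, D.f x ^ (n - 2) *
          ∑ i, inner ℝ (D.G x i) (P.F q' (D.u x) - P.F q (D.u x)) *
            fderiv ℝ (P.chi R.x₀ α) x (ev i)) -
        ∫ x in rg R.x₀ α ∩ R.S, pf.fl x ^ (n - 2) *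
          ∑ i, inner ℝ (pf.Lam x i) (P.F q' (pf.lam x) - P.F q (pf.lam x)) *
            fderiv ℝ (P.chi R.x₀ α) x (ev i)| ≤
        t * d * pf.a ^ (n - 2) * σ ^ 2 + C * (pf.Zp α + pf.Er α)) := by
  have hn := P.hn
  have hL : 1 ≤ P.Lκ := P.hκ.one_le
  have hn1 : (1 : ℝ) ≤ n := by exact_mod_cast (by omega : 1 ≤ n)
  obtain ⟨Cv, hCv, hvd⟩ := vec_diff (m := m) hn
  obtain ⟨Cf, t1, hCf, ht1, Hf⟩ := pf_f P Cp hCp
  obtain ⟨Cc, t2, hCc, ht2, Hc⟩ := pf_c P Cp hCp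
  obtain ⟨_, t3, _, ht3, Hb⟩ := b_pow P
  obtain ⟨Cg, hCg, Hg⟩ := pf_gn P Cp hCp
  obtain ⟨Cw, hCw, Hw⟩ := fr_vol n (by omega)
  set K1 : ℝ := n * Cv * C₀ * P.Lκ with hK1
  set K2 : ℝ := n * C₀ * P.Lκ with hK2
  have hK10 : 0 < K1 := by positivity
  have hK20 : 0 < K2 := by positivity
  set τ : ℝ := t / ((2 * K1 + K2) * Cw) with hτ
  have hτ0 : 0 < τ := by positivity
  set K3 : ℝ := K1 * (1 / (2 * τ) + τ + 2) + K2 * (1 / (4 * τ) + Cp) with hK3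
  have hK30 : 0 ≤ K3 := by positivity
  set K : ℝ := C₀ * K3 * (1 + Cf * (Cc + 1) + Cf) + 1 with hK
  have hKK : 0 ≤ C₀ * K3 * (1 + Cf * (Cc + 1) + Cf) := by positivity
  refine ⟨K, min t1 (min t2 t3), by linarith, lt_min ht1 (lt_min ht2 ht3), ?_⟩
  intro Q C₅ t₀ hC5 ht0 hle
  obtain ⟨e, he, he1, H1⟩ := Hf Q C₅ t₀ hC5 ht0 (hle.trans (min_le_left _ _))
  obtain ⟨e', he', _, H2⟩ := Hc Q C₅ t₀ hC5 ht0
    (hle.trans ((min_le_right _ _).trans (min_le_left _ _)))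
  obtain ⟨e'', he'', _, H3⟩ := Hb Q C₅ t₀ hC5 ht0
    (hle.trans ((min_le_right _ _).trans (min_le_right _ _)))
  refine ⟨min e (min e' e''), lt_min he (lt_min he' he''), (min_le_left _ _).trans he1, ?_⟩
  intro D R hR α β pf hαβ q q' d σ hRD
  obtain ⟨F1, F2⟩ := H1 D R (hR.mono (min_le_left _ _)) α β pf hαβ α (Or.inl rfl)
  obtain ⟨G1, G2, G3⟩ := H2 D R (hR.mono ((min_le_right _ _).trans (min_le_left _ _))) α β pf hαβ
    α le_rfl pf.lt.le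
  have hSm : MeasurableSet R.S := (H3 D R (hR.mono ((min_le_right _ _).trans (min_le_right _ _)))).1
  have hd := hRD.d_nonneg
  have hdC := hRD.d_le
  have hσ := hRD.σ_nonneg
  have hσa := hRD.σ_le
  have ha := pf.a_nonneg
  have hp := wps_p2_pos α
  have haC : pf.a ≤ Cp := by
    have h1 := pf.a_le
    have h2 := R.e_le
    exact h1.trans (mul_le_of_le_one_right (by linarith) h2)
  have hf0 : ∀ x, 0 ≤ D.f x := fun x => Real.sqrt_nonneg _
  obtain ⟨hVG, hvm, hlc, hLc, hflc, hzm, hfl0, hz0, hv2⟩ := pf_vg pf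
  have hDj0 : 0 ≤ R.Dj α := integral_nonneg fun x => pow_nonneg (Real.sqrt_nonneg _) n
  have hEr0 : 0 ≤ pf.Er α :=
    mul_nonneg (pow_nonneg R.e_pos.le _) (add_nonneg hDj0 (pow_nonneg ha n))
  have hα1 := wle_alpha pf
  have hgf := (Hg D R α β pf hαβ hSm).1
  have hZZ : pf.Z α ≤ pf.Zp α := by
    unfold Pf.Zp
    have z1 := (hgf (α - 1) le_rfl (by omega)).2.2.2.2.1
    have z3 := (hgf (α + 1) (by omega) (by omega)).2.2.2.2.1
    linarith
  have hZ0 : 0 ≤ pf.Z α := (hgf α (by omega) (by omega)).2.2.2.2.1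
  have hzint : IntegrableOn pf.z (rg R.x₀ α ∩ R.S) :=
    ((hgf α (by omega) (by omega)).2.2.1).mono_set
      (inter_subset_left.trans (fr_eq R.x₀ α hα1).2.1)
  set A : Set (E n) := rg R.x₀ α ∩ R.S with hA
  have hAm : MeasurableSet A := (rg_meas R.x₀ α).1.inter hSm
  have hAv : volume A < ⊤ := lt_of_le_of_lt (measure_mono inter_subset_left) (wls_vol R.x₀ α)
  have hfin : IsFiniteMeasure (volume.restrict A) := ⟨by rwa [Measure.restrict_apply_univ]⟩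
  have hAvol : p2 α ^ n * (volume A).toReal ≤ Cw := by
    have h1 := (Hw R.x₀ α).2.2.1
    have h2 : (volume A).toReal ≤ (volume (rg R.x₀ α)).toReal :=
      ENNReal.toReal_mono (wls_vol R.x₀ α).ne (measure_mono inter_subset_left)
    have h3 := mul_le_mul_of_nonneg_left h2 (pow_nonneg hp.le n)
    linarith
  have hwint : ∀ k : ℕ, IntegrableOn (fun x => ‖pf.v x‖ ^ k) A := by
    intro k
    refine (integrable_const ((2 * P.CT) ^ k)).mono' (hvm.norm.pow_const k).aestronglyMeasurable ?_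
    filter_upwards [ae_restrict_of_ae hv2] with x hx
    rw [Real.norm_of_nonneg (pow_nonneg (norm_nonneg _) _)]
    exact pow_le_pow_left₀ (norm_nonneg _) hx k
  -- the two integrands
  have hχc : ∀ i : Fin n, Continuous (fun x => fderiv ℝ (P.chi R.x₀ α) x (ev i)) := fun i =>
    ((chi_facts P R.x₀ α).1.continuous_fderiv (by simp)).clm_apply continuous_const
  have hFc : ∀ p, Continuous (P.F p) := fun p =>
    (P.hG.smooth.comp (contDiff_const.prodMk contDiff_id)).continuous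
  have hχ : ∀ x, ∀ i : Fin n, |fderiv ℝ (P.chi R.x₀ α) x (ev i)| ≤ P.Lκ * p2 α := by
    intro x i
    have := (chi_facts P R.x₀ α).2.2.2.2.2.1 x (ev i)
    rwa [wle_ev, mul_one] at this
  have hbd2 : ∀ y, ‖P.F q' y - P.F q y‖ ≤ 2 := by
    intro y
    refine (norm_sub_le _ _).trans ?_
    have h1 := P.hG.bd q' y
    have h2 := P.hG.bd q y
    linarith
  have hIi : IntegrableOn (fun x => D.f x ^ (n - 2) *
          ∑ i, inner ℝ (D.G x i) (P.F q' (D.u x) - P.F q (D.u x)) *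
            fderiv ℝ (P.chi R.x₀ α) x (ev i)) A := by
    refine ((win2_int D).integrableOn.const_mul (n * (2 * (P.Lκ * p2 α)))).mono' ?_ ?_
    · refine Measurable.aestronglyMeasurable ?_
      refine (D.hf.meas.pow_const (n - 2)).mul (Finset.measurable_sum _ fun i _ => ?_)
      refine ((D.hS.meas_G i).inner ?_).mul (hχc i).measurable
      exact ((hFc q').measurable.comp D.hS.meas_u).sub ((hFc q).measurable.comp D.hS.meas_u)
    · refine Eventually.of_forall fun x => ?_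
      have hs := wls_sum' (D.G x) (P.F q' (D.u x) - P.F q (D.u x))
        (fun i => fderiv ℝ (P.chi R.x₀ α) x (ev i)) (P.Lκ * p2 α) (hχ x)
      have epow : D.f x ^ (n - 2) * D.f x = D.f x ^ (n - 1) := by
        rw [← pow_succ]; congr 1; omega
      rw [Real.norm_eq_abs, abs_mul, abs_of_nonneg (pow_nonneg (hf0 x) _)]
      have hfx := hf0 x
      have h5 : (n : ℝ) * (gn (D.G x) * ‖P.F q' (D.u x) - P.F q (D.u x)‖ * (P.Lκ * p2 α)) ≤
          n * (D.f x * 2 * (P.Lκ * p2 α)) := by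
        have : gn (D.G x) = D.f x := rfl
        rw [this]
        have := hbd2 (D.u x)
        gcongr
      refine (mul_le_mul_of_nonneg_left (hs.trans h5) (pow_nonneg hfx _)).trans (le_of_eq ?_)
      show _ = n * (2 * (P.Lκ * p2 α)) * D.f x ^ (n - 1)
      rw [← epow]
      ring
  have hJi : IntegrableOn (fun x => pf.fl x ^ (n - 2) *
          ∑ i, inner ℝ (pf.Lam x i) (P.F q' (pf.lam x) - P.F q (pf.lam x)) *
            fderiv ℝ (P.chi R.x₀ α) x (ev i)) A := by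
    have hc : Continuous (fun x => pf.fl x ^ (n - 2) *
          ∑ i, inner ℝ (pf.Lam x i) (P.F q' (pf.lam x) - P.F q (pf.lam x)) *
            fderiv ℝ (P.chi R.x₀ α) x (ev i)) := by
      refine (hflc.pow _).mul (continuous_finsetSum _ fun i _ => ?_)
      exact ((hLc i).inner (((hFc q').comp hlc).sub ((hFc q).comp hlc))).mul (hχc i)
    refine (hc.continuousOn.integrableOn_compact
      (isCompact_closedBall R.x₀ (2 / p2 α))).mono_set ?_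
    rintro x ⟨hx, -⟩
    rw [mem_closedBall, dist_eq_norm]
    exact hx.2
  rw [← integral_sub hIi hJi]
  have hBint : IntegrableOn (fun x => d * ((2 * K1 + K2) * τ *
      ((pf.a * p2 α) ^ (n - 2) * p2 α ^ 2 * σ ^ 2)) + d * K3 *
      (pf.z x + (pf.a * p2 α) ^ (n - 2) * p2 α ^ 2 * ‖pf.v x‖ ^ 2 +
        p2 α ^ n * ‖pf.v x‖ ^ n)) A := by
    refine (integrable_const _).add (Integrable.const_mul ?_ _)
    exact (hzint.add ((hwint 2).const_mul _)).add ((hwint n).const_mul _)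
  have hmain : |∫ x in A, ((D.f x ^ (n - 2) *
          ∑ i, inner ℝ (D.G x i) (P.F q' (D.u x) - P.F q (D.u x)) *
            fderiv ℝ (P.chi R.x₀ α) x (ev i)) - pf.fl x ^ (n - 2) *
          ∑ i, inner ℝ (pf.Lam x i) (P.F q' (pf.lam x) - P.F q (pf.lam x)) *
            fderiv ℝ (P.chi R.x₀ α) x (ev i))| ≤
      ∫ x in A, (d * ((2 * K1 + K2) * τ *
      ((pf.a * p2 α) ^ (n - 2) * p2 α ^ 2 * σ ^ 2)) + d * K3 *
      (pf.z x + (pf.a * p2 α) ^ (n - 2) * p2 α ^ 2 * ‖pf.v x‖ ^ 2 +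
        p2 α ^ n * ‖pf.v x‖ ^ n)) := by
    rw [← Real.norm_eq_abs]
    refine norm_integral_le_of_norm_le hBint ?_
    refine (ae_restrict_iff' hAm).2 ?_
    filter_upwards [hRD.pt] with x hx hxA
    obtain ⟨-, b2, b3⟩ := hx hxA.1 hxA.2
    rw [Real.norm_eq_abs]
    refine (payr_pt P Cv hCv hvd pf C₀ hC₀ q q' d σ hd hσ x hxA.1 b2 b3).trans ?_
    obtain ⟨-, f0, f1⟩ := wls_fl pf x α le_rfl pf.lt.le hxA.1
    have hx3 := wps_norm R.hx hxA.1
    obtain ⟨-, -, -, -, z1, z2, -⟩ := pf_in pf x (by linarith)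
    have hal := payr_alg n hn (p2 α) (pf.fl x) (gn (pf.g x)) ‖pf.v x‖ σ pf.a (pf.z x) τ Cp hp f0
      (Real.sqrt_nonneg _) (norm_nonneg _) hσ hσa haC f1 hτ0 z1 z2 K1 K2 hK10.le hK20.le
    have := mul_le_mul_of_nonneg_left hal hd
    linarith
  refine hmain.trans ?_
  have hi1 : Integrable (fun _ : E n => d * ((2 * K1 + K2) * τ *
      ((pf.a * p2 α) ^ (n - 2) * p2 α ^ 2 * σ ^ 2))) (volume.restrict A) := integrable_const _
  have hi2 : Integrable (fun x => (pf.a * p2 α) ^ (n - 2) * p2 α ^ 2 * ‖pf.v x‖ ^ 2)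
      (volume.restrict A) := (hwint 2).const_mul _
  have hi3 : Integrable (fun x => p2 α ^ n * ‖pf.v x‖ ^ n) (volume.restrict A) :=
    (hwint n).const_mul _
  have hi23 : Integrable (fun x => pf.z x + (pf.a * p2 α) ^ (n - 2) * p2 α ^ 2 * ‖pf.v x‖ ^ 2)
      (volume.restrict A) := hzint.add hi2
  have hi4 : Integrable (fun x => d * K3 * (pf.z x +
      (pf.a * p2 α) ^ (n - 2) * p2 α ^ 2 * ‖pf.v x‖ ^ 2 + p2 α ^ n * ‖pf.v x‖ ^ n))
      (volume.restrict A) := (hi23.add hi3).const_mul _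
  rw [integral_add hi1 hi4, integral_const_mul (d * K3), integral_add hi23 hi3,
    integral_add hzint hi2, integral_const_mul ((pf.a * p2 α) ^ (n - 2) * p2 α ^ 2),
    integral_const_mul (p2 α ^ n), integral_const, smul_eq_mul,
    Measure.real, Measure.restrict_apply_univ]
  have hZeq : ∫ x in A, pf.z x = pf.Z α := rfl
  rw [hZeq]
  have hpow : (pf.a * p2 α) ^ (n - 2) * p2 α ^ 2 = pf.a ^ (n - 2) * p2 α ^ n := by
    rw [mul_pow, mul_assoc, ← pow_add]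
    congr 2
    omega
  rw [hpow]
  have han : 0 ≤ pf.a ^ (n - 2) := pow_nonneg ha _
  -- first term
  have w1 : (volume A).toReal * (d * ((2 * K1 + K2) * τ * (pf.a ^ (n - 2) * p2 α ^ n * σ ^ 2))) ≤
      t * d * pf.a ^ (n - 2) * σ ^ 2 := by
    have h1 : (2 * K1 + K2) * τ * Cw = t := by
      rw [hτ]
      field_simp
    have h2 : 0 ≤ d * ((2 * K1 + K2) * τ * (pf.a ^ (n - 2) * σ ^ 2)) := by positivity
    have h3 := mul_le_mul_of_nonneg_left hAvol h2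
    calc (volume A).toReal * (d * ((2 * K1 + K2) * τ * (pf.a ^ (n - 2) * p2 α ^ n * σ ^ 2)))
        = d * ((2 * K1 + K2) * τ * (pf.a ^ (n - 2) * σ ^ 2)) *
          (p2 α ^ n * (volume A).toReal) := by ring
      _ ≤ d * ((2 * K1 + K2) * τ * (pf.a ^ (n - 2) * σ ^ 2)) * Cw := h3
      _ = ((2 * K1 + K2) * τ * Cw) * d * pf.a ^ (n - 2) * σ ^ 2 := by ring
      _ = _ := by rw [h1]
  -- second term
  have hT1 : pf.a ^ (n - 2) * (pf.a * (1 / 2) ^ R.T) ^ 2 ≤ pf.Er α := by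
    have h1 : (1 / 2 : ℝ) ^ R.T ≤ R.e ^ (R.Q + 3) :=
      R.T1.trans (pow_le_pow_of_le_one R.e_pos.le R.e_le (by omega))
    have h0 : (0 : ℝ) ≤ (1 / 2) ^ R.T := by positivity
    have h2 : (1 / 2 : ℝ) ^ R.T ≤ 1 := pow_le_one₀ (by norm_num) (by norm_num)
    have h3 : ((1 / 2 : ℝ) ^ R.T) ^ 2 ≤ R.e ^ (R.Q + 3) := by
      calc ((1 / 2 : ℝ) ^ R.T) ^ 2 = (1 / 2) ^ R.T * (1 / 2) ^ R.T := sq _
        _ ≤ 1 * (1 / 2) ^ R.T := mul_le_mul_of_nonneg_right h2 h0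
        _ = (1 / 2) ^ R.T := one_mul _
        _ ≤ _ := h1
    have h4 : pf.a ^ (n - 2) * pf.a ^ 2 = pf.a ^ n := by
      rw [← pow_add]; congr 1; omega
    have hann : 0 ≤ pf.a ^ n := pow_nonneg ha n
    calc pf.a ^ (n - 2) * (pf.a * (1 / 2) ^ R.T) ^ 2 = pf.a ^ n * ((1 / 2) ^ R.T) ^ 2 := by
          rw [mul_pow, ← mul_assoc, h4]
      _ ≤ pf.a ^ n * R.e ^ (R.Q + 3) := mul_le_mul_of_nonneg_left h3 hann
      _ ≤ pf.Er α := by
          unfold Pf.Er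
          have : 0 ≤ R.e ^ (R.Q + 3) * R.Dj α := mul_nonneg (pow_nonneg R.e_pos.le _) hDj0
          linarith
  set ZE := pf.Zp α + pf.Er α with hZE
  have hZE0 : 0 ≤ ZE := by linarith
  have w2 : pf.a ^ (n - 2) * p2 α ^ n * (∫ x in A, ‖pf.v x‖ ^ 2) ≤ Cf * (Cc + 1) * ZE := by
    have h1 := mul_le_mul_of_nonneg_left F1 han
    have h2 : pf.a ^ (n - 2) * (Cf * (pf.Gg α ^ 2 + (pf.a * (1 / 2) ^ R.T) ^ 2)) ≤
        Cf * (Cc * ZE + pf.Er α) := by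
      have h3 : pf.a ^ (n - 2) * pf.Gg α ^ 2 + pf.a ^ (n - 2) * (pf.a * (1 / 2) ^ R.T) ^ 2 ≤
          Cc * ZE + pf.Er α := add_le_add G2 hT1
      have h4 := mul_le_mul_of_nonneg_left h3 (by linarith : (0 : ℝ) ≤ Cf)
      linarith
    have h5 : Cf * (Cc * ZE + pf.Er α) ≤ Cf * (Cc + 1) * ZE := by
      have : pf.Er α ≤ ZE := by linarith
      have := mul_le_mul_of_nonneg_left this (by linarith : (0 : ℝ) ≤ Cf)
      linarith
    have e1 : pf.a ^ (n - 2) * p2 α ^ n * (∫ x in A, ‖pf.v x‖ ^ 2) =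
        pf.a ^ (n - 2) * (p2 α ^ n * ∫ x in A, ‖pf.v x‖ ^ 2) := by ring
    rw [e1]
    exact h1.trans (h2.trans h5)
  have w3 : p2 α ^ n * (∫ x in A, ‖pf.v x‖ ^ n) ≤ Cf * ZE := F2
  have w4 : pf.Z α ≤ ZE := by linarith
  have w5 : pf.Z α + pf.a ^ (n - 2) * p2 α ^ n * (∫ x in A, ‖pf.v x‖ ^ 2) +
      p2 α ^ n * (∫ x in A, ‖pf.v x‖ ^ n) ≤ (1 + Cf * (Cc + 1) + Cf) * ZE := by linarith
  have w6 : d * K3 * (pf.Z α + pf.a ^ (n - 2) * p2 α ^ n * (∫ x in A, ‖pf.v x‖ ^ 2) +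
      p2 α ^ n * (∫ x in A, ‖pf.v x‖ ^ n)) ≤ C₀ * K3 * (1 + Cf * (Cc + 1) + Cf) * ZE := by
    have h1 := mul_le_mul_of_nonneg_left w5 (mul_nonneg hd hK30)
    have h2 : 0 ≤ (1 + Cf * (Cc + 1) + Cf) * ZE := by positivity
    have h3 : d * K3 * ((1 + Cf * (Cc + 1) + Cf) * ZE) ≤
        C₀ * K3 * ((1 + Cf * (Cc + 1) + Cf) * ZE) :=
      mul_le_mul_of_nonneg_right (mul_le_mul_of_nonneg_right hdC hK30) h2
    linarith
  have w7 : C₀ * K3 * (1 + Cf * (Cc + 1) + Cf) * ZE ≤ K * ZE :=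
    mul_le_mul_of_nonneg_right (by linarith) hZE0
  linarith

end H60NT
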