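import Pool.Agent.H60.NT.PayM
import Pool.Agent.H60.NT.PayR
import Pool.Agent.H60.NT.El
import Pool.Agent.H60.NT.Win2

/-!
# [H60 NT PAY] Payment in the ring `α`
-/

set_option autoImplicit false

namespace H60NT

open H60NH MeasureTheory Metric Set Filter Topology
open scoped ENNReal NNReal ContDiff

theorem pay {n m : ℕ} (P : Par n m) (Cp : ℝ) (hCp : 1 ≤ Cp) : Uni P (fun C D R =>
    ∀ (α β : ℕ) (pf : Pf R Cp α β), α + 2 ≤ β → ∀ q ∈ P.N,
      P.r₁ < P.dd q (pf.Γ (Real.log (p2 α) - Real.log 2)) →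
      P.dd q (pf.Γ (Real.log (p2 α) - Real.log 2)) ≤ P.r₁ + 2 * P.ρ₀ →
      ∃ q' ∈ P.N, P.dd q' (pf.Γ (Real.log (p2 α) - Real.log 2)) = P.r₁ ∧
        D.Phi (P.chi R.x₀ α) q' - D.Phi (P.chi R.x₀ α) q ≤ C * (pf.Zp α + pf.Er α)) := by
  have hn := P.hn
  have hL : 1 ≤ P.Lκ := P.hκ.one_le
  obtain ⟨C₀, t1, hC0, ht1, Hp⟩ := pay_p P Cp hCp
  obtain ⟨C', t2, hC', ht2, Hm⟩ := pay_m P Cp hCp C₀ hC0
  have hC'pos : 0 < C' := by linarith
  obtain ⟨C'', t3, hC'', ht3, Hr⟩ := pay_r P Cp hCp C₀ (1 / C') hC0 (by positivity)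
  obtain ⟨_, t4, _, ht4, Ho⟩ := out_int P
  obtain ⟨_, t5, _, ht5, Hb⟩ := b_pow P
  obtain ⟨Cg, hCg, Hg⟩ := pf_gn P Cp hCp
  obtain ⟨ε₁, hε₁, Hel⟩ := el_id P
  set K : ℝ := C' + C'' + 2 * n * P.Lκ with hK
  have hnL : 0 ≤ 2 * n * P.Lκ := by positivity
  refine ⟨K, min t1 (min t2 (min t3 (min t4 t5))), by linarith,
    lt_min ht1 (lt_min ht2 (lt_min ht3 (lt_min ht4 ht5))), ?_⟩
  intro Q C₅ t₀ hC5 ht0 hle
  have l1 := hle.trans (min_le_left _ _)
  have l2' := hle.trans (min_le_right _ _)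
  have l2 := l2'.trans (min_le_left _ _)
  have l3' := l2'.trans (min_le_right _ _)
  have l3 := l3'.trans (min_le_left _ _)
  have l4' := l3'.trans (min_le_right _ _)
  have l4 := l4'.trans (min_le_left _ _)
  have l5 := l4'.trans (min_le_right _ _)
  obtain ⟨e1, he1, he1', H1⟩ := Hp Q C₅ t₀ hC5 ht0 l1
  obtain ⟨e2, he2, _, H2⟩ := Hm Q C₅ t₀ hC5 ht0 l2
  obtain ⟨e3, he3, _, H3⟩ := Hr Q C₅ t₀ hC5 ht0 l3
  obtain ⟨e4, he4, _, H4⟩ := Ho Q C₅ t₀ hC5 ht0 l4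
  obtain ⟨e5, he5, _, H5⟩ := Hb Q C₅ t₀ hC5 ht0 l5
  refine ⟨min e1 (min e2 (min e3 (min e4 (min e5 ε₁)))),
    lt_min he1 (lt_min he2 (lt_min he3 (lt_min he4 (lt_min he5 hε₁)))),
    (min_le_left _ _).trans he1', ?_⟩
  intro D R hR α β pf hαβ q hq hq1 hq2
  have m2 := (min_le_right e1 (min e2 (min e3 (min e4 (min e5 ε₁)))))
  have m3 := m2.trans (min_le_right _ _)
  have m4 := m3.trans (min_le_right _ _)
  have m5 := m4.trans (min_le_right _ _)
  have m6 := m5.trans (min_le_right _ _)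
  have R1 := hR.mono (min_le_left _ _)
  have R2 := hR.mono (m2.trans (min_le_left _ _))
  have R3 := hR.mono (m3.trans (min_le_left _ _))
  have R4 := hR.mono (m4.trans (min_le_left _ _))
  have R5 := hR.mono (m5.trans (min_le_left _ _))
  have hDε : D.ε ≤ ε₁ := hR.ε_le.trans m6
  obtain ⟨q', hq', hdd, d, σ, hRD⟩ := H1 D R R1 α β pf hαβ q hq hq1 hq2
  refine ⟨q', hq', hdd, ?_⟩
  have hmain := H2 D R R2 α β pf hαβ q q' d σ hRD
  have hrem := H3 D R R3 α β pf hαβ q q' d σ hRD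
  have hout := (H4 D R R4 α pf.ge).1
  have hSm : MeasurableSet R.S := (H5 D R R5).1
  have hf0 : ∀ x, 0 ≤ D.f x := fun x => Real.sqrt_nonneg _
  have ha := pf.a_nonneg
  have hDj0 : 0 ≤ R.Dj α := integral_nonneg fun x => pow_nonneg (Real.sqrt_nonneg _) n
  have hee : R.e ^ (R.Q + 4) ≤ R.e ^ (R.Q + 3) :=
    pow_le_pow_of_le_one R.e_pos.le R.e_le (by omega)
  have hEr : R.e ^ (R.Q + 4) * R.Dj α ≤ pf.Er α := by
    have h1 : R.e ^ (R.Q + 4) * R.Dj α ≤ R.e ^ (R.Q + 3) * R.Dj α :=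
      mul_le_mul_of_nonneg_right hee hDj0
    refine h1.trans (mul_le_mul_of_nonneg_left ?_ (pow_nonneg R.e_pos.le _))
    linarith [pow_nonneg ha n]
  have hEr0 : 0 ≤ pf.Er α :=
    mul_nonneg (pow_nonneg R.e_pos.le _) (add_nonneg hDj0 (pow_nonneg ha n))
  have hZ0 : 0 ≤ pf.Zp α := by
    have hg := (Hg D R α β pf hαβ hSm).1
    unfold Pf.Zp
    have z1 := (hg (α - 1) le_rfl (by omega)).2.2.2.2.1
    have z2 := (hg α (by omega) (by omega)).2.2.2.2.1
    have z3 := (hg (α + 1) (by omega) (by omega)).2.2.2.2.1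
    linarith
  obtain ⟨c1, c2, c3, c4, -, c6, c7, -⟩ := chi_facts P R.x₀ α
  have hα1 := wle_alpha pf
  have hsupp : ∀ x, P.chi R.x₀ α x ≠ 0 → x ∈ ball (0 : E n) 2 := by
    intro x hx
    have h1 : ‖x - R.x₀‖ < 2 / p2 α := by
      by_contra hc
      exact hx (c4 x (not_lt.1 hc))
    have h3 : 2 / p2 α ≤ 1 := by
      have h4 := wps_p2_mono hα1
      have h5 : p2 1 = 2 := by unfold p2; norm_num
      rw [div_le_one (wps_p2_pos α)]
      linarith
    rw [mem_ball_zero_iff]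
    have h4 : ‖x‖ ≤ ‖x - R.x₀‖ + ‖R.x₀‖ := by
      have := norm_add_le (x - R.x₀) R.x₀
      rwa [sub_add_cancel] at this
    have := R.hx
    linarith
  obtain ⟨i1, p1⟩ := Hel D hDε _ c1 hsupp q hq
  obtain ⟨i2, p2'⟩ := Hel D hDε _ c1 hsupp q' hq'
  set I : E n → ℝ := fun x => D.f x ^ (n - 2) *
    ∑ i, inner ℝ (D.G x i) (P.F q' (D.u x) - P.F q (D.u x)) *
      fderiv ℝ (P.chi R.x₀ α) x (ev i) with hI
  have hIeq : ∀ x, I x = (D.f x ^ (n - 2) * ∑ i, inner ℝ (D.G x i) (P.F q' (D.u x)) *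
      fderiv ℝ (P.chi R.x₀ α) x (ev i)) - (D.f x ^ (n - 2) *
      ∑ i, inner ℝ (D.G x i) (P.F q (D.u x)) * fderiv ℝ (P.chi R.x₀ α) x (ev i)) := by
    intro x
    rw [hI, ← mul_sub, ← Finset.sum_sub_distrib]
    simp only
    congr 1
    refine Finset.sum_congr rfl fun i _ => ?_
    rw [inner_sub_right]
    ring
  have hIi : Integrable I := by
    have := i2.sub i1
    refine this.congr (Eventually.of_forall fun x => ?_)
    exact (hIeq x).symm
  have hIint : ∫ x, I x = D.Fl (P.chi R.x₀ α) q' - D.Fl (P.chi R.x₀ α) q := by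
    rw [integral_congr_ae (Eventually.of_forall hIeq), integral_sub i2 i1]
    rfl
  have hrm := (rg_meas R.x₀ α).1
  have hI0 : ∀ x, x ∉ rg R.x₀ α → I x = 0 := by
    intro x hx
    rw [hI]
    simp only
    rw [c7 x hx]
    simp
  have hIr : ∫ x, I x = ∫ x in rg R.x₀ α, I x :=
    (setIntegral_eq_integral_of_forall_compl_eq_zero hI0).symm
  have hsplit : ∫ x in rg R.x₀ α, I x =
      (∫ x in rg R.x₀ α ∩ R.S, I x) + ∫ x in rg R.x₀ α \ R.S, I x :=
    (integral_inter_add_diff hSm hIi.integrableOn).symm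
  have hbad : |∫ x in rg R.x₀ α \ R.S, I x| ≤ 2 * n * P.Lκ * pf.Er α := by
    refine (abs_integral_le_integral_abs).trans ?_
    have hb : ∀ᵐ x, x ∈ rg R.x₀ α \ R.S → |I x| ≤
        2 * n * P.Lκ * p2 α * D.f x ^ (n - 1) + 0 := by
      refine Eventually.of_forall fun x _ => ?_
      have hp := wps_p2_pos α
      have hs := wls_sum' (D.G x) (P.F q' (D.u x) - P.F q (D.u x))
        (fun i => fderiv ℝ (P.chi R.x₀ α) x (ev i)) (P.Lκ * p2 α) (fun i => by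
          have := c6 x (ev i)
          rwa [wle_ev, mul_one] at this)
      have hF : ‖P.F q' (D.u x) - P.F q (D.u x)‖ ≤ 2 := by
        refine (norm_sub_le _ _).trans ?_
        have h1 := P.hG.bd q' (D.u x)
        have h2 := P.hG.bd q (D.u x)
        linarith
      have epow : D.f x ^ (n - 2) * D.f x = D.f x ^ (n - 1) := by
        rw [← pow_succ]; congr 1; omega
      rw [hI]
      simp only
      rw [abs_mul, abs_of_nonneg (pow_nonneg (hf0 x) _), add_zero]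
      have hfx := hf0 x
      have h5 : (n : ℝ) * (gn (D.G x) * ‖P.F q' (D.u x) - P.F q (D.u x)‖ * (P.Lκ * p2 α)) ≤
          n * (D.f x * 2 * (P.Lκ * p2 α)) := by
        have : gn (D.G x) = D.f x := rfl
        rw [this]
        gcongr
      refine (mul_le_mul_of_nonneg_left (hs.trans h5) (pow_nonneg hfx _)).trans (le_of_eq ?_)
      rw [← epow]
      ring
    have hv : volume (rg R.x₀ α \ R.S) < ⊤ :=
      lt_of_le_of_lt (measure_mono diff_subset) (wls_vol R.x₀ α)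
    refine (wls_dom (hrm.diff hSm) hv (win2_int D) hb).trans ?_
    rw [zero_mul, add_zero]
    have k1 := mul_le_mul_of_nonneg_left (hout.trans hEr) hnL
    linarith
  have hphi : D.Phi (P.chi R.x₀ α) q' - D.Phi (P.chi R.x₀ α) q = - ∫ x, I x := by
    rw [p1, p2', hIint]
    ring
  rw [hphi, hIr, hsplit]
  have b1 := abs_le.1 hrem
  have b2 := abs_le.1 hbad
  have hKE : (C' + C'' + 2 * n * P.Lκ) * (pf.Zp α + pf.Er α) = K * (pf.Zp α + pf.Er α) := by
    rw [hK]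
  have x1 : 0 ≤ C' * pf.Zp α := mul_nonneg hC'pos.le hZ0
  have x2 : 0 ≤ 2 * n * P.Lκ * pf.Zp α := mul_nonneg hnL hZ0
  have b11 := b1.1
  have b21 := b2.1
  rw [← hKE]
  change -(1 / C' * d * pf.a ^ (n - 2) * σ ^ 2 + C'' * (pf.Zp α + pf.Er α)) ≤
    (∫ x in rg R.x₀ α ∩ R.S, I x) - _ at b11
  linarith

end H60NT
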