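import Pool.Agent.H60.NT.VGDef
import Pool.Agent.H60.NT.DInt
import Pool.Agent.H60.NT.PfB

/-!
# [H60 NT PFVG] `v` and `g` form a pair (function, weak gradient)

`lam` is `C^1` with bounded values (`lam_mem`, `N` compact) and its derivative is bounded on the closed ball of
radius 64; for smooth `ψ` with compact support in `ball 0 64`: `∫ (∂_i ψ) lam = - ∫ ψ ∂_i lam` (integration by parts for
`C^1` functions, `integral_mul_fderiv_eq_neg_fderiv_mul_of_integrable` or componentwise); subtract from `D.hS.wg.eq`.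
`MemLp`: bounded functions on a ball. Measurability of `g`: `D.hS.meas_G`, continuity of `Lam`. On the ball:
`‖v x‖ ≤ 2 CT` (`TC.bdN`) a.e.
-/

set_option autoImplicit false

namespace H60NT

open H60NH MeasureTheory Metric Set Filter Topology
open scoped ENNReal NNReal ContDiff

private theorem pvg_gn {n m : ℕ} (a : Fin n → E m) :
    gn a = ‖(WithLp.toLp 2 a : PiLp 2 (fun _ : Fin n => E m))‖ := by
  rw [PiLp.norm_eq_of_L2]
  rfl

private theorem pvg_add {n m : ℕ} (a b : Fin n → E m) : gn (fun i => a i + b i) ≤ gn a + gn b := by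
  rw [pvg_gn, pvg_gn, pvg_gn]
  exact norm_add_le (WithLp.toLp 2 a : PiLp 2 (fun _ : Fin n => E m)) (WithLp.toLp 2 b)

private theorem pvg_sub {n m : ℕ} (a b : Fin n → E m) : gn (fun i => a i - b i) ≤ gn a + gn b := by
  rw [pvg_gn, pvg_gn, pvg_gn]
  exact norm_sub_le (WithLp.toLp 2 a : PiLp 2 (fun _ : Fin n => E m)) (WithLp.toLp 2 b)

/-- Inside the ball of radius 64. -/
theorem pf_in {n m : ℕ} {P : Par n m} {D : Dyn P} {R : RC D} {Cp : ℝ} {α β : ℕ}
    (pf : Pf R Cp α β) (x : E n) (hx : ‖x‖ < 64) :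
    pf.v x = D.u x - pf.lam x ∧ (∀ i, pf.g x i = D.G x i - pf.Lam x i) ∧
      gn (pf.g x) ≤ D.f x + pf.fl x ∧ D.f x ≤ gn (pf.g x) + pf.fl x ∧
      gn (pf.g x) ^ n ≤ pf.z x ∧ pf.fl x ^ (n - 2) * gn (pf.g x) ^ 2 ≤ pf.z x ∧
      pf.z x ≤ 2 ^ n * (D.f x ^ n + pf.fl x ^ n) * 4 := by
  have hxb : x ∈ ball (0 : E n) 64 := by rwa [mem_ball_zero_iff]
  have hn := P.hn
  have h1 : pf.v x = D.u x - pf.lam x := by
    unfold Pf.v
    rw [indicator_of_mem hxb]
  have h2 : ∀ i, pf.g x i = D.G x i - pf.Lam x i := by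
    intro i
    unfold Pf.g
    rw [indicator_of_mem hxb]
  have h3 : gn (pf.g x) ≤ D.f x + pf.fl x := by
    have h4 : pf.g x = fun i => D.G x i - pf.Lam x i := funext h2
    rw [h4]
    exact pvg_sub _ _
  have h4 : D.f x ≤ gn (pf.g x) + pf.fl x := by
    have h5 : D.G x = fun i => pf.g x i + pf.Lam x i := by
      funext i
      rw [h2, sub_add_cancel]
    unfold Dyn.f
    rw [h5]
    exact pvg_add _ _
  have hg0 : 0 ≤ gn (pf.g x) := Real.sqrt_nonneg _
  have hf0 : 0 ≤ D.f x := Real.sqrt_nonneg _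
  have hl0 : 0 ≤ pf.fl x := Real.sqrt_nonneg _
  have hpow : ∀ y : ℝ, y ^ n = y ^ (n - 2) * y ^ 2 := by
    intro y
    rw [← pow_add]
    congr 1
    omega
  refine ⟨h1, h2, h3, h4, ?_, ?_, ?_⟩
  · unfold Pf.z
    rw [hpow (gn (pf.g x))]
    exact mul_le_mul_of_nonneg_right (pow_le_pow_left₀ hg0 h3 _) (sq_nonneg _)
  · unfold Pf.z
    exact mul_le_mul_of_nonneg_right (pow_le_pow_left₀ hl0 (by linarith) _) (sq_nonneg _)
  · have h5 : pf.z x ≤ (D.f x + pf.fl x) ^ n := by
      unfold Pf.z
      rw [hpow (D.f x + pf.fl x)]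
      exact mul_le_mul_of_nonneg_left (pow_le_pow_left₀ hg0 h3 _)
        (pow_nonneg (add_nonneg hf0 hl0) _)
    have h6 := add_pow_le hf0 hl0 n
    have h7 : (2 : ℝ) ^ (n - 1) ≤ 2 ^ n := pow_le_pow_right₀ (by norm_num) (Nat.sub_le _ _)
    have h8 : 0 ≤ D.f x ^ n + pf.fl x ^ n := by positivity
    have h9 : (2 : ℝ) ^ (n - 1) * (D.f x ^ n + pf.fl x ^ n) ≤ 2 ^ n * (D.f x ^ n + pf.fl x ^ n) :=
      mul_le_mul_of_nonneg_right h7 h8
    have h10 : 0 ≤ 2 ^ n * (D.f x ^ n + pf.fl x ^ n) := by positivity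
    linarith

theorem pf_vg {n m : ℕ} {P : Par n m} {D : Dyn P} {R : RC D} {Cp : ℝ} {α β : ℕ}
    (pf : Pf R Cp α β) : VG pf.v pf.g ∧ Measurable pf.v ∧ Continuous pf.lam ∧
      (∀ i, Continuous (fun x => pf.Lam x i)) ∧ Continuous pf.fl ∧ Measurable pf.z ∧
      (∀ x, 0 ≤ pf.fl x) ∧ (∀ x, 0 ≤ pf.z x) ∧ (∀ᵐ x, ‖pf.v x‖ ≤ 2 * P.CT) := by
  have hn := P.hn
  obtain ⟨hui, hGi, hGL, hfm, hfi, hfn⟩ := sol_int (by omega : 1 ≤ n) D.hS
  have hlamc : Continuous pf.lam := pf.lam_c1.continuous
  have hLamc : ∀ i, Continuous (fun x => pf.Lam x i) := fun i =>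
    (pf.lam_c1.continuous_fderiv (by simp)).clm_apply continuous_const
  have hflc : Continuous pf.fl := by
    have h1 : pf.fl = fun x => Real.sqrt (∑ i, ‖pf.Lam x i‖ ^ 2) := rfl
    rw [h1]
    exact Real.continuous_sqrt.comp
      (continuous_finsetSum _ fun i _ => ((hLamc i).norm.pow 2))
  have hvm : Measurable pf.v := by
    have h1 : pf.v = (ball (0 : E n) 64).indicator (fun x => D.u x - pf.lam x) := rfl
    rw [h1]
    exact (D.hS.meas_u.sub hlamc.measurable).indicator measurableSet_ball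
  have hgm : ∀ i, Measurable (fun x => pf.g x i) := by
    intro i
    have h1 : (fun x => pf.g x i) =
        (ball (0 : E n) 64).indicator (fun x => D.G x i - pf.Lam x i) := rfl
    rw [h1]
    exact ((D.hS.meas_G i).sub (hLamc i).measurable).indicator measurableSet_ball
  have hgnm : Measurable (fun x => gn (pf.g x)) := by
    unfold gn
    exact (Finset.measurable_sum _ fun i _ => (hgm i).norm.pow_const 2).sqrt
  have hfm' : Measurable D.f := hfm
  have hzm : Measurable pf.z := by
    have h1 : pf.z = fun x => (D.f x + pf.fl x) ^ (n - 2) * gn (pf.g x) ^ 2 := rfl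
    rw [h1]
    exact ((hfm'.add hflc.measurable).pow_const _).mul (hgnm.pow_const 2)
  have hf0 : ∀ x, 0 ≤ D.f x := fun x => Real.sqrt_nonneg _
  have hl0 : ∀ x, 0 ≤ pf.fl x := fun x => Real.sqrt_nonneg _
  have hz0 : ∀ x, 0 ≤ pf.z x := fun x =>
    mul_nonneg (pow_nonneg (add_nonneg (hf0 x) (hl0 x)) _) (sq_nonneg _)
  have hCT : 1 ≤ P.CT := P.hT.one_le
  have hmemN : ∀ᵐ x, x ∈ ball (0 : E n) 64 → D.u x ∈ P.N := by
    have h1 := D.hS.memN
    rwa [ae_restrict_iff' measurableSet_ball] at h1
  have hvb : ∀ᵐ x, ‖pf.v x‖ ≤ 2 * P.CT := by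
    filter_upwards [hmemN] with x hx
    unfold Pf.v
    by_cases hxb : x ∈ ball (0 : E n) 64
    · rw [indicator_of_mem hxb]
      have h1 := P.hT.bdN _ (hx hxb)
      have h2 := P.hT.bdN _ (pf.lam_mem x)
      have h3 := norm_sub_le (D.u x) (pf.lam x)
      linarith
    · rw [indicator_of_notMem hxb, norm_zero]
      linarith
  have hout_v : ∀ x, x ∉ ball (0 : E n) 64 → pf.v x = 0 := fun x hx => by
    unfold Pf.v
    rw [indicator_of_notMem hx]
  have hout_g : ∀ x, x ∉ ball (0 : E n) 64 → ∀ i, pf.g x i = 0 := fun x hx i => by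
    unfold Pf.g
    rw [indicator_of_notMem hx]
  have hgn0 : ∀ x, x ∉ ball (0 : E n) 64 → gn (pf.g x) = 0 := by
    intro x hx
    unfold gn
    rw [Finset.sum_eq_zero, Real.sqrt_zero]
    intro i _
    rw [hout_g x hx i, norm_zero]
    norm_num
  have hfin : IsFiniteMeasure (volume.restrict (ball (0 : E n) 64)) :=
    ⟨by rw [Measure.restrict_apply_univ]; exact measure_ball_lt_top⟩
  have hcb : ball (0 : E n) 64 ⊆ closedBall 0 64 := ball_subset_closedBall
  -- continuous functions on the ball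
  have hcint : ∀ h : E n → ℝ, Continuous h →
      Integrable ((ball (0 : E n) 64).indicator h) := by
    intro h hh
    rw [integrable_indicator_iff measurableSet_ball]
    exact (hh.continuousOn.integrableOn_compact (isCompact_closedBall 0 64)).mono_set hcb
  have hint_v : Integrable pf.v := by
    have h1 : pf.v = (ball (0 : E n) 64).indicator (fun x => D.u x - pf.lam x) := rfl
    rw [h1, integrable_indicator_iff measurableSet_ball]
    exact hui.integrableOn.sub
      ((hlamc.continuousOn.integrableOn_compact (isCompact_closedBall 0 64)).mono_set hcb)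
  have hint_g : Integrable (fun x => gn (pf.g x)) := by
    refine Integrable.mono' (hfi.add (hcint _ hflc)) hgnm.aestronglyMeasurable ?_
    refine Filter.Eventually.of_forall fun x => ?_
    have hg0 : 0 ≤ gn (pf.g x) := Real.sqrt_nonneg _
    rw [Real.norm_of_nonneg hg0, Pi.add_apply]
    by_cases hxb : x ∈ ball (0 : E n) 64
    · rw [indicator_of_mem hxb]
      exact (pf_in pf x (mem_ball_zero_iff.mp hxb)).2.2.1
    · rw [indicator_of_notMem hxb, hgn0 x hxb, add_zero]
      exact hf0 x
  have hint_gn : Integrable (fun x => gn (pf.g x) ^ n) := by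
    have h1 : Integrable (fun x => 2 ^ n * D.f x ^ n * 4 +
        (ball (0 : E n) 64).indicator (fun x => 2 ^ n * pf.fl x ^ n * 4) x) := by
      refine ((hfn.const_mul (2 ^ n)).mul_const 4).add (hcint _ ?_)
      exact (continuous_const.mul (hflc.pow n)).mul continuous_const
    refine Integrable.mono' h1 (hgnm.pow_const n).aestronglyMeasurable ?_
    refine Filter.Eventually.of_forall fun x => ?_
    have hg0 : 0 ≤ gn (pf.g x) := Real.sqrt_nonneg _
    rw [Real.norm_of_nonneg (pow_nonneg hg0 _)]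
    by_cases hxb : x ∈ ball (0 : E n) 64
    · rw [indicator_of_mem hxb]
      obtain ⟨-, -, -, -, h2, -, h3⟩ := pf_in pf x (mem_ball_zero_iff.mp hxb)
      refine (h2.trans h3).trans (le_of_eq ?_)
      ring
    · rw [indicator_of_notMem hxb, hgn0 x hxb, add_zero, zero_pow (by omega)]
      have := hf0 x
      positivity
  have hLamL : ∀ i, MemLp (fun x => pf.Lam x i) n (volume.restrict (ball (0 : E n) 64)) := by
    intro i
    obtain ⟨K, hK⟩ := (isCompact_closedBall (0 : E n) 64).exists_bound_of_continuousOn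
      (hLamc i).continuousOn
    refine MemLp.of_bound (hLamc i).aestronglyMeasurable K ?_
    rw [ae_restrict_iff' measurableSet_ball]
    exact Filter.Eventually.of_forall fun x hx => hK x (hcb hx)
  have hwg : IsWeakGrad (ball 0 64) pf.v pf.g := by
    refine ⟨?_, ?_, ?_⟩
    · exact MemLp.of_bound hvm.aestronglyMeasurable (2 * P.CT) (ae_restrict_of_ae hvb)
    · intro i
      refine ((D.hS.wg.mem_G i).sub (hLamL i)).ae_eq ?_
      rw [Filter.EventuallyEq, ae_restrict_iff' measurableSet_ball]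
      refine Filter.Eventually.of_forall fun x hx => ?_
      rw [(pf_in pf x (mem_ball_zero_iff.mp hx)).2.1 i]
      rfl
    · intro ψ hψ hψc hψs i
      have hψd : Continuous fun x => fderiv ℝ ψ x (ev i) :=
        (hψ.continuous_fderiv (by simp)).clm_apply continuous_const
      have hψdc : HasCompactSupport fun x => fderiv ℝ ψ x (ev i) := hψc.fderiv_apply ℝ (ev i)
      have hI1 : Integrable (fun x => fderiv ℝ ψ x (ev i) • pf.lam x) :=
        (hψd.smul hlamc).integrable_of_hasCompactSupport hψdc.smul_right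
      have hI2 : Integrable (fun x => ψ x • fderiv ℝ pf.lam x (ev i)) :=
        (hψ.continuous.smul (hLamc i)).integrable_of_hasCompactSupport hψc.smul_right
      have hI3 : Integrable (fun x => ψ x • pf.lam x) :=
        (hψ.continuous.smul hlamc).integrable_of_hasCompactSupport hψc.smul_right
      have hparts := integral_smul_fderiv_eq_neg_fderiv_smul_of_integrable (v := ev i)
        hI1 hI2 hI3 (fun x _ => (hψ.differentiable (by simp)) x)
        (fun x _ => (pf.lam_c1.differentiable (by simp)) x)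
      have hz1 : ∀ x, x ∉ ball (0 : E n) 64 → ψ x = 0 := fun x hx =>
        image_eq_zero_of_notMem_tsupport fun h' => hx (hψs h')
      have hz2 : ∀ x, x ∉ ball (0 : E n) 64 → fderiv ℝ ψ x (ev i) = 0 := by
        intro x hx
        have h1 : x ∉ tsupport ψ := fun h' => hx (hψs h')
        have h2 : fderiv ℝ ψ x = 0 := by
          by_contra h3
          exact h1 (support_fderiv_subset ℝ h3)
        rw [h2]
        rfl
      have hparts' : ∫ x in ball (0 : E n) 64, (fderiv ℝ ψ x (ev i)) • pf.lam x =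
          - ∫ x in ball (0 : E n) 64, ψ x • pf.Lam x i := by
        rw [setIntegral_eq_integral_of_forall_compl_eq_zero
            (fun x hx => by rw [hz2 x hx, zero_smul]),
          setIntegral_eq_integral_of_forall_compl_eq_zero
            (fun x hx => by rw [hz1 x hx, zero_smul])]
        unfold Pf.Lam
        rw [hparts, neg_neg]
      have hu := D.hS.wg.eq ψ hψ hψc hψs i
      obtain ⟨K1, hK1⟩ := hψdc.exists_bound_of_continuous hψd
      obtain ⟨K2, hK2⟩ := hψc.exists_bound_of_continuous hψ.continuous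
      have hJ1 : Integrable (fun x => fderiv ℝ ψ x (ev i) • D.u x) :=
        hui.bdd_smul K1 hψd.aestronglyMeasurable (Filter.Eventually.of_forall hK1)
      have hJ2 : Integrable (fun x => ψ x • D.G x i) :=
        (hGi i).bdd_smul K2 hψ.continuous.aestronglyMeasurable
          (Filter.Eventually.of_forall hK2)
      have e1 : ∫ x in ball (0 : E n) 64, (fderiv ℝ ψ x (ev i)) • pf.v x =
          (∫ x in ball (0 : E n) 64, (fderiv ℝ ψ x (ev i)) • D.u x) -
            ∫ x in ball (0 : E n) 64, (fderiv ℝ ψ x (ev i)) • pf.lam x := by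
        rw [← integral_sub hJ1.integrableOn hI1.integrableOn]
        refine setIntegral_congr_fun measurableSet_ball fun x hx => ?_
        rw [(pf_in pf x (mem_ball_zero_iff.mp hx)).1, smul_sub]
      have e2 : ∫ x in ball (0 : E n) 64, ψ x • pf.g x i =
          (∫ x in ball (0 : E n) 64, ψ x • D.G x i) -
            ∫ x in ball (0 : E n) 64, ψ x • pf.Lam x i := by
        have hI2' : Integrable (fun x => ψ x • pf.Lam x i) := hI2
        rw [← integral_sub hJ2.integrableOn hI2'.integrableOn]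
        refine setIntegral_congr_fun measurableSet_ball fun x hx => ?_
        rw [(pf_in pf x (mem_ball_zero_iff.mp hx)).2.1 i, smul_sub]
      rw [e1, e2, hu, hparts']
      abel
  exact ⟨⟨hwg, hout_v, hout_g, hint_v, hgm, hint_g, hint_gn⟩, hvm, hlamc, hLamc, hflc, hzm, hl0,
    hz0, hvb⟩

end H60NT
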