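import Pool.Agent.H60.NT.YjStep
import Pool.Agent.H60.NT.GoodPt
import Pool.Agent.H60.NT.PfVG
import Pool.Agent.H60.NT.BPow

/-!
# [H60 NT PFD] (4d): `v` on the good set

`x ∈ rg x₀ j ∩ S`, `α - 1 ≤ j ≤ β + 1` (`j ≥ k + 1` because `W ≥ 8`): `‖u x - y_j‖ ≤ C (t₀ + √e)` (`good_pt`),
`‖y_j - y_α‖ ≤ C e (W + 1) ≤ C √e` (`yj_step`, `rc_num`), `‖lam x - y_α‖ ≤ C √e` (`pf_dist`, `rg ⊆ fr`), and `v x = u x - lam x`
(`pf_in`). Also `‖y_i - y_α‖ ≤ C √e` for `α ≤ i ≤ β`. `chord` with `y₀ = y_i`, `y = lam x`, `y' = u x` (`u x ∈ N` a.e., `dyn_ae`):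
`‖v - P_i v‖ ≤ C (‖lam x - y_i‖ + ‖v‖) ‖v‖ ≤ C (t₀ + √e) ‖v‖`. So the second claim holds with the third
(`‖v‖ ≤ 2 ‖P_i v‖`) as soon as `C (t₀ + √e) ≤ 1/2` (choice of `t₁`, `e₁`).
-/

set_option autoImplicit false

namespace H60NT

open H60NH MeasureTheory Metric Set Filter Topology
open scoped ENNReal NNReal ContDiff

theorem pf_d {n m : ℕ} (P : Par n m) (Cp : ℝ) (hCp : 1 ≤ Cp) : Uni P (fun C D R =>
    ∀ (α β : ℕ) (pf : Pf R Cp α β), α + 2 ≤ β → ∀ j, α - 1 ≤ j → j ≤ β + 1 →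
      ∀ᵐ x, x ∈ rg R.x₀ j → x ∈ R.S → D.u x ∈ P.N ∧ ‖pf.v x‖ ≤ C * (R.t₀ + Real.sqrt R.e) ∧
        ∀ i, α ≤ i → i ≤ β →
          ‖pf.v x - fderiv ℝ P.π (R.yj i) (pf.v x)‖ ≤ C * (R.t₀ + Real.sqrt R.e) * ‖pf.v x‖ ∧
          ‖pf.v x‖ ≤ 2 * ‖fderiv ℝ P.π (R.yj i) (pf.v x)‖) := by
  have hn := P.hn
  obtain ⟨C1, t1, hC1, ht1, H1⟩ := yj_step P
  obtain ⟨C2, t2, hC2, ht2, H2⟩ := good_pt P
  obtain ⟨C3, hC3, H3⟩ := pf_dist P Cp hCp
  obtain ⟨C4, hC4, H4, -⟩ := chord P.hT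
  obtain ⟨Cy, ty, hCy, hty, Hy⟩ := yj_facts P
  obtain ⟨A, hA⟩ : ∃ A : ℝ, A = C2 + 3 * C1 + C3 := ⟨_, rfl⟩
  obtain ⟨B, hB⟩ : ∃ B : ℝ, B = C4 * (C3 + 2 * C1 + A) := ⟨_, rfl⟩
  have hA1 : 1 ≤ A := by linarith
  have hBA : A ≤ B := by
    rw [hB]
    have h1 : A ≤ C3 + 2 * C1 + A := by linarith
    have h2 : C3 + 2 * C1 + A ≤ C4 * (C3 + 2 * C1 + A) :=
      le_mul_of_one_le_left (by linarith) hC4
    linarith
  have hB1 : 1 ≤ B := by linarith
  refine ⟨B, min (min (min t1 t2) ty) (1 / (4 * B)), hB1, by positivity, ?_⟩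
  intro Q C₅ t₀ h5 h0 h01
  have h01a : t₀ ≤ t1 :=
    h01.trans ((min_le_left _ _).trans ((min_le_left _ _).trans (min_le_left _ _)))
  have h01b : t₀ ≤ t2 :=
    h01.trans ((min_le_left _ _).trans ((min_le_left _ _).trans (min_le_right _ _)))
  have h01c : t₀ ≤ ty := h01.trans ((min_le_left _ _).trans (min_le_right _ _))
  have h01d : t₀ ≤ 1 / (4 * B) := h01.trans (min_le_right _ _)
  obtain ⟨e1, he1, he11, K1⟩ := H1 Q C₅ t₀ h5 h0 h01a
  obtain ⟨e2, he2, he21, K2⟩ := H2 Q C₅ t₀ h5 h0 h01b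
  obtain ⟨e3, he3, he31, K3⟩ := Hy Q C₅ t₀ h5 h0 h01c
  refine ⟨min (min (min e1 e2) e3) (min (1 / 64) ((1 / (4 * B)) ^ 2)), by positivity,
    (min_le_left _ _).trans ((min_le_left _ _).trans ((min_le_left _ _).trans he11)), ?_⟩
  intro D R hR α β pf hαβ j hαj hjβ
  have hR1 : Ok R Q C₅ t₀ e1 := hR.mono
    ((min_le_left _ _).trans ((min_le_left _ _).trans (min_le_left _ _)))
  have hR2 : Ok R Q C₅ t₀ e2 := hR.mono
    ((min_le_left _ _).trans ((min_le_left _ _).trans (min_le_right _ _)))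
  have hR3 : Ok R Q C₅ t₀ e3 := hR.mono ((min_le_left _ _).trans (min_le_right _ _))
  have hRe : R.e ≤ 1 / 64 :=
    hR.e_le.trans ((min_le_right _ _).trans (min_le_left _ _))
  have hRe2 : R.e ≤ (1 / (4 * B)) ^ 2 :=
    hR.e_le.trans ((min_le_right _ _).trans (min_le_right _ _))
  obtain ⟨q1, q2, q3, q4, q5, q6, q7⟩ := rc_num R
  have hW8 := q7 hRe
  have hge := pf.ge
  have hle := pf.le
  have he0 := R.e_pos
  have hs0 : 0 ≤ Real.sqrt R.e := Real.sqrt_nonneg _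
  have ht0 : 0 < R.t₀ := R.t0
  have hsq : Real.sqrt R.e ≤ 1 / (4 * B) := by
    rw [← Real.sqrt_sq (by positivity : 0 ≤ 1 / (4 * B))]
    exact Real.sqrt_le_sqrt hRe2
  have ht4 : R.t₀ ≤ 1 / (4 * B) := by
    rw [hR.ht]
    exact h01d
  have hsmall : B * (R.t₀ + Real.sqrt R.e) ≤ 1 / 2 := by
    have h1 : R.t₀ + Real.sqrt R.e ≤ 1 / (4 * B) + 1 / (4 * B) := add_le_add ht4 hsq
    calc B * (R.t₀ + Real.sqrt R.e) ≤ B * (1 / (4 * B) + 1 / (4 * B)) :=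
          mul_le_mul_of_nonneg_left h1 (by linarith)
      _ = 1 / 2 := by
          field_simp
          norm_num
  obtain ⟨-, hstep⟩ := K1 D R hR1
  have hgood := K2 D R hR2 j (by omega)
  obtain ⟨hd1, -⟩ := H3 D R α β pf hαβ
  obtain ⟨hae, -, -⟩ := dyn_ae D
  -- distances of the points `y`
  have hWe : C1 * R.e * R.W ≤ 2 * C1 * Real.sqrt R.e := by
    have h1 : C1 * (R.e * R.W) ≤ C1 * (2 * Real.sqrt R.e) :=
      mul_le_mul_of_nonneg_left q1 (by linarith)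
    calc C1 * R.e * R.W = C1 * (R.e * R.W) := by ring
      _ ≤ _ := h1
      _ = _ := by ring
  have hee : C1 * R.e ≤ C1 * Real.sqrt R.e := mul_le_mul_of_nonneg_left q2 (by linarith)
  have hyα : ∀ i, α ≤ i → i ≤ β → ‖R.yj i - R.yj α‖ ≤ 2 * C1 * Real.sqrt R.e := by
    intro i h1 h2
    have h3 := hstep α i (by omega) h1
    rw [norm_sub_rev]
    refine h3.trans (le_trans ?_ hWe)
    refine mul_le_mul_of_nonneg_left ?_ (mul_nonneg (by linarith) he0.le)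
    have : (i : ℝ) ≤ α + R.W := by exact_mod_cast (by omega : i ≤ α + R.W)
    linarith
  have hyj : ‖R.yj j - R.yj α‖ ≤ 3 * C1 * Real.sqrt R.e := by
    by_cases h : α ≤ j
    · have h3 := hstep α j (by omega) h
      rw [norm_sub_rev]
      have h4 : ((j : ℝ) - α) ≤ R.W + 1 := by
        have : (j : ℝ) ≤ α + R.W + 1 := by exact_mod_cast (by omega : j ≤ α + R.W + 1)
        linarith
      have h5 : C1 * R.e * ((j : ℝ) - α) ≤ C1 * R.e * (R.W + 1) :=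
        mul_le_mul_of_nonneg_left h4 (mul_nonneg (by linarith) he0.le)
      have h6 : C1 * R.e * ((R.W : ℝ) + 1) = C1 * R.e * R.W + C1 * R.e := by ring
      rw [h6] at h5
      linarith
    · have hjα : j + 1 = α := by omega
      have h3 := hstep j α (by omega) (by omega)
      have h4 : (α : ℝ) - j = 1 := by
        rw [← hjα]
        push_cast
        ring
      rw [h4, mul_one] at h3
      have : 0 ≤ C1 * Real.sqrt R.e := mul_nonneg (by linarith) hs0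
      linarith
  filter_upwards [hgood, hae] with x hxg hxa hxr hxS
  have hxu := hxg hxr hxS
  obtain ⟨h1, h2⟩ := hxr
  have hp : 0 < p2 j := by unfold p2; positivity
  have hp1 : 1 ≤ p2 j := by
    unfold p2
    exact one_le_pow₀ (by norm_num)
  have h3 : 2 / p2 j ≤ 2 := by
    rw [div_le_iff₀ hp]
    linarith
  have hx64 : ‖x‖ < 64 := by
    have h5 : ‖x‖ ≤ ‖x - R.x₀‖ + ‖R.x₀‖ := by
      have := norm_add_le (x - R.x₀) R.x₀
      rwa [sub_add_cancel] at this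
    have := R.hx
    linarith
  have hxN : D.u x ∈ P.N := (hxa (by rwa [mem_ball_zero_iff])).1
  have hxf : x ∈ fr R.x₀ j := by
    constructor
    · refine le_trans ?_ h1
      rw [div_le_div_iff₀ (by positivity) hp]
      linarith
    · refine h2.trans ?_
      exact div_le_div_of_nonneg_right (by norm_num) hp.le
  have hlam := (hd1 j hαj hjβ x hxf).1
  have hv : pf.v x = D.u x - pf.lam x := (pf_in pf x hx64).1
  have hvA : ‖pf.v x‖ ≤ A * (R.t₀ + Real.sqrt R.e) := by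
    have e1 : pf.v x = (D.u x - R.yj j) + (R.yj j - R.yj α) - (pf.lam x - R.yj α) := by
      rw [hv]
      abel
    rw [e1]
    have a1 := norm_sub_le ((D.u x - R.yj j) + (R.yj j - R.yj α)) (pf.lam x - R.yj α)
    have a2 := norm_add_le (D.u x - R.yj j) (R.yj j - R.yj α)
    have a3 : A * (R.t₀ + Real.sqrt R.e) = C2 * (R.t₀ + Real.sqrt R.e) +
        3 * C1 * Real.sqrt R.e + C3 * Real.sqrt R.e + (3 * C1 + C3) * R.t₀ := by
      rw [hA]
      ring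
    have a4 : 0 ≤ (3 * C1 + C3) * R.t₀ := mul_nonneg (by linarith) ht0.le
    rw [a3]
    linarith
  have hts : 0 ≤ R.t₀ + Real.sqrt R.e := by linarith
  refine ⟨hxN, hvA.trans (mul_le_mul_of_nonneg_right hBA hts), ?_⟩
  intro i hαi hiβ
  obtain ⟨hyN, -⟩ := K3 D R hR3 i (by omega)
  have hc := H4 (R.yj i) hyN (pf.lam x) (pf.lam_mem x) (D.u x) hxN
  rw [← hv] at hc
  have hli : ‖pf.lam x - R.yj i‖ ≤ (C3 + 2 * C1) * Real.sqrt R.e := by
    have e1 : pf.lam x - R.yj i = (pf.lam x - R.yj α) - (R.yj i - R.yj α) := by abel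
    rw [e1]
    have a1 := norm_sub_le (pf.lam x - R.yj α) (R.yj i - R.yj α)
    have a2 := hyα i hαi hiβ
    have a3 : (C3 + 2 * C1) * Real.sqrt R.e = C3 * Real.sqrt R.e + 2 * C1 * Real.sqrt R.e := by
      ring
    rw [a3]
    linarith
  have hc2 : ‖pf.v x - fderiv ℝ P.π (R.yj i) (pf.v x)‖ ≤
      B * (R.t₀ + Real.sqrt R.e) * ‖pf.v x‖ := by
    refine hc.trans (mul_le_mul_of_nonneg_right ?_ (norm_nonneg _))
    have a1 : ‖pf.lam x - R.yj i‖ + ‖pf.v x‖ ≤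
        (C3 + 2 * C1 + A) * (R.t₀ + Real.sqrt R.e) := by
      have a2 : (C3 + 2 * C1 + A) * (R.t₀ + Real.sqrt R.e) =
          (C3 + 2 * C1) * Real.sqrt R.e + A * (R.t₀ + Real.sqrt R.e) +
            (C3 + 2 * C1) * R.t₀ := by ring
      have a3 : 0 ≤ (C3 + 2 * C1) * R.t₀ := mul_nonneg (by linarith) ht0.le
      rw [a2]
      linarith
    calc C4 * (‖pf.lam x - R.yj i‖ + ‖pf.v x‖)
        ≤ C4 * ((C3 + 2 * C1 + A) * (R.t₀ + Real.sqrt R.e)) :=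
          mul_le_mul_of_nonneg_left a1 (by linarith)
      _ = B * (R.t₀ + Real.sqrt R.e) := by
          rw [hB]
          ring
  refine ⟨hc2, ?_⟩
  have a1 : ‖pf.v x‖ ≤ ‖pf.v x - fderiv ℝ P.π (R.yj i) (pf.v x)‖ +
      ‖fderiv ℝ P.π (R.yj i) (pf.v x)‖ := by
    have := norm_add_le (pf.v x - fderiv ℝ P.π (R.yj i) (pf.v x))
      (fderiv ℝ P.π (R.yj i) (pf.v x))
    rwa [sub_add_cancel] at this
  have a2 : B * (R.t₀ + Real.sqrt R.e) * ‖pf.v x‖ ≤ 1 / 2 * ‖pf.v x‖ :=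
    mul_le_mul_of_nonneg_right hsmall (norm_nonneg _)
  linarith

end H60NT
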