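import Pool.Agent.H60.NT.Def3
import Pool.Agent.H60.NT.PfD
import Pool.Agent.H60.NT.Pow

/-!
# [H60 NT WPTS] Pointwise expansion on the good set
-/

set_option autoImplicit false

namespace H60NT

open H60NH MeasureTheory Metric Set Filter Topology
open scoped ENNReal NNReal ContDiff

theorem wps_p2_pos (j : ℕ) : 0 < p2 j := by unfold p2; positivity

theorem wps_p2_one (j : ℕ) : 1 ≤ p2 j := by
  unfold p2; exact one_le_pow₀ (by norm_num)

theorem wps_p2_mono {i j : ℕ} (h : i ≤ j) : p2 i ≤ p2 j := by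
  unfold p2; exact pow_le_pow_right₀ (by norm_num) h

/-- the times of the points of the annulus -/
theorem wps_time {n m : ℕ} {P : Par n m} {D : Dyn P} {R : RC D} {Cp : ℝ} {α β : ℕ}
    (pf : Pf R Cp α β) (x : E n) (h1 : 1 / (4 * p2 β) ≤ ‖x - R.x₀‖)
    (h2 : ‖x - R.x₀‖ ≤ 8 / p2 α) :
    -Real.log ‖x - R.x₀‖ ∈ Icc (sj α - 4) (sj β + 4) := by
  have hpα := wps_p2_pos α
  have hpβ := wps_p2_pos β
  have hr : 0 < ‖x - R.x₀‖ := lt_of_lt_of_le (by positivity) h1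
  have l32 : Real.log (3 / 2) ≤ 1 / 2 := by
    have := Real.log_le_sub_one_of_pos (by norm_num : (0 : ℝ) < 3 / 2)
    linarith
  have l320 : 0 ≤ Real.log (3 / 2) := Real.log_nonneg (by norm_num)
  have l4 : Real.log 4 ≤ 3 := by
    have := Real.log_le_sub_one_of_pos (by norm_num : (0 : ℝ) < 4)
    linarith
  have l2 : Real.log 2 ≤ 1 := by
    have := Real.log_le_sub_one_of_pos (by norm_num : (0 : ℝ) < 2)
    linarith
  have l8 : Real.log 8 ≤ 3 := by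
    have : (8 : ℝ) = 2 ^ 3 := by norm_num
    rw [this, Real.log_pow]
    push_cast
    linarith
  unfold sj
  constructor
  · have h3 : Real.log ‖x - R.x₀‖ ≤ Real.log (8 / p2 α) := Real.log_le_log hr h2
    rw [Real.log_div (by norm_num) hpα.ne'] at h3
    linarith
  · have h3 : Real.log (1 / (4 * p2 β)) ≤ Real.log ‖x - R.x₀‖ := Real.log_le_log (by positivity) h1
    rw [one_div, Real.log_inv, Real.log_mul (by norm_num) hpβ.ne'] at h3
    linarith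

/-- the derivative of the profile is tangent -/
theorem wps_tan {n m : ℕ} {P : Par n m} {D : Dyn P} {R : RC D} {Cp : ℝ} {α β : ℕ}
    (pf : Pf R Cp α β) (x : E n) (h1 : 1 / (4 * p2 β) ≤ ‖x - R.x₀‖)
    (h2 : ‖x - R.x₀‖ ≤ 8 / p2 α) (i : Fin n) :
    fderiv ℝ P.π (pf.lam x) (pf.Lam x i) = pf.Lam x i := by
  unfold Pf.Lam
  rw [pf.lam_der x h1 h2, map_smul, pf.lam_eq x h1 h2,
    pf.geod.tan _ (wps_time pf x h1 h2)]

theorem wps_annulus {n : ℕ} {x₀ x : E n} {α β j : ℕ} (hα : α ≤ j) (hβ : j ≤ β)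
    (hx : x ∈ rg x₀ j) : 1 / (4 * p2 β) ≤ ‖x - x₀‖ ∧ ‖x - x₀‖ ≤ 8 / p2 α := by
  obtain ⟨h1, h2⟩ := hx
  have p1 := wps_p2_pos α
  have p3 := wps_p2_pos j
  have p4 := wps_p2_pos β
  have p5 := wps_p2_mono hα
  have p6 := wps_p2_mono hβ
  constructor
  · refine le_trans ?_ h1
    apply one_div_le_one_div_of_le p3
    linarith
  · refine h2.trans ?_
    rw [div_le_div_iff₀ p3 p1]
    linarith

theorem wps_norm {n : ℕ} {x₀ x : E n} {j : ℕ} (hx0 : ‖x₀‖ ≤ 1) (hx : x ∈ rg x₀ j) :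
    ‖x‖ ≤ 3 := by
  obtain ⟨h1, h2⟩ := hx
  have p3 := wps_p2_one j
  have h3 : 2 / p2 j ≤ 2 := by
    rw [div_le_iff₀ (by linarith)]
    linarith
  have h4 : ‖x‖ ≤ ‖x - x₀‖ + ‖x₀‖ := by
    have := norm_add_le (x - x₀) x₀
    rwa [sub_add_cancel] at this
  linarith

theorem wps_gn {n m : ℕ} (a : Fin n → E m) (i : Fin n) : ‖a i‖ ≤ gn a := by
  refine Real.le_sqrt_of_sq_le ?_
  exact Finset.single_le_sum (f := fun i => ‖a i‖ ^ 2) (fun i _ => sq_nonneg _)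
    (Finset.mem_univ i)

theorem w_ptS {n m : ℕ} (P : Par n m) (Cp : ℝ) (hCp : 1 ≤ Cp) : Uni P (fun C D R =>
    ∀ (α β : ℕ) (pf : Pf R Cp α β), α + 2 ≤ β → ∀ j, α ≤ j → j ≤ β →
      ∀ᵐ x, x ∈ rg R.x₀ j → x ∈ R.S →
        P.κ₀ * (D.f x ^ (n - 2) * ∑ i, inner ℝ (D.G x i) (pf.g x i)) ≤
          pf.gL x + D.f x ^ (n - 2) * (∑ i, inner ℝ (D.G x i)
            (fderiv ℝ (fun p => P.F p (D.u x)) (pf.lam x) (pf.Lam x i))) +
          C * ((gn (pf.g x) ^ n + pf.fl x ^ n) * ‖pf.v x‖ ^ 2) ∧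
        ∀ i, |P.κ₀ * inner ℝ (D.G x i) (pf.v x) - inner ℝ (D.G x i) (P.F (pf.lam x) (D.u x))| ≤
          C * (‖D.G x i‖ * ‖pf.v x‖ ^ 3)) := by
  obtain ⟨Cd, td, hCd, htd, Hd⟩ := pf_d P Cp hCp
  obtain ⟨Cc, hCc, hch1, hch2⟩ := chord P.hT
  have hn := P.hn
  have hCG : 1 ≤ P.CG := P.hG.one_le
  have hCT : 1 ≤ P.CT := P.hT.one_le
  have hκ : 0 < P.κ₀ := P.hG.kap_pos
  have ht3 : 0 < P.t₃ := P.hG.t_pos
  set A : ℝ := P.κ₀ * Cc * P.CT + P.CG with hA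
  have hA1 : 1 ≤ A := by
    have : 0 ≤ P.κ₀ * Cc * P.CT := by positivity
    linarith
  set K : ℝ := n * A * (2 ^ (n + 2) + 2) with hK
  have hn1 : (1 : ℝ) ≤ n := by exact_mod_cast (by omega : 1 ≤ n)
  have hK1 : P.CG ≤ K := by
    have h1 : P.CG ≤ A := by
      have : 0 ≤ P.κ₀ * Cc * P.CT := by positivity
      linarith
    have h2 : A ≤ n * A := le_mul_of_one_le_left (by linarith) hn1
    have h3 : n * A ≤ K := by
      have h4 : (1 : ℝ) ≤ 2 ^ (n + 2) + 2 := by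
        have : (0 : ℝ) ≤ 2 ^ (n + 2) := by positivity
        linarith
      have h5 : 0 ≤ n * A := by positivity
      exact le_mul_of_one_le_right h5 h4
    linarith
  refine ⟨K, min td (P.t₃ / (2 * Cd)), hCG.trans hK1, lt_min htd (by positivity), ?_⟩
  intro Q C₅ t₀ hC5 ht0 hle
  obtain ⟨e, he, he1, H⟩ := Hd Q C₅ t₀ hC5 ht0 (hle.trans (min_le_left _ _))
  refine ⟨min e ((P.t₃ / (2 * Cd)) ^ 2), lt_min he (by positivity),
    (min_le_left _ _).trans he1, ?_⟩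
  intro D R hR α β pf hαβ j hαj hjβ
  have hR1 := hR.mono (min_le_left _ _)
  have hse : Real.sqrt R.e ≤ P.t₃ / (2 * Cd) := by
    have h1 : R.e ≤ (P.t₃ / (2 * Cd)) ^ 2 := hR.e_le.trans (min_le_right _ _)
    calc Real.sqrt R.e ≤ Real.sqrt ((P.t₃ / (2 * Cd)) ^ 2) := Real.sqrt_le_sqrt h1
      _ = _ := Real.sqrt_sq (by positivity)
  have ht0' : R.t₀ ≤ P.t₃ / (2 * Cd) := by
    rw [hR.ht]
    exact hle.trans (min_le_right _ _)
  have hsmall : Cd * (R.t₀ + Real.sqrt R.e) ≤ P.t₃ := by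
    have hcd : 0 < Cd := by linarith
    calc Cd * (R.t₀ + Real.sqrt R.e) ≤ Cd * (P.t₃ / (2 * Cd) + P.t₃ / (2 * Cd)) :=
          mul_le_mul_of_nonneg_left (add_le_add ht0' hse) hcd.le
      _ = P.t₃ := by field_simp; ring
  filter_upwards [H D R hR1 α β pf hαβ j (by omega) (by omega), (dyn_ae D).1] with x hx1 hx2 hrg hS
  obtain ⟨huN, hv, -⟩ := hx1 hrg hS
  have hx3 : ‖x‖ ≤ 3 := wps_norm R.hx hrg
  have hx64 : ‖x‖ < 64 := by linarith
  have hxb : x ∈ ball (0 : E n) 64 := by rwa [mem_ball_zero_iff]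
  obtain ⟨-, hGt⟩ := hx2 hxb
  obtain ⟨hveq, hgeq, hf1, hf2, -, -, -⟩ := pf_in pf x hx64
  obtain ⟨han1, han2⟩ := wps_annulus hαj hjβ hrg
  have hlN := pf.lam_mem x
  have hvt : ‖D.u x - pf.lam x‖ ≤ P.t₃ := by
    rw [← hveq]
    exact hv.trans hsmall
  have hT := P.hT
  have h4δ : infDist (D.u x) P.N < 4 * P.δ := by
    rw [infDist_zero_of_mem huN]
    linarith [hT.pos]
  have hf0 : 0 ≤ D.f x := Real.sqrt_nonneg _
  have hfl0 : 0 ≤ pf.fl x := Real.sqrt_nonneg _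
  have hg0 : 0 ≤ gn (pf.g x) := Real.sqrt_nonneg _
  set V := pf.v x with hV
  -- the two expansions
  have hGG : ∀ i, P.κ₀ * ‖D.G x i‖ ^ 2 ≤
      inner ℝ (D.G x i) (fderiv ℝ (P.F (pf.lam x)) (D.u x) (D.G x i)) +
        A * (‖V‖ ^ 2 * ‖D.G x i‖ ^ 2) := by
    intro i
    have h1 := P.hG.neary (pf.lam x) hlN (D.u x) huN hvt (D.G x i) (hGt i)
    rw [← hveq, hGt i] at h1
    have h2 : |inner ℝ (D.G x i) (fderiv ℝ (P.F (pf.lam x)) (D.u x) (D.G x i) -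
        P.κ₀ • (D.G x i + D2 P.π (D.u x) (D.G x i) V))| ≤
        ‖D.G x i‖ * (P.CG * ‖V‖ ^ 2 * ‖D.G x i‖) :=
      (abs_real_inner_le_norm _ _).trans (mul_le_mul_of_nonneg_left h1 (norm_nonneg _))
    rw [inner_sub_right, inner_smul_right, inner_add_right, real_inner_self_eq_norm_sq] at h2
    have h3 : inner ℝ (D.G x i) (D2 P.π (D.u x) (D.G x i) V) =
        inner ℝ V (D2 P.π (D.u x) (D.G x i) (D.G x i)) := by
      rw [real_inner_comm, hT.symm3 (D.u x) h4δ]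
    have hnor := d2_normal hT (D.u x) huN (D.G x i) (D.G x i) (hGt i) (hGt i)
    have h4 := hch2 (D.u x) huN (pf.lam x) hlN _ hnor
    have h5 : pf.lam x - D.u x = -V := by rw [hveq]; abel
    rw [h5, norm_neg, inner_neg_right, abs_neg] at h4
    have h6 : ‖D2 P.π (D.u x) (D.G x i) (D.G x i)‖ ≤ P.CT * ‖D.G x i‖ * ‖D.G x i‖ := by
      refine ((D2 P.π (D.u x)).le_opNorm₂ _ _).trans ?_
      have := hT.bd2 (D.u x) h4δ
      gcongr
    have h7 : |inner ℝ (D.G x i) (D2 P.π (D.u x) (D.G x i) V)| ≤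
        Cc * (P.CT * ‖D.G x i‖ * ‖D.G x i‖) * ‖V‖ ^ 2 := by
      rw [h3, real_inner_comm]
      refine h4.trans ?_
      gcongr
    have h8 := (abs_le.1 h2).1
    have h9 := (abs_le.1 h7).1
    have h10 := mul_le_mul_of_nonneg_left h9 hκ.le
    rw [hA]
    linarith [h8, h10]
  have hGL : ∀ i, -(P.κ₀ * inner ℝ (D.G x i) (pf.Lam x i)) ≤
      inner ℝ (D.G x i) (fderiv ℝ (fun p => P.F p (D.u x)) (pf.lam x) (pf.Lam x i)) +
        P.CG * (‖V‖ ^ 2 * (‖D.G x i‖ * ‖pf.Lam x i‖)) := by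
    intro i
    have h1 := P.hG.nearq (pf.lam x) hlN (D.u x) huN hvt (pf.Lam x i)
      (wps_tan pf x han1 han2 i)
    rw [← hveq] at h1
    have h2 : |inner ℝ (D.G x i) (fderiv ℝ (fun p => P.F p (D.u x)) (pf.lam x) (pf.Lam x i) +
        P.κ₀ • fderiv ℝ P.π (D.u x) (pf.Lam x i))| ≤
        ‖D.G x i‖ * (P.CG * ‖V‖ ^ 2 * ‖pf.Lam x i‖) :=
      (abs_real_inner_le_norm _ _).trans (mul_le_mul_of_nonneg_left h1 (norm_nonneg _))
    rw [inner_add_right, inner_smul_right, ← hT.symm1 (D.u x) h4δ, hGt i] at h2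
    have h8 := (abs_le.1 h2).1
    linarith [h8]
  -- sums
  have hfn2 : 0 ≤ D.f x ^ (n - 2) := pow_nonneg hf0 _
  have hAC : P.CG ≤ A := by
    have : 0 ≤ P.κ₀ * Cc * P.CT := by positivity
    linarith
  have hterm : ∀ i, P.κ₀ * inner ℝ (D.G x i) (pf.g x i) ≤
      inner ℝ (D.G x i) (fderiv ℝ (P.F (pf.lam x)) (D.u x) (D.G x i)) +
      inner ℝ (D.G x i) (fderiv ℝ (fun p => P.F p (D.u x)) (pf.lam x) (pf.Lam x i)) +
      A * ‖V‖ ^ 2 * (D.f x ^ 2 + D.f x * pf.fl x) := by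
    intro i
    have h1 := hGG i
    have h2 := hGL i
    have h3 : ‖D.G x i‖ ≤ D.f x := wps_gn _ i
    have h4 : ‖pf.Lam x i‖ ≤ pf.fl x := wps_gn _ i
    have h5 : ‖D.G x i‖ ^ 2 ≤ D.f x ^ 2 := pow_le_pow_left₀ (norm_nonneg _) h3 2
    have h6 : ‖D.G x i‖ * ‖pf.Lam x i‖ ≤ D.f x * pf.fl x :=
      mul_le_mul h3 h4 (norm_nonneg _) hf0
    have hv2 : 0 ≤ ‖V‖ ^ 2 := sq_nonneg _
    have h7 : A * (‖V‖ ^ 2 * ‖D.G x i‖ ^ 2) ≤ A * (‖V‖ ^ 2 * D.f x ^ 2) := by gcongr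
    have h8 : P.CG * (‖V‖ ^ 2 * (‖D.G x i‖ * ‖pf.Lam x i‖)) ≤
        A * (‖V‖ ^ 2 * (D.f x * pf.fl x)) := by gcongr
    rw [hgeq i, inner_sub_right, real_inner_self_eq_norm_sq]
    linarith [h1, h2, h7, h8]
  have hpow : D.f x ^ (n - 2) * (D.f x ^ 2 + D.f x * pf.fl x) ≤
      (2 ^ (n + 2) + 2) * (gn (pf.g x) ^ n + pf.fl x ^ n) := by
    have e1 : D.f x ^ (n - 2) * D.f x ^ 2 = D.f x ^ n := by
      rw [← pow_add]; congr 1; omega
    have e2 : D.f x ^ (n - 2) * (D.f x * pf.fl x) = D.f x ^ (n - 1) * pf.fl x := by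
      rw [← mul_assoc, ← pow_succ]; congr 2; omega
    have y1 := (young1 n (by omega) (D.f x) (pf.fl x) hf0 hfl0).1
    have y2 := (young1 n (by omega) (gn (pf.g x)) (pf.fl x) hg0 hfl0).2.2.2.1
    have y3 : D.f x ^ n ≤ (gn (pf.g x) + pf.fl x) ^ n := pow_le_pow_left₀ hf0 hf2 n
    have hfln : 0 ≤ pf.fl x ^ n := pow_nonneg hfl0 n
    have hgnn : 0 ≤ gn (pf.g x) ^ n := pow_nonneg hg0 n
    rw [mul_add, e1, e2]
    have h2n : (2 : ℝ) ^ (n + 2) = 4 * 2 ^ n := by rw [pow_add]; ring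
    rw [h2n]
    have hp : (0 : ℝ) < 2 ^ n := by positivity
    linarith [mul_nonneg hp.le hfln, mul_nonneg hp.le hgnn]
  constructor
  · have hs := Finset.sum_le_sum fun i (_ : i ∈ Finset.univ) => hterm i
    rw [← Finset.mul_sum, Finset.sum_add_distrib, Finset.sum_add_distrib, Finset.sum_const,
      Finset.card_univ, Fintype.card_fin, nsmul_eq_mul] at hs
    have hs2 := mul_le_mul_of_nonneg_left hs hfn2
    have h3 : D.f x ^ (n - 2) * (n * (A * ‖V‖ ^ 2 * (D.f x ^ 2 + D.f x * pf.fl x))) ≤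
        K * ((gn (pf.g x) ^ n + pf.fl x ^ n) * ‖V‖ ^ 2) := by
      have h4 : 0 ≤ n * A * ‖V‖ ^ 2 := by positivity
      have h5 := mul_le_mul_of_nonneg_left hpow h4
      rw [hK]
      linarith
    unfold Pf.gL
    linarith
  · intro i
    have h1 := P.hG.near0 (pf.lam x) hlN (D.u x) huN hvt
    rw [← hveq] at h1
    have h2 : |inner ℝ (D.G x i) (P.F (pf.lam x) (D.u x) -
        P.κ₀ • fderiv ℝ P.π (D.u x) V)| ≤ ‖D.G x i‖ * (P.CG * ‖V‖ ^ 3) :=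
      (abs_real_inner_le_norm _ _).trans (mul_le_mul_of_nonneg_left h1 (norm_nonneg _))
    rw [inner_sub_right, inner_smul_right, ← hT.symm1 (D.u x) h4δ, hGt i, abs_sub_comm] at h2
    refine h2.trans ?_
    have h3 : 0 ≤ ‖D.G x i‖ * ‖V‖ ^ 3 := by positivity
    linarith [mul_le_mul_of_nonneg_right hK1 h3]

end H60NT
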