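import Pool.Agent.H60.NT.PayP
import Pool.Agent.H60.NT.ChiF
import Pool.Agent.H60.NT.WPtS
import Pool.Agent.H60.NT.OutInt
import Pool.Agent.H60.NT.BPow
import Pool.Agent.H60.NT.PfB

/-!
# [H60 NT PAYM] Payment: the main term

`x ∈ rg x₀ α`, `r = ‖x-x₀‖`, `s = - log r`: `fl^(n-2) ∑_i ⟨Lam_i, H(lam)⟩ ∂_i χ_α = (a/r)^(n-2) · (-1/r²) ∑ (x-x₀)_i ∂_iχ ⟨V s, H(Γ s)⟩
= (a/r)^(n-2) · (-κ'(p2 α r) p2 α/r) ⟨V s, H(Γ s)⟩` (`lam_der`, `chi_facts`; `∑ (x-x₀)_i²/(r · r²) = 1/r`). By `main` (`-κ' ≥ 0`) it is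
`≥ c d a^(n-2) σ² r^(1-n) |κ'(p2 α r)| p2 α log (2/(p2 α r))` (`s - sP = log (2/(p2 α r))`; with `a^(n-2)`). The integral over the ring of
`r^(1-n) |κ'(p2 α r)| p2 α log (2/(p2 α r))` is a positive constant independent of `α` (substitution `y = p2 α (x - x₀)`, positive because
`κ'` is not identically zero on `(1, 2)`: `κ` goes from `1` to `0`; the integrand is continuous and nonnegative).
Restricting to `S` costs at most `C d a^(n-1) p2 α^n |rg \ S| · σ ≤ C d e^(Q+4)(D_α + a^n)` (`b0`, `out_int`; the integrand is bounded by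
`C d (a p2 α)^(n-2) a p2 α · p2 α`).
-/

set_option autoImplicit false

namespace H60NT

open H60NH MeasureTheory Metric Set Filter Topology
open scoped ENNReal NNReal ContDiff

/-- the weight of the radial integral -/
private noncomputable def pmw {n m : ℕ} (P : Par n m) (t : ℝ) : ℝ :=
  (t⁻¹) ^ (n - 1) * (-deriv P.κf t) * Real.log (2 / t)

private theorem pmw_cont {n m : ℕ} (P : Par n m) : ContinuousOn (pmw P) (Ioi 0) := by
  have hk : Continuous (deriv P.κf) := P.hκ.smooth.continuous_deriv (by simp)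
  unfold pmw
  have h1 : ContinuousOn (fun t : ℝ => t⁻¹) (Ioi 0) := continuousOn_inv₀.mono (fun t ht => (ne_of_gt ht))
  have h2 : ContinuousOn (fun t : ℝ => Real.log (2 / t)) (Ioi 0) := by
    apply ContinuousOn.log
    · exact continuousOn_const.div continuousOn_id (fun t ht => ne_of_gt ht)
    · intro t ht
      have : (0 : ℝ) < t := ht
      positivity
  exact ((h1.pow _).mul hk.neg.continuousOn).mul h2

private theorem pmw_bd {n m : ℕ} (P : Par n m) (t : ℝ) (h1 : 1 ≤ t) (h2 : t ≤ 2) :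
    0 ≤ pmw P t ∧ pmw P t ≤ P.Lκ := by
  have hL := P.hκ.one_le
  have hk0 : 0 ≤ -deriv P.κf t := by
    have := P.hκ.anti.deriv_nonpos (x := t)
    linarith
  have hk1 : -deriv P.κf t ≤ P.Lκ := by
    have := P.hκ.der t
    rw [abs_le] at this
    linarith
  have hi0 : 0 ≤ (t⁻¹) ^ (n - 1) := by positivity
  have hi1 : (t⁻¹) ^ (n - 1) ≤ 1 := by
    apply pow_le_one₀ (by positivity)
    exact inv_le_one_of_one_le₀ h1
  have hl0 : 0 ≤ Real.log (2 / t) := by
    apply Real.log_nonneg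
    rw [le_div_iff₀ (by linarith)]
    linarith
  have hl1 : Real.log (2 / t) ≤ 1 := by
    have h3 : Real.log (2 / t) ≤ 2 / t - 1 := Real.log_le_sub_one_of_pos (by positivity)
    have h4 : 2 / t ≤ 2 := by
      rw [div_le_iff₀ (by linarith)]
      linarith
    linarith
  refine ⟨mul_nonneg (mul_nonneg hi0 hk0) hl0, ?_⟩
  unfold pmw
  calc (t⁻¹) ^ (n - 1) * (-deriv P.κf t) * Real.log (2 / t) ≤ 1 * P.Lκ * 1 := by
        apply mul_le_mul (mul_le_mul hi1 hk1 hk0 zero_le_one) hl1 hl0 (by linarith)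
    _ = P.Lκ := by ring

private theorem pm_ring {n m : ℕ} (P : Par n m) : ∃ c : ℝ, 0 < c ∧ ∀ (x₀ : E n) (j : ℕ),
    IntegrableOn (fun x => p2 j ^ n * pmw P (p2 j * ‖x - x₀‖)) (rg x₀ j) ∧
    ∫ x in rg x₀ j, p2 j ^ n * pmw P (p2 j * ‖x - x₀‖) = c := by
  have hn := P.hn
  obtain ⟨A, hA⟩ : ∃ A : Set (E n), A = {y : E n | 1 ≤ ‖y‖ ∧ ‖y‖ ≤ 2} := ⟨_, rfl⟩
  have hAc : IsClosed A := by
    rw [hA]
    exact (isClosed_le continuous_const continuous_norm).inter
      (isClosed_le continuous_norm continuous_const)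
  have hAk : IsCompact A := by
    apply (isCompact_closedBall (0 : E n) 2).of_isClosed_subset hAc
    intro y hy
    rw [hA] at hy
    rw [mem_closedBall, dist_zero_right]
    exact hy.2
  have hcont : ContinuousOn (fun y : E n => pmw P ‖y‖) A := by
    apply (pmw_cont P).comp continuous_norm.continuousOn
    intro y hy
    rw [hA] at hy
    have := hy.1
    show (0 : ℝ) < ‖y‖
    linarith
  have hint : IntegrableOn (fun y : E n => pmw P ‖y‖) A := hcont.integrableOn_compact hAk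
  refine ⟨∫ y in A, pmw P ‖y‖, ?_, ?_⟩
  · rw [setIntegral_pos_iff_support_of_nonneg_ae _ hint]
    · obtain ⟨t₀, ht₀, hd⟩ := exists_deriv_eq_slope P.κf (a := 1) (b := 2) (by norm_num)
        P.hκ.smooth.continuous.continuousOn (P.hκ.smooth.differentiable (by simp)).differentiableOn
      rw [P.hκ.one 1 le_rfl, P.hκ.zero 2 le_rfl] at hd
      have hk : Continuous (deriv P.κf) := P.hκ.smooth.continuous_deriv (by simp)
      have hU : IsOpen {y : E n | (1 < ‖y‖ ∧ ‖y‖ < 2) ∧ deriv P.κf ‖y‖ < 0} := by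
        apply IsOpen.inter
        · exact (isOpen_lt continuous_const continuous_norm).inter
            (isOpen_lt continuous_norm continuous_const)
        · exact isOpen_lt (hk.comp continuous_norm) continuous_const
      have hne : ({y : E n | (1 < ‖y‖ ∧ ‖y‖ < 2) ∧ deriv P.κf ‖y‖ < 0}).Nonempty := by
        refine ⟨t₀ • (ev ⟨0, by omega⟩ : E n), ?_⟩
        have h1 : ‖t₀ • (ev ⟨0, by omega⟩ : E n)‖ = t₀ := by
          rw [norm_smul]
          unfold ev
          rw [PiLp.norm_single, norm_one, mul_one, Real.norm_of_nonneg (by linarith [ht₀.1])]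
        simp only [mem_ofPred_eq, h1]
        exact ⟨ht₀, by rw [hd]; norm_num⟩
      refine lt_of_lt_of_le (hU.measure_pos volume hne) (measure_mono ?_)
      intro y hy
      obtain ⟨⟨h1, h2⟩, h3⟩ := hy
      refine ⟨?_, by rw [hA]; exact ⟨h1.le, h2.le⟩⟩
      rw [Function.mem_support]
      apply ne_of_gt
      unfold pmw
      have h4 : 0 < Real.log (2 / ‖y‖) := by
        apply Real.log_pos
        rw [lt_div_iff₀ (by linarith)]
        linarith
      have h5 : 0 < -deriv P.κf ‖y‖ := by linarith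
      have h6 : 0 < (‖y‖⁻¹) ^ (n - 1) := by
        have : 0 < ‖y‖ := by linarith
        positivity
      exact mul_pos (mul_pos h6 h5) h4
    · rw [Filter.EventuallyLE, ae_restrict_iff' hAc.measurableSet]
      refine Filter.Eventually.of_forall ?_
      intro y hy
      rw [hA] at hy
      exact (pmw_bd P ‖y‖ hy.1 hy.2).1
  · intro x₀ j
    have hp := wps_p2_pos j
    have hrgA : ∀ x : E n, x ∈ rg x₀ j ↔ p2 j • (x - x₀) ∈ A := by
      intro x
      rw [hA]
      simp only [rg, mem_ofPred_eq, norm_smul, Real.norm_of_nonneg hp.le]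
      rw [div_le_iff₀ hp, le_div_iff₀ hp, mul_comm ‖x - x₀‖]
    have hrgc : IsClosed (rg x₀ j) := rgGeo_shell_closed x₀ _ _
    have hrgk : IsCompact (rg x₀ j) := by
      apply (isCompact_closedBall x₀ (2 / p2 j)).of_isClosed_subset hrgc
      intro x hx
      rw [mem_closedBall, dist_eq_norm]
      exact hx.2
    constructor
    · apply ContinuousOn.integrableOn_compact hrgk
      apply ContinuousOn.mul continuousOn_const
      apply (pmw_cont P).comp (by fun_prop)
      intro x hx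
      have h1 : 0 < 1 / p2 j := by positivity
      have h2 : 0 < ‖x - x₀‖ := lt_of_lt_of_le h1 hx.1
      show 0 < p2 j * ‖x - x₀‖
      positivity
    · rw [← integral_indicator hrgc.measurableSet, ← integral_indicator hAc.measurableSet]
      have e1 : (rg x₀ j).indicator (fun x => p2 j ^ n * pmw P (p2 j * ‖x - x₀‖)) =
          fun x => (fun x => p2 j ^ n * A.indicator (fun y => pmw P ‖y‖) (p2 j • x)) (x - x₀) := by
        funext x
        by_cases hx : x ∈ rg x₀ j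
        · rw [indicator_of_mem hx]
          simp only
          rw [indicator_of_mem ((hrgA x).1 hx), norm_smul, Real.norm_of_nonneg hp.le]
        · rw [indicator_of_notMem hx]
          simp only
          rw [indicator_of_notMem (fun h => hx ((hrgA x).2 h)), mul_zero]
      rw [e1, integral_sub_right_eq_self (fun x => p2 j ^ n * A.indicator (fun y => pmw P ‖y‖) (p2 j • x)) x₀,
        integral_const_mul, Measure.integral_comp_smul, finrank_euclideanSpace, Fintype.card_fin,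
        smul_eq_mul, abs_of_nonneg (by positivity), ← mul_assoc, mul_inv_cancel₀ (by positivity), one_mul]

/-- the pointwise identity -/
private theorem pm_pt {n m : ℕ} {P : Par n m} {D : Dyn P} {R : RC D} {Cp : ℝ} {α β : ℕ}
    (pf : Pf R Cp α β) (hαβ : α ≤ β) (H : E m → E m) (x : E n) (hx : x ∈ rg R.x₀ α) :
    pf.fl x ^ (n - 2) * ∑ i, inner ℝ (pf.Lam x i) (H (pf.lam x)) * fderiv ℝ (P.chi R.x₀ α) x (ev i) =
      pf.a ^ (n - 2) * (p2 α ^ n * ((p2 α * ‖x - R.x₀‖)⁻¹) ^ (n - 1) *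
        (-deriv P.κf (p2 α * ‖x - R.x₀‖))) *
        inner ℝ (pf.V (-Real.log ‖x - R.x₀‖)) (H (pf.Γ (-Real.log ‖x - R.x₀‖))) := by
  have hn := P.hn
  have hp := wps_p2_pos α
  obtain ⟨h1, h2⟩ := wps_annulus le_rfl hαβ hx
  have hr : 0 < ‖x - R.x₀‖ := lt_of_lt_of_le (by positivity) hx.1
  have hx0 : x ≠ R.x₀ := by
    intro h
    rw [h, sub_self, norm_zero] at hr
    exact lt_irrefl _ hr
  have hfl := (pf_lam pf x h1 h2).1
  have hchi := (chi_facts P R.x₀ α).2.2.2.2.2.2.2 x hx0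
  rw [hfl, pf.lam_eq x h1 h2]
  obtain ⟨Vs, hVs⟩ : ∃ Vs, Vs = pf.V (-Real.log ‖x - R.x₀‖) := ⟨_, rfl⟩
  obtain ⟨h, hh⟩ : ∃ h, h = H (pf.Γ (-Real.log ‖x - R.x₀‖)) := ⟨_, rfl⟩
  obtain ⟨k, hk⟩ : ∃ k, k = deriv P.κf (p2 α * ‖x - R.x₀‖) := ⟨_, rfl⟩
  obtain ⟨r, hrr⟩ : ∃ r, r = ‖x - R.x₀‖ := ⟨_, rfl⟩
  have e1 : ∀ i, inner ℝ (pf.Lam x i) h * fderiv ℝ (P.chi R.x₀ α) x (ev i) =
      ‖(x - R.x₀) i‖ ^ 2 * (-(k * p2 α) / r ^ 3 * inner ℝ Vs h) := by
    intro i
    unfold Pf.Lam
    rw [pf.lam_der x h1 h2, hchi, ← hVs, ← hk, ← hrr, inner_smul_left]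
    have e3 : inner ℝ (x - R.x₀) (ev i : E n) = (x - R.x₀) i := by
      unfold ev
      rw [EuclideanSpace.inner_single_right]
      simp
    have hr' : r ≠ 0 := by rw [hrr]; exact hr.ne'
    rw [e3]
    simp only [Real.norm_eq_abs, sq_abs, conj_trivial]
    field_simp
  rw [← hh]
  rw [Finset.sum_congr rfl (fun i _ => e1 i), ← Finset.sum_mul, ← EuclideanSpace.norm_sq_eq, ← hVs, ← hk,
    ← hrr]
  rw [← hrr] at hr
  obtain ⟨N, rfl⟩ : ∃ N, n = N + 2 := ⟨n - 2, by omega⟩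
  have e2 : N + 2 - 2 = N := by omega
  have e3 : N + 2 - 1 = N + 1 := by omega
  rw [e2, e3, div_pow, inv_pow, mul_pow]
  have hp' : p2 α ≠ 0 := hp.ne'
  have hr' : r ≠ 0 := hr.ne'
  rw [pow_succ (p2 α) N, pow_succ r N]
  field_simp
  ring

theorem pay_m {n m : ℕ} (P : Par n m) (Cp : ℝ) (hCp : 1 ≤ Cp) (C₀ : ℝ) (hC₀ : 1 ≤ C₀) :
    Uni P (fun C _ R => ∀ (α β : ℕ) (pf : Pf R Cp α β), α + 2 ≤ β → ∀ (q q' : E m) (d σ : ℝ),
      RD pf C₀ q q' d σ →
      (1 / C) * d * pf.a ^ (n - 2) * σ ^ 2 - C * pf.Er α ≤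
        ∫ x in rg R.x₀ α ∩ R.S, pf.fl x ^ (n - 2) *
          ∑ i, inner ℝ (pf.Lam x i) (P.F q' (pf.lam x) - P.F q (pf.lam x)) *
            fderiv ℝ (P.chi R.x₀ α) x (ev i)) := by
  have hn := P.hn
  obtain ⟨c, hc, hring⟩ := pm_ring P
  obtain ⟨_, tb, _, htb, Hb⟩ := b_pow P
  obtain ⟨_, tq, _, hto, Ho⟩ := out_int P
  have hL := P.hκ.one_le
  obtain ⟨C, hC⟩ : ∃ C : ℝ, C = P.Lκ + C₀ / c := ⟨_, rfl⟩
  have hCc : 0 < C₀ / c := by positivity
  have hC1 : 1 ≤ C := by rw [hC]; linarith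
  have hC0 : 0 < C := by linarith
  have hCL : P.Lκ ≤ C := by rw [hC]; linarith
  have hCi : 1 / C ≤ (1 / C₀) * c := by
    have h1 : C₀ / c ≤ C := by rw [hC]; linarith
    have h2 : 1 / C ≤ 1 / (C₀ / c) := one_div_le_one_div_of_le hCc h1
    have h3 : 1 / (C₀ / c) = (1 / C₀) * c := by
      rw [one_div_div]
      ring
    linarith
  refine ⟨C, min tb tq, hC1, lt_min htb hto, ?_⟩
  intro Q C₅ t₀ h5 h0 ht
  obtain ⟨eb, heb, heb1, Kb⟩ := Hb Q C₅ t₀ h5 h0 (ht.trans (min_le_left _ _))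
  obtain ⟨eo, heo, heo1, Ko⟩ := Ho Q C₅ t₀ h5 h0 (ht.trans (min_le_right _ _))
  refine ⟨min eb eo, lt_min heb heo, (min_le_left _ _).trans heb1, ?_⟩
  intro D R hR α β pf hαβ q q' d σ rd
  have hSm := (Kb D R (hR.mono (min_le_left _ _))).1
  have hout := ((Ko D R (hR.mono (min_le_right _ _))) α pf.ge).2 pf.a pf.a_nonneg
  obtain ⟨-, -, -, hout4⟩ := hout
  have ha := pf.a_nonneg
  have hd := rd.d_nonneg
  have hp := wps_p2_pos α
  obtain ⟨A, hA⟩ : ∃ A : ℝ, A = (1 / C₀) * d * σ ^ 2 * pf.a ^ (n - 2) := ⟨_, rfl⟩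
  have hA0 : 0 ≤ A := by rw [hA]; positivity
  obtain ⟨φ, hφ⟩ : ∃ φ : E n → ℝ, φ = fun x => p2 α ^ n * pmw P (p2 α * ‖x - R.x₀‖) := ⟨_, rfl⟩
  have hφi := (hring R.x₀ α).1
  have hφc := (hring R.x₀ α).2
  rw [← hφ] at hφi hφc
  have hrgc : IsClosed (rg R.x₀ α) := rgGeo_shell_closed R.x₀ _ _
  have hrgk : IsCompact (rg R.x₀ α) := by
    apply (isCompact_closedBall R.x₀ (2 / p2 α)).of_isClosed_subset hrgc
    intro x hx
    rw [mem_closedBall, dist_eq_norm]
    exact hx.2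
  have hrgm := (rg_meas R.x₀ α).1
  -- the integrand is continuous
  have hcont : Continuous (fun x => pf.fl x ^ (n - 2) *
      ∑ i, inner ℝ (pf.Lam x i) (P.F q' (pf.lam x) - P.F q (pf.lam x)) *
        fderiv ℝ (P.chi R.x₀ α) x (ev i)) := by
    have hF : ∀ q : E m, Continuous (P.F q) := by
      intro q
      have h1 : ContDiff ℝ ∞ (P.F q) := P.hG.smooth.comp (contDiff_const.prodMk contDiff_id)
      exact h1.continuous
    have hlam := pf.lam_c1.continuous
    have hD : Continuous (fderiv ℝ pf.lam) := pf.lam_c1.continuous_fderiv (by simp)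
    have hLam : ∀ i, Continuous (fun x => pf.Lam x i) := by
      intro i
      unfold Pf.Lam
      exact hD.clm_apply continuous_const
    have hfl : Continuous pf.fl := by
      unfold Pf.fl gn
      exact Real.continuous_sqrt.comp (continuous_finset_sum _ (fun i _ => (hLam i).norm.pow 2))
    have hchi : Continuous (fderiv ℝ (P.chi R.x₀ α)) :=
      (chi_facts P R.x₀ α).1.continuous_fderiv (by simp)
    apply (hfl.pow _).mul
    apply continuous_finset_sum
    intro i _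
    apply Continuous.mul
    · exact (hLam i).inner (((hF q').comp hlam).sub ((hF q).comp hlam))
    · exact hchi.clm_apply continuous_const
  -- pointwise bound
  have hpt : ∀ x ∈ rg R.x₀ α ∩ R.S, A * φ x ≤ pf.fl x ^ (n - 2) *
      ∑ i, inner ℝ (pf.Lam x i) (P.F q' (pf.lam x) - P.F q (pf.lam x)) *
        fderiv ℝ (P.chi R.x₀ α) x (ev i) := by
    intro x hx
    have hr : 0 < ‖x - R.x₀‖ := lt_of_lt_of_le (by positivity) hx.1.1
    have hu : p2 α * ‖x - R.x₀‖ ≤ 2 := by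
      have := hx.1.2
      rw [le_div_iff₀ hp] at this
      linarith
    have hl : 1 ≤ p2 α * ‖x - R.x₀‖ := by
      have := hx.1.1
      rw [div_le_iff₀ hp] at this
      linarith
    rw [pm_pt pf (by omega) (fun y => P.F q' y - P.F q y) x hx.1]
    have elog : -Real.log ‖x - R.x₀‖ - (Real.log (p2 α) - Real.log 2) =
        Real.log (2 / (p2 α * ‖x - R.x₀‖)) := by
      rw [Real.log_div (by norm_num) (by positivity), Real.log_mul hp.ne' hr.ne']
      ring
    have hm := rd.main (-Real.log ‖x - R.x₀‖) ⟨by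
        have h1 : 0 ≤ Real.log (2 / (p2 α * ‖x - R.x₀‖)) := by
          apply Real.log_nonneg
          rw [le_div_iff₀ (by positivity)]
          linarith
        linarith, by
        have h1 : Real.log 1 ≤ Real.log (p2 α * ‖x - R.x₀‖) := Real.log_le_log one_pos hl
        rw [Real.log_one, Real.log_mul hp.ne' hr.ne'] at h1
        linarith⟩
    rw [elog] at hm
    have hk0 : 0 ≤ -deriv P.κf (p2 α * ‖x - R.x₀‖) := by
      have := P.hκ.anti.deriv_nonpos (x := p2 α * ‖x - R.x₀‖)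
      linarith
    have hK0 : 0 ≤ pf.a ^ (n - 2) * (p2 α ^ n * ((p2 α * ‖x - R.x₀‖)⁻¹) ^ (n - 1) *
        (-deriv P.κf (p2 α * ‖x - R.x₀‖))) := by positivity
    calc A * φ x = pf.a ^ (n - 2) * (p2 α ^ n * ((p2 α * ‖x - R.x₀‖)⁻¹) ^ (n - 1) *
        (-deriv P.κf (p2 α * ‖x - R.x₀‖))) *
        ((1 / C₀) * d * σ ^ 2 * Real.log (2 / (p2 α * ‖x - R.x₀‖))) := by
          rw [hA, hφ]
          simp only
          unfold pmw
          ring
      _ ≤ _ := mul_le_mul_of_nonneg_left hm hK0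
  have hint1 : IntegrableOn (fun x => A * φ x) (rg R.x₀ α ∩ R.S) :=
    (hφi.mono_set inter_subset_left).const_mul A
  have hint2 := (hcont.continuousOn.integrableOn_compact (μ := volume) hrgk).mono_set
    (inter_subset_left (s := rg R.x₀ α) (t := R.S))
  have hmono := setIntegral_mono_on hint1 hint2 (hrgm.inter hSm) hpt
  refine le_trans ?_ hmono
  rw [integral_const_mul]
  have hsplit := integral_inter_add_diff hSm hφi
  rw [hφc] at hsplit
  have hfin : volume (rg R.x₀ α \ R.S) ≠ ⊤ :=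
    ((measure_mono diff_subset).trans_lt hrgk.measure_lt_top).ne
  have hbad : ∫ x in rg R.x₀ α \ R.S, φ x ≤ p2 α ^ n * P.Lκ * (volume (rg R.x₀ α \ R.S)).toReal := by
    have h1 : ∫ x in rg R.x₀ α \ R.S, φ x ≤ ∫ x in rg R.x₀ α \ R.S, p2 α ^ n * P.Lκ := by
      apply setIntegral_mono_on (hφi.mono_set diff_subset) (integrableOn_const hfin) (hrgm.diff hSm)
      intro x hx
      rw [hφ]
      simp only
      apply mul_le_mul_of_nonneg_left _ (by positivity)
      apply (pmw_bd P _ _ _).2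
      · have := hx.1.1
        rw [div_le_iff₀ hp] at this
        linarith
      · have := hx.1.2
        rw [le_div_iff₀ hp] at this
        linarith
    rw [setIntegral_const, smul_eq_mul, measureReal_def] at h1
    linarith
  have hEr : pf.a ^ n * (p2 α ^ n * (volume (rg R.x₀ α \ R.S)).toReal) ≤ pf.Er α := by
    refine hout4.trans ?_
    unfold Pf.Er
    apply mul_le_mul_of_nonneg_right
    · exact pow_le_pow_of_le_one R.e_pos.le R.e_le (by omega)
    · apply add_nonneg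
      · exact integral_nonneg fun x => pow_nonneg (Real.sqrt_nonneg _) _
      · positivity
  have hAa : A ≤ pf.a ^ n := by
    have h1 : (1 / C₀) * d ≤ 1 := by
      rw [one_div, inv_mul_le_iff₀ (by linarith)]
      linarith [rd.d_le]
    have h2 : σ ^ 2 ≤ pf.a ^ 2 := pow_le_pow_left₀ rd.σ_nonneg rd.σ_le 2
    have h3 : pf.a ^ n = 1 * pf.a ^ 2 * pf.a ^ (n - 2) := by
      rw [one_mul, ← pow_add]
      congr 1
      omega
    rw [hA, h3]
    apply mul_le_mul_of_nonneg_right _ (by positivity)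
    apply mul_le_mul h1 h2 (by positivity) zero_le_one
  have hv0 : 0 ≤ p2 α ^ n * (volume (rg R.x₀ α \ R.S)).toReal := by positivity
  have hEr0 : 0 ≤ pf.Er α := le_trans (by positivity) hEr
  have k1 : A * (∫ x in rg R.x₀ α \ R.S, φ x) ≤ P.Lκ * pf.Er α := by
    calc A * (∫ x in rg R.x₀ α \ R.S, φ x) ≤ A * (p2 α ^ n * P.Lκ * (volume (rg R.x₀ α \ R.S)).toReal) :=
          mul_le_mul_of_nonneg_left hbad hA0
      _ = P.Lκ * (A * (p2 α ^ n * (volume (rg R.x₀ α \ R.S)).toReal)) := by ring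
      _ ≤ P.Lκ * (pf.a ^ n * (p2 α ^ n * (volume (rg R.x₀ α \ R.S)).toReal)) :=
          mul_le_mul_of_nonneg_left (mul_le_mul_of_nonneg_right hAa hv0) (by linarith)
      _ ≤ P.Lκ * pf.Er α := mul_le_mul_of_nonneg_left hEr (by linarith)
  have k2 : P.Lκ * pf.Er α ≤ C * pf.Er α := mul_le_mul_of_nonneg_right hCL hEr0
  have k3 : (1 / C) * d * pf.a ^ (n - 2) * σ ^ 2 ≤ A * c := by
    calc (1 / C) * d * pf.a ^ (n - 2) * σ ^ 2 = (1 / C) * (d * pf.a ^ (n - 2) * σ ^ 2) := by ring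
      _ ≤ ((1 / C₀) * c) * (d * pf.a ^ (n - 2) * σ ^ 2) := mul_le_mul_of_nonneg_right hCi (by positivity)
      _ = A * c := by rw [hA]; ring
  have k4 : A * ∫ x in rg R.x₀ α ∩ R.S, φ x = A * c - A * ∫ x in rg R.x₀ α \ R.S, φ x := by
    rw [← hsplit]
    ring
  rw [k4]
  linarith

end H60NT
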