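import Pool.Agent.H60.NT.PfGn
import Pool.Agent.H60.NT.BPow

/-!
# [H60 NT PFC] (4c)

`α ≤ j ≤ β`. `∫_{fr} gn g^2 = ∫_{fr ∩ S} + ∫_{fr \ S}`. On `fr ∩ S`: `fl = a/‖x-x₀‖ ≥ a p2 j / 4`, so
`a^(n-2) p2 j^(n-2) ∫_{fr ∩ S} gn g² ≤ 4^(n-2) ∫_{fr ∩ S} fl^(n-2) gn g² ≤ 4^(n-2) ∫_{fr ∩ S} z ≤ 4^(n-2) Z_j^+` (`fr_int`).
On `fr \ S`: Hölder `∫_{fr \ S} gn g² ≤ |fr \ S|^(1 - 2/n) (∫_{fr} gn g^n)^(2/n)`, so
`a^(n-2) p2 j^(n-2) ∫ ≤ a^(n-2) b_j^(1-2/n) (C (D_j + a^n))^(2/n) ≤ C e^(Q+4) (D_j + a^n)` (`b_exp`, `b_pow`;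
`1 - 2/n ≥ 1/(2n)`; `a^(n-2) X^(2/n) ≤ X` for `X ≥ a^n`).
Second claim: `(x + y)^(n/2) ≤ C (x^(n/2) + y^(n/2))`, on `fr ∩ S` Hölder
`(p2 j^(n-2) ∫_{fr∩S} gn g²)^(n/2) ≤ C ∫_{fr ∩ S} gn g^n ≤ C ∫_{fr ∩ S} z` (volume `fr_vol`), on `fr \ S`
`(b_j^(1-2/n) (∫_{fr} gn g^n)^(2/n))^(n/2) = b_j^((n-2)/2) ∫_{fr} gn g^n`.
-/

set_option autoImplicit false

namespace H60NT

open H60NH MeasureTheory Metric Set Filter Topology
open scoped ENNReal NNReal ContDiff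

private theorem pfc_p2 (k : ℕ) : 0 < p2 k ∧ 1 ≤ p2 k := by
  have h : 1 ≤ p2 k := by
    unfold p2
    exact one_le_pow₀ (by norm_num)
  exact ⟨by linarith, h⟩

private theorem pfc_p2_mono {j k : ℕ} (h : k ≤ j) : p2 k ≤ p2 j := by
  unfold p2
  exact pow_le_pow_right₀ (by norm_num) h

/-- A pointwise inequality integrated over a set of finite measure. -/
private theorem pfc_set {n : ℕ} {A : Set (E n)} (hA : volume A < ⊤) (hAm : MeasurableSet A)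
    {F H : E n → ℝ} {c d r : ℝ} (hF : IntegrableOn F A) (hH : IntegrableOn H A)
    (h : ∀ x ∈ A, c * F x ≤ r + d * H x) :
    c * ∫ x in A, F x ≤ r * (volume A).toReal + d * ∫ x in A, H x := by
  have hfin : IsFiniteMeasure (volume.restrict A) :=
    ⟨by rw [Measure.restrict_apply_univ]; exact hA⟩
  have hi1 : Integrable (fun x => c * F x) (volume.restrict A) := hF.const_mul c
  have hi0 : Integrable (fun _ : E n => r) (volume.restrict A) := integrable_const _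
  have hi2 : Integrable (fun x => d * H x) (volume.restrict A) := hH.const_mul d
  have h1 : ∫ x in A, c * F x ≤ ∫ x in A, (r + d * H x) :=
    setIntegral_mono_on hi1 (hi0.add hi2) hAm h
  rw [integral_const_mul, integral_add hi0 hi2, integral_const, integral_const_mul,
    smul_eq_mul] at h1
  have h2 : (volume.restrict A).real univ = (volume A).toReal := by
    rw [Measure.real, Measure.restrict_apply_univ]
  rw [h2] at h1
  linarith

theorem pf_c {n m : ℕ} (P : Par n m) (Cp : ℝ) (hCp : 1 ≤ Cp) : Uni P (fun C _ R =>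
    ∀ (α β : ℕ) (pf : Pf R Cp α β), α + 2 ≤ β → ∀ j, α ≤ j → j ≤ β →
      0 ≤ pf.Gg j ∧ pf.a ^ (n - 2) * pf.Gg j ^ 2 ≤ C * (pf.Zp j + pf.Er j) ∧
      pf.Gg j ^ n ≤ C * (pf.Zp j + pf.Er j)) := by
  have hn := P.hn
  obtain ⟨Cb, tb, -, htb, Hb⟩ := b_pow P
  obtain ⟨Cg, hCg, Hg⟩ := pf_gn P Cp hCp
  obtain ⟨Cv, hCv, Hv⟩ := fr_vol n (by omega)
  obtain ⟨K1, hK1⟩ : ∃ K : ℝ, K = 4 ^ (n - 2) := ⟨_, rfl⟩
  obtain ⟨K2, hK2⟩ : ∃ K : ℝ, K = (2 * Cv) ^ (n - 2) := ⟨_, rfl⟩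
  have hK10 : 0 < K1 := by rw [hK1]; positivity
  have hK20 : 0 < K2 := by rw [hK2]; positivity
  refine ⟨K1 + (1 + Cg) + 2 * (K2 + Cg), tb, by linarith, htb, ?_⟩
  intro Q C₅ t₀ h5 h0 h01
  obtain ⟨e₁, he₁, he₁1, H⟩ := Hb Q C₅ t₀ h5 h0 h01
  refine ⟨min e₁ (1 / 4), by positivity, (min_le_left _ _).trans he₁1, ?_⟩
  intro D R hR α β pf hαβ j hαj hjβ
  have hR' : Ok R Q C₅ t₀ e₁ := hR.mono (min_le_left _ _)
  have he4 : R.e ≤ 1 / 4 := hR.e_le.trans (min_le_right _ _)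
  obtain ⟨hS, hb⟩ := H D R hR'
  have he0 := R.e_pos
  have he1 := R.e_le
  have hge := pf.ge
  have hW1 : 1 ≤ R.W := (rc_num R).2.2.2.2.2.1
  obtain ⟨hG, -, -⟩ := Hg D R α β pf hαβ hS
  obtain ⟨gi1, gi2, gi3, gi4, gi5, -, gi7, gi8⟩ := hG j (by omega) (by omega)
  obtain ⟨-, -, -, -, zm, -, -, -⟩ := hG (j - 1) (by omega) (by omega)
  obtain ⟨-, -, -, -, zp, -, -, -⟩ := hG (j + 1) (by omega) (by omega)
  obtain ⟨hb0, hb1, hb2, -⟩ := hb j (by omega)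
  obtain ⟨hp, hp1⟩ := pfc_p2 j
  obtain ⟨hv1, hv2, -, -⟩ := Hv R.x₀ j
  obtain ⟨hrm, hfm, hbm⟩ := rg_meas R.x₀ j
  obtain ⟨-, -, -, -, -, hzm, -, hz0, -⟩ := pf_vg pf
  have ha0 := pf.a_nonneg
  have hY0 : ∀ x, 0 ≤ gn (pf.g x) := fun x => Real.sqrt_nonneg _
  -- the number `ν = e^(Q+3)`
  obtain ⟨ν, hν⟩ : ∃ ν : ℝ, ν = R.e ^ (R.Q + 3) := ⟨_, rfl⟩
  have hν0 : 0 < ν := by rw [hν]; positivity
  have hν4 : ν ≤ 1 / 4 := by
    rw [hν]
    have h1 : R.e ^ (R.Q + 3) ≤ R.e ^ 1 := pow_le_pow_of_le_one he0.le he1 (by omega)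
    rw [pow_one] at h1
    linarith
  have hν1 : ν ≤ 1 := by linarith
  have hνn : ν ^ (n - 2) ≤ ν := by
    have h1 : ν ^ (n - 2) ≤ ν ^ 1 := pow_le_pow_of_le_one hν0.le hν1 (by omega)
    rwa [pow_one] at h1
  have hbν : R.b j ≤ ν ^ 3 := by
    have hn0 : (0 : ℝ) < 2 * n := by
      have : (0 : ℝ) < n := by exact_mod_cast (by omega : 0 < n)
      linarith
    have h1 : R.b j = ((R.b j) ^ (1 / (2 * n : ℝ))) ^ (2 * n) := by
      rw [← Real.rpow_natCast, ← Real.rpow_mul hb0]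
      have h2 : 1 / (2 * n : ℝ) * ((2 * n : ℕ) : ℝ) = 1 := by
        push_cast
        field_simp
      rw [h2, Real.rpow_one]
    rw [h1]
    have h3 : ((R.b j) ^ (1 / (2 * n : ℝ))) ^ (2 * n) ≤ (R.e ^ (R.Q + 4)) ^ (2 * n) :=
      pow_le_pow_left₀ (Real.rpow_nonneg hb0 _) hb2 _
    refine h3.trans ?_
    rw [hν, ← pow_mul, ← pow_mul]
    refine pow_le_pow_of_le_one he0.le he1 ?_
    exact Nat.mul_le_mul (by omega) (by omega)
  -- the sets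
  have hfrS : volume (fr R.x₀ j ∩ R.S) < ⊤ := (measure_mono inter_subset_left).trans_lt hv2
  have hfrD : volume (fr R.x₀ j \ R.S) < ⊤ := (measure_mono sdiff_subset).trans_lt hv2
  have hxfr : ∀ x ∈ fr R.x₀ j, ‖x‖ < 64 := by
    intro x hx
    obtain ⟨h1, h2⟩ := hx
    have h3 : 4 / p2 j ≤ 4 := by
      rw [div_le_iff₀ hp]
      linarith
    have h5 : ‖x‖ ≤ ‖x - R.x₀‖ + ‖R.x₀‖ := by
      have := norm_add_le (x - R.x₀) R.x₀
      rwa [sub_add_cancel] at this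
    have := R.hx
    linarith
  have hzfr : ∀ x ∈ fr R.x₀ j, gn (pf.g x) ^ n ≤ pf.z x := fun x hx =>
    (pf_in pf x (hxfr x hx)).2.2.2.2.1
  have hafr : ∀ x ∈ fr R.x₀ j, pf.a ^ (n - 2) * p2 j ^ (n - 2) * gn (pf.g x) ^ 2 ≤
      K1 * pf.z x := by
    intro x hx
    have h1 := (pf_in pf x (hxfr x hx)).2.2.2.2.2.1
    obtain ⟨h2, h3⟩ := hx
    have hpα := pfc_p2_mono hαj
    have hpβ := pfc_p2_mono hjβ
    obtain ⟨hα0, -⟩ := pfc_p2 α
    obtain ⟨hβ0, -⟩ := pfc_p2 β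
    have hr : 0 < ‖x - R.x₀‖ := lt_of_lt_of_le (by positivity) h2
    have h4 : 1 / (4 * p2 β) ≤ ‖x - R.x₀‖ := by
      refine le_trans ?_ h2
      rw [div_le_div_iff₀ (by positivity) (by positivity)]
      linarith
    have h5' : ‖x - R.x₀‖ ≤ 8 / p2 α := by
      refine h3.trans ?_
      rw [div_le_div_iff₀ hp hα0]
      linarith
    have h6 := (pf_lam pf x h4 h5').1
    have h7 : pf.a * p2 j ≤ 4 * pf.fl x := by
      rw [h6, mul_div_assoc', le_div_iff₀ hr]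
      rw [le_div_iff₀ hp] at h3
      have := mul_le_mul_of_nonneg_left h3 ha0
      linarith
    have h8 : (pf.a * p2 j) ^ (n - 2) ≤ (4 * pf.fl x) ^ (n - 2) :=
      pow_le_pow_left₀ (by positivity) h7 _
    rw [mul_pow, mul_pow] at h8
    calc pf.a ^ (n - 2) * p2 j ^ (n - 2) * gn (pf.g x) ^ 2
        ≤ 4 ^ (n - 2) * pf.fl x ^ (n - 2) * gn (pf.g x) ^ 2 :=
          mul_le_mul_of_nonneg_right h8 (by positivity)
      _ = K1 * (pf.fl x ^ (n - 2) * gn (pf.g x) ^ 2) := by rw [hK1]; ring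
      _ ≤ K1 * pf.z x := mul_le_mul_of_nonneg_left h1 hK10.le
  -- integrals
  have hZp : ∫ x in fr R.x₀ j ∩ R.S, pf.z x ≤ pf.Zp j := by
    unfold Pf.Zp Pf.Z
    exact fr_int (by omega) R.x₀ j (by omega) R.S hS pf.z hz0 (gi3.mono_set inter_subset_left)
  have hZp0 : 0 ≤ pf.Zp j := by
    unfold Pf.Zp
    linarith
  have hEr0 : 0 ≤ pf.Er j := gi8
  obtain ⟨X, hX⟩ : ∃ X : ℝ, X = R.Dj j + pf.a ^ n := ⟨_, rfl⟩
  have hX0 : 0 ≤ X := by rw [hX]; positivity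
  have hEr : pf.Er j = ν * X := by
    rw [hν, hX]
    rfl
  rw [← hX] at gi4
  have hbad : ∀ t : ℝ, 0 ≤ t → t ^ (n - 2) *
      (p2 j ^ (n - 2) * ∫ x in fr R.x₀ j \ R.S, gn (pf.g x) ^ 2) ≤ ν * t ^ n + ν * (Cg * X) := by
    intro t ht
    have h1 : ∀ x ∈ fr R.x₀ j \ R.S, (t ^ (n - 2) * p2 j ^ (n - 2)) * gn (pf.g x) ^ 2 ≤
        (t * p2 j) ^ n / ν ^ 2 + ν ^ (n - 2) * gn (pf.g x) ^ n := by
      intro x _
      have h2 := (young1 n (by omega) (t * p2 j / ν) (gn (pf.g x)) (by positivity) (hY0 x)).2.1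
      have h3 : ν ^ (n - 2) * ((t * p2 j / ν) ^ (n - 2) * gn (pf.g x) ^ 2) ≤
          ν ^ (n - 2) * ((t * p2 j / ν) ^ n + gn (pf.g x) ^ n) :=
        mul_le_mul_of_nonneg_left h2 (by positivity)
      have h4 : ν ^ (n - 2) * ((t * p2 j / ν) ^ (n - 2) * gn (pf.g x) ^ 2) =
          (t ^ (n - 2) * p2 j ^ (n - 2)) * gn (pf.g x) ^ 2 := by
        rw [div_pow, mul_pow]
        field_simp
      have h5 : ν ^ (n - 2) * (t * p2 j / ν) ^ n = (t * p2 j) ^ n / ν ^ 2 := by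
        obtain ⟨q, rfl⟩ : ∃ q, n = q + 2 := ⟨n - 2, by omega⟩
        simp only [Nat.add_sub_cancel]
        rw [div_pow, pow_add ν q 2]
        field_simp
      rw [h4, mul_add, h5] at h3
      exact h3
    have h2 := pfc_set hfrD (hfm.diff hS) (gi2.mono_set sdiff_subset) (gi1.mono_set sdiff_subset) h1
    have h3 : (t * p2 j) ^ n / ν ^ 2 * (volume (fr R.x₀ j \ R.S)).toReal ≤ ν * t ^ n := by
      have e1 : (t * p2 j) ^ n / ν ^ 2 * (volume (fr R.x₀ j \ R.S)).toReal =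
          t ^ n * (R.b j / ν ^ 2) := by
        unfold RC.b
        rw [mul_pow]
        ring
      have h4 : R.b j / ν ^ 2 ≤ ν := by
        rw [div_le_iff₀ (by positivity)]
        calc R.b j ≤ ν ^ 3 := hbν
          _ = ν * ν ^ 2 := by ring
      rw [e1]
      calc t ^ n * (R.b j / ν ^ 2) ≤ t ^ n * ν := mul_le_mul_of_nonneg_left h4 (by positivity)
        _ = ν * t ^ n := mul_comm _ _
    have h4 : ν ^ (n - 2) * ∫ x in fr R.x₀ j \ R.S, gn (pf.g x) ^ n ≤ ν * (Cg * X) := by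
      have h5 : ∫ x in fr R.x₀ j \ R.S, gn (pf.g x) ^ n ≤ Cg * X := by
        refine le_trans ?_ gi4
        exact setIntegral_mono_set gi1 (ae_of_all _ fun x => pow_nonneg (hY0 x) _)
          (LE.le.eventuallyLE sdiff_subset)
      have h6 : 0 ≤ ∫ x in fr R.x₀ j \ R.S, gn (pf.g x) ^ n :=
        integral_nonneg fun x => pow_nonneg (hY0 x) _
      exact mul_le_mul hνn h5 h6 hν0.le
    rw [← mul_assoc]
    linarith
  have hGg0 : 0 ≤ pf.Gg j := Real.sqrt_nonneg _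
  have hI0 : 0 ≤ p2 j ^ (n - 2) * ∫ x in fr R.x₀ j, gn (pf.g x) ^ 2 :=
    mul_nonneg (by positivity) (integral_nonneg fun x => by positivity)
  have hGg2 : pf.Gg j ^ 2 = p2 j ^ (n - 2) * ∫ x in fr R.x₀ j, gn (pf.g x) ^ 2 := by
    unfold Pf.Gg
    exact Real.sq_sqrt hI0
  have hsplit : ∫ x in fr R.x₀ j, gn (pf.g x) ^ 2 =
      (∫ x in fr R.x₀ j ∩ R.S, gn (pf.g x) ^ 2) + ∫ x in fr R.x₀ j \ R.S, gn (pf.g x) ^ 2 :=
    (integral_inter_add_sdiff hS gi2).symm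
  refine ⟨hGg0, ?_, ?_⟩
  · -- first claim
    have h1 := pfc_set (c := pf.a ^ (n - 2) * p2 j ^ (n - 2)) (r := 0) hfrS (hfm.inter hS)
      (gi2.mono_set inter_subset_left)
      (gi3.mono_set inter_subset_left) (d := K1) (by
        intro x hx
        have := hafr x hx.1
        linarith)
    have h2 := hbad pf.a ha0
    have e1 : pf.a ^ (n - 2) * pf.Gg j ^ 2 =
        (pf.a ^ (n - 2) * p2 j ^ (n - 2)) * (∫ x in fr R.x₀ j ∩ R.S, gn (pf.g x) ^ 2) +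
        pf.a ^ (n - 2) * (p2 j ^ (n - 2) * ∫ x in fr R.x₀ j \ R.S, gn (pf.g x) ^ 2) := by
      rw [hGg2, hsplit]
      ring
    rw [e1]
    have h3 : K1 * ∫ x in fr R.x₀ j ∩ R.S, pf.z x ≤ K1 * pf.Zp j :=
      mul_le_mul_of_nonneg_left hZp hK10.le
    have h4 : ν * pf.a ^ n ≤ ν * X := by
      refine mul_le_mul_of_nonneg_left ?_ hν0.le
      rw [hX]
      linarith
    rw [zero_mul, zero_add] at h1
    have h5 : (K1 + (1 + Cg) + 2 * (K2 + Cg)) * (pf.Zp j + pf.Er j) =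
        K1 * pf.Zp j + (1 + Cg) * pf.Zp j + 2 * (K2 + Cg) * pf.Zp j +
          (K1 * pf.Er j + (1 + Cg) * pf.Er j + 2 * (K2 + Cg) * pf.Er j) := by ring
    have h6 : (1 + Cg) * pf.Er j = ν * X + ν * (Cg * X) := by
      rw [hEr]
      ring
    have h7 : 0 ≤ (1 + Cg) * pf.Zp j := by positivity
    have h8 : 0 ≤ 2 * (K2 + Cg) * pf.Zp j := by positivity
    have h9 : 0 ≤ K1 * pf.Er j := by positivity
    have h10 : 0 ≤ 2 * (K2 + Cg) * pf.Er j := by positivity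
    linarith
  · -- second claim
    obtain ⟨t, ht⟩ : ∃ t, t = pf.Gg j := ⟨_, rfl⟩
    rw [← ht] at hGg0 hGg2 ⊢
    have hc : ∀ x ∈ fr R.x₀ j ∩ R.S, (t ^ (n - 2) * p2 j ^ (n - 2)) * gn (pf.g x) ^ 2 ≤
        (t * p2 j) ^ n / (2 * Cv) ^ 2 + K2 * pf.z x := by
      intro x hx
      have h2 := (young1 n (by omega) (t * p2 j / (2 * Cv)) (gn (pf.g x)) (by positivity)
        (hY0 x)).2.1
      have h3 : (2 * Cv) ^ (n - 2) * ((t * p2 j / (2 * Cv)) ^ (n - 2) * gn (pf.g x) ^ 2) ≤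
          (2 * Cv) ^ (n - 2) * ((t * p2 j / (2 * Cv)) ^ n + gn (pf.g x) ^ n) :=
        mul_le_mul_of_nonneg_left h2 (by positivity)
      have h4 : (2 * Cv) ^ (n - 2) * ((t * p2 j / (2 * Cv)) ^ (n - 2) * gn (pf.g x) ^ 2) =
          (t ^ (n - 2) * p2 j ^ (n - 2)) * gn (pf.g x) ^ 2 := by
        rw [div_pow, mul_pow t]
        have : (2 * Cv) ^ (n - 2) ≠ 0 := by positivity
        field_simp
      have h5 : (2 * Cv) ^ (n - 2) * (t * p2 j / (2 * Cv)) ^ n = (t * p2 j) ^ n / (2 * Cv) ^ 2 := by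
        obtain ⟨q, hq⟩ : ∃ q, n = q + 2 := ⟨n - 2, by omega⟩
        have hw : (2 * Cv) ≠ 0 := by positivity
        generalize 2 * Cv = w at *
        rw [hq]
        simp only [Nat.add_sub_cancel]
        rw [div_pow, pow_add w q 2]
        field_simp
      have h6 := hzfr x hx.1
      rw [h4, mul_add, h5, ← hK2] at h3
      have h7 : K2 * gn (pf.g x) ^ n ≤ K2 * pf.z x := mul_le_mul_of_nonneg_left h6 hK20.le
      linarith
    have h1 := pfc_set hfrS (hfm.inter hS) (gi2.mono_set inter_subset_left)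
      (gi3.mono_set inter_subset_left) hc
    have h2 := hbad t hGg0
    have e1 : t ^ n =
        (t ^ (n - 2) * p2 j ^ (n - 2)) * (∫ x in fr R.x₀ j ∩ R.S, gn (pf.g x) ^ 2) +
        t ^ (n - 2) * (p2 j ^ (n - 2) * ∫ x in fr R.x₀ j \ R.S, gn (pf.g x) ^ 2) := by
      have e2 : t ^ n = t ^ (n - 2) * t ^ 2 := by
        rw [← pow_add]
        congr 1
        omega
      rw [e2, hGg2, hsplit]
      ring
    have h3 : K2 * ∫ x in fr R.x₀ j ∩ R.S, pf.z x ≤ K2 * pf.Zp j :=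
      mul_le_mul_of_nonneg_left hZp hK20.le
    have h4 : (t * p2 j) ^ n / (2 * Cv) ^ 2 * (volume (fr R.x₀ j ∩ R.S)).toReal ≤ t ^ n / 4 := by
      have h5 : (volume (fr R.x₀ j ∩ R.S)).toReal ≤ (volume (fr R.x₀ j)).toReal :=
        ENNReal.toReal_mono hv2.ne (measure_mono inter_subset_left)
      have h6 : p2 j ^ n * (volume (fr R.x₀ j ∩ R.S)).toReal ≤ Cv :=
        (mul_le_mul_of_nonneg_left h5 (by positivity)).trans hv1
      have e3 : (t * p2 j) ^ n / (2 * Cv) ^ 2 * (volume (fr R.x₀ j ∩ R.S)).toReal =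
          t ^ n * ((p2 j ^ n * (volume (fr R.x₀ j ∩ R.S)).toReal) / (2 * Cv) ^ 2) := by
        rw [mul_pow]
        ring
      have h7 : (p2 j ^ n * (volume (fr R.x₀ j ∩ R.S)).toReal) / (2 * Cv) ^ 2 ≤ 1 / 4 := by
        rw [div_le_div_iff₀ (by positivity) (by norm_num)]
        have h8 := mul_le_mul_of_nonneg_left hCv (show 0 ≤ Cv by linarith)
        linarith
      rw [e3]
      calc t ^ n * ((p2 j ^ n * (volume (fr R.x₀ j ∩ R.S)).toReal) / (2 * Cv) ^ 2)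
          ≤ t ^ n * (1 / 4) := mul_le_mul_of_nonneg_left h7 (by positivity)
        _ = t ^ n / 4 := by ring
    have h5 : ν * t ^ n ≤ t ^ n / 4 := by
      calc ν * t ^ n ≤ 1 / 4 * t ^ n := mul_le_mul_of_nonneg_right hν4 (by positivity)
        _ = t ^ n / 4 := by ring
    have h6 : Cg * pf.Er j = ν * (Cg * X) := by
      rw [hEr]
      ring
    have h7 : t ^ n ≤ 2 * (K2 * pf.Zp j + Cg * pf.Er j) := by
      rw [h6]
      have h8 : t ^ n ≤ t ^ n / 4 + K2 * pf.Zp j + (t ^ n / 4 + ν * (Cg * X)) := by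
        calc t ^ n = _ := e1
          _ ≤ _ := by linarith
      linarith
    have h8 : (K1 + (1 + Cg) + 2 * (K2 + Cg)) * (pf.Zp j + pf.Er j) =
        2 * (K2 * pf.Zp j + Cg * pf.Er j) + (2 * Cg + K1 + 1 + Cg) * pf.Zp j +
          (K1 + (1 + Cg) + 2 * K2) * pf.Er j := by ring
    have h9 : 0 ≤ (2 * Cg + K1 + 1 + Cg) * pf.Zp j := by positivity
    have h10 : 0 ≤ (K1 + (1 + Cg) + 2 * K2) * pf.Er j := by positivity
    linarith

end H60NT
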