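import Pool.Agent.H60.NT.PfF
import Pool.Agent.H60.NT.PfC
import Pool.Agent.H60.NT.OutInt
import Pool.Agent.H60.NT.Def3
import Pool.Agent.H60.NT.WPtS

/-!
# [H60 NT PAYP] Payment: pointwise expansion on the good set

`m = α` (the first matched ring), `sP = log (p2 m) - log 2`, `Pt = Γ sP`. `x ∈ rg x₀ m ∩ S`: `s = - log ‖x - x₀‖ ∈ Icc sP (sP + 1)`
(`‖x-x₀‖ p2 m ∈ [1, 2]`), `lam x = Γ s`. `H = F q' - F q`, `δ' = dd q Pt - r₁`, `σ = √(a² - ⟨V sP, F q Pt⟩²)` (nonnegative by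
Cauchy-Schwarz, `‖F‖ ≤ 1`). `Geo.recentre` for this `Γ` (`Geod` restricted to `Icc sP (sP+1) ⊆ Icc (sj α - 4) (sj β + 4)`; `a ≤ Cp e ≤ a₀`).
(a) `‖H(u)‖ ≤ ‖H(lam)‖ + C δ' ‖v‖ ≤ C δ' (σ + ‖v‖)` (mean value inequality with the bound of `fderiv`).
(b) `Lam x i = ℓ_i V(s)`, `ℓ_i = -(x-x₀)_i/r²`; `|⟨V s, H(u) - H(lam)⟩| ≤ C δ' (σ ‖v‖ + a ‖v‖²)`: Taylor
`‖H(u) - H(lam) - DH(lam) v‖ ≤ C δ' ‖v‖²` (Lipschitz bound of `fderiv F q' - fderiv F q`), `v = v_t + v_n`, `v_t = Dπ(lam) v`,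
`‖v_n‖ ≤ C ‖v‖²` (`chord` with `y₀ = y = lam x`, `y' = u x ∈ N`), `|⟨V s, DH(lam) v_t⟩| ≤ C δ' σ ‖v_t‖`, `‖DH‖ ≤ C δ'`, `‖V s‖ = a`.
-/

set_option autoImplicit false

namespace H60NT

open H60NH MeasureTheory Metric Set Filter Topology
open scoped ENNReal NNReal ContDiff

/-- The data of a recentering at the ring `α` of the profile. -/
structure RD {n m : ℕ} {P : Par n m} {D : Dyn P} {R : RC D} {Cp : ℝ} {α β : ℕ}
    (pf : Pf R Cp α β) (C : ℝ) (q q' : E m) (d σ : ℝ) : Prop where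
  hq : q ∈ P.N
  hq' : q' ∈ P.N
  d_nonneg : 0 ≤ d
  d_le : d ≤ C
  σ_nonneg : 0 ≤ σ
  σ_le : σ ≤ pf.a
  b0 : ∀ y, ‖P.F q' y - P.F q y‖ ≤ C * d
  main : ∀ s ∈ Icc (Real.log (p2 α) - Real.log 2) (Real.log (p2 α)),
    (1 / C) * d * σ ^ 2 * (s - (Real.log (p2 α) - Real.log 2)) ≤
      inner ℝ (pf.V s) (P.F q' (pf.Γ s) - P.F q (pf.Γ s))
  pt : ∀ᵐ x, x ∈ rg R.x₀ α → x ∈ R.S →
    ‖P.F q' (pf.lam x) - P.F q (pf.lam x)‖ ≤ C * d * σ ∧
    ‖P.F q' (D.u x) - P.F q (D.u x)‖ ≤ C * d * (σ + ‖pf.v x‖) ∧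
    |inner ℝ (pf.V (-Real.log ‖x - R.x₀‖)) ((P.F q' (D.u x) - P.F q (D.u x)) -
      (P.F q' (pf.lam x) - P.F q (pf.lam x)))| ≤ C * d * (σ * ‖pf.v x‖ + pf.a * ‖pf.v x‖ ^ 2)

/-- the pointwise estimate (b) -/
private theorem pp_pt {n m : ℕ} (P : Par n m) (C' : ℝ) (hC' : 1 ≤ C')
    (hch : ∀ y₀ ∈ P.N, ∀ y ∈ P.N, ∀ y' ∈ P.N,
      ‖(y' - y) - fderiv ℝ P.π y₀ (y' - y)‖ ≤ C' * (‖y - y₀‖ + ‖y' - y‖) * ‖y' - y‖)
    (q q' : E m) (d σ a : ℝ) (hd : 0 ≤ d) (hσ : 0 ≤ σ) (ha : 0 ≤ a)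
    (b1 : ∀ y, ‖fderiv ℝ (P.F q') y - fderiv ℝ (P.F q) y‖ ≤ P.CG * d)
    (b2 : ∀ y y', ‖(fderiv ℝ (P.F q') y - fderiv ℝ (P.F q) y) - (fderiv ℝ (P.F q') y' - fderiv ℝ (P.F q) y')‖ ≤
      P.CG * d * ‖y - y'‖)
    (l u Vs : E m) (hl : l ∈ P.N) (hu : u ∈ P.N) (hV : ‖Vs‖ = a)
    (g1 : ‖P.F q' l - P.F q l‖ ≤ P.CG * d * σ)
    (g2 : ∀ b, fderiv ℝ P.π l b = b → |inner ℝ Vs (fderiv ℝ (P.F q') l b - fderiv ℝ (P.F q) l b)| ≤ P.CG * d * σ * ‖b‖) :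
    ‖P.F q' u - P.F q u‖ ≤ P.CG * d * (σ + ‖u - l‖) ∧
    |inner ℝ Vs ((P.F q' u - P.F q u) - (P.F q' l - P.F q l))| ≤
      P.CG * (1 + C') * d * (σ * ‖u - l‖ + a * ‖u - l‖ ^ 2) := by
  have hCG := P.hG.one_le
  have hCG0 : 0 ≤ P.CG := by linarith
  have hFd : ∀ q : E m, Differentiable ℝ (P.F q) := by
    intro q
    have h1 : ContDiff ℝ ∞ (P.F q) := P.hG.smooth.comp (contDiff_const.prodMk contDiff_id)
    exact h1.differentiable (by simp)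
  have hH : ∀ y, HasFDerivAt (fun y => P.F q' y - P.F q y) (fderiv ℝ (P.F q') y - fderiv ℝ (P.F q) y) y :=
    fun y => ((hFd q') y).hasFDerivAt.sub ((hFd q) y).hasFDerivAt
  have hCd : 0 ≤ P.CG * d := mul_nonneg hCG0 hd
  have hlip : ‖(P.F q' u - P.F q u) - (P.F q' l - P.F q l)‖ ≤ P.CG * d * ‖u - l‖ :=
    convex_univ.norm_image_sub_le_of_norm_hasFDerivWithin_le (f := fun y => P.F q' y - P.F q y)
      (fun y _ => (hH y).hasFDerivWithinAt) (fun y _ => b1 y) (mem_univ l) (mem_univ u)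
  have htay : ‖(P.F q' u - P.F q u) - (P.F q' l - P.F q l) - (fderiv ℝ (P.F q') l - fderiv ℝ (P.F q) l) (u - l)‖ ≤
      P.CG * d * ‖u - l‖ * ‖u - l‖ :=
    (convex_closedBall l ‖u - l‖).norm_image_sub_le_of_norm_hasFDerivWithin_le' (f := fun y => P.F q' y - P.F q y)
      (fun y _ => (hH y).hasFDerivWithinAt) (fun y hy => by
        rw [mem_closedBall, dist_eq_norm] at hy
        exact (b2 y l).trans (mul_le_mul_of_nonneg_left hy hCd))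
      (mem_closedBall_self (norm_nonneg _)) (by rw [mem_closedBall, dist_eq_norm])
  refine ⟨?_, ?_⟩
  · calc ‖P.F q' u - P.F q u‖ = ‖((P.F q' u - P.F q u) - (P.F q' l - P.F q l)) + (P.F q' l - P.F q l)‖ := by
          congr 1
          abel
      _ ≤ P.CG * d * ‖u - l‖ + P.CG * d * σ := (norm_add_le _ _).trans (add_le_add hlip g1)
      _ = P.CG * d * (σ + ‖u - l‖) := by ring
  · obtain ⟨vt, hvt⟩ : ∃ vt, vt = fderiv ℝ P.π l (u - l) := ⟨_, rfl⟩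
    have hdp := dpi_le P.hT l hl (u - l)
    rw [← hvt] at hdp
    have hc := hch l hl l hl u hu
    rw [sub_self, norm_zero, zero_add, ← hvt] at hc
    have e1 : (P.F q' u - P.F q u) - (P.F q' l - P.F q l) =
        ((P.F q' u - P.F q u) - (P.F q' l - P.F q l) - (fderiv ℝ (P.F q') l - fderiv ℝ (P.F q) l) (u - l)) +
        (fderiv ℝ (P.F q') l - fderiv ℝ (P.F q) l) (u - l - vt) + (fderiv ℝ (P.F q') l vt - fderiv ℝ (P.F q) l vt) := by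
      have e2 : (fderiv ℝ (P.F q') l - fderiv ℝ (P.F q) l) (u - l - vt) =
          (fderiv ℝ (P.F q') l - fderiv ℝ (P.F q) l) (u - l) - (fderiv ℝ (P.F q') l - fderiv ℝ (P.F q) l) vt :=
        map_sub _ _ _
      have e3 : (fderiv ℝ (P.F q') l - fderiv ℝ (P.F q) l) vt = fderiv ℝ (P.F q') l vt - fderiv ℝ (P.F q) l vt := rfl
      rw [e2, e3]
      generalize (fderiv ℝ (P.F q') l - fderiv ℝ (P.F q) l) (u - l) = z
      abel
    rw [e1, inner_add_right, inner_add_right]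
    have t1 : |inner ℝ Vs ((P.F q' u - P.F q u) - (P.F q' l - P.F q l) - (fderiv ℝ (P.F q') l - fderiv ℝ (P.F q) l) (u - l))| ≤
        a * (P.CG * d * ‖u - l‖ * ‖u - l‖) := by
      refine (abs_real_inner_le_norm _ _).trans ?_
      rw [hV]
      exact mul_le_mul_of_nonneg_left htay ha
    have t2 : |inner ℝ Vs ((fderiv ℝ (P.F q') l - fderiv ℝ (P.F q) l) (u - l - vt))| ≤
        a * (P.CG * d * (C' * ‖u - l‖ * ‖u - l‖)) := by
      refine (abs_real_inner_le_norm _ _).trans ?_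
      rw [hV]
      apply mul_le_mul_of_nonneg_left _ ha
      refine (ContinuousLinearMap.le_opNorm _ _).trans ?_
      exact mul_le_mul (b1 l) hc (norm_nonneg _) hCd
    have t3 : |inner ℝ Vs (fderiv ℝ (P.F q') l vt - fderiv ℝ (P.F q) l vt)| ≤ P.CG * d * σ * ‖u - l‖ := by
      refine (g2 vt (by rw [hvt]; exact (dpi_le P.hT l hl (u - l)).2)).trans ?_
      exact mul_le_mul_of_nonneg_left hdp.1 (by positivity)
    refine (abs_add_three _ _ _).trans ?_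
    have hn0 := norm_nonneg (u - l)
    calc _ ≤ a * (P.CG * d * ‖u - l‖ * ‖u - l‖) + a * (P.CG * d * (C' * ‖u - l‖ * ‖u - l‖)) + P.CG * d * σ * ‖u - l‖ :=
          add_le_add (add_le_add t1 t2) t3
      _ = P.CG * (1 + C') * d * (a * ‖u - l‖ ^ 2) + P.CG * 1 * d * (σ * ‖u - l‖) := by ring
      _ ≤ P.CG * (1 + C') * d * (a * ‖u - l‖ ^ 2) + P.CG * (1 + C') * d * (σ * ‖u - l‖) := by
          gcongr
          linarith
      _ = P.CG * (1 + C') * d * (σ * ‖u - l‖ + a * ‖u - l‖ ^ 2) := by ring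

theorem pay_p {n m : ℕ} (P : Par n m) (Cp : ℝ) (hCp : 1 ≤ Cp) : Uni P (fun C _ R =>
    ∀ (α β : ℕ) (pf : Pf R Cp α β), α + 2 ≤ β → ∀ q ∈ P.N,
      P.r₁ < P.dd q (pf.Γ (Real.log (p2 α) - Real.log 2)) →
      P.dd q (pf.Γ (Real.log (p2 α) - Real.log 2)) ≤ P.r₁ + 2 * P.ρ₀ →
      ∃ q' ∈ P.N, P.dd q' (pf.Γ (Real.log (p2 α) - Real.log 2)) = P.r₁ ∧
        ∃ d σ : ℝ, RD pf C q q' d σ) := by
  obtain ⟨C', hC', hch, _⟩ := chord P.hT
  have hCG := P.hG.one_le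
  have hcg := P.hG.c_pos
  have hρ := P.hG.rho_pos
  have ha₀ := P.hG.a_pos
  obtain ⟨C, hC⟩ : ∃ C : ℝ, C = P.CG * (1 + C') + 2 * P.ρ₀ + 1 / P.cg := ⟨_, rfl⟩
  have hcg' : 0 < 1 / P.cg := by positivity
  have hCC : P.CG * (1 + C') ≤ C := by rw [hC]; linarith
  have hCG1 : P.CG ≤ P.CG * (1 + C') := by nlinarith
  have hC1 : 1 ≤ C := by linarith
  have hC0 : 0 < C := by linarith
  have hCcg : 1 / C ≤ P.cg := by
    rw [div_le_comm₀ hC0 hcg, hC]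
    have : 0 ≤ P.CG * (1 + C') := by positivity
    linarith
  have l2 : Real.log 2 ≤ 1 := by
    have := Real.log_le_sub_one_of_pos (by norm_num : (0 : ℝ) < 2)
    linarith
  have l20 : 0 ≤ Real.log 2 := Real.log_nonneg (by norm_num)
  have l32 : Real.log (3 / 2) ≤ 1 / 2 := by
    have := Real.log_le_sub_one_of_pos (by norm_num : (0 : ℝ) < 3 / 2)
    linarith
  have l320 : 0 ≤ Real.log (3 / 2) := Real.log_nonneg (by norm_num)
  refine ⟨C, 1, hC1, one_pos, fun Q C₅ t₀ _ _ _ => ⟨min 1 (P.a₀ / Cp), lt_min one_pos (by positivity), min_le_left _ _, ?_⟩⟩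
  intro D R hR α β pf hαβ q hq h1 h2
  have ha0 := pf.a_nonneg
  have haa : pf.a ≤ P.a₀ := by
    refine pf.a_le.trans ?_
    have h3 : R.e ≤ P.a₀ / Cp := hR.e_le.trans (min_le_right _ _)
    rw [le_div_iff₀ (by linarith)] at h3
    linarith
  obtain ⟨sP, hsP⟩ : ∃ sP, sP = Real.log (p2 α) - Real.log 2 := ⟨_, rfl⟩
  rw [← hsP] at h1 h2 ⊢
  have hpα := wps_p2_pos α
  have hpβ := wps_p2_pos β
  have hlogab : Real.log (p2 α) ≤ Real.log (p2 β) := Real.log_le_log hpα (wps_p2_mono pf.lt.le)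
  have hIcc : Icc sP (sP + 1) ⊆ Icc (sj α - 4) (sj β + 4) := by
    intro s hs
    unfold sj
    rw [hsP] at hs
    constructor
    · linarith [hs.1]
    · linarith [hs.2]
  have hgeod : Geod P.N P.π pf.Γ pf.V pf.a (Icc sP (sP + 1)) :=
    ⟨fun s hs => pf.geod.mem s (hIcc hs), fun s hs => pf.geod.tan s (hIcc hs), fun s hs => pf.geod.der s (hIcc hs),
      fun s hs => pf.geod.der2 s (hIcc hs), fun s hs => pf.geod.speed s (hIcc hs)⟩
  have hsPm : sP ∈ Icc sP (sP + 1) := ⟨le_refl _, by linarith⟩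
  have hPt := hgeod.mem sP hsPm
  obtain ⟨q', hq', hdd, b0, b1, b2, hG⟩ := P.hG.recentre q hq (pf.Γ sP) hPt h1 h2
  refine ⟨q', hq', hdd, ?_⟩
  obtain ⟨d, hd⟩ : ∃ d, d = P.dd q (pf.Γ sP) - P.r₁ := ⟨_, rfl⟩
  rw [← hd] at b0 b1 b2 hG
  have hd0 : 0 ≤ d := by rw [hd]; linarith
  have hd2 : d ≤ 2 * P.ρ₀ := by rw [hd]; linarith
  obtain ⟨z, hz⟩ : ∃ z : ℝ, z = inner ℝ (pf.V sP) (P.F q (pf.Γ sP)) := ⟨_, rfl⟩
  have hza : |z| ≤ pf.a := by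
    rw [hz]
    refine (abs_real_inner_le_norm _ _).trans ?_
    rw [hgeod.speed sP hsPm]
    calc pf.a * ‖P.F q (pf.Γ sP)‖ ≤ pf.a * 1 := mul_le_mul_of_nonneg_left (P.hG.bd _ _) ha0
      _ = pf.a := mul_one _
  have hz2 : z ^ 2 ≤ pf.a ^ 2 := by
    rw [← sq_abs z]
    exact pow_le_pow_left₀ (abs_nonneg _) hza 2
  obtain ⟨σ, hσ⟩ : ∃ σ, σ = Real.sqrt (pf.a ^ 2 - z ^ 2) := ⟨_, rfl⟩
  have hσ0 : 0 ≤ σ := by rw [hσ]; exact Real.sqrt_nonneg _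
  have hσ2 : σ ^ 2 = pf.a ^ 2 - z ^ 2 := by rw [hσ]; exact Real.sq_sqrt (by linarith)
  have hσa : σ ≤ pf.a := by
    rw [hσ]
    apply Real.sqrt_le_iff.2
    exact ⟨ha0, by nlinarith [sq_nonneg z]⟩
  have hrec := fun s hs => hG pf.Γ pf.V pf.a sP ha0 haa hgeod rfl s hs σ hσ0 (by rw [hσ2, hz])
  have hCd : P.CG * d ≤ C * d := mul_le_mul_of_nonneg_right (by linarith) hd0
  refine ⟨d, σ, hq, hq', hd0, ?_, hσ0, hσa, fun y => (b0 y).trans hCd, ?_, ?_⟩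
  · rw [hC]
    have : 0 ≤ P.CG * (1 + C') := by positivity
    linarith
  · intro s hs
    rw [← hsP] at hs ⊢
    have hs' : s ∈ Icc sP (sP + 1) := ⟨hs.1, by rw [hsP]; linarith [hs.2]⟩
    refine le_trans ?_ (hrec s hs').2.2
    have h3 : 0 ≤ d * σ ^ 2 * (s - sP) := by
      have := sub_nonneg.2 hs.1
      positivity
    calc 1 / C * d * σ ^ 2 * (s - sP) = 1 / C * (d * σ ^ 2 * (s - sP)) := by ring
      _ ≤ P.cg * (d * σ ^ 2 * (s - sP)) := mul_le_mul_of_nonneg_right hCcg h3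
      _ = P.cg * d * σ ^ 2 * (s - sP) := by ring
  · obtain ⟨hN, _, _⟩ := dyn_ae D
    filter_upwards [hN] with x hx hxr _
    have hnorm := wps_norm R.hx hxr
    have hx64 : ‖x‖ < 64 := by linarith
    obtain ⟨hv, _⟩ := pf_in pf x hx64
    have huN := (hx (by rw [mem_ball, dist_zero_right]; exact hx64)).1
    obtain ⟨a1, a2⟩ := wps_annulus (le_refl α) pf.lt.le hxr
    have hr : 0 < ‖x - R.x₀‖ := lt_of_lt_of_le (by positivity) a1
    obtain ⟨s, hs⟩ : ∃ s, s = -Real.log ‖x - R.x₀‖ := ⟨_, rfl⟩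
    have hlam := pf.lam_eq x a1 a2
    rw [← hs] at hlam ⊢
    have hs' : s ∈ Icc sP (sP + 1) := by
      have e1 : Real.log (1 / p2 α) ≤ Real.log ‖x - R.x₀‖ := Real.log_le_log (by positivity) hxr.1
      have e2 : Real.log ‖x - R.x₀‖ ≤ Real.log (2 / p2 α) := Real.log_le_log hr hxr.2
      rw [one_div, Real.log_inv] at e1
      rw [Real.log_div (by norm_num) hpα.ne'] at e2
      rw [hs, hsP]
      constructor <;> linarith
    obtain ⟨g1, g2, _⟩ := hrec s hs'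
    rw [← hlam] at g1 g2
    have hVs := hgeod.speed s hs'
    obtain ⟨k1, k2⟩ := pp_pt P C' hC' hch q q' d σ pf.a hd0 hσ0 ha0 b1 b2 (pf.lam x) (D.u x) (pf.V s) (pf.lam_mem x)
      huN hVs g1 g2
    rw [← hv] at k1 k2
    have hv0 := norm_nonneg (pf.v x)
    refine ⟨?_, ?_, ?_⟩
    · exact g1.trans (mul_le_mul_of_nonneg_right hCd hσ0)
    · exact k1.trans (mul_le_mul_of_nonneg_right hCd (by positivity))
    · refine k2.trans ?_
      apply mul_le_mul_of_nonneg_right _ (by positivity)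
      exact mul_le_mul_of_nonneg_right hCC hd0

end H60NT
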