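import Pool.Agent.H60.NT.Yj
import Pool.Agent.H60.NT.PfVG

/-!
# [H60 NT PFM] The means of `v`; matching

`Mn μ x₀ j` is linear and sees only `rg x₀ j ⊆ ball 0 64` (`(1/2)^T ≤ 1/4`, so the shell
`|p2 j ‖x-x₀‖ - 3/2| ≤ (1/2)^T` is inside the ring), where `v = u - lam` (`pf_in`), and its kernel has integral one
(substitution). On the shell `s(x) - s_j = - log (p2 j ‖x - x₀‖ / (3/2))`, `|·| ≤ 2 (1/2)^T`, so
`‖lam x - Γ (s_j)‖ ≤ 2 a (1/2)^T` (`lam_eq`; `Γ` is `a`-Lipschitz). Hence the first claim with `C = 2`.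
For `j = α, β`: `Γ (s_j) = y_j = π (M_j(u))`, `infDist (M_j(u)) N < δ` (`yj_facts`), so by `proj_normal`
`P_j (M_j(u) - y_j) = 0`, and `‖P_j w‖ ≤ ‖w‖` (`dpi_le`).
-/

set_option autoImplicit false

namespace H60NT

open H60NH MeasureTheory Metric Set Filter Topology
open scoped ENNReal NNReal ContDiff

private theorem pfm_p2 (k : ℕ) : 0 < p2 k ∧ 1 ≤ p2 k := by
  have h : 1 ≤ p2 k := by
    unfold p2
    exact one_le_pow₀ (by norm_num)
  exact ⟨by linarith, h⟩

private theorem pfm_p2_mono {j k : ℕ} (h : k ≤ j) : p2 k ≤ p2 j := by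
  unfold p2
  exact pow_le_pow_right₀ (by norm_num) h

private theorem pfm_log {t κ : ℝ} (hκ : κ ≤ 1 / 4) (h : |t - 3 / 2| ≤ κ) :
    |Real.log (3 / 2) - Real.log t| ≤ κ := by
  rw [abs_le] at h
  have hκ0 : 0 ≤ κ := by linarith [h.1, h.2]
  have ht : 0 < t := by linarith
  have h1 : Real.log (3 / 2) - Real.log t ≤ κ := by
    rw [← Real.log_div (by norm_num) ht.ne']
    refine (Real.log_le_sub_one_of_pos (by positivity)).trans ?_
    rw [sub_le_iff_le_add, div_le_iff₀ ht]
    nlinarith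
  have h2 : Real.log t - Real.log (3 / 2) ≤ κ := by
    rw [← Real.log_div ht.ne' (by norm_num)]
    refine (Real.log_le_sub_one_of_pos (by positivity)).trans ?_
    rw [sub_le_iff_le_add, div_le_iff₀ (by norm_num)]
    nlinarith
  rw [abs_le]
  constructor <;> linarith

private theorem pfm_lip {m : ℕ} {N : Set (E m)} {π : E m → E m} {Γ V : ℝ → E m} {a s₁ s₂ : ℝ}
    (h : Geod N π Γ V a (Icc s₁ s₂)) {s s' : ℝ} (hs : s ∈ Icc s₁ s₂) (hs' : s' ∈ Icc s₁ s₂) :
    ‖Γ s' - Γ s‖ ≤ a * |s' - s| := by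
  rw [← Real.norm_eq_abs]
  exact (convex_Icc s₁ s₂).norm_image_sub_le_of_norm_hasDerivWithin_le
    (fun t ht => (h.der t ht).hasDerivWithinAt) (fun t ht => (h.speed t ht).le) hs hs'

theorem pf_mean {n m : ℕ} (P : Par n m) (Cp : ℝ) (hCp : 1 ≤ Cp) : Uni P (fun C D R =>
    ∀ (α β : ℕ) (pf : Pf R Cp α β), α + 2 ≤ β →
      (∀ j, α ≤ j → j ≤ β → ‖Mn R.μ R.x₀ j pf.v - (Mn R.μ R.x₀ j D.u - pf.Γ (sj j))‖ ≤
        C * (pf.a * (1 / 2) ^ R.T)) ∧
      ∀ j, j = α ∨ j = β → ‖fderiv ℝ P.π (R.yj j) (Mn R.μ R.x₀ j pf.v)‖ ≤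
        C * (pf.a * (1 / 2) ^ R.T)) := by
  have hn := P.hn
  obtain ⟨Cy, t₁, hCy, ht₁, hyj⟩ := yj_facts P
  refine ⟨1, t₁, le_rfl, ht₁, ?_⟩
  intro Q C₅ t₀ h5 h0 h01
  obtain ⟨e₁, he₁, he₁1, H⟩ := hyj Q C₅ t₀ h5 h0 h01
  refine ⟨e₁, he₁, he₁1, ?_⟩
  intro D R hR α β pf hαβ
  have hge := pf.ge
  have hW1 : 1 ≤ R.W := (rc_num R).2.2.2.2.2.1
  have hT2 : (1 / 2 : ℝ) ^ R.T ≤ 1 / 4 := (rc_num R).2.2.2.1
  have hx1 := R.hx
  obtain ⟨hvg, -, hlamc, -, -, -, -, -, -⟩ := pf_vg pf
  have hu : Integrable D.u := (vg_u D).int_v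
  have ha0 := pf.a_nonneg
  obtain ⟨κ, hκ⟩ : ∃ κ : ℝ, κ = (1 / 2 : ℝ) ^ R.T := ⟨_, rfl⟩
  have hκ0 : 0 < κ := by rw [hκ]; positivity
  rw [← hκ] at hT2
  have hμ : Thin R.μ κ := by rw [hκ]; exact R.hμ
  have main : ∀ j, α ≤ j → j ≤ β → ‖Mn R.μ R.x₀ j pf.v - (Mn R.μ R.x₀ j D.u - pf.Γ (sj j))‖ ≤
      1 * (pf.a * κ) := by
    intro j hαj hjβ
    obtain ⟨hp, hp1⟩ := pfm_p2 j
    obtain ⟨hpα, -⟩ := pfm_p2 α
    obtain ⟨hpβ, -⟩ := pfm_p2 β
    have hmα := pfm_p2_mono hαj
    have hmβ := pfm_p2_mono hjβ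
    obtain ⟨k, hk⟩ : ∃ k : E n → ℝ, k = fun x => p2 j ^ n * R.μ (p2 j • (x - R.x₀)) := ⟨_, rfl⟩
    have hk0 : ∀ x, 0 ≤ k x := by
      intro x
      rw [hk]
      exact mul_nonneg (by positivity) (hμ.nonneg _)
    have hkc : Continuous k := by
      rw [hk]
      exact continuous_const.mul (hμ.smooth.continuous.comp
        ((continuous_id.sub continuous_const).const_smul (p2 j)))
    -- the shell
    have hkx : ∀ x, k x ≠ 0 → |p2 j * ‖x - R.x₀‖ - 3 / 2| ≤ κ := by
      intro x hx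
      by_contra hcon
      rw [not_le] at hcon
      apply hx
      rw [hk]
      show p2 j ^ n * R.μ (p2 j • (x - R.x₀)) = 0
      rw [hμ.supp, mul_zero]
      rw [norm_smul, Real.norm_of_nonneg hp.le]
      exact hcon
    have hksupp : HasCompactSupport k := by
      refine HasCompactSupport.of_support_subset_isCompact
        (isCompact_closedBall R.x₀ (2 / p2 j)) ?_
      intro x hx
      have h1 := hkx x hx
      rw [abs_le] at h1
      rw [mem_closedBall, dist_eq_norm, le_div_iff₀ hp]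
      linarith [h1.2, mul_comm (p2 j) ‖x - R.x₀‖]
    have hkint : ∫ x, k x = 1 := by
      rw [hk, integral_const_mul, integral_sub_right_eq_self (fun y => R.μ (p2 j • y)) R.x₀,
        Measure.integral_comp_smul, hμ.int, finrank_euclideanSpace, Fintype.card_fin, smul_eq_mul,
        mul_one, abs_of_pos (by positivity)]
      exact mul_inv_cancel₀ (by positivity)
    have hki : Integrable k := hkc.integrable_of_hasCompactSupport hksupp
    obtain ⟨B, hB⟩ := hksupp.exists_bound_of_continuous hkc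
    have i1 : Integrable (fun x => k x • pf.v x) :=
      hvg.int_v.bdd_smul B hkc.aestronglyMeasurable (Eventually.of_forall hB)
    have i2 : Integrable (fun x => k x • D.u x) :=
      hu.bdd_smul B hkc.aestronglyMeasurable (Eventually.of_forall hB)
    have i3 : Integrable (fun x => k x • pf.Γ (sj j)) := hki.smul_const _
    have hpt : ∀ x, ‖k x • (pf.Γ (sj j) - pf.lam x)‖ ≤ k x * (pf.a * κ) := by
      intro x
      rw [norm_smul, Real.norm_of_nonneg (hk0 x)]
      by_cases hx : k x = 0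
      · rw [hx, zero_mul, zero_mul]
      · refine mul_le_mul_of_nonneg_left ?_ (hk0 x)
        have h1 := hkx x hx
        have h1' := h1
        rw [abs_le] at h1'
        obtain ⟨r, hr⟩ : ∃ r, r = ‖x - R.x₀‖ := ⟨_, rfl⟩
        rw [← hr] at h1 h1'
        have hr0 : 0 < r := by
          by_contra hcon
          rw [not_lt] at hcon
          have : p2 j * r ≤ 0 := mul_nonpos_of_nonneg_of_nonpos hp.le hcon
          linarith [h1'.1]
        have h2 : 1 / (4 * p2 β) ≤ r := by
          rw [div_le_iff₀ (by positivity)]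
          nlinarith [h1'.1]
        have h3 : r ≤ 8 / p2 α := by
          rw [le_div_iff₀ hpα]
          nlinarith [h1'.2]
        have h4 : pf.lam x = pf.Γ (-Real.log r) := by
          have := pf.lam_eq x (by rw [← hr]; exact h2) (by rw [← hr]; exact h3)
          rw [hr]
          exact this
        rw [h4]
        have h5 := pfm_log hT2 h1
        have h6 : Real.log (p2 j * r) = Real.log (p2 j) + Real.log r :=
          Real.log_mul hp.ne' hr0.ne'
        have h7 : sj j - (-Real.log r) = -(Real.log (3 / 2) - Real.log (p2 j * r)) := by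
          unfold sj
          rw [h6]
          ring
        have h8 : |sj j - (-Real.log r)| ≤ κ := by
          rw [h7, abs_neg]
          exact h5
        have l1 : Real.log (p2 α) ≤ Real.log (p2 j) := Real.log_le_log hpα hmα
        have l2 : Real.log (p2 j) ≤ Real.log (p2 β) := Real.log_le_log hp hmβ
        have h9 : sj j ∈ Icc (sj α - 4) (sj β + 4) := by
          unfold sj
          constructor <;> linarith
        have h10 : -Real.log r ∈ Icc (sj α - 4) (sj β + 4) := by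
          rw [abs_le] at h8
          have h11 : sj α ≤ sj j := by
            unfold sj
            linarith
          have h12 : sj j ≤ sj β := by
            unfold sj
            linarith
          constructor <;> linarith [h8.1, h8.2]
        exact (pfm_lip pf.geod h10 h9).trans (mul_le_mul_of_nonneg_left h8 ha0)
    have e1 : Mn R.μ R.x₀ j pf.v - (Mn R.μ R.x₀ j D.u - pf.Γ (sj j)) =
        ∫ x, k x • (pf.Γ (sj j) - pf.lam x) := by
      have e2 : Mn R.μ R.x₀ j pf.v = ∫ x, k x • pf.v x := by rw [hk]; rfl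
      have e3 : Mn R.μ R.x₀ j D.u = ∫ x, k x • D.u x := by rw [hk]; rfl
      have e4 : pf.Γ (sj j) = ∫ x, k x • pf.Γ (sj j) := by
        rw [integral_smul_const, hkint, one_smul]
      rw [e2, e3]
      nth_rewrite 1 [e4]
      rw [← integral_sub i2 i3]
      refine (integral_sub i1 (i2.sub i3)).symm.trans ?_
      congr 1
      funext x
      show k x • pf.v x - (k x • D.u x - k x • pf.Γ (sj j)) = _
      by_cases hx : k x = 0
      · rw [hx]
        simp
      · have h1 := hkx x hx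
        rw [abs_le] at h1
        have hx64 : ‖x‖ < 64 := by
          have h5 : ‖x‖ ≤ ‖x - R.x₀‖ + ‖R.x₀‖ := by
            have := norm_add_le (x - R.x₀) R.x₀
            rwa [sub_add_cancel] at this
          have h6 : ‖x - R.x₀‖ ≤ p2 j * ‖x - R.x₀‖ :=
            le_mul_of_one_le_left (norm_nonneg _) hp1
          linarith [h1.2]
        rw [(pf_in pf x hx64).1, smul_sub, smul_sub]
        abel
    rw [e1]
    refine (norm_integral_le_of_norm_le (hki.mul_const (pf.a * κ))
      (Eventually.of_forall hpt)).trans ?_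
    rw [integral_mul_const, hkint]
  rw [← hκ]
  refine ⟨main, ?_⟩
  intro j hj
  have hαj : α ≤ j := by
    rcases hj with h | h <;> omega
  have hjβ : j ≤ β := by
    rcases hj with h | h <;> omega
  obtain ⟨hyN, -, hMδ, -, -⟩ := H D R hR j (by omega)
  have hΓ : pf.Γ (sj j) = R.yj j := by
    rcases hj with h | h
    · rw [h]
      exact pf.hα
    · rw [h]
      exact pf.hβ
  have hδ : 0 < P.δ := P.hT.pos
  have h1 := main j hαj hjβ
  have h2 : fderiv ℝ P.π (R.yj j) (Mn R.μ R.x₀ j D.u - R.yj j) = 0 :=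
    proj_normal P.hT (Mn R.μ R.x₀ j D.u) (by linarith)
  have h3 : fderiv ℝ P.π (R.yj j) (Mn R.μ R.x₀ j pf.v) =
      fderiv ℝ P.π (R.yj j) (Mn R.μ R.x₀ j pf.v - (Mn R.μ R.x₀ j D.u - pf.Γ (sj j))) := by
    rw [map_sub, hΓ, h2, sub_zero]
  rw [h3]
  exact ((dpi_le P.hT (R.yj j) hyN _).1).trans h1

end H60NT
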