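import Pool.Agent.H60.NT.PoiI
import Pool.Agent.H60.NT.PfM
import Pool.Agent.H60.NT.PfD
import Pool.Agent.H60.NT.PfC

/-!
# [H60 NT PFE] (4e): the full mean at the matched ring `α`

`mm := Mn μ x₀ α v`, `A = rg x₀ α ∩ S`; `p2 α^n |A| ≥ c - b_α ≥ c/2` (`fr_vol`, `b_pow`: `b_α = ((b_α)^(1/(2n)))^(2n) ≤ e`
small). `ring_L2` (for `VG v g`, `pf_vg`) and Cauchy-Schwarz: `⨍_A ‖v - mm‖ ≤ C Gg α`. With `Q = P_α`:
`mm - Q mm = ⨍_A ((1 - Q)(mm - v)) + ⨍_A (1 - Q) v`, `‖(1-Q)(mm - v)‖ ≤ 2 ‖mm - v‖`, and on `A`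
`‖(1 - Q) v‖ ≤ C (t₀ + √e) ‖v‖ ≤ C (t₀ + √e)(‖v - mm‖ + ‖mm‖)` (`pf_d`). Hence
`‖mm - Q mm‖ ≤ C Gg α + C (t₀ + √e) ‖mm‖`, `‖Q mm‖ ≤ C a (1/2)^T` (`pf_mean`); absorb for `t₀`, `e` small.
-/

set_option autoImplicit false

namespace H60NT

open H60NH MeasureTheory Metric Set Filter Topology
open scoped ENNReal NNReal ContDiff

theorem pf_e {n m : ℕ} (P : Par n m) (Cp : ℝ) (hCp : 1 ≤ Cp) : Uni P (fun C _ R =>
    ∀ (α β : ℕ) (pf : Pf R Cp α β), α + 2 ≤ β →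
      ‖Mn R.μ R.x₀ α pf.v‖ ≤ C * (pf.a * (1 / 2) ^ R.T + pf.Gg α)) := by
  obtain ⟨C1, hC1, hL2⟩ := ring_L2 n m P.hn P.hφ
  obtain ⟨C2, hC2, hvol⟩ := fr_vol n (by have := P.hn; omega)
  obtain ⟨_, tb, _, htb, Hb⟩ := b_pow P
  obtain ⟨C3, tm, hC3, htm, Hm⟩ := pf_mean P Cp hCp
  obtain ⟨C4, td, hC4, htd, Hd⟩ := pf_d P Cp hCp
  have hC12 : 1 ≤ C1 * C2 := one_le_mul_of_one_le_of_one_le hC1 hC2
  refine ⟨2 * C3 + 32 * (C1 * C2), min (min tb tm) (min td (1 / (8 * C4))), by linarith, ?_, ?_⟩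
  · exact lt_min (lt_min htb htm) (lt_min htd (by positivity))
  intro Q C₅ t₀ h5 h0 ht
  obtain ⟨eb, heb, heb1, Kb⟩ := Hb Q C₅ t₀ h5 h0
    (ht.trans ((min_le_left _ _).trans (min_le_left _ _)))
  obtain ⟨em, hem, hem1, Km⟩ := Hm Q C₅ t₀ h5 h0
    (ht.trans ((min_le_left _ _).trans (min_le_right _ _)))
  obtain ⟨ed, hed, hed1, Kd⟩ := Hd Q C₅ t₀ h5 h0
    (ht.trans ((min_le_right _ _).trans (min_le_left _ _)))
  have ht8 : t₀ ≤ 1 / (8 * C4) := ht.trans ((min_le_right _ _).trans (min_le_right _ _))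
  refine ⟨min (min eb em) (min ed (min (1 / (2 * C2)) ((1 / (8 * C4)) ^ 2))),
    lt_min (lt_min heb hem) (lt_min hed (lt_min (by positivity) (by positivity))),
    ((min_le_left _ _).trans (min_le_left _ _)).trans heb1, ?_⟩
  intro D R hR α β pf hαβ
  obtain ⟨hSm, hb⟩ := Kb D R (hR.mono ((min_le_left _ _).trans (min_le_left _ _)))
  obtain ⟨-, hm⟩ := Km D R (hR.mono ((min_le_left _ _).trans (min_le_right _ _))) α β pf hαβ
  have hd := Kd D R (hR.mono ((min_le_right _ _).trans (min_le_left _ _))) α β pf hαβ α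
    (Nat.sub_le _ _) (by omega)
  have he2 : R.e ≤ 1 / (2 * C2) := hR.e_le.trans
    ((min_le_right _ _).trans ((min_le_right _ _).trans (min_le_left _ _)))
  have he4 : R.e ≤ (1 / (8 * C4)) ^ 2 := hR.e_le.trans
    ((min_le_right _ _).trans ((min_le_right _ _).trans (min_le_right _ _)))
  have hsq : Real.sqrt R.e ≤ 1 / (8 * C4) := by
    rw [← Real.sqrt_sq (show (0 : ℝ) ≤ 1 / (8 * C4) by positivity)]
    exact Real.sqrt_le_sqrt he4
  have hθ : C4 * (R.t₀ + Real.sqrt R.e) ≤ 1 / 4 := by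
    rw [hR.ht]
    have h1 : C4 * (1 / (8 * C4)) = 1 / 8 := by
      field_simp
    have k1 := mul_le_mul_of_nonneg_left ht8 (show 0 ≤ C4 by linarith)
    have k2 := mul_le_mul_of_nonneg_left hsq (show 0 ≤ C4 by linarith)
    rw [mul_add]
    linarith
  have hθ0 : 0 ≤ C4 * (R.t₀ + Real.sqrt R.e) :=
    mul_nonneg (by linarith) (add_nonneg R.t0.le (Real.sqrt_nonneg _))
  -- the mean
  obtain ⟨mm, hmm⟩ : ∃ mm : E m, mm = Mn R.μ R.x₀ α pf.v := ⟨_, rfl⟩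
  obtain ⟨Pr, hPr⟩ : ∃ Pr : E m →L[ℝ] E m, Pr = fderiv ℝ P.π (R.yj α) := ⟨_, rfl⟩
  have hα1 : 1 ≤ α := by
    have h1 := pf.ge
    have h2 : R.W ≠ 0 := by
      intro h3
      have h4 := R.W1
      rw [h3] at h4
      norm_num at h4
    omega
  have hyN : R.yj α ∈ P.N := by
    rw [← pf.hα]
    refine pf.geod.mem _ ⟨by linarith, ?_⟩
    have h1 : p2 α ≤ p2 β := pow_le_pow_right₀ (by norm_num) pf.lt.le
    have h2 : Real.log (p2 α) ≤ Real.log (p2 β) := Real.log_le_log (by unfold p2; positivity) h1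
    unfold sj
    linarith
  have hPle : ∀ w, ‖Pr w‖ ≤ ‖w‖ := fun w => by
    rw [hPr]
    exact (dpi_le P.hT _ hyN w).1
  have hQmm : ‖Pr mm‖ ≤ C3 * (pf.a * (1 / 2) ^ R.T) := by
    rw [hPr, hmm]
    exact hm α (Or.inl rfl)
  have hT4 : (1 / 2 : ℝ) ^ R.T ≤ 1 / 4 := by
    have h1 : (1 / 2 : ℝ) ^ R.T ≤ (1 / 2) ^ 2 :=
      pow_le_pow_of_le_one (by norm_num) (by norm_num) (by have := R.T3; omega)
    linarith
  obtain ⟨hint, hL⟩ := hL2 R.μ _ hT4 R.hμ pf.v pf.g (pf_vg pf).1 R.x₀ α (by linarith [R.hx]) hα1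
  rw [← hmm] at hint hL ⊢
  have hGg0 : 0 ≤ pf.Gg α := Real.sqrt_nonneg _
  have hGg2 : pf.Gg α ^ 2 = p2 α ^ (n - 2) * ∫ x in fr R.x₀ α, gn (pf.g x) ^ 2 := by
    unfold Pf.Gg
    rw [Real.sq_sqrt]
    exact mul_nonneg (pow_nonneg (by unfold p2; positivity) _)
      (integral_nonneg fun x => sq_nonneg _)
  rw [← hGg2] at hL
  have hp0 : 0 < p2 α ^ n := pow_pos (by unfold p2; positivity) n
  -- the volume of the good part of the ring
  obtain ⟨-, hfin, -, hv1⟩ := hvol R.x₀ α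
  have hsub : rg R.x₀ α ⊆ fr R.x₀ α := (fr_eq R.x₀ α hα1).2.1
  have hrgm : MeasurableSet (rg R.x₀ α) := (rg_meas R.x₀ α).1
  have hrfin : volume (rg R.x₀ α) ≠ ⊤ := ((measure_mono hsub).trans_lt hfin).ne
  obtain ⟨A, hA⟩ : ∃ A : Set (E n), A = rg R.x₀ α ∩ R.S := ⟨_, rfl⟩
  have hAm : MeasurableSet A := by
    rw [hA]
    exact hrgm.inter hSm
  have hAfin : volume A ≠ ⊤ := by
    rw [hA]
    exact ((measure_mono inter_subset_left).trans_lt hrfin.lt_top).ne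
  have hAvol : 1 / (2 * C2) ≤ p2 α ^ n * (volume A).toReal := by
    have h1 : (volume (rg R.x₀ α)).toReal =
        (volume A).toReal + (volume (rg R.x₀ α \ R.S)).toReal := by
      rw [hA, ← ENNReal.toReal_add, measure_inter_add_sdiff _ hSm]
      · exact ((measure_mono inter_subset_left).trans_lt hrfin.lt_top).ne
      · exact ((measure_mono sdiff_subset).trans_lt hrfin.lt_top).ne
    have h2 : (volume (rg R.x₀ α \ R.S)).toReal ≤ (volume (fr R.x₀ α \ R.S)).toReal :=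
      ENNReal.toReal_mono ((measure_mono sdiff_subset).trans_lt hfin).ne
        (measure_mono (sdiff_subset_sdiff_left hsub))
    obtain ⟨hb0, hb1, hb2, -⟩ := hb α pf.ge
    have h3 : R.b α ≤ R.e := by
      have h4 : R.b α ≤ (R.b α) ^ (1 / (2 * n : ℝ)) := by
        refine Real.self_le_rpow_of_le_one hb0 hb1 ?_
        have h5 : (3 : ℝ) ≤ n := by exact_mod_cast P.hn
        rw [div_le_one (by positivity)]
        linarith
      refine h4.trans (hb2.trans ?_)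
      exact pow_le_of_le_one R.e_pos.le R.e_le (by omega)
    have h4 : p2 α ^ n * (volume (rg R.x₀ α \ R.S)).toReal ≤ 1 / (2 * C2) := by
      refine le_trans ?_ (h3.trans he2)
      exact mul_le_mul_of_nonneg_left h2 hp0.le
    have h5 : 1 / C2 ≤ p2 α ^ n * (volume (rg R.x₀ α)).toReal := by
      rw [div_le_iff₀ (by linarith)]
      linarith
    have h6 : 1 / C2 = 1 / (2 * C2) + 1 / (2 * C2) := by
      field_simp
      norm_num
    rw [h1, mul_add] at h5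
    linarith
  -- the pointwise inequality
  obtain ⟨q, hq⟩ : ∃ q : ℝ, q = ‖mm‖ - 2 * ‖Pr mm‖ := ⟨_, rfl⟩
  have hpt : ∀ᵐ x, x ∈ A → q ≤ 4 * ‖pf.v x - mm‖ := by
    filter_upwards [hd] with x hx hxA
    rw [hA] at hxA
    obtain ⟨-, -, hx3⟩ := hx hxA.1 hxA.2
    obtain ⟨hx4, -⟩ := hx3 α le_rfl pf.lt.le
    rw [← hPr] at hx4
    have h1 : mm - Pr mm = (mm - pf.v x) - Pr (mm - pf.v x) + (pf.v x - Pr (pf.v x)) := by
      rw [map_sub]
      abel
    have h2 : ‖mm - Pr mm‖ ≤ ‖mm - pf.v x‖ + ‖mm - pf.v x‖ + ‖pf.v x - Pr (pf.v x)‖ := by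
      rw [h1]
      refine (norm_add_le _ _).trans ?_
      have h3 := norm_sub_le (mm - pf.v x) (Pr (mm - pf.v x))
      have h4 := hPle (mm - pf.v x)
      linarith
    have h3 : ‖pf.v x‖ ≤ ‖pf.v x - mm‖ + ‖mm‖ := by
      have := norm_add_le (pf.v x - mm) mm
      rwa [sub_add_cancel] at this
    have h4 : C4 * (R.t₀ + Real.sqrt R.e) * ‖pf.v x‖ ≤ 1 / 4 * (‖pf.v x - mm‖ + ‖mm‖) :=
      mul_le_mul hθ h3 (norm_nonneg _) (by norm_num)
    have h5 : ‖mm‖ ≤ ‖mm - Pr mm‖ + ‖Pr mm‖ := by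
      have := norm_add_le (mm - Pr mm) (Pr mm)
      rwa [sub_add_cancel] at this
    rw [norm_sub_rev mm (pf.v x)] at h2
    have h6 := norm_nonneg (pf.v x - mm)
    have h7 := norm_nonneg (Pr mm)
    have h8 := norm_nonneg mm
    rw [hq]
    linarith
  have hfinal : q ≤ 32 * (C1 * C2) * pf.Gg α := by
    rcases le_or_gt q 0 with hq0 | hq0
    · exact hq0.trans (by positivity)
    have h1 : ∫ _x in A, q ^ 2 ≤ ∫ x in A, 16 * ‖pf.v x - mm‖ ^ 2 := by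
      refine setIntegral_mono_ae_restrict ?_ ?_ ?_
      · exact integrableOn_const hAfin
      · refine (hint.mono_set ?_).const_mul 16
        rw [hA]
        exact inter_subset_left
      · rw [Filter.EventuallyLE, ae_restrict_iff' hAm]
        filter_upwards [hpt] with x hx hxA
        have h1 := pow_le_pow_left₀ hq0.le (hx hxA) 2
        rw [mul_pow] at h1
        linarith
    rw [setIntegral_const, integral_const_mul, smul_eq_mul, measureReal_def] at h1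
    have h2 : ∫ x in A, ‖pf.v x - mm‖ ^ 2 ≤ ∫ x in rg R.x₀ α, ‖pf.v x - mm‖ ^ 2 := by
      refine setIntegral_mono_set hint (Filter.Eventually.of_forall fun x => sq_nonneg _) ?_
      refine Filter.Eventually.of_forall ?_
      rw [hA]
      exact inter_subset_left
    have h3 : p2 α ^ n * (volume A).toReal * q ^ 2 ≤ 16 * (C1 * pf.Gg α ^ 2) := by
      calc p2 α ^ n * (volume A).toReal * q ^ 2 = p2 α ^ n * ((volume A).toReal * q ^ 2) := by ring
        _ ≤ p2 α ^ n * (16 * ∫ x in rg R.x₀ α, ‖pf.v x - mm‖ ^ 2) :=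
            mul_le_mul_of_nonneg_left (h1.trans (by linarith)) hp0.le
        _ = 16 * (p2 α ^ n * ∫ x in rg R.x₀ α, ‖pf.v x - mm‖ ^ 2) := by ring
        _ ≤ 16 * (C1 * pf.Gg α ^ 2) := by linarith
    have h4 : 1 / (2 * C2) * q ^ 2 ≤ 16 * (C1 * pf.Gg α ^ 2) :=
      (mul_le_mul_of_nonneg_right hAvol (sq_nonneg q)).trans h3
    have h5 : q ^ 2 ≤ 32 * (C1 * C2) * pf.Gg α ^ 2 := by
      have h6 : q ^ 2 = 2 * C2 * (1 / (2 * C2) * q ^ 2) := by
        field_simp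
      rw [h6]
      calc 2 * C2 * (1 / (2 * C2) * q ^ 2) ≤ 2 * C2 * (16 * (C1 * pf.Gg α ^ 2)) :=
            mul_le_mul_of_nonneg_left h4 (by linarith)
        _ = 32 * (C1 * C2) * pf.Gg α ^ 2 := by ring
    have h6 : q ^ 2 ≤ (32 * (C1 * C2) * pf.Gg α) ^ 2 := by
      refine h5.trans ?_
      rw [mul_pow]
      refine mul_le_mul_of_nonneg_right ?_ (sq_nonneg _)
      exact le_self_pow₀ (by linarith) two_ne_zero
    exact le_of_sq_le_sq h6 (by positivity)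
  have hTa : 0 ≤ pf.a * (1 / 2) ^ R.T := mul_nonneg pf.a_nonneg (by positivity)
  have h9 : 0 ≤ (2 * C3) * pf.Gg α := by positivity
  have h10 : 0 ≤ 32 * (C1 * C2) * (pf.a * (1 / 2) ^ R.T) := by positivity
  rw [hq] at hfinal
  linarith

end H60NT
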