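import Pool.Agent.H60.NT.Def

/-!
# [H60 NT TGF] Facts on the target

(a) `Dπ(y)` (`y ∈ N`, so `π y = y` by `fixed`) is symmetric (`symm1`) and idempotent (`idem` with
`π y = y`), hence an orthogonal projection: `‖Q a‖² = ⟨Q a, Q a⟩ = ⟨a, Q Q a⟩ = ⟨a, Q a⟩ <= ‖a‖ ‖Q a‖`.
(b) `infDist y N < 4δ <= ...`: `lip` facts are in `TC` (`infDist y N = 0 < 2δ` for `y ∈ N`).
(c) first-order condition for the nearest point `P = π M`: for every `a` the curve
`t ↦ π (P + t a) ∈ N` has `‖M - π (P + t a)‖ >= infDist M N = ‖M - π M‖` with equality at `t = 0`, so the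
derivative at `0` of `t ↦ ‖M - π (P + t a)‖²` vanishes: `⟨M - P, Dπ(P) a⟩ = 0` (`π` is differentiable
at `P ∈ N`, `P + t a` is in the tube for small `t`), for all `a`; by symmetry `Dπ(P)(M - P) = 0`.
(d) `idem2` with `a, b` tangent: `D2 π y a b + Q (D2 π y a b) = D2 π y a b`.
-/

set_option autoImplicit false

namespace H60NT

open H60NH MeasureTheory Metric Set Filter Topology
open scoped ENNReal NNReal ContDiff

theorem dpi_le {m : ℕ} {N : Set (E m)} {π : E m → E m} {δ C : ℝ} (hT : TC N π δ C) (y : E m)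
    (hy : y ∈ N) (a : E m) :
    ‖fderiv ℝ π y a‖ ≤ ‖a‖ ∧ fderiv ℝ π y (fderiv ℝ π y a) = fderiv ℝ π y a := by
  have hδ : 0 < δ := hT.pos
  have hyt : infDist y N < 4 * δ := by
    rw [infDist_zero_of_mem hy]
    linarith
  have hid : fderiv ℝ π y (fderiv ℝ π y a) = fderiv ℝ π y a := by
    have h1 := hT.idem y hyt a
    rwa [hT.fixed y hy] at h1
  refine ⟨?_, hid⟩
  have h2 : ‖fderiv ℝ π y a‖ ^ 2 ≤ ‖a‖ * ‖fderiv ℝ π y a‖ := by
    rw [← real_inner_self_eq_norm_sq, hT.symm1 y hyt, hid]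
    exact real_inner_le_norm _ _
  by_cases h0 : ‖fderiv ℝ π y a‖ = 0
  · rw [h0]
    exact norm_nonneg _
  · have h3 : 0 < ‖fderiv ℝ π y a‖ := lt_of_le_of_ne (norm_nonneg _) (Ne.symm h0)
    rw [pow_two] at h2
    exact le_of_mul_le_mul_right h2 h3

theorem proj_normal {m : ℕ} {N : Set (E m)} {π : E m → E m} {δ C : ℝ} (hT : TC N π δ C)
    (M : E m) (hM : infDist M N < 4 * δ) : fderiv ℝ π (π M) (M - π M) = 0 := by
  have hδ : 0 < δ := hT.pos
  have hP : π M ∈ N := hT.mem M hM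
  have hPt : infDist (π M) N < 4 * δ := by
    rw [infDist_zero_of_mem hP]
    linarith
  have hopen : IsOpen {y : E m | infDist y N < 4 * δ} :=
    isOpen_lt (continuous_infDist_pt N) continuous_const
  have hid : ∀ a, fderiv ℝ π (π M) (fderiv ℝ π (π M) a) = fderiv ℝ π (π M) a := fun a =>
    (dpi_le hT (π M) hP a).2
  have key : ∀ a, inner ℝ (M - π M) (fderiv ℝ π (π M) a) = 0 := by
    intro a
    have hd0 : DifferentiableAt ℝ π (π M) :=
      (hT.smooth.contDiffAt (hopen.mem_nhds hPt)).differentiableAt (by norm_num)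
    have hl : HasDerivAt (fun t : ℝ => π M + t • a) a 0 := by
      simpa using ((hasDerivAt_id (0 : ℝ)).smul_const a).const_add (π M)
    have hd1 : HasFDerivAt π (fderiv ℝ π (π M)) (π M + (0 : ℝ) • a) := by
      rw [zero_smul, add_zero]
      exact hd0.hasFDerivAt
    have hc : HasDerivAt (fun t : ℝ => π (π M + t • a)) (fderiv ℝ π (π M) a) 0 :=
      hd1.comp_hasDerivAt (0 : ℝ) hl
    have hc2 : HasDerivAt (fun t : ℝ => M - π (π M + t • a)) (-(fderiv ℝ π (π M) a)) 0 :=
      hc.const_sub M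
    have hc3 := hc2.norm_sq
    have hmin : IsLocalMin (fun t : ℝ => ‖M - π (π M + t • a)‖ ^ 2) 0 := by
      have hcont : Continuous (fun t : ℝ => π M + t • a) :=
        continuous_const.add (continuous_id.smul continuous_const)
      have hev : ∀ᶠ t : ℝ in 𝓝 0, π M + t • a ∈ {y : E m | infDist y N < 4 * δ} := by
        have h1 : Tendsto (fun t : ℝ => π M + t • a) (𝓝 0) (𝓝 (π M)) := by
          have h2 := hcont.tendsto 0
          rwa [zero_smul, add_zero] at h2
        exact h1.eventually (hopen.mem_nhds hPt)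
      filter_upwards [hev] with t ht
      have h3 : π (π M + t • a) ∈ N := hT.mem _ ht
      have h4 : ‖M - π M‖ ≤ ‖M - π (π M + t • a)‖ := by
        rw [hT.dist_eq M hM, ← dist_eq_norm]
        exact infDist_le_dist_of_mem h3
      rw [zero_smul, add_zero, hT.fixed (π M) hP]
      gcongr
    have h5 := hmin.hasDerivAt_eq_zero hc3
    rw [zero_smul, add_zero, hT.fixed (π M) hP, inner_neg_right] at h5
    linarith
  have h6 : ‖fderiv ℝ π (π M) (M - π M)‖ ^ 2 = 0 := by
    rw [← real_inner_self_eq_norm_sq, hT.symm1 (π M) hPt, hid]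
    exact key _
  exact norm_eq_zero.1 (pow_eq_zero_iff (two_ne_zero)|>.1 h6)

theorem d2_normal {m : ℕ} {N : Set (E m)} {π : E m → E m} {δ C : ℝ} (hT : TC N π δ C) (y : E m)
    (hy : y ∈ N) (a b : E m) (ha : fderiv ℝ π y a = a) (hb : fderiv ℝ π y b = b) :
    fderiv ℝ π y (D2 π y a b) = 0 := by
  have h1 := hT.idem2 y hy a b ha
  rw [hb] at h1
  exact left_eq_add.1 h1.symm

end H60NT
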