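import Pool.Agent.H60.NT.PoiI
import Pool.Agent.H60.NT.PfM
import Pool.Agent.H60.NT.PfD
import Pool.Agent.H60.NT.PfC
import Pool.Agent.H60.NT.BPow
import Pool.Agent.H60.NT.PfGn
import Pool.Agent.H60.NT.PfVG
import Pool.Agent.H60.NT.Yj
import Pool.Agent.H60.NT.TgF
import Pool.Agent.H60.NT.Pow

/-!
# [H60 NT PFF] `v` in the mean square and in `L^n` at the matched rings

`j = α` or `β`, `mm = Mn μ x₀ j v`, `Q = P_j`. On `S`: `‖v‖ ≤ 2 ‖Q v‖ ≤ 2 (‖v - mm‖ + ‖Q mm‖)` (`pf_d`, `dpi_le`),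
`‖Q mm‖ ≤ C a (1/2)^T` (`pf_mean`), `ring_L2`, `ring_Ln` with `S = R.S` (measurable by `b_pow`):
`p2 j^n ∫_{rg} ‖v - mm‖^n ≤ C (∫_{fr ∩ S} gn g^n + b_j^(1/(2n-1)) ∫_{fr} gn g^n) ≤ C (Z_j^+ + e^(Q+4) (D_j + a^n))`
(`gn g^n ≤ z`, `fr_int`; `b_exp`, `1/(2n-1) ≥ 1/(2n)`; `pf_gn`), `(a (1/2)^T)^n ≤ a^n e^(Q+4)`.
-/

set_option autoImplicit false

namespace H60NT

open H60NH MeasureTheory Metric Set Filter Topology
open scoped ENNReal NNReal ContDiff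

lemma pfF_sq {a b c : ℝ} (ha : 0 ≤ a) (h : a ≤ 2 * (b + c)) :
    a ^ 2 ≤ 8 * b ^ 2 + 8 * c ^ 2 := by
  have h1 : a ^ 2 ≤ (2 * (b + c)) ^ 2 := pow_le_pow_left₀ ha h 2
  linarith [sq_nonneg (b - c)]

lemma pfF_aux {X : Type*} [MeasurableSpace X] (μ : Measure X) (A S : Set X)
    (hA : MeasurableSet A) (hS : MeasurableSet S) (hv : μ A ≠ ⊤) (w h : X → ℝ)
    (hw : ∀ x, 0 ≤ w x) (h0 : ∀ x, 0 ≤ h x) (hh : IntegrableOn h A μ) (a b : ℝ) (ha : 0 ≤ a)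
    (hb : 0 ≤ b) (hle : ∀ᵐ x ∂μ, x ∈ A → x ∈ S → w x ≤ a * h x + b) :
    ∫ x in A ∩ S, w x ∂μ ≤ a * (∫ x in A, h x ∂μ) + b * (μ A).toReal := by
  have hi : IntegrableOn (fun x => a * h x + b) A μ :=
    (hh.const_mul a).add (integrableOn_const hv)
  have h1 : ∫ x in A ∩ S, w x ∂μ ≤ ∫ x in A ∩ S, (a * h x + b) ∂μ := by
    apply integral_mono_of_nonneg (ae_of_all _ hw) (hi.mono_set inter_subset_left)
    have := (ae_restrict_iff' (μ := μ) (hA.inter hS)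
      (p := fun x => w x ≤ a * h x + b)).mpr (by
        filter_upwards [hle] with x hx hxs
        exact hx hxs.1 hxs.2)
    exact this
  have h2 : ∫ x in A ∩ S, (a * h x + b) ∂μ ≤ ∫ x in A, (a * h x + b) ∂μ := by
    apply setIntegral_mono_set hi
    · exact ae_of_all _ (fun x => add_nonneg (mul_nonneg ha (h0 x)) hb)
    · exact Eventually.of_forall (fun x hx => hx.1)
  have h3 : ∫ x in A, (a * h x + b) ∂μ = a * (∫ x in A, h x ∂μ) + b * (μ A).toReal := by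
    rw [integral_add (hh.const_mul a) (integrableOn_const hv), integral_const_mul,
      setIntegral_const, smul_eq_mul, mul_comm b]
    rfl
  rw [← h3]
  exact h1.trans h2

theorem pf_f {n m : ℕ} (P : Par n m) (Cp : ℝ) (hCp : 1 ≤ Cp) : Uni P (fun C _ R =>
    ∀ (α β : ℕ) (pf : Pf R Cp α β), α + 2 ≤ β → ∀ j, j = α ∨ j = β →
      p2 j ^ n * ∫ x in rg R.x₀ j ∩ R.S, ‖pf.v x‖ ^ 2 ≤
        C * (pf.Gg j ^ 2 + (pf.a * (1 / 2) ^ R.T) ^ 2) ∧
      p2 j ^ n * ∫ x in rg R.x₀ j ∩ R.S, ‖pf.v x‖ ^ n ≤ C * (pf.Zp j + pf.Er j)) := by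
  have hn := P.hn
  obtain ⟨C₁, t₁, hC₁, ht₁, H₁⟩ := pf_d P Cp hCp
  obtain ⟨C₂, t₂, hC₂, ht₂, H₂⟩ := pf_mean P Cp hCp
  obtain ⟨C₃, t₃, hC₃, ht₃, H₃⟩ := b_pow P
  obtain ⟨C₄, hC₄, H₄⟩ := pf_gn P Cp hCp
  obtain ⟨C₆, hC₆, H₆⟩ := ring_L2 n m hn P.hφ
  obtain ⟨C₇, hC₇, H₇⟩ := ring_Ln n m hn P.hφ
  obtain ⟨C₈, hC₈, H₈⟩ := fr_vol n (by omega)
  obtain ⟨C₉, t₉, hC₉, ht₉, H₉⟩ := yj_facts P
  have hc1 : 0 ≤ 8 * C₂ ^ 2 * C₈ := by positivity
  have hc2 : 0 ≤ 4 ^ n * (C₇ * (1 + C₄)) := by positivity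
  have hc3 : 0 ≤ 4 ^ n * (C₂ ^ n * C₈) := by positivity
  refine ⟨8 * C₆ + 8 * C₂ ^ 2 * C₈ + 4 ^ n * (C₇ * (1 + C₄)) + 4 ^ n * (C₂ ^ n * C₈),
    min (min t₁ t₂) (min t₃ t₉), by linarith, lt_min (lt_min ht₁ ht₂) (lt_min ht₃ ht₉), ?_⟩
  intro Q C₅ t₀ h5 h0 h
  obtain ⟨e₁, he₁, he₁1, K₁⟩ := H₁ Q C₅ t₀ h5 h0 (h.trans ((min_le_left _ _).trans (min_le_left _ _)))
  obtain ⟨e₂, he₂, he₂1, K₂⟩ := H₂ Q C₅ t₀ h5 h0 (h.trans ((min_le_left _ _).trans (min_le_right _ _)))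
  obtain ⟨e₃, he₃, he₃1, K₃⟩ := H₃ Q C₅ t₀ h5 h0 (h.trans ((min_le_right _ _).trans (min_le_left _ _)))
  obtain ⟨e₉, he₉, he₉1, K₉⟩ := H₉ Q C₅ t₀ h5 h0 (h.trans ((min_le_right _ _).trans (min_le_right _ _)))
  refine ⟨min (min e₁ e₂) (min e₃ e₉), lt_min (lt_min he₁ he₂) (lt_min he₃ he₉),
    ((min_le_left _ _).trans (min_le_left _ _)).trans he₁1, ?_⟩
  intro D R hR α β pf hαβ j hj
  have F₁ := K₁ D R (hR.mono ((min_le_left _ _).trans (min_le_left _ _))) α β pf hαβ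
  obtain ⟨-, F₂⟩ := K₂ D R (hR.mono ((min_le_left _ _).trans (min_le_right _ _))) α β pf hαβ
  obtain ⟨hSm, F₃⟩ := K₃ D R (hR.mono ((min_le_right _ _).trans (min_le_left _ _)))
  have F₉ := K₉ D R (hR.mono ((min_le_right _ _).trans (min_le_right _ _)))
  obtain ⟨F₄, -, -⟩ := H₄ D R α β pf hαβ hSm
  obtain ⟨hVG, hvm, hlc, hLc, hflc, hzm, hfl0, hz0, hvb⟩ := pf_vg pf
  obtain ⟨n1, n2, n3, n4, n5, n6, n7⟩ := rc_num R
  have hge := pf.ge
  have hjα : α ≤ j := by omega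
  have hjβ : j ≤ β := by omega
  have hkj : R.k + 1 ≤ j := by omega
  have hx₀ : ‖R.x₀‖ ≤ 2 := R.hx.trans (by norm_num)
  obtain ⟨G1, G2, G3, G4, G5, G6, G7, G8⟩ := F₄ j (by omega) (by omega)
  obtain ⟨B1, B2, B3, B4⟩ := F₃ j (by omega)
  have L2 := H₆ R.μ _ n4 R.hμ pf.v pf.g hVG R.x₀ j hx₀ (by omega)
  have Ln := H₇ R.μ _ n4 R.hμ pf.v pf.g hVG R.x₀ j hx₀ (by omega) R.S hSm
  obtain ⟨V1, V2, V3, V4⟩ := H₈ R.x₀ j
  have hmm := F₂ j hj
  set mm := Mn R.μ R.x₀ j pf.v with hmmdef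
  set c := C₂ * (pf.a * (1 / 2) ^ R.T) with hc
  have ha := pf.a_nonneg
  have hc0 : 0 ≤ c := by positivity
  have hp := (p2_succ j).2.1
  have hpn : 0 ≤ p2 j ^ n := by positivity
  obtain ⟨f1, f2, f3, f4⟩ := fr_eq R.x₀ j (by omega)
  have hrgm := (rg_meas R.x₀ j).1
  have hrgv : volume (rg R.x₀ j) ≠ ⊤ := ((measure_mono f2).trans_lt V2).ne
  -- the pointwise bound
  have hpt : ∀ᵐ x, x ∈ rg R.x₀ j → x ∈ R.S → ‖pf.v x‖ ≤ 2 * (‖pf.v x - mm‖ + c) := by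
    filter_upwards [F₁ j (by omega) (by omega)] with x hx h1 h2
    obtain ⟨-, -, k3⟩ := hx h1 h2
    have k4 := (k3 j hjα hjβ).2
    have hyN := (F₉ j hkj).1
    have k5 : ‖fderiv ℝ P.π (R.yj j) (pf.v x)‖ ≤ ‖pf.v x - mm‖ + c := by
      have e : pf.v x = (pf.v x - mm) + mm := by abel
      calc ‖fderiv ℝ P.π (R.yj j) (pf.v x)‖
          = ‖fderiv ℝ P.π (R.yj j) (pf.v x - mm) + fderiv ℝ P.π (R.yj j) mm‖ := by
            rw [← map_add, ← e]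
        _ ≤ ‖fderiv ℝ P.π (R.yj j) (pf.v x - mm)‖ + ‖fderiv ℝ P.π (R.yj j) mm‖ :=
            norm_add_le _ _
        _ ≤ ‖pf.v x - mm‖ + c := add_le_add (dpi_le P.hT _ hyN _).1 hmm
    linarith
  have hEr : pf.Er j = R.e ^ (R.Q + 3) * (R.Dj j + pf.a ^ n) := rfl
  have he0 := R.e_pos
  have he1 := R.e_le
  have hε34 : R.e ^ (R.Q + 4) ≤ R.e ^ (R.Q + 3) := pow_le_pow_of_le_one he0.le he1 (by omega)
  have han : 0 ≤ pf.a ^ n := by positivity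
  -- Z
  have hZ0 : ∀ i, 0 ≤ pf.Z i := fun i =>
    setIntegral_nonneg_of_ae (ae_of_all _ (fun x => hz0 x))
  have hZp0 : 0 ≤ pf.Zp j := by
    unfold Pf.Zp
    have := hZ0 (j - 1)
    have := hZ0 j
    have := hZ0 (j + 1)
    linarith
  have hin : ∀ x ∈ fr R.x₀ j, ‖x‖ < 64 := by
    intro x hx
    have h1 := f4 hx
    rw [mem_ball, dist_eq_norm] at h1
    have h2 : 8 / p2 j ≤ 8 := by
      rw [div_le_iff₀ hp]
      have := (p2_succ j).2.2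
      linarith
    have h3 : ‖x‖ ≤ ‖x - R.x₀‖ + ‖R.x₀‖ := by
      have := norm_add_le (x - R.x₀) R.x₀
      rwa [sub_add_cancel] at this
    linarith
  have hfrS : ∫ x in fr R.x₀ j ∩ R.S, gn (pf.g x) ^ n ≤ pf.Zp j := by
    have h1 : ∫ x in fr R.x₀ j ∩ R.S, gn (pf.g x) ^ n ≤ ∫ x in fr R.x₀ j ∩ R.S, pf.z x := by
      apply setIntegral_mono_on (G1.mono_set inter_subset_left) (G3.mono_set inter_subset_left)
        ((rg_meas R.x₀ j).2.1.inter hSm)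
      intro x hx
      exact (pf_in pf x (hin x hx.1)).2.2.2.2.1
    exact h1.trans (fr_int (by omega) R.x₀ j (by omega) R.S hSm pf.z hz0
      (G3.mono_set inter_subset_left))
  constructor
  · have h1 := pfF_aux volume (rg R.x₀ j) R.S hrgm hSm hrgv (fun x => ‖pf.v x‖ ^ 2)
      (fun x => ‖pf.v x - mm‖ ^ 2) (fun x => by positivity) (fun x => by positivity) L2.1
      8 (8 * c ^ 2) (by norm_num) (by positivity) (by
        filter_upwards [hpt] with x hx g1 g2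
        have g3 := hx g1 g2
        have g4 := norm_nonneg (pf.v x)
        have g5 := norm_nonneg (pf.v x - mm)
        exact pfF_sq g4 g3)
    have hGg : pf.Gg j ^ 2 = p2 j ^ (n - 2) * ∫ x in fr R.x₀ j, gn (pf.g x) ^ 2 := by
      unfold Pf.Gg
      apply Real.sq_sqrt
      apply mul_nonneg (by positivity)
      exact setIntegral_nonneg_of_ae (ae_of_all _ (fun x => by positivity))
    have h2 := L2.2
    rw [← hGg] at h2
    calc p2 j ^ n * ∫ x in rg R.x₀ j ∩ R.S, ‖pf.v x‖ ^ 2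
        ≤ p2 j ^ n * (8 * (∫ x in rg R.x₀ j, ‖pf.v x - mm‖ ^ 2) +
            8 * c ^ 2 * (volume (rg R.x₀ j)).toReal) := mul_le_mul_of_nonneg_left h1 hpn
      _ = 8 * (p2 j ^ n * ∫ x in rg R.x₀ j, ‖pf.v x - mm‖ ^ 2) +
            8 * c ^ 2 * (p2 j ^ n * (volume (rg R.x₀ j)).toReal) := by ring
      _ ≤ 8 * (C₆ * pf.Gg j ^ 2) + 8 * c ^ 2 * C₈ :=
          add_le_add (mul_le_mul_of_nonneg_left h2 (by norm_num))
            (mul_le_mul_of_nonneg_left V3 (by positivity))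
      _ = 8 * C₆ * pf.Gg j ^ 2 + 8 * C₂ ^ 2 * C₈ * (pf.a * (1 / 2) ^ R.T) ^ 2 := by
          rw [hc]
          ring
      _ ≤ _ := by
          have k1 : 0 ≤ pf.Gg j ^ 2 := by positivity
          have k2 : 0 ≤ (pf.a * (1 / 2) ^ R.T) ^ 2 := by positivity
          have k3 : 0 ≤ (8 * C₂ ^ 2 * C₈ + 4 ^ n * (C₇ * (1 + C₄)) + 4 ^ n * (C₂ ^ n * C₈)) *
            pf.Gg j ^ 2 := mul_nonneg (by linarith) k1
          have k4 : 0 ≤ (8 * C₆ + 4 ^ n * (C₇ * (1 + C₄)) + 4 ^ n * (C₂ ^ n * C₈)) *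
            (pf.a * (1 / 2) ^ R.T) ^ 2 := mul_nonneg (by linarith) k2
          linarith
  · have e4 : (4 : ℝ) ^ n = 2 ^ n * 2 ^ n := by
      rw [← mul_pow]
      norm_num
    have h1 := pfF_aux volume (rg R.x₀ j) R.S hrgm hSm hrgv (fun x => ‖pf.v x‖ ^ n)
      (fun x => ‖pf.v x - mm‖ ^ n) (fun x => by positivity) (fun x => by positivity) Ln.1
      (4 ^ n) (4 ^ n * c ^ n) (by positivity) (by positivity) (by
        filter_upwards [hpt] with x hx g1 g2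
        have g3 := hx g1 g2
        have g4 := norm_nonneg (pf.v x)
        have g5 := norm_nonneg (pf.v x - mm)
        calc ‖pf.v x‖ ^ n ≤ (2 * (‖pf.v x - mm‖ + c)) ^ n := pow_le_pow_left₀ g4 g3 n
          _ = 2 ^ n * (‖pf.v x - mm‖ + c) ^ n := mul_pow _ _ _
          _ ≤ 2 ^ n * (2 ^ n * (‖pf.v x - mm‖ ^ n + c ^ n)) :=
              mul_le_mul_of_nonneg_left (young1 n (by omega) _ _ g5 hc0).2.2.2.1 (by positivity)
          _ = 4 ^ n * ‖pf.v x - mm‖ ^ n + 4 ^ n * c ^ n := by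
              rw [e4]
              ring)
    have hbe : (R.b j) ^ (1 / (2 * n - 1 : ℝ)) ≤ R.e ^ (R.Q + 4) := by
      refine le_trans (b_exp B1 B2 n hn _ ?_) B3
      have hn3 : (3 : ℝ) ≤ n := by exact_mod_cast hn
      apply one_div_le_one_div_of_le (by linarith)
      linarith
    have h2 : p2 j ^ n * ∫ x in rg R.x₀ j, ‖pf.v x - mm‖ ^ n ≤
        C₇ * (1 + C₄) * (pf.Zp j + pf.Er j) := by
      refine Ln.2.trans ?_
      have k1 : (p2 j ^ n * (volume (fr R.x₀ j \ R.S)).toReal) ^ (1 / (2 * n - 1 : ℝ)) *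
          ∫ y in fr R.x₀ j, gn (pf.g y) ^ n ≤ C₄ * pf.Er j := by
        have k2 : (p2 j ^ n * (volume (fr R.x₀ j \ R.S)).toReal) ^ (1 / (2 * n - 1 : ℝ)) ≤
            R.e ^ (R.Q + 3) := hbe.trans hε34
        calc _ ≤ R.e ^ (R.Q + 3) * (C₄ * (R.Dj j + pf.a ^ n)) := by
              apply mul_le_mul k2 G4 _ (by positivity)
              exact setIntegral_nonneg_of_ae (ae_of_all _ (fun x => by
                simp only [Pi.zero_apply]
                unfold gn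
                positivity))
          _ = C₄ * pf.Er j := by
              rw [hEr]
              ring
      have k3 : C₇ * ((∫ y in fr R.x₀ j ∩ R.S, gn (pf.g y) ^ n) +
          (p2 j ^ n * (volume (fr R.x₀ j \ R.S)).toReal) ^ (1 / (2 * n - 1 : ℝ)) *
            ∫ y in fr R.x₀ j, gn (pf.g y) ^ n) ≤ C₇ * (pf.Zp j + C₄ * pf.Er j) :=
        mul_le_mul_of_nonneg_left (add_le_add hfrS k1) (by linarith)
      refine k3.trans ?_
      have k4 : pf.Zp j + C₄ * pf.Er j ≤ (1 + C₄) * (pf.Zp j + pf.Er j) := by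
        linarith [mul_nonneg (show 0 ≤ C₄ by linarith) hZp0]
      calc C₇ * (pf.Zp j + C₄ * pf.Er j) ≤ C₇ * ((1 + C₄) * (pf.Zp j + pf.Er j)) :=
            mul_le_mul_of_nonneg_left k4 (by linarith)
        _ = _ := by ring
    have hcn : c ^ n ≤ C₂ ^ n * pf.Er j := by
      have k1 : ((1 / 2 : ℝ) ^ R.T) ^ n ≤ (1 / 2) ^ R.T := by
        calc ((1 / 2 : ℝ) ^ R.T) ^ n ≤ ((1 / 2) ^ R.T) ^ 1 :=
              pow_le_pow_of_le_one (by positivity) (by linarith) (by omega)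
          _ = (1 / 2) ^ R.T := pow_one _
      have k2 : ((1 / 2 : ℝ) ^ R.T) ^ n ≤ R.e ^ (R.Q + 3) := k1.trans (n5.trans hε34)
      calc c ^ n = C₂ ^ n * (pf.a ^ n * ((1 / 2) ^ R.T) ^ n) := by
            rw [hc, mul_pow, mul_pow]
        _ ≤ C₂ ^ n * (pf.a ^ n * R.e ^ (R.Q + 3)) := by
            apply mul_le_mul_of_nonneg_left _ (by positivity)
            exact mul_le_mul_of_nonneg_left k2 han
        _ ≤ C₂ ^ n * pf.Er j := by
            apply mul_le_mul_of_nonneg_left _ (by positivity)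
            rw [hEr]
            linarith [mul_nonneg (pow_nonneg he0.le (R.Q + 3)) G7]
    calc p2 j ^ n * ∫ x in rg R.x₀ j ∩ R.S, ‖pf.v x‖ ^ n
        ≤ p2 j ^ n * (4 ^ n * (∫ x in rg R.x₀ j, ‖pf.v x - mm‖ ^ n) +
            4 ^ n * c ^ n * (volume (rg R.x₀ j)).toReal) := mul_le_mul_of_nonneg_left h1 hpn
      _ = 4 ^ n * (p2 j ^ n * ∫ x in rg R.x₀ j, ‖pf.v x - mm‖ ^ n) +
            4 ^ n * (c ^ n * (p2 j ^ n * (volume (rg R.x₀ j)).toReal)) := by ring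
      _ ≤ 4 ^ n * (C₇ * (1 + C₄) * (pf.Zp j + pf.Er j)) +
            4 ^ n * ((C₂ ^ n * pf.Er j) * C₈) := by
          apply add_le_add (mul_le_mul_of_nonneg_left h2 (by positivity))
          apply mul_le_mul_of_nonneg_left _ (by positivity)
          exact mul_le_mul hcn V3 (mul_nonneg hpn ENNReal.toReal_nonneg) (by positivity)
      _ = 4 ^ n * (C₇ * (1 + C₄)) * (pf.Zp j + pf.Er j) + 4 ^ n * (C₂ ^ n * C₈) * pf.Er j := by
          ring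
      _ ≤ _ := by
          have k1 : 0 ≤ (8 * C₆ + 8 * C₂ ^ 2 * C₈) * (pf.Zp j + pf.Er j) :=
            mul_nonneg (by linarith) (by linarith)
          have k2 : 0 ≤ 4 ^ n * (C₂ ^ n * C₈) * pf.Zp j := mul_nonneg hc3 hZp0
          linarith

end H60NT
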