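import Pool.Agent.H60.NT.PoiI
import Pool.Agent.H60.NT.PfC

/-!
# [H60 NT PFMJ] Differences of the means

`ring_mean`, second part, for `v`: `‖M_j - M_{j+1}‖ ≤ C p2 j^(n-1) ∫_{fr j ∪ fr (j+1)} gn g ≤ C (Gg j + Gg (j+1))` by
Cauchy-Schwarz on each of `fr j`, `fr (j+1)` (volume `fr_vol`: `p2 j^(n-1) (C p2 j^(-n))^(1/2) (∫ gn g²)^(1/2) = C Gg j`).
Sum over `α ≤ i < j`. Second claim: the same sum from `i` to `j`.
-/

set_option autoImplicit false

namespace H60NT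

open H60NH MeasureTheory Metric Set Filter Topology
open scoped ENNReal NNReal ContDiff

private theorem pfmj_p2 (k : ℕ) : 0 < p2 k ∧ 1 ≤ p2 k := by
  have h : 1 ≤ p2 k := by
    unfold p2
    exact one_le_pow₀ (by norm_num)
  exact ⟨by linarith, h⟩

/-- Cauchy-Schwarz on the fat ring. -/
private theorem pfmj_cs {n : ℕ} (hn : 2 ≤ n) {A : Set (E n)} (hA : volume A < ⊤) {Y : E n → ℝ}
    (hY : IntegrableOn Y A) (hY2 : IntegrableOn (fun x => Y x ^ 2) A) {p Cv G : ℝ} (hp : 0 < p)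
    (hCv : 1 ≤ Cv) (hv : p ^ n * (volume A).toReal ≤ Cv) (hG0 : 0 ≤ G)
    (hG : G ^ 2 = p ^ (n - 2) * ∫ x in A, Y x ^ 2) :
    p ^ (n - 1) * ∫ x in A, Y x ≤ Cv * G := by
  have hfin : IsFiniteMeasure (volume.restrict A) :=
    ⟨by rw [Measure.restrict_apply_univ]; exact hA⟩
  have hV0 : 0 ≤ (volume A).toReal := ENNReal.toReal_nonneg
  have key : ∀ t : ℝ, G < t → p ^ (n - 1) * ∫ x in A, Y x ≤ Cv * t := by
    intro t ht
    have ht0 : 0 < t := lt_of_le_of_lt hG0 ht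
    have hi0 : Integrable (fun _ : E n => (t * p) ^ 2) (volume.restrict A) := integrable_const _
    have hi1 : Integrable (fun x => 2 * (t * p) * Y x) (volume.restrict A) := hY.const_mul _
    have h1 : ∫ x in A, 2 * (t * p) * Y x ≤ ∫ x in A, ((t * p) ^ 2 + Y x ^ 2) := by
      refine integral_mono hi1 (hi0.add hY2) ?_
      intro x
      show 2 * (t * p) * Y x ≤ (t * p) ^ 2 + Y x ^ 2
      nlinarith [pow_two_nonneg (t * p - Y x)]
    rw [integral_const_mul, integral_add hi0 hY2, integral_const, smul_eq_mul] at h1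
    have h2 : (volume.restrict A).real univ = (volume A).toReal := by
      rw [Measure.real, Measure.restrict_apply_univ]
    rw [h2] at h1
    obtain ⟨I1, hI1⟩ : ∃ I, I = ∫ x in A, Y x := ⟨_, rfl⟩
    obtain ⟨I2, hI2⟩ : ∃ I, I = ∫ x in A, Y x ^ 2 := ⟨_, rfl⟩
    rw [← hI1, ← hI2] at h1
    rw [← hI2] at hG
    rw [← hI1]
    obtain ⟨q, rfl⟩ : ∃ q, n = q + 2 := ⟨n - 2, by omega⟩
    have e0 : q + 2 - 1 = q + 1 := by omega
    rw [e0]
    simp only [Nat.add_sub_cancel] at hG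
    have hpq : 0 < p ^ q := by positivity
    have h3 : p ^ q * (2 * (t * p) * I1) ≤ p ^ q * ((volume A).toReal * (t * p) ^ 2 + I2) :=
      mul_le_mul_of_nonneg_left h1 hpq.le
    have e1 : p ^ q * (2 * (t * p) * I1) = 2 * t * (p ^ (q + 1) * I1) := by ring
    have e2 : p ^ q * ((volume A).toReal * (t * p) ^ 2 + I2) =
        t ^ 2 * (p ^ (q + 2) * (volume A).toReal) + G ^ 2 := by
      rw [hG]
      ring
    rw [e1, e2] at h3
    have h4 : t ^ 2 * (p ^ (q + 2) * (volume A).toReal) ≤ t ^ 2 * Cv :=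
      mul_le_mul_of_nonneg_left hv (by positivity)
    have h5 : G ^ 2 ≤ t ^ 2 := pow_le_pow_left₀ hG0 ht.le 2
    have h6 : t ^ 2 ≤ t ^ 2 * Cv := le_mul_of_one_le_right (by positivity) hCv
    have h7 : 2 * t * (p ^ (q + 1) * I1) ≤ 2 * t * (Cv * t) := by
      have e3 : 2 * t * (Cv * t) = t ^ 2 * Cv + t ^ 2 * Cv := by ring
      rw [e3]
      linarith
    exact le_of_mul_le_mul_left h7 (by positivity)
  refine le_of_forall_pos_le_add fun δ hδ => ?_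
  have h := key (G + δ / Cv) (by
    have : 0 < δ / Cv := by positivity
    linarith)
  refine h.trans (le_of_eq ?_)
  field_simp

theorem pf_mj {n m : ℕ} (P : Par n m) (Cp : ℝ) (hCp : 1 ≤ Cp) : Uni P (fun C _ R =>
    ∀ (α β : ℕ) (pf : Pf R Cp α β), α + 2 ≤ β → ∀ i j, α ≤ i → i ≤ j → j ≤ β →
      ‖Mn R.μ R.x₀ j pf.v - Mn R.μ R.x₀ i pf.v‖ ≤ C * ∑ l ∈ Finset.Icc i j, pf.Gg l) := by
  have hn := P.hn
  obtain ⟨Cb, tb, -, htb, Hb⟩ := b_pow P
  obtain ⟨Cg, hCg, Hg⟩ := pf_gn P Cp hCp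
  obtain ⟨Cv, hCv, Hv⟩ := fr_vol n (by omega)
  obtain ⟨Cr, hCr, hring⟩ := ring_mean n m hn P.hφ
  obtain ⟨K, hK⟩ : ∃ K : ℝ, K = Cr * Cv := ⟨_, rfl⟩
  have hK1 : 1 ≤ K := by
    rw [hK]
    exact one_le_mul_of_one_le_of_one_le hCr hCv
  refine ⟨2 * K, tb, by linarith, htb, ?_⟩
  intro Q C₅ t₀ h5 h0 h01
  obtain ⟨e₁, he₁, he₁1, H⟩ := Hb Q C₅ t₀ h5 h0 h01
  refine ⟨e₁, he₁, he₁1, ?_⟩
  intro D R hR α β pf hαβ i j hαi hij hjβ
  obtain ⟨hS, -⟩ := H D R hR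
  have hge := pf.ge
  have hW1 : 1 ≤ R.W := (rc_num R).2.2.2.2.2.1
  have hT2 : (1 / 2 : ℝ) ^ R.T ≤ 1 / 4 := (rc_num R).2.2.2.1
  have hx2 : ‖R.x₀‖ ≤ 2 := R.hx.trans (by norm_num)
  obtain ⟨hG, -, -⟩ := Hg D R α β pf hαβ hS
  obtain ⟨hvg, -, -, -, -, -, -, -, -⟩ := pf_vg pf
  have hY0 : ∀ x, 0 ≤ gn (pf.g x) := fun x => Real.sqrt_nonneg _
  have hGg0 : ∀ l, 0 ≤ pf.Gg l := fun l => Real.sqrt_nonneg _
  have hcs : ∀ l, α ≤ l → l ≤ β →
      p2 l ^ (n - 1) * ∫ x in fr R.x₀ l, gn (pf.g x) ≤ Cv * pf.Gg l := by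
    intro l h1 h2
    obtain ⟨gi1, gi2, -⟩ := hG l (by omega) (by omega)
    obtain ⟨hv1, hv2, -, -⟩ := Hv R.x₀ l
    refine pfmj_cs (by omega) hv2 hvg.int_g.integrableOn gi2 (pfmj_p2 l).1 hCv hv1 (hGg0 l) ?_
    unfold Pf.Gg
    refine Real.sq_sqrt (mul_nonneg ?_ (integral_nonneg fun x => by positivity))
    exact pow_nonneg (pfmj_p2 l).1.le _
  have hstep : ∀ l, α ≤ l → l + 1 ≤ β → ‖Mn R.μ R.x₀ (l + 1) pf.v - Mn R.μ R.x₀ l pf.v‖ ≤
      K * (pf.Gg l + pf.Gg (l + 1)) := by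
    intro l h1 h2
    have h3 := (hring R.μ _ hT2 R.hμ pf.v pf.g hvg R.x₀ l hx2 (by omega)).2
    rw [norm_sub_rev]
    refine h3.trans ?_
    obtain ⟨hp, hp1⟩ := pfmj_p2 l
    have e1 : p2 (l + 1) = 2 * p2 l := by
      unfold p2
      ring
    have hun : ∫ y in fr R.x₀ l ∪ fr R.x₀ (l + 1), gn (pf.g y) ≤
        (∫ y in fr R.x₀ l, gn (pf.g y)) + ∫ y in fr R.x₀ (l + 1), gn (pf.g y) := by
      have hm := (rg_meas R.x₀ (l + 1)).2.1
      have e2 : fr R.x₀ l ∪ fr R.x₀ (l + 1) = (fr R.x₀ l \ fr R.x₀ (l + 1)) ∪ fr R.x₀ (l + 1) :=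
        sdiff_union_self.symm
      rw [e2, setIntegral_union disjoint_sdiff_left hm hvg.int_g.integrableOn
        hvg.int_g.integrableOn]
      have h4 : ∫ y in fr R.x₀ l \ fr R.x₀ (l + 1), gn (pf.g y) ≤
          ∫ y in fr R.x₀ l, gn (pf.g y) :=
        setIntegral_mono_set hvg.int_g.integrableOn (ae_of_all _ hY0)
          (LE.le.eventuallyLE sdiff_subset)
      linarith
    have h5 := hcs l h1 (by omega)
    have h6 := hcs (l + 1) (by omega) h2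
    have h7 : p2 l ^ (n - 1) ≤ p2 (l + 1) ^ (n - 1) := by
      rw [e1]
      exact pow_le_pow_left₀ hp.le (by linarith) _
    have hI0 : 0 ≤ ∫ y in fr R.x₀ (l + 1), gn (pf.g y) := integral_nonneg hY0
    have h8 : p2 l ^ (n - 1) * ∫ y in fr R.x₀ (l + 1), gn (pf.g y) ≤ Cv * pf.Gg (l + 1) :=
      (mul_le_mul_of_nonneg_right h7 hI0).trans h6
    have h9 : p2 l ^ (n - 1) * ∫ y in fr R.x₀ l ∪ fr R.x₀ (l + 1), gn (pf.g y) ≤
        Cv * pf.Gg l + Cv * pf.Gg (l + 1) := by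
      refine (mul_le_mul_of_nonneg_left hun (by positivity)).trans ?_
      rw [mul_add]
      linarith
    calc Cr * (p2 l ^ (n - 1) * ∫ y in fr R.x₀ l ∪ fr R.x₀ (l + 1), gn (pf.g y))
        ≤ Cr * (Cv * pf.Gg l + Cv * pf.Gg (l + 1)) :=
          mul_le_mul_of_nonneg_left h9 (by linarith)
      _ = K * (pf.Gg l + pf.Gg (l + 1)) := by
          rw [hK]
          ring
  have main : ∀ j, i ≤ j → j ≤ β → ‖Mn R.μ R.x₀ j pf.v - Mn R.μ R.x₀ i pf.v‖ ≤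
      K * (2 * ∑ l ∈ Finset.Icc i j, pf.Gg l - pf.Gg j) := by
    intro j hij
    induction j, hij using Nat.le_induction with
    | base =>
      intro _
      rw [sub_self, norm_zero, Finset.Icc_self, Finset.sum_singleton]
      have := hGg0 i
      exact mul_nonneg (by linarith) (by linarith)
    | succ j hij ih =>
      intro hj
      have h1 := ih (by omega)
      have h2 := hstep j (by omega) hj
      have e1 : Mn R.μ R.x₀ (j + 1) pf.v - Mn R.μ R.x₀ i pf.v =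
          (Mn R.μ R.x₀ (j + 1) pf.v - Mn R.μ R.x₀ j pf.v) +
            (Mn R.μ R.x₀ j pf.v - Mn R.μ R.x₀ i pf.v) := by abel
      have e2 : ∑ l ∈ Finset.Icc i (j + 1), pf.Gg l =
          (∑ l ∈ Finset.Icc i j, pf.Gg l) + pf.Gg (j + 1) :=
        Finset.sum_Icc_succ_top (by omega) _
      rw [e1, e2]
      refine (norm_add_le _ _).trans ((add_le_add h2 h1).trans (le_of_eq ?_))
      ring
  refine (main j hij hjβ).trans ?_
  have h1 := hGg0 j
  have e1 : K * (2 * ∑ l ∈ Finset.Icc i j, pf.Gg l - pf.Gg j) =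
      2 * K * ∑ l ∈ Finset.Icc i j, pf.Gg l - K * pf.Gg j := by ring
  rw [e1]
  have : 0 ≤ K * pf.Gg j := mul_nonneg (by linarith) h1
  linarith

end H60NT
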