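import Pool.Agent.H60.NT.PoiI
import Pool.Agent.H60.NT.PfF
import Pool.Agent.H60.NT.PfMj

/-!
# [H60 NT PFV2] `v` in the mean square in the interior rings; the curvature sum

`α ≤ j ≤ β`, `Q = P_α`. On `S`: `‖v‖ ≤ 2 ‖Q v‖ ≤ 2 (‖v - M_j‖ + ‖Q M_j‖)`, `ring_L2`, and
`‖Q M_j‖ ≤ ‖Q M_α‖ + ‖M_j - M_α‖ ≤ C a (1/2)^T + C ∑_{α ≤ i ≤ j} Gg i` (`pf_mean`, `pf_mj`); Cauchy-Schwarz
`(∑ Gg i)² ≤ (W + 1) ∑ Gg i²`. Sum over `j` (at most `W + 1` terms) and multiply by `a^n`: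
`≤ C (a (W+1))² ∑_i a^(n-2) Gg i² + C (W + 1) a^n (a (1/2)^T)²`; `a (W + 1) ≤ Cp e (W + 1) ≤ 3 Cp √e` (`rc_num`), so the first
part is `≤ C e ∑_i (Z_i^+ + E_i) ≤ C e SS + C ∑ E_i` (`pf_c`; `∑_{α ≤ i ≤ β} Z_i^+ ≤ 3 SS`), the second is
`≤ C a^n e^(Q+4) ≤ C E_α` (`a² (W+1) ≤ 1`).
-/

set_option autoImplicit false

namespace H60NT

open H60NH MeasureTheory Metric Set Filter Topology
open scoped ENNReal NNReal ContDiff

private theorem pv2_shift (Z : ℕ → ℝ) (hZ : ∀ j, 0 ≤ Z j) (s t : Finset ℕ) (g : ℕ → ℕ)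
    (hg : ∀ a ∈ s, ∀ b ∈ s, g a = g b → a = b) (hst : ∀ j ∈ s, g j ∈ t) :
    ∑ j ∈ s, Z (g j) ≤ ∑ i ∈ t, Z i := by
  classical
  rw [← Finset.sum_image (f := Z) (g := g) (s := s) (fun a ha b hb h => hg a ha b hb h)]
  exact Finset.sum_le_sum_of_subset_of_nonneg (Finset.image_subset_iff.mpr hst)
    (fun _ _ _ => hZ _)

/-- one ring -/
private theorem pv2_ring {n m : ℕ} {A B : Set (E n)} (hA : MeasurableSet A) (hAB : A ⊆ B)
    (hB : volume B ≠ ⊤) {v : E n → E m} {M : E m} {Pr : E m → E m} {q : ℝ} (hq : 0 ≤ q)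
    (hPr : ∀ w, ‖Pr w‖ ≤ ‖w - M‖ + q) (hv : ∀ᵐ x, x ∈ A → ‖v x‖ ≤ 2 * ‖Pr (v x)‖)
    (hi : IntegrableOn (fun x => ‖v x - M‖ ^ 2) B) :
    ∫ x in A, ‖v x‖ ^ 2 ≤ 8 * (∫ x in B, ‖v x - M‖ ^ 2) + 8 * q ^ 2 * (volume B).toReal := by
  have hAf : volume A ≠ ⊤ := ((measure_mono hAB).trans_lt hB.lt_top).ne
  have h1 : ∫ x in A, ‖v x‖ ^ 2 ≤ ∫ x in A, (8 * ‖v x - M‖ ^ 2 + 8 * q ^ 2) := by
    refine integral_mono_of_nonneg (Filter.Eventually.of_forall fun x => sq_nonneg _) ?_ ?_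
    · exact ((hi.mono_set hAB).const_mul 8).add (integrableOn_const hAf)
    · rw [Filter.EventuallyLE, ae_restrict_iff' hA]
      filter_upwards [hv] with x hx hxA
      have h2 := (hx hxA).trans (mul_le_mul_of_nonneg_left (hPr (v x)) (by norm_num))
      have h3 : ‖v x‖ ^ 2 ≤ (2 * (‖v x - M‖ + q)) ^ 2 := pow_le_pow_left₀ (norm_nonneg _) h2 2
      have h4 := sq_nonneg (‖v x - M‖ - q)
      linarith
  rw [integral_add ((hi.mono_set hAB).const_mul 8) (integrableOn_const hAf), integral_const_mul,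
    setIntegral_const, smul_eq_mul, measureReal_def] at h1
  have h5 : ∫ x in A, ‖v x - M‖ ^ 2 ≤ ∫ x in B, ‖v x - M‖ ^ 2 :=
    setIntegral_mono_set hi (Filter.Eventually.of_forall fun x => sq_nonneg _)
      (Filter.Eventually.of_forall hAB)
  have h6 : (volume A).toReal ≤ (volume B).toReal := ENNReal.toReal_mono hB (measure_mono hAB)
  have h7 := mul_le_mul_of_nonneg_right h6 (show 0 ≤ 8 * q ^ 2 by positivity)
  linarith

theorem pf_v2 {n m : ℕ} (P : Par n m) (Cp : ℝ) (hCp : 1 ≤ Cp) : Uni P (fun C _ R =>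
    ∀ (α β : ℕ) (pf : Pf R Cp α β), α + 2 ≤ β →
      pf.a ^ n * ∑ j ∈ Finset.Icc α β, p2 j ^ n * ∫ x in rg R.x₀ j ∩ R.S, ‖pf.v x‖ ^ 2 ≤
        C * R.e * pf.SS + C * ∑ j ∈ Finset.Icc α β, pf.Er j) := by
  obtain ⟨C1, hC1, hL2⟩ := ring_L2 n m P.hn P.hφ
  obtain ⟨C2, hC2, hvol⟩ := fr_vol n (by have := P.hn; omega)
  obtain ⟨_, tb, _, htb, Hb⟩ := b_pow P
  obtain ⟨C3, tm, hC3, htm, Hm⟩ := pf_mean P Cp hCp
  obtain ⟨C4, td, hC4, htd, Hd⟩ := pf_d P Cp hCp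
  obtain ⟨C5, tj, hC5, htj, Hj⟩ := pf_mj P Cp hCp
  obtain ⟨C6, tc, hC6, htc, Hc⟩ := pf_c P Cp hCp
  obtain ⟨K0, hK0⟩ : ∃ K0 : ℝ, K0 = 8 * C1 + 16 * C2 * C5 ^ 2 := ⟨_, rfl⟩
  obtain ⟨K1, hK1⟩ : ∃ K1 : ℝ, K1 = 16 * C2 * C3 ^ 2 := ⟨_, rfl⟩
  have hK0p : 8 ≤ K0 := by
    rw [hK0]
    have : 0 ≤ 16 * C2 * C5 ^ 2 := by positivity
    linarith
  have hK1p : 0 ≤ K1 := by
    rw [hK1]
    positivity
  have hCp2 : 1 ≤ Cp ^ 2 := one_le_pow₀ hCp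
  have hbig : 1 ≤ K0 * (Cp ^ 2 * C6) := by
    have h1 : 1 ≤ Cp ^ 2 * C6 := one_le_mul_of_one_le_of_one_le hCp2 hC6
    exact one_le_mul_of_one_le_of_one_le (by linarith) h1
  refine ⟨27 * (K0 * (Cp ^ 2 * C6)) + 9 * (K0 * (Cp ^ 2 * C6)) + 3 * (K1 * Cp ^ 2),
    min (min tb tm) (min td (min tj tc)), ?_, ?_, ?_⟩
  · have : 0 ≤ K1 * Cp ^ 2 := by positivity
    linarith
  · exact lt_min (lt_min htb htm) (lt_min htd (lt_min htj htc))
  intro Q C₅ t₀ h5 h0 ht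
  obtain ⟨eb, heb, heb1, Kb⟩ := Hb Q C₅ t₀ h5 h0
    (ht.trans ((min_le_left _ _).trans (min_le_left _ _)))
  obtain ⟨em, hem, hem1, Km⟩ := Hm Q C₅ t₀ h5 h0
    (ht.trans ((min_le_left _ _).trans (min_le_right _ _)))
  obtain ⟨ed, hed, hed1, Kd⟩ := Hd Q C₅ t₀ h5 h0
    (ht.trans ((min_le_right _ _).trans (min_le_left _ _)))
  obtain ⟨ej, hej, hej1, Kj⟩ := Hj Q C₅ t₀ h5 h0
    (ht.trans ((min_le_right _ _).trans ((min_le_right _ _).trans (min_le_left _ _))))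
  obtain ⟨ec, hec, hec1, Kc⟩ := Hc Q C₅ t₀ h5 h0
    (ht.trans ((min_le_right _ _).trans ((min_le_right _ _).trans (min_le_right _ _))))
  refine ⟨min (min eb em) (min ed (min ej ec)),
    lt_min (lt_min heb hem) (lt_min hed (lt_min hej hec)),
    ((min_le_left _ _).trans (min_le_left _ _)).trans heb1, ?_⟩
  intro D R hR α β pf hαβ
  have hSm := (Kb D R (hR.mono ((min_le_left _ _).trans (min_le_left _ _)))).1
  obtain ⟨-, hm⟩ := Km D R (hR.mono ((min_le_left _ _).trans (min_le_right _ _))) α β pf hαβ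
  have hd := Kd D R (hR.mono ((min_le_right _ _).trans (min_le_left _ _))) α β pf hαβ
  have hj := Kj D R (hR.mono ((min_le_right _ _).trans ((min_le_right _ _).trans
    (min_le_left _ _)))) α β pf hαβ
  have hc := Kc D R (hR.mono ((min_le_right _ _).trans ((min_le_right _ _).trans
    (min_le_right _ _)))) α β pf hαβ
  obtain ⟨hnum1, hnum2, hnum3, hT4, hTe, hW1, -⟩ := rc_num R
  obtain ⟨τ, hτ⟩ : ∃ τ : ℝ, τ = (1 / 2 : ℝ) ^ R.T := ⟨_, rfl⟩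
  have hτ0 : 0 ≤ τ := by
    rw [hτ]
    positivity
  rw [← hτ] at hT4 hTe
  have ha0 := pf.a_nonneg
  have hα1 : 1 ≤ α := by
    have h1 := pf.ge
    omega
  obtain ⟨Pr, hPr⟩ : ∃ Pr : E m →L[ℝ] E m, Pr = fderiv ℝ P.π (R.yj α) := ⟨_, rfl⟩
  have hyN : R.yj α ∈ P.N := by
    rw [← pf.hα]
    refine pf.geod.mem _ ⟨by linarith, ?_⟩
    have h1 : p2 α ≤ p2 β := pow_le_pow_right₀ (by norm_num) pf.lt.le
    have h2 : Real.log (p2 α) ≤ Real.log (p2 β) := Real.log_le_log (by unfold p2; positivity) h1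
    unfold sj
    linarith
  have hPle : ∀ w, ‖Pr w‖ ≤ ‖w‖ := fun w => by
    rw [hPr]
    exact (dpi_le P.hT _ hyN w).1
  -- the sums
  obtain ⟨w, hw⟩ : ∃ w : ℝ, w = ((Finset.Icc α β).card : ℝ) := ⟨_, rfl⟩
  have hwW : w ≤ R.W + 1 := by
    rw [hw, Nat.card_Icc]
    have h1 := pf.le
    have h2 : β + 1 - α ≤ R.W + 1 := by omega
    exact_mod_cast h2
  have hw1 : 1 ≤ w := by
    rw [hw, Nat.card_Icc]
    have h2 : 1 ≤ β + 1 - α := by omega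
    exact_mod_cast h2
  obtain ⟨G, hG⟩ : ∃ G : ℝ, G = ∑ i ∈ Finset.Icc α β, pf.Gg i := ⟨_, rfl⟩
  obtain ⟨Γ, hΓ⟩ : ∃ Γ : ℝ, Γ = ∑ i ∈ Finset.Icc α β, pf.Gg i ^ 2 := ⟨_, rfl⟩
  have hGg0 : ∀ i, 0 ≤ pf.Gg i := fun i => Real.sqrt_nonneg _
  have hG0 : 0 ≤ G := by
    rw [hG]
    exact Finset.sum_nonneg fun i _ => hGg0 i
  have hΓ0 : 0 ≤ Γ := by
    rw [hΓ]
    exact Finset.sum_nonneg fun i _ => sq_nonneg _
  have hGΓ : G ^ 2 ≤ w * Γ := by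
    rw [hG, hΓ, hw]
    exact sq_sum_le_card_mul_sum_sq
  -- one ring
  have hring : ∀ j ∈ Finset.Icc α β, p2 j ^ n * ∫ x in rg R.x₀ j ∩ R.S, ‖pf.v x‖ ^ 2 ≤
      8 * C1 * pf.Gg j ^ 2 + 16 * C2 * (C3 ^ 2 * (pf.a * τ) ^ 2 + C5 ^ 2 * (w * Γ)) := by
    intro j hjm
    rw [Finset.mem_Icc] at hjm
    have hj1 : 1 ≤ j := by omega
    obtain ⟨Mj, hMj⟩ : ∃ Mj : E m, Mj = Mn R.μ R.x₀ j pf.v := ⟨_, rfl⟩
    have hT4' : (1 / 2 : ℝ) ^ R.T ≤ 1 / 4 := by rw [← hτ]; exact hT4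
    obtain ⟨hint, hL⟩ := hL2 R.μ _ hT4' R.hμ pf.v pf.g (pf_vg pf).1 R.x₀ j (by linarith [R.hx])
      hj1
    rw [← hMj] at hint hL
    have hGg2 : pf.Gg j ^ 2 = p2 j ^ (n - 2) * ∫ x in fr R.x₀ j, gn (pf.g x) ^ 2 := by
      unfold Pf.Gg
      rw [Real.sq_sqrt]
      exact mul_nonneg (pow_nonneg (by unfold p2; positivity) _)
        (integral_nonneg fun x => sq_nonneg _)
    rw [← hGg2] at hL
    have hp0 : 0 < p2 j ^ n := pow_pos (by unfold p2; positivity) n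
    obtain ⟨-, hfin, hvu, -⟩ := hvol R.x₀ j
    have hrfin : volume (rg R.x₀ j) ≠ ⊤ :=
      ((measure_mono (fr_eq R.x₀ j hj1).2.1).trans_lt hfin).ne
    obtain ⟨q, hq⟩ : ∃ q : ℝ, q = ‖Pr Mj‖ := ⟨_, rfl⟩
    have hq0 : 0 ≤ q := by
      rw [hq]
      exact norm_nonneg _
    have hqb : q ≤ C3 * (pf.a * τ) + C5 * G := by
      have h1 : Pr Mj = Pr (Mn R.μ R.x₀ α pf.v) + Pr (Mj - Mn R.μ R.x₀ α pf.v) := by
        rw [map_sub]
        abel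
      have h2 : ‖Pr (Mn R.μ R.x₀ α pf.v)‖ ≤ C3 * (pf.a * τ) := by
        rw [hPr, hτ]
        exact hm α (Or.inl rfl)
      have h3 : ‖Pr (Mj - Mn R.μ R.x₀ α pf.v)‖ ≤ C5 * G := by
        refine (hPle _).trans ?_
        rw [hMj]
        refine (hj α j le_rfl hjm.1 hjm.2).trans ?_
        refine mul_le_mul_of_nonneg_left ?_ (by linarith)
        rw [hG]
        exact Finset.sum_le_sum_of_subset_of_nonneg
          (Finset.Icc_subset_Icc le_rfl hjm.2) (fun _ _ _ => hGg0 _)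
      rw [hq, h1]
      exact (norm_add_le _ _).trans (add_le_add h2 h3)
    have hq2 : q ^ 2 ≤ 2 * (C3 ^ 2 * (pf.a * τ) ^ 2 + C5 ^ 2 * (w * Γ)) := by
      have h1 : q ^ 2 ≤ (C3 * (pf.a * τ) + C5 * G) ^ 2 := pow_le_pow_left₀ hq0 hqb 2
      have h2 := sq_nonneg (C3 * (pf.a * τ) - C5 * G)
      have h3 : C5 ^ 2 * G ^ 2 ≤ C5 ^ 2 * (w * Γ) := mul_le_mul_of_nonneg_left hGΓ (sq_nonneg _)
      linarith
    have hmain := pv2_ring (n := n) (m := m) (A := rg R.x₀ j ∩ R.S) (B := rg R.x₀ j)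
      (((rg_meas R.x₀ j).1).inter hSm) inter_subset_left hrfin (v := pf.v) (M := Mj)
      (Pr := fun w => Pr w) (q := q) hq0
      (fun w => by
        have h1 : Pr w = Pr (w - Mj) + Pr Mj := by
          rw [map_sub]
          abel
        rw [h1, hq]
        exact (norm_add_le _ _).trans (add_le_add (hPle _) le_rfl))
      (by
        filter_upwards [hd j (by omega) (by omega)] with x hx hxA
        obtain ⟨-, -, hx3⟩ := hx hxA.1 hxA.2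
        have h1 := (hx3 α le_rfl pf.lt.le).2
        rwa [← hPr] at h1) hint
    have h1 := mul_le_mul_of_nonneg_left hmain hp0.le
    have h2 : p2 j ^ n * (8 * (∫ x in rg R.x₀ j, ‖pf.v x - Mj‖ ^ 2) +
        8 * q ^ 2 * (volume (rg R.x₀ j)).toReal) =
        8 * (p2 j ^ n * ∫ x in rg R.x₀ j, ‖pf.v x - Mj‖ ^ 2) +
        8 * q ^ 2 * (p2 j ^ n * (volume (rg R.x₀ j)).toReal) := by ring
    rw [h2] at h1
    have h3 : 8 * q ^ 2 * (p2 j ^ n * (volume (rg R.x₀ j)).toReal) ≤ 8 * q ^ 2 * C2 :=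
      mul_le_mul_of_nonneg_left hvu (by positivity)
    have h4 : 8 * q ^ 2 * C2 ≤
        8 * (2 * (C3 ^ 2 * (pf.a * τ) ^ 2 + C5 ^ 2 * (w * Γ))) * C2 :=
      mul_le_mul_of_nonneg_right (mul_le_mul_of_nonneg_left hq2 (by norm_num)) (by linarith)
    linarith
  -- the sum over the rings
  have hsum : ∑ j ∈ Finset.Icc α β, p2 j ^ n * ∫ x in rg R.x₀ j ∩ R.S, ‖pf.v x‖ ^ 2 ≤
      K0 * w ^ 2 * Γ + K1 * w * (pf.a * τ) ^ 2 := by
    refine (Finset.sum_le_sum hring).trans ?_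
    rw [Finset.sum_add_distrib, ← Finset.mul_sum, ← hΓ, Finset.sum_const, nsmul_eq_mul, ← hw]
    have h1 : 8 * C1 * Γ ≤ 8 * C1 * (w ^ 2 * Γ) := by
      refine mul_le_mul_of_nonneg_left ?_ (by linarith)
      exact le_mul_of_one_le_left hΓ0 (one_le_pow₀ hw1)
    rw [hK0, hK1]
    linarith
  have han : pf.a ^ n = pf.a ^ (n - 2) * pf.a ^ 2 := by
    rw [← pow_add]
    congr 1
    have := P.hn
    omega
  have han0 : 0 ≤ pf.a ^ n := pow_nonneg ha0 n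
  refine (mul_le_mul_of_nonneg_left hsum han0).trans ?_
  -- positivity of the sums
  have hZ0 : ∀ j, 0 ≤ pf.Z j := fun j =>
    integral_nonneg fun x => (pf_vg pf).2.2.2.2.2.2.2.1 x
  have hSS0 : 0 ≤ pf.SS := Finset.sum_nonneg fun j _ => hZ0 j
  have hEr0 : ∀ j, 0 ≤ pf.Er j := by
    intro j
    refine mul_nonneg (pow_nonneg R.e_pos.le _) (add_nonneg ?_ (pow_nonneg pf.a_nonneg _))
    exact integral_nonneg fun x => pow_nonneg (Real.sqrt_nonneg _) _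
  obtain ⟨Es, hEs⟩ : ∃ Es : ℝ, Es = ∑ j ∈ Finset.Icc α β, pf.Er j := ⟨_, rfl⟩
  rw [← hEs]
  have hEα : pf.Er α ≤ Es := by
    rw [hEs]
    exact Finset.single_le_sum (fun j _ => hEr0 j) (Finset.mem_Icc.mpr ⟨le_rfl, by omega⟩)
  have hEs0 : 0 ≤ Es := (hEr0 α).trans hEα
  have hZp : ∑ j ∈ Finset.Icc α β, pf.Zp j ≤ 3 * pf.SS := by
    unfold Pf.Zp
    rw [Finset.sum_add_distrib, Finset.sum_add_distrib]
    have h1 : ∑ j ∈ Finset.Icc α β, pf.Z (j - 1) ≤ pf.SS := by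
      refine pv2_shift pf.Z hZ0 _ _ (fun j => j - 1) ?_ ?_
      · intro a ha b hb hab
        rw [Finset.mem_Icc] at ha hb
        omega
      · intro a ha
        rw [Finset.mem_Icc] at ha ⊢
        omega
    have h2 : ∑ j ∈ Finset.Icc α β, pf.Z j ≤ pf.SS := by
      refine pv2_shift pf.Z hZ0 _ _ (fun j => j) (fun a _ b _ hab => hab) ?_
      intro a ha
      rw [Finset.mem_Icc] at ha ⊢
      omega
    have h3 : ∑ j ∈ Finset.Icc α β, pf.Z (j + 1) ≤ pf.SS := by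
      refine pv2_shift pf.Z hZ0 _ _ (fun j => j + 1) ?_ ?_
      · intro a ha b hb hab
        omega
      · intro a ha
        rw [Finset.mem_Icc] at ha ⊢
        omega
    linarith
  have hGam : pf.a ^ (n - 2) * Γ ≤ C6 * (3 * pf.SS + Es) := by
    rw [hΓ, Finset.mul_sum]
    have h1 : ∑ j ∈ Finset.Icc α β, pf.a ^ (n - 2) * pf.Gg j ^ 2 ≤
        ∑ j ∈ Finset.Icc α β, C6 * (pf.Zp j + pf.Er j) := by
      refine Finset.sum_le_sum fun j hj => ?_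
      rw [Finset.mem_Icc] at hj
      exact (hc j hj.1 hj.2).2.1
    refine h1.trans ?_
    rw [← Finset.mul_sum, Finset.sum_add_distrib, ← hEs]
    exact mul_le_mul_of_nonneg_left (by linarith) (by linarith)
  have haw : pf.a * w ≤ 3 * Cp * Real.sqrt R.e := by
    have h1 : pf.a * w ≤ Cp * R.e * (R.W + 1) :=
      mul_le_mul pf.a_le hwW (by linarith) (mul_nonneg (by linarith) R.e_pos.le)
    have h2 : Cp * R.e * (R.W + 1) = Cp * (R.e * R.W + R.e) := by ring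
    rw [h2] at h1
    refine h1.trans ?_
    have h3 := mul_le_mul_of_nonneg_left (show R.e * R.W + R.e ≤ 3 * Real.sqrt R.e by linarith)
      (show 0 ≤ Cp by linarith)
    linarith
  have haw0 : 0 ≤ pf.a * w := mul_nonneg ha0 (by linarith)
  have haw2 : (pf.a * w) ^ 2 ≤ 9 * Cp ^ 2 * R.e := by
    have h1 := pow_le_pow_left₀ haw0 haw 2
    rw [mul_pow (3 * Cp), Real.sq_sqrt R.e_pos.le] at h1
    linarith
  have hwa2 : w * pf.a ^ 2 ≤ 3 * Cp ^ 2 := by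
    have h1 : pf.a ≤ Cp := by
      refine pf.a_le.trans ?_
      have := R.e_le
      have := mul_le_mul_of_nonneg_left this (show 0 ≤ Cp by linarith)
      linarith
    have h2 : pf.a * w ≤ 3 * Cp := by
      refine haw.trans ?_
      have := mul_le_mul_of_nonneg_left hnum3 (show 0 ≤ 3 * Cp by linarith)
      linarith
    have h3 : w * pf.a ^ 2 = (pf.a * w) * pf.a := by ring
    rw [h3]
    have h4 := mul_le_mul h2 h1 ha0 (show 0 ≤ 3 * Cp by linarith)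
    linarith
  have hτ2 : τ ^ 2 * pf.a ^ n ≤ pf.Er α := by
    have h1 : τ ^ 2 ≤ R.e ^ (R.Q + 3) := by
      have h2 : τ ^ 2 ≤ τ := by
        calc τ ^ 2 = τ * τ := sq τ
          _ ≤ 1 * τ := mul_le_mul_of_nonneg_right (by linarith) hτ0
          _ = τ := one_mul τ
      have h3 : R.e ^ (R.Q + 4) ≤ R.e ^ (R.Q + 3) :=
        pow_le_pow_of_le_one R.e_pos.le R.e_le (by omega)
      linarith
    have hD : 0 ≤ R.Dj α := integral_nonneg fun x => pow_nonneg (Real.sqrt_nonneg _) _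
    unfold Pf.Er
    have h2 := mul_le_mul_of_nonneg_right h1 han0
    have h3 : 0 ≤ R.e ^ (R.Q + 3) * R.Dj α := mul_nonneg (pow_nonneg R.e_pos.le _) hD
    linarith
  -- the two parts
  have hpart1 : pf.a ^ n * (K0 * w ^ 2 * Γ) ≤
      27 * (K0 * (Cp ^ 2 * C6)) * R.e * pf.SS + 9 * (K0 * (Cp ^ 2 * C6)) * Es := by
    have h1 : pf.a ^ n * (K0 * w ^ 2 * Γ) = K0 * ((pf.a * w) ^ 2 * (pf.a ^ (n - 2) * Γ)) := by
      rw [han]
      ring
    rw [h1]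
    have h2 : (pf.a * w) ^ 2 * (pf.a ^ (n - 2) * Γ) ≤
        9 * Cp ^ 2 * R.e * (C6 * (3 * pf.SS + Es)) :=
      mul_le_mul haw2 hGam (mul_nonneg (pow_nonneg ha0 _) hΓ0)
        (mul_nonneg (by positivity) R.e_pos.le)
    have h3 := mul_le_mul_of_nonneg_left h2 (show 0 ≤ K0 by linarith)
    refine h3.trans ?_
    have h4 : K0 * (9 * Cp ^ 2 * R.e * (C6 * (3 * pf.SS + Es))) =
        27 * (K0 * (Cp ^ 2 * C6)) * R.e * pf.SS + 9 * (K0 * (Cp ^ 2 * C6)) * (R.e * Es) := by ring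
    rw [h4]
    have h5 : R.e * Es ≤ Es := mul_le_of_le_one_left hEs0 R.e_le
    have h6 := mul_le_mul_of_nonneg_left h5 (show 0 ≤ 9 * (K0 * (Cp ^ 2 * C6)) by linarith)
    linarith
  have hpart2 : pf.a ^ n * (K1 * w * (pf.a * τ) ^ 2) ≤ 3 * (K1 * Cp ^ 2) * Es := by
    have h1 : pf.a ^ n * (K1 * w * (pf.a * τ) ^ 2) =
        K1 * ((w * pf.a ^ 2) * (τ ^ 2 * pf.a ^ n)) := by ring
    rw [h1]
    have h2 : (w * pf.a ^ 2) * (τ ^ 2 * pf.a ^ n) ≤ 3 * Cp ^ 2 * Es :=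
      mul_le_mul hwa2 (hτ2.trans hEα) (mul_nonneg (sq_nonneg _) han0) (by positivity)
    have h3 := mul_le_mul_of_nonneg_left h2 hK1p
    linarith
  have h7 : 0 ≤ (9 * (K0 * (Cp ^ 2 * C6)) + 3 * (K1 * Cp ^ 2)) * R.e * pf.SS := by
    refine mul_nonneg (mul_nonneg ?_ R.e_pos.le) hSS0
    have : 0 ≤ K1 * Cp ^ 2 := by positivity
    linarith
  have h8 : 0 ≤ 27 * (K0 * (Cp ^ 2 * C6)) * Es := mul_nonneg (by linarith) hEs0
  rw [mul_add]
  linarith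

end H60NT
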