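import Pool.Agent.H60.NT.VGDef
import Pool.Agent.H28.NP.RL
import Pool.Agent.H28.NP.BSmall

set_option autoImplicit false

namespace H60NT

open H60NH MeasureTheory Metric Set Filter Topology
open scoped ENNReal NNReal ContDiff

theorem exists_thin (n : ℕ) (hn : 1 ≤ n) (κ : ℝ) (h0 : 0 < κ) (h1 : κ ≤ 1 / 4) :
    ∃ μ : E n → ℝ, Thin μ κ := H28NP.thin_ex n hn κ h0 h1

private theorem VG.cv {n m : ℕ} {v : E n → E m} {g : E n → Fin n → E m} (h : VG v g) :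
    H28NP.VG v g := ⟨h.wg, h.out_v, h.out_g, h.int_v, h.meas_g, h.int_g, h.int_gn⟩

/-- (4a) -/
theorem ring_mean (n m : ℕ) (hn : 3 ≤ n) {φ : E n → ℝ} {Θ : Fin n → E n → ℝ} {M : ℝ}
    (hφ : Moll φ Θ M) : ∃ C : ℝ, 1 ≤ C ∧ ∀ (μ : E n → ℝ) (κ : ℝ), κ ≤ 1 / 4 → Thin μ κ →
    ∀ (v : E n → E m) (g : E n → Fin n → E m), VG v g → ∀ (x₀ : E n) (j : ℕ), ‖x₀‖ ≤ 2 → 1 ≤ j →
      (∀ x ∈ rg x₀ j, ‖Mn μ x₀ j v - ubar φ v (j + 5) x‖ ≤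
        C * (p2 j ^ (n - 1) * ∫ y in fr x₀ j, gn (g y))) ∧
      ‖Mn μ x₀ j v - Mn μ x₀ (j + 1) v‖ ≤
        C * (p2 j ^ (n - 1) * ∫ y in fr x₀ j ∪ fr x₀ (j + 1), gn (g y)) := by
  obtain ⟨C₁, h1, H1⟩ := H28NP.ring_mean1 n m hn hφ
  obtain ⟨C₂, h2, H2⟩ := H28NP.ring_mean2 n m hn hφ
  have hp : ∀ j : ℕ, (0 : ℝ) ≤ p2 j ^ (n - 1) := fun j => by unfold p2; positivity
  have hi : ∀ (g : E n → Fin n → E m) (A : Set (E n)), 0 ≤ ∫ y in A, gn (g y) := fun g A =>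
    integral_nonneg (fun y => Real.sqrt_nonneg _)
  refine ⟨max C₁ C₂, le_max_of_le_left h1, fun μ κ hκ hμ v g hv x₀ j hx hj => ⟨?_, ?_⟩⟩
  · intro x hxr
    exact (H1 μ κ hκ hμ v g hv.cv x₀ j hx x hxr).trans
      (mul_le_mul_of_nonneg_right (le_max_left _ _) (mul_nonneg (hp j) (hi g _)))
  · exact (H2 μ κ hκ hμ v g hv.cv x₀ j hx).trans
      (mul_le_mul_of_nonneg_right (le_max_right _ _) (mul_nonneg (hp j) (hi g _)))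

/-- (4b), the L² part -/
theorem ring_L2 (n m : ℕ) (hn : 3 ≤ n) {φ : E n → ℝ} {Θ : Fin n → E n → ℝ} {M : ℝ}
    (hφ : Moll φ Θ M) : ∃ C : ℝ, 1 ≤ C ∧ ∀ (μ : E n → ℝ) (κ : ℝ), κ ≤ 1 / 4 → Thin μ κ →
    ∀ (v : E n → E m) (g : E n → Fin n → E m), VG v g → ∀ (x₀ : E n) (j : ℕ), ‖x₀‖ ≤ 2 → 1 ≤ j →
      IntegrableOn (fun x => ‖v x - Mn μ x₀ j v‖ ^ 2) (rg x₀ j) ∧
      p2 j ^ n * ∫ x in rg x₀ j, ‖v x - Mn μ x₀ j v‖ ^ 2 ≤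
        C * (p2 j ^ (n - 2) * ∫ y in fr x₀ j, gn (g y) ^ 2) := by
  obtain ⟨C, h1, H⟩ := H28NP.ring_L2' n m hn hφ
  exact ⟨C, h1, fun μ κ hκ hμ v g hv x₀ j hx _ => H μ κ hκ hμ v g hv.cv x₀ j hx⟩

/-- (4b), the Lⁿ part; `1/s - 1/n = 1/(n(2n-1))` for `s = n - 1/2`. -/
theorem ring_Ln (n m : ℕ) (hn : 3 ≤ n) {φ : E n → ℝ} {Θ : Fin n → E n → ℝ} {M : ℝ}
    (hφ : Moll φ Θ M) : ∃ C : ℝ, 1 ≤ C ∧ ∀ (μ : E n → ℝ) (κ : ℝ), κ ≤ 1 / 4 → Thin μ κ →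
    ∀ (v : E n → E m) (g : E n → Fin n → E m), VG v g → ∀ (x₀ : E n) (j : ℕ), ‖x₀‖ ≤ 2 → 1 ≤ j →
    ∀ S : Set (E n), MeasurableSet S →
      IntegrableOn (fun x => ‖v x - Mn μ x₀ j v‖ ^ n) (rg x₀ j) ∧
      p2 j ^ n * ∫ x in rg x₀ j, ‖v x - Mn μ x₀ j v‖ ^ n ≤
        C * ((∫ y in fr x₀ j ∩ S, gn (g y) ^ n) +
          (p2 j ^ n * (volume (fr x₀ j \ S)).toReal) ^ (1 / (2 * n - 1 : ℝ)) *
            ∫ y in fr x₀ j, gn (g y) ^ n) := by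
  obtain ⟨C, h1, H⟩ := H28NP.ring_Ln' n m hn hφ
  exact ⟨C, h1, fun μ κ hκ hμ v g hv x₀ j hx _ S hS => H μ κ hκ hμ v g hv.cv x₀ j hx S hS⟩

/-- (4.1), the measure of the bad set -/
theorem b_small (n : ℕ) (hn : 3 ≤ n) (c : ℝ) (hc : 0 < c) (q : ℕ) : ∃ C : ℝ, 1 ≤ C ∧
    ∀ (f : E n → ℝ) (ε : ℝ), Mor f ε → ∀ (x₀ : E n) (j T : ℕ), ‖x₀‖ ≤ 2 → 4 ≤ j → 20 ≤ T →
      MeasurableSet (gs f x₀ T c) ∧
      p2 j ^ n * (volume (fr x₀ j \ gs f x₀ T c)).toReal ≤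
        C * (min ε ((∫ x in br x₀ j, f x ^ n) ^ (1 / (n : ℝ)))) ^ q := by
  obtain ⟨C, h1, H⟩ := H28NP.b_small' n hn c hc q
  exact ⟨C, h1, fun f ε hf x₀ j T _ hj hT => H f ε hf x₀ j T hj hT⟩

end H60NT
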