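import Pool.Agent.H87.NR.FINR

/-!
Interface: the inequality (R0) for all `n ≥ 3` (proofs id 299). To be filled by importing the final
module of Sections 2, 3, 7b, 8.
-/

set_option autoImplicit false

namespace H60NT

open H60NH MeasureTheory Metric Set Filter Topology
open scoped ENNReal NNReal ContDiff

theorem main_ineq_par {n m : ℕ} (P : Par n m) (hB : BPay P (H87NR.L0 P)) :
    ∃ ε₁ c₀ C₁ : ℝ, 0 < ε₁ ∧ 0 < c₀ ∧ 1 ≤ C₁ ∧ ∀ D : Dyn P, D.ε ≤ ε₁ →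
      ∀ S : Set (E n), MeasurableSet S →
      (∀ x ∈ S ∩ ball (0 : E n) 1, Ninf D.f x ≤ ENNReal.ofReal c₀) →
      ∃ e : ℕ → ℝ, Tendsto e atTop (𝓝 0) ∧ ∀ K : ℕ, 1 ≤ K →
        ∫ x in ball (0 : E n) (1 / 2) ∩ S, D.f x ^ n ≤
          C₁ * (∫ x in ball (0 : E n) 1 \ ball (0 : E n) (1 / 2),
            D.f x ^ (n - 1) * min 1 (C₁ * NN D.f K 0 x))
          + C₁ * D.ε ^ n * (∫ x, D.f x ^ n) + e K :=
  H87NR.main_ineq_all P hB

end H60NT
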