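import Pool.Agent.H60.NT.StV

/-!
# [H60 NT STD] The difference of the velocities

`Geo.cmp` with `s₁ = sj j1`, `s₂ = sj j2`, `s₂ - s₁ = (j2 - j1) log 2 ≥ (β-α)/6` and `≤ β - α`, `A = max a a'`,
`A (s₂ - s₁) ≤ Cp √e · ..`: `a (β - α) ≤ Cp √e`, `a' (j2 - j1) ≤ Cp √e`, `β - α ≤ 4 (j2 - j1)`, so `A (β - α) ≤ 4 Cp √e ≤ a₀` for small `e`.
The old geodesic restricted to `Icc (sj j1 - 4) (sj j2 + 4)` (`Icc` is contained in the old one, monotonicity of `sj`), the new one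
satisfies `Γ' (sj j_i) = y_{j_i}` (`hα`, `hβ`). `st_v` for `j1`, `j2` with `X`: `‖V_i‖ ≤ C X`, `‖V_2 - V_1‖ ≤ 2 C X`:
`‖V' s - V s‖ ≤ CG (2 C X/(s₂ - s₁) + A² (s₂ - s₁) 2 C X) ≤ C X/(β - α)` since `A² (s₂-s₁)² ≤ 1`. And `X/(β-α) = Gs/√(β-α) + a(1/2)^T/(β-α)`.
-/

set_option autoImplicit false

namespace H60NT

open H60NH MeasureTheory Metric Set Filter Topology
open scoped ENNReal NNReal ContDiff

private theorem std_mono {m : ℕ} {N : Set (E m)} {π : E m → E m} {Γ V : ℝ → E m} {a : ℝ}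
    {I J : Set ℝ} (h : Geod N π Γ V a I) (hJ : J ⊆ I) : Geod N π Γ V a J :=
  ⟨fun s hs => h.mem s (hJ hs), fun s hs => h.tan s (hJ hs), fun s hs => h.der s (hJ hs),
    fun s hs => h.der2 s (hJ hs), fun s hs => h.speed s (hJ hs)⟩

private theorem std_sj {i j : ℕ} (h : i ≤ j) : sj j - sj i = ((j : ℝ) - i) * Real.log 2 := by
  unfold sj p2
  rw [Real.log_pow, Real.log_pow]
  ring

theorem st_d {n m : ℕ} (P : Par n m) (Cp : ℝ) (hCp : 1 ≤ Cp) : Uni P (fun C _ R =>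
    ∀ (α β j1 j2 : ℕ) (pf : Pf R Cp α β) (pf' : Pf R Cp j1 j2), α + 2 ≤ j1 → j1 + 2 ≤ j2 →
      j2 + 2 ≤ β → (β : ℝ) - α ≤ 4 * ((j2 : ℝ) - j1) →
      ∀ s ∈ Icc (sj j1 - 4) (sj j2 + 4), ‖pf'.V s - pf.V s‖ ≤
        C * (Real.sqrt (∑ i ∈ Finset.Icc α β, pf.Gg i ^ 2) / Real.sqrt ((β : ℝ) - α) +
          pf.a * (1 / 2) ^ R.T)) := by
  obtain ⟨Cv, tv, hCv, htv, Hv⟩ := st_v P Cp hCp
  have hCG : 1 ≤ P.CG := P.hG.one_le
  have ha0 : 0 < P.a₀ := P.hG.a_pos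
  have hGv : 1 ≤ P.CG * Cv := one_le_mul_of_one_le_of_one_le hCG hCv
  refine ⟨32 * (P.CG * Cv), tv, by linarith, htv, ?_⟩
  intro Q C₅ t₀ h5 h0 ht
  obtain ⟨ev', hev, hev1, Kv⟩ := Hv Q C₅ t₀ h5 h0 ht
  obtain ⟨b, hb⟩ : ∃ b : ℝ, b = min P.a₀ 1 / Cp := ⟨_, rfl⟩
  have hb0 : 0 < b := by
    rw [hb]
    have : 0 < min P.a₀ 1 := lt_min ha0 one_pos
    positivity
  refine ⟨min ev' (b ^ 2), lt_min hev (by positivity), (min_le_left _ _).trans hev1, ?_⟩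
  intro D R hR α β j1 j2 pf pf' h1 h2 h3 h4 s hs
  have hR' := hR.mono (min_le_left _ _)
  have hse : Cp * Real.sqrt R.e ≤ min P.a₀ 1 := by
    have k1 : R.e ≤ b ^ 2 := hR.e_le.trans (min_le_right _ _)
    have k2 : Real.sqrt R.e ≤ b := by
      rw [← Real.sqrt_sq hb0.le]
      exact Real.sqrt_le_sqrt k1
    calc Cp * Real.sqrt R.e ≤ Cp * b := mul_le_mul_of_nonneg_left k2 (by linarith)
      _ = min P.a₀ 1 := by
        rw [hb]
        field_simp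
  obtain ⟨A, hA⟩ : ∃ A : ℝ, A = max pf.a pf'.a := ⟨_, rfl⟩
  have haA : pf.a ≤ A := by
    rw [hA]
    exact le_max_left _ _
  have haA' : pf'.a ≤ A := by
    rw [hA]
    exact le_max_right _ _
  have hA0 : 0 ≤ A := pf.a_nonneg.trans haA
  have hj12 : (2 : ℝ) ≤ (j2 : ℝ) - j1 := by
    have : ((j1 + 2 : ℕ) : ℝ) ≤ j2 := by exact_mod_cast h2
    push_cast at this
    linarith
  have hj1α : (α : ℝ) + 2 ≤ j1 := by exact_mod_cast h1
  have hj2β : (j2 : ℝ) + 2 ≤ β := by exact_mod_cast h3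
  have hlen := std_sj (show j1 ≤ j2 by omega)
  have l2a : 1 / 2 ≤ Real.log 2 := by
    have := Real.log_two_gt_d9
    linarith
  have l2b : Real.log 2 ≤ 1 := by
    have := Real.log_two_lt_d9
    linarith
  have hAlen : A * ((j2 : ℝ) - j1) ≤ Cp * Real.sqrt R.e := by
    rw [hA]
    rcases max_choice pf.a pf'.a with h | h
    · rw [h]
      refine le_trans ?_ pf.a_len
      exact mul_le_mul_of_nonneg_left (by linarith) pf.a_nonneg
    · rw [h]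
      exact pf'.a_len
  have hAs : A * (sj j2 - sj j1) ≤ min P.a₀ 1 := by
    refine le_trans ?_ (hAlen.trans hse)
    refine mul_le_mul_of_nonneg_left ?_ hA0
    rw [hlen]
    exact mul_le_of_le_one_right (by linarith) l2b
  have hhalf : ((j2 : ℝ) - j1) * (1 / 2) ≤ ((j2 : ℝ) - j1) * Real.log 2 :=
    mul_le_mul_of_nonneg_left l2a (by linarith)
  have hs12 : sj j1 + 1 ≤ sj j2 := by linarith
  have hlo : ((β : ℝ) - α) / 8 ≤ sj j2 - sj j1 := by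
    rw [hlen]
    linarith
  have hsα : sj α ≤ sj j1 := by
    have := std_sj (show α ≤ j1 by omega)
    have k := mul_nonneg (by linarith : (0 : ℝ) ≤ (j1 : ℝ) - α) (by linarith : 0 ≤ Real.log 2)
    linarith
  have hsβ : sj j2 ≤ sj β := by
    have := std_sj (show j2 ≤ β by omega)
    have k := mul_nonneg (by linarith : (0 : ℝ) ≤ (β : ℝ) - j2) (by linarith : 0 ≤ Real.log 2)
    linarith
  have hcmp := P.hG.cmp pf.Γ pf.V pf'.Γ pf'.V pf.a pf'.a A (sj j1) (sj j2) haA haA' hs12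
    (hAs.trans (min_le_left _ _))
    (std_mono pf.geod (Icc_subset_Icc (by linarith) (by linarith))) pf'.geod s hs
  rw [pf'.hα, pf'.hβ] at hcmp
  have hv1 := Kv D R hR' α β pf (by omega) j1 (by omega) (by omega)
  have hv2 := Kv D R hR' α β pf (by omega) j2 (by omega) (by omega)
  obtain ⟨Gs, hGs⟩ : ∃ Gs : ℝ, Gs = Real.sqrt (∑ i ∈ Finset.Icc α β, pf.Gg i ^ 2) := ⟨_, rfl⟩
  obtain ⟨r, hr⟩ : ∃ r : ℝ, r = Real.sqrt ((β : ℝ) - α) := ⟨_, rfl⟩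
  obtain ⟨t, ht'⟩ : ∃ t : ℝ, t = pf.a * (1 / 2) ^ R.T := ⟨_, rfl⟩
  rw [← hGs, ← hr, ← ht'] at hv1 hv2
  rw [← hGs, ← hr, ← ht']
  have hl : (4 : ℝ) ≤ (β : ℝ) - α := by linarith
  have hr1 : 1 ≤ r := by
    rw [hr]
    exact Real.one_le_sqrt.2 (by linarith)
  have hrsq : (β : ℝ) - α = r ^ 2 := by
    rw [hr, Real.sq_sqrt (by linarith)]
  have hGs0 : 0 ≤ Gs := by
    rw [hGs]
    exact Real.sqrt_nonneg _
  have ht0 : 0 ≤ t := by
    rw [ht']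
    exact mul_nonneg pf.a_nonneg (by positivity)
  obtain ⟨X, hX⟩ : ∃ X : ℝ, X = r * Gs + t := ⟨_, rfl⟩
  have hX0 : 0 ≤ X := by
    rw [hX]
    positivity
  rw [← hX] at hv1 hv2
  obtain ⟨L, hL⟩ : ∃ L : ℝ, L = sj j2 - sj j1 := ⟨_, rfl⟩
  rw [← hL] at hcmp hAs hlo
  have hL1 : 1 ≤ L := by
    rw [hL]
    linarith
  have hL0 : 0 < L := by linarith
  have hAL : A * L ≤ 1 := hAs.trans (min_le_right _ _)
  have hA2 : A ^ 2 * L ≤ 1 / L := by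
    rw [le_div_iff₀ hL0]
    have : A ^ 2 * L * L = (A * L) ^ 2 := by ring
    rw [this]
    exact pow_le_one₀ (by positivity) hAL
  have e1 : ‖R.yj j2 - pf.Γ (sj j2) - (R.yj j1 - pf.Γ (sj j1))‖ ≤ 2 * (Cv * X) :=
    (norm_sub_le _ _).trans (by linarith)
  have e2 : ‖R.yj j2 - pf.Γ (sj j2) - (R.yj j1 - pf.Γ (sj j1))‖ / L ≤ 2 * (Cv * X) * (1 / L) := by
    rw [div_eq_mul_one_div]
    exact mul_le_mul_of_nonneg_right e1 (by positivity)
  have e3 : A ^ 2 * L * (‖R.yj j1 - pf.Γ (sj j1)‖ + ‖R.yj j2 - pf.Γ (sj j2)‖) ≤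
      1 / L * (2 * (Cv * X)) := by
    refine mul_le_mul hA2 (by linarith) (by positivity) (by positivity)
  have e4 : ‖pf'.V s - pf.V s‖ ≤ P.CG * (4 * (Cv * X) * (1 / L)) := by
    refine hcmp.trans (mul_le_mul_of_nonneg_left ?_ (by linarith))
    linarith
  have e5 : 1 / L ≤ 8 / r ^ 2 := by
    rw [div_le_div_iff₀ hL0 (by positivity), ← hrsq]
    linarith
  have e6 : X * (8 / r ^ 2) ≤ 8 * (Gs / r + t) := by
    have k1 : X * (8 / r ^ 2) = 8 * (Gs / r + t / r ^ 2) := by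
      rw [hX]
      field_simp
    rw [k1]
    have k2 : t / r ^ 2 ≤ t := div_le_self ht0 (one_le_pow₀ hr1)
    linarith
  calc ‖pf'.V s - pf.V s‖ ≤ P.CG * (4 * (Cv * X) * (1 / L)) := e4
    _ = 4 * (P.CG * Cv) * (X * (1 / L)) := by ring
    _ ≤ 4 * (P.CG * Cv) * (8 * (Gs / r + t)) := by
        refine mul_le_mul_of_nonneg_left ?_ (by positivity)
        exact (mul_le_mul_of_nonneg_left e5 hX0).trans e6
    _ = 32 * (P.CG * Cv) * (Gs / r + t) := by ring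

end H60NT
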