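import Pool.Agent.H60.NT.PfGn

/-!
# [H60 NT STZ] Comparison of two profiles

`α' - 1 ≤ j ≤ β' + 1`, `x ∈ rg x₀ j`: both profiles are given by their geodesics at the time `s = - log ‖x - x₀‖`, in
`Icc (sj α' - 4) (sj β' + 4)` (`lam_der`), so `gn (Lam' x - Lam x) = ‖V' s - V s‖/r ≤ Del/r`, `r = ‖x-x₀‖`, `1/r ≤ p2 j`. Let
`A = max a a'`, `d = Del/r`, `|g'| ≤ |g| + d`, `f + fl' ≤ |g| + fl + fl' ≤ |g| + 2A/r`:
`z' ≤ 2^n (|g|^(n-2) + (2A/r)^(n-2)) · 2 (|g|² + d²)`; `|g|^(n-2) d² ≤ |g|^n + d^n` and `d^n ≤ (2A/r)^(n-2) d²` (`Del ≤ 2A`);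
`(A/r)^(n-2)|g|²`: if `a' ≤ 2a`: `≤ 2^(n-2) fl^(n-2) |g|² ≤ 2^(n-2) z`; if `a' > 2a`: `Del ≥ ‖V' s‖ - ‖V s‖ = a' - a ≥ A/2` (hypothesis
`hDel` at any `s`), so `≤ (2d)^(n-2)|g|² ≤ 2^n (|g|^n + d^n)`. Integrate over `rg x₀ j ∩ S` (volume `fr_vol`).
-/

set_option autoImplicit false

namespace H60NT

open H60NH MeasureTheory Metric Set Filter Topology
open scoped ENNReal NNReal ContDiff

private theorem stz_gn_eq {n m : ℕ} (a : Fin n → E m) :
    gn a = ‖(WithLp.toLp 2 a : PiLp 2 (fun _ : Fin n => E m))‖ := by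
  rw [PiLp.norm_eq_of_L2]
  rfl

private theorem stz_add {n m : ℕ} (a b : Fin n → E m) : gn (fun i => a i + b i) ≤ gn a + gn b := by
  rw [stz_gn_eq, stz_gn_eq, stz_gn_eq]
  exact norm_add_le (WithLp.toLp 2 a : PiLp 2 (fun _ : Fin n => E m)) (WithLp.toLp 2 b)

private theorem stz_gn {n m : ℕ} (y : E n) (hy : y ≠ 0) (w : E m) :
    gn (fun i => (-(inner ℝ y (ev i) / ‖y‖ ^ 2)) • w) = ‖w‖ / ‖y‖ := by
  have hy0 : 0 < ‖y‖ := norm_pos_iff.2 hy
  have h1 : ∑ i, ‖(-(inner ℝ y (ev i) / ‖y‖ ^ 2)) • w‖ ^ 2 = (‖w‖ / ‖y‖) ^ 2 := by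
    have h2 : ∀ i : Fin n, ‖(-(inner ℝ y (ev i) / ‖y‖ ^ 2)) • w‖ ^ 2 =
        ‖y i‖ ^ 2 * (‖w‖ ^ 2 / (‖y‖ ^ 2) ^ 2) := by
      intro i
      have h3 : inner ℝ y (ev i) = y i := by
        unfold ev
        rw [EuclideanSpace.inner_single_right]
        simp
      rw [norm_smul, norm_neg, norm_div, h3, mul_pow, div_pow, Real.norm_of_nonneg (sq_nonneg ‖y‖)]
      ring
    rw [Finset.sum_congr rfl (fun i _ => h2 i), ← Finset.sum_mul, ← EuclideanSpace.norm_sq_eq]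
    field_simp
  unfold gn
  rw [h1, Real.sqrt_sq (by positivity)]

/-- the pointwise inequality -/
private theorem stz_pt (n : ℕ) (hn : 3 ≤ n) (g g' f fl fl' d M z : ℝ) (hg : 0 ≤ g) (hg' : 0 ≤ g')
    (hf : 0 ≤ f) (hfl : 0 ≤ fl) (hfl' : 0 ≤ fl') (hd : 0 ≤ d) (hM : 0 ≤ M)
    (h1 : g' ≤ g + d) (h2 : f ≤ g + fl) (h3 : fl ≤ M) (h3' : fl' ≤ M) (h4 : d ≤ 2 * M)
    (h5 : M ≤ 2 * fl ∨ M ≤ 2 * d) (hz1 : g ^ n ≤ z) (hz2 : fl ^ (n - 2) * g ^ 2 ≤ z) :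
    (f + fl') ^ (n - 2) * g' ^ 2 ≤
      2 ^ (n + 1) * (2 + 4 ^ (n - 2)) * (z + (2 * M) ^ (n - 2) * d ^ 2) := by
  obtain ⟨-, -, -, -, y5, -⟩ := young1 n (by omega) g (2 * M) hg (by positivity)
  obtain ⟨-, y2, -, -, -, -⟩ := young1 n (by omega) g d hg hd
  obtain ⟨-, y2', -, -, -, -⟩ := young1 n (by omega) d g hd hg
  have hpow : ∀ y : ℝ, y ^ n = y ^ (n - 2) * y ^ 2 := by
    intro y
    rw [← pow_add]
    congr 1
    omega
  have hdn : d ^ n ≤ (2 * M) ^ (n - 2) * d ^ 2 := by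
    rw [hpow d]
    exact mul_le_mul_of_nonneg_right (pow_le_pow_left₀ hd h4 _) (sq_nonneg _)
  obtain ⟨X, hX⟩ : ∃ X : ℝ, X = (2 * M) ^ (n - 2) * d ^ 2 := ⟨_, rfl⟩
  have hX0 : 0 ≤ X := by
    rw [hX]
    positivity
  have hz0 : 0 ≤ z := le_trans (pow_nonneg hg n) hz1
  have h44 : (0 : ℝ) ≤ 4 ^ (n - 2) := by positivity
  have hM2 : (2 * M) ^ (n - 2) * g ^ 2 ≤ 4 ^ (n - 2) * (z + X) := by
    rcases h5 with h5 | h5
    · have h6 : (2 * M) ^ (n - 2) ≤ (4 * fl) ^ (n - 2) :=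
        pow_le_pow_left₀ (by positivity) (by linarith) _
      calc (2 * M) ^ (n - 2) * g ^ 2 ≤ (4 * fl) ^ (n - 2) * g ^ 2 :=
            mul_le_mul_of_nonneg_right h6 (sq_nonneg _)
        _ = 4 ^ (n - 2) * (fl ^ (n - 2) * g ^ 2) := by rw [mul_pow]; ring
        _ ≤ 4 ^ (n - 2) * (z + X) := mul_le_mul_of_nonneg_left (by linarith) h44
    · have h6 : (2 * M) ^ (n - 2) ≤ (4 * d) ^ (n - 2) :=
        pow_le_pow_left₀ (by positivity) (by linarith) _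
      calc (2 * M) ^ (n - 2) * g ^ 2 ≤ (4 * d) ^ (n - 2) * g ^ 2 :=
            mul_le_mul_of_nonneg_right h6 (sq_nonneg _)
        _ = 4 ^ (n - 2) * (d ^ (n - 2) * g ^ 2) := by rw [mul_pow]; ring
        _ ≤ 4 ^ (n - 2) * (z + X) := mul_le_mul_of_nonneg_left (by
            rw [hX]
            linarith) h44
  have h7 : (f + fl') ^ (n - 2) ≤ 2 ^ n * (g ^ (n - 2) + (2 * M) ^ (n - 2)) :=
    (pow_le_pow_left₀ (by positivity) (by linarith) _).trans y5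
  have h8 : g' ^ 2 ≤ 2 * (g ^ 2 + d ^ 2) := by
    have h9 : g' ^ 2 ≤ (g + d) ^ 2 := pow_le_pow_left₀ hg' h1 2
    nlinarith [sq_nonneg (g - d)]
  have h10 : (f + fl') ^ (n - 2) * g' ^ 2 ≤
      (2 ^ n * (g ^ (n - 2) + (2 * M) ^ (n - 2))) * (2 * (g ^ 2 + d ^ 2)) :=
    mul_le_mul h7 h8 (sq_nonneg _) (by positivity)
  have h11 : (2 ^ n * (g ^ (n - 2) + (2 * M) ^ (n - 2))) * (2 * (g ^ 2 + d ^ 2)) =
      2 ^ (n + 1) * (g ^ n + g ^ (n - 2) * d ^ 2 + (2 * M) ^ (n - 2) * g ^ 2 +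
        (2 * M) ^ (n - 2) * d ^ 2) := by
    rw [hpow g, pow_succ]
    ring
  rw [h11] at h10
  refine h10.trans ?_
  rw [← hX] at hdn ⊢
  rw [mul_assoc]
  refine mul_le_mul_of_nonneg_left ?_ (by positivity)
  nlinarith

private theorem stz_time {n m : ℕ} {P : Par n m} {D : Dyn P} {R : RC D} {Cp : ℝ} {α β : ℕ}
    (pf : Pf R Cp α β) (x : E n) (h1 : 1 / (4 * p2 β) ≤ ‖x - R.x₀‖)
    (h2 : ‖x - R.x₀‖ ≤ 8 / p2 α) :
    -Real.log ‖x - R.x₀‖ ∈ Icc (sj α - 4) (sj β + 4) := by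
  have hpα : 0 < p2 α := (p2_succ α).2.1
  have hpβ : 0 < p2 β := (p2_succ β).2.1
  have hr : 0 < ‖x - R.x₀‖ := lt_of_lt_of_le (by positivity) h1
  have l32 : Real.log (3 / 2) ≤ 1 / 2 := by
    have := Real.log_le_sub_one_of_pos (by norm_num : (0 : ℝ) < 3 / 2)
    linarith
  have l320 : 0 ≤ Real.log (3 / 2) := Real.log_nonneg (by norm_num)
  have l4 : Real.log 4 ≤ 3 := by
    have := Real.log_le_sub_one_of_pos (by norm_num : (0 : ℝ) < 4)
    linarith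
  have l2 : Real.log 2 ≤ 1 := by
    have := Real.log_le_sub_one_of_pos (by norm_num : (0 : ℝ) < 2)
    linarith
  have l8 : Real.log 8 ≤ 3 := by
    have : (8 : ℝ) = 2 ^ 3 := by norm_num
    rw [this, Real.log_pow]
    push_cast
    linarith
  unfold sj
  constructor
  · have h3 : Real.log ‖x - R.x₀‖ ≤ Real.log (8 / p2 α) := Real.log_le_log hr h2
    rw [Real.log_div (by norm_num) hpα.ne'] at h3
    linarith
  · have h3 : Real.log (1 / (4 * p2 β)) ≤ Real.log ‖x - R.x₀‖ := Real.log_le_log (by positivity) h1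
    rw [one_div, Real.log_inv, Real.log_mul (by norm_num) hpβ.ne'] at h3
    linarith

private theorem stz_mono {i j : ℕ} (h : i ≤ j) : p2 i ≤ p2 j := by
  unfold p2; exact pow_le_pow_right₀ (by norm_num) h

private theorem stz_annulus {n : ℕ} {x₀ x : E n} {α β j : ℕ} (hα : α - 1 ≤ j) (hβ : j ≤ β + 1)
    (hx : x ∈ rg x₀ j) : 1 / (4 * p2 β) ≤ ‖x - x₀‖ ∧ ‖x - x₀‖ ≤ 8 / p2 α := by
  obtain ⟨h1, h2⟩ := hx
  have p1 : 0 < p2 α := (p2_succ α).2.1
  have p3 : 0 < p2 j := (p2_succ j).2.1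
  have p4 : 0 < p2 β := (p2_succ β).2.1
  have p5 : p2 α ≤ p2 (j + 1) := stz_mono (by omega)
  have p6 : p2 j ≤ p2 (β + 1) := stz_mono (by omega)
  rw [(p2_succ j).1] at p5
  rw [(p2_succ β).1] at p6
  constructor
  · refine le_trans ?_ h1
    apply one_div_le_one_div_of_le p3
    linarith
  · refine h2.trans ?_
    rw [div_le_div_iff₀ p3 p1]
    linarith

theorem st_z {n m : ℕ} (P : Par n m) (Cp : ℝ) (hCp : 1 ≤ Cp) : ∃ C : ℝ, 1 ≤ C ∧
    ∀ (D : Dyn P) (R : RC D) (α β α' β' : ℕ) (pf : Pf R Cp α β) (pf' : Pf R Cp α' β')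
      (Del : ℝ), MeasurableSet R.S → α + 2 ≤ β → α' + 2 ≤ β' → α ≤ α' → β' ≤ β → 0 ≤ Del →
      Del ≤ 2 * max pf.a pf'.a →
      (∀ s ∈ Icc (sj α' - 4) (sj β' + 4), ‖pf'.V s - pf.V s‖ ≤ Del) →
      ∀ j, α' - 1 ≤ j → j ≤ β' + 1 →
        pf'.Z j ≤ C * (pf.Z j + (max pf.a pf'.a) ^ (n - 2) * Del ^ 2) := by
  have hn := P.hn
  obtain ⟨C1, hC1, Hg⟩ := pf_gn P Cp hCp
  obtain ⟨C2, hC2, hvol⟩ := fr_vol n (by omega)
  obtain ⟨K, hK⟩ : ∃ K : ℝ, K = 2 ^ (n + 1) * (2 + 4 ^ (n - 2)) := ⟨_, rfl⟩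
  have hK1 : 1 ≤ K := by
    have h1 : (1 : ℝ) ≤ 2 ^ (n + 1) := one_le_pow₀ (by norm_num)
    have h2 : (1 : ℝ) ≤ 4 ^ (n - 2) := one_le_pow₀ (by norm_num)
    rw [hK]
    nlinarith
  have h2n : (1 : ℝ) ≤ 2 ^ (n - 2) := one_le_pow₀ (by norm_num)
  have hKK : K ≤ K * (2 ^ (n - 2) * C2) := by
    have h3 : (1 : ℝ) ≤ 2 ^ (n - 2) * C2 := by nlinarith
    nlinarith
  refine ⟨K * (2 ^ (n - 2) * C2), hK1.trans hKK, ?_⟩
  intro D R α β α' β' pf pf' Del hS hαβ hαβ' hαα hββ hDel0 hDelA hDel j hj1 hj2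
  obtain ⟨A, hA⟩ : ∃ A : ℝ, A = max pf.a pf'.a := ⟨_, rfl⟩
  rw [← hA] at hDelA ⊢
  have haA : pf.a ≤ A := by
    rw [hA]
    exact le_max_left _ _
  have haA' : pf'.a ≤ A := by
    rw [hA]
    exact le_max_right _ _
  have hA0 : 0 ≤ A := pf.a_nonneg.trans haA
  have hp : 0 < p2 j := (p2_succ j).2.1
  have hp1 : 1 ≤ p2 j := (p2_succ j).2.2
  have hj0 : 1 ≤ α' := by
    have h1 := pf'.ge
    have h2 : R.W ≠ 0 := by
      intro h3
      have h4 := R.W1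
      rw [h3] at h4
      norm_num at h4
    omega
  have hrgm : MeasurableSet (rg R.x₀ j) := (rg_meas R.x₀ j).1
  have hAm : MeasurableSet (rg R.x₀ j ∩ R.S) := hrgm.inter hS
  -- the pointwise inequality
  have hpt : ∀ x ∈ rg R.x₀ j, pf'.z x ≤
      K * (pf.z x + 2 ^ (n - 2) * (A ^ (n - 2) * Del ^ 2) * p2 j ^ n) := by
    intro x hx
    obtain ⟨b1, b2⟩ := stz_annulus (α := α') (β := β') hj1 hj2 hx
    have c1 : 1 / (4 * p2 β) ≤ ‖x - R.x₀‖ := by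
      refine le_trans ?_ b1
      have := stz_mono hββ
      have h1 : 0 < p2 β' := (p2_succ β').2.1
      apply one_div_le_one_div_of_le (by positivity)
      linarith
    have c2 : ‖x - R.x₀‖ ≤ 8 / p2 α := by
      refine b2.trans ?_
      have := stz_mono hαα
      have h1 : 0 < p2 α := (p2_succ α).2.1
      exact div_le_div_of_nonneg_left (by norm_num) h1 this
    have hr : 0 < ‖x - R.x₀‖ := by
      have h1 : 0 < p2 β' := (p2_succ β').2.1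
      exact lt_of_lt_of_le (by positivity) b1
    have hx64 : ‖x‖ < 64 := by
      obtain ⟨-, h2⟩ := hx
      have h3 : 2 / p2 j ≤ 2 := by
        rw [div_le_iff₀ (by linarith)]
        linarith
      have h4 : ‖x‖ ≤ ‖x - R.x₀‖ + ‖R.x₀‖ := by
        have := norm_add_le (x - R.x₀) R.x₀
        rwa [sub_add_cancel] at this
      have := R.hx
      linarith
    obtain ⟨s, hs⟩ : ∃ s : ℝ, s = -Real.log ‖x - R.x₀‖ := ⟨_, rfl⟩
    have hst := stz_time pf' x b1 b2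
    have hst0 := stz_time pf x c1 c2
    rw [← hs] at hst hst0
    obtain ⟨-, hg1, -, hf1, hz1, hz2, -⟩ := pf_in pf x hx64
    obtain ⟨-, hg2, -, -, -, -, -⟩ := pf_in pf' x hx64
    have hfl := (pf_lam pf x c1 c2).1
    have hfl' := (pf_lam pf' x b1 b2).1
    have hgg : gn (pf'.g x) ≤ gn (pf.g x) + Del / ‖x - R.x₀‖ := by
      have h1 : pf'.g x = fun i => pf.g x i +
          (-(inner ℝ (x - R.x₀) (ev i) / ‖x - R.x₀‖ ^ 2)) • (pf.V s - pf'.V s) := by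
        funext i
        rw [hg2 i, hg1 i]
        have h3 : pf.Lam x i = (-(inner ℝ (x - R.x₀) (ev i) / ‖x - R.x₀‖ ^ 2)) • pf.V s := by
          unfold Pf.Lam
          rw [pf.lam_der x c1 c2, hs]
        have h4 : pf'.Lam x i = (-(inner ℝ (x - R.x₀) (ev i) / ‖x - R.x₀‖ ^ 2)) • pf'.V s := by
          unfold Pf.Lam
          rw [pf'.lam_der x b1 b2, hs]
        rw [h3, h4, smul_sub]
        abel
      rw [h1]
      refine (stz_add _ _).trans (add_le_add_right ?_ _)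
      rw [stz_gn _ (norm_pos_iff.1 hr)]
      rw [norm_sub_rev]
      exact div_le_div_of_nonneg_right (hDel s hst) hr.le
    have hcase : A / ‖x - R.x₀‖ ≤ 2 * pf.fl x ∨ A / ‖x - R.x₀‖ ≤ 2 * (Del / ‖x - R.x₀‖) := by
      rw [hfl]
      rcases le_or_gt pf'.a (2 * pf.a) with h1 | h1
      · left
        rw [← mul_div_assoc]
        refine div_le_div_of_nonneg_right ?_ hr.le
        rw [hA]
        exact max_le (by linarith [pf.a_nonneg]) h1
      · right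
        rw [← mul_div_assoc]
        refine div_le_div_of_nonneg_right ?_ hr.le
        have h2 := hDel s hst
        have h3 := norm_sub_norm_le (pf'.V s) (pf.V s)
        rw [pf'.geod.speed s hst, pf.geod.speed s hst0] at h3
        have h4 : A = pf'.a := by
          rw [hA]
          exact max_eq_right (by linarith [pf.a_nonneg])
        rw [h4]
        linarith [pf.a_nonneg]
    have hmain := stz_pt n hn (gn (pf.g x)) (gn (pf'.g x)) (D.f x) (pf.fl x) (pf'.fl x)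
      (Del / ‖x - R.x₀‖) (A / ‖x - R.x₀‖) (pf.z x) (Real.sqrt_nonneg _) (Real.sqrt_nonneg _)
      (Real.sqrt_nonneg _) (Real.sqrt_nonneg _) (Real.sqrt_nonneg _) (by positivity)
      (by positivity) hgg hf1
      (by rw [hfl]; exact div_le_div_of_nonneg_right haA hr.le)
      (by rw [hfl']; exact div_le_div_of_nonneg_right haA' hr.le)
      (by rw [← mul_div_assoc]; exact div_le_div_of_nonneg_right hDelA hr.le)
      hcase hz1 hz2
    rw [← hK] at hmain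
    have h6 : (2 * (A / ‖x - R.x₀‖)) ^ (n - 2) * (Del / ‖x - R.x₀‖) ^ 2 ≤
        2 ^ (n - 2) * (A ^ (n - 2) * Del ^ 2) * p2 j ^ n := by
      have h7 : (2 * (A / ‖x - R.x₀‖)) ^ (n - 2) * (Del / ‖x - R.x₀‖) ^ 2 =
          2 ^ (n - 2) * (A ^ (n - 2) * Del ^ 2) * (1 / ‖x - R.x₀‖) ^ n := by
        have h8 : (1 / ‖x - R.x₀‖) ^ n = (1 / ‖x - R.x₀‖) ^ (n - 2) * (1 / ‖x - R.x₀‖) ^ 2 := by
          rw [← pow_add]
          congr 1
          omega
        rw [h8, mul_pow, div_eq_mul_one_div A, div_eq_mul_one_div Del, mul_pow, mul_pow]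
        ring
      rw [h7]
      refine mul_le_mul_of_nonneg_left ?_ (by positivity)
      refine pow_le_pow_left₀ (by positivity) ?_ n
      rw [div_le_iff₀ hr]
      have h9 := hx.1
      rw [div_le_iff₀ hp] at h9
      linarith
    refine le_trans (show pf'.z x ≤ _ from hmain) ?_
    exact mul_le_mul_of_nonneg_left (by linarith) (by linarith)
  -- integration
  obtain ⟨hG1, -, -⟩ := Hg D R α β pf hαβ hS
  obtain ⟨-, -, hzint, -⟩ := hG1 j (by omega) (by omega)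
  have hj1' : 1 ≤ j ∨ j = 0 := by omega
  have hsub : rg R.x₀ j ⊆ fr R.x₀ j := by
    intro x hx
    obtain ⟨h1, h2⟩ := hx
    constructor
    · refine le_trans ?_ h1
      apply one_div_le_one_div_of_le hp
      linarith
    · refine h2.trans ?_
      exact div_le_div_of_nonneg_right (by norm_num) hp.le
  have hzi : IntegrableOn pf.z (rg R.x₀ j ∩ R.S) := hzint.mono_set (inter_subset_left.trans hsub)
  obtain ⟨-, hfin, hv1, -⟩ := hvol R.x₀ j
  have hrfin : volume (rg R.x₀ j) < ⊤ := (measure_mono hsub).trans_lt hfin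
  have hAfin : volume (rg R.x₀ j ∩ R.S) < ⊤ := (measure_mono inter_subset_left).trans_lt hrfin
  obtain ⟨c, hc⟩ : ∃ c : ℝ, c = 2 ^ (n - 2) * (A ^ (n - 2) * Del ^ 2) * p2 j ^ n := ⟨_, rfl⟩
  have hci : IntegrableOn (fun _ : E n => c) (rg R.x₀ j ∩ R.S) := integrableOn_const hAfin.ne
  have hz0' : ∀ x, 0 ≤ pf'.z x := (pf_vg pf').2.2.2.2.2.2.2.1
  have h1 : pf'.Z j ≤ ∫ x in rg R.x₀ j ∩ R.S, K * (pf.z x + c) := by
    unfold Pf.Z
    refine integral_mono_of_nonneg (Filter.Eventually.of_forall hz0') ?_ ?_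
    · exact (hzi.add hci).const_mul K
    · rw [Filter.EventuallyLE, ae_restrict_iff' hAm]
      refine Filter.Eventually.of_forall fun x hx => ?_
      rw [hc]
      exact hpt x hx.1
  have h2 : ∫ x in rg R.x₀ j ∩ R.S, K * (pf.z x + c) =
      K * (pf.Z j + (volume (rg R.x₀ j ∩ R.S)).toReal * c) := by
    rw [integral_const_mul, integral_add hzi hci, setIntegral_const, smul_eq_mul, measureReal_def]
    rfl
  rw [h2] at h1
  have h3 : (volume (rg R.x₀ j ∩ R.S)).toReal * c ≤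
      2 ^ (n - 2) * C2 * (A ^ (n - 2) * Del ^ 2) := by
    have h4 : (volume (rg R.x₀ j ∩ R.S)).toReal ≤ (volume (rg R.x₀ j)).toReal :=
      ENNReal.toReal_mono hrfin.ne (measure_mono inter_subset_left)
    have h5 : p2 j ^ n * (volume (rg R.x₀ j ∩ R.S)).toReal ≤ C2 :=
      (mul_le_mul_of_nonneg_left h4 (by positivity)).trans hv1
    rw [hc]
    calc (volume (rg R.x₀ j ∩ R.S)).toReal * (2 ^ (n - 2) * (A ^ (n - 2) * Del ^ 2) * p2 j ^ n)
        = 2 ^ (n - 2) * (A ^ (n - 2) * Del ^ 2) *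
          (p2 j ^ n * (volume (rg R.x₀ j ∩ R.S)).toReal) := by ring
      _ ≤ 2 ^ (n - 2) * (A ^ (n - 2) * Del ^ 2) * C2 :=
          mul_le_mul_of_nonneg_left h5 (by positivity)
      _ = 2 ^ (n - 2) * C2 * (A ^ (n - 2) * Del ^ 2) := by ring
  have hZ0 : 0 ≤ pf.Z j := by
    unfold Pf.Z
    exact integral_nonneg fun x => (pf_vg pf).2.2.2.2.2.2.2.1 x
  have h22 : (1 : ℝ) ≤ 2 ^ (n - 2) * C2 := by nlinarith
  calc pf'.Z j ≤ K * (pf.Z j + (volume (rg R.x₀ j ∩ R.S)).toReal * c) := h1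
    _ ≤ K * (2 ^ (n - 2) * C2 * pf.Z j + 2 ^ (n - 2) * C2 * (A ^ (n - 2) * Del ^ 2)) := by
        refine mul_le_mul_of_nonneg_left (add_le_add ?_ h3) (by linarith)
        nlinarith
    _ = K * (2 ^ (n - 2) * C2) * (pf.Z j + A ^ (n - 2) * Del ^ 2) := by ring

end H60NT
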