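import Pool.Agent.H60.NT.StD
import Pool.Agent.H60.NT.StZ
import Pool.Agent.H60.NT.PfC

/-!
# [H60 NT STN] The new profile at its end rings

`l = β - α`, `Gs² = ∑_{α ≤ i ≤ β} Gg i²`, `Del := min (2A) (C (Gs/√l + a (1/2)^T))` with the constant of `st_d` (`‖V' s - V s‖ ≤ a + a' ≤ 2A`),
`A = max a a'`. Claim `A^(n-2) Del² ≤ C (SS/l + ∑ E_i)`: case `a' ≤ 2a`: `A ≤ 2a`, `a^(n-2) Gs²/l ≤ C (1/l) ∑ (Z_i^+ + E_i) ≤ C (3 SS/l + ∑ E_i)`
(`pf_c`), `a^n (1/2)^(2T) ≤ a^n e^(Q+4) ≤ E_α`. Case `a' > 2a`: `Del ≥ a'/2` (evaluate at any `s`: `‖V' s‖ - ‖V s‖ = a' - a ≥ a'/2`, also `2A ≥ a'/2`), so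
`A^(n-2) Del² ≤ 2^(n-2) Del^n ≤ C ((Gs²/l)^(n/2) + (a (1/2)^T)^n)`, power mean `(Gs²/(l+1))^(n/2) ≤ (1/(l+1)) ∑ Gg_i^n`
and `pf_c` (second part). Then `st_z` for the three rings.
-/

set_option autoImplicit false

namespace H60NT

open H60NH MeasureTheory Metric Set Filter Topology
open scoped ENNReal NNReal ContDiff

private theorem stn_Er {n m : ℕ} {P : Par n m} {D : Dyn P} {R : RC D} {Cp : ℝ} {α β : ℕ}
    (pf : Pf R Cp α β) (i : ℕ) (hD : 0 ≤ R.Dj i) (t : ℝ) (ht0 : 0 ≤ t) (ht : t ≤ (1 / 2) ^ R.T) :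
    pf.a ^ n * t ≤ pf.Er i := by
  have h1 : (1 / 2 : ℝ) ^ R.T ≤ R.e ^ (R.Q + 3) := by
    refine R.T1.trans ?_
    exact pow_le_pow_of_le_one R.e_pos.le R.e_le (by omega)
  have h2 : 0 ≤ pf.a ^ n := pow_nonneg pf.a_nonneg n
  have h3 : 0 ≤ R.e ^ (R.Q + 3) := pow_nonneg R.e_pos.le _
  unfold Pf.Er
  calc pf.a ^ n * t ≤ pf.a ^ n * R.e ^ (R.Q + 3) := mul_le_mul_of_nonneg_left (ht.trans h1) h2
    _ ≤ R.e ^ (R.Q + 3) * (R.Dj i + pf.a ^ n) := by nlinarith [mul_nonneg h3 hD]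

/-- the power mean inequality -/
private theorem stn_pm (n : ℕ) (hn : 2 ≤ n) (s : Finset ℕ) (G : ℕ → ℝ) (hG : ∀ i ∈ s, 0 ≤ G i)
    (hs : s.Nonempty) :
    (Real.sqrt (∑ i ∈ s, G i ^ 2) / Real.sqrt s.card) ^ n ≤ (∑ i ∈ s, G i ^ n) / s.card := by
  have hc : (0 : ℝ) < s.card := by exact_mod_cast Finset.card_pos.2 hs
  have hS0 : 0 ≤ ∑ i ∈ s, G i ^ 2 := Finset.sum_nonneg fun i _ => sq_nonneg _
  have hp : (1 : ℝ) ≤ (n : ℝ) / 2 := by
    have : (2 : ℝ) ≤ n := by exact_mod_cast hn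
    linarith
  have h1 := Real.rpow_arith_mean_le_arith_mean_rpow s (fun _ => 1 / (s.card : ℝ))
    (fun i => G i ^ 2) (fun i _ => by positivity) (by
      rw [Finset.sum_const, nsmul_eq_mul]
      field_simp) (fun i _ => sq_nonneg _) hp
  rw [← Finset.mul_sum, ← Finset.mul_sum] at h1
  have h2 : (Real.sqrt (∑ i ∈ s, G i ^ 2) / Real.sqrt s.card) ^ n =
      (1 / (s.card : ℝ) * ∑ i ∈ s, G i ^ 2) ^ ((n : ℝ) / 2) := by
    rw [← Real.sqrt_div hS0, Real.sqrt_eq_rpow, ← Real.rpow_natCast, ← Real.rpow_mul (by positivity)]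
    congr 1
    · ring
    · ring
  have h3 : ∀ i ∈ s, (G i ^ 2) ^ ((n : ℝ) / 2) = G i ^ n := by
    intro i hi
    rw [← Real.rpow_natCast (G i) 2, ← Real.rpow_mul (hG i hi), ← Real.rpow_natCast (G i) n]
    congr 1
    push_cast
    ring
  rw [Finset.sum_congr rfl h3] at h1
  rw [h2]
  refine h1.trans (le_of_eq ?_)
  ring

private theorem stn_Zsum {n m : ℕ} {P : Par n m} {D : Dyn P} {R : RC D} {Cp : ℝ} {α β : ℕ}
    (pf : Pf R Cp α β) (h1 : 1 ≤ α) (hab : α ≤ β) :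
    ∑ i ∈ Finset.Icc α β, pf.Zp i ≤ 3 * pf.SS := by
  have hZ : ∀ i, 0 ≤ pf.Z i := by
    intro i
    unfold Pf.Z
    exact integral_nonneg fun x => (pf_vg pf).2.2.2.2.2.2.2.1 x
  have e1 : ∑ i ∈ Finset.Icc α β, pf.Z i ≤ pf.SS := by
    unfold Pf.SS
    exact Finset.sum_le_sum_of_subset_of_nonneg (Finset.Icc_subset_Icc (by omega) (by omega))
      (fun i _ _ => hZ i)
  have e2 : ∑ i ∈ Finset.Icc α β, pf.Z (i + 1) ≤ pf.SS := by
    unfold Pf.SS
    rw [← Finset.sum_image (s := Finset.Icc α β) (g := fun i => i + 1) (f := pf.Z)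
      (fun a _ b _ h => by simpa using h)]
    refine Finset.sum_le_sum_of_subset_of_nonneg ?_ (fun i _ _ => hZ i)
    intro i hi
    obtain ⟨k, hk, rfl⟩ := Finset.mem_image.1 hi
    obtain ⟨k1, k2⟩ := Finset.mem_Icc.1 hk
    exact Finset.mem_Icc.2 ⟨by omega, by omega⟩
  have e3 : ∑ i ∈ Finset.Icc α β, pf.Z (i - 1) ≤ pf.SS := by
    unfold Pf.SS
    rw [← Finset.sum_image (s := Finset.Icc α β) (g := fun i => i - 1) (f := pf.Z)
      (fun a ha b hb h => by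
        have a1 := (Finset.mem_Icc.1 ha).1
        have b1 := (Finset.mem_Icc.1 hb).1
        have h' : a - 1 = b - 1 := h
        omega)]
    refine Finset.sum_le_sum_of_subset_of_nonneg ?_ (fun i _ _ => hZ i)
    intro i hi
    obtain ⟨k, hk, rfl⟩ := Finset.mem_image.1 hi
    obtain ⟨k1, k2⟩ := Finset.mem_Icc.1 hk
    exact Finset.mem_Icc.2 ⟨by omega, by omega⟩
  unfold Pf.Zp
  rw [Finset.sum_add_distrib, Finset.sum_add_distrib]
  linarith

private theorem stn_mono {i j : ℕ} (h : i ≤ j) : sj i ≤ sj j := by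
  have h1 : p2 i ≤ p2 j := pow_le_pow_right₀ (by norm_num) h
  have h2 : Real.log (p2 i) ≤ Real.log (p2 j) := Real.log_le_log (by unfold p2; positivity) h1
  unfold sj
  linarith

theorem st_n {n m : ℕ} (P : Par n m) (Cp : ℝ) (hCp : 1 ≤ Cp) : Uni P (fun C _ R =>
    ∀ (α β j1 j2 : ℕ) (pf : Pf R Cp α β) (pf' : Pf R Cp j1 j2), α + 2 ≤ j1 → j1 + 2 ≤ j2 →
      j2 + 2 ≤ β → (β : ℝ) - α ≤ 4 * ((j2 : ℝ) - j1) →
      ∀ j, j = j1 ∨ j = j2 → pf'.Zp j ≤ C * (pf.Zp j + pf.SS / ((β : ℝ) - α) +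
        ∑ i ∈ Finset.Icc α β, pf.Er i)) := by
  have hn := P.hn
  obtain ⟨Cz, hCz, Hz⟩ := st_z P Cp hCp
  obtain ⟨Cd, td, hCd, htd, Hd⟩ := st_d P Cp hCp
  obtain ⟨Cc, tc, hCc, htc, Hc⟩ := pf_c P Cp hCp
  obtain ⟨_, tb, _, htb, Hb⟩ := b_pow P
  obtain ⟨Cg, hCg, Hg⟩ := pf_gn P Cp hCp
  obtain ⟨K, hK⟩ : ∃ K : ℝ, K = 2 ^ (n - 2) * (Cd ^ n + Cd ^ 2) * 2 ^ n * (4 ^ n * (4 * Cc + 1)) :=
    ⟨_, rfl⟩
  have hK0 : 1 ≤ K := by
    have h1 : (1 : ℝ) ≤ 2 ^ (n - 2) := one_le_pow₀ (by norm_num)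
    have h2 : (1 : ℝ) ≤ 2 ^ n := one_le_pow₀ (by norm_num)
    have h3 : (1 : ℝ) ≤ 4 ^ n := one_le_pow₀ (by norm_num)
    have h4 : (1 : ℝ) ≤ Cd ^ n := one_le_pow₀ hCd
    have h5 : (0 : ℝ) ≤ Cd ^ 2 := sq_nonneg _
    rw [hK]
    have h6 : (1 : ℝ) ≤ 2 ^ (n - 2) * (Cd ^ n + Cd ^ 2) :=
      one_le_mul_of_one_le_of_one_le h1 (by linarith)
    have h7 : (1 : ℝ) ≤ 2 ^ (n - 2) * (Cd ^ n + Cd ^ 2) * 2 ^ n :=
      one_le_mul_of_one_le_of_one_le h6 h2
    have h8 : (1 : ℝ) ≤ 4 ^ n * (4 * Cc + 1) := one_le_mul_of_one_le_of_one_le h3 (by linarith)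
    exact one_le_mul_of_one_le_of_one_le h7 h8
  refine ⟨3 * Cz * K, min (min td tc) tb,
    one_le_mul_of_one_le_of_one_le (by linarith) hK0, lt_min (lt_min htd htc) htb, ?_⟩
  intro Q C₅ t₀ h5 h0 ht
  obtain ⟨ed, hed, hed1, Kd⟩ := Hd Q C₅ t₀ h5 h0
    (ht.trans ((min_le_left _ _).trans (min_le_left _ _)))
  obtain ⟨ec, hec, hec1, Kc⟩ := Hc Q C₅ t₀ h5 h0
    (ht.trans ((min_le_left _ _).trans (min_le_right _ _)))
  obtain ⟨eb, heb, heb1, Kb⟩ := Hb Q C₅ t₀ h5 h0 (ht.trans (min_le_right _ _))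
  refine ⟨min (min ed ec) eb, lt_min (lt_min hed hec) heb,
    ((min_le_left _ _).trans (min_le_left _ _)).trans hed1, ?_⟩
  intro D R hR α β j1 j2 pf pf' h1 h2 h3 h4 j hj
  obtain ⟨hSm, -⟩ := Kb D R (hR.mono (min_le_right _ _))
  have hd := Kd D R (hR.mono ((min_le_left _ _).trans (min_le_left _ _))) α β j1 j2 pf pf'
    h1 h2 h3 h4
  have hc := Kc D R (hR.mono ((min_le_left _ _).trans (min_le_right _ _))) α β pf (by omega)
  obtain ⟨hg, -, -⟩ := Hg D R α β pf (by omega) hSm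
  have hα1 : 1 ≤ α := by
    have h1 := pf.ge
    have h2 : R.W ≠ 0 := by
      intro h3
      have h4 := R.W1
      rw [h3] at h4
      norm_num at h4
    omega
  have hj1α : (α : ℝ) + 2 ≤ j1 := by exact_mod_cast h1
  have hj12 : (j1 : ℝ) + 2 ≤ j2 := by exact_mod_cast h2
  have hj2β : (j2 : ℝ) + 2 ≤ β := by exact_mod_cast h3
  obtain ⟨l, hl⟩ : ∃ l : ℝ, l = (β : ℝ) - α := ⟨_, rfl⟩
  have hl6 : 6 ≤ l := by linarith
  obtain ⟨A, hA⟩ : ∃ A : ℝ, A = max pf.a pf'.a := ⟨_, rfl⟩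
  have haA : pf.a ≤ A := by
    rw [hA]
    exact le_max_left _ _
  have haA' : pf'.a ≤ A := by
    rw [hA]
    exact le_max_right _ _
  have ha0 := pf.a_nonneg
  have ha0' := pf'.a_nonneg
  have hA0 : 0 ≤ A := ha0.trans haA
  obtain ⟨Gs, hGs⟩ : ∃ Gs : ℝ, Gs = Real.sqrt (∑ i ∈ Finset.Icc α β, pf.Gg i ^ 2) := ⟨_, rfl⟩
  obtain ⟨r, hr⟩ : ∃ r : ℝ, r = Real.sqrt l := ⟨_, rfl⟩
  obtain ⟨t, ht'⟩ : ∃ t : ℝ, t = pf.a * (1 / 2) ^ R.T := ⟨_, rfl⟩
  rw [← hGs, ← hl, ← hr, ← ht'] at hd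
  have hr0 : 0 < r := by
    rw [hr]
    exact Real.sqrt_pos.2 (by linarith)
  have hrsq : r ^ 2 = l := by rw [hr, Real.sq_sqrt (by linarith)]
  have hGs0 : 0 ≤ Gs := by
    rw [hGs]
    exact Real.sqrt_nonneg _
  have ht0 : 0 ≤ t := by
    rw [ht']
    exact mul_nonneg ha0 (by positivity)
  obtain ⟨y, hy⟩ : ∃ y : ℝ, y = Gs / r + t := ⟨_, rfl⟩
  have hy0 : 0 ≤ y := by
    rw [hy]
    positivity
  rw [← hy] at hd
  obtain ⟨Del, hDel⟩ : ∃ Del : ℝ, Del = min (2 * A) (Cd * y) := ⟨_, rfl⟩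
  have hDel0 : 0 ≤ Del := by
    rw [hDel]
    exact le_min (by positivity) (by positivity)
  have hDelA : Del ≤ 2 * A := by
    rw [hDel]
    exact min_le_left _ _
  have hDely : Del ≤ Cd * y := by
    rw [hDel]
    exact min_le_right _ _
  have hIcc : ∀ s ∈ Icc (sj j1 - 4) (sj j2 + 4), s ∈ Icc (sj α - 4) (sj β + 4) := by
    intro s hs
    have k1 := stn_mono (show α ≤ j1 by omega)
    have k2 := stn_mono (show j2 ≤ β by omega)
    exact ⟨by linarith [hs.1], by linarith [hs.2]⟩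
  have hbd : ∀ s ∈ Icc (sj j1 - 4) (sj j2 + 4), ‖pf'.V s - pf.V s‖ ≤ Del := by
    intro s hs
    rw [hDel]
    refine le_min ?_ (hd s hs)
    refine (norm_sub_le _ _).trans ?_
    rw [pf'.geod.speed s hs, pf.geod.speed s (hIcc s hs)]
    linarith
  -- the three rings
  have hz : ∀ i, j1 - 1 ≤ i → i ≤ j2 + 1 → pf'.Z i ≤ Cz * (pf.Z i + A ^ (n - 2) * Del ^ 2) := by
    intro i hi1 hi2
    have := Hz D R α β j1 j2 pf pf' Del hSm (by omega) h2 (by omega) (by omega) hDel0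
      (by rw [← hA]; exact hDelA) hbd i hi1 hi2
    rw [← hA] at this
    exact this
  have hZp : pf'.Zp j ≤ Cz * (pf.Zp j + 3 * (A ^ (n - 2) * Del ^ 2)) := by
    have k1 := hz (j - 1) (by omega) (by omega)
    have k2 := hz j (by omega) (by omega)
    have k3 := hz (j + 1) (by omega) (by omega)
    unfold Pf.Zp
    linarith
  -- the error terms
  have hEr0 : ∀ i ∈ Finset.Icc α β, 0 ≤ pf.Er i := by
    intro i hi
    obtain ⟨k1, k2⟩ := Finset.mem_Icc.1 hi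
    exact (hg i (by omega) (by omega)).2.2.2.2.2.2.2
  have hDα : 0 ≤ R.Dj α := (hg α (by omega) (by omega)).2.2.2.2.2.2.1
  obtain ⟨SE, hSE⟩ : ∃ SE : ℝ, SE = ∑ i ∈ Finset.Icc α β, pf.Er i := ⟨_, rfl⟩
  have hαm : α ∈ Finset.Icc α β := Finset.mem_Icc.2 ⟨le_rfl, by omega⟩
  have hSE1 : pf.Er α ≤ SE := by
    rw [hSE]
    exact Finset.single_le_sum hEr0 hαm
  have hSE0 : 0 ≤ SE := (hEr0 α hαm).trans hSE1
  have hZs := stn_Zsum pf hα1 (by omega)
  have hZ0 : ∀ i, 0 ≤ pf.Z i := by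
    intro i
    unfold Pf.Z
    exact integral_nonneg fun x => (pf_vg pf).2.2.2.2.2.2.2.1 x
  have hSS0 : 0 ≤ pf.SS := by
    unfold Pf.SS
    exact Finset.sum_nonneg fun i _ => hZ0 i
  have hZp0 : 0 ≤ pf.Zp j := by
    unfold Pf.Zp
    have := hZ0 (j - 1)
    have := hZ0 j
    have := hZ0 (j + 1)
    linarith
  obtain ⟨B, hB⟩ : ∃ B : ℝ, B = pf.SS / l + SE := ⟨_, rfl⟩
  have hB0 : 0 ≤ B := by
    rw [hB]
    have : 0 ≤ pf.SS / l := div_nonneg hSS0 (by linarith)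
    linarith
  have hCB0 : 0 ≤ Cc * B := mul_nonneg (by linarith) hB0
  have hsum : ∀ F : ℕ → ℝ, (∀ i ∈ Finset.Icc α β, F i ≤ Cc * (pf.Zp i + pf.Er i)) →
      (∑ i ∈ Finset.Icc α β, F i) / l ≤ 3 * Cc * B := by
    intro F hF
    have k1 : ∑ i ∈ Finset.Icc α β, F i ≤ Cc * (3 * pf.SS + SE) := by
      refine (Finset.sum_le_sum hF).trans ?_
      rw [← Finset.mul_sum, Finset.sum_add_distrib, ← hSE]
      exact mul_le_mul_of_nonneg_left (by linarith) (by linarith)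
    have k2 : Cc * (3 * pf.SS + SE) / l ≤ 3 * Cc * B := by
      rw [hB, mul_div_assoc, add_div]
      have k3 : SE / l ≤ SE := div_le_self hSE0 (by linarith)
      have k4 : Cc * (3 * pf.SS / l + SE / l) ≤ Cc * (3 * pf.SS / l + SE) :=
        mul_le_mul_of_nonneg_left (by linarith) (by linarith)
      have k5 : 0 ≤ Cc * SE := mul_nonneg (by linarith) hSE0
      have k6 : Cc * (3 * pf.SS / l + SE) = 3 * Cc * (pf.SS / l) + Cc * SE := by ring
      have k7 : 3 * Cc * (pf.SS / l + SE) = 3 * Cc * (pf.SS / l) + 3 * (Cc * SE) := by ring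
      rw [k7]
      linarith
    exact (div_le_div_of_nonneg_right k1 (by linarith)).trans k2
  -- two bounds for the speeds
  have hu1 : pf.a ^ (n - 2) * (Gs / r) ^ 2 ≤ 3 * Cc * B := by
    have k1 := hsum (fun i => pf.a ^ (n - 2) * pf.Gg i ^ 2) (fun i hi => by
      obtain ⟨k1, k2⟩ := Finset.mem_Icc.1 hi
      exact (hc i k1 k2).2.1)
    rw [← Finset.mul_sum] at k1
    rw [div_pow, hrsq, hGs, Real.sq_sqrt (Finset.sum_nonneg fun i _ => sq_nonneg _), ← mul_div_assoc]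
    exact k1
  have hu2 : (Gs / r) ^ n ≤ 2 ^ n * (3 * Cc * B) := by
    have k1 := hsum (fun i => pf.Gg i ^ n) (fun i hi => by
      obtain ⟨k1, k2⟩ := Finset.mem_Icc.1 hi
      exact (hc i k1 k2).2.2)
    have k2 := stn_pm n (by omega) (Finset.Icc α β) pf.Gg (fun i _ => Real.sqrt_nonneg _) ⟨α, hαm⟩
    rw [← hGs] at k2
    have hcard : (((Finset.Icc α β).card : ℕ) : ℝ) = l + 1 := by
      rw [Nat.card_Icc, Nat.cast_sub (by omega), hl]
      push_cast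
      ring
    rw [hcard] at k2
    have hN0 : 0 ≤ ∑ i ∈ Finset.Icc α β, pf.Gg i ^ n :=
      Finset.sum_nonneg fun i _ => pow_nonneg (Real.sqrt_nonneg _) n
    have k3 : Real.sqrt (l + 1) ≤ 2 * r := by
      rw [hr]
      have : Real.sqrt (l + 1) ≤ Real.sqrt (2 ^ 2 * l) := Real.sqrt_le_sqrt (by linarith)
      rwa [Real.sqrt_mul (by norm_num), Real.sqrt_sq (by norm_num)] at this
    have k4 : 0 < Real.sqrt (l + 1) := Real.sqrt_pos.2 (by linarith)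
    have k5 : Gs / r ≤ 2 * (Gs / Real.sqrt (l + 1)) := by
      rw [← mul_div_assoc, div_le_div_iff₀ hr0 k4]
      calc Gs * Real.sqrt (l + 1) ≤ Gs * (2 * r) := mul_le_mul_of_nonneg_left k3 hGs0
        _ = 2 * Gs * r := by ring
    calc (Gs / r) ^ n ≤ (2 * (Gs / Real.sqrt (l + 1))) ^ n :=
          pow_le_pow_left₀ (by positivity) k5 n
      _ = 2 ^ n * (Gs / Real.sqrt (l + 1)) ^ n := by rw [mul_pow]
      _ ≤ 2 ^ n * ((∑ i ∈ Finset.Icc α β, pf.Gg i ^ n) / (l + 1)) :=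
          mul_le_mul_of_nonneg_left k2 (by positivity)
      _ ≤ 2 ^ n * ((∑ i ∈ Finset.Icc α β, pf.Gg i ^ n) / l) := by
          refine mul_le_mul_of_nonneg_left ?_ (by positivity)
          exact div_le_div_of_nonneg_left hN0 (by linarith) (by linarith)
      _ ≤ 2 ^ n * (3 * Cc * B) := mul_le_mul_of_nonneg_left k1 (by positivity)
  have hhalf : ∀ p : ℕ, 1 ≤ p → ((1 / 2 : ℝ) ^ R.T) ^ p ≤ (1 / 2) ^ R.T := by
    intro p hp
    exact pow_le_of_le_one (by positivity) (pow_le_one₀ (by norm_num) (by norm_num)) (by omega)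
  have hpow : ∀ y : ℝ, y ^ n = y ^ (n - 2) * y ^ 2 := by
    intro y
    rw [← pow_add]
    congr 1
    omega
  have hSEB : SE ≤ B := by
    rw [hB]
    have : 0 ≤ pf.SS / l := div_nonneg hSS0 (by linarith)
    linarith
  have ht1 : pf.a ^ (n - 2) * t ^ 2 ≤ B := by
    have k1 := stn_Er pf α hDα (((1 / 2 : ℝ) ^ R.T) ^ 2) (by positivity) (hhalf 2 (by norm_num))
    have k2 : pf.a ^ (n - 2) * t ^ 2 = pf.a ^ n * ((1 / 2 : ℝ) ^ R.T) ^ 2 := by
      rw [ht', mul_pow, hpow pf.a]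
      ring
    rw [k2]
    linarith
  have ht2 : t ^ n ≤ B := by
    have k1 := stn_Er pf α hDα (((1 / 2 : ℝ) ^ R.T) ^ n) (by positivity) (hhalf n (by omega))
    rw [ht', mul_pow]
    linarith
  have hmain : A ^ (n - 2) * Del ^ 2 ≤ K * B := by
    have q1 : (1 : ℝ) ≤ 2 ^ (n - 2) := one_le_pow₀ (by norm_num)
    have q2 : (1 : ℝ) ≤ 2 ^ n := one_le_pow₀ (by norm_num)
    have q3 : (2 : ℝ) ^ n ≤ 4 ^ n := pow_le_pow_left₀ (by norm_num) (by norm_num) n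
    have q4 : (1 : ℝ) ≤ Cd ^ n := one_le_pow₀ hCd
    have q5 : (1 : ℝ) ≤ Cd ^ 2 := one_le_pow₀ hCd
    rcases le_or_gt pf'.a (2 * pf.a) with hc1 | hc1
    · have k1 : A ≤ 2 * pf.a := by
        rw [hA]
        exact max_le (by linarith) hc1
      have k2 : A ^ (n - 2) ≤ 2 ^ (n - 2) * pf.a ^ (n - 2) := by
        rw [← mul_pow]
        exact pow_le_pow_left₀ hA0 k1 _
      have k3 : Del ^ 2 ≤ Cd ^ 2 * (2 * ((Gs / r) ^ 2 + t ^ 2)) := by
        refine (pow_le_pow_left₀ hDel0 hDely 2).trans ?_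
        rw [mul_pow, hy]
        refine mul_le_mul_of_nonneg_left ?_ (by positivity)
        linarith [sq_nonneg (Gs / r - t)]
      calc A ^ (n - 2) * Del ^ 2 ≤
            (2 ^ (n - 2) * pf.a ^ (n - 2)) * (Cd ^ 2 * (2 * ((Gs / r) ^ 2 + t ^ 2))) :=
            mul_le_mul k2 k3 (sq_nonneg _) (by positivity)
        _ = 2 ^ (n - 2) * Cd ^ 2 * 2 *
            (pf.a ^ (n - 2) * (Gs / r) ^ 2 + pf.a ^ (n - 2) * t ^ 2) := by ring
        _ ≤ 2 ^ (n - 2) * Cd ^ 2 * 2 * ((4 * Cc + 1) * B) := by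
            refine mul_le_mul_of_nonneg_left ?_ (by positivity)
            have k4 : (4 * Cc + 1) * B = 3 * Cc * B + B + Cc * B := by ring
            rw [k4]
            linarith
        _ ≤ K * B := by
            rw [hK]
            have k4 : 2 ^ (n - 2) * Cd ^ 2 * 2 * ((4 * Cc + 1) * B) =
              (2 ^ (n - 2) * Cd ^ 2) * (2 * ((4 * Cc + 1) * B)) := by ring
            have k5 : 2 ^ (n - 2) * (Cd ^ n + Cd ^ 2) * 2 ^ n * (4 ^ n * (4 * Cc + 1)) * B =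
              (2 ^ (n - 2) * (Cd ^ n + Cd ^ 2)) * ((2 ^ n * 4 ^ n) * ((4 * Cc + 1) * B)) := by ring
            rw [k4, k5]
            have k6 : (2 : ℝ) ≤ 2 ^ n * 4 ^ n := by
              have : (2 : ℝ) ≤ 4 ^ n := by
                calc (2 : ℝ) ≤ 4 ^ 1 := by norm_num
                  _ ≤ 4 ^ n := pow_le_pow_right₀ (by norm_num) (by omega)
              exact this.trans (le_mul_of_one_le_left (by positivity) q2)
            refine mul_le_mul ?_ ?_ (by positivity) (by positivity)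
            · refine mul_le_mul_of_nonneg_left (by linarith) (by positivity)
            · exact mul_le_mul_of_nonneg_right k6 (by positivity)
    · have hAa : A = pf'.a := by
        rw [hA]
        exact max_eq_right (by linarith)
      have hs0 : sj j1 ∈ Icc (sj j1 - 4) (sj j2 + 4) := by
        have := stn_mono (show j1 ≤ j2 by omega)
        exact ⟨by linarith, by linarith⟩
      have k1 : A ≤ 2 * Del := by
        have k2 := hbd _ hs0
        have k3 := norm_sub_norm_le (pf'.V (sj j1)) (pf.V (sj j1))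
        rw [pf'.geod.speed _ hs0, pf.geod.speed _ (hIcc _ hs0)] at k3
        rw [hAa]
        linarith
      have k2 : A ^ (n - 2) * Del ^ 2 ≤ 2 ^ (n - 2) * (Cd ^ n * y ^ n) := by
        calc A ^ (n - 2) * Del ^ 2 ≤ (2 * Del) ^ (n - 2) * Del ^ 2 :=
              mul_le_mul_of_nonneg_right (pow_le_pow_left₀ hA0 k1 _) (sq_nonneg _)
          _ = 2 ^ (n - 2) * Del ^ n := by rw [mul_pow, hpow Del]; ring
          _ ≤ 2 ^ (n - 2) * (Cd * y) ^ n :=
              mul_le_mul_of_nonneg_left (pow_le_pow_left₀ hDel0 hDely n) (by positivity)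
          _ = 2 ^ (n - 2) * (Cd ^ n * y ^ n) := by rw [mul_pow]
      have k3 : y ^ n ≤ 2 ^ n * (2 ^ n * (3 * Cc * B) + B) := by
        rw [hy]
        refine (young1 n (by omega) (Gs / r) t (by positivity) ht0).2.2.2.1.trans ?_
        exact mul_le_mul_of_nonneg_left (by linarith) (by positivity)
      have k4 : 2 ^ n * (3 * Cc * B) + B ≤ 4 ^ n * ((4 * Cc + 1) * B) := by
        have k5 : 0 ≤ 3 * Cc * B := by positivity
        have k6 : (1 : ℝ) ≤ 4 ^ n := by linarith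
        have k7 := mul_le_mul_of_nonneg_right q3 k5
        have k8 := mul_le_mul_of_nonneg_right k6 hB0
        have k9 : 0 ≤ 4 ^ n * (Cc * B) := by positivity
        have k10 : 4 ^ n * ((4 * Cc + 1) * B) = 4 ^ n * (3 * Cc * B) + 4 ^ n * B +
            4 ^ n * (Cc * B) := by ring
        rw [k10]
        linarith
      calc A ^ (n - 2) * Del ^ 2 ≤ 2 ^ (n - 2) * (Cd ^ n * y ^ n) := k2
        _ ≤ 2 ^ (n - 2) * (Cd ^ n * (2 ^ n * (4 ^ n * ((4 * Cc + 1) * B)))) := by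
            refine mul_le_mul_of_nonneg_left ?_ (by positivity)
            refine mul_le_mul_of_nonneg_left ?_ (by positivity)
            exact k3.trans (mul_le_mul_of_nonneg_left k4 (by positivity))
        _ = (2 ^ (n - 2) * Cd ^ n) * (2 ^ n * (4 ^ n * ((4 * Cc + 1) * B))) := by ring
        _ ≤ (2 ^ (n - 2) * (Cd ^ n + Cd ^ 2)) * (2 ^ n * (4 ^ n * ((4 * Cc + 1) * B))) := by
            refine mul_le_mul_of_nonneg_right ?_ (by positivity)
            exact mul_le_mul_of_nonneg_left (by linarith) (by positivity)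
        _ = K * B := by
            rw [hK]
            ring
  rw [← hl, ← hSE]
  have hfin : pf.Zp j + 3 * (A ^ (n - 2) * Del ^ 2) ≤ 3 * K * (pf.Zp j + B) := by
    have k1 : pf.Zp j ≤ K * pf.Zp j := le_mul_of_one_le_left hZp0 hK0
    have k2 : 3 * K * (pf.Zp j + B) = 3 * (K * pf.Zp j) + 3 * (K * B) := by ring
    rw [k2]
    linarith
  calc pf'.Zp j ≤ Cz * (pf.Zp j + 3 * (A ^ (n - 2) * Del ^ 2)) := hZp
    _ ≤ Cz * (3 * K * (pf.Zp j + B)) := mul_le_mul_of_nonneg_left hfin (by linarith)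
    _ = 3 * Cz * K * (pf.Zp j + pf.SS / l + SE) := by
        rw [hB]
        ring

end H60NT
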