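import Pool.Agent.H60.NT.PfE
import Pool.Agent.H60.NT.PfMj
import Pool.Agent.H60.NT.YjStep

/-!
# [H60 NT STV] The displacement of the base points with respect to the old profile

`j = j1` or `j2`, `α ≤ j1 ≤ j2 ≤ β`, `m_j = Mn μ x₀ j v`, `Q = P_α`, `Γj = Γ (sj j)`, `X = √(β-α) Gs + a (1/2)^T`, `Gs² = ∑ Gg²`.
`‖m_j‖ ≤ ‖m_α‖ + C ∑_{α ≤ i ≤ j} Gg i ≤ C X` (`pf_e`, `pf_mj`, Cauchy-Schwarz with `β - α + 1 ≤ 2(β-α)` terms), `‖m_{j2} - m_{j1}‖ ≤ C X`.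
`V_j := y_j - Γj = (y_j - M_j(u)) + m_j + O(a (1/2)^T)` (`pf_mean`). `‖M_j(u) - y_j‖ = infDist M_j(u) N ≤ ‖M_j(u) - Γj‖ ≤ ‖m_j‖ + C a (1/2)^T ≤ C X`
(`TC.dist_eq`, `Γj ∈ N` by `pf_dist`), and `P_j (M_j(u) - y_j) = 0` (`proj_normal`), so `‖Q (M_j(u) - y_j)‖ = ‖(P_α - P_j)(M_j(u) - y_j)‖ ≤ C √e X`
(`lip1`, `‖y_α - y_j‖ ≤ C √e`). Hence `‖Q V_j‖ ≤ C X`, and `Q (V_{j2} - V_{j1}) = Q(m_{j2} - m_{j1}) + O(√e X) + O(a(1/2)^T)`.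
`V_j` is a chord of `N` near `y_α`: `‖V_j - Q V_j‖ ≤ C (‖Γj - y_α‖ + ‖V_j‖) ‖V_j‖ ≤ C √e ‖V_j‖` (`chord`), so `‖V_j‖ ≤ 2 ‖Q V_j‖ ≤ C X`; everything
is bounded by `C X`.
-/

set_option autoImplicit false

namespace H60NT

open H60NH MeasureTheory Metric Set Filter Topology
open scoped ENNReal NNReal ContDiff

theorem st_v {n m : ℕ} (P : Par n m) (Cp : ℝ) (hCp : 1 ≤ Cp) : Uni P (fun C _ R =>
    ∀ (α β : ℕ) (pf : Pf R Cp α β), α + 2 ≤ β → ∀ j, α ≤ j → j ≤ β →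
      ‖R.yj j - pf.Γ (sj j)‖ ≤ C * (Real.sqrt ((β : ℝ) - α) *
        Real.sqrt (∑ i ∈ Finset.Icc α β, pf.Gg i ^ 2) + pf.a * (1 / 2) ^ R.T)) := by
  obtain ⟨Ce, te, hCe, hte, He⟩ := pf_e P Cp hCp
  obtain ⟨Cm, tm, hCm, htm, Hm⟩ := pf_mj P Cp hCp
  obtain ⟨Cn, tn, hCn, htn, Hn⟩ := pf_mean P Cp hCp
  obtain ⟨Cy, ty, hCy, hty, Hy⟩ := yj_facts P
  refine ⟨2 * (Ce + 2 * Cm + Cn), min (min te tm) (min tn ty), by linarith,
    lt_min (lt_min hte htm) (lt_min htn hty), ?_⟩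
  intro Q C₅ t₀ h5 h0 ht
  obtain ⟨ee, hee, hee1, Ke⟩ := He Q C₅ t₀ h5 h0
    (ht.trans ((min_le_left _ _).trans (min_le_left _ _)))
  obtain ⟨em, hem, hem1, Km⟩ := Hm Q C₅ t₀ h5 h0
    (ht.trans ((min_le_left _ _).trans (min_le_right _ _)))
  obtain ⟨en, hen, hen1, Kn⟩ := Hn Q C₅ t₀ h5 h0
    (ht.trans ((min_le_right _ _).trans (min_le_left _ _)))
  obtain ⟨ey, hey, hey1, Ky⟩ := Hy Q C₅ t₀ h5 h0
    (ht.trans ((min_le_right _ _).trans (min_le_right _ _)))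
  refine ⟨min (min ee em) (min en ey), lt_min (lt_min hee hem) (lt_min hen hey),
    ((min_le_left _ _).trans (min_le_left _ _)).trans hee1, ?_⟩
  intro D R hR α β pf hαβ j hαj hjβ
  have a1 := Ke D R (hR.mono ((min_le_left _ _).trans (min_le_left _ _))) α β pf hαβ
  have a2 := Km D R (hR.mono ((min_le_left _ _).trans (min_le_right _ _))) α β pf hαβ α j
    le_rfl hαj hjβ
  have a3 := (Kn D R (hR.mono ((min_le_right _ _).trans (min_le_left _ _))) α β pf hαβ).1 j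
    hαj hjβ
  have hα1 : R.k + 1 ≤ α := by
    have h1 := pf.ge
    have h2 : R.W ≠ 0 := by
      intro h3
      have h4 := R.W1
      rw [h3] at h4
      norm_num at h4
    omega
  obtain ⟨-, -, a4, -, -⟩ := Ky D R (hR.mono ((min_le_right _ _).trans (min_le_right _ _))) j
    (by omega)
  obtain ⟨Gs, hGs⟩ : ∃ Gs : ℝ, Gs = Real.sqrt (∑ i ∈ Finset.Icc α β, pf.Gg i ^ 2) := ⟨_, rfl⟩
  obtain ⟨r, hr⟩ : ∃ r : ℝ, r = Real.sqrt ((β : ℝ) - α) := ⟨_, rfl⟩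
  have hGg0 : ∀ i, 0 ≤ pf.Gg i := fun i => Real.sqrt_nonneg _
  have hl : (2 : ℝ) ≤ (β : ℝ) - α := by
    have : ((α + 2 : ℕ) : ℝ) ≤ β := by exact_mod_cast hαβ
    push_cast at this
    linarith
  have hr1 : 1 ≤ r := by
    rw [hr]
    exact Real.one_le_sqrt.2 (by linarith)
  have hGs0 : 0 ≤ Gs := by
    rw [hGs]
    exact Real.sqrt_nonneg _
  have hS0 : 0 ≤ ∑ i ∈ Finset.Icc α β, pf.Gg i ^ 2 := Finset.sum_nonneg fun i _ => sq_nonneg _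
  have hGsq : Gs ^ 2 = ∑ i ∈ Finset.Icc α β, pf.Gg i ^ 2 := by
    rw [hGs, Real.sq_sqrt hS0]
  have hrsq : r ^ 2 = (β : ℝ) - α := by
    rw [hr, Real.sq_sqrt (by linarith)]
  have hGα : pf.Gg α ≤ r * Gs := by
    have h1 : pf.Gg α ≤ Gs := by
      rw [hGs]
      refine Real.le_sqrt_of_sq_le ?_
      exact Finset.single_le_sum (f := fun i => pf.Gg i ^ 2) (fun i _ => sq_nonneg _)
        (Finset.mem_Icc.2 ⟨le_rfl, by omega⟩)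
    exact h1.trans (le_mul_of_one_le_left hGs0 hr1)
  have hsum : ∑ l ∈ Finset.Icc α j, pf.Gg l ≤ 2 * (r * Gs) := by
    have h1 : ∑ l ∈ Finset.Icc α j, pf.Gg l ≤ ∑ l ∈ Finset.Icc α β, pf.Gg l :=
      Finset.sum_le_sum_of_subset_of_nonneg (Finset.Icc_subset_Icc le_rfl hjβ)
        (fun i _ _ => hGg0 i)
    have h2 : (∑ l ∈ Finset.Icc α β, pf.Gg l) ^ 2 ≤
        ((Finset.Icc α β).card : ℝ) * ∑ l ∈ Finset.Icc α β, pf.Gg l ^ 2 := sq_sum_le_card_mul_sum_sq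
    have h3 : ((Finset.Icc α β).card : ℝ) ≤ 2 * r ^ 2 := by
      rw [Nat.card_Icc, Nat.cast_sub (by omega), hrsq]
      push_cast
      linarith
    have h4 : (∑ l ∈ Finset.Icc α β, pf.Gg l) ^ 2 ≤ (2 * (r * Gs)) ^ 2 := by
      rw [← hGsq] at h2
      refine h2.trans ((mul_le_mul_of_nonneg_right h3 (sq_nonneg _)).trans ?_)
      have e1 : (2 * (r * Gs)) ^ 2 = 4 * (r * Gs) ^ 2 := by ring
      have e2 : 2 * r ^ 2 * Gs ^ 2 = 2 * (r * Gs) ^ 2 := by ring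
      have e3 := sq_nonneg (r * Gs)
      rw [e1, e2]
      linarith
    exact h1.trans (le_of_sq_le_sq h4 (by positivity))
  have hT0 : 0 ≤ pf.a * (1 / 2) ^ R.T := mul_nonneg pf.a_nonneg (by positivity)
  rw [← hGs, ← hr]
  obtain ⟨t, ht'⟩ : ∃ t : ℝ, t = pf.a * (1 / 2) ^ R.T := ⟨_, rfl⟩
  rw [← ht'] at a1 a3 hT0 ⊢
  have hrG0 : 0 ≤ r * Gs := by positivity
  have hmj : ‖Mn R.μ R.x₀ j pf.v‖ ≤ (Ce + 2 * Cm) * (r * Gs + t) := by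
    have h1 : ‖Mn R.μ R.x₀ j pf.v‖ ≤ ‖Mn R.μ R.x₀ j pf.v - Mn R.μ R.x₀ α pf.v‖ +
        ‖Mn R.μ R.x₀ α pf.v‖ := by
      have := norm_add_le (Mn R.μ R.x₀ j pf.v - Mn R.μ R.x₀ α pf.v) (Mn R.μ R.x₀ α pf.v)
      rwa [sub_add_cancel] at this
    have h2 : Cm * ∑ l ∈ Finset.Icc α j, pf.Gg l ≤ Cm * (2 * (r * Gs)) :=
      mul_le_mul_of_nonneg_left hsum (by linarith)
    have h3 : Ce * (t + pf.Gg α) ≤ Ce * (t + r * Gs) :=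
      mul_le_mul_of_nonneg_left (by linarith) (by linarith)
    have h4 : 0 ≤ Cm * t := mul_nonneg (by linarith) hT0
    linarith
  have hMG : ‖Mn R.μ R.x₀ j D.u - pf.Γ (sj j)‖ ≤ (Ce + 2 * Cm + Cn) * (r * Gs + t) := by
    have h1 : ‖Mn R.μ R.x₀ j D.u - pf.Γ (sj j)‖ ≤ ‖Mn R.μ R.x₀ j pf.v‖ +
        ‖Mn R.μ R.x₀ j pf.v - (Mn R.μ R.x₀ j D.u - pf.Γ (sj j))‖ := by
      have := norm_sub_le (Mn R.μ R.x₀ j pf.v)
        (Mn R.μ R.x₀ j pf.v - (Mn R.μ R.x₀ j D.u - pf.Γ (sj j)))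
      rwa [sub_sub_cancel] at this
    have h2 : 0 ≤ Cn * (r * Gs) := mul_nonneg (by linarith) hrG0
    linarith
  have hmono : ∀ i i' : ℕ, i ≤ i' → sj i ≤ sj i' := by
    intro i i' h
    have h1 : p2 i ≤ p2 i' := pow_le_pow_right₀ (by norm_num) h
    have h2 : Real.log (p2 i) ≤ Real.log (p2 i') := Real.log_le_log (by unfold p2; positivity) h1
    unfold sj
    linarith
  have hΓN : pf.Γ (sj j) ∈ P.N := by
    refine pf.geod.mem _ ⟨?_, ?_⟩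
    · have := hmono α j hαj
      linarith
    · have := hmono j β hjβ
      linarith
  have hdist : ‖Mn R.μ R.x₀ j D.u - R.yj j‖ ≤ ‖Mn R.μ R.x₀ j D.u - pf.Γ (sj j)‖ := by
    unfold RC.yj
    rw [P.hT.dist_eq _ (by linarith [P.hT.pos])]
    have h1 := infDist_le_dist_of_mem (x := Mn R.μ R.x₀ j D.u) hΓN
    rwa [dist_eq_norm] at h1
  have h6 : ‖R.yj j - pf.Γ (sj j)‖ ≤ ‖Mn R.μ R.x₀ j D.u - R.yj j‖ +
      ‖Mn R.μ R.x₀ j D.u - pf.Γ (sj j)‖ := by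
    have := norm_sub_le (Mn R.μ R.x₀ j D.u - pf.Γ (sj j)) (Mn R.μ R.x₀ j D.u - R.yj j)
    have e1 : Mn R.μ R.x₀ j D.u - pf.Γ (sj j) - (Mn R.μ R.x₀ j D.u - R.yj j) =
        R.yj j - pf.Γ (sj j) := by abel
    rw [e1] at this
    linarith
  linarith

end H60NT
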