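import Pool.Agent.H60.NT.StN
import Pool.Agent.H60.NT.ExPf

/-!
# [H60 NT STEP] One step: choice of the new pair

`l = β - α ≥ 40`. `∑_{α ≤ j ≤ β} Z_j^+ ≤ 3 SS`; the sets `[α+2, α + l/3]` and `[β - l/3, β-2]` have at least `l/3 - 3 ≥ l/6` elements each, so there
are `j1`, `j2` in them with `Z_j^+ ≤ 18 SS/l`. `j2 - j1 ≥ l/3 - 1 ≥ l/4`, also `j1 + 2 ≤ j2`. The new profile exists by the hypothesis
`hex` (it comes from `exists_pf`). `st_n`; the error `∑_{α≤i≤β} E_i = e^(Q+3) ∑ (D_i + a^n) ≤ C e^(Q+3) ∑_{α ≤ i ≤ β} D_i` (`pf_gn`, last part).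
-/

set_option autoImplicit false

namespace H60NT

open H60NH MeasureTheory Metric Set Filter Topology
open scoped ENNReal NNReal ContDiff

private theorem step_Zsum {n m : ℕ} {P : Par n m} {D : Dyn P} {R : RC D} {Cp : ℝ} {α β : ℕ}
    (pf : Pf R Cp α β) (h1 : 1 ≤ α) (hZ : ∀ i, 0 ≤ pf.Z i) :
    ∑ i ∈ Finset.Icc α β, pf.Zp i ≤ 3 * pf.SS := by
  have e1 : ∑ i ∈ Finset.Icc α β, pf.Z i ≤ pf.SS := by
    unfold Pf.SS
    exact Finset.sum_le_sum_of_subset_of_nonneg (Finset.Icc_subset_Icc (by omega) (by omega))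
      (fun i _ _ => hZ i)
  have e2 : ∑ i ∈ Finset.Icc α β, pf.Z (i + 1) ≤ pf.SS := by
    unfold Pf.SS
    rw [← Finset.sum_image (s := Finset.Icc α β) (g := fun i => i + 1) (f := pf.Z)
      (fun a _ b _ h => by simpa using h)]
    refine Finset.sum_le_sum_of_subset_of_nonneg ?_ (fun i _ _ => hZ i)
    intro i hi
    obtain ⟨k, hk, rfl⟩ := Finset.mem_image.1 hi
    obtain ⟨k1, k2⟩ := Finset.mem_Icc.1 hk
    exact Finset.mem_Icc.2 ⟨by omega, by omega⟩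
  have e3 : ∑ i ∈ Finset.Icc α β, pf.Z (i - 1) ≤ pf.SS := by
    unfold Pf.SS
    rw [← Finset.sum_image (s := Finset.Icc α β) (g := fun i => i - 1) (f := pf.Z)
      (fun a ha b hb h => by
        have a1 := (Finset.mem_Icc.1 ha).1
        have b1 := (Finset.mem_Icc.1 hb).1
        have h' : a - 1 = b - 1 := h
        omega)]
    refine Finset.sum_le_sum_of_subset_of_nonneg ?_ (fun i _ _ => hZ i)
    intro i hi
    obtain ⟨k, hk, rfl⟩ := Finset.mem_image.1 hi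
    obtain ⟨k1, k2⟩ := Finset.mem_Icc.1 hk
    exact Finset.mem_Icc.2 ⟨by omega, by omega⟩
  unfold Pf.Zp
  rw [Finset.sum_add_distrib, Finset.sum_add_distrib]
  linarith

/-- a good index in a long interval -/
private theorem step_pick (F : ℕ → ℝ) (α β a b : ℕ) (S : ℝ) (hF : ∀ i ∈ Finset.Icc α β, 0 ≤ F i)
    (hS : ∑ i ∈ Finset.Icc α β, F i ≤ 3 * S) (ha : α ≤ a) (hb : b ≤ β) (hab : α + 40 ≤ β)
    (hc : β ≤ α + 6 * (b + 1 - a)) : ∃ i, a ≤ i ∧ i ≤ b ∧ F i ≤ 18 * (S / ((β : ℝ) - α)) := by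
  by_contra hcon
  push Not at hcon
  have hl : (40 : ℝ) ≤ (β : ℝ) - α := by
    have : ((α + 40 : ℕ) : ℝ) ≤ β := by exact_mod_cast hab
    push_cast at this
    linarith
  have hcard : ((β : ℝ) - α) ≤ 6 * ((Finset.Icc a b).card : ℝ) := by
    rw [Nat.card_Icc]
    have : (β : ℝ) ≤ ((α + 6 * (b + 1 - a) : ℕ) : ℝ) := by exact_mod_cast hc
    push_cast at this ⊢
    linarith
  have hne : (Finset.Icc a b).Nonempty := by
    rw [← Finset.card_pos]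
    have : (0 : ℝ) < (Finset.Icc a b).card := by linarith
    exact_mod_cast this
  have h1 : ∑ _i ∈ Finset.Icc a b, 18 * (S / ((β : ℝ) - α)) < ∑ i ∈ Finset.Icc a b, F i :=
    Finset.sum_lt_sum_of_nonempty hne fun i hi => by
      obtain ⟨k1, k2⟩ := Finset.mem_Icc.1 hi
      exact hcon i k1 k2
  have h2 : ∑ i ∈ Finset.Icc a b, F i ≤ ∑ i ∈ Finset.Icc α β, F i :=
    Finset.sum_le_sum_of_subset_of_nonneg (Finset.Icc_subset_Icc ha hb) (fun i hi _ => hF i hi)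
  rw [Finset.sum_const, nsmul_eq_mul] at h1
  have hS0 : 0 ≤ S := by
    have := Finset.sum_nonneg hF
    linarith
  have h3 : ((β : ℝ) - α) * (18 * (S / ((β : ℝ) - α))) = 18 * S := by
    have : (β : ℝ) - α ≠ 0 := by linarith
    field_simp
  have h4 : ((β : ℝ) - α) * (18 * (S / ((β : ℝ) - α))) ≤
      6 * ((Finset.Icc a b).card : ℝ) * (18 * (S / ((β : ℝ) - α))) :=
    mul_le_mul_of_nonneg_right hcard (by
      have : 0 ≤ S / ((β : ℝ) - α) := div_nonneg hS0 (by linarith)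
      linarith)
  rw [h3] at h4
  linarith

theorem step {n m : ℕ} (P : Par n m) (Cp : ℝ) (hCp : 1 ≤ Cp) : Uni P (fun C _ R =>
    (∀ α β : ℕ, R.k + R.W ≤ α → α + 2 ≤ β → β ≤ α + R.W → Nonempty (Pf R Cp α β)) →
    ∀ (α β : ℕ) (pf : Pf R Cp α β), α + 40 ≤ β →
      ∃ (j1 j2 : ℕ) (pf' : Pf R Cp j1 j2), α + 2 ≤ j1 ∧ j1 + 2 ≤ j2 ∧ j2 + 2 ≤ β ∧
        (β : ℝ) - α ≤ 4 * ((j2 : ℝ) - j1) ∧
        ∀ j, j = j1 ∨ j = j2 → pf'.Zp j ≤ C * (pf.SS / ((β : ℝ) - α) +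
          R.e ^ (R.Q + 3) * ∑ i ∈ Finset.Icc α β, R.Dj i)) := by
  have hn := P.hn
  obtain ⟨Cs, ts, hCs, hts, Hs⟩ := st_n P Cp hCp
  obtain ⟨_, tb, _, htb, Hb⟩ := b_pow P
  obtain ⟨Cg, hCg, Hg⟩ := pf_gn P Cp hCp
  refine ⟨Cs * (19 + Cg), min ts tb, one_le_mul_of_one_le_of_one_le hCs (by linarith),
    lt_min hts htb, ?_⟩
  intro Q C₅ t₀ h5 h0 ht
  obtain ⟨es, hes, hes1, Ks⟩ := Hs Q C₅ t₀ h5 h0 (ht.trans (min_le_left _ _))
  obtain ⟨eb, heb, heb1, Kb⟩ := Hb Q C₅ t₀ h5 h0 (ht.trans (min_le_right _ _))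
  refine ⟨min es eb, lt_min hes heb, (min_le_left _ _).trans hes1, ?_⟩
  intro D R hR hex α β pf hαβ
  obtain ⟨hSm, -⟩ := Kb D R (hR.mono (min_le_right _ _))
  have hs := Ks D R (hR.mono (min_le_left _ _)) α β
  obtain ⟨hg, -, hlast⟩ := Hg D R α β pf (by omega) hSm
  have hα1 : 1 ≤ α := by
    have h1 := pf.ge
    have h2 : R.W ≠ 0 := by
      intro h3
      have h4 := R.W1
      rw [h3] at h4
      norm_num at h4
    omega
  have hZ0 : ∀ i, 0 ≤ pf.Z i := by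
    intro i
    unfold Pf.Z
    exact integral_nonneg fun x => (pf_vg pf).2.2.2.2.2.2.2.1 x
  have hZp0 : ∀ i, 0 ≤ pf.Zp i := by
    intro i
    unfold Pf.Zp
    have := hZ0 (i - 1)
    have := hZ0 i
    have := hZ0 (i + 1)
    linarith
  have hsum := step_Zsum pf hα1 hZ0
  obtain ⟨j1, hj1a, hj1b, hj1⟩ := step_pick pf.Zp α β (α + 2) (α + (β - α) / 3) pf.SS
    (fun i _ => hZp0 i) hsum (by omega) (by omega) hαβ (by omega)
  obtain ⟨j2, hj2a, hj2b, hj2⟩ := step_pick pf.Zp α β (β - (β - α) / 3) (β - 2) pf.SS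
    (fun i _ => hZp0 i) hsum (by omega) (by omega) hαβ (by omega)
  have hW := pf.le
  have hkW := pf.ge
  obtain ⟨pf'⟩ := hex j1 j2 (by omega) (by omega) (by omega)
  have h4 : (β : ℝ) - α ≤ 4 * ((j2 : ℝ) - j1) := by
    have h6 : β + 4 * j1 ≤ α + 4 * j2 := by omega
    have h7 : ((β + 4 * j1 : ℕ) : ℝ) ≤ ((α + 4 * j2 : ℕ) : ℝ) := by exact_mod_cast h6
    push_cast at h7
    linarith
  refine ⟨j1, j2, pf', hj1a, by omega, by omega, h4, ?_⟩
  intro j hj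
  have hmain := hs j1 j2 pf pf' hj1a (by omega) (by omega) h4 j hj
  have hZj : pf.Zp j ≤ 18 * (pf.SS / ((β : ℝ) - α)) := by
    rcases hj with rfl | rfl
    · exact hj1
    · exact hj2
  have hl : (40 : ℝ) ≤ (β : ℝ) - α := by
    have : ((α + 40 : ℕ) : ℝ) ≤ β := by exact_mod_cast hαβ
    push_cast at this
    linarith
  obtain ⟨SD, hSD⟩ : ∃ SD : ℝ, SD = ∑ i ∈ Finset.Icc α β, R.Dj i := ⟨_, rfl⟩
  obtain ⟨q, hq⟩ : ∃ q : ℝ, q = R.e ^ (R.Q + 3) := ⟨_, rfl⟩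
  have hq0 : 0 ≤ q := by
    rw [hq]
    exact pow_nonneg R.e_pos.le _
  have hSD0 : 0 ≤ SD := by
    rw [hSD]
    refine Finset.sum_nonneg fun i hi => ?_
    obtain ⟨k1, k2⟩ := Finset.mem_Icc.1 hi
    exact (hg i (by omega) (by omega)).2.2.2.2.2.2.1
  have hEr : ∑ i ∈ Finset.Icc α β, pf.Er i ≤ q * ((1 + Cg) * SD) := by
    have h6 : ∑ i ∈ Finset.Icc α β, pf.Er i = q * (SD + ((β : ℝ) - α + 1) * pf.a ^ n) := by
      unfold Pf.Er
      rw [← Finset.mul_sum, Finset.sum_add_distrib, Finset.sum_const, nsmul_eq_mul, Nat.card_Icc,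
        Nat.cast_sub (by omega), ← hSD, ← hq]
      push_cast
      ring
    rw [h6]
    refine mul_le_mul_of_nonneg_left ?_ hq0
    rw [← hSD] at hlast
    have h7 : 0 ≤ pf.a ^ n := pow_nonneg pf.a_nonneg n
    have h8 : ((β : ℝ) - α + 1) * pf.a ^ n ≤ ((β : ℝ) - α + 3) * pf.a ^ n :=
      mul_le_mul_of_nonneg_right (by linarith) h7
    have h9 : (1 + Cg) * SD = SD + Cg * SD := by ring
    rw [h9]
    linarith
  have hSS0 : 0 ≤ pf.SS / ((β : ℝ) - α) := by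
    refine div_nonneg ?_ (by linarith)
    unfold Pf.SS
    exact Finset.sum_nonneg fun i _ => hZ0 i
  obtain ⟨X, hX⟩ : ∃ X : ℝ, X = pf.SS / ((β : ℝ) - α) := ⟨_, rfl⟩
  rw [← hX] at hmain hZj hSS0 ⊢
  rw [← hSD, ← hq]
  refine hmain.trans ?_
  rw [mul_assoc]
  refine mul_le_mul_of_nonneg_left ?_ (by linarith)
  have h10 : 0 ≤ q * SD := mul_nonneg hq0 hSD0
  have h11 : 0 ≤ Cg * X := mul_nonneg (by linarith) hSS0
  have h12 : (19 + Cg) * (X + q * SD) = 19 * X + Cg * X + 19 * (q * SD) + q * (Cg * SD) := by ring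
  have h13 : q * ((1 + Cg) * SD) = q * SD + q * (Cg * SD) := by ring
  rw [h12]
  rw [h13] at hEr
  linarith

end H60NT
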