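import Pool.Agent.H60.NT.Def

/-! # The structure `VG`: a map with its weak gradient on the ball of radius 64 -/

set_option autoImplicit false

namespace H60NT

open H60NH MeasureTheory Metric Set Filter Topology
open scoped ENNReal NNReal ContDiff

/-- The hypotheses on `v` and its weak gradient `g` (all on the ball of radius 64). -/
structure VG {n m : ℕ} (v : E n → E m) (g : E n → Fin n → E m) : Prop where
  wg : IsWeakGrad (ball 0 64) v g
  out_v : ∀ x, x ∉ ball (0 : E n) 64 → v x = 0
  out_g : ∀ x, x ∉ ball (0 : E n) 64 → ∀ i, g x i = 0
  int_v : Integrable v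
  meas_g : ∀ i, Measurable (fun x => g x i)
  int_g : Integrable (fun x => gn (g x))
  int_gn : Integrable (fun x => gn (g x) ^ n)

end H60NT
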