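import Pool.Agent.H60.NT.Wg1
import Pool.Agent.H60.NT.WInt
import Pool.Agent.H60.NT.Cho
import Pool.Agent.H60.NT.WPtS

/-!
# [H60 NT WLEE] The profile is an exact solution
-/

set_option autoImplicit false

namespace H60NT

open H60NH MeasureTheory Metric Set Filter Topology
open scoped ENNReal NNReal ContDiff

theorem wle_D2 {m : ℕ} {N : Set (E m)} {π : E m → E m} {δ C : ℝ} (hT : TC N π δ C) :
    ContinuousOn (D2 π) {y : E m | infDist y N < 4 * δ} := by
  have hopen : IsOpen {y : E m | infDist y N < 4 * δ} :=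
    isOpen_lt (continuous_infDist_pt N) continuous_const
  have h1 : ContDiffOn ℝ 1 (fderiv ℝ π) {y : E m | infDist y N < 4 * δ} :=
    hT.smooth.fderiv_of_isOpen (m := 1) hopen (by
      rw [one_add_one_eq_two]
      exact WithTop.coe_le_coe.2 le_top)
  exact (h1.fderiv_of_isOpen (m := 0) hopen (by norm_num)).continuousOn

/-- the velocity is of class `C^1` -/
theorem wle_V {m : ℕ} {N : Set (E m)} {π : E m → E m} {δ C : ℝ} (hT : TC N π δ C)
    {Γ V : ℝ → E m} {a s₁ s₂ : ℝ} (h : Geod N π Γ V a (Icc s₁ s₂)) :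
    ContDiffOn ℝ 1 V (Ioo s₁ s₂) := by
  have hsub : Ioo s₁ s₂ ⊆ Icc s₁ s₂ := Ioo_subset_Icc_self
  rw [show (1 : ℕ∞ω) = 0 + 1 from rfl, contDiffOn_succ_iff_deriv_of_isOpen isOpen_Ioo]
  refine ⟨fun s hs => (h.der2 s (hsub hs)).differentiableAt.differentiableWithinAt, by simp, ?_⟩
  rw [contDiffOn_zero]
  have hΓ : ContinuousOn Γ (Ioo s₁ s₂) := fun s hs =>
    (h.der s (hsub hs)).continuousAt.continuousWithinAt
  have hV : ContinuousOn V (Ioo s₁ s₂) := fun s hs =>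
    (h.der2 s (hsub hs)).continuousAt.continuousWithinAt
  have hD : ContinuousOn (fun s => D2 π (Γ s)) (Ioo s₁ s₂) :=
    (wle_D2 hT).comp hΓ fun s hs => by
      show infDist (Γ s) N < 4 * δ
      rw [infDist_zero_of_mem (h.mem s (hsub hs))]
      linarith [hT.pos]
  exact ((hD.clm_apply hV).clm_apply hV).congr fun s hs => (h.der2 s (hsub hs)).deriv

/-- derivative of the norm on a line -/
theorem wle_norm {n : ℕ} (x x₀ e : E n) (hx : x - x₀ ≠ 0) :
    HasDerivAt (fun t : ℝ => ‖x + t • e - x₀‖) (inner ℝ (x - x₀) e / ‖x - x₀‖) 0 := by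
  have h1 : HasDerivAt (fun t : ℝ => x + t • e - x₀) e 0 := by
    have := ((hasDerivAt_id (0 : ℝ)).smul_const e).const_add x |>.sub_const x₀
    simpa using this
  have h2 := h1.norm_sq
  have h3 : (‖x + (0 : ℝ) • e - x₀‖ ^ 2 : ℝ) ≠ 0 := by
    rw [zero_smul, add_zero]
    exact pow_ne_zero 2 (norm_ne_zero_iff.2 hx)
  have h4 := h2.sqrt h3
  have h5 : (fun t : ℝ => Real.sqrt ((fun y : ℝ => ‖x + y • e - x₀‖ ^ 2) t)) =
      fun t : ℝ => ‖x + t • e - x₀‖ := by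
    funext t
    exact Real.sqrt_sq (norm_nonneg _)
  have h6 : HasDerivAt (fun t : ℝ => ‖x + t • e - x₀‖)
      (2 * inner ℝ (x + (0 : ℝ) • e - x₀) e / (2 * Real.sqrt (‖x + (0 : ℝ) • e - x₀‖ ^ 2))) 0 := by
    rw [← h5]
    exact h4
  rw [zero_smul, add_zero, Real.sqrt_sq (norm_nonneg _), mul_div_mul_left _ _ two_ne_zero] at h6
  exact h6

/-- the scalar factor of the profile -/
noncomputable def wpsi {n : ℕ} (x₀ : E n) (A : ℝ) (i : Fin n) (x : E n) : ℝ :=
  -(A * inner ℝ (x - x₀) (ev i) / ‖x - x₀‖ ^ n)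

theorem wle_ev {n : ℕ} (i : Fin n) : ‖(ev i : E n)‖ = 1 := by
  unfold ev
  rw [PiLp.norm_single, norm_one]

theorem wle_psi {n : ℕ} (hn : 1 ≤ n) (x x₀ : E n) (A : ℝ) (i : Fin n) (hx : x - x₀ ≠ 0) :
    HasDerivAt (fun t : ℝ => wpsi x₀ A i (x + t • ev i))
      (-(A * (1 / ‖x - x₀‖ ^ n - n * inner ℝ (x - x₀) (ev i) ^ 2 / ‖x - x₀‖ ^ (n + 2)))) 0 := by
  have hr : ‖x - x₀‖ ≠ 0 := norm_ne_zero_iff.2 hx
  have h1 : HasDerivAt (fun t : ℝ => A * inner ℝ (x + t • ev i - x₀) (ev i)) A 0 := by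
    have h2 : HasDerivAt (fun t : ℝ => x + t • (ev i : E n) - x₀) (ev i) 0 := by
      have := ((hasDerivAt_id (0 : ℝ)).smul_const (ev i : E n)).const_add x |>.sub_const x₀
      simpa using this
    have h3 := (h2.inner ℝ (hasDerivAt_const (0 : ℝ) (ev i : E n))).const_mul A
    refine h3.congr_deriv ?_
    rw [inner_zero_right, zero_add, real_inner_self_eq_norm_sq, wle_ev]
    ring
  have h4 := (wle_norm x x₀ (ev i) hx).pow n
  have h5 := (h1.div h4 (by simpa using pow_ne_zero n hr)).neg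
  refine h5.congr_deriv ?_
  simp only [zero_smul, add_zero, Pi.pow_apply]
  obtain ⟨k, rfl⟩ : ∃ k, n = k + 1 := ⟨n - 1, by omega⟩
  simp only [Nat.add_sub_cancel]
  push_cast
  field_simp
  ring

/-- the test field -/
noncomputable def wY {n m : ℕ} {P : Par n m} {D : Dyn P} {R : RC D} {Cp : ℝ} {α β : ℕ}
    (pf : Pf R Cp α β) (i : Fin n) (x : E n) : E m :=
  pf.cw x • (wpsi R.x₀ (pf.a ^ (n - 2)) i x • pf.V (-Real.log ‖x - R.x₀‖))

theorem wle_cw_smooth {n m : ℕ} {P : Par n m} {D : Dyn P} {R : RC D} {Cp : ℝ} {α β : ℕ}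
    (pf : Pf R Cp α β) : ContDiff ℝ ∞ pf.cw :=
  (chi_facts P R.x₀ α).1.sub (chi_facts P R.x₀ β).1

/-- `cw` vanishes near the points outside the large annulus -/
theorem wle_cw_zero {n m : ℕ} {P : Par n m} {D : Dyn P} {R : RC D} {Cp : ℝ} {α β : ℕ}
    (pf : Pf R Cp α β) (x : E n)
    (hx : ¬ (1 / (4 * p2 β) < ‖x - R.x₀‖ ∧ ‖x - R.x₀‖ < 8 / p2 α)) :
    ∀ᶠ y in 𝓝 x, pf.cw y = 0 := by
  have hpα := wps_p2_pos α
  have hpβ := wps_p2_pos β
  have hw := (chi_win P R.x₀ α β pf.lt).2.1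
  have hc : Continuous (fun y : E n => ‖y - R.x₀‖) := (continuous_id.sub continuous_const).norm
  by_cases h1 : ‖x - R.x₀‖ ≤ 1 / (4 * p2 β)
  · have h2 : ‖x - R.x₀‖ < 1 / p2 β := by
      refine lt_of_le_of_lt h1 ?_
      apply one_div_lt_one_div_of_lt hpβ
      linarith
    filter_upwards [hc.continuousAt.eventually_lt continuousAt_const h2] with y hy
    by_contra hne
    have := (hw y hne).1
    linarith
  · have h2 : 2 / p2 α < ‖x - R.x₀‖ := by
      push Not at h1 hx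
      refine lt_of_lt_of_le ?_ (hx h1)
      rw [div_lt_div_iff₀ hpα hpα]
      linarith
    filter_upwards [continuousAt_const.eventually_lt hc.continuousAt h2] with y hy
    by_contra hne
    have := (hw y hne).2
    linarith

theorem wle_sub {n : ℕ} {x x₀ : E n} {β : ℕ} (h : 1 / (4 * p2 β) < ‖x - x₀‖) :
    x - x₀ ≠ 0 := by
  have hpβ := wps_p2_pos β
  rw [← norm_pos_iff]
  exact lt_trans (by positivity) h

theorem wle_time {n m : ℕ} {P : Par n m} {D : Dyn P} {R : RC D} {Cp : ℝ} {α β : ℕ}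
    (_pf : Pf R Cp α β) (x : E n) (h1 : 1 / (4 * p2 β) < ‖x - R.x₀‖)
    (h2 : ‖x - R.x₀‖ < 8 / p2 α) :
    -Real.log ‖x - R.x₀‖ ∈ Ioo (sj α - 4) (sj β + 4) := by
  have hpα := wps_p2_pos α
  have hpβ := wps_p2_pos β
  have hr : 0 < ‖x - R.x₀‖ := lt_trans (by positivity) h1
  have l32 : Real.log (3 / 2) ≤ 1 / 2 := by
    have := Real.log_le_sub_one_of_pos (by norm_num : (0 : ℝ) < 3 / 2)
    linarith
  have l320 : 0 ≤ Real.log (3 / 2) := Real.log_nonneg (by norm_num)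
  have l4 : Real.log 4 ≤ 3 := by
    have := Real.log_le_sub_one_of_pos (by norm_num : (0 : ℝ) < 4)
    linarith
  have l2 : Real.log 2 ≤ 1 := by
    have := Real.log_le_sub_one_of_pos (by norm_num : (0 : ℝ) < 2)
    linarith
  have l8 : Real.log 8 ≤ 3 := by
    have : (8 : ℝ) = 2 ^ 3 := by norm_num
    rw [this, Real.log_pow]
    push_cast
    linarith
  unfold sj
  constructor
  · have h3 : Real.log ‖x - R.x₀‖ ≤ Real.log (8 / p2 α) := Real.log_le_log hr h2.le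
    rw [Real.log_div (by norm_num) hpα.ne'] at h3
    linarith
  · have h3 : Real.log (1 / (4 * p2 β)) ≤ Real.log ‖x - R.x₀‖ :=
      Real.log_le_log (by positivity) h1.le
    rw [one_div, Real.log_inv, Real.log_mul (by norm_num) hpβ.ne'] at h3
    linarith

theorem wle_Y_C1 {n m : ℕ} {P : Par n m} {D : Dyn P} {R : RC D} {Cp : ℝ} {α β : ℕ}
    (pf : Pf R Cp α β) (i : Fin n) : ContDiff ℝ 1 (wY pf i) := by
  rw [contDiff_iff_contDiffAt]
  intro x
  by_cases hx : 1 / (4 * p2 β) < ‖x - R.x₀‖ ∧ ‖x - R.x₀‖ < 8 / p2 α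
  · have hne : x - R.x₀ ≠ 0 := wle_sub hx.1
    have hsub : ContDiffAt ℝ 1 (fun x : E n => x - R.x₀) x := contDiffAt_id.sub contDiffAt_const
    have hnorm : ContDiffAt ℝ 1 (fun x : E n => ‖x - R.x₀‖) x := hsub.norm ℝ hne
    have hψ : ContDiffAt ℝ 1 (wpsi R.x₀ (pf.a ^ (n - 2)) i) x := by
      unfold wpsi
      refine ContDiffAt.neg (ContDiffAt.div (contDiffAt_const.mul (hsub.inner ℝ contDiffAt_const))
        (hnorm.pow n) ?_)
      exact pow_ne_zero n (norm_ne_zero_iff.2 hne)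
    have hs : ContDiffAt ℝ 1 (fun x : E n => -Real.log ‖x - R.x₀‖) x :=
      (hnorm.log (norm_ne_zero_iff.2 hne)).neg
    have hmem := wle_time pf x hx.1 hx.2
    have hV : ContDiffAt ℝ 1 pf.V (-Real.log ‖x - R.x₀‖) :=
      (wle_V P.hT pf.geod).contDiffAt (isOpen_Ioo.mem_nhds hmem)
    have hVs : ContDiffAt ℝ 1 (fun x : E n => pf.V (-Real.log ‖x - R.x₀‖)) x :=
      ContDiffAt.comp x hV hs
    have hcw : ContDiffAt ℝ 1 pf.cw x :=
      ((wle_cw_smooth pf).of_le (by simp)).contDiffAt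
    exact hcw.smul (hψ.smul hVs)
  · refine (contDiffAt_const (c := (0 : E m))).congr_of_eventuallyEq ?_
    filter_upwards [wle_cw_zero pf x hx] with y hy
    unfold wY
    rw [hy, zero_smul]

theorem wle_alpha {n m : ℕ} {P : Par n m} {D : Dyn P} {R : RC D} {Cp : ℝ} {α β : ℕ}
    (pf : Pf R Cp α β) : 1 ≤ α := by
  have h1 := (rc_num R).2.2.2.2.2.1
  have h2 := pf.ge
  omega

theorem wle_cw_ball {n m : ℕ} {P : Par n m} {D : Dyn P} {R : RC D} {Cp : ℝ} {α β : ℕ}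
    (pf : Pf R Cp α β) (x : E n) (hx : pf.cw x ≠ 0) : x ∈ closedBall (0 : E n) 3 := by
  have h1 := ((chi_win P R.x₀ α β pf.lt).2.1 x hx).2
  have h2 := wps_p2_one α
  have h3 : 2 / p2 α ≤ 2 := by
    rw [div_le_iff₀ (by linarith)]
    linarith
  rw [mem_closedBall_zero_iff]
  have h4 : ‖x‖ ≤ ‖x - R.x₀‖ + ‖R.x₀‖ := by
    have := norm_add_le (x - R.x₀) R.x₀
    rwa [sub_add_cancel] at this
  have := R.hx
  linarith

theorem wle_Y_supp {n m : ℕ} {P : Par n m} {D : Dyn P} {R : RC D} {Cp : ℝ} {α β : ℕ}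
    (pf : Pf R Cp α β) (i : Fin n) : HasCompactSupport (wY pf i) ∧
      tsupport (wY pf i) ⊆ ball (0 : E n) 64 := by
  have h0 : ∀ x, x ∉ closedBall (0 : E n) 3 → wY pf i x = 0 := by
    intro x hx
    unfold wY
    by_cases hc : pf.cw x = 0
    · rw [hc, zero_smul]
    · exact absurd (wle_cw_ball pf x hc) hx
  refine ⟨HasCompactSupport.intro (isCompact_closedBall _ _) h0, ?_⟩
  have h1 : tsupport (wY pf i) ⊆ closedBall (0 : E n) 3 := by
    refine closure_minimal ?_ isClosed_closedBall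
    intro x hx
    by_contra hc
    exact hx (h0 x hc)
  exact h1.trans (closedBall_subset_ball (by norm_num))

/-- the directional derivative of the field -/
theorem wle_Y_der {n m : ℕ} {P : Par n m} {D : Dyn P} {R : RC D} {Cp : ℝ} {α β : ℕ}
    (pf : Pf R Cp α β) (i : Fin n) (x : E n)
    (hx : 1 / (4 * p2 β) < ‖x - R.x₀‖ ∧ ‖x - R.x₀‖ < 8 / p2 α) :
    fderiv ℝ (wY pf i) x (ev i) =
      pf.cw x • (wpsi R.x₀ (pf.a ^ (n - 2)) i x •
          ((-(inner ℝ (x - R.x₀) (ev i) / ‖x - R.x₀‖ / ‖x - R.x₀‖)) •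
            D2 P.π (pf.lam x) (pf.V (-Real.log ‖x - R.x₀‖)) (pf.V (-Real.log ‖x - R.x₀‖))) +
        (-(pf.a ^ (n - 2) * (1 / ‖x - R.x₀‖ ^ n -
          n * inner ℝ (x - R.x₀) (ev i) ^ 2 / ‖x - R.x₀‖ ^ (n + 2)))) •
          pf.V (-Real.log ‖x - R.x₀‖)) +
      fderiv ℝ pf.cw x (ev i) •
        (wpsi R.x₀ (pf.a ^ (n - 2)) i x • pf.V (-Real.log ‖x - R.x₀‖)) := by
  have hn := P.hn
  have hne : x - R.x₀ ≠ 0 := wle_sub hx.1
  have hr : ‖x - R.x₀‖ ≠ 0 := norm_ne_zero_iff.2 hne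
  have hmem := wle_time pf x hx.1 hx.2
  have hline : HasDerivAt (fun t : ℝ => x + t • (ev i : E n)) (ev i) 0 := by
    have := ((hasDerivAt_id (0 : ℝ)).smul_const (ev i : E n)).const_add x
    simpa using this
  have hl0 : x + (0 : ℝ) • (ev i : E n) = x := by rw [zero_smul, add_zero]
  have hcw : HasDerivAt (fun t : ℝ => pf.cw (x + t • ev i)) (fderiv ℝ pf.cw x (ev i)) 0 :=
    HasFDerivAt.comp_hasDerivAt_of_eq 0
      (((wle_cw_smooth pf).differentiable (by simp)) x).hasFDerivAt hline hl0.symm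
  have hψ := wle_psi (by omega) x R.x₀ (pf.a ^ (n - 2)) i hne
  have hlog : HasDerivAt (fun t : ℝ => -Real.log ‖x + t • ev i - R.x₀‖)
      (-(inner ℝ (x - R.x₀) (ev i) / ‖x - R.x₀‖ / ‖x - R.x₀‖)) 0 := by
    have h1 := ((wle_norm x R.x₀ (ev i) hne).log (by rw [zero_smul, add_zero]; exact hr)).neg
    rwa [zero_smul, add_zero] at h1
  have hV : HasDerivAt (fun t : ℝ => pf.V (-Real.log ‖x + t • ev i - R.x₀‖))
      ((-(inner ℝ (x - R.x₀) (ev i) / ‖x - R.x₀‖ / ‖x - R.x₀‖)) •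
            D2 P.π (pf.lam x) (pf.V (-Real.log ‖x - R.x₀‖)) (pf.V (-Real.log ‖x - R.x₀‖))) 0 := by
    have h1 := pf.geod.der2 _ (Ioo_subset_Icc_self hmem)
    rw [← pf.lam_eq x hx.1.le hx.2.le] at h1
    exact HasDerivAt.scomp_of_eq (0 : ℝ) h1 hlog (by rw [zero_smul, add_zero])
  have hY : HasDerivAt (fun t : ℝ => wY pf i (x + t • ev i)) (fderiv ℝ (wY pf i) x (ev i)) 0 :=
    HasFDerivAt.comp_hasDerivAt_of_eq 0
      (((wle_Y_C1 pf i).differentiable one_ne_zero) x).hasFDerivAt hline hl0.symm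
  have hprod := hcw.smul (hψ.smul hV)
  have := hY.unique hprod
  rw [this]
  simp only [zero_smul, add_zero, Pi.smul_apply']

/-- the value of the field in terms of `Lam` -/
theorem wle_Lam {n m : ℕ} {P : Par n m} {D : Dyn P} {R : RC D} {Cp : ℝ} {α β : ℕ}
    (pf : Pf R Cp α β) (i : Fin n) (x : E n)
    (hx : 1 / (4 * p2 β) < ‖x - R.x₀‖ ∧ ‖x - R.x₀‖ < 8 / p2 α) :
    wpsi R.x₀ (pf.a ^ (n - 2)) i x • pf.V (-Real.log ‖x - R.x₀‖) =
      pf.fl x ^ (n - 2) • pf.Lam x i := by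
  have hn := P.hn
  have hne : x - R.x₀ ≠ 0 := wle_sub hx.1
  have hr : ‖x - R.x₀‖ ≠ 0 := norm_ne_zero_iff.2 hne
  rw [(pf_lam pf x hx.1.le hx.2.le).1]
  unfold Pf.Lam
  rw [pf.lam_der x hx.1.le hx.2.le, smul_smul]
  congr 1
  unfold wpsi
  obtain ⟨k, rfl⟩ : ∃ k, n = k + 2 := ⟨n - 2, by omega⟩
  simp only [Nat.add_sub_cancel]
  rw [div_pow]
  field_simp
  ring

theorem wle_sum_sq {n : ℕ} (y : E n) : ∑ i : Fin n, inner ℝ y (ev i) ^ 2 = ‖y‖ ^ 2 := by
  rw [EuclideanSpace.norm_sq_eq]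
  refine Finset.sum_congr rfl fun i _ => ?_
  unfold ev
  rw [EuclideanSpace.inner_single_right]
  simp

/-- the divergence of the field -/
theorem wle_div {n m : ℕ} {P : Par n m} {D : Dyn P} {R : RC D} {Cp : ℝ} {α β : ℕ}
    (pf : Pf R Cp α β) (x : E n)
    (hx : 1 / (4 * p2 β) < ‖x - R.x₀‖ ∧ ‖x - R.x₀‖ < 8 / p2 α) (w : E m) :
    ∑ i, inner ℝ (fderiv ℝ (wY pf i) x (ev i)) w =
      (pf.fl x ^ (n - 2) * ∑ i, inner ℝ (pf.Lam x i) w * fderiv ℝ pf.cw x (ev i)) +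
      pf.cw x * (pf.a ^ (n - 2) / ‖x - R.x₀‖ ^ n *
        inner ℝ (D2 P.π (pf.lam x) (pf.V (-Real.log ‖x - R.x₀‖))
          (pf.V (-Real.log ‖x - R.x₀‖))) w) := by
  have hn := P.hn
  have hne : x - R.x₀ ≠ 0 := wle_sub hx.1
  have hr : ‖x - R.x₀‖ ≠ 0 := norm_ne_zero_iff.2 hne
  set r := ‖x - R.x₀‖ with hrdef
  set A := pf.a ^ (n - 2) with hA
  set Vs := pf.V (-Real.log r) with hVs
  set DD := D2 P.π (pf.lam x) Vs Vs with hDD
  have hterm : ∀ i, inner ℝ (fderiv ℝ (wY pf i) x (ev i)) w =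
      pf.fl x ^ (n - 2) * (inner ℝ (pf.Lam x i) w * fderiv ℝ pf.cw x (ev i)) +
      (pf.cw x * (A / r ^ (n + 2)) * inner ℝ DD w) * inner ℝ (x - R.x₀) (ev i) ^ 2 +
      (-(pf.cw x * A * inner ℝ Vs w)) *
        (1 / r ^ n - n / r ^ (n + 2) * inner ℝ (x - R.x₀) (ev i) ^ 2) := by
    intro i
    rw [wle_Y_der pf i x hx, wle_Lam pf i x hx, ← hrdef, ← hVs, ← hDD, ← hA]
    rw [inner_add_left, inner_smul_left, inner_add_left, inner_smul_left, inner_smul_left,
      inner_smul_left, inner_smul_left, inner_smul_left]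
    simp only [conj_trivial]
    unfold wpsi
    rw [← hrdef]
    have h1 : r ^ (n + 2) = r ^ n * (r * r) := by ring
    rw [h1]
    field_simp
    ring
  rw [Finset.sum_congr rfl fun i _ => hterm i, Finset.sum_add_distrib, Finset.sum_add_distrib,
    ← Finset.mul_sum, ← Finset.mul_sum, ← Finset.mul_sum, Finset.sum_sub_distrib,
    ← Finset.mul_sum, wle_sum_sq, ← hrdef, Finset.sum_const, Finset.card_univ, Fintype.card_fin,
    nsmul_eq_mul]
  have h1 : r ^ (n + 2) = r ^ n * (r * r) := by ring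
  rw [h1]
  field_simp
  ring

theorem w_leE {n m : ℕ} (P : Par n m) (Cp : ℝ) (hCp : 1 ≤ Cp) : ∃ C : ℝ, 1 ≤ C ∧
    ∀ (D : Dyn P) (R : RC D) (α β : ℕ) (pf : Pf R Cp α β), α + 2 ≤ β → MeasurableSet R.S →
      Integrable (fun x => pf.cw x * (pf.fl x ^ n * ‖pf.v x‖ ^ 2)) ∧
      |(∫ x, pf.cw x * (pf.fl x ^ (n - 2) * ∑ i, inner ℝ (pf.Lam x i) (pf.g x i))) +
        ∫ x, pf.fl x ^ (n - 2) * ∑ i, inner ℝ (pf.Lam x i) (pf.v x) * fderiv ℝ pf.cw x (ev i)| ≤
        C * ∫ x, pf.cw x * (pf.fl x ^ n * ‖pf.v x‖ ^ 2) := by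
  obtain ⟨Cc, hCc, hch1, hch2⟩ := chord P.hT
  have hn := P.hn
  have hCT : 1 ≤ P.CT := P.hT.one_le
  have hT := P.hT
  refine ⟨Cc * P.CT, by nlinarith, ?_⟩
  intro D R α β pf hαβ hS
  obtain ⟨-, -, -, -, -, hI6, -, hI8, -, hI10⟩ := w_int pf hαβ hS
  obtain ⟨hVG, hvm, hlc, hLc, hflc, -, hfl0, -, -⟩ := pf_vg pf
  have hcw0 : ∀ x, 0 ≤ pf.cw x := fun x => ((chi_win P R.x₀ α β pf.lt).1 x).1
  have hcwc : Continuous pf.cw := (wle_cw_smooth pf).continuous
  have hgn0 : ∀ x, 0 ≤ gn (pf.g x) := fun x => Real.sqrt_nonneg _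
  -- integrability of the bound
  have hI : Integrable (fun x => pf.cw x * (pf.fl x ^ n * ‖pf.v x‖ ^ 2)) := by
    refine hI6.mono ?_ (Eventually.of_forall fun x => ?_)
    · exact (hcwc.measurable.mul ((hflc.measurable.pow_const n).mul
        (hvm.norm.pow_const 2))).aestronglyMeasurable
    · have h1 : 0 ≤ pf.fl x ^ n := pow_nonneg (hfl0 x) n
      have h2 : 0 ≤ gn (pf.g x) ^ n := pow_nonneg (hgn0 x) n
      rw [Real.norm_of_nonneg (mul_nonneg (hcw0 x) (mul_nonneg h1 (sq_nonneg _))),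
        Real.norm_of_nonneg (mul_nonneg (hcw0 x) (mul_nonneg (add_nonneg h2 h1) (sq_nonneg _)))]
      refine mul_le_mul_of_nonneg_left (mul_le_mul_of_nonneg_right ?_ (sq_nonneg _)) (hcw0 x)
      linarith
  refine ⟨hI, ?_⟩
  -- the divergence
  have hYg : ∀ x, ∑ i, inner ℝ (wY pf i x) (pf.g x i) =
      pf.cw x * (pf.fl x ^ (n - 2) * ∑ i, inner ℝ (pf.Lam x i) (pf.g x i)) := by
    intro x
    by_cases hx : 1 / (4 * p2 β) < ‖x - R.x₀‖ ∧ ‖x - R.x₀‖ < 8 / p2 α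
    · rw [Finset.mul_sum, Finset.mul_sum]
      refine Finset.sum_congr rfl fun i _ => ?_
      unfold wY
      rw [wle_Lam pf i x hx, inner_smul_left, inner_smul_left]
      simp
    · have h0 : pf.cw x = 0 := (wle_cw_zero pf x hx).self_of_nhds
      rw [h0, zero_mul]
      refine Finset.sum_eq_zero fun i _ => ?_
      unfold wY
      rw [h0, zero_smul, inner_zero_left]
  have hdiv : ∀ᵐ x, |(∑ i, inner ℝ (fderiv ℝ (wY pf i) x (ev i)) (pf.v x)) -
      pf.fl x ^ (n - 2) * ∑ i, inner ℝ (pf.Lam x i) (pf.v x) * fderiv ℝ pf.cw x (ev i)| ≤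
      Cc * P.CT * (pf.cw x * (pf.fl x ^ n * ‖pf.v x‖ ^ 2)) := by
    filter_upwards [(dyn_ae D).1] with x hx2
    by_cases hx : 1 / (4 * p2 β) < ‖x - R.x₀‖ ∧ ‖x - R.x₀‖ < 8 / p2 α
    · rw [wle_div pf x hx, add_sub_cancel_left]
      by_cases hc : pf.cw x = 0
      · rw [hc]; simp
      have hx3 := wle_cw_ball pf x hc
      rw [mem_closedBall_zero_iff] at hx3
      have hxb : x ∈ ball (0 : E n) 64 := by rw [mem_ball_zero_iff]; linarith
      obtain ⟨huN, -⟩ := hx2 hxb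
      have hveq := (pf_in pf x (by linarith)).1
      have hmem := Ioo_subset_Icc_self (wle_time pf x hx.1 hx.2)
      have htan := pf.geod.tan _ hmem
      rw [← pf.lam_eq x hx.1.le hx.2.le] at htan
      have hsp := pf.geod.speed _ hmem
      set Vs := pf.V (-Real.log ‖x - R.x₀‖) with hVs
      have hnor := d2_normal hT (pf.lam x) (pf.lam_mem x) Vs Vs htan htan
      have h4 := hch2 (pf.lam x) (pf.lam_mem x) (D.u x) huN _ hnor
      rw [← hveq] at h4
      have h4δ : infDist (pf.lam x) P.N < 4 * P.δ := by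
        rw [infDist_zero_of_mem (pf.lam_mem x)]
        linarith [hT.pos]
      have h6 : ‖D2 P.π (pf.lam x) Vs Vs‖ ≤ P.CT * pf.a * pf.a := by
        refine ((D2 P.π (pf.lam x)).le_opNorm₂ _ _).trans ?_
        have := hT.bd2 (pf.lam x) h4δ
        rw [hsp]
        have ha := pf.a_nonneg
        gcongr
      have hr : 0 < ‖x - R.x₀‖ := by
        have := wps_p2_pos β
        exact lt_trans (by positivity) hx.1
      have ha := pf.a_nonneg
      have hfl : pf.fl x = pf.a / ‖x - R.x₀‖ := (pf_lam pf x hx.1.le hx.2.le).1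
      have hA : 0 ≤ pf.a ^ (n - 2) / ‖x - R.x₀‖ ^ n := by positivity
      rw [abs_mul, abs_of_nonneg (hcw0 x), abs_mul, abs_of_nonneg hA]
      have h7 : |inner ℝ (D2 P.π (pf.lam x) Vs Vs) (pf.v x)| ≤
          Cc * (P.CT * pf.a * pf.a) * ‖pf.v x‖ ^ 2 := by
        refine h4.trans ?_
        gcongr
      have h8 : pf.a ^ (n - 2) / ‖x - R.x₀‖ ^ n * (Cc * (P.CT * pf.a * pf.a) * ‖pf.v x‖ ^ 2) =
          Cc * P.CT * (pf.fl x ^ n * ‖pf.v x‖ ^ 2) := by
        have e1 : pf.a ^ n = pf.a ^ (n - 2) * (pf.a * pf.a) := by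
          rw [← pow_two, ← pow_add]; congr 1; omega
        rw [hfl, div_pow, e1]
        ring
      calc pf.cw x * (pf.a ^ (n - 2) / ‖x - R.x₀‖ ^ n *
            |inner ℝ (D2 P.π (pf.lam x) Vs Vs) (pf.v x)|)
          ≤ pf.cw x * (pf.a ^ (n - 2) / ‖x - R.x₀‖ ^ n *
            (Cc * (P.CT * pf.a * pf.a) * ‖pf.v x‖ ^ 2)) :=
            mul_le_mul_of_nonneg_left (mul_le_mul_of_nonneg_left h7 hA) (hcw0 x)
        _ = _ := by rw [h8]; ring
    · have h0 := wle_cw_zero pf x hx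
      have h1 : pf.cw x = 0 := h0.self_of_nhds
      have h2 : fderiv ℝ pf.cw x = 0 := by
        have h3 : pf.cw =ᶠ[𝓝 x] fun _ => (0 : ℝ) := h0
        rw [h3.fderiv_eq]
        exact fderiv_const_apply 0
      have h3 : ∀ i, fderiv ℝ (wY pf i) x = 0 := by
        intro i
        have h4 : wY pf i =ᶠ[𝓝 x] fun _ => (0 : E m) := by
          filter_upwards [h0] with y hy
          unfold wY
          rw [hy, zero_smul]
        rw [h4.fderiv_eq]
        exact fderiv_const_apply 0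
      simp [h1, h2, h3]
  -- integration by parts
  have hball : ∀ i, ∫ x in ball (0 : E n) 64, inner ℝ (fderiv ℝ (wY pf i) x (ev i)) (pf.v x) =
      - ∫ x in ball (0 : E n) 64, inner ℝ (wY pf i x) (pf.g x i) := fun i =>
    wg_C1 (by omega) hVG.wg (wY pf i) (wle_Y_C1 pf i) (wle_Y_supp pf i).1 (wle_Y_supp pf i).2 i
  have hfull : ∀ i, ∫ x, inner ℝ (fderiv ℝ (wY pf i) x (ev i)) (pf.v x) =
      - ∫ x, inner ℝ (wY pf i x) (pf.g x i) := by
    intro i
    have e1 := setIntegral_eq_integral_of_forall_compl_eq_zero (μ := (volume : Measure (E n)))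
      (s := ball (0 : E n) 64) (f := fun x => inner ℝ (fderiv ℝ (wY pf i) x (ev i)) (pf.v x))
      (fun x hx => by rw [hVG.out_v x hx, inner_zero_right])
    have e2 := setIntegral_eq_integral_of_forall_compl_eq_zero (μ := (volume : Measure (E n)))
      (s := ball (0 : E n) 64) (f := fun x => inner ℝ (wY pf i x) (pf.g x i))
      (fun x hx => by rw [hVG.out_g x hx i, inner_zero_right])
    rw [← e1, ← e2]
    exact hball i
  have hvi : Integrable pf.v := hVG.int_v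
  have hgi : ∀ i, Integrable (fun x => pf.g x i) := fun i =>
    hVG.int_g.mono' (hVG.meas_g i).aestronglyMeasurable
      (Eventually.of_forall fun x => wps_gn (pf.g x) i)
  have hi1 : ∀ i ∈ (Finset.univ : Finset (Fin n)),
      Integrable (fun x => inner ℝ (fderiv ℝ (wY pf i) x (ev i)) (pf.v x)) := by
    intro i _
    have hdc : Continuous (fun x => fderiv ℝ (wY pf i) x (ev i)) :=
      ((wle_Y_C1 pf i).continuous_fderiv one_ne_zero).clm_apply continuous_const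
    have hcc : HasCompactSupport (fun x => fderiv ℝ (wY pf i) x (ev i)) :=
      ((wle_Y_supp pf i).1.fderiv ℝ).comp_left (g := fun T : E n →L[ℝ] E m => T (ev i)) rfl
    obtain ⟨B, hB⟩ := hcc.exists_bound_of_continuous hdc
    refine (hvi.norm.const_mul B).mono'
      (hdc.aestronglyMeasurable.inner hvi.aestronglyMeasurable) (Eventually.of_forall fun x => ?_)
    rw [Real.norm_eq_abs]
    exact (abs_real_inner_le_norm _ _).trans
      (mul_le_mul_of_nonneg_right (hB x) (norm_nonneg _))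
  have hi2 : ∀ i ∈ (Finset.univ : Finset (Fin n)),
      Integrable (fun x => inner ℝ (wY pf i x) (pf.g x i)) := by
    intro i _
    have hdc : Continuous (wY pf i) := (wle_Y_C1 pf i).continuous
    obtain ⟨B, hB⟩ := (wle_Y_supp pf i).1.exists_bound_of_continuous hdc
    refine ((hgi i).norm.const_mul B).mono'
      (hdc.aestronglyMeasurable.inner (hgi i).aestronglyMeasurable)
      (Eventually.of_forall fun x => ?_)
    rw [Real.norm_eq_abs]
    exact (abs_real_inner_le_norm _ _).trans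
      (mul_le_mul_of_nonneg_right (hB x) (norm_nonneg _))
  have hsum : ∫ x, ∑ i, inner ℝ (fderiv ℝ (wY pf i) x (ev i)) (pf.v x) =
      - ∫ x, pf.cw x * (pf.fl x ^ (n - 2) * ∑ i, inner ℝ (pf.Lam x i) (pf.g x i)) := by
    rw [integral_finsetSum _ hi1, Finset.sum_congr rfl fun i _ => hfull i,
      Finset.sum_neg_distrib, ← integral_finsetSum _ hi2]
    congr 1
    exact integral_congr_ae (Eventually.of_forall fun x => hYg x)
  have hi3 : Integrable (fun x => ∑ i, inner ℝ (fderiv ℝ (wY pf i) x (ev i)) (pf.v x)) :=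
    integrable_finsetSum _ hi1
  have hsub := integral_sub hi3 hI10
  have hfin : ‖∫ x, ((∑ i, inner ℝ (fderiv ℝ (wY pf i) x (ev i)) (pf.v x)) -
      pf.fl x ^ (n - 2) * ∑ i, inner ℝ (pf.Lam x i) (pf.v x) * fderiv ℝ pf.cw x (ev i))‖ ≤
      ∫ x, Cc * P.CT * (pf.cw x * (pf.fl x ^ n * ‖pf.v x‖ ^ 2)) :=
    norm_integral_le_of_norm_le (hI.const_mul _) hdiv
  rw [hsub, hsum, integral_const_mul, Real.norm_eq_abs] at hfin
  rw [← abs_neg]
  refine le_trans (le_of_eq ?_) hfin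
  congr 1
  ring

end H60NT
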