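import Pool.Agent.H60.NT.Def3
import Pool.Agent.H60.NT.Lat
import Pool.Agent.H60.NT.PfB
import Pool.Agent.H60.NT.ChiF

/-!
# [H60 NT WPTA] Pointwise discretization, first term

`x` in the annulus, `‖x‖ ≤ 3`. Terms with `Th_j x * psi x ≠ 0`: `1/(2 p2 j) < ‖x - x₀‖ < 2/p2 j` (`th_facts`) and
`‖x - z_c‖ < 2^n/p2 (j+T+n) = 1/p2 (j+T) = (1/2)^T/p2 j` (`psi_facts`); the segment from `x` to `z_c` stays in the annulus of
`pf_lam`, where `‖D lam‖ ≤ a/‖· - x₀‖ ≤ 4 a p2 j`; so `‖lam z_c - lam x‖ ≤ 4 a (1/2)^T`. `Geo.lipy`,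
`∑_z psi = 1` (`psi_sum`), `∑_j Th_j = χ ≤ 1` (`th_sum`, `chi_win`).
-/

set_option autoImplicit false

namespace H60NT

open H60NH MeasureTheory Metric Set Filter Topology
open scoped ENNReal NNReal ContDiff

private theorem ptA_lip {n m : ℕ} {P : Par n m} {D : Dyn P} {R : RC D} {Cp : ℝ} {α β : ℕ} (pf : Pf R Cp α β) (x : E n)
    (h1 : 1 / p2 β ≤ ‖x - R.x₀‖) (h2 : ‖x - R.x₀‖ ≤ 2 / p2 α) (hr : 0 < ‖x - R.x₀‖) (w : E n)
    (hw : ‖w - x‖ < ‖x - R.x₀‖ / 4) : ‖pf.lam w - pf.lam x‖ ≤ 2 * pf.a / ‖x - R.x₀‖ * ‖w - x‖ := by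
  obtain ⟨r, hrd⟩ : ∃ r, r = ‖x - R.x₀‖ := ⟨_, rfl⟩
  rw [← hrd] at h1 h2 hr hw ⊢
  have hpβ : 0 < p2 β := by unfold p2; positivity
  have hpα : 0 < p2 α := by unfold p2; positivity
  have ha0 := pf.a_nonneg
  have hder : ∀ v : E n, ‖v - x‖ < r / 4 → ‖fderiv ℝ pf.lam v‖ ≤ 2 * pf.a / r := by
    intro v hv
    have e1 : r ≤ ‖v - R.x₀‖ + ‖v - x‖ := by
      rw [hrd]
      calc ‖x - R.x₀‖ = ‖(v - R.x₀) - (v - x)‖ := by congr 1; abel
        _ ≤ _ := norm_sub_le _ _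
    have e2 : ‖v - R.x₀‖ ≤ r + ‖v - x‖ := by
      rw [hrd]
      calc ‖v - R.x₀‖ = ‖(x - R.x₀) + (v - x)‖ := by congr 1; abel
        _ ≤ _ := norm_add_le _ _
    have e3 : 1 / (4 * p2 β) ≤ ‖v - R.x₀‖ := by
      have : 1 / (4 * p2 β) = (1 / p2 β) / 4 := by field_simp
      rw [this]
      linarith
    have e4 : ‖v - R.x₀‖ ≤ 8 / p2 α := by
      have : 8 / p2 α = 4 * (2 / p2 α) := by ring
      rw [this]
      linarith
    refine (pf_lam pf v e3 e4).2.trans ?_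
    rw [div_le_div_iff₀ (by linarith) hr]
    nlinarith
  have hconv : Convex ℝ (ball x (r / 4)) := convex_ball x _
  exact hconv.norm_image_sub_le_of_norm_fderiv_le
    (fun u _ => (pf.lam_c1.differentiable (by simp)) u)
    (fun u hu => hder u (by rwa [mem_ball, dist_eq_norm] at hu)) (mem_ball_self (by linarith))
    (by rwa [mem_ball, dist_eq_norm])

theorem w_ptA {n m : ℕ} (P : Par n m) (Cp : ℝ) (hCp : 1 ≤ Cp) : ∃ C : ℝ, 1 ≤ C ∧
    ∀ (D : Dyn P) (R : RC D) (α β : ℕ) (pf : Pf R Cp α β) (x : E n), 1 / p2 β ≤ ‖x - R.x₀‖ →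
      ‖x - R.x₀‖ ≤ 2 / p2 α → ∀ y a : E m,
      |(∑ j ∈ Finset.Ico α β, ∑ z ∈ box n (j + R.T + n),
          P.Th R.x₀ j x * P.psi (j + R.T + n) z x *
            inner ℝ a (fderiv ℝ (P.F (pf.lam (zc (j + R.T + n) z))) y a)) -
        pf.cw x * inner ℝ a (fderiv ℝ (P.F (pf.lam x)) y a)| ≤
        C * (pf.a * (1 / 2) ^ R.T) * ‖a‖ ^ 2 := by
  have hCG := P.hG.one_le
  refine ⟨4 * P.CG, by linarith, ?_⟩
  intro D R α β pf x h1 h2 y a
  have hpβ : 0 < p2 β := by unfold p2; positivity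
  have hpα : 1 ≤ p2 α := by unfold p2; exact one_le_pow₀ (by norm_num)
  have hr : 0 < ‖x - R.x₀‖ := lt_of_lt_of_le (by positivity) h1
  have ha0 := pf.a_nonneg
  have hCG0 : 0 ≤ P.CG := by linarith
  have hx4 : x ∈ ball (0 : E n) 4 := by
    rw [mem_ball, dist_zero_right]
    have e1 : ‖x‖ ≤ ‖R.x₀‖ + ‖x - R.x₀‖ := by
      calc ‖x‖ = ‖R.x₀ + (x - R.x₀)‖ := by congr 1; abel
        _ ≤ _ := norm_add_le _ _
    have e2 : 2 / p2 α ≤ 2 := by
      rw [div_le_iff₀ (by linarith)]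
      linarith
    have := R.hx
    linarith
  obtain ⟨Q, hQ⟩ : ∃ Q : E n → ℝ, Q = fun w => inner ℝ a (fderiv ℝ (P.F (pf.lam w)) y a) := ⟨_, rfl⟩
  have hαβ : α ≤ β := pf.lt.le
  have hcwx : pf.cw x = ∑ j ∈ Finset.Ico α β, P.Th R.x₀ j x := by
    rw [th_sum P R.x₀ α β hαβ x]
    rfl
  have hTT : ((1 : ℝ) / 2) ^ R.T ≤ (1 / 2) ^ 20 := pow_le_pow_of_le_one (by norm_num) (by norm_num) R.T3
  have hT0 : (0 : ℝ) < (1 / 2) ^ R.T := by positivity
  -- the difference of the values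
  have hval : ∀ j z, P.Th R.x₀ j x ≠ 0 → P.psi (j + R.T + n) z x ≠ 0 →
      |Q (zc (j + R.T + n) z) - Q x| ≤ 4 * P.CG * (pf.a * (1 / 2) ^ R.T) * ‖a‖ ^ 2 := by
    intro j z hj hz
    obtain ⟨g1, g2⟩ := (th_facts P R.x₀ j).2.2.1 x hj
    have hpj : 0 < p2 j := by unfold p2; positivity
    have hpT : 0 < p2 R.T := by unfold p2; positivity
    have hT2 : (1 : ℝ) / p2 R.T = (1 / 2) ^ R.T := by
      unfold p2
      rw [one_div, one_div, inv_pow]
    have hs : p2 (j + R.T + n) = p2 j * p2 R.T * 2 ^ n := by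
      unfold p2
      rw [pow_add, pow_add]
    have hj1 : 1 / p2 j < 2 * ‖x - R.x₀‖ := by
      have : 1 / (2 * p2 j) = (1 / p2 j) / 2 := by field_simp
      rw [this] at g1
      linarith
    have hrad : 2 ^ n / p2 (j + R.T + n) = (1 / 2) ^ R.T * (1 / p2 j) := by
      rw [hs, ← hT2]
      field_simp
    have hw := (psi_facts P (j + R.T + n) z).2.2.1 x hz
    rw [hrad, norm_sub_rev] at hw
    have hw2 : ‖zc (j + R.T + n) z - x‖ ≤ (1 / 2) ^ R.T * (2 * ‖x - R.x₀‖) :=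
      hw.le.trans (mul_le_mul_of_nonneg_left hj1.le hT0.le)
    have hw3 : ‖zc (j + R.T + n) z - x‖ < ‖x - R.x₀‖ / 4 := by
      refine lt_of_le_of_lt hw2 ?_
      calc (1 / 2 : ℝ) ^ R.T * (2 * ‖x - R.x₀‖) ≤ (1 / 2) ^ 20 * (2 * ‖x - R.x₀‖) :=
            mul_le_mul_of_nonneg_right hTT (by positivity)
        _ < ‖x - R.x₀‖ / 4 := by
          norm_num
          linarith
    have hl := ptA_lip pf x h1 h2 hr _ hw3
    have hl2 : ‖pf.lam (zc (j + R.T + n) z) - pf.lam x‖ ≤ 4 * (pf.a * (1 / 2) ^ R.T) := by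
      refine hl.trans ?_
      calc 2 * pf.a / ‖x - R.x₀‖ * ‖zc (j + R.T + n) z - x‖ ≤ 2 * pf.a / ‖x - R.x₀‖ * ((1 / 2) ^ R.T * (2 * ‖x - R.x₀‖)) :=
            mul_le_mul_of_nonneg_left hw2 (by positivity)
        _ = 4 * (pf.a * (1 / 2) ^ R.T) := by
          field_simp
          ring
    have hF := P.hG.lipy (pf.lam (zc (j + R.T + n) z)) (pf.lam x) y y
    rw [sub_self, norm_zero, add_zero] at hF
    rw [hQ]
    simp only
    rw [← inner_sub_right, ← ContinuousLinearMap.sub_apply]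
    refine (abs_real_inner_le_norm _ _).trans ?_
    have hop := ContinuousLinearMap.le_opNorm (fderiv ℝ (P.F (pf.lam (zc (j + R.T + n) z))) y - fderiv ℝ (P.F (pf.lam x)) y) a
    calc ‖a‖ * ‖(fderiv ℝ (P.F (pf.lam (zc (j + R.T + n) z))) y - fderiv ℝ (P.F (pf.lam x)) y) a‖
        ≤ ‖a‖ * ((P.CG * (4 * (pf.a * (1 / 2) ^ R.T))) * ‖a‖) := by
          apply mul_le_mul_of_nonneg_left _ (norm_nonneg _)
          refine hop.trans (mul_le_mul_of_nonneg_right ?_ (norm_nonneg _))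
          exact hF.trans (mul_le_mul_of_nonneg_left hl2 hCG0)
      _ = 4 * P.CG * (pf.a * (1 / 2) ^ R.T) * ‖a‖ ^ 2 := by ring
  -- the sum
  obtain ⟨K, hK⟩ : ∃ K : ℝ, K = 4 * P.CG * (pf.a * (1 / 2) ^ R.T) * ‖a‖ ^ 2 := ⟨_, rfl⟩
  have hK0 : 0 ≤ K := by
    rw [hK]
    positivity
  have hdiff : (∑ j ∈ Finset.Ico α β, ∑ z ∈ box n (j + R.T + n),
          P.Th R.x₀ j x * P.psi (j + R.T + n) z x * Q (zc (j + R.T + n) z)) - pf.cw x * Q x =
      ∑ j ∈ Finset.Ico α β, ∑ z ∈ box n (j + R.T + n),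
          P.Th R.x₀ j x * P.psi (j + R.T + n) z x * (Q (zc (j + R.T + n) z) - Q x) := by
    rw [hcwx, Finset.sum_mul, ← Finset.sum_sub_distrib]
    refine Finset.sum_congr rfl fun j _ => ?_
    have e1 : P.Th R.x₀ j x * Q x = ∑ z ∈ box n (j + R.T + n), P.Th R.x₀ j x * P.psi (j + R.T + n) z x * Q x := by
      rw [← Finset.sum_mul, ← Finset.mul_sum, (psi_sum P (j + R.T + n) x hx4).1, mul_one]
    rw [e1, ← Finset.sum_sub_distrib]
    refine Finset.sum_congr rfl fun z _ => ?_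
    ring
  have hgoal : (∑ j ∈ Finset.Ico α β, ∑ z ∈ box n (j + R.T + n),
          P.Th R.x₀ j x * P.psi (j + R.T + n) z x *
            inner ℝ a (fderiv ℝ (P.F (pf.lam (zc (j + R.T + n) z))) y a)) -
        pf.cw x * inner ℝ a (fderiv ℝ (P.F (pf.lam x)) y a) =
      (∑ j ∈ Finset.Ico α β, ∑ z ∈ box n (j + R.T + n),
          P.Th R.x₀ j x * P.psi (j + R.T + n) z x * Q (zc (j + R.T + n) z)) - pf.cw x * Q x := by
    rw [hQ]
  rw [hgoal, hdiff, ← hK]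
  refine (Finset.abs_sum_le_sum_abs _ _).trans ?_
  have hterm : ∀ j ∈ Finset.Ico α β, |∑ z ∈ box n (j + R.T + n),
          P.Th R.x₀ j x * P.psi (j + R.T + n) z x * (Q (zc (j + R.T + n) z) - Q x)| ≤ P.Th R.x₀ j x * K := by
    intro j _
    refine (Finset.abs_sum_le_sum_abs _ _).trans ?_
    have hT := ((th_facts P R.x₀ j).2.1 x).1
    calc ∑ z ∈ box n (j + R.T + n), |P.Th R.x₀ j x * P.psi (j + R.T + n) z x * (Q (zc (j + R.T + n) z) - Q x)|
        ≤ ∑ z ∈ box n (j + R.T + n), P.Th R.x₀ j x * P.psi (j + R.T + n) z x * K := by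
          refine Finset.sum_le_sum fun z _ => ?_
          have hp := ((psi_facts P (j + R.T + n) z).2.1 x).1
          rw [abs_mul, abs_of_nonneg (mul_nonneg hT hp)]
          by_cases hz : P.Th R.x₀ j x * P.psi (j + R.T + n) z x = 0
          · rw [hz, zero_mul, zero_mul]
          · apply mul_le_mul_of_nonneg_left _ (mul_nonneg hT hp)
            rw [hK]
            exact hval j z (left_ne_zero_of_mul hz) (right_ne_zero_of_mul hz)
      _ = P.Th R.x₀ j x * K := by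
          rw [← Finset.sum_mul, ← Finset.mul_sum, (psi_sum P (j + R.T + n) x hx4).1, mul_one]
  refine (Finset.sum_le_sum hterm).trans ?_
  rw [← Finset.sum_mul, ← hcwx]
  have hc1 : pf.cw x ≤ 1 := ((chi_win P R.x₀ α β pf.lt).1 x).2
  calc pf.cw x * K ≤ 1 * K := mul_le_mul_of_nonneg_right hc1 hK0
    _ = K := one_mul K

end H60NT
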