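import Pool.Agent.H60.NT.WPtA
import Pool.Agent.H60.NT.Disc

/-!
# [H60 NT WPTB] Pointwise discretization, second term

Product rule `fderiv (Th psi) = psi fderiv Th + Th fderiv psi`. If `Th_j x = 0` then `fderiv Th_j x = 0` (minimum) and the
ring `j` contributes nothing; at most three `j` have `Th_j x ≠ 0`; for these `1/p2 j < 2 ‖x - x₀‖`, `‖x - x₀‖ < 2/p2 j`.
`disc` with `s = j + T + n`, `q w = F (lam w) y`, `L = (fderiv (fun p => F p y) (lam x)).comp (fderiv lam x)`,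
`B = C a/‖x - x₀‖²`: for `‖w - x‖ ≤ 2^n/p2 s = (1/2)^T/p2 j ≤ ‖x - x₀‖/8`: `q` is differentiable on the convex ball
`ball x (‖x-x₀‖/4)` with derivative `(fderiv (fun p => F p y) (lam w)).comp (fderiv lam w)`, Lipschitz with constant
`CG (2a/‖x-x₀‖)² + CG C a/‖x-x₀‖²` (`lipq`, `bdq`, `pf_lam`, `pf_lip`; `a ≤ Cp e ≤ 1`), mean value inequality. Then
`∑_j (fderiv Th_j x h) (F(lam x) y + O(C B/p2 s²)) + ∑_j Th_j x (L h + O(C B/p2 s) ‖h‖)`, `|fderiv Th_j x h| ≤ 3 Lκ p2 j ‖h‖`,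
`∑ fderiv Th_j = fderiv χ`, `∑ Th_j = χ`. (`Lam x i = fderiv lam x (ev i)`, `h = ev i`.)
-/

set_option autoImplicit false

namespace H60NT

open H60NH MeasureTheory Metric Set Filter Topology
open scoped ENNReal NNReal ContDiff

private theorem ptB_Fy {n m : ℕ} (P : Par n m) (y : E m) : Differentiable ℝ (fun p => P.F p y) := by
  have h1 : ContDiff ℝ ∞ (fun p : E m => P.F p y) :=
    P.hG.smooth.comp (contDiff_id.prodMk contDiff_const)
  exact h1.differentiable (by simp)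

private theorem ptB_lamd {n m : ℕ} {P : Par n m} {D : Dyn P} {R : RC D} {Cp : ℝ} {α β : ℕ} (pf : Pf R Cp α β) :
    Differentiable ℝ pf.lam := pf.lam_c1.differentiable (by simp)

private theorem ptB_taylor {n m : ℕ} (P : Par n m) (Cp : ℝ) (hCp : 1 ≤ Cp) : ∃ C e₁ : ℝ, 1 ≤ C ∧ 0 < e₁ ∧
    ∀ (D : Dyn P) (R : RC D) (α β : ℕ) (pf : Pf R Cp α β) (x : E n), R.e ≤ e₁ →
      1 / p2 β ≤ ‖x - R.x₀‖ → ‖x - R.x₀‖ ≤ 2 / p2 α → 0 < ‖x - R.x₀‖ → ∀ (y : E m) (w : E n), ‖w - x‖ < ‖x - R.x₀‖ / 4 →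
      ‖P.F (pf.lam w) y - P.F (pf.lam x) y - fderiv ℝ (fun p => P.F p y) (pf.lam x) (fderiv ℝ pf.lam x (w - x))‖ ≤
        C * pf.a / ‖x - R.x₀‖ ^ 2 * ‖w - x‖ ^ 2 := by
  obtain ⟨C1, e₁, hC1, he₁, hlip⟩ := pf_lip P Cp hCp
  have hCG := P.hG.one_le
  refine ⟨P.CG * (4 * Cp + C1), e₁, by nlinarith, he₁, ?_⟩
  intro D R α β pf x he h1 h2 hr y w hw
  obtain ⟨r, hrd⟩ : ∃ r, r = ‖x - R.x₀‖ := ⟨_, rfl⟩
  rw [← hrd] at h1 h2 hr hw ⊢
  have hpβ : 0 < p2 β := by unfold p2; positivity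
  have hpα : 0 < p2 α := by unfold p2; positivity
  have ha0 := pf.a_nonneg
  have haC : pf.a ≤ Cp := by
    refine pf.a_le.trans ?_
    have := R.e_le
    nlinarith
  -- the derivative of lam near x
  have hder : ∀ v : E n, ‖v - x‖ < r / 4 → ‖fderiv ℝ pf.lam v‖ ≤ 2 * pf.a / r := by
    intro v hv
    have e1 : r ≤ ‖v - R.x₀‖ + ‖v - x‖ := by
      rw [hrd]
      calc ‖x - R.x₀‖ = ‖(v - R.x₀) - (v - x)‖ := by congr 1; abel
        _ ≤ _ := norm_sub_le _ _
    have e2 : ‖v - R.x₀‖ ≤ r + ‖v - x‖ := by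
      rw [hrd]
      calc ‖v - R.x₀‖ = ‖(x - R.x₀) + (v - x)‖ := by congr 1; abel
        _ ≤ _ := norm_add_le _ _
    have e3 : 1 / (4 * p2 β) ≤ ‖v - R.x₀‖ := by
      have : 1 / (4 * p2 β) = (1 / p2 β) / 4 := by field_simp
      rw [this]
      linarith
    have e4 : ‖v - R.x₀‖ ≤ 8 / p2 α := by
      have : 8 / p2 α = 4 * (2 / p2 α) := by ring
      rw [this]
      linarith
    refine (pf_lam pf v e3 e4).2.trans ?_
    rw [div_le_div_iff₀ (by linarith) hr]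
    nlinarith
  -- lam is Lipschitz near x
  have hlam : ∀ v : E n, ‖v - x‖ < r / 4 → ‖pf.lam v - pf.lam x‖ ≤ 2 * pf.a / r * ‖v - x‖ := by
    intro v hv
    have hconv : Convex ℝ (ball x (r / 4)) := convex_ball x _
    exact hconv.norm_image_sub_le_of_norm_fderiv_le (fun u _ => (ptB_lamd pf) u)
      (fun u hu => hder u (by rwa [mem_ball, dist_eq_norm] at hu)) (mem_ball_self (by linarith))
      (by rwa [mem_ball, dist_eq_norm])
  -- the derivative of q
  have hq : ∀ v : E n, HasFDerivAt (fun v => P.F (pf.lam v) y)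
      ((fderiv ℝ (fun p => P.F p y) (pf.lam v)).comp (fderiv ℝ pf.lam v)) v := by
    intro v
    exact ((ptB_Fy P y) (pf.lam v)).hasFDerivAt.comp v ((ptB_lamd pf) v).hasFDerivAt
  have hB : ∀ v : E n, ‖v - x‖ < r / 4 →
      ‖(fderiv ℝ (fun p => P.F p y) (pf.lam v)).comp (fderiv ℝ pf.lam v) -
        (fderiv ℝ (fun p => P.F p y) (pf.lam x)).comp (fderiv ℝ pf.lam x)‖ ≤
        P.CG * (4 * Cp + C1) * pf.a / r ^ 2 * ‖v - x‖ := by
    intro v hv
    have e1 : (fderiv ℝ (fun p => P.F p y) (pf.lam v)).comp (fderiv ℝ pf.lam v) -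
        (fderiv ℝ (fun p => P.F p y) (pf.lam x)).comp (fderiv ℝ pf.lam x) =
        (fderiv ℝ (fun p => P.F p y) (pf.lam v) - fderiv ℝ (fun p => P.F p y) (pf.lam x)).comp (fderiv ℝ pf.lam v) +
        (fderiv ℝ (fun p => P.F p y) (pf.lam x)).comp (fderiv ℝ pf.lam v - fderiv ℝ pf.lam x) := by
      ext u
      simp
    rw [e1]
    have hl := P.hG.lipq (pf.lam v) (pf.lam x) y
    have hb := P.hG.bdq (pf.lam x) y
    have hd := hder v hv
    have hm := hlam v hv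
    have hβ2 : 1 / (2 * p2 β) ≤ ‖x - R.x₀‖ := by
      rw [← hrd]
      have : 1 / (2 * p2 β) = (1 / p2 β) / 2 := by field_simp
      rw [this]
      have : 0 < 1 / p2 β := by positivity
      linarith
    have hα2 : ‖x - R.x₀‖ ≤ 4 / p2 α := by
      rw [← hrd]
      have : 4 / p2 α = 2 * (2 / p2 α) := by ring
      rw [this]
      linarith
    have hp := hlip D R α β pf he x hβ2 hα2 v (by
      rw [mem_ball, dist_eq_norm, ← hrd]
      exact hv) x (mem_ball_self (by rw [← hrd]; linarith))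
    rw [← hrd] at hp
    refine (norm_add_le _ _).trans ?_
    have g1 : ‖(fderiv ℝ (fun p => P.F p y) (pf.lam v) - fderiv ℝ (fun p => P.F p y) (pf.lam x)).comp (fderiv ℝ pf.lam v)‖ ≤
        P.CG * (2 * pf.a / r * ‖v - x‖) * (2 * pf.a / r) := by
      refine (ContinuousLinearMap.opNorm_comp_le _ _).trans ?_
      refine mul_le_mul (hl.trans (mul_le_mul_of_nonneg_left hm (by linarith))) hd (norm_nonneg _) ?_
      have : 0 ≤ P.CG := by linarith
      positivity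
    have g2 : ‖(fderiv ℝ (fun p => P.F p y) (pf.lam x)).comp (fderiv ℝ pf.lam v - fderiv ℝ pf.lam x)‖ ≤
        P.CG * (C1 * pf.a / r ^ 2 * ‖v - x‖) := by
      refine (ContinuousLinearMap.opNorm_comp_le _ _).trans ?_
      exact mul_le_mul hb hp (norm_nonneg _) (by linarith)
    have hCG0 : 0 ≤ P.CG := by linarith
    calc _ ≤ P.CG * (2 * pf.a / r * ‖v - x‖) * (2 * pf.a / r) + P.CG * (C1 * pf.a / r ^ 2 * ‖v - x‖) := add_le_add g1 g2
      _ = P.CG * (4 * pf.a + C1) * pf.a / r ^ 2 * ‖v - x‖ := by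
        field_simp
        ring
      _ ≤ P.CG * (4 * Cp + C1) * pf.a / r ^ 2 * ‖v - x‖ := by
        have : P.CG * (4 * pf.a + C1) ≤ P.CG * (4 * Cp + C1) := mul_le_mul_of_nonneg_left (by linarith) hCG0
        gcongr
  -- Taylor
  have hconv : Convex ℝ (closedBall x ‖w - x‖) := convex_closedBall x _
  have hK0 : 0 ≤ P.CG * (4 * Cp + C1) * pf.a / r ^ 2 := by
    have hCG0 : 0 ≤ P.CG := by linarith
    have : 0 ≤ 4 * Cp + C1 := by linarith
    positivity
  have hT := hconv.norm_image_sub_le_of_norm_hasFDerivWithin_le' (f := fun v => P.F (pf.lam v) y)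
    (φ := (fderiv ℝ (fun p => P.F p y) (pf.lam x)).comp (fderiv ℝ pf.lam x))
    (C := P.CG * (4 * Cp + C1) * pf.a / r ^ 2 * ‖w - x‖) (x := x) (y := w)
    (fun v _ => (hq v).hasFDerivWithinAt) (by
      intro v hv
      rw [mem_closedBall, dist_eq_norm] at hv
      exact (hB v (lt_of_le_of_lt hv hw)).trans (mul_le_mul_of_nonneg_left hv hK0))
    (mem_closedBall_self (norm_nonneg _)) (by rw [mem_closedBall, dist_eq_norm])
  refine hT.trans (le_of_eq ?_)
  ring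

theorem w_ptB {n m : ℕ} (P : Par n m) (Cp : ℝ) (hCp : 1 ≤ Cp) : ∃ C e₁ : ℝ, 1 ≤ C ∧ 0 < e₁ ∧
    ∀ (D : Dyn P) (R : RC D) (α β : ℕ) (pf : Pf R Cp α β) (x : E n), R.e ≤ e₁ →
      1 / p2 β ≤ ‖x - R.x₀‖ → ‖x - R.x₀‖ ≤ 2 / p2 α → ∀ (y : E m) (i : Fin n),
      ‖(∑ j ∈ Finset.Ico α β, ∑ z ∈ box n (j + R.T + n),
          fderiv ℝ (fun x => P.Th R.x₀ j x * P.psi (j + R.T + n) z x) x (ev i) •
            P.F (pf.lam (zc (j + R.T + n) z)) y) -
        (fderiv ℝ pf.cw x (ev i) • P.F (pf.lam x) y +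
          pf.cw x • fderiv ℝ (fun p => P.F p y) (pf.lam x) (pf.Lam x i))‖ ≤
        C * (pf.a * (1 / 2) ^ R.T) / ‖x - R.x₀‖ := by
  obtain ⟨Ct, e₁, hCt, he₁, htay⟩ := ptB_taylor P Cp hCp
  obtain ⟨Cd, hCd, hdisc⟩ := disc P
  have hLκ := P.hκ.one_le
  refine ⟨4 * (1 + 3 * P.Lκ) * Cd * Ct, e₁, ?_, he₁, ?_⟩
  · have h1 : 1 ≤ Cd * Ct := by nlinarith
    nlinarith
  intro D R α β pf x he h1 h2 y i
  have hpβ : 0 < p2 β := by unfold p2; positivity
  have hpα : 1 ≤ p2 α := by unfold p2; exact one_le_pow₀ (by norm_num)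
  have hr : 0 < ‖x - R.x₀‖ := lt_of_lt_of_le (by positivity) h1
  obtain ⟨r, hrd⟩ : ∃ r, r = ‖x - R.x₀‖ := ⟨_, rfl⟩
  obtain ⟨h, hh⟩ : ∃ h : E n, h = ev i := ⟨_, rfl⟩
  have hh1 : ‖h‖ = 1 := by
    rw [hh]
    unfold ev
    rw [EuclideanSpace.norm_single]
    simp
  have ha0 := pf.a_nonneg
  have hx4 : x ∈ ball (0 : E n) 4 := by
    rw [mem_ball, dist_zero_right]
    have e1 : ‖x‖ ≤ ‖R.x₀‖ + ‖x - R.x₀‖ := by
      calc ‖x‖ = ‖R.x₀ + (x - R.x₀)‖ := by congr 1; abel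
        _ ≤ _ := norm_add_le _ _
    have e2 : 2 / p2 α ≤ 2 := by
      rw [div_le_iff₀ (by linarith)]
      linarith
    have := R.hx
    linarith
  have hTd : ∀ j, DifferentiableAt ℝ (P.Th R.x₀ j) x := fun j =>
    ((th_facts P R.x₀ j).1.differentiable (by simp)) x
  have hPd : ∀ s z, DifferentiableAt ℝ (P.psi s z) x := fun s z =>
    ((psi_facts P s z).1.differentiable (by simp)) x
  -- the cutoff as a sum
  have hαβ : α ≤ β := pf.lt.le
  have hcw : pf.cw = fun x => ∑ j ∈ Finset.Ico α β, P.Th R.x₀ j x := by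
    funext x'
    rw [th_sum P R.x₀ α β hαβ x']
    rfl
  have hcwx : pf.cw x = ∑ j ∈ Finset.Ico α β, P.Th R.x₀ j x := by rw [hcw]
  have hcwd : fderiv ℝ pf.cw x h = ∑ j ∈ Finset.Ico α β, fderiv ℝ (P.Th R.x₀ j) x h := by
    rw [hcw, fderiv_fun_sum (fun j _ => hTd j), ContinuousLinearMap.sum_apply]
  -- the terms
  obtain ⟨L, hL⟩ : ∃ L : E n →L[ℝ] E m, L = (fderiv ℝ (fun p => P.F p y) (pf.lam x)).comp (fderiv ℝ pf.lam x) := ⟨_, rfl⟩
  obtain ⟨q, hq⟩ : ∃ q : E n → E m, q = fun w => P.F (pf.lam w) y := ⟨_, rfl⟩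
  have hterm : ∀ j, ∑ z ∈ box n (j + R.T + n),
      fderiv ℝ (fun x => P.Th R.x₀ j x * P.psi (j + R.T + n) z x) x h • q (zc (j + R.T + n) z) =
      P.Th R.x₀ j x • (∑ z ∈ box n (j + R.T + n), fderiv ℝ (P.psi (j + R.T + n) z) x h • q (zc (j + R.T + n) z)) +
      fderiv ℝ (P.Th R.x₀ j) x h • ∑ z ∈ box n (j + R.T + n), P.psi (j + R.T + n) z x • q (zc (j + R.T + n) z) := by
    intro j
    rw [Finset.smul_sum, Finset.smul_sum, ← Finset.sum_add_distrib]
    refine Finset.sum_congr rfl fun z _ => ?_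
    have e1 : fderiv ℝ (fun x => P.Th R.x₀ j x * P.psi (j + R.T + n) z x) x =
        P.Th R.x₀ j x • fderiv ℝ (P.psi (j + R.T + n) z) x + P.psi (j + R.T + n) z x • fderiv ℝ (P.Th R.x₀ j) x :=
      ((hTd j).hasFDerivAt.mul (hPd _ z).hasFDerivAt).fderiv
    rw [e1, ContinuousLinearMap.add_apply, ContinuousLinearMap.smul_apply, ContinuousLinearMap.smul_apply, add_smul,
      smul_eq_mul, smul_eq_mul, mul_smul, mul_comm (P.psi _ z x), mul_smul]
  have hdiff : (∑ j ∈ Finset.Ico α β, ∑ z ∈ box n (j + R.T + n),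
          fderiv ℝ (fun x => P.Th R.x₀ j x * P.psi (j + R.T + n) z x) x (ev i) •
            P.F (pf.lam (zc (j + R.T + n) z)) y) -
        (fderiv ℝ pf.cw x (ev i) • P.F (pf.lam x) y +
          pf.cw x • fderiv ℝ (fun p => P.F p y) (pf.lam x) (pf.Lam x i)) =
      ∑ j ∈ Finset.Ico α β, (P.Th R.x₀ j x •
        ((∑ z ∈ box n (j + R.T + n), fderiv ℝ (P.psi (j + R.T + n) z) x h • q (zc (j + R.T + n) z)) - L h) +
      fderiv ℝ (P.Th R.x₀ j) x h • ((∑ z ∈ box n (j + R.T + n), P.psi (j + R.T + n) z x • q (zc (j + R.T + n) z)) - q x)) := by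
    have e1 : ∀ j ∈ Finset.Ico α β, ∑ z ∈ box n (j + R.T + n),
          fderiv ℝ (fun x => P.Th R.x₀ j x * P.psi (j + R.T + n) z x) x (ev i) •
            P.F (pf.lam (zc (j + R.T + n) z)) y =
        ∑ z ∈ box n (j + R.T + n),
          fderiv ℝ (fun x => P.Th R.x₀ j x * P.psi (j + R.T + n) z x) x h • q (zc (j + R.T + n) z) := by
      intro j _
      rw [hh, hq]
    rw [Finset.sum_congr rfl e1, Finset.sum_congr rfl (fun j _ => hterm j)]
    have e2 : fderiv ℝ pf.cw x (ev i) • P.F (pf.lam x) y +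
          pf.cw x • fderiv ℝ (fun p => P.F p y) (pf.lam x) (pf.Lam x i) =
        ∑ j ∈ Finset.Ico α β, (P.Th R.x₀ j x • L h + fderiv ℝ (P.Th R.x₀ j) x h • q x) := by
      rw [Finset.sum_add_distrib, ← Finset.sum_smul, ← Finset.sum_smul, ← hcwx, ← hcwd, hL, hq, hh, add_comm]
      rfl
    rw [e2, ← Finset.sum_sub_distrib]
    refine Finset.sum_congr rfl fun j _ => ?_
    rw [smul_sub, smul_sub]
    abel
  rw [hdiff, ← hrd]
  rw [← hrd] at h1 h2 hr
  obtain ⟨B, hB⟩ : ∃ B : ℝ, B = Ct * pf.a / r ^ 2 := ⟨_, rfl⟩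
  have hB0 : 0 ≤ B := by
    rw [hB]
    positivity
  obtain ⟨K, hK⟩ : ∃ K : ℝ, K = 2 * (1 + 3 * P.Lκ) * Cd * Ct * (pf.a * (1 / 2) ^ R.T) / r := ⟨_, rfl⟩
  have hTT : ((1 : ℝ) / 2) ^ R.T ≤ (1 / 2) ^ 20 := pow_le_pow_of_le_one (by norm_num) (by norm_num) R.T3
  have hT0 : (0 : ℝ) < (1 / 2) ^ R.T := by positivity
  -- each term
  have hone : ∀ j ∈ Finset.Ico α β, P.Th R.x₀ j x ≠ 0 → ‖P.Th R.x₀ j x •
        ((∑ z ∈ box n (j + R.T + n), fderiv ℝ (P.psi (j + R.T + n) z) x h • q (zc (j + R.T + n) z)) - L h) +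
      fderiv ℝ (P.Th R.x₀ j) x h • ((∑ z ∈ box n (j + R.T + n), P.psi (j + R.T + n) z x • q (zc (j + R.T + n) z)) - q x)‖ ≤ K := by
    intro j _ hj
    obtain ⟨f1, f2, f3, f4⟩ := th_facts P R.x₀ j
    obtain ⟨g1, g2⟩ := f3 x hj
    rw [← hrd] at g1 g2
    have hpj : 0 < p2 j := by unfold p2; positivity
    have hs : p2 (j + R.T + n) = p2 j * p2 R.T * 2 ^ n := by
      unfold p2
      rw [pow_add, pow_add]
    have hT2 : (1 : ℝ) / p2 R.T = (1 / 2) ^ R.T := by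
      unfold p2
      rw [one_div, one_div, inv_pow]
    have hpT : 0 < p2 R.T := by unfold p2; positivity
    have h2n : (1 : ℝ) ≤ 2 ^ n := one_le_pow₀ (by norm_num)
    have hj1 : 1 / p2 j < 2 * r := by
      have : 1 / (2 * p2 j) = (1 / p2 j) / 2 := by field_simp
      rw [this] at g1
      linarith
    have hrad : 2 ^ n / p2 (j + R.T + n) = (1 / 2) ^ R.T * (1 / p2 j) := by
      rw [hs, ← hT2]
      field_simp
    have hrad2 : 2 ^ n / p2 (j + R.T + n) < r / 4 := by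
      rw [hrad]
      calc (1 / 2 : ℝ) ^ R.T * (1 / p2 j) ≤ (1 / 2) ^ 20 * (1 / p2 j) := mul_le_mul_of_nonneg_right hTT (by positivity)
        _ < (1 / 2) ^ 20 * (2 * r) := mul_lt_mul_of_pos_left hj1 (by positivity)
        _ ≤ r / 4 := by
          norm_num
          linarith
    obtain ⟨d1, d2⟩ := hdisc (j + R.T + n) x q L B hx4 hB0 (by
      intro w hw
      have := htay D R α β pf x he (by rw [← hrd]; exact h1) (by rw [← hrd]; exact h2) (by rw [← hrd]; exact hr) y w (by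
        rw [← hrd]
        exact lt_of_le_of_lt hw hrad2)
      rw [← hrd] at this
      rw [hq, hL, hB]
      exact this)
    have d2' := d2 h
    rw [hh1, mul_one] at d2'
    have hinv : 1 / p2 (j + R.T + n) ≤ (1 / 2) ^ R.T * (1 / p2 j) := by
      rw [← hrad]
      have : 0 < p2 (j + R.T + n) := by unfold p2; positivity
      gcongr
    have hinv2 : 1 / p2 (j + R.T + n) ≤ (1 / 2) ^ R.T * (2 * r) :=
      hinv.trans (mul_le_mul_of_nonneg_left hj1.le hT0.le)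
    have hps : 0 < p2 (j + R.T + n) := by unfold p2; positivity
    have t1 : ‖P.Th R.x₀ j x • ((∑ z ∈ box n (j + R.T + n), fderiv ℝ (P.psi (j + R.T + n) z) x h • q (zc (j + R.T + n) z)) - L h)‖ ≤
        Cd * B * ((1 / 2) ^ R.T * (2 * r)) := by
      rw [norm_smul, Real.norm_eq_abs, abs_of_nonneg (f2 x).1]
      calc P.Th R.x₀ j x * _ ≤ 1 * (Cd * B / p2 (j + R.T + n)) := mul_le_mul (f2 x).2 d2' (norm_nonneg _) zero_le_one
        _ = Cd * B * (1 / p2 (j + R.T + n)) := by ring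
        _ ≤ Cd * B * ((1 / 2) ^ R.T * (2 * r)) := mul_le_mul_of_nonneg_left hinv2 (by positivity)
    have t2 : ‖fderiv ℝ (P.Th R.x₀ j) x h • ((∑ z ∈ box n (j + R.T + n), P.psi (j + R.T + n) z x • q (zc (j + R.T + n) z)) - q x)‖ ≤
        3 * P.Lκ * (Cd * B * ((1 / 2) ^ R.T * (2 * r))) := by
      rw [norm_smul, Real.norm_eq_abs]
      have e1 := f4 x h
      rw [hh1, mul_one] at e1
      have e2 : p2 j * (1 / p2 (j + R.T + n)) ≤ 1 := by
        calc p2 j * (1 / p2 (j + R.T + n)) ≤ p2 j * ((1 / 2) ^ R.T * (1 / p2 j)) := mul_le_mul_of_nonneg_left hinv hpj.le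
          _ = (1 / 2) ^ R.T := by field_simp
          _ ≤ 1 := pow_le_one₀ (by norm_num) (by norm_num)
      calc |fderiv ℝ (P.Th R.x₀ j) x h| * _ ≤ (3 * P.Lκ * p2 j) * (Cd * B / p2 (j + R.T + n) ^ 2) :=
            mul_le_mul e1 d1 (norm_nonneg _) (by positivity)
        _ = 3 * P.Lκ * (Cd * B * ((p2 j * (1 / p2 (j + R.T + n))) * (1 / p2 (j + R.T + n)))) := by
            field_simp
        _ ≤ 3 * P.Lκ * (Cd * B * (1 * ((1 / 2) ^ R.T * (2 * r)))) := by
            apply mul_le_mul_of_nonneg_left _ (by positivity)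
            apply mul_le_mul_of_nonneg_left _ (by positivity)
            exact mul_le_mul e2 hinv2 (by positivity) zero_le_one
        _ = 3 * P.Lκ * (Cd * B * ((1 / 2) ^ R.T * (2 * r))) := by rw [one_mul]
    refine (norm_add_le _ _).trans ((add_le_add t1 t2).trans (le_of_eq ?_))
    rw [hK, hB]
    field_simp
  have hzero : ∀ j, P.Th R.x₀ j x = 0 → fderiv ℝ (P.Th R.x₀ j) x h = 0 := by
    intro j hj
    have hmin : IsLocalMin (P.Th R.x₀ j) x := by
      refine Filter.Eventually.of_forall fun w => ?_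
      rw [hj]
      exact ((th_facts P R.x₀ j).2.1 w).1
    rw [hmin.fderiv_eq_zero, ContinuousLinearMap.zero_apply]
  -- the number of terms
  classical
  have hcard : ((Finset.Ico α β).filter (fun j => P.Th R.x₀ j x ≠ 0)).card ≤ 2 := by
    by_cases hne : ((Finset.Ico α β).filter (fun j => P.Th R.x₀ j x ≠ 0)).Nonempty
    · obtain ⟨j0, hj0, hmin⟩ := Finset.exists_min_image _ (fun j => j) hne
      have hsub : (Finset.Ico α β).filter (fun j => P.Th R.x₀ j x ≠ 0) ⊆ {j0, j0 + 1} := by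
        intro j hj
        have h3 := hmin j hj
        have h4 := ((th_facts P R.x₀ j0).2.2.1 x (Finset.mem_filter.1 hj0).2).1
        have h5 := ((th_facts P R.x₀ j).2.2.1 x (Finset.mem_filter.1 hj).2).2
        have h6 : 1 / (2 * p2 j0) < 2 / p2 j := lt_trans h4 h5
        have hpj : 0 < p2 j := by unfold p2; positivity
        have hpj0 : 0 < p2 j0 := by unfold p2; positivity
        rw [div_lt_div_iff₀ (by positivity) hpj] at h6
        have h7 : p2 j < p2 (j0 + 2) := by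
          have : p2 (j0 + 2) = 4 * p2 j0 := by
            unfold p2
            rw [pow_add]
            ring
          rw [this]
          linarith
        have h8 : j < j0 + 2 := by
          unfold p2 at h7
          exact (pow_lt_pow_iff_right₀ (by norm_num)).1 h7
        rw [Finset.mem_insert, Finset.mem_singleton]
        omega
      exact (Finset.card_le_card hsub).trans (Finset.card_le_two)
    · rw [Finset.not_nonempty_iff_eq_empty] at hne
      rw [hne]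
      simp
  have hK0 : 0 ≤ K := by
    rw [hK]
    positivity
  refine (norm_sum_le _ _).trans ?_
  rw [← Finset.sum_filter_add_sum_filter_not (Finset.Ico α β) (fun j => P.Th R.x₀ j x ≠ 0)]
  have hs2 : ∑ j ∈ (Finset.Ico α β).filter (fun j => ¬ P.Th R.x₀ j x ≠ 0), ‖P.Th R.x₀ j x •
        ((∑ z ∈ box n (j + R.T + n), fderiv ℝ (P.psi (j + R.T + n) z) x h • q (zc (j + R.T + n) z)) - L h) +
      fderiv ℝ (P.Th R.x₀ j) x h • ((∑ z ∈ box n (j + R.T + n), P.psi (j + R.T + n) z x • q (zc (j + R.T + n) z)) - q x)‖ = 0 := by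
    refine Finset.sum_eq_zero fun j hj => ?_
    have h3 := (Finset.mem_filter.1 hj).2
    rw [not_not] at h3
    rw [hzero j h3, h3, zero_smul, zero_smul, add_zero, norm_zero]
  rw [hs2, add_zero]
  refine (Finset.sum_le_sum (g := fun _ => K) fun j hj => hone j (Finset.mem_filter.1 hj).1 (Finset.mem_filter.1 hj).2).trans ?_
  rw [Finset.sum_const, nsmul_eq_mul]
  have hc2 : (((Finset.Ico α β).filter (fun j => P.Th R.x₀ j x ≠ 0)).card : ℝ) ≤ 2 := by exact_mod_cast hcard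
  calc _ ≤ 2 * K := mul_le_mul_of_nonneg_right hc2 hK0
    _ = 4 * (1 + 3 * P.Lκ) * Cd * Ct * (pf.a * (1 / 2) ^ R.T) / r := by
      rw [hK]
      ring

end H60NT
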