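import Pool.Agent.H60.NT.Def

/-!
# [H60 NT WG1] Weak gradients tested with `C^1` functions
-/

set_option autoImplicit false

namespace H60NT

open H60NH MeasureTheory Metric Set Filter Topology
open scoped ENNReal NNReal ContDiff

/-- approximation of a `C^1` map of compact support by smooth ones -/
theorem wg1_moll {n m : ℕ} {R : ℝ} (Y : E n → E m) (hY : ContDiff ℝ 1 Y)
    (hYc : HasCompactSupport Y) (hYs : tsupport Y ⊆ ball 0 R) :
    ∃ (Z : ℕ → E n → E m) (A : ℝ), (∀ k, ContDiff ℝ ∞ (Z k)) ∧
      (∀ᶠ k in atTop, HasCompactSupport (Z k) ∧ tsupport (Z k) ⊆ ball 0 R) ∧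
      (∀ x, Tendsto (fun k => Z k x) atTop (𝓝 (Y x))) ∧
      (∀ x i, Tendsto (fun k => fderiv ℝ (Z k) x (ev i)) atTop (𝓝 (fderiv ℝ Y x (ev i)))) ∧
      (∀ k x, ‖Z k x‖ ≤ A) ∧ ∀ k x i, ‖fderiv ℝ (Z k) x (ev i)‖ ≤ A := by
  let φ : ℕ → ContDiffBump (0 : E n) := fun k =>
    { rIn := 1 / (2 * ((k : ℝ) + 1))
      rOut := 1 / ((k : ℝ) + 1)
      rIn_pos := by positivity
      rIn_lt_rOut := by
        apply one_div_lt_one_div_of_lt (by positivity)
        have : (0 : ℝ) < (k : ℝ) + 1 := by positivity
        linarith }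
  have hφ : Tendsto (fun k => (φ k).rOut) atTop (𝓝 0) := tendsto_one_div_add_atTop_nhds_zero_nat
  let Z : ℕ → E n → E m := fun k =>
    MeasureTheory.convolution ((φ k).normed volume) Y (ContinuousLinearMap.lsmul ℝ ℝ) volume
  have hYcont : Continuous Y := hY.continuous
  have hdY : Continuous (fderiv ℝ Y) := hY.continuous_fderiv one_ne_zero
  have hdYc : HasCompactSupport (fderiv ℝ Y) := hYc.fderiv ℝ
  have hYint : Integrable Y := hYcont.integrable_of_hasCompactSupport hYc
  have hZs : ∀ k, ContDiff ℝ ∞ (Z k) := fun k =>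
    (φ k).hasCompactSupport_normed.contDiff_convolution_left _ ((φ k).contDiff_normed)
      hYint.locallyIntegrable
  have hφl : ∀ k, LocallyIntegrable ((φ k).normed (volume : Measure (E n))) volume := fun k =>
    (φ k).integrable_normed.locallyIntegrable
  have hZd : ∀ k x h, fderiv ℝ (Z k) x h = MeasureTheory.convolution ((φ k).normed volume)
      (fun a => fderiv ℝ Y a h) (ContinuousLinearMap.lsmul ℝ ℝ) volume x := by
    intro k x h
    have h1 := hYc.hasFDerivAt_convolution_right (μ := (volume : Measure (E n)))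
      (ContinuousLinearMap.lsmul ℝ ℝ) (hφl k) hY x
    rw [h1.fderiv]
    exact convolution_precompR_apply (ContinuousLinearMap.lsmul ℝ ℝ) (hφl k) hdYc hdY x h
  have hZt : ∀ x, Tendsto (fun k => Z k x) atTop (𝓝 (Y x)) := fun x =>
    ContDiffBump.convolution_tendsto_right_of_continuous hφ hYcont x
  have hdZt : ∀ x h, Tendsto (fun k => fderiv ℝ (Z k) x h) atTop (𝓝 (fderiv ℝ Y x h)) := by
    intro x h
    simp_rw [hZd]
    exact ContDiffBump.convolution_tendsto_right_of_continuous hφ (hdY.clm_apply continuous_const) x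
  obtain ⟨A₀, hA₀⟩ := hYc.exists_bound_of_continuous hYcont
  obtain ⟨A₁, hA₁⟩ := hdYc.exists_bound_of_continuous hdY
  have hA₀0 : 0 ≤ A₀ := (norm_nonneg _).trans (hA₀ 0)
  have hA₁0 : 0 ≤ A₁ := (norm_nonneg _).trans (hA₁ 0)
  have hZb : ∀ k x, ‖Z k x‖ ≤ A₀ := by
    intro k x
    have h1 := dist_convolution_le (μ := (volume : Measure (E n))) (x₀ := x) (z₀ := (0 : E m))
      (g := Y) (f := (φ k).normed volume) (R := (φ k).rOut) hA₀0
      ((φ k).support_normed_eq).subset (φ k).nonneg_normed (φ k).integral_normed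
      hYcont.aestronglyMeasurable (fun z _ => by
        rw [dist_zero_right]
        exact hA₀ z)
    rw [dist_zero_right] at h1
    exact h1
  have hdZb : ∀ k x i, ‖fderiv ℝ (Z k) x (ev i)‖ ≤ A₁ := by
    intro k x i
    have hev : ‖(ev i : E n)‖ = 1 := by
      unfold ev
      rw [EuclideanSpace.norm_single, norm_one]
    have h1 := dist_convolution_le (μ := (volume : Measure (E n))) (x₀ := x) (z₀ := (0 : E m))
      (g := fun a => fderiv ℝ Y a (ev i)) (f := (φ k).normed volume) (R := (φ k).rOut) hA₁0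
      ((φ k).support_normed_eq).subset (φ k).nonneg_normed (φ k).integral_normed
      (hdY.clm_apply continuous_const).aestronglyMeasurable (fun z _ => by
        rw [dist_zero_right]
        have h2 := (fderiv ℝ Y z).le_opNorm (ev i)
        rw [hev, mul_one] at h2
        exact h2.trans (hA₁ z))
    rw [dist_zero_right, ← hZd] at h1
    exact h1
  obtain ⟨ρ, hρ, hρs⟩ := IsCompact.exists_cthickening_subset_open hYc isOpen_ball hYs
  have hsupp : ∀ k, (φ k).rOut ≤ ρ → HasCompactSupport (Z k) ∧ tsupport (Z k) ⊆ ball 0 R := by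
    intro k hk
    have h1 : Function.support (Z k) ⊆ Metric.cthickening ρ (tsupport Y) := by
      refine (support_convolution_subset _).trans ?_
      rintro _ ⟨a, ha, b, hb, rfl⟩
      have ha' : ‖a‖ < (φ k).rOut := by
        rw [(φ k).support_normed_eq] at ha
        exact mem_ball_zero_iff.1 ha
      refine Metric.mem_cthickening_of_dist_le (a + b) b ρ _ (subset_tsupport Y hb) ?_
      rw [dist_eq_norm, add_sub_cancel_right]
      exact ha'.le.trans hk
    have h2 : tsupport (Z k) ⊆ Metric.cthickening ρ (tsupport Y) :=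
      closure_minimal h1 Metric.isClosed_cthickening
    refine ⟨?_, h2.trans hρs⟩
    exact IsCompact.of_isClosed_subset
      (Metric.isCompact_of_isClosed_isBounded Metric.isClosed_cthickening
        ((Metric.isBounded_ball).subset hρs)) (isClosed_tsupport _) h2
  refine ⟨Z, max A₀ A₁, hZs, ?_, hZt, fun x i => hdZt x (ev i),
    fun k x => (hZb k x).trans (le_max_left _ _), fun k x i => (hdZb k x i).trans (le_max_right _ _)⟩
  filter_upwards [hφ.eventually_le_const hρ] with k hk
  exact hsupp k hk

/-- the smooth case -/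
theorem wg1_smooth {n m : ℕ} {R : ℝ} {v : E n → E m} {g : E n → Fin n → E m} (hn : 1 ≤ n)
    (h : IsWeakGrad (ball 0 R) v g) (Y : E n → E m) (hY : ContDiff ℝ ∞ Y)
    (hc : HasCompactSupport Y) (hs : tsupport Y ⊆ ball 0 R) (i : Fin n) :
    ∫ x in ball (0 : E n) R, inner ℝ (fderiv ℝ Y x (ev i)) (v x) =
      - ∫ x in ball (0 : E n) R, inner ℝ (Y x) (g x i) := by
  have : IsFiniteMeasure (volume.restrict (ball (0 : E n) R)) := ⟨by
    rw [Measure.restrict_apply_univ]
    exact measure_ball_lt_top⟩
  have hn1 : (1 : ℝ≥0∞) ≤ (n : ℝ≥0∞) := by exact_mod_cast hn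
  have hvi : Integrable v (volume.restrict (ball (0 : E n) R)) := h.mem_v.integrable hn1
  have hgi : Integrable (fun x => g x i) (volume.restrict (ball (0 : E n) R)) :=
    (h.mem_G i).integrable hn1
  -- components
  have hYj : ∀ j : Fin m, ContDiff ℝ ∞ (fun x => Y x j) := fun j =>
    (EuclideanSpace.proj (𝕜 := ℝ) j).contDiff.comp hY
  have hYjc : ∀ j : Fin m, HasCompactSupport (fun x => Y x j) := fun j =>
    hc.comp_left (g := fun y : E m => y j) rfl
  have hYjs : ∀ j : Fin m, tsupport (fun x => Y x j) ⊆ ball 0 R := fun j => by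
    refine (closure_mono ?_).trans hs
    intro x hx hx0
    exact hx (by show Y x j = 0; rw [hx0]; rfl)
  have hdj : ∀ (j : Fin m) x, fderiv ℝ (fun x => Y x j) x (ev i) = (fderiv ℝ Y x (ev i)) j := by
    intro j x
    have h1 : HasFDerivAt (fun x => Y x j)
        ((EuclideanSpace.proj (𝕜 := ℝ) j).comp (fderiv ℝ Y x)) x :=
      (EuclideanSpace.proj (𝕜 := ℝ) j).hasFDerivAt.comp x
        ((hY.differentiable (by simp)) x).hasFDerivAt
    rw [h1.fderiv]
    rfl
  have key : ∀ j : Fin m, ∫ x in ball (0 : E n) R, (fderiv ℝ Y x (ev i)) j * v x j =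
      - ∫ x in ball (0 : E n) R, Y x j * g x i j := by
    intro j
    have h1 := h.eq (fun x => Y x j) (hYj j) (hYjc j) (hYjs j) i
    have h2 := congrArg (fun y : E m => (EuclideanSpace.proj (𝕜 := ℝ) j) y) h1
    have hb1 : Integrable (fun x => (fderiv ℝ (fun x => Y x j) x (ev i)) • v x)
        (volume.restrict (ball (0 : E n) R)) := by
      have hcd : Continuous (fun x => fderiv ℝ (fun x => Y x j) x (ev i)) :=
        ((hYj j).continuous_fderiv (by simp)).clm_apply continuous_const
      have hcc : HasCompactSupport (fun x => fderiv ℝ (fun x => Y x j) x (ev i)) :=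
        ((hYjc j).fderiv ℝ).comp_left (g := fun T : E n →L[ℝ] ℝ => T (ev i)) rfl
      obtain ⟨B, hB⟩ := hcc.exists_bound_of_continuous hcd
      exact hvi.bdd_smul B hcd.aestronglyMeasurable (Eventually.of_forall hB)
    have hb2 : Integrable (fun x => Y x j • g x i)
        (volume.restrict (ball (0 : E n) R)) := by
      have hcd : Continuous (fun x => Y x j) := (hYj j).continuous
      obtain ⟨B, hB⟩ := (hYjc j).exists_bound_of_continuous hcd
      exact hgi.bdd_smul B hcd.aestronglyMeasurable (Eventually.of_forall hB)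
    rw [map_neg, ← ContinuousLinearMap.integral_comp_comm _ hb1,
      ← ContinuousLinearMap.integral_comp_comm _ hb2] at h2
    calc ∫ x in ball (0 : E n) R, (fderiv ℝ Y x (ev i)) j * v x j
        = ∫ x in ball (0 : E n) R, (EuclideanSpace.proj (𝕜 := ℝ) j)
            ((fderiv ℝ (fun x => Y x j) x (ev i)) • v x) := by
          refine integral_congr_ae (Eventually.of_forall fun x => ?_)
          show (fderiv ℝ Y x (ev i)) j * v x j = (EuclideanSpace.proj (𝕜 := ℝ) j)
            ((fderiv ℝ (fun x => Y x j) x (ev i)) • v x)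
          rw [map_smul, hdj j x]
          rfl
      _ = - ∫ x in ball (0 : E n) R, (EuclideanSpace.proj (𝕜 := ℝ) j) (Y x j • g x i) := h2
      _ = _ := by
          congr 1
  have hi1 : ∀ j ∈ (Finset.univ : Finset (Fin m)),
      Integrable (fun x => (fderiv ℝ Y x (ev i)) j * v x j)
        (volume.restrict (ball (0 : E n) R)) := by
    intro j _
    have hcd : Continuous (fun x => fderiv ℝ (fun x => Y x j) x (ev i)) :=
      ((hYj j).continuous_fderiv (by simp)).clm_apply continuous_const
    have hcc : HasCompactSupport (fun x => fderiv ℝ (fun x => Y x j) x (ev i)) :=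
      ((hYjc j).fderiv ℝ).comp_left (g := fun T : E n →L[ℝ] ℝ => T (ev i)) rfl
    obtain ⟨B, hB⟩ := hcc.exists_bound_of_continuous hcd
    have hvj : Integrable (fun x => v x j) (volume.restrict (ball (0 : E n) R)) :=
      (EuclideanSpace.proj (𝕜 := ℝ) j).integrable_comp hvi
    have := hvj.bdd_mul (c := B) hcd.aestronglyMeasurable (Eventually.of_forall hB)
    refine this.congr (Eventually.of_forall fun x => ?_)
    show fderiv ℝ (fun x => Y x j) x (ev i) * v x j = _
    rw [hdj j x]
  have hi2 : ∀ j ∈ (Finset.univ : Finset (Fin m)),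
      Integrable (fun x => Y x j * g x i j) (volume.restrict (ball (0 : E n) R)) := by
    intro j _
    have hcd : Continuous (fun x => Y x j) := (hYj j).continuous
    obtain ⟨B, hB⟩ := (hYjc j).exists_bound_of_continuous hcd
    have hvj : Integrable (fun x => g x i j) (volume.restrict (ball (0 : E n) R)) :=
      (EuclideanSpace.proj (𝕜 := ℝ) j).integrable_comp hgi
    exact hvj.bdd_mul (c := B) hcd.aestronglyMeasurable (Eventually.of_forall hB)
  have hinner : ∀ a b : E m, inner ℝ a b = ∑ j, a j * b j := by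
    intro a b
    rw [PiLp.inner_apply]
    refine Finset.sum_congr rfl fun j _ => ?_
    simp [mul_comm]
  simp_rw [hinner]
  rw [integral_finsetSum _ hi1, integral_finsetSum _ hi2, ← Finset.sum_neg_distrib]
  exact Finset.sum_congr rfl fun j _ => key j

theorem wg_C1 {n m : ℕ} {R : ℝ} {v : E n → E m} {g : E n → Fin n → E m} (hn : 1 ≤ n)
    (h : IsWeakGrad (ball 0 R) v g) (Y : E n → E m) (hY : ContDiff ℝ 1 Y)
    (hc : HasCompactSupport Y) (hs : tsupport Y ⊆ ball 0 R) (i : Fin n) :
    ∫ x in ball (0 : E n) R, inner ℝ (fderiv ℝ Y x (ev i)) (v x) =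
      - ∫ x in ball (0 : E n) R, inner ℝ (Y x) (g x i) := by
  have : IsFiniteMeasure (volume.restrict (ball (0 : E n) R)) := ⟨by
    rw [Measure.restrict_apply_univ]
    exact measure_ball_lt_top⟩
  have hn1 : (1 : ℝ≥0∞) ≤ (n : ℝ≥0∞) := by exact_mod_cast hn
  have hvi : Integrable v (volume.restrict (ball (0 : E n) R)) := h.mem_v.integrable hn1
  have hgi : Integrable (fun x => g x i) (volume.restrict (ball (0 : E n) R)) :=
    (h.mem_G i).integrable hn1
  obtain ⟨Z, A, hZs, hZc, hZt, hdZt, hZb, hdZb⟩ := wg1_moll Y hY hc hs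
  have h1 : Tendsto (fun k => ∫ x in ball (0 : E n) R, inner ℝ (fderiv ℝ (Z k) x (ev i)) (v x))
      atTop (𝓝 (∫ x in ball (0 : E n) R, inner ℝ (fderiv ℝ Y x (ev i)) (v x))) := by
    refine tendsto_integral_of_dominated_convergence (fun x => A * ‖v x‖) (fun k => ?_)
      (hvi.norm.const_mul A) (fun k => Eventually.of_forall fun x => ?_)
      (Eventually.of_forall fun x => (hdZt x i).inner tendsto_const_nhds)
    · have hdc : Continuous (fderiv ℝ (Z k)) := (hZs k).continuous_fderiv (by simp)
      exact (hdc.clm_apply continuous_const).aestronglyMeasurable.inner hvi.aestronglyMeasurable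
    · rw [Real.norm_eq_abs]
      exact (abs_real_inner_le_norm _ _).trans
        (mul_le_mul_of_nonneg_right (hdZb k x i) (norm_nonneg _))
  have h2 : Tendsto (fun k => - ∫ x in ball (0 : E n) R, inner ℝ (Z k x) (g x i))
      atTop (𝓝 (- ∫ x in ball (0 : E n) R, inner ℝ (Y x) (g x i))) := by
    refine Tendsto.neg (tendsto_integral_of_dominated_convergence (fun x => A * ‖g x i‖)
      (fun k => ?_) (hgi.norm.const_mul A) (fun k => Eventually.of_forall fun x => ?_)
      (Eventually.of_forall fun x => (hZt x).inner tendsto_const_nhds))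
    · exact (hZs k).continuous.aestronglyMeasurable.inner hgi.aestronglyMeasurable
    · rw [Real.norm_eq_abs]
      exact (abs_real_inner_le_norm _ _).trans
        (mul_le_mul_of_nonneg_right (hZb k x) (norm_nonneg _))
  refine tendsto_nhds_unique h1 (h2.congr' ?_)
  filter_upwards [hZc] with k hk
  exact (wg1_smooth hn h (Z k) (hZs k) hk.1 hk.2 i).symm

end H60NT
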