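import Pool.Agent.H60.NT.WPtB
import Pool.Agent.H60.NT.WInt
import Pool.Agent.H60.NT.El
import Pool.Agent.H60.NT.BPow
import Pool.Agent.H60.NT.WLeS

/-!
# [H60 NT WIN1] (5.1)
-/

set_option autoImplicit false

namespace H60NT

open H60NH MeasureTheory Metric Set Filter Topology
open scoped ENNReal NNReal ContDiff

/-- the annulus is covered by the rings -/
theorem win1_cover {n : ℕ} (x₀ x : E n) (α : ℕ) : ∀ k : ℕ, 1 / p2 (α + k) ≤ ‖x - x₀‖ →
    ‖x - x₀‖ ≤ 2 / p2 α → ∃ j ∈ Finset.Icc α (α + k), x ∈ rg x₀ j := by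
  intro k
  induction k with
  | zero => intro h1 h2; exact ⟨α, by simp, h1, h2⟩
  | succ k ih =>
    intro h1 h2
    by_cases h3 : 1 / p2 (α + k) ≤ ‖x - x₀‖
    · obtain ⟨j, hj, hx⟩ := ih h3 h2
      rw [Finset.mem_Icc] at hj
      exact ⟨j, Finset.mem_Icc.2 ⟨hj.1, by omega⟩, hx⟩
    · push Not at h3
      refine ⟨α + (k + 1), Finset.mem_Icc.2 ⟨by omega, le_refl _⟩, h1, ?_⟩
      have h4 : p2 (α + (k + 1)) = 2 * p2 (α + k) := by unfold p2; rw [← add_assoc, pow_succ]; ring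
      have hp := wps_p2_pos (α + k)
      rw [h4]
      refine h3.le.trans (le_of_eq ?_)
      field_simp

theorem win1_anncov {n : ℕ} (x₀ x : E n) (α β : ℕ) (h : α ≤ β) (h1 : 1 / p2 β ≤ ‖x - x₀‖)
    (h2 : ‖x - x₀‖ ≤ 2 / p2 α) : ∃ j ∈ Finset.Icc α β, x ∈ rg x₀ j := by
  obtain ⟨k, rfl⟩ := Nat.exists_eq_add_of_le h
  exact win1_cover x₀ x α k h1 h2

/-- all cutoffs vanish outside the annulus -/
theorem win1_zero {n m : ℕ} {P : Par n m} {D : Dyn P} {R : RC D} {Cp : ℝ} {α β : ℕ}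
    (pf : Pf R Cp α β) (x : E n) (hx : ¬ (1 / p2 β ≤ ‖x - R.x₀‖ ∧ ‖x - R.x₀‖ ≤ 2 / p2 α)) :
    pf.cw x = 0 ∧ ∀ j ∈ Finset.Ico α β, P.Th R.x₀ j x = 0 := by
  have h1 : pf.cw x = 0 := by
    by_contra hne
    exact hx ((chi_win P R.x₀ α β pf.lt).2.1 x hne)
  refine ⟨h1, ?_⟩
  have h2 := th_sum P R.x₀ α β pf.lt.le x
  have h3 : ∑ j ∈ Finset.Ico α β, P.Th R.x₀ j x = 0 := by rw [h2]; exact h1
  exact (Finset.sum_eq_zero_iff_of_nonneg fun j _ => ((th_facts P R.x₀ j).2.1 x).1).1 h3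

theorem win1_near {n m : ℕ} {P : Par n m} {D : Dyn P} {R : RC D} {Cp : ℝ} {α β : ℕ}
    (pf : Pf R Cp α β) (x : E n) (hx : ¬ (1 / p2 β ≤ ‖x - R.x₀‖ ∧ ‖x - R.x₀‖ ≤ 2 / p2 α)) :
    ∀ᶠ y in 𝓝 x, ¬ (1 / p2 β ≤ ‖y - R.x₀‖ ∧ ‖y - R.x₀‖ ≤ 2 / p2 α) := by
  have hc : Continuous (fun y : E n => ‖y - R.x₀‖) := (continuous_id.sub continuous_const).norm
  by_cases h1 : 1 / p2 β ≤ ‖x - R.x₀‖
  · have h2 : 2 / p2 α < ‖x - R.x₀‖ := by
      by_contra h3
      exact hx ⟨h1, not_lt.1 h3⟩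
    filter_upwards [continuousAt_const.eventually_lt hc.continuousAt h2] with y hy h
    exact absurd h.2 (not_le.2 hy)
  · push Not at h1
    filter_upwards [hc.continuousAt.eventually_lt continuousAt_const h1] with y hy h
    exact absurd h.1 (not_le.2 hy)

/-- the weights of the children -/
noncomputable def w1e {n m : ℕ} {P : Par n m} {D : Dyn P} (R : RC D) (j : ℕ)
    (z : Fin n → ℤ) (x : E n) : ℝ := P.Th R.x₀ j x * P.psi (j + R.T + n) z x

theorem w1e_facts {n m : ℕ} {P : Par n m} {D : Dyn P} (R : RC D) (j : ℕ) (hj : 1 ≤ j)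
    (z : Fin n → ℤ) : ContDiff ℝ ∞ (w1e R j z) ∧ (∀ x, |w1e R j z x| ≤ 1) ∧
      ∀ x, w1e R j z x ≠ 0 → x ∈ ball (0 : E n) 2 := by
  obtain ⟨t1, t2, t3, -⟩ := th_facts P R.x₀ j
  obtain ⟨p1, p2', -, -, -⟩ := psi_facts P (j + R.T + n) z
  refine ⟨t1.mul p1, fun x => ?_, fun x hx => ?_⟩
  · have h1 := t2 x
    have h2 := p2' x
    unfold w1e
    rw [abs_of_nonneg (mul_nonneg h1.1 h2.1)]
    exact mul_le_one₀ h1.2 h2.1 h2.2
  · have h1 : P.Th R.x₀ j x ≠ 0 := fun h => hx (by unfold w1e; rw [h, zero_mul])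
    have h2 := (t3 x h1).2
    have h3 : 2 / p2 j ≤ 1 := by
      have h4 := wps_p2_mono hj
      have h5 : p2 1 = 2 := by unfold p2; norm_num
      rw [div_le_one (wps_p2_pos j)]
      linarith
    rw [mem_ball_zero_iff]
    have h4 : ‖x‖ ≤ ‖x - R.x₀‖ + ‖R.x₀‖ := by
      have := norm_add_le (x - R.x₀) R.x₀
      rwa [sub_add_cancel] at this
    have := R.hx
    linarith

theorem win1_swap {n : ℕ} {ζ : Type*} (J : Finset ℕ) (B : ℕ → Finset ζ)
    (F : ℕ → ζ → Fin n → ℝ) (c : ℝ) :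
    ∑ j ∈ J, ∑ z ∈ B j, c * ∑ i, F j z i = c * ∑ i, ∑ j ∈ J, ∑ z ∈ B j, F j z i := by
  rw [Finset.sum_comm, Finset.mul_sum]
  refine Finset.sum_congr rfl fun j _ => ?_
  rw [Finset.sum_comm, Finset.mul_sum]

theorem win1 {n m : ℕ} (P : Par n m) (Cp : ℝ) (hCp : 1 ≤ Cp) : Uni P (fun C _ R =>
    ∀ (α β : ℕ) (pf : Pf R Cp α β), α + 2 ≤ β → ∀ (ηb : ℝ) (V : ℕ → (Fin n → ℤ) → ℝ),
      0 ≤ ηb → ηb ≤ 1 → pf.HV ηb V →
      ηb * ((∫ x in R.S, pf.cw x * pf.gL x) + (∫ x, pf.FL x) + ∫ x, pf.QL x) ≤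
        pf.SV V + C * ∑ j ∈ Finset.Icc α β, pf.Er j) := by
  have hn := P.hn
  have hn1 : (1 : ℝ) ≤ n := by exact_mod_cast (by omega : 1 ≤ n)
  obtain ⟨CA, hCA, HA⟩ := w_ptA P Cp hCp
  obtain ⟨CB, eB, hCB, heB, HB⟩ := w_ptB P Cp hCp
  obtain ⟨ε₁, hε₁, Hel⟩ := el_id P
  obtain ⟨Cv, hCv, Hv⟩ := fr_vol n (by omega)
  obtain ⟨_, t1, _, ht1, Hb⟩ := b_pow P
  set K : ℝ := CA * Cp + n * CB * (1 + Cv) with hK
  have hK0 : 0 ≤ n * CB * (1 + Cv) := by positivity
  have hKA : 0 ≤ CA * Cp := by positivity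
  have hAp : 1 ≤ CA * Cp := one_le_mul_of_one_le_of_one_le hCA hCp
  refine ⟨K, t1, by linarith, ht1, ?_⟩
  intro Q C₅ t₀ hC5 ht0 hle
  obtain ⟨e, he, he1, H1⟩ := Hb Q C₅ t₀ hC5 ht0 hle
  refine ⟨min e (min eB ε₁), lt_min he (lt_min heB hε₁), (min_le_left _ _).trans he1, ?_⟩
  intro D R hR α β pf hαβ ηb V hη0 hη1 hHV
  have hSm : MeasurableSet R.S := (H1 D R (hR.mono (min_le_left _ _))).1
  have hReB : R.e ≤ eB := hR.e_le.trans ((min_le_right _ _).trans (min_le_left _ _))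
  have hDε : D.ε ≤ ε₁ := hR.ε_le.trans ((min_le_right _ _).trans (min_le_right _ _))
  obtain ⟨hI1, hI2, hI3, -⟩ := w_int pf hαβ hSm
  have hα1 := wle_alpha pf
  have ha := pf.a_nonneg
  have hf0 : ∀ x, 0 ≤ D.f x := fun x => Real.sqrt_nonneg _
  obtain ⟨-, -, -, hfn, -, -, -, hpi⟩ := dyn_int D
  have hDj0 : ∀ j, 0 ≤ R.Dj j := fun j =>
    integral_nonneg fun x => pow_nonneg (Real.sqrt_nonneg _) n
  have hee : R.e ^ (R.Q + 4) ≤ R.e ^ (R.Q + 3) :=
    pow_le_pow_of_le_one R.e_pos.le R.e_le (by omega)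
  have hTe : (1 / 2 : ℝ) ^ R.T ≤ R.e ^ (R.Q + 3) := R.T1.trans hee
  have hT0 : (0 : ℝ) ≤ (1 / 2) ^ R.T := by positivity
  have haCp : pf.a ≤ Cp := by
    exact pf.a_le.trans (mul_le_of_le_one_right (by linarith) R.e_le)
  have epow : ∀ x, D.f x ^ (n - 2) * D.f x = D.f x ^ (n - 1) := by
    intro x
    rw [← pow_succ]; congr 1; omega
  have epow2 : ∀ x, D.f x ^ (n - 2) * D.f x ^ 2 = D.f x ^ n := by
    intro x
    rw [← pow_add]; congr 1; omega
  -- the points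
  set pt : ℕ → (Fin n → ℤ) → E m := fun j z => pf.lam (zc (j + R.T + n) z) with hpt
  have hptN : ∀ j z, pt j z ∈ P.N := fun j z => pf.lam_mem _
  have hj1 : ∀ j ∈ Finset.Ico α β, 1 ≤ j := fun j hj => by
    rw [Finset.mem_Ico] at hj; omega
  -- integrability of the pieces
  have hG1 : ∀ j ∈ Finset.Ico α β, ∀ z, Integrable (fun x => w1e R j z x * D.gq (pt j z) x) := by
    intro j hj z
    obtain ⟨c1, c2, -⟩ := w1e_facts R j (hj1 j hj) z
    exact hpi _ 1 _ c1.continuous.measurable c2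
  have hG2 : ∀ j ∈ Finset.Ico α β, ∀ z, Integrable (fun x => D.f x ^ (n - 2) *
      ∑ i, inner ℝ (D.G x i) (P.F (pt j z) (D.u x)) * fderiv ℝ (w1e R j z) x (ev i)) ∧
      D.Phi (w1e R j z) (pt j z) = - D.Fl (w1e R j z) (pt j z) := by
    intro j hj z
    obtain ⟨c1, -, c3⟩ := w1e_facts R j (hj1 j hj) z
    exact Hel D hDε _ c1 c3 _ (hptN j z)
  -- the two sums
  set A1 : E n → ℝ := fun x => ∑ j ∈ Finset.Ico α β, ∑ z ∈ box n (j + R.T + n),
    w1e R j z x * D.gq (pt j z) x with hA1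
  set A2 : E n → ℝ := fun x => ∑ j ∈ Finset.Ico α β, ∑ z ∈ box n (j + R.T + n),
    D.f x ^ (n - 2) * ∑ i, inner ℝ (D.G x i) (P.F (pt j z) (D.u x)) *
      fderiv ℝ (w1e R j z) x (ev i) with hA2
  have hA1i : Integrable A1 := integrable_finsetSum _ fun j hj =>
    integrable_finsetSum _ fun z _ => hG1 j hj z
  have hA2i : Integrable A2 := integrable_finsetSum _ fun j hj =>
    integrable_finsetSum _ fun z _ => (hG2 j hj z).1
  have hA1s : ∫ x in R.S, A1 x = ∑ j ∈ Finset.Ico α β, ∑ z ∈ box n (j + R.T + n),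
      ∫ x in R.S, w1e R j z x * D.gq (pt j z) x := by
    rw [hA1, integral_finsetSum _ fun j hj => (integrable_finsetSum _ fun z _ =>
      (hG1 j hj z).integrableOn)]
    refine Finset.sum_congr rfl fun j hj => ?_
    rw [integral_finsetSum _ fun z _ => (hG1 j hj z).integrableOn]
  have hA2s : ∫ x, A2 x = ∑ j ∈ Finset.Ico α β, ∑ z ∈ box n (j + R.T + n),
      D.Fl (w1e R j z) (pt j z) := by
    rw [hA2, integral_finsetSum _ fun j hj => (integrable_finsetSum _ fun z _ =>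
      (hG2 j hj z).1)]
    refine Finset.sum_congr rfl fun j hj => ?_
    rw [integral_finsetSum _ fun z _ => (hG2 j hj z).1]
    rfl
  have hsumV : ηb * ((∫ x in R.S, A1 x) + ∫ x, A2 x) ≤ pf.SV V := by
    rw [hA1s, hA2s, ← Finset.sum_add_distrib, Finset.mul_sum]
    unfold Pf.SV
    refine Finset.sum_le_sum fun j hj => ?_
    rw [← Finset.sum_add_distrib, Finset.mul_sum]
    refine Finset.sum_le_sum fun z hz => ?_
    have h1 := hHV j hj z hz
    have h2 := (hG2 j hj z).2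
    have h3 : D.Phi (fun x => P.Th R.x₀ j x * P.psi (j + R.T + n) z x)
        (pf.lam (zc (j + R.T + n) z)) = - D.Fl (w1e R j z) (pt j z) := h2
    rw [h3, sub_neg_eq_add] at h1
    exact h1
  -- pointwise bounds
  have hp1 : ∀ x, 1 / p2 β ≤ ‖x - R.x₀‖ → ‖x - R.x₀‖ ≤ 2 / p2 α →
      |pf.cw x * pf.gL x - A1 x| ≤ CA * (pf.a * (1 / 2) ^ R.T) * D.f x ^ n := by
    intro x h1 h2
    have e0 : A1 x = D.f x ^ (n - 2) * ∑ i, ∑ j ∈ Finset.Ico α β, ∑ z ∈ box n (j + R.T + n),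
          P.Th R.x₀ j x * P.psi (j + R.T + n) z x *
            inner ℝ (D.G x i) (fderiv ℝ (P.F (pf.lam (zc (j + R.T + n) z))) (D.u x)
              (D.G x i)) := by
      rw [← win1_swap]
      refine Finset.sum_congr rfl fun j _ => Finset.sum_congr rfl fun z _ => ?_
      unfold Dyn.gq w1e
      rw [mul_left_comm, Finset.mul_sum]
    have e1 : pf.cw x * pf.gL x - A1 x = -(D.f x ^ (n - 2) * ∑ i,
        ((∑ j ∈ Finset.Ico α β, ∑ z ∈ box n (j + R.T + n),
          P.Th R.x₀ j x * P.psi (j + R.T + n) z x *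
            inner ℝ (D.G x i) (fderiv ℝ (P.F (pf.lam (zc (j + R.T + n) z))) (D.u x) (D.G x i))) -
        pf.cw x * inner ℝ (D.G x i) (fderiv ℝ (P.F (pf.lam x)) (D.u x) (D.G x i)))) := by
      rw [Finset.sum_sub_distrib, mul_sub, neg_sub, e0]
      congr 1
      unfold Pf.gL
      rw [← Finset.mul_sum]
      ring
    rw [e1, abs_neg, abs_mul, abs_of_nonneg (pow_nonneg (hf0 x) _)]
    have h3 : |∑ i, ((∑ j ∈ Finset.Ico α β, ∑ z ∈ box n (j + R.T + n),
          P.Th R.x₀ j x * P.psi (j + R.T + n) z x *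
            inner ℝ (D.G x i) (fderiv ℝ (P.F (pf.lam (zc (j + R.T + n) z))) (D.u x) (D.G x i))) -
        pf.cw x * inner ℝ (D.G x i) (fderiv ℝ (P.F (pf.lam x)) (D.u x) (D.G x i)))| ≤
        CA * (pf.a * (1 / 2) ^ R.T) * D.f x ^ 2 := by
      refine (Finset.abs_sum_le_sum_abs _ _).trans ?_
      have h4 : D.f x ^ 2 = ∑ i, ‖D.G x i‖ ^ 2 := by
        unfold Dyn.f gn
        exact Real.sq_sqrt (Finset.sum_nonneg fun i _ => by positivity)
      rw [h4, Finset.mul_sum]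
      exact Finset.sum_le_sum fun i _ => HA D R α β pf x h1 h2 (D.u x) (D.G x i)
    refine (mul_le_mul_of_nonneg_left h3 (pow_nonneg (hf0 x) _)).trans (le_of_eq ?_)
    rw [← epow2 x]
    ring
  have hp2 : ∀ x, 1 / p2 β ≤ ‖x - R.x₀‖ → ‖x - R.x₀‖ ≤ 2 / p2 α →
      |pf.FL x + pf.QL x - A2 x| ≤
        n * CB * (1 / 2) ^ R.T * (D.f x ^ (n - 1) * (pf.a / ‖x - R.x₀‖)) := by
    intro x h1 h2
    have e0 : A2 x = D.f x ^ (n - 2) * ∑ i, ∑ j ∈ Finset.Ico α β, ∑ z ∈ box n (j + R.T + n),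
          inner ℝ (D.G x i) (P.F (pt j z) (D.u x)) * fderiv ℝ (w1e R j z) x (ev i) := by
      rw [← win1_swap]
    have e2 : ∀ i, ∑ j ∈ Finset.Ico α β, ∑ z ∈ box n (j + R.T + n),
          inner ℝ (D.G x i) (P.F (pt j z) (D.u x)) * fderiv ℝ (w1e R j z) x (ev i) =
        inner ℝ (D.G x i) (∑ j ∈ Finset.Ico α β, ∑ z ∈ box n (j + R.T + n),
          fderiv ℝ (fun x => P.Th R.x₀ j x * P.psi (j + R.T + n) z x) x (ev i) •
            P.F (pf.lam (zc (j + R.T + n) z)) (D.u x)) := by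
      intro i
      rw [inner_sum]
      refine Finset.sum_congr rfl fun j _ => ?_
      rw [inner_sum]
      refine Finset.sum_congr rfl fun z _ => ?_
      rw [inner_smul_right, mul_comm]
      rfl
    have e1 : pf.FL x + pf.QL x - A2 x = -(D.f x ^ (n - 2) * ∑ i, inner ℝ (D.G x i)
        ((∑ j ∈ Finset.Ico α β, ∑ z ∈ box n (j + R.T + n),
          fderiv ℝ (fun x => P.Th R.x₀ j x * P.psi (j + R.T + n) z x) x (ev i) •
            P.F (pf.lam (zc (j + R.T + n) z)) (D.u x)) -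
        (fderiv ℝ pf.cw x (ev i) • P.F (pf.lam x) (D.u x) +
          pf.cw x • fderiv ℝ (fun p => P.F p (D.u x)) (pf.lam x) (pf.Lam x i)))) := by
      have e3 : ∀ i, inner ℝ (D.G x i)
        ((∑ j ∈ Finset.Ico α β, ∑ z ∈ box n (j + R.T + n),
          fderiv ℝ (fun x => P.Th R.x₀ j x * P.psi (j + R.T + n) z x) x (ev i) •
            P.F (pf.lam (zc (j + R.T + n) z)) (D.u x)) -
        (fderiv ℝ pf.cw x (ev i) • P.F (pf.lam x) (D.u x) +
          pf.cw x • fderiv ℝ (fun p => P.F p (D.u x)) (pf.lam x) (pf.Lam x i))) =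
        (∑ j ∈ Finset.Ico α β, ∑ z ∈ box n (j + R.T + n),
          inner ℝ (D.G x i) (P.F (pt j z) (D.u x)) * fderiv ℝ (w1e R j z) x (ev i)) -
        (inner ℝ (D.G x i) (P.F (pf.lam x) (D.u x)) * fderiv ℝ pf.cw x (ev i) +
          pf.cw x * inner ℝ (D.G x i)
            (fderiv ℝ (fun p => P.F p (D.u x)) (pf.lam x) (pf.Lam x i))) := by
        intro i
        rw [e2 i, inner_sub_right, inner_add_right, inner_smul_right, inner_smul_right]
        ring
      rw [Finset.sum_congr rfl fun i _ => e3 i, Finset.sum_sub_distrib, Finset.sum_add_distrib,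
        mul_sub, ← e0, neg_sub, mul_add, ← Finset.mul_sum]
      congr 1
      unfold Pf.FL Pf.QL
      ring
    have hr : 0 < ‖x - R.x₀‖ := lt_of_lt_of_le (by have := wps_p2_pos β; positivity) h1
    rw [e1, abs_neg, abs_mul, abs_of_nonneg (pow_nonneg (hf0 x) _)]
    have h3 : |∑ i, inner ℝ (D.G x i)
        ((∑ j ∈ Finset.Ico α β, ∑ z ∈ box n (j + R.T + n),
          fderiv ℝ (fun x => P.Th R.x₀ j x * P.psi (j + R.T + n) z x) x (ev i) •
            P.F (pf.lam (zc (j + R.T + n) z)) (D.u x)) -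
        (fderiv ℝ pf.cw x (ev i) • P.F (pf.lam x) (D.u x) +
          pf.cw x • fderiv ℝ (fun p => P.F p (D.u x)) (pf.lam x) (pf.Lam x i)))| ≤
        n * (D.f x * (CB * (pf.a * (1 / 2) ^ R.T) / ‖x - R.x₀‖)) := by
      refine (Finset.abs_sum_le_sum_abs _ _).trans ?_
      have h4 : ∀ i ∈ (Finset.univ : Finset (Fin n)), |inner ℝ (D.G x i)
        ((∑ j ∈ Finset.Ico α β, ∑ z ∈ box n (j + R.T + n),
          fderiv ℝ (fun x => P.Th R.x₀ j x * P.psi (j + R.T + n) z x) x (ev i) •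
            P.F (pf.lam (zc (j + R.T + n) z)) (D.u x)) -
        (fderiv ℝ pf.cw x (ev i) • P.F (pf.lam x) (D.u x) +
          pf.cw x • fderiv ℝ (fun p => P.F p (D.u x)) (pf.lam x) (pf.Lam x i)))| ≤
          D.f x * (CB * (pf.a * (1 / 2) ^ R.T) / ‖x - R.x₀‖) := by
        intro i _
        refine (abs_real_inner_le_norm _ _).trans ?_
        exact mul_le_mul (wps_gn (D.G x) i) (HB D R α β pf x hReB h1 h2 (D.u x) i)
          (norm_nonneg _) (hf0 x)
      refine (Finset.sum_le_sum h4).trans (le_of_eq ?_)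
      rw [Finset.sum_const, Finset.card_univ, Fintype.card_fin, nsmul_eq_mul]
    refine (mul_le_mul_of_nonneg_left h3 (pow_nonneg (hf0 x) _)).trans (le_of_eq ?_)
    rw [← epow x]
    ring
  -- vanishing outside the annulus
  have hz1 : ∀ x, ¬ (1 / p2 β ≤ ‖x - R.x₀‖ ∧ ‖x - R.x₀‖ ≤ 2 / p2 α) →
      pf.cw x * pf.gL x - A1 x = 0 := by
    intro x hx
    obtain ⟨h1, h2⟩ := win1_zero pf x hx
    have h3 : A1 x = 0 := by
      refine Finset.sum_eq_zero fun j hj => Finset.sum_eq_zero fun z _ => ?_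
      unfold w1e
      rw [h2 j hj]
      ring
    rw [h1, h3]
    ring
  have hz2 : ∀ x, ¬ (1 / p2 β ≤ ‖x - R.x₀‖ ∧ ‖x - R.x₀‖ ≤ 2 / p2 α) →
      pf.FL x + pf.QL x - A2 x = 0 := by
    intro x hx
    have hnear := win1_near pf x hx
    have h1 := (win1_zero pf x hx).1
    have h2 : fderiv ℝ pf.cw x = 0 := by
      have h3 : pf.cw =ᶠ[𝓝 x] fun _ => (0 : ℝ) := by
        filter_upwards [hnear] with y hy
        exact (win1_zero pf y hy).1
      rw [h3.fderiv_eq]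
      exact fderiv_const_apply 0
    have h4 : ∀ j ∈ Finset.Ico α β, ∀ z, fderiv ℝ (w1e R j z) x = 0 := by
      intro j hj z
      have h3 : w1e R j z =ᶠ[𝓝 x] fun _ => (0 : ℝ) := by
        filter_upwards [hnear] with y hy
        unfold w1e
        rw [(win1_zero pf y hy).2 j hj, zero_mul]
      rw [h3.fderiv_eq]
      exact fderiv_const_apply 0
    have h5 : A2 x = 0 := by
      refine Finset.sum_eq_zero fun j hj => Finset.sum_eq_zero fun z _ => ?_
      rw [h4 j hj z]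
      simp
    rw [h5]
    unfold Pf.FL Pf.QL
    rw [h1, h2]
    simp
  have hrm : ∀ j, MeasurableSet (rg R.x₀ j) := fun j => (rg_meas R.x₀ j).1
  have hrv : ∀ j, volume (rg R.x₀ j) < ⊤ := fun j => wls_vol R.x₀ j
  have hDjle : ∀ j A, MeasurableSet A → ∫ x in rg R.x₀ j ∩ A, D.f x ^ n ≤ R.Dj j := by
    intro j A hA
    unfold RC.Dj
    refine setIntegral_mono_set hfn.integrableOn (Eventually.of_forall fun x =>
      pow_nonneg (hf0 x) n) (HasSubset.Subset.eventuallyLE ?_)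
    rintro x ⟨hx, -⟩
    obtain ⟨a1, a2⟩ := hx
    have hpj := wps_p2_pos j
    constructor
    · refine le_trans ?_ a1
      apply one_div_le_one_div_of_le hpj
      linarith
    · refine a2.trans ?_
      rw [div_le_div_iff₀ hpj hpj]
      linarith
  have hvle : ∀ j A, (volume (rg R.x₀ j ∩ A)).toReal * p2 j ^ n ≤ Cv := by
    intro j A
    have h1 := (Hv R.x₀ j).2.2.1
    have h2 : (volume (rg R.x₀ j ∩ A)).toReal ≤ (volume (rg R.x₀ j)).toReal :=
      ENNReal.toReal_mono (hrv j).ne (measure_mono inter_subset_left)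
    have hpj := wps_p2_pos j
    have h3 := mul_le_mul_of_nonneg_right h2 (pow_nonneg hpj.le n)
    linarith
  have hrel : ∀ j x, x ∈ rg R.x₀ j → pf.a / ‖x - R.x₀‖ ≤ pf.a * p2 j ∧ 0 ≤ pf.a / ‖x - R.x₀‖ := by
    intro j x hx
    have hpj := wps_p2_pos j
    have hr : 0 < ‖x - R.x₀‖ := lt_of_lt_of_le (by positivity) hx.1
    refine ⟨?_, by positivity⟩
    rw [div_le_iff₀ hr]
    have h4 : 1 ≤ p2 j * ‖x - R.x₀‖ := by
      have := hx.1
      rw [div_le_iff₀ hpj] at this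
      linarith
    have := mul_le_mul_of_nonneg_left h4 ha
    linarith
  have hEr : ∀ j, (1 / 2 : ℝ) ^ R.T * (R.Dj j + pf.a ^ n) ≤ pf.Er j := fun j =>
    mul_le_mul_of_nonneg_right hTe (add_nonneg (hDj0 j) (pow_nonneg ha n))
  have hX1i : Integrable (fun x => pf.cw x * pf.gL x - A1 x) := hI1.sub hA1i
  have hX2i : Integrable (fun x => pf.FL x + pf.QL x - A2 x) := (hI2.add hI3).sub hA2i
  have hE1 : ∫ x in R.S, |pf.cw x * pf.gL x - A1 x| ≤
      CA * Cp * ∑ j ∈ Finset.Icc α β, pf.Er j := by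
    refine (wls_cover R.x₀ α β R.S hSm _ (fun x => abs_nonneg _) hX1i.abs ?_).trans ?_
    · intro x hx
      by_contra hno
      apply hx
      rw [abs_eq_zero]
      apply hz1
      rintro ⟨h1, h2⟩
      exact hno (win1_anncov R.x₀ x α β pf.lt.le h1 h2)
    · rw [Finset.mul_sum]
      refine Finset.sum_le_sum fun j hj => ?_
      have hb : ∀ᵐ x, x ∈ rg R.x₀ j ∩ R.S → |pf.cw x * pf.gL x - A1 x| ≤
          CA * Cp * (1 / 2) ^ R.T * D.f x ^ n + 0 := by
        refine Eventually.of_forall fun x hx => ?_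
        rw [add_zero]
        have hfx := pow_nonneg (hf0 x) n
        by_cases hA : 1 / p2 β ≤ ‖x - R.x₀‖ ∧ ‖x - R.x₀‖ ≤ 2 / p2 α
        · refine (hp1 x hA.1 hA.2).trans ?_
          have : CA * (pf.a * (1 / 2) ^ R.T) ≤ CA * (Cp * (1 / 2) ^ R.T) := by gcongr
          have h5 := mul_le_mul_of_nonneg_right this hfx
          linarith
        · rw [hz1 x hA, abs_zero]
          positivity
      have hv' : volume (rg R.x₀ j ∩ R.S) < ⊤ :=
        lt_of_le_of_lt (measure_mono inter_subset_left) (hrv j)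
      refine (wls_dom ((hrm j).inter hSm) hv' hfn hb).trans ?_
      rw [zero_mul, add_zero]
      have k1 := hDjle j R.S hSm
      have k2 : CA * Cp * (1 / 2) ^ R.T * (∫ x in rg R.x₀ j ∩ R.S, D.f x ^ n) ≤
          CA * Cp * (1 / 2) ^ R.T * (R.Dj j + pf.a ^ n) := by
        have : 0 ≤ pf.a ^ n := pow_nonneg ha n
        have h0 : 0 ≤ CA * Cp * (1 / 2 : ℝ) ^ R.T := by positivity
        exact mul_le_mul_of_nonneg_left (by linarith) h0
      have k3 := mul_le_mul_of_nonneg_left (hEr j) hKA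
      linarith
  have hE2 : ∫ x, |pf.FL x + pf.QL x - A2 x| ≤
      n * CB * (1 + Cv) * ∑ j ∈ Finset.Icc α β, pf.Er j := by
    rw [← setIntegral_univ]
    refine (wls_cover R.x₀ α β univ MeasurableSet.univ _ (fun x => abs_nonneg _) hX2i.abs
      ?_).trans ?_
    · intro x hx
      by_contra hno
      apply hx
      rw [abs_eq_zero]
      apply hz2
      rintro ⟨h1, h2⟩
      exact hno (win1_anncov R.x₀ x α β pf.lt.le h1 h2)
    · rw [Finset.mul_sum]
      refine Finset.sum_le_sum fun j hj => ?_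
      have hb : ∀ᵐ x, x ∈ rg R.x₀ j ∩ univ → |pf.FL x + pf.QL x - A2 x| ≤
          n * CB * (1 / 2) ^ R.T * D.f x ^ n + n * CB * (1 / 2) ^ R.T * (pf.a * p2 j) ^ n := by
        refine Eventually.of_forall fun x hx => ?_
        obtain ⟨r1, r2⟩ := hrel j x hx.1
        have hfx := pow_nonneg (hf0 x) n
        have hap : 0 ≤ pf.a * p2 j := r2.trans r1
        by_cases hA : 1 / p2 β ≤ ‖x - R.x₀‖ ∧ ‖x - R.x₀‖ ≤ 2 / p2 α
        · refine (hp2 x hA.1 hA.2).trans ?_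
          have y1 := (young1 n (by omega) (D.f x) (pf.a / ‖x - R.x₀‖) (hf0 x) r2).1
          have y2 : (pf.a / ‖x - R.x₀‖) ^ n ≤ (pf.a * p2 j) ^ n := pow_le_pow_left₀ r2 r1 n
          have h0 : 0 ≤ n * CB * (1 / 2 : ℝ) ^ R.T := by positivity
          have h5 := mul_le_mul_of_nonneg_left (y1.trans (add_le_add le_rfl y2)) h0
          linarith
        · rw [hz2 x hA, abs_zero]
          positivity
      have hv' : volume (rg R.x₀ j ∩ univ) < ⊤ :=
        lt_of_le_of_lt (measure_mono inter_subset_left) (hrv j)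
      refine (wls_dom ((hrm j).inter MeasurableSet.univ) hv' hfn hb).trans ?_
      have k1 := hDjle j univ MeasurableSet.univ
      have k2 := hvle j univ
      have h0 : 0 ≤ n * CB * (1 / 2 : ℝ) ^ R.T := by positivity
      have han : 0 ≤ pf.a ^ n := pow_nonneg ha n
      have k3 := mul_le_mul_of_nonneg_left k1 h0
      have k4 : n * CB * (1 / 2) ^ R.T * (pf.a * p2 j) ^ n *
          (volume (rg R.x₀ j ∩ univ)).toReal ≤ n * CB * (1 / 2) ^ R.T * (pf.a ^ n * Cv) := by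
        rw [mul_pow]
        have := mul_le_mul_of_nonneg_left k2 (mul_nonneg h0 han)
        linarith
      have k5 := mul_le_mul_of_nonneg_left (hEr j) hK0
      have k6 : n * CB * (1 / 2) ^ R.T * R.Dj j + n * CB * (1 / 2) ^ R.T * (pf.a ^ n * Cv) ≤
          n * CB * (1 + Cv) * ((1 / 2) ^ R.T * (R.Dj j + pf.a ^ n)) := by
        have h6 : 0 ≤ n * CB * (1 / 2 : ℝ) ^ R.T * (Cv * R.Dj j) :=
          mul_nonneg h0 (mul_nonneg (by linarith) (hDj0 j))
        have h7 : 0 ≤ n * CB * (1 / 2 : ℝ) ^ R.T * pf.a ^ n := mul_nonneg h0 han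
        linarith
      linarith
  -- conclusion
  have f1 : ∫ x in R.S, pf.cw x * pf.gL x =
      (∫ x in R.S, A1 x) + ∫ x in R.S, (pf.cw x * pf.gL x - A1 x) := by
    rw [← integral_add hA1i.integrableOn hX1i.integrableOn]
    congr 1
    funext x
    ring
  have f2 : (∫ x, pf.FL x) + ∫ x, pf.QL x =
      (∫ x, A2 x) + ∫ x, (pf.FL x + pf.QL x - A2 x) := by
    rw [← integral_add hI2 hI3, ← integral_add hA2i hX2i]
    congr 1
    funext x
    ring
  have g1 : ∫ x in R.S, (pf.cw x * pf.gL x - A1 x) ≤ CA * Cp * ∑ j ∈ Finset.Icc α β, pf.Er j :=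
    ((le_abs_self _).trans abs_integral_le_integral_abs).trans hE1
  have g2 : ∫ x, (pf.FL x + pf.QL x - A2 x) ≤
      n * CB * (1 + Cv) * ∑ j ∈ Finset.Icc α β, pf.Er j :=
    ((le_abs_self _).trans abs_integral_le_integral_abs).trans hE2
  set Es := ∑ j ∈ Finset.Icc α β, pf.Er j with hE
  have hE0 : 0 ≤ Es := Finset.sum_nonneg fun j _ =>
    mul_nonneg (pow_nonneg R.e_pos.le _) (add_nonneg (hDj0 j) (pow_nonneg ha n))
  have hfin : ηb * ((∫ x in R.S, pf.cw x * pf.gL x) + (∫ x, pf.FL x) + ∫ x, pf.QL x) ≤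
      ηb * ((∫ x in R.S, A1 x) + ∫ x, A2 x) + ηb * (K * Es) := by
    rw [← mul_add]
    refine mul_le_mul_of_nonneg_left ?_ hη0
    rw [hK]
    linarith
  have hlast : ηb * (K * Es) ≤ K * Es := by
    have : 0 ≤ K * Es := mul_nonneg (by rw [hK]; linarith) hE0
    exact mul_le_of_le_one_left this hη1
  linarith

end H60NT
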