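import Pool.Agent.H60.NT.Win1
import Pool.Agent.H60.NT.Win2
import Pool.Agent.H60.NT.WLeS
import Pool.Agent.H60.NT.MonoV

/-!
# [H60 NT WIN4] (5.3)

On `S`, `cw ≥ 0`: `mono_vec` with `a = G x`, `b = Lam x` (`G_i - Lam_i = g_i` on `ball 0 64`), so
`∫_S cw z ≤ 2^n ( ∫_S cw f^(n-2) ∑⟨G_i, g_i⟩ - ∫_S cw fl^(n-2) ∑⟨Lam_i, g_i⟩ )`. By `win2` and `win1` (multiplied by `ηb/κ₀`) and `w_leS`:
`ηb ∫_S cw z ≤ C ( SV V + ηb |∫_S ∑ ⟨f^(n-2) G_i - fl^(n-2) Lam_i, v⟩ ∂_i cw| + ηb (Cur + Bdy) + ∑ E_j )`, the boundary integral is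
`≤ C Bdy` (`vec_diff`, `|∂_i cw| ≤ C ‖x - x₀‖⁻¹`, zero outside `rg α ∪ rg β`). (`SV V` may be negative in principle, so
multiply `win1` by the positive constant `2^n/κ₀` and then use `0 ≤ V j z`.)
-/

set_option autoImplicit false

namespace H60NT

open H60NH MeasureTheory Metric Set Filter Topology
open scoped ENNReal NNReal ContDiff

lemma win4_ev {n : ℕ} (i : Fin n) : ‖(ev i : E n)‖ = 1 := by
  unfold ev
  rw [EuclideanSpace.norm_single]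
  norm_num

lemma win4_chi {n m : ℕ} (P : Par n m) (x₀ : E n) (j : ℕ) (x : E n) (i : Fin n) :
    |fderiv ℝ (P.chi x₀ j) x (ev i)| ≤ 2 * P.Lκ * ‖x - x₀‖⁻¹ := by
  obtain ⟨a1, a2, a3, a4, a5, a6, a7, a8⟩ := chi_facts P x₀ j
  have hL := P.hκ.one_le
  have hp : 0 < p2 j := chif_p2_pos j
  by_cases hx : x ∈ rg x₀ j
  · have h1 := a6 x (ev i)
    rw [win4_ev, mul_one] at h1
    refine h1.trans ?_
    have h2 : 0 < ‖x - x₀‖ := lt_of_lt_of_le (by positivity) hx.1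
    have h3 : p2 j ≤ 2 * ‖x - x₀‖⁻¹ := by
      have h4 := hx.2
      rw [le_div_iff₀ hp] at h4
      rw [← div_eq_mul_inv, le_div_iff₀ h2]
      linarith
    calc P.Lκ * p2 j ≤ P.Lκ * (2 * ‖x - x₀‖⁻¹) :=
          mul_le_mul_of_nonneg_left h3 (by linarith)
      _ = 2 * P.Lκ * ‖x - x₀‖⁻¹ := by ring
  · rw [a7 x hx, ContinuousLinearMap.zero_apply, abs_zero]
    positivity

lemma win4_cw {n m : ℕ} {P : Par n m} {D : Dyn P} {R : RC D} {Cp : ℝ} {α β : ℕ}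
    (pf : Pf R Cp α β) (x : E n) :
    fderiv ℝ pf.cw x = fderiv ℝ (P.chi R.x₀ α) x - fderiv ℝ (P.chi R.x₀ β) x := by
  obtain ⟨a1, -⟩ := chi_facts P R.x₀ α
  obtain ⟨b1, -⟩ := chi_facts P R.x₀ β
  have e : pf.cw = P.chi R.x₀ α - P.chi R.x₀ β := by
    funext y
    rfl
  rw [e]
  exact fderiv_sub (a1.differentiable (by norm_num)).differentiableAt
    (b1.differentiable (by norm_num)).differentiableAt

lemma win4_cwd {n m : ℕ} {P : Par n m} {D : Dyn P} {R : RC D} {Cp : ℝ} {α β : ℕ}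
    (pf : Pf R Cp α β) (x : E n) (i : Fin n) :
    |fderiv ℝ pf.cw x (ev i)| ≤ 4 * P.Lκ * ‖x - R.x₀‖⁻¹ := by
  rw [win4_cw, ContinuousLinearMap.sub_apply]
  have h1 := win4_chi P R.x₀ α x i
  have h2 := win4_chi P R.x₀ β x i
  have h3 := abs_sub (fderiv ℝ (P.chi R.x₀ α) x (ev i)) (fderiv ℝ (P.chi R.x₀ β) x (ev i))
  linarith

lemma win4_cw0 {n m : ℕ} {P : Par n m} {D : Dyn P} {R : RC D} {Cp : ℝ} {α β : ℕ}
    (pf : Pf R Cp α β) (x : E n) (hx : x ∉ rg R.x₀ α ∪ rg R.x₀ β) :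
    fderiv ℝ pf.cw x = 0 := by
  obtain ⟨a1, a2, a3, a4, a5, a6, a7, a8⟩ := chi_facts P R.x₀ α
  obtain ⟨b1, b2, b3, b4, b5, b6, b7, b8⟩ := chi_facts P R.x₀ β
  rw [Set.mem_union, not_or] at hx
  rw [win4_cw, a7 x hx.1, b7 x hx.2, sub_zero]

lemma win4_gn {n m : ℕ} (a : Fin n → E m) : 0 ≤ gn a := Real.sqrt_nonneg _

lemma win4_z {n m : ℕ} {P : Par n m} {D : Dyn P} {R : RC D} {Cp : ℝ} {α β : ℕ}
    (pf : Pf R Cp α β) (x : E n) :
    pf.z x ≤ 2 ^ n * (D.f x ^ (n - 2) * ∑ i, inner ℝ (D.G x i) (pf.g x i) -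
      pf.fl x ^ (n - 2) * ∑ i, inner ℝ (pf.Lam x i) (pf.g x i)) := by
  by_cases hx : x ∈ ball (0 : E n) 64
  · have hg : pf.g x = fun i => D.G x i - pf.Lam x i := by
      funext i
      unfold Pf.g
      rw [Set.indicator_of_mem hx]
    have h1 := mono_vec P.hn (D.G x) (pf.Lam x)
    unfold Pf.z
    rw [hg]
    refine (h1.trans (le_of_eq ?_))
    congr 1
    rw [Finset.mul_sum, Finset.mul_sum, ← Finset.sum_sub_distrib]
    refine Finset.sum_congr rfl fun i _ => ?_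
    rw [inner_sub_left, real_inner_smul_left, real_inner_smul_left]
    rfl
  · have hg : pf.g x = fun i => 0 := by
      funext i
      unfold Pf.g
      rw [Set.indicator_of_notMem hx]
    have h0 : gn (fun _ : Fin n => (0 : E m)) = 0 := by
      unfold gn
      simp
    unfold Pf.z
    rw [hg, h0]
    simp

lemma win4_bd {n m : ℕ} {P : Par n m} {D : Dyn P} {R : RC D} {Cp : ℝ} {α β : ℕ}
    (pf : Pf R Cp α β) (Cv : ℝ) (hCv : 1 ≤ Cv)
    (hv : ∀ (a b : Fin n → E m) (i : Fin n),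
      ‖gn a ^ (n - 2) • a i - gn b ^ (n - 2) • b i‖ ≤
        Cv * (gn b ^ (n - 2) * gn (fun i => a i - b i) + gn (fun i => a i - b i) ^ (n - 1)))
    (x : E n) :
    ‖(D.f x ^ (n - 2) * ∑ i, inner ℝ (D.G x i) (pf.v x) * fderiv ℝ pf.cw x (ev i)) -
      (pf.fl x ^ (n - 2) * ∑ i, inner ℝ (pf.Lam x i) (pf.v x) * fderiv ℝ pf.cw x (ev i))‖ ≤
      (n * Cv * (4 * P.Lκ)) * (‖x - R.x₀‖⁻¹ *
        ((pf.fl x ^ (n - 2) * gn (pf.g x) + gn (pf.g x) ^ (n - 1)) * ‖pf.v x‖ +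
          D.f x ^ (n - 1) * ‖pf.v x‖ ^ 3)) := by
  have hL := P.hκ.one_le
  have hf : 0 ≤ D.f x := win4_gn _
  have hfl : 0 ≤ pf.fl x := win4_gn _
  have hgg : 0 ≤ gn (pf.g x) := win4_gn _
  by_cases hx : x ∈ ball (0 : E n) 64
  · have hg : pf.g x = fun i => D.G x i - pf.Lam x i := by
      funext i
      unfold Pf.g
      rw [Set.indicator_of_mem hx]
    have e1 : (D.f x ^ (n - 2) * ∑ i, inner ℝ (D.G x i) (pf.v x) * fderiv ℝ pf.cw x (ev i)) -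
        (pf.fl x ^ (n - 2) * ∑ i, inner ℝ (pf.Lam x i) (pf.v x) * fderiv ℝ pf.cw x (ev i)) =
        ∑ i, inner ℝ (gn (D.G x) ^ (n - 2) • D.G x i - gn (pf.Lam x) ^ (n - 2) • pf.Lam x i)
          (pf.v x) * fderiv ℝ pf.cw x (ev i) := by
      rw [Finset.mul_sum, Finset.mul_sum, ← Finset.sum_sub_distrib]
      refine Finset.sum_congr rfl fun i _ => ?_
      rw [inner_sub_left, real_inner_smul_left, real_inner_smul_left]
      unfold Dyn.f Pf.fl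
      ring
    rw [e1]
    refine (norm_sum_le _ _).trans ?_
    have h1 : ∀ i ∈ (Finset.univ : Finset (Fin n)),
        ‖inner ℝ (gn (D.G x) ^ (n - 2) • D.G x i - gn (pf.Lam x) ^ (n - 2) • pf.Lam x i)
          (pf.v x) * fderiv ℝ pf.cw x (ev i)‖ ≤
        (Cv * (pf.fl x ^ (n - 2) * gn (pf.g x) + gn (pf.g x) ^ (n - 1))) * ‖pf.v x‖ *
          (4 * P.Lκ * ‖x - R.x₀‖⁻¹) := by
      intro i _
      rw [norm_mul]
      refine mul_le_mul ?_ (win4_cwd pf x i) (norm_nonneg _) (by positivity)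
      refine (norm_inner_le_norm _ _).trans ?_
      refine mul_le_mul_of_nonneg_right ?_ (norm_nonneg _)
      rw [hg]
      exact hv (D.G x) (pf.Lam x) i
    refine (Finset.sum_le_sum h1).trans ?_
    rw [Finset.sum_const, Finset.card_univ, Fintype.card_fin, nsmul_eq_mul]
    have h2 : 0 ≤ (n * Cv * (4 * P.Lκ)) * (‖x - R.x₀‖⁻¹ * (D.f x ^ (n - 1) * ‖pf.v x‖ ^ 3)) := by
      positivity
    have h3 : (n : ℝ) * ((Cv * (pf.fl x ^ (n - 2) * gn (pf.g x) + gn (pf.g x) ^ (n - 1))) *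
        ‖pf.v x‖ * (4 * P.Lκ * ‖x - R.x₀‖⁻¹)) = (n * Cv * (4 * P.Lκ)) * (‖x - R.x₀‖⁻¹ *
        ((pf.fl x ^ (n - 2) * gn (pf.g x) + gn (pf.g x) ^ (n - 1)) * ‖pf.v x‖)) := by ring
    rw [h3]
    have h4 : (n * Cv * (4 * P.Lκ)) * (‖x - R.x₀‖⁻¹ *
        ((pf.fl x ^ (n - 2) * gn (pf.g x) + gn (pf.g x) ^ (n - 1)) * ‖pf.v x‖ +
          D.f x ^ (n - 1) * ‖pf.v x‖ ^ 3)) = (n * Cv * (4 * P.Lκ)) * (‖x - R.x₀‖⁻¹ *
        ((pf.fl x ^ (n - 2) * gn (pf.g x) + gn (pf.g x) ^ (n - 1)) * ‖pf.v x‖)) +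
        (n * Cv * (4 * P.Lκ)) * (‖x - R.x₀‖⁻¹ * (D.f x ^ (n - 1) * ‖pf.v x‖ ^ 3)) := by ring
    rw [h4]
    linarith
  · have hv0 : pf.v x = 0 := by
      unfold Pf.v
      rw [Set.indicator_of_notMem hx]
    rw [hv0]
    simp only [inner_zero_right, zero_mul, Finset.sum_const_zero, mul_zero, sub_zero, norm_zero]
    positivity

theorem win4 {n m : ℕ} (P : Par n m) (Cp : ℝ) (hCp : 1 ≤ Cp) : Uni P (fun C _ R =>
    ∀ (α β : ℕ) (pf : Pf R Cp α β), α + 2 ≤ β → ∀ (ηb : ℝ) (V : ℕ → (Fin n → ℤ) → ℝ),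
      0 ≤ ηb → ηb ≤ 1 → (∀ j z, 0 ≤ V j z) → pf.HV ηb V →
      ηb * (∫ x in R.S, pf.cw x * pf.z x) ≤
        C * (ηb * (pf.Cur + pf.Bdy) + pf.SV V + ∑ j ∈ Finset.Icc α β, pf.Er j)) := by
  obtain ⟨C1, t1, hC1, ht1, H1⟩ := win1 P Cp hCp
  obtain ⟨C2, t2, hC2, ht2, H2⟩ := win2 P Cp hCp
  obtain ⟨C3, t3, hC3, ht3, H3⟩ := w_leS P Cp hCp
  obtain ⟨C4, t4, hC4, ht4, H4⟩ := b_pow P
  obtain ⟨Cv, hCv, hv⟩ := vec_diff (m := m) P.hn
  have hκ := P.hG.kap_pos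
  have hL := P.hκ.one_le
  set K : ℝ := n * Cv * (4 * P.Lκ) with hK
  have hK0 : 0 ≤ K := by positivity
  refine ⟨2 ^ n * ((1 + C1 + C2) / P.κ₀ + C3 + K) + 1, min (min t1 t2) (min t3 t4), ?_,
    lt_min (lt_min ht1 ht2) (lt_min ht3 ht4), ?_⟩
  · have : 0 ≤ 2 ^ n * ((1 + C1 + C2) / P.κ₀ + C3 + K) := by positivity
    linarith
  intro Q C₅ t₀ h5 h0 h
  obtain ⟨e1, he1, he11, G1⟩ := H1 Q C₅ t₀ h5 h0
    (h.trans ((min_le_left _ _).trans (min_le_left _ _)))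
  obtain ⟨e2, he2, he21, G2⟩ := H2 Q C₅ t₀ h5 h0
    (h.trans ((min_le_left _ _).trans (min_le_right _ _)))
  obtain ⟨e3, he3, he31, G3⟩ := H3 Q C₅ t₀ h5 h0
    (h.trans ((min_le_right _ _).trans (min_le_left _ _)))
  obtain ⟨e4, he4, he41, G4⟩ := H4 Q C₅ t₀ h5 h0
    (h.trans ((min_le_right _ _).trans (min_le_right _ _)))
  refine ⟨min (min e1 e2) (min e3 e4), lt_min (lt_min he1 he2) (lt_min he3 he4),
    ((min_le_left _ _).trans (min_le_left _ _)).trans he11, ?_⟩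
  intro D R hR α β pf hαβ ηb V hη0 hη1 hV hHV
  have hR1 := hR.mono ((min_le_left _ _).trans (min_le_left _ _))
  have hR2 := hR.mono ((min_le_left _ _).trans (min_le_right _ _))
  have hR3 := hR.mono ((min_le_right _ _).trans (min_le_left _ _))
  have hR4 := hR.mono ((min_le_right _ _).trans (min_le_right _ _))
  have I1 := G1 D R hR1 α β pf hαβ ηb V hη0 hη1 hHV
  have I2 := G2 D R hR2 α β pf hαβ
  have I3 := G3 D R hR3 α β pf hαβ
  have hS : MeasurableSet R.S := (G4 D R hR4).1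
  obtain ⟨i1, i2, i3, iz, iB, iC, iA, iA', iBd, iBd'⟩ := w_int pf hαβ hS
  have hcw : ∀ x, 0 ≤ pf.cw x := fun x => ((chi_win P R.x₀ α β (by omega)).1 x).1
  -- the left side
  have hz : ∫ x in R.S, pf.cw x * pf.z x ≤
      2 ^ n * ((∫ x in R.S, pf.cw x * (D.f x ^ (n - 2) * ∑ i, inner ℝ (D.G x i) (pf.g x i))) -
        ∫ x in R.S, pf.cw x * (pf.fl x ^ (n - 2) * ∑ i, inner ℝ (pf.Lam x i) (pf.g x i))) := by
    rw [← integral_sub iA.integrableOn iA'.integrableOn, ← integral_const_mul]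
    refine integral_mono iz.integrableOn
      ((iA.integrableOn.sub iA'.integrableOn).const_mul _) ?_
    intro x
    have h1 := mul_le_mul_of_nonneg_left (win4_z pf x) (hcw x)
    refine h1.trans (le_of_eq ?_)
    simp only [Pi.sub_apply]
    ring
  -- the boundary term
  have hB : |(∫ x in R.S, D.f x ^ (n - 2) * ∑ i, inner ℝ (D.G x i) (pf.v x) *
        fderiv ℝ pf.cw x (ev i)) -
      ∫ x in R.S, pf.fl x ^ (n - 2) * ∑ i, inner ℝ (pf.Lam x i) (pf.v x) *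
        fderiv ℝ pf.cw x (ev i)| ≤ K * pf.Bdy := by
    rw [← integral_sub iBd.integrableOn iBd'.integrableOn]
    have h1 : ∫ x in R.S, ((D.f x ^ (n - 2) * ∑ i, inner ℝ (D.G x i) (pf.v x) *
        fderiv ℝ pf.cw x (ev i)) - (pf.fl x ^ (n - 2) * ∑ i, inner ℝ (pf.Lam x i) (pf.v x) *
        fderiv ℝ pf.cw x (ev i))) = ∫ x in R.S ∩ (rg R.x₀ α ∪ rg R.x₀ β),
        ((D.f x ^ (n - 2) * ∑ i, inner ℝ (D.G x i) (pf.v x) *
        fderiv ℝ pf.cw x (ev i)) - (pf.fl x ^ (n - 2) * ∑ i, inner ℝ (pf.Lam x i) (pf.v x) *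
        fderiv ℝ pf.cw x (ev i))) := by
      refine setIntegral_eq_of_subset_of_forall_diff_eq_zero hS Set.inter_subset_left ?_
      intro x hx
      have h2 : x ∉ rg R.x₀ α ∪ rg R.x₀ β := fun h3 => hx.2 ⟨hx.1, h3⟩
      rw [win4_cw0 pf x h2]
      simp
    rw [h1]
    unfold Pf.Bdy
    rw [← integral_const_mul, ← Real.norm_eq_abs]
    refine norm_integral_le_of_norm_le (iB.const_mul _) ?_
    exact Filter.Eventually.of_forall fun x => win4_bd pf Cv hCv hv x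
  have hCur : 0 ≤ pf.Cur := by
    unfold Pf.Cur
    refine integral_nonneg fun x => ?_
    have := hcw x
    have h1 : 0 ≤ gn (pf.g x) := win4_gn _
    have h2 : 0 ≤ pf.fl x := win4_gn _
    simp only [Pi.zero_apply]
    positivity
  have hBdy : 0 ≤ pf.Bdy := by
    unfold Pf.Bdy
    refine integral_nonneg fun x => ?_
    have h1 : 0 ≤ gn (pf.g x) := win4_gn _
    have h2 : 0 ≤ pf.fl x := win4_gn _
    have h3 : 0 ≤ D.f x := win4_gn _
    simp only [Pi.zero_apply]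
    positivity
  have hE : 0 ≤ ∑ j ∈ Finset.Icc α β, pf.Er j := by
    refine Finset.sum_nonneg fun j _ => ?_
    unfold Pf.Er
    have h1 : 0 ≤ R.Dj j := by
      unfold RC.Dj
      refine integral_nonneg fun x => ?_
      have h3 : 0 ≤ D.f x := win4_gn _
      simp only [Pi.zero_apply]
      positivity
    have h2 := pf.a_nonneg
    have h3 := R.e_pos
    positivity
  have hSV : 0 ≤ pf.SV V := by
    unfold Pf.SV
    exact Finset.sum_nonneg fun j _ => Finset.sum_nonneg fun z _ => hV j z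
  set A := ∫ x in R.S, pf.cw x * (D.f x ^ (n - 2) * ∑ i, inner ℝ (D.G x i) (pf.g x i)) with hA
  set B := ∫ x in R.S, D.f x ^ (n - 2) * ∑ i, inner ℝ (D.G x i) (pf.v x) *
        fderiv ℝ pf.cw x (ev i) with hBB
  set A' := ∫ x in R.S, pf.cw x * (pf.fl x ^ (n - 2) * ∑ i, inner ℝ (pf.Lam x i) (pf.g x i))
    with hA'
  set B' := ∫ x in R.S, pf.fl x ^ (n - 2) * ∑ i, inner ℝ (pf.Lam x i) (pf.v x) *
        fderiv ℝ pf.cw x (ev i) with hBB'
  set I := (∫ x in R.S, pf.cw x * pf.gL x) + (∫ x, pf.FL x) + (∫ x, pf.QL x) with hI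
  set Ee := ∑ j ∈ Finset.Icc α β, pf.Er j with hEe
  clear_value A B A' B' I Ee
  generalize pf.Cur = Cu at *
  generalize pf.Bdy = Bd at *
  generalize pf.SV V = SV at *
  have hX : 0 ≤ ηb * (Cu + Bd) := by positivity
  have s1 : ηb * (A + B) ≤ (SV + C1 * Ee + C2 * (ηb * (Cu + Bd) + Ee)) / P.κ₀ := by
    rw [le_div_iff₀ hκ]
    have h1 := mul_le_mul_of_nonneg_left I2 hη0
    have h2 : ηb * Ee ≤ Ee := mul_le_of_le_one_left hE hη1
    have h3 : ηb * (C2 * (Cu + Bd + Ee)) ≤ C2 * (ηb * (Cu + Bd) + Ee) := by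
      have h4 : ηb * (C2 * (Cu + Bd + Ee)) = C2 * (ηb * (Cu + Bd) + ηb * Ee) := by ring
      rw [h4]
      exact mul_le_mul_of_nonneg_left (by linarith) (by linarith)
    have h5 : ηb * (A + B) * P.κ₀ = ηb * (P.κ₀ * (A + B)) := by ring
    rw [h5]
    linarith
  have s2 : -(ηb * (A' + B')) ≤ C3 * (ηb * (Cu + Bd) + Ee) := by
    have h1 : -(A' + B') ≤ C3 * (Cu + Ee) := (neg_le_abs _).trans I3
    have h2 := mul_le_mul_of_nonneg_left h1 hη0
    have h3 : ηb * Ee ≤ Ee := mul_le_of_le_one_left hE hη1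
    have h4 : ηb * Cu ≤ ηb * (Cu + Bd) := mul_le_mul_of_nonneg_left (by linarith) hη0
    have h5 : ηb * (C3 * (Cu + Ee)) = C3 * (ηb * Cu + ηb * Ee) := by ring
    rw [h5] at h2
    have h6 : C3 * (ηb * Cu + ηb * Ee) ≤ C3 * (ηb * (Cu + Bd) + Ee) :=
      mul_le_mul_of_nonneg_left (by linarith) (by linarith)
    linarith
  have s3 : -(ηb * (B - B')) ≤ K * (ηb * (Cu + Bd)) := by
    have h1 : -(B - B') ≤ K * Bd := (neg_le_abs _).trans hB
    have h2 := mul_le_mul_of_nonneg_left h1 hη0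
    have h4 : ηb * Bd ≤ ηb * (Cu + Bd) := mul_le_mul_of_nonneg_left (by linarith) hη0
    have h5 : ηb * (K * Bd) = K * (ηb * Bd) := by ring
    rw [h5] at h2
    have h6 := mul_le_mul_of_nonneg_left h4 hK0
    linarith
  have s4 : ηb * (A - A') ≤ (SV + C1 * Ee + C2 * (ηb * (Cu + Bd) + Ee)) / P.κ₀ +
      C3 * (ηb * (Cu + Bd) + Ee) + K * (ηb * (Cu + Bd)) := by
    have h1 : ηb * (A - A') = ηb * (A + B) + -(ηb * (A' + B')) + -(ηb * (B - B')) := by ring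
    rw [h1]
    linarith
  set Y := ηb * (Cu + Bd) + SV + Ee with hY
  have hY0 : 0 ≤ Y := by positivity
  have s5 : (SV + C1 * Ee + C2 * (ηb * (Cu + Bd) + Ee)) / P.κ₀ ≤ (1 + C1 + C2) / P.κ₀ * Y := by
    rw [div_mul_eq_mul_div]
    refine div_le_div_of_nonneg_right ?_ hκ.le
    have h1 : SV ≤ Y := by linarith
    have h2 : Ee ≤ Y := by linarith
    have h3 : ηb * (Cu + Bd) + Ee ≤ Y := by linarith
    have h4 := mul_le_mul_of_nonneg_left h2 (by linarith : (0 : ℝ) ≤ C1)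
    have h5 := mul_le_mul_of_nonneg_left h3 (by linarith : (0 : ℝ) ≤ C2)
    have h6 : (1 + C1 + C2) * Y = Y + C1 * Y + C2 * Y := by ring
    rw [h6]
    linarith
  have s6 : C3 * (ηb * (Cu + Bd) + Ee) ≤ C3 * Y :=
    mul_le_mul_of_nonneg_left (by linarith) (by linarith)
  have s7 : K * (ηb * (Cu + Bd)) ≤ K * Y := mul_le_mul_of_nonneg_left (by linarith) hK0
  have s8 : ηb * (A - A') ≤ ((1 + C1 + C2) / P.κ₀ + C3 + K) * Y := by
    have h1 : ((1 + C1 + C2) / P.κ₀ + C3 + K) * Y = (1 + C1 + C2) / P.κ₀ * Y + C3 * Y + K * Y := by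
      ring
    rw [h1]
    linarith
  have s9 := mul_le_mul_of_nonneg_left hz hη0
  have s10 := mul_le_mul_of_nonneg_left s8 (by positivity : (0 : ℝ) ≤ 2 ^ n)
  have s11 : ηb * (2 ^ n * (A - A')) = 2 ^ n * (ηb * (A - A')) := by ring
  rw [s11] at s9
  have s12 : (2 ^ n * ((1 + C1 + C2) / P.κ₀ + C3 + K) + 1) * Y =
      2 ^ n * (((1 + C1 + C2) / P.κ₀ + C3 + K) * Y) + Y := by ring
  rw [s12]
  linarith

end H60NT
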